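import Pool.Agent.Lib.PLH.Defs

/-!
MODULE A1 (pure, 150 lines). Elementary facts about the class `Cl m`.

`Cl.comp`: if `s ≤ S` use `lo`: `min 1 ((S/s)^m) ≥ (S/s)^(-|m|) ≥ K^(-|m|)` (as `S/s ≤ K`), so
`a s ≤ K^|m| a S`. If `S ≤ s` use `hi` for `S ≤ s`: `max 1 ((s/S)^m) ≤ (s/S)^|m| ≤ K^|m|`.
`Cl.mul_mono`: `s = 0`: the left side is `0`, the right side is `a S * S ≥ 0`. `s > 0`: by `lo`
`a S * S ≥ min 1 ((S/s)^m) * (S/s) * (a s * s)`, and `(S/s)^m * (S/s) = (S/s)^(m+1) ≥ 1`,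
`S/s ≥ 1`.
`Cl.shift_mono`: `D = 0` clear. Otherwise
`a(α+D) D = (a(α+D)(α+D)) * (D/(α+D))`, both factors are nondecreasing in `D`.
`Cl.shift_mono2`: multiply by `D ≤ D'`.
`Cl.sqrt`: square roots of the inequalities, `sqrt (x^m) = x^(m/2)`.
`Nice.mono`: for `m ≥ 0`, `min 1 ((S/s)^m) = 1`, so `a s ≤ a S` for `0 < s ≤ S`; let `s → 0` with
the continuity of `a` for `s = 0`. Same for `Nice.anti` with `hi` and `m ≤ 0`.
`Nice.pos`: from `bd`.
-/

open MeasureTheory Set Filter Topology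

namespace PLH

variable {m : ℝ} {a : ℝ → ℝ}

private theorem a1_rpow_abs_bounds {x K : ℝ} (hx : 1 ≤ x) (hxK : x ≤ K) (m : ℝ) :
    (K ^ |m|)⁻¹ ≤ min 1 (x ^ m) ∧ max 1 (x ^ m) ≤ K ^ |m| := by
  have hx0 : 0 < x := one_pos.trans_le hx
  have hK0 : 0 < K := hx0.trans_le hxK
  have hK1 : 1 ≤ K := hx.trans hxK
  have h0 : 1 ≤ K ^ |m| := Real.one_le_rpow hK1 (abs_nonneg m)
  have h1 : x ^ |m| ≤ K ^ |m| := Real.rpow_le_rpow hx0.le hxK (abs_nonneg m)
  have h2 : x ^ m ≤ x ^ |m| := Real.rpow_le_rpow_of_exponent_le hx (le_abs_self m)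
  have h3 : x ^ (-|m|) ≤ x ^ m := Real.rpow_le_rpow_of_exponent_le hx (neg_abs_le m)
  have h4 : (K ^ |m|)⁻¹ ≤ x ^ (-|m|) := by
    rw [Real.rpow_neg hx0.le]
    exact inv_anti₀ (Real.rpow_pos_of_pos hx0 _) h1
  exact ⟨le_min (inv_le_one_of_one_le₀ h0) (h4.trans h3), max_le h0 (h2.trans h1)⟩

theorem Cl.comp (h : Cl m a) {K s S : ℝ} (hK : 1 ≤ K) (hs : 0 < s) (hS : 0 < S)
    (h1 : s ≤ K * S) (h2 : S ≤ K * s) : a s ≤ K ^ |m| * a S := by
  have hK0 : 0 < K := one_pos.trans_le hK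
  have hKm : 0 < K ^ |m| := Real.rpow_pos_of_pos hK0 _
  rcases le_total s S with hsS | hsS
  · have h3 : 1 ≤ S / s := (one_le_div hs).2 hsS
    have h4 : S / s ≤ K := (div_le_iff₀ hs).2 h2
    have h5 := (a1_rpow_abs_bounds h3 h4 m).1
    have h6 := h.lo s S hs hsS
    have h7 : (K ^ |m|)⁻¹ * a s ≤ a S :=
      (mul_le_mul_of_nonneg_right h5 (h.pos s hs).le).trans h6
    rwa [inv_mul_le_iff₀ hKm] at h7
  · have h3 : 1 ≤ s / S := (one_le_div hS).2 hsS
    have h4 : s / S ≤ K := (div_le_iff₀ hS).2 h1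
    have h5 := (a1_rpow_abs_bounds h3 h4 m).2
    have h6 := h.hi S s hS hsS
    exact h6.trans (mul_le_mul_of_nonneg_right h5 (h.pos S hS).le)

theorem Cl.mul_mono (h : Cl m a) (hm : -1 < m) {s S : ℝ} (hs : 0 ≤ s) (hsS : s ≤ S) :
    a s * s ≤ a S * S := by
  rcases hs.eq_or_lt with rfl | hs0
  · rw [mul_zero]
    rcases hsS.eq_or_lt with rfl | hS0
    · rw [mul_zero]
    · exact (mul_pos (h.pos S hS0) hS0).le
  · have hS0 : 0 < S := hs0.trans_le hsS
    have h1 := h.lo s S hs0 hsS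
    have hx : 1 ≤ S / s := (one_le_div hs0).2 hsS
    have hx0 : 0 < S / s := one_pos.trans_le hx
    have h2 : 1 ≤ min 1 ((S / s) ^ m) * (S / s) := by
      rw [min_mul_of_nonneg _ _ hx0.le]
      refine le_min ?_ ?_
      · rw [one_mul]
        exact hx
      · have h3 : (S / s) ^ m * (S / s) = (S / s) ^ (m + 1) := by
          rw [Real.rpow_add hx0, Real.rpow_one]
        rw [h3]
        exact Real.one_le_rpow hx (by linarith)
    have has : 0 < a s * s := mul_pos (h.pos s hs0) hs0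
    calc a s * s = 1 * (a s * s) := (one_mul _).symm
      _ ≤ min 1 ((S / s) ^ m) * (S / s) * (a s * s) :=
        mul_le_mul_of_nonneg_right h2 has.le
      _ = min 1 ((S / s) ^ m) * a s * S := by
        field_simp
      _ ≤ a S * S := mul_le_mul_of_nonneg_right h1 hS0.le

theorem Cl.shift_mono (h : Cl m a) (hm : -1 < m) {α D D' : ℝ} (hα : 0 ≤ α) (hD : 0 ≤ D)
    (hDD : D ≤ D') : a (α + D) * D ≤ a (α + D') * D' := by
  rcases hD.eq_or_lt with rfl | hD0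
  · rw [mul_zero]
    rcases hDD.eq_or_lt with rfl | hD0
    · rw [mul_zero]
    · exact (mul_pos (h.pos _ (add_pos_of_nonneg_of_pos hα hD0)) hD0).le
  · have hD0' : 0 < D' := hD0.trans_le hDD
    have hp : 0 < α + D := add_pos_of_nonneg_of_pos hα hD0
    have hp' : 0 < α + D' := add_pos_of_nonneg_of_pos hα hD0'
    have h1 := h.mul_mono hm hp.le (add_le_add_right hDD α)
    have h2 : D / (α + D) ≤ D' / (α + D') := by
      rw [div_le_div_iff₀ hp hp']
      nlinarith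
    have h3 : a (α + D) * D = a (α + D) * (α + D) * (D / (α + D)) := by
      field_simp
    have h4 : a (α + D') * D' = a (α + D') * (α + D') * (D' / (α + D')) := by
      field_simp
    rw [h3, h4]
    exact mul_le_mul h1 h2 (div_nonneg hD hp.le) (mul_pos (h.pos _ hp') hp').le

theorem Cl.shift_mono2 (h : Cl m a) (hm : -1 < m) {α D D' : ℝ} (hα : 0 ≤ α) (hD : 0 ≤ D)
    (hDD : D ≤ D') : a (α + D) * D ^ 2 ≤ a (α + D') * D' ^ 2 := by
  have h1 := h.shift_mono hm hα hD hDD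
  have h0 : 0 ≤ a (α + D') * D' := by
    rcases (hD.trans hDD).eq_or_lt with h2 | h2
    · rw [← h2, mul_zero]
    · exact (mul_pos (h.pos _ (add_pos_of_nonneg_of_pos hα h2)) h2).le
  calc a (α + D) * D ^ 2 = a (α + D) * D * D := by ring
    _ ≤ a (α + D') * D' * D' := mul_le_mul h1 hDD hD h0
    _ = a (α + D') * D' ^ 2 := by ring

private theorem a1_sqrt_rpow {x : ℝ} (hx : 0 < x) (m : ℝ) : Real.sqrt (x ^ m) = x ^ (m / 2) := by
  rw [Real.sqrt_eq_rpow, ← Real.rpow_mul hx.le]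
  congr 1
  ring

theorem Cl.sqrt (h : Cl m a) : Cl (m / 2) (fun s => Real.sqrt (a s)) := by
  refine ⟨fun s hs => Real.sqrt_pos.2 (h.pos s hs), fun s S hs hsS => ?_, fun s S hs hsS => ?_⟩
  · have hx : 0 < S / s := div_pos (hs.trans_le hsS) hs
    have h1 := Real.sqrt_le_sqrt (h.lo s S hs hsS)
    have h2 : Real.sqrt (min 1 ((S / s) ^ m)) = min 1 ((S / s) ^ (m / 2)) := by
      rw [Real.sqrt_monotone.map_min, Real.sqrt_one, a1_sqrt_rpow hx]
    have h3 : 0 ≤ min 1 ((S / s) ^ m) := le_min zero_le_one (Real.rpow_pos_of_pos hx _).le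
    rwa [Real.sqrt_mul h3, h2] at h1
  · have hx : 0 < S / s := div_pos (hs.trans_le hsS) hs
    have h1 := Real.sqrt_le_sqrt (h.hi s S hs hsS)
    have h2 : Real.sqrt (max 1 ((S / s) ^ m)) = max 1 ((S / s) ^ (m / 2)) := by
      rw [Real.sqrt_monotone.map_max, Real.sqrt_one, a1_sqrt_rpow hx]
    have h3 : 0 ≤ max 1 ((S / s) ^ m) := zero_le_one.trans (le_max_left _ _)
    rwa [Real.sqrt_mul h3, h2] at h1

theorem Nice.mono (h : Nice m a) (hm : 0 ≤ m) : MonotoneOn a (Ici 0) := by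
  have h1 : ∀ s S, 0 < s → s ≤ S → a s ≤ a S := by
    intro s S hs hsS
    have h2 := h.lo s S hs hsS
    have h3 : 1 ≤ (S / s) ^ m := Real.one_le_rpow ((one_le_div hs).2 hsS) hm
    rwa [min_eq_left h3, one_mul] at h2
  intro s hs S hS hsS
  rcases (show 0 ≤ s from hs).eq_or_lt with rfl | hs0
  · rcases hsS.eq_or_lt with rfl | hS0
    · exact le_rfl
    · have h2 : Tendsto a (𝓝[>] 0) (𝓝 (a 0)) :=
        (h.cont.tendsto 0).mono_left nhdsWithin_le_nhds
      refine le_of_tendsto h2 ?_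
      filter_upwards [Ioo_mem_nhdsGT hS0] with t ht
      exact h1 t S ht.1 ht.2.le
  · exact h1 s S hs0 hsS

theorem Nice.anti (h : Nice m a) (hm : m ≤ 0) : AntitoneOn a (Ici 0) := by
  have h1 : ∀ s S, 0 < s → s ≤ S → a S ≤ a s := by
    intro s S hs hsS
    have h2 := h.hi s S hs hsS
    have h3 : (S / s) ^ m ≤ 1 := Real.rpow_le_one_of_one_le_of_nonpos ((one_le_div hs).2 hsS) hm
    rwa [max_eq_left h3, one_mul] at h2
  intro s hs S hS hsS
  rcases (show 0 ≤ s from hs).eq_or_lt with rfl | hs0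
  · rcases hsS.eq_or_lt with rfl | hS0
    · exact le_rfl
    · have h2 : Tendsto a (𝓝[>] 0) (𝓝 (a 0)) :=
        (h.cont.tendsto 0).mono_left nhdsWithin_le_nhds
      refine ge_of_tendsto h2 ?_
      filter_upwards [Ioo_mem_nhdsGT hS0] with t ht
      exact h1 t S ht.1 ht.2.le
  · exact h1 s S hs0 hsS

theorem Nice.pos' (h : Nice m a) {s : ℝ} (hs : 0 ≤ s) : 0 < a s := by
  obtain ⟨lam, Lam, hlam, hb⟩ := h.bd
  exact hlam.trans_le (hb s hs).1

end PLH
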