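import Pool.Agent.Lib.PLH.A1

/-!
MODULE A2 (pure, 200 lines). Monotonicity and Lipschitz property of the flux `A(ξ) = a(|ξ|) ξ`.

By symmetry let `S = ‖ξ‖ ≥ s = ‖ζ‖`; `S = 0` is trivial. Identity (expand, with
`2⟨ξ,ζ⟩ = S² + s² - ‖ξ-ζ‖²`):
`⟨A ξ - A ζ, ξ - ζ⟩ = (a S + a s)/2 * ‖ξ-ζ‖² + (a S - a s)(S² - s²)/2`  (1)
`                  = (a S + a s)/2 * ρ + (S - s)(a S * S - a s * s)`, `ρ = ‖ξ-ζ‖² - (S-s)² ≥ 0`. (2)
(for `s = 0` the value `a 0` may be arbitrary: then `A ζ = 0`, `ζ = 0` and the claim is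
`min(1/2,1+m) a(S) S² ≤ a(S) S²`; treat this case separately.)
If `m ≥ 0`: `a s ≤ a S`, (1) gives `≥ a S/2 ‖ξ-ζ‖²`.
If `m < 0`: `a S ≤ a s ≤ a S (S/s)^(-m)` [from `lo`: `min 1 ((S/s)^m) = (S/s)^m`], so
`a S S - a s s ≥ a S S (1 - (s/S)^(1+m)) ≥ (1+m) a S (S - s)` by Bernoulli
`(s/S)^(1+m) ≤ 1 + (1+m)(s/S - 1)` (`Real.rpow_one_add_le_one_add_mul_self` or concavity),
then (2) gives `≥ a S ρ + ... ≥ min(1/2, 1+m) a S (ρ + (S-s)²)`.
Lipschitz: `A ξ - A ζ = a S (ξ - ζ) + (a S - a s) ζ`, and `|a S - a s| s ≤ max(1,m) a S (S - s)`: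
`m ≥ 0`: `a S - a s ≤ a S (1 - (s/S)^m)` and `τ(1 - τ^m) ≤ max(1,m)(1-τ)` for `τ = s/S ∈ [0,1]`
(`m ≥ 1`: Bernoulli `1-τ^m ≤ m(1-τ)`; `m ≤ 1`: `τ^m ≥ τ`); `m < 0`:
`(a s - a S) s ≤ a S ((S/s)^(-m) - 1) s = a S * S (τ^(1+m) - τ) ≤ a S * S (1 - τ)`.
`S - s ≤ ‖ξ-ζ‖`.
-/

open MeasureTheory Set Filter Topology

namespace PLH

variable {E : Type*} [NormedAddCommGroup E] [InnerProductSpace ℝ E] {m : ℝ} {a : ℝ → ℝ}

private theorem inv_ratio {s S : ℝ} (hs : 0 < s) (hS : 0 < S) : (S / s) ^ m = ((s / S) ^ m)⁻¹ := by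
  rw [← Real.inv_rpow (by positivity), inv_div]

private theorem rel_pos (h : Cl m a) (hm : 0 ≤ m) {s S : ℝ} (hs : 0 < s) (hsS : s ≤ S) :
    a s ≤ a S ∧ a S * (s / S) ^ m ≤ a s := by
  have hS : 0 < S := lt_of_lt_of_le hs hsS
  have h1 : (1 : ℝ) ≤ (S / s) ^ m := Real.one_le_rpow (by rw [le_div_iff₀ hs]; linarith) hm
  have hlo := h.lo s S hs hsS
  have hhi := h.hi s S hs hsS
  rw [min_eq_left h1, one_mul] at hlo
  rw [max_eq_right h1] at hhi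
  refine ⟨hlo, ?_⟩
  have hp : 0 < (s / S) ^ m := Real.rpow_pos_of_pos (by positivity) m
  rw [inv_ratio hs hS] at hhi
  calc a S * (s / S) ^ m ≤ (((s / S) ^ m)⁻¹ * a s) * (s / S) ^ m := by gcongr
    _ = a s := by field_simp

private theorem rel_neg (h : Cl m a) (hm : m < 0) {s S : ℝ} (hs : 0 < s) (hsS : s ≤ S) :
    a S ≤ a s ∧ a s ≤ a S * (s / S) ^ m := by
  have hS : 0 < S := lt_of_lt_of_le hs hsS
  have h1 : (S / s) ^ m ≤ 1 := Real.rpow_le_one_of_one_le_of_nonpos (by rw [le_div_iff₀ hs]; linarith) hm.le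
  have hlo := h.lo s S hs hsS
  have hhi := h.hi s S hs hsS
  rw [min_eq_right h1] at hlo
  rw [max_eq_left h1, one_mul] at hhi
  refine ⟨hhi, ?_⟩
  have hp : 0 < (s / S) ^ m := Real.rpow_pos_of_pos (by positivity) m
  rw [inv_ratio hs hS] at hlo
  calc a s = (((s / S) ^ m)⁻¹ * a s) * (s / S) ^ m := by field_simp
    _ ≤ a S * (s / S) ^ m := by gcongr

private theorem inner_eq (ξ ζ : E) : inner ℝ (A a ξ - A a ζ) (ξ - ζ) =
    a ‖ξ‖ * ‖ξ‖ ^ 2 + a ‖ζ‖ * ‖ζ‖ ^ 2 - (a ‖ξ‖ + a ‖ζ‖) * inner ℝ ξ ζ := by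
  unfold A
  rw [inner_sub_left, inner_sub_right, inner_sub_right, real_inner_smul_left, real_inner_smul_left,
    real_inner_smul_left, real_inner_smul_left, real_inner_self_eq_norm_sq, real_inner_self_eq_norm_sq,
    real_inner_comm ξ ζ]
  ring

private theorem D_eq (ξ ζ : E) : ‖ξ - ζ‖ ^ 2 = ‖ξ‖ ^ 2 + ‖ζ‖ ^ 2 - 2 * inner ℝ ξ ζ := by
  rw [norm_sub_sq_real]
  ring

private theorem mono_aux (hm : -1 < m) (h : Cl m a) (ξ ζ : E) (hle : ‖ζ‖ ≤ ‖ξ‖) :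
    min (1 / 2) (1 + m) * (a ‖ξ‖ * ‖ξ - ζ‖ ^ 2) ≤ inner ℝ (A a ξ - A a ζ) (ξ - ζ) := by
  rw [inner_eq]
  have hD := D_eq ξ ζ
  have hmin1 : min (1 / 2) (1 + m) ≤ 1 / 2 := min_le_left _ _
  have hmin2 : min (1 / 2) (1 + m) ≤ 1 + m := min_le_right _ _
  have hmin0 : 0 ≤ min (1 / 2) (1 + m) := le_min (by norm_num) (by linarith)
  have hd0 : ‖ξ‖ - ‖ζ‖ ≤ ‖ξ - ζ‖ := norm_sub_norm_le ξ ζ
  have hDnn : 0 ≤ ‖ξ - ζ‖ := norm_nonneg _
  rcases (norm_nonneg ζ).eq_or_lt with hs | hs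
  · have hz : ζ = 0 := norm_eq_zero.mp hs.symm
    subst hz
    simp only [sub_zero, norm_zero, inner_zero_right]
    rcases (norm_nonneg ξ).eq_or_lt with hS | hS
    · rw [← hS]
      simp
    · have := h.pos _ hS
      have h2 : 0 ≤ a ‖ξ‖ * ‖ξ‖ ^ 2 := by positivity
      nlinarith
  · have hS : 0 < ‖ξ‖ := lt_of_lt_of_le hs hle
    have haS := h.pos _ hS
    have has := h.pos _ hs
    set S := ‖ξ‖ with hSd
    set s := ‖ζ‖ with hsd
    set D := ‖ξ - ζ‖ with hDd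
    set t : ℝ := inner ℝ ξ ζ with ht
    have ht2 : t = (S ^ 2 + s ^ 2 - D ^ 2) / 2 := by linarith
    rcases le_or_gt 0 m with hm0 | hm0
    · obtain ⟨h1, -⟩ := rel_pos h hm0 hs hle
      have h2 : a S * S ^ 2 + a s * s ^ 2 - (a S + a s) * t =
          (a S + a s) / 2 * D ^ 2 + (a S - a s) * (S ^ 2 - s ^ 2) / 2 := by rw [ht2]; ring
      rw [h2]
      have h3 : 0 ≤ (a S - a s) * (S ^ 2 - s ^ 2) :=
        mul_nonneg (by linarith) (by nlinarith)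
      have h4 : 0 ≤ a S * D ^ 2 := by positivity
      have h5 : 0 ≤ a s * D ^ 2 := by positivity
      nlinarith
    · obtain ⟨h1, h1'⟩ := rel_neg h hm0 hs hle
      have h2 : a S * S ^ 2 + a s * s ^ 2 - (a S + a s) * t =
          (a S + a s) / 2 * (D ^ 2 - (S - s) ^ 2) + (S - s) * (a S * S - a s * s) := by rw [ht2]; ring
      rw [h2]
      have hρ : 0 ≤ D ^ 2 - (S - s) ^ 2 := by nlinarith
      set τ := s / S with hτ
      have hτ0 : 0 < τ := by positivity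
      have hτ1 : τ ≤ 1 := by rw [hτ, div_le_one hS]; exact hle
      have hsτ : s = τ * S := by rw [hτ]; field_simp
      have hB : τ ^ (1 + m) ≤ 1 + (1 + m) * (τ - 1) := by
        have := rpow_one_add_le_one_add_mul_self (s := τ - 1) (by linarith) (p := 1 + m) (by linarith) (by linarith)
        rwa [add_sub_cancel] at this
      have hpow : τ ^ (1 + m) = τ * τ ^ m := by rw [Real.rpow_add hτ0, Real.rpow_one]
      have h5 : a s * s ≤ a S * S * τ ^ (1 + m) := by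
        calc a s * s ≤ (a S * τ ^ m) * s := by gcongr
          _ = a S * S * τ ^ (1 + m) := by rw [hpow, hsτ]; ring
      have h6 : (1 + m) * (a S * (S - s)) ≤ a S * S - a s * s := by
        have h7 : a S * S * τ ^ (1 + m) ≤ a S * S * (1 + (1 + m) * (τ - 1)) := by gcongr
        have h8 : a S * S * (1 + (1 + m) * (τ - 1)) = a S * S - (1 + m) * (a S * (S - s)) := by
          rw [hsτ]; ring
        linarith
      have h9 : 0 ≤ S - s := by linarith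
      have h10 : (1 + m) * (a S * (S - s) ^ 2) ≤ (S - s) * (a S * S - a s * s) := by
        have := mul_le_mul_of_nonneg_left h6 h9
        calc (1 + m) * (a S * (S - s) ^ 2) = (S - s) * ((1 + m) * (a S * (S - s))) := by ring
          _ ≤ _ := this
      have h11 : a S * (D ^ 2 - (S - s) ^ 2) ≤ (a S + a s) / 2 * (D ^ 2 - (S - s) ^ 2) := by
        gcongr
        linarith
      have h12 : min (1 / 2) (1 + m) * (a S * (D ^ 2 - (S - s) ^ 2)) ≤ a S * (D ^ 2 - (S - s) ^ 2) := by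
        have : 0 ≤ a S * (D ^ 2 - (S - s) ^ 2) := by positivity
        nlinarith
      have h13 : min (1 / 2) (1 + m) * (a S * (S - s) ^ 2) ≤ (1 + m) * (a S * (S - s) ^ 2) := by
        gcongr
      calc min (1 / 2) (1 + m) * (a S * D ^ 2) = min (1 / 2) (1 + m) * (a S * (D ^ 2 - (S - s) ^ 2)) +
            min (1 / 2) (1 + m) * (a S * (S - s) ^ 2) := by ring
        _ ≤ a S * (D ^ 2 - (S - s) ^ 2) + (1 + m) * (a S * (S - s) ^ 2) := add_le_add h12 h13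
        _ ≤ (a S + a s) / 2 * (D ^ 2 - (S - s) ^ 2) + (S - s) * (a S * S - a s * s) := add_le_add h11 h10

theorem alg_mono (hm : -1 < m) (h : Cl m a) (ξ ζ : E) :
    min (1 / 2) (1 + m) * (a (max ‖ξ‖ ‖ζ‖) * ‖ξ - ζ‖ ^ 2) ≤
      inner ℝ (A a ξ - A a ζ) (ξ - ζ) := by
  rcases le_total ‖ζ‖ ‖ξ‖ with hle | hle
  · rw [max_eq_left hle]
    exact mono_aux hm h ξ ζ hle
  · rw [max_eq_right hle]
    have h1 := mono_aux hm h ζ ξ hle
    rw [norm_sub_rev ξ ζ]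
    have h2 : inner ℝ (A a ξ - A a ζ) (ξ - ζ) = inner ℝ (A a ζ - A a ξ) (ζ - ξ) := by
      rw [← neg_sub (A a ζ) (A a ξ), ← neg_sub ζ ξ, inner_neg_neg]
    rw [h2]
    exact h1

private theorem diff_aux (hm : -1 < m) (h : Cl m a) {s S : ℝ} (hs : 0 ≤ s) (hsS : s ≤ S) (hS : 0 < S) :
    |a S - a s| * s ≤ max 1 m * (a S * (S - s)) := by
  have haS := h.pos _ hS
  have hmax : 1 ≤ max 1 m := le_max_left _ _
  rcases hs.eq_or_lt with hs0 | hs0
  · rw [← hs0]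
    simp only [mul_zero, sub_zero]
    positivity
  · have has := h.pos _ hs0
    set τ := s / S with hτ
    have hτ0 : 0 < τ := by positivity
    have hτ1 : τ ≤ 1 := by rw [hτ, div_le_one hS]; exact hsS
    have hsτ : s = τ * S := by rw [hτ]; field_simp
    have hSS : S - s = S * (1 - τ) := by rw [hsτ]; ring
    rcases le_or_gt 0 m with hm0 | hm0
    · obtain ⟨h1, h2⟩ := rel_pos h hm0 hs0 hsS
      rw [abs_of_nonneg (by linarith)]
      have h3 : (a S - a s) * s ≤ a S * S * (τ * (1 - τ ^ m)) := by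
        calc (a S - a s) * s ≤ (a S - a S * τ ^ m) * s := by gcongr
          _ = a S * S * (τ * (1 - τ ^ m)) := by rw [hsτ]; ring
      have h4 : τ * (1 - τ ^ m) ≤ max 1 m * (1 - τ) := by
        rcases le_or_gt 1 m with hm1 | hm1
        · have hB := one_add_mul_self_le_rpow_one_add (s := τ - 1) (by linarith) (p := m) hm1
          rw [add_sub_cancel] at hB
          have h5 : τ ^ m ≤ 1 := Real.rpow_le_one hτ0.le hτ1 hm0
          rw [max_eq_right hm1]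
          nlinarith
        · have h5 : τ ≤ τ ^ m := by
            have := Real.rpow_le_rpow_of_exponent_ge hτ0 hτ1 hm1.le
            rwa [Real.rpow_one] at this
          rw [max_eq_left hm1.le]
          nlinarith
      calc (a S - a s) * s ≤ a S * S * (τ * (1 - τ ^ m)) := h3
        _ ≤ a S * S * (max 1 m * (1 - τ)) := by gcongr
        _ = max 1 m * (a S * (S - s)) := by rw [hSS]; ring
    · obtain ⟨h1, h2⟩ := rel_neg h hm0 hs0 hsS
      rw [abs_of_nonpos (by linarith)]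
      have hpow : τ ^ (1 + m) = τ * τ ^ m := by rw [Real.rpow_add hτ0, Real.rpow_one]
      have h3 : τ ^ (1 + m) ≤ 1 := Real.rpow_le_one hτ0.le hτ1 (by linarith)
      have h4 : 0 ≤ a S * (S * (1 - τ)) := by
        have : 0 ≤ 1 - τ := by linarith
        positivity
      calc -(a S - a s) * s = (a s - a S) * s := by ring
        _ ≤ (a S * τ ^ m - a S) * s := by gcongr
        _ = a S * S * (τ ^ (1 + m) - τ) := by rw [hpow, hsτ]; ring
        _ ≤ a S * S * (1 - τ) := by gcongr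
        _ = 1 * (a S * (S * (1 - τ))) := by ring
        _ ≤ max 1 m * (a S * (S * (1 - τ))) := by gcongr
        _ = max 1 m * (a S * (S - s)) := by rw [hSS]

private theorem lip_aux (hm : -1 < m) (h : Cl m a) (ξ ζ : E) (hle : ‖ζ‖ ≤ ‖ξ‖) :
    ‖A a ξ - A a ζ‖ ≤ (1 + max 1 m) * (a ‖ξ‖ * ‖ξ - ζ‖) := by
  rcases (norm_nonneg ξ).eq_or_lt with hS | hS
  · have hz : ξ = 0 := norm_eq_zero.mp hS.symm
    have hz2 : ζ = 0 := by
      rw [← hS] at hle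
      exact norm_eq_zero.mp (le_antisymm hle (norm_nonneg _))
    subst hz
    subst hz2
    simp
  · have haS := h.pos _ hS
    have h1 := diff_aux hm h (norm_nonneg ζ) hle hS
    have h2 : A a ξ - A a ζ = a ‖ξ‖ • (ξ - ζ) + (a ‖ξ‖ - a ‖ζ‖) • ζ := by
      unfold A
      rw [smul_sub, sub_smul]
      abel
    have hd0 : ‖ξ‖ - ‖ζ‖ ≤ ‖ξ - ζ‖ := norm_sub_norm_le ξ ζ
    have hmax : 1 ≤ max 1 m := le_max_left _ _
    rw [h2]
    calc ‖a ‖ξ‖ • (ξ - ζ) + (a ‖ξ‖ - a ‖ζ‖) • ζ‖ ≤ ‖a ‖ξ‖ • (ξ - ζ)‖ + ‖(a ‖ξ‖ - a ‖ζ‖) • ζ‖ := norm_add_le _ _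
      _ = a ‖ξ‖ * ‖ξ - ζ‖ + |a ‖ξ‖ - a ‖ζ‖| * ‖ζ‖ := by
        rw [norm_smul, norm_smul, Real.norm_eq_abs, Real.norm_eq_abs, abs_of_pos haS]
      _ ≤ a ‖ξ‖ * ‖ξ - ζ‖ + max 1 m * (a ‖ξ‖ * (‖ξ‖ - ‖ζ‖)) := by gcongr
      _ ≤ a ‖ξ‖ * ‖ξ - ζ‖ + max 1 m * (a ‖ξ‖ * ‖ξ - ζ‖) := by gcongr
      _ = (1 + max 1 m) * (a ‖ξ‖ * ‖ξ - ζ‖) := by ring

theorem alg_lip (hm : -1 < m) (h : Cl m a) (ξ ζ : E) :
    ‖A a ξ - A a ζ‖ ≤ (1 + max 1 m) * (a (max ‖ξ‖ ‖ζ‖) * ‖ξ - ζ‖) := by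
  rcases le_total ‖ζ‖ ‖ξ‖ with hle | hle
  · rw [max_eq_left hle]
    exact lip_aux hm h ξ ζ hle
  · rw [max_eq_right hle, norm_sub_rev, norm_sub_rev ξ ζ]
    exact lip_aux hm h ζ ξ hle

end PLH
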