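import Pool.Agent.Lib.PLH.A2

/-!
MODULE A3 (pure, 150 lines). All algebraic inequalities with one constant.

`a(‖ξ‖+‖ζ‖)` and `a(max)` are comparable (`Cl.comp`, `K = 2`) when `max ‖ξ‖ ‖ζ‖ > 0`; when
`ξ = ζ = 0` everything is `0`. `Vm a = A (sqrt ∘ a)` and `sqrt ∘ a ∈ Cl (m/2)`, `m/2 > -1`
(`Cl.sqrt`), so `alg_lip`, `alg_mono` for `sqrt ∘ a` give
`c sqrt(a(max)) D ≤ ‖Vm a ξ - Vm a ζ‖ ≤ C sqrt(a(max)) D`, `D = ‖ξ-ζ‖`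
(lower bound: `‖ΔV‖ D ≥ ⟨ΔV, ξ-ζ⟩`). The rest is multiplication.
-/

open MeasureTheory Set Filter Topology

namespace PLH

/-- The algebraic inequalities for all nonlinearities of the class `Cl m`, with constant `C`. -/
structure Alg (m C : ℝ) (E : Type*) [NormedAddCommGroup E] [InnerProductSpace ℝ E] : Prop where
  one : 1 ≤ C
  mono : ∀ a : ℝ → ℝ, Cl m a → ∀ ξ ζ : E,
    ‖Vm a ξ - Vm a ζ‖ ^ 2 ≤ C * inner ℝ (A a ξ - A a ζ) (ξ - ζ)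
  lip : ∀ a : ℝ → ℝ, Cl m a → ∀ ξ ζ : E,
    ‖A a ξ - A a ζ‖ ≤ C * (a (‖ξ‖ + ‖ζ‖) * ‖ξ - ζ‖)
  vlo : ∀ a : ℝ → ℝ, Cl m a → ∀ ξ ζ : E,
    a (‖ξ‖ + ‖ζ‖) * ‖ξ - ζ‖ ^ 2 ≤ C * ‖Vm a ξ - Vm a ζ‖ ^ 2
  vhi : ∀ a : ℝ → ℝ, Cl m a → ∀ ξ ζ : E,
    ‖Vm a ξ - Vm a ζ‖ ^ 2 ≤ C * (a (‖ξ‖ + ‖ζ‖) * ‖ξ - ζ‖ ^ 2)
  av : ∀ a : ℝ → ℝ, Cl m a → ∀ ξ ζ : E,
    ‖A a ξ - A a ζ‖ ^ 2 ≤ C * (a (‖ξ‖ + ‖ζ‖) * ‖Vm a ξ - Vm a ζ‖ ^ 2)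
  ad : ∀ a : ℝ → ℝ, Cl m a → ∀ ξ ζ : E,
    ‖A a ξ - A a ζ‖ * ‖ξ - ζ‖ ≤ C * ‖Vm a ξ - Vm a ζ‖ ^ 2

variable (E : Type*) [NormedAddCommGroup E] [InnerProductSpace ℝ E]

theorem exists_alg {m : ℝ} (hm : -1 < m) : ∃ C : ℝ, Alg m C E := by
  set c0 : ℝ := min (1 / 2) (1 + m) with hc0
  set L : ℝ := 1 + max 1 m with hL
  set c1 : ℝ := min (1 / 2) (1 + m / 2) with hc1
  set L1 : ℝ := 1 + max 1 (m / 2) with hL1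
  set K : ℝ := 2 ^ |m| with hK
  have hc0p : 0 < c0 := lt_min (by norm_num) (by linarith)
  have hc1p : 0 < c1 := lt_min (by norm_num) (by linarith)
  have hLp : 0 < L := by have := le_max_left 1 m; linarith
  have hL1p : 0 < L1 := by have := le_max_left 1 (m / 2); linarith
  have hKp : 0 < K := Real.rpow_pos_of_pos (by norm_num) _
  -- the basic facts
  have key : ∀ a : ℝ → ℝ, Cl m a → ∀ ξ ζ : E, (ξ = 0 ∧ ζ = 0) ∨ (∃ M P D V AA I : ℝ, P = a (‖ξ‖ + ‖ζ‖) ∧ D = ‖ξ - ζ‖ ∧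
      V = ‖Vm a ξ - Vm a ζ‖ ∧ AA = ‖A a ξ - A a ζ‖ ∧ I = inner ℝ (A a ξ - A a ζ) (ξ - ζ) ∧ 0 < M ∧ 0 < P ∧ 0 ≤ D ∧
      0 ≤ V ∧ 0 ≤ AA ∧ P ≤ K * M ∧ M ≤ K * P ∧ c0 * (M * D ^ 2) ≤ I ∧ AA ≤ L * (M * D) ∧
      V ^ 2 ≤ L1 ^ 2 * (M * D ^ 2) ∧ c1 ^ 2 * (M * D ^ 2) ≤ V ^ 2) := by
    intro a ha ξ ζ
    by_cases h0 : max ‖ξ‖ ‖ζ‖ = 0
    · left
      have h1 : ‖ξ‖ ≤ 0 := h0 ▸ le_max_left _ _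
      have h2 : ‖ζ‖ ≤ 0 := h0 ▸ le_max_right _ _
      exact ⟨norm_le_zero_iff.mp h1, norm_le_zero_iff.mp h2⟩
    · right
      have hMx : 0 < max ‖ξ‖ ‖ζ‖ := lt_of_le_of_ne ((norm_nonneg ξ).trans (le_max_left _ _)) (Ne.symm h0)
      have hle1 : max ‖ξ‖ ‖ζ‖ ≤ ‖ξ‖ + ‖ζ‖ :=
        max_le (by linarith [norm_nonneg ζ]) (by linarith [norm_nonneg ξ])
      have hle2 : ‖ξ‖ + ‖ζ‖ ≤ 2 * max ‖ξ‖ ‖ζ‖ := by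
        have := le_max_left ‖ξ‖ ‖ζ‖
        have := le_max_right ‖ξ‖ ‖ζ‖
        linarith
      have hsum : 0 < ‖ξ‖ + ‖ζ‖ := lt_of_lt_of_le hMx hle1
      have hM := ha.pos _ hMx
      have hP := ha.pos _ hsum
      refine ⟨a (max ‖ξ‖ ‖ζ‖), _, _, _, _, _, rfl, rfl, rfl, rfl, rfl, hM, hP, norm_nonneg _, norm_nonneg _,
        norm_nonneg _, ?_, ?_, alg_mono hm ha ξ ζ, alg_lip hm ha ξ ζ, ?_, ?_⟩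
      · exact ha.comp (by norm_num) hsum hMx hle2 (by linarith)
      · exact ha.comp (by norm_num) hMx hsum (by linarith) hle2
      · have h1 := alg_lip (m := m / 2) (by linarith) ha.sqrt ξ ζ
        have h2 : ‖Vm a ξ - Vm a ζ‖ ≤ L1 * (Real.sqrt (a (max ‖ξ‖ ‖ζ‖)) * ‖ξ - ζ‖) := h1
        calc ‖Vm a ξ - Vm a ζ‖ ^ 2 ≤ (L1 * (Real.sqrt (a (max ‖ξ‖ ‖ζ‖)) * ‖ξ - ζ‖)) ^ 2 := by gcongr
          _ = L1 ^ 2 * (Real.sqrt (a (max ‖ξ‖ ‖ζ‖)) ^ 2 * ‖ξ - ζ‖ ^ 2) := by ring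
          _ = L1 ^ 2 * (a (max ‖ξ‖ ‖ζ‖) * ‖ξ - ζ‖ ^ 2) := by rw [Real.sq_sqrt hM.le]
      · have h1 := alg_mono (m := m / 2) (by linarith) ha.sqrt ξ ζ
        have h2 : c1 * (Real.sqrt (a (max ‖ξ‖ ‖ζ‖)) * ‖ξ - ζ‖ ^ 2) ≤ inner ℝ (Vm a ξ - Vm a ζ) (ξ - ζ) := h1
        have h3 : inner ℝ (Vm a ξ - Vm a ζ) (ξ - ζ) ≤ ‖Vm a ξ - Vm a ζ‖ * ‖ξ - ζ‖ := real_inner_le_norm _ _
        rcases (norm_nonneg (ξ - ζ)).eq_or_lt with hD | hD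
        · rw [← hD]
          simp
        · have h4 : c1 * (Real.sqrt (a (max ‖ξ‖ ‖ζ‖)) * ‖ξ - ζ‖) ≤ ‖Vm a ξ - Vm a ζ‖ := by
            refine le_of_mul_le_mul_right ?_ hD
            calc c1 * (Real.sqrt (a (max ‖ξ‖ ‖ζ‖)) * ‖ξ - ζ‖) * ‖ξ - ζ‖ =
                c1 * (Real.sqrt (a (max ‖ξ‖ ‖ζ‖)) * ‖ξ - ζ‖ ^ 2) := by ring
              _ ≤ _ := h2.trans h3
          calc c1 ^ 2 * (a (max ‖ξ‖ ‖ζ‖) * ‖ξ - ζ‖ ^ 2) =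
              c1 ^ 2 * (Real.sqrt (a (max ‖ξ‖ ‖ζ‖)) ^ 2 * ‖ξ - ζ‖ ^ 2) := by rw [Real.sq_sqrt hM.le]
            _ = (c1 * (Real.sqrt (a (max ‖ξ‖ ‖ζ‖)) * ‖ξ - ζ‖)) ^ 2 := by ring
            _ ≤ ‖Vm a ξ - Vm a ζ‖ ^ 2 := by gcongr
  set t1 : ℝ := L1 ^ 2 / c0 with ht1
  set t2 : ℝ := L * K with ht2
  set t3 : ℝ := K / c1 ^ 2 with ht3
  set t4 : ℝ := L1 ^ 2 * K with ht4
  set t5 : ℝ := L ^ 2 * K / c1 ^ 2 with ht5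
  set t6 : ℝ := L / c1 ^ 2 with ht6
  have p1 : 0 ≤ t1 := by positivity
  have p2 : 0 ≤ t2 := by positivity
  have p3 : 0 ≤ t3 := by positivity
  have p4 : 0 ≤ t4 := by positivity
  have p5 : 0 ≤ t5 := by positivity
  have p6 : 0 ≤ t6 := by positivity
  refine ⟨1 + t1 + t2 + t3 + t4 + t5 + t6, ?_, ?_, ?_, ?_, ?_, ?_, ?_⟩
  · linarith
  · intro a ha ξ ζ
    rcases key a ha ξ ζ with ⟨rfl, rfl⟩ | ⟨M, P, D, V, AA, I, rfl, rfl, rfl, rfl, rfl, hM, hP, hD, hV, hA, k1, k2, k3, k4, k5, k6⟩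
    · simp [Vm, A]
    · have h1 : M * ‖ξ - ζ‖ ^ 2 ≤ inner ℝ (A a ξ - A a ζ) (ξ - ζ) / c0 := by
        rw [le_div_iff₀ hc0p]; linarith
      have hI : 0 ≤ inner ℝ (A a ξ - A a ζ) (ξ - ζ) := le_trans (by positivity) k3
      calc ‖Vm a ξ - Vm a ζ‖ ^ 2 ≤ L1 ^ 2 * (M * ‖ξ - ζ‖ ^ 2) := k5
        _ ≤ L1 ^ 2 * (inner ℝ (A a ξ - A a ζ) (ξ - ζ) / c0) := by gcongr
        _ = t1 * inner ℝ (A a ξ - A a ζ) (ξ - ζ) := by rw [ht1]; ring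
        _ ≤ _ := by
          apply mul_le_mul_of_nonneg_right _ hI
          linarith
  · intro a ha ξ ζ
    rcases key a ha ξ ζ with ⟨rfl, rfl⟩ | ⟨M, P, D, V, AA, I, rfl, rfl, rfl, rfl, rfl, hM, hP, hD, hV, hA, k1, k2, k3, k4, k5, k6⟩
    · simp [A]
    · calc ‖A a ξ - A a ζ‖ ≤ L * (M * ‖ξ - ζ‖) := k4
        _ ≤ L * ((K * a (‖ξ‖ + ‖ζ‖)) * ‖ξ - ζ‖) := by gcongr
        _ = t2 * (a (‖ξ‖ + ‖ζ‖) * ‖ξ - ζ‖) := by rw [ht2]; ring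
        _ ≤ _ := by
          apply mul_le_mul_of_nonneg_right _ (by positivity)
          linarith
  · intro a ha ξ ζ
    rcases key a ha ξ ζ with ⟨rfl, rfl⟩ | ⟨M, P, D, V, AA, I, rfl, rfl, rfl, rfl, rfl, hM, hP, hD, hV, hA, k1, k2, k3, k4, k5, k6⟩
    · simp [Vm]
    · have h1 : M * ‖ξ - ζ‖ ^ 2 ≤ ‖Vm a ξ - Vm a ζ‖ ^ 2 / c1 ^ 2 := by
        rw [le_div_iff₀ (by positivity)]; linarith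
      calc a (‖ξ‖ + ‖ζ‖) * ‖ξ - ζ‖ ^ 2 ≤ (K * M) * ‖ξ - ζ‖ ^ 2 := by gcongr
        _ = K * (M * ‖ξ - ζ‖ ^ 2) := by ring
        _ ≤ K * (‖Vm a ξ - Vm a ζ‖ ^ 2 / c1 ^ 2) := by gcongr
        _ = t3 * ‖Vm a ξ - Vm a ζ‖ ^ 2 := by rw [ht3]; ring
        _ ≤ _ := by
          apply mul_le_mul_of_nonneg_right _ (by positivity)
          linarith
  · intro a ha ξ ζ
    rcases key a ha ξ ζ with ⟨rfl, rfl⟩ | ⟨M, P, D, V, AA, I, rfl, rfl, rfl, rfl, rfl, hM, hP, hD, hV, hA, k1, k2, k3, k4, k5, k6⟩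
    · simp [Vm]
    · calc ‖Vm a ξ - Vm a ζ‖ ^ 2 ≤ L1 ^ 2 * (M * ‖ξ - ζ‖ ^ 2) := k5
        _ ≤ L1 ^ 2 * ((K * a (‖ξ‖ + ‖ζ‖)) * ‖ξ - ζ‖ ^ 2) := by gcongr
        _ = t4 * (a (‖ξ‖ + ‖ζ‖) * ‖ξ - ζ‖ ^ 2) := by rw [ht4]; ring
        _ ≤ _ := by
          apply mul_le_mul_of_nonneg_right _ (by positivity)
          linarith
  · intro a ha ξ ζ
    rcases key a ha ξ ζ with ⟨rfl, rfl⟩ | ⟨M, P, D, V, AA, I, rfl, rfl, rfl, rfl, rfl, hM, hP, hD, hV, hA, k1, k2, k3, k4, k5, k6⟩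
    · simp [Vm, A]
    · have h1 : M * ‖ξ - ζ‖ ^ 2 ≤ ‖Vm a ξ - Vm a ζ‖ ^ 2 / c1 ^ 2 := by
        rw [le_div_iff₀ (by positivity)]; linarith
      calc ‖A a ξ - A a ζ‖ ^ 2 ≤ (L * (M * ‖ξ - ζ‖)) ^ 2 := by gcongr
        _ = L ^ 2 * M * (M * ‖ξ - ζ‖ ^ 2) := by ring
        _ ≤ L ^ 2 * (K * a (‖ξ‖ + ‖ζ‖)) * (‖Vm a ξ - Vm a ζ‖ ^ 2 / c1 ^ 2) := by gcongr
        _ = t5 * (a (‖ξ‖ + ‖ζ‖) * ‖Vm a ξ - Vm a ζ‖ ^ 2) := by rw [ht5]; ring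
        _ ≤ _ := by
          apply mul_le_mul_of_nonneg_right _ (by positivity)
          linarith
  · intro a ha ξ ζ
    rcases key a ha ξ ζ with ⟨rfl, rfl⟩ | ⟨M, P, D, V, AA, I, rfl, rfl, rfl, rfl, rfl, hM, hP, hD, hV, hA, k1, k2, k3, k4, k5, k6⟩
    · simp [Vm, A]
    · have h1 : M * ‖ξ - ζ‖ ^ 2 ≤ ‖Vm a ξ - Vm a ζ‖ ^ 2 / c1 ^ 2 := by
        rw [le_div_iff₀ (by positivity)]; linarith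
      calc ‖A a ξ - A a ζ‖ * ‖ξ - ζ‖ ≤ (L * (M * ‖ξ - ζ‖)) * ‖ξ - ζ‖ := by gcongr
        _ = L * (M * ‖ξ - ζ‖ ^ 2) := by ring
        _ ≤ L * (‖Vm a ξ - Vm a ζ‖ ^ 2 / c1 ^ 2) := by gcongr
        _ = t6 * ‖Vm a ξ - Vm a ζ‖ ^ 2 := by rw [ht6]; ring
        _ ≤ _ := by
          apply mul_le_mul_of_nonneg_right _ (by positivity)
          linarith

end PLH
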