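import Pool.Agent.Lib.PLH.A3

/-!
MODULE A4 (pure, 150 lines). Young's inequality for the flux.

With `D = ‖ξ-ζ‖`: `‖ξ‖+‖ζ‖ ≤ 2(‖ξ‖+D)` and `‖ξ‖+D ≤ 2(‖ξ‖+‖ζ‖)`, so by `Cl.comp` (`K = 2`)
`a(‖ξ‖+‖ζ‖)` and `a(‖ξ‖+D)` are comparable when positive arguments occur (if `‖ξ‖+D = 0` then
`ξ = ζ = 0` and everything vanishes). `phiV`: from `Alg.vlo`. `young`: `‖ΔA‖ ≤ C a(‖ξ‖+D) D`.
Let `δ ∈ (0,1]`. If `y ≤ δ D`: `‖ΔA‖ y ≤ δ C a(‖ξ‖+D) D² ≤ δ C' ‖ΔV‖²`. If `y > δ D`: by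
`Cl.shift_mono` `a(‖ξ‖+D) D ≤ a(‖ξ‖+y/δ) y/δ` and `a(‖ξ‖+y/δ) ≤ (1/δ)^|m| a(‖ξ‖+y)`
(`Cl.comp` with `K = 1/δ`), so `‖ΔA‖ y ≤ C_δ a(‖ξ‖+y) y²`. Choose `δ` with `δ C' ≤ ε`.
-/

open MeasureTheory Set Filter Topology

namespace PLH

variable (E : Type*) [NormedAddCommGroup E] [InnerProductSpace ℝ E]

omit [InnerProductSpace ℝ E] in
private theorem cmp1 {m : ℝ} {a : ℝ → ℝ} (h : Cl m a) (ξ ζ : E) (h0 : ‖ξ‖ + ‖ξ - ζ‖ ≠ 0) :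
    0 < a (‖ξ‖ + ‖ζ‖) ∧ 0 < a (‖ξ‖ + ‖ξ - ζ‖) ∧ a (‖ξ‖ + ‖ξ - ζ‖) ≤ 2 ^ |m| * a (‖ξ‖ + ‖ζ‖) ∧
      a (‖ξ‖ + ‖ζ‖) ≤ 2 ^ |m| * a (‖ξ‖ + ‖ξ - ζ‖) := by
  have hn1 := norm_nonneg ξ
  have hn2 := norm_nonneg ζ
  have hn3 := norm_nonneg (ξ - ζ)
  have hpos : 0 < ‖ξ‖ + ‖ξ - ζ‖ := lt_of_le_of_ne (by positivity) (Ne.symm h0)
  have hle1 : ‖ξ - ζ‖ ≤ ‖ξ‖ + ‖ζ‖ := norm_sub_le ξ ζ
  have hle2 : ‖ζ‖ ≤ ‖ξ‖ + ‖ξ - ζ‖ := by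
    have : ζ = ξ - (ξ - ζ) := by abel
    calc ‖ζ‖ = ‖ξ - (ξ - ζ)‖ := by rw [← this]
      _ ≤ ‖ξ‖ + ‖ξ - ζ‖ := norm_sub_le _ _
  have hpos2 : 0 < ‖ξ‖ + ‖ζ‖ := by linarith
  exact ⟨h.pos _ hpos2, h.pos _ hpos, h.comp (by norm_num) hpos hpos2 (by linarith) (by linarith),
    h.comp (by norm_num) hpos2 hpos (by linarith) (by linarith)⟩

theorem phiV {m : ℝ} (hm : -1 < m) : ∃ C : ℝ, 0 ≤ C ∧ ∀ a : ℝ → ℝ, Cl m a → ∀ ξ ζ : E,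
    a (‖ξ‖ + ‖ξ - ζ‖) * ‖ξ - ζ‖ ^ 2 ≤ C * ‖Vm a ξ - Vm a ζ‖ ^ 2 := by
  obtain ⟨C, hC⟩ := exists_alg E hm
  have hC1 := hC.one
  have hK : (0 : ℝ) < 2 ^ |m| := Real.rpow_pos_of_pos (by norm_num) _
  refine ⟨2 ^ |m| * C, by positivity, fun a ha ξ ζ => ?_⟩
  by_cases h0 : ‖ξ‖ + ‖ξ - ζ‖ = 0
  · have h1 : ‖ξ - ζ‖ = 0 := by
      have := norm_nonneg ξ
      have := norm_nonneg (ξ - ζ)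
      linarith
    rw [h1]
    have : 0 ≤ 2 ^ |m| * C * ‖Vm a ξ - Vm a ζ‖ ^ 2 := by positivity
    simpa using this
  · obtain ⟨h1, h2, h3, h4⟩ := cmp1 E ha ξ ζ h0
    calc a (‖ξ‖ + ‖ξ - ζ‖) * ‖ξ - ζ‖ ^ 2 ≤ (2 ^ |m| * a (‖ξ‖ + ‖ζ‖)) * ‖ξ - ζ‖ ^ 2 := by gcongr
      _ = 2 ^ |m| * (a (‖ξ‖ + ‖ζ‖) * ‖ξ - ζ‖ ^ 2) := by ring
      _ ≤ 2 ^ |m| * (C * ‖Vm a ξ - Vm a ζ‖ ^ 2) :=
        mul_le_mul_of_nonneg_left (hC.vlo a ha ξ ζ) hK.le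
      _ = 2 ^ |m| * C * ‖Vm a ξ - Vm a ζ‖ ^ 2 := by ring

theorem young {m : ℝ} (hm : -1 < m) {ε : ℝ} (hε : 0 < ε) :
    ∃ C : ℝ, 0 ≤ C ∧ ∀ a : ℝ → ℝ, Cl m a → ∀ (ξ ζ : E) (y : ℝ), 0 ≤ y →
      ‖A a ξ - A a ζ‖ * y ≤ ε * ‖Vm a ξ - Vm a ζ‖ ^ 2 + C * (a (‖ξ‖ + y) * y ^ 2) := by
  obtain ⟨C1, hC⟩ := exists_alg E hm
  obtain ⟨C3, hC30, hC3⟩ := phiV E hm
  have hC1 := hC.one
  have hK : (0 : ℝ) < 2 ^ |m| := Real.rpow_pos_of_pos (by norm_num) _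
  set C2 : ℝ := C1 * 2 ^ |m| with hC2
  have hC2p : 0 < C2 := by positivity
  set δ : ℝ := min 1 (ε / (C2 * C3 + 1)) with hδ
  have hδ0 : 0 < δ := lt_min one_pos (by positivity)
  have hδ1 : δ ≤ 1 := min_le_left _ _
  have hδ2 : δ * (C2 * C3) ≤ ε := by
    have h1 : δ ≤ ε / (C2 * C3 + 1) := min_le_right _ _
    have h2 : 0 ≤ C2 * C3 := by positivity
    calc δ * (C2 * C3) ≤ ε / (C2 * C3 + 1) * (C2 * C3) := by gcongr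
      _ ≤ ε / (C2 * C3 + 1) * (C2 * C3 + 1) := by gcongr; linarith
      _ = ε := by field_simp
  refine ⟨C2 / δ * (1 / δ) ^ |m|, by positivity, fun a ha ξ ζ y hy => ?_⟩
  have hn1 := norm_nonneg ξ
  have hn3 := norm_nonneg (ξ - ζ)
  have hRHS : 0 ≤ ε * ‖Vm a ξ - Vm a ζ‖ ^ 2 := by positivity
  rcases hy.eq_or_lt with hy0 | hy0
  · rw [← hy0]
    have : (0 : ℝ) ^ 2 = 0 := by norm_num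
    rw [this, mul_zero, mul_zero, mul_zero, add_zero]
    exact hRHS
  have hA : 0 ≤ C2 / δ * (1 / δ) ^ |m| * (a (‖ξ‖ + y) * y ^ 2) := by
    have := ha.pos (‖ξ‖ + y) (by linarith)
    positivity
  by_cases h0 : ‖ξ‖ + ‖ξ - ζ‖ = 0
  · have h1 : ‖ξ - ζ‖ = 0 := by linarith
    have h2 : ξ = ζ := sub_eq_zero.mp (norm_eq_zero.mp h1)
    subst h2
    simp only [sub_self, norm_zero, zero_mul]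
    simpa using hA
  · obtain ⟨h1, h2, h3, h4⟩ := cmp1 E ha ξ ζ h0
    have hlip : ‖A a ξ - A a ζ‖ ≤ C2 * (a (‖ξ‖ + ‖ξ - ζ‖) * ‖ξ - ζ‖) := by
      calc ‖A a ξ - A a ζ‖ ≤ C1 * (a (‖ξ‖ + ‖ζ‖) * ‖ξ - ζ‖) := hC.lip a ha ξ ζ
        _ ≤ C1 * ((2 ^ |m| * a (‖ξ‖ + ‖ξ - ζ‖)) * ‖ξ - ζ‖) := by gcongr
        _ = C2 * (a (‖ξ‖ + ‖ξ - ζ‖) * ‖ξ - ζ‖) := by rw [hC2]; ring
    rcases le_or_gt y (δ * ‖ξ - ζ‖) with hyD | hyD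
    · calc ‖A a ξ - A a ζ‖ * y ≤ (C2 * (a (‖ξ‖ + ‖ξ - ζ‖) * ‖ξ - ζ‖)) * (δ * ‖ξ - ζ‖) := by gcongr
        _ = δ * C2 * (a (‖ξ‖ + ‖ξ - ζ‖) * ‖ξ - ζ‖ ^ 2) := by ring
        _ ≤ δ * C2 * (C3 * ‖Vm a ξ - Vm a ζ‖ ^ 2) :=
          mul_le_mul_of_nonneg_left (hC3 a ha ξ ζ) (by positivity)
        _ = δ * (C2 * C3) * ‖Vm a ξ - Vm a ζ‖ ^ 2 := by ring
        _ ≤ ε * ‖Vm a ξ - Vm a ζ‖ ^ 2 := by gcongr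
        _ ≤ _ := le_add_of_nonneg_right hA
    · have hD' : ‖ξ - ζ‖ ≤ y / δ := by
        rw [le_div_iff₀ hδ0]
        linarith
      have h5 : a (‖ξ‖ + ‖ξ - ζ‖) * ‖ξ - ζ‖ ≤ a (‖ξ‖ + y / δ) * (y / δ) := ha.shift_mono hm hn1 hn3 hD'
      have hyδ : y ≤ y / δ := by
        rw [le_div_iff₀ hδ0]
        nlinarith
      have h6 : a (‖ξ‖ + y / δ) ≤ (1 / δ) ^ |m| * a (‖ξ‖ + y) := by
        refine ha.comp ?_ (by positivity) (by linarith) ?_ ?_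
        · rw [le_div_iff₀ hδ0]; linarith
        · have : 1 / δ * (‖ξ‖ + y) = ‖ξ‖ / δ + y / δ := by ring
          rw [this]
          have h7 : ‖ξ‖ ≤ ‖ξ‖ / δ := by
            rw [le_div_iff₀ hδ0]
            nlinarith
          linarith
        · have h7 : 1 ≤ 1 / δ := by rw [le_div_iff₀ hδ0]; linarith
          calc ‖ξ‖ + y ≤ ‖ξ‖ + y / δ := by linarith
            _ = 1 * (‖ξ‖ + y / δ) := by ring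
            _ ≤ 1 / δ * (‖ξ‖ + y / δ) := by gcongr
      have h8 := ha.pos (‖ξ‖ + y) (by linarith)
      calc ‖A a ξ - A a ζ‖ * y ≤ (C2 * (a (‖ξ‖ + ‖ξ - ζ‖) * ‖ξ - ζ‖)) * y := by gcongr
        _ ≤ (C2 * (a (‖ξ‖ + y / δ) * (y / δ))) * y := by gcongr
        _ ≤ (C2 * (((1 / δ) ^ |m| * a (‖ξ‖ + y)) * (y / δ))) * y := by gcongr
        _ = C2 / δ * (1 / δ) ^ |m| * (a (‖ξ‖ + y) * y ^ 2) := by ring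
        _ ≤ _ := le_add_of_nonneg_left hRHS

end PLH
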