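import Pool.Agent.Lib.PLH.A3

/-!
MODULE A5 (pure, 150 lines). Change of shift.

`α = ‖ξ‖`, `β = ‖ζ‖`, `d = ‖ξ-ζ‖ ≥ |α-β|`, `α+β ≥ d`. Let `δ ∈ (0,1]`; `y = 0` is trivial.
If `y ≥ δ d` (and `y > 0`): `α+y ≤ (1+1/δ)(β+y)` and `β+y ≤ (1+1/δ)(α+y)`, so `Cl.comp` gives
`a(α+y) ≤ (1+1/δ)^|m| a(β+y)`.
If `0 < y < δ d`: by `Cl.shift_mono2` `a(α+y)y² ≤ a(α+δd)(δd)²`. Put `s = α+δd > 0`, `S = α+β > 0`;
`s ≤ 2S`, `S ≤ 2α+d ≤ (3/δ) s`. If `m ≥ 0`: `a s ≤ 2^|m| a S` (for `s ≤ S` monotone, else `hi`),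
so the term is `≤ 2^|m| δ² a(S) d²`. If `m < 0`: `a s ≤ (3/δ)^(-m) a S` for `s ≤ S` (`lo`:
`min 1 ((S/s)^m) = (S/s)^m ≥ (3/δ)^m`), `a s ≤ a S` for `s ≥ S`; so the term is
`≤ 3^(-m) δ^(2+m) a(S) d²`, `2+m > 1`. And `a(S) d² ≤ C ‖ΔV‖²` (`Alg.vlo`). Choose `δ` small.
-/

open MeasureTheory Set Filter Topology

namespace PLH

variable (E : Type*) [NormedAddCommGroup E] [InnerProductSpace ℝ E]

private theorem a5_key {m : ℝ} (hm : -1 < m) {a : ℝ → ℝ} (h : Cl m a) {δ s S : ℝ}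
    (hδ : 0 < δ) (hδ1 : δ ≤ 1) (hs : 0 < s) (hS : 0 < S) (h1 : s ≤ 2 * S)
    (h2 : S ≤ 3 / δ * s) : a s * δ ^ 2 ≤ 3 ^ |m| * δ * a S := by
  have haS := h.pos S hS
  have has := h.pos s hs
  have h3m : (1 : ℝ) ≤ 3 ^ |m| := Real.one_le_rpow (by norm_num) (abs_nonneg m)
  have hδ2 : δ ^ 2 ≤ δ := by nlinarith
  rcases le_or_gt 0 m with hm0 | hm0
  · have h3 : a s ≤ 3 ^ |m| * a S := by
      rcases le_total s S with hsS | hsS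
      · have h4 := h.lo s S hs hsS
        have h5 : 1 ≤ (S / s) ^ m := Real.one_le_rpow ((one_le_div hs).2 hsS) hm0
        rw [min_eq_left h5, one_mul] at h4
        nlinarith
      · have h4 := h.hi S s hS hsS
        have h5 : s / S ≤ 3 := by
          rw [div_le_iff₀ hS]
          linarith
        have h6 : (s / S) ^ m ≤ 3 ^ |m| := by
          rw [abs_of_nonneg hm0]
          exact Real.rpow_le_rpow (div_pos hs hS).le h5 hm0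
        exact h4.trans (mul_le_mul_of_nonneg_right (max_le h3m h6) haS.le)
    calc a s * δ ^ 2 ≤ (3 ^ |m| * a S) * δ :=
          mul_le_mul h3 hδ2 (sq_nonneg _) (by positivity)
      _ = 3 ^ |m| * δ * a S := by ring
  · have hmn : |m| = -m := abs_of_neg hm0
    have hp : 0 < (3 / δ) ^ m := Real.rpow_pos_of_pos (by positivity) _
    have h30 : 0 < 3 / δ := by positivity
    have hp1 : (3 / δ) ^ m ≤ 1 := by
      refine Real.rpow_le_one_of_one_le_of_nonpos ?_ hm0.le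
      rw [le_div_iff₀ hδ]
      linarith
    have h3 : (3 / δ) ^ m * a s ≤ a S := by
      rcases le_total s S with hsS | hsS
      · have h4 := h.lo s S hs hsS
        have h5 : (3 / δ) ^ m ≤ min 1 ((S / s) ^ m) := by
          refine le_min hp1 ?_
          refine Real.rpow_le_rpow_of_nonpos (div_pos hS hs) ?_ hm0.le
          rw [div_le_iff₀ hs]
          exact h2
        exact (mul_le_mul_of_nonneg_right h5 has.le).trans h4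
      · have h4 := h.hi S s hS hsS
        have h5 : (s / S) ^ m ≤ 1 :=
          Real.rpow_le_one_of_one_le_of_nonpos ((one_le_div hS).2 hsS) hm0.le
        rw [max_eq_left h5, one_mul] at h4
        exact (mul_le_of_le_one_left has.le hp1).trans h4
    have h6 : δ ^ 2 ≤ 3 ^ |m| * δ * (3 / δ) ^ m := by
      rw [hmn, Real.div_rpow (by norm_num) hδ.le, Real.rpow_neg (by norm_num)]
      have h3m' : 0 < (3 : ℝ) ^ m := Real.rpow_pos_of_pos (by norm_num) _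
      have hδm : 0 < δ ^ m := Real.rpow_pos_of_pos hδ _
      have h7 : (3 ^ m)⁻¹ * δ * (3 ^ m / δ ^ m) = δ / δ ^ m := by
        field_simp
      rw [h7, le_div_iff₀ hδm]
      have h8 : δ ^ 2 * δ ^ m = δ ^ (2 + m) := by
        rw [Real.rpow_add hδ, Real.rpow_two]
      rw [h8]
      calc δ ^ (2 + m) ≤ δ ^ (1 : ℝ) :=
            Real.rpow_le_rpow_of_exponent_ge hδ hδ1 (by linarith)
        _ = δ := Real.rpow_one δ
    calc a s * δ ^ 2 ≤ a s * (3 ^ |m| * δ * (3 / δ) ^ m) :=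
          mul_le_mul_of_nonneg_left h6 has.le
      _ = 3 ^ |m| * δ * ((3 / δ) ^ m * a s) := by ring
      _ ≤ 3 ^ |m| * δ * a S :=
          mul_le_mul_of_nonneg_left h3 (by positivity)

theorem shift {m : ℝ} (hm : -1 < m) {ε : ℝ} (hε : 0 < ε) :
    ∃ C : ℝ, 0 ≤ C ∧ ∀ a : ℝ → ℝ, Cl m a → ∀ (ξ ζ : E) (y : ℝ), 0 ≤ y →
      a (‖ξ‖ + y) * y ^ 2 ≤ C * (a (‖ζ‖ + y) * y ^ 2) + ε * ‖Vm a ξ - Vm a ζ‖ ^ 2 := by
  obtain ⟨C, hC⟩ := exists_alg E hm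
  have hC0 : 0 < C := one_pos.trans_le hC.one
  have h3m : (0 : ℝ) < 3 ^ |m| := Real.rpow_pos_of_pos (by norm_num) _
  set δ : ℝ := min 1 (ε / (C * 3 ^ |m|)) with hδdef
  have hδ : 0 < δ := lt_min one_pos (by positivity)
  have hδ1 : δ ≤ 1 := min_le_left _ _
  have hδε : 3 ^ |m| * δ * C ≤ ε := by
    have h1 : δ ≤ ε / (C * 3 ^ |m|) := min_le_right _ _
    rw [le_div_iff₀ (by positivity)] at h1
    calc 3 ^ |m| * δ * C = δ * (C * 3 ^ |m|) := by ring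
      _ ≤ ε := h1
  have hK1 : 1 ≤ 1 + 1 / δ := le_add_of_nonneg_right (by positivity)
  refine ⟨(1 + 1 / δ) ^ |m|, (Real.rpow_pos_of_pos (by positivity) _).le, ?_⟩
  intro a ha ξ ζ y hy
  have hV : 0 ≤ ε * ‖Vm a ξ - Vm a ζ‖ ^ 2 := mul_nonneg hε.le (sq_nonneg _)
  rcases hy.eq_or_lt with rfl | hy0
  · simp only [ne_eq, OfNat.ofNat_ne_zero, not_false_eq_true, zero_pow, mul_zero, zero_add]
    exact hV
  have hα : 0 ≤ ‖ξ‖ := norm_nonneg ξ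
  have hβ : 0 ≤ ‖ζ‖ := norm_nonneg ζ
  have hd : 0 ≤ ‖ξ - ζ‖ := norm_nonneg _
  have hd1 : ‖ξ‖ ≤ ‖ζ‖ + ‖ξ - ζ‖ := by
    have := norm_le_norm_add_norm_sub ζ ξ
    rwa [norm_sub_rev] at this
  have hd2 : ‖ζ‖ ≤ ‖ξ‖ + ‖ξ - ζ‖ := norm_le_norm_add_norm_sub ξ ζ
  have hd3 : ‖ξ - ζ‖ ≤ ‖ξ‖ + ‖ζ‖ := norm_sub_le ξ ζ
  rcases le_or_gt (δ * ‖ξ - ζ‖) y with hcase | hcase
  · have hdy : ‖ξ - ζ‖ ≤ 1 / δ * y := by
      rw [one_div, inv_mul_eq_div, le_div_iff₀ hδ, mul_comm]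
      exact hcase
    have h1δ : 0 ≤ 1 / δ := by positivity
    have h1 : ‖ξ‖ + y ≤ (1 + 1 / δ) * (‖ζ‖ + y) := by
      have := mul_nonneg h1δ hβ
      nlinarith
    have h2 : ‖ζ‖ + y ≤ (1 + 1 / δ) * (‖ξ‖ + y) := by
      have := mul_nonneg h1δ hα
      nlinarith
    have h3 := ha.comp hK1 (add_pos_of_nonneg_of_pos hα hy0)
      (add_pos_of_nonneg_of_pos hβ hy0) h1 h2
    have h4 := mul_le_mul_of_nonneg_right h3 (sq_nonneg y)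
    calc a (‖ξ‖ + y) * y ^ 2 ≤ (1 + 1 / δ) ^ |m| * a (‖ζ‖ + y) * y ^ 2 := h4
      _ = (1 + 1 / δ) ^ |m| * (a (‖ζ‖ + y) * y ^ 2) := by ring
      _ ≤ _ := le_add_of_nonneg_right hV
  · have hd0 : 0 < ‖ξ - ζ‖ := by
      by_contra hneg
      have h0 : ‖ξ - ζ‖ = 0 := le_antisymm (not_lt.1 hneg) hd
      rw [h0, mul_zero] at hcase
      exact absurd hcase (not_lt.2 hy)
    have h1 := ha.shift_mono2 hm hα hy hcase.le
    have hs : 0 < ‖ξ‖ + δ * ‖ξ - ζ‖ := add_pos_of_nonneg_of_pos hα (mul_pos hδ hd0)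
    have hS : 0 < ‖ξ‖ + ‖ζ‖ := hd0.trans_le hd3
    have hδd : δ * ‖ξ - ζ‖ ≤ ‖ξ - ζ‖ := mul_le_of_le_one_left hd hδ1
    have h2 : ‖ξ‖ + δ * ‖ξ - ζ‖ ≤ 2 * (‖ξ‖ + ‖ζ‖) := by linarith
    have h3 : ‖ξ‖ + ‖ζ‖ ≤ 3 / δ * (‖ξ‖ + δ * ‖ξ - ζ‖) := by
      have h5 : 3 / δ * (‖ξ‖ + δ * ‖ξ - ζ‖) = 3 / δ * ‖ξ‖ + 3 * ‖ξ - ζ‖ := by
        field_simp
      have h6 : 3 ≤ 3 / δ := by
        rw [le_div_iff₀ hδ]
        linarith
      rw [h5]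
      nlinarith
    have h4 := a5_key hm ha hδ hδ1 hs hS h2 h3
    have h5 := hC.vlo a ha ξ ζ
    have h6 : a (‖ξ‖ + δ * ‖ξ - ζ‖) * (δ * ‖ξ - ζ‖) ^ 2 ≤ ε * ‖Vm a ξ - Vm a ζ‖ ^ 2 := by
      calc a (‖ξ‖ + δ * ‖ξ - ζ‖) * (δ * ‖ξ - ζ‖) ^ 2
          = a (‖ξ‖ + δ * ‖ξ - ζ‖) * δ ^ 2 * ‖ξ - ζ‖ ^ 2 := by ring
        _ ≤ 3 ^ |m| * δ * a (‖ξ‖ + ‖ζ‖) * ‖ξ - ζ‖ ^ 2 :=
          mul_le_mul_of_nonneg_right h4 (sq_nonneg _)
        _ = 3 ^ |m| * δ * (a (‖ξ‖ + ‖ζ‖) * ‖ξ - ζ‖ ^ 2) := by ring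
        _ ≤ 3 ^ |m| * δ * (C * ‖Vm a ξ - Vm a ζ‖ ^ 2) :=
          mul_le_mul_of_nonneg_left h5 (by positivity)
        _ = 3 ^ |m| * δ * C * ‖Vm a ξ - Vm a ζ‖ ^ 2 := by ring
        _ ≤ ε * ‖Vm a ξ - Vm a ζ‖ ^ 2 := mul_le_mul_of_nonneg_right hδε (sq_nonneg _)
    have h7 : 0 ≤ (1 + 1 / δ) ^ |m| * (a (‖ζ‖ + y) * y ^ 2) :=
      mul_nonneg (Real.rpow_pos_of_pos (by positivity) _).le
        (mul_nonneg (ha.pos _ (add_pos_of_nonneg_of_pos hβ hy0)).le (sq_nonneg _))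
    linarith

end PLH
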