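import Pool.Agent.Lib.PLH.A1

/-!
MODULE A6 (pure, 180 lines). The convex functions `psi a S`.

`a` is continuous, so `psi a S` has derivative `a(S+y) y` (`intervalIntegral` FTC), which is
nondecreasing on `[0,∞)` (`Cl.shift_mono`) and nonnegative: convex, monotone, continuous.
`psi ≤ a(S+y) y * y` since the integrand is at most its value at `y`. Lower bound:
`psi ≥ ∫_{y/2}^y ≥ (y/2) a(S+y/2)(y/2)`, `a(S+y) ≤ 2^|m| a(S+y/2)` (`Cl.comp`; for `y = 0` trivial).
Doubling: `psi(2y) ≤ a(S+2y) 4y² ≤ 4 * 2^|m| a(S+y) y² ≤ C psi(y)`.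
-/

open MeasureTheory Set Filter Topology

namespace PLH

/-- `∫₀^y a(S+s) s ds`. -/
noncomputable def psi (a : ℝ → ℝ) (S y : ℝ) : ℝ := ∫ s in (0 : ℝ)..y, a (S + s) * s

/-- A convex gauge function with doubling constant `C`. -/
structure Yng (C : ℝ) (ψ : ℝ → ℝ) : Prop where
  conv : ConvexOn ℝ (Ici 0) ψ
  mono : MonotoneOn ψ (Ici 0)
  cont : ContinuousOn ψ (Ici 0)
  zero : ψ 0 = 0
  dbl : ∀ y, 0 ≤ y → ψ (2 * y) ≤ C * ψ y

private theorem psi_deriv {a : ℝ → ℝ} (ha : Continuous a) (S y : ℝ) :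
    HasDerivAt (psi a S) (a (S + y) * y) y := by
  have hc : Continuous fun s : ℝ => a (S + s) * s := by fun_prop
  exact intervalIntegral.integral_hasDerivAt_right (hc.intervalIntegrable _ _)
    (hc.stronglyMeasurableAtFilter _ _) hc.continuousAt

private theorem psi_upper {m : ℝ} (hm : -1 < m) {a : ℝ → ℝ} (ha : Nice m a) {S : ℝ} (hS : 0 ≤ S) {y : ℝ} (hy : 0 ≤ y) :
    psi a S y ≤ a (S + y) * y ^ 2 := by
  have hc : Continuous fun s : ℝ => a (S + s) * s := by
    have := ha.cont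
    fun_prop
  have h1 : psi a S y ≤ ∫ s in (0 : ℝ)..y, a (S + y) * y := by
    unfold psi
    refine intervalIntegral.integral_mono_on hy (hc.intervalIntegrable _ _) intervalIntegrable_const ?_
    intro x hx
    exact ha.toCl.shift_mono hm hS hx.1 hx.2
  rw [intervalIntegral.integral_const, smul_eq_mul, sub_zero] at h1
  calc psi a S y ≤ y * (a (S + y) * y) := h1
    _ = a (S + y) * y ^ 2 := by ring

private theorem psi_nonneg {m : ℝ} {a : ℝ → ℝ} (ha : Nice m a) {S : ℝ} (hS : 0 ≤ S) {y : ℝ} (hy : 0 ≤ y) :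
    0 ≤ psi a S y := by
  unfold psi
  refine intervalIntegral.integral_nonneg hy fun u hu => ?_
  exact mul_nonneg (ha.pos' (by linarith [hu.1])).le hu.1

private theorem psi_lower {m : ℝ} (hm : -1 < m) {a : ℝ → ℝ} (ha : Nice m a) {S : ℝ} (hS : 0 ≤ S) {y : ℝ} (hy : 0 ≤ y) :
    a (S + y) * y ^ 2 ≤ 4 * 2 ^ |m| * psi a S y := by
  have hK : (0 : ℝ) < 2 ^ |m| := Real.rpow_pos_of_pos (by norm_num) _
  rcases hy.eq_or_lt with hy0 | hy0
  · rw [← hy0]
    have := psi_nonneg ha hS (le_refl (0 : ℝ))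
    have h2 : 0 ≤ 4 * 2 ^ |m| * psi a S 0 := by positivity
    simpa using h2
  have hc : Continuous fun s : ℝ => a (S + s) * s := by
    have := ha.cont
    fun_prop
  have h1 : psi a S y = psi a S (y / 2) + ∫ s in (y / 2)..y, a (S + s) * s := by
    unfold psi
    rw [intervalIntegral.integral_add_adjacent_intervals (hc.intervalIntegrable _ _) (hc.intervalIntegrable _ _)]
  have h2 := psi_nonneg ha hS (y := y / 2) (by linarith)
  have h3 : (∫ s in (y / 2)..y, a (S + y / 2) * (y / 2)) ≤ ∫ s in (y / 2)..y, a (S + s) * s := by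
    refine intervalIntegral.integral_mono_on (by linarith) intervalIntegrable_const (hc.intervalIntegrable _ _) ?_
    intro x hx
    exact ha.toCl.shift_mono hm hS (by linarith) hx.1
  rw [intervalIntegral.integral_const, smul_eq_mul] at h3
  have h4 : a (S + y) ≤ 2 ^ |m| * a (S + y / 2) :=
    ha.toCl.comp (by norm_num) (by linarith) (by linarith) (by linarith) (by linarith)
  have h5 : (y - y / 2) * (a (S + y / 2) * (y / 2)) ≤ psi a S y := by linarith
  calc a (S + y) * y ^ 2 ≤ (2 ^ |m| * a (S + y / 2)) * y ^ 2 := by gcongr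
    _ = 4 * 2 ^ |m| * ((y - y / 2) * (a (S + y / 2) * (y / 2))) := by ring
    _ ≤ 4 * 2 ^ |m| * psi a S y := by gcongr

theorem psi_facts {m : ℝ} (hm : -1 < m) : ∃ C : ℝ, 1 ≤ C ∧ ∀ a : ℝ → ℝ, Nice m a →
    ∀ S : ℝ, 0 ≤ S → Yng C (psi a S) ∧
      (∀ y, 0 ≤ y → psi a S y ≤ a (S + y) * y ^ 2) ∧
      (∀ y, 0 ≤ y → a (S + y) * y ^ 2 ≤ C * psi a S y) := by
  have hK : (1 : ℝ) ≤ 2 ^ |m| := Real.one_le_rpow (by norm_num) (abs_nonneg m)
  set K : ℝ := 2 ^ |m| with hKd
  have hC4 : 4 * K ≤ 16 * K ^ 2 := by nlinarith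
  refine ⟨16 * K ^ 2, by nlinarith, fun a ha S hS => ⟨⟨?_, ?_, ?_, ?_, ?_⟩, ?_, ?_⟩⟩
  · refine MonotoneOn.convexOn_of_deriv (convex_Ici 0) ?_ ?_ ?_
    · intro y _
      exact (psi_deriv ha.cont S y).continuousAt.continuousWithinAt
    · intro y _
      exact (psi_deriv ha.cont S y).differentiableAt.differentiableWithinAt
    · intro y hy z hz hyz
      rw [interior_Ici] at hy hz
      rw [(psi_deriv ha.cont S y).deriv, (psi_deriv ha.cont S z).deriv]
      exact ha.toCl.shift_mono hm hS (le_of_lt hy) hyz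
  · refine monotoneOn_of_deriv_nonneg (convex_Ici 0) ?_ ?_ ?_
    · intro y _
      exact (psi_deriv ha.cont S y).continuousAt.continuousWithinAt
    · intro y _
      exact (psi_deriv ha.cont S y).differentiableAt.differentiableWithinAt
    · intro y hy
      rw [interior_Ici] at hy
      have hy' : 0 < y := hy
      rw [(psi_deriv ha.cont S y).deriv]
      exact mul_nonneg (ha.pos' (by linarith)).le hy'.le
  · intro y _
    exact (psi_deriv ha.cont S y).continuousAt.continuousWithinAt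
  · unfold psi
    rw [intervalIntegral.integral_same]
  · intro y hy
    have h1 := psi_upper hm ha hS (y := 2 * y) (by linarith)
    have h2 := psi_lower hm ha hS hy
    have h3 : a (S + 2 * y) * (2 * y) ^ 2 ≤ 4 * K * (a (S + y) * y ^ 2) := by
      rcases hy.eq_or_lt with hy0 | hy0
      · rw [← hy0]
        simp
      · have h4 : a (S + 2 * y) ≤ K * a (S + y) :=
          ha.toCl.comp (by norm_num) (by linarith) (by linarith) (by linarith) (by linarith)
        calc a (S + 2 * y) * (2 * y) ^ 2 ≤ (K * a (S + y)) * (2 * y) ^ 2 := by gcongr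
          _ = 4 * K * (a (S + y) * y ^ 2) := by ring
    calc psi a S (2 * y) ≤ 4 * K * (a (S + y) * y ^ 2) := h1.trans h3
      _ ≤ 4 * K * (4 * K * psi a S y) := by gcongr
      _ = 16 * K ^ 2 * psi a S y := by ring
  · intro y hy
    exact psi_upper hm ha hS hy
  · intro y hy
    have h1 := psi_nonneg ha hS hy
    calc a (S + y) * y ^ 2 ≤ 4 * K * psi a S y := psi_lower hm ha hS hy
      _ ≤ 16 * K ^ 2 * psi a S y := by gcongr

theorem yng_sq : Yng 4 (fun y => y ^ 2) := by
  refine ⟨?_, ?_, ?_, ?_, ?_⟩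
  · exact convexOn_pow 2
  · intro x hx y _ hxy
    have hx' : (0 : ℝ) ≤ x := hx
    change x ^ 2 ≤ y ^ 2
    gcongr
  · exact (continuous_pow 2).continuousOn
  · norm_num
  · intro y _
    exact le_of_eq (by ring)

end PLH
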