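import Pool.Agent.Lib.PLH.A1

/-!
MODULE A7 (pure, 250 lines). The approximating nonlinearities.

`g(s) = (μ+s²)^(m/2)`. `m ≥ 0`: `g` is nondecreasing, `g S/g s = ((μ+S²)/(μ+s²))^(m/2) ≤ (S/s)^m`;
`ap = (1/g+ν)⁻¹` is nondecreasing and `ap S/ap s = (1/g s+ν)/(1/g S+ν) ≤ g S/g s`. Bounds:
`(μ^(-m/2)+ν)⁻¹ ≤ ap ≤ ν⁻¹`. `m < 0`: `g` is nonincreasing, `g s/g S ≤ (S/s)^(-m)`, `ap = g+ν`, so
`(g s+ν)/(g S+ν) ≤ g s/g S`. Bounds `ν ≤ ap ≤ μ^(m/2)+ν`. Continuity: `μ+s² > 0`.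
`ap_conv`: write `A ap ξ - A(·^m) ξ = (ap s - s^m) ξ`, `s = ‖ξ‖ ≤ R`; show `|ap s - s^m| s ≤ ε`.
`m ≥ 0`: `|g/(1+νg) - g| ≤ ν g² ≤ ν (1+R²)^m`, `0 ≤ g - s^m ≤ ` uniformly small by uniform continuity
of `x ↦ x^(m/2)` on `[0,R²+1]`. `m < 0`: `ν s ≤ ν R`; `0 ≤ (s^m - (μ+s²)^(m/2)) s`: for `s ≤ η` at
most `s^(m+1) ≤ η^(m+1)`; for `η ≤ s ≤ R` uniform continuity of `x^(m/2)` on `[η²,R²+1]`.
For `Vm`: `(√x-√y)² ≤ |x-y|`, so `‖Vm ap ξ - Vm(·^m) ξ‖² ≤ |ap s - s^m| s * s ≤ ‖ΔA‖ R`.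
-/

open MeasureTheory Set Filter Topology

namespace PLH

/-- The approximating nonlinearities. -/
noncomputable def ap (m μ ν s : ℝ) : ℝ :=
  if 0 ≤ m then ((μ + s ^ 2) ^ (-m / 2) + ν)⁻¹ else (μ + s ^ 2) ^ (m / 2) + ν

private theorem ratio {μ s S : ℝ} (hμ : 0 < μ) (hs : 0 < s) (hS : s ≤ S) :
    (μ + S ^ 2) / (μ + s ^ 2) ≤ (S / s) ^ (2 : ℝ) := by
  have h1 : 0 < μ + s ^ 2 := by positivity
  rw [Real.rpow_two, div_pow, div_le_div_iff₀ h1 (by positivity)]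
  nlinarith [mul_le_mul hS hS hs.le (hs.le.trans hS)]

private theorem cont_base {μ : ℝ} (hμ : 0 < μ) (c : ℝ) :
    Continuous fun s : ℝ => (μ + s ^ 2) ^ c := by
  refine Continuous.rpow_const (by fun_prop) fun s => Or.inl ?_
  positivity

theorem nice_ap (m : ℝ) {μ ν : ℝ} (hμ : 0 < μ) (hν : 0 < ν) : Nice m (ap m μ ν) := by
  have hx : ∀ s : ℝ, 0 < μ + s ^ 2 := fun s => by positivity
  by_cases hm : 0 ≤ m
  · have hap : ap m μ ν = fun s => ((μ + s ^ 2) ^ (-m / 2) + ν)⁻¹ := by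
      funext s
      unfold ap
      rw [if_pos hm]
    rw [hap]
    have hh : ∀ s : ℝ, 0 < (μ + s ^ 2) ^ (-m / 2) := fun s => Real.rpow_pos_of_pos (hx s) _
    have hden : ∀ s : ℝ, 0 < (μ + s ^ 2) ^ (-m / 2) + ν := fun s => by linarith [hh s]
    refine ⟨⟨fun s _ => inv_pos.2 (hden s), ?_, ?_⟩, ?_, ?_⟩
    · intro s S hs hS
      have h1 : (μ + S ^ 2) ^ (-m / 2) ≤ (μ + s ^ 2) ^ (-m / 2) :=
        Real.rpow_le_rpow_of_nonpos (hx s) (by nlinarith) (by linarith)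
      have h2 : ((μ + s ^ 2) ^ (-m / 2) + ν)⁻¹ ≤ ((μ + S ^ 2) ^ (-m / 2) + ν)⁻¹ :=
        inv_anti₀ (hden S) (by linarith)
      have h3 : min 1 ((S / s) ^ m) ≤ 1 := min_le_left _ _
      have h4 : 0 < ((μ + s ^ 2) ^ (-m / 2) + ν)⁻¹ := inv_pos.2 (hden s)
      nlinarith
    · intro s S hs hS
      have hS0 : 0 < S := hs.trans_le hS
      have hr1 : 1 ≤ S / s := (one_le_div hs).2 hS
      have hρ1 : 1 ≤ (S / s) ^ m := Real.one_le_rpow hr1 hm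
      have h1 : (μ + s ^ 2) ^ (-m / 2) ≤ (S / s) ^ m * (μ + S ^ 2) ^ (-m / 2) := by
        have h2 : ((μ + S ^ 2) / (μ + s ^ 2)) ^ (m / 2) ≤ ((S / s) ^ (2 : ℝ)) ^ (m / 2) :=
          Real.rpow_le_rpow (div_pos (hx S) (hx s)).le (ratio hμ hs hS) (by linarith)
        rw [← Real.rpow_mul (div_pos hS0 hs).le, show (2 : ℝ) * (m / 2) = m by ring,
          Real.div_rpow (hx S).le (hx s).le, div_le_iff₀ (Real.rpow_pos_of_pos (hx s) _)] at h2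
        rw [show -m / 2 = -(m / 2) by ring, Real.rpow_neg (hx s).le, Real.rpow_neg (hx S).le]
        have hp := Real.rpow_pos_of_pos (hx s) (m / 2)
        have hP := Real.rpow_pos_of_pos (hx S) (m / 2)
        rw [← div_eq_mul_inv, inv_eq_one_div, div_le_div_iff₀ hp hP]
        linarith
      have h3 : ((μ + S ^ 2) ^ (-m / 2) + ν)⁻¹ ≤
          (S / s) ^ m * ((μ + s ^ 2) ^ (-m / 2) + ν)⁻¹ := by
        rw [← div_eq_mul_inv, inv_eq_one_div, div_le_div_iff₀ (hden S) (hden s)]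
        nlinarith
      refine h3.trans ?_
      exact mul_le_mul_of_nonneg_right (le_max_right _ _) (inv_pos.2 (hden s)).le
    · exact ((cont_base hμ _).add continuous_const).inv₀ fun s => (hden s).ne'
    · refine ⟨(μ ^ (-m / 2) + ν)⁻¹, ν⁻¹, ?_, fun s _ => ⟨?_, ?_⟩⟩
      · have := Real.rpow_pos_of_pos hμ (-m / 2)
        positivity
      · refine inv_anti₀ (hden s) ?_
        have : (μ + s ^ 2) ^ (-m / 2) ≤ μ ^ (-m / 2) :=
          Real.rpow_le_rpow_of_nonpos hμ (by nlinarith [sq_nonneg s]) (by linarith)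
        linarith
      · exact inv_anti₀ hν (by linarith [hh s])
  · have hm' : m < 0 := not_le.1 hm
    have hap : ap m μ ν = fun s => (μ + s ^ 2) ^ (m / 2) + ν := by
      funext s
      unfold ap
      rw [if_neg hm]
    rw [hap]
    have hh : ∀ s : ℝ, 0 < (μ + s ^ 2) ^ (m / 2) := fun s => Real.rpow_pos_of_pos (hx s) _
    refine ⟨⟨fun s _ => by linarith [hh s], ?_, ?_⟩, ?_, ?_⟩
    · intro s S hs hS
      have hS0 : 0 < S := hs.trans_le hS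
      have hr1 : 1 ≤ S / s := (one_le_div hs).2 hS
      have hρ0 : 0 < (S / s) ^ m := Real.rpow_pos_of_pos (div_pos hS0 hs) _
      have hρ1 : (S / s) ^ m ≤ 1 := Real.rpow_le_one_of_one_le_of_nonpos hr1 hm'.le
      have h2 : ((S / s) ^ (2 : ℝ)) ^ (m / 2) ≤ ((μ + S ^ 2) / (μ + s ^ 2)) ^ (m / 2) :=
        Real.rpow_le_rpow_of_nonpos (div_pos (hx S) (hx s)) (ratio hμ hs hS) (by linarith)
      rw [← Real.rpow_mul (div_pos hS0 hs).le, show (2 : ℝ) * (m / 2) = m by ring,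
        Real.div_rpow (hx S).le (hx s).le, le_div_iff₀ (Real.rpow_pos_of_pos (hx s) _)] at h2
      have h3 : min 1 ((S / s) ^ m) ≤ (S / s) ^ m := min_le_right _ _
      have h4 : 0 < (μ + s ^ 2) ^ (m / 2) + ν := by linarith [hh s]
      calc min 1 ((S / s) ^ m) * ((μ + s ^ 2) ^ (m / 2) + ν)
          ≤ (S / s) ^ m * ((μ + s ^ 2) ^ (m / 2) + ν) := mul_le_mul_of_nonneg_right h3 h4.le
        _ = (S / s) ^ m * (μ + s ^ 2) ^ (m / 2) + (S / s) ^ m * ν := by ring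
        _ ≤ (μ + S ^ 2) ^ (m / 2) + 1 * ν :=
            add_le_add h2 (mul_le_mul_of_nonneg_right hρ1 hν.le)
        _ = (μ + S ^ 2) ^ (m / 2) + ν := by ring
    · intro s S hs hS
      have h1 : (μ + S ^ 2) ^ (m / 2) ≤ (μ + s ^ 2) ^ (m / 2) :=
        Real.rpow_le_rpow_of_nonpos (hx s) (by nlinarith) (by linarith)
      have h3 : 1 ≤ max 1 ((S / s) ^ m) := le_max_left _ _
      have h4 : 0 < (μ + s ^ 2) ^ (m / 2) + ν := by linarith [hh s]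
      nlinarith
    · exact (cont_base hμ _).add continuous_const
    · refine ⟨ν, μ ^ (m / 2) + ν, hν, fun s _ => ⟨by linarith [hh s], ?_⟩⟩
      have : (μ + s ^ 2) ^ (m / 2) ≤ μ ^ (m / 2) :=
        Real.rpow_le_rpow_of_nonpos hμ (by nlinarith [sq_nonneg s]) (by linarith)
      linarith

theorem cl_pow (m : ℝ) : Cl m (fun s => s ^ m) := by
  have key : ∀ s S : ℝ, 0 < s → s ≤ S → (S / s) ^ m * s ^ m = S ^ m := by
    intro s S hs hS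
    rw [Real.div_rpow (hs.le.trans hS) hs.le]
    exact div_mul_cancel₀ _ (Real.rpow_pos_of_pos hs m).ne'
  refine ⟨fun s hs => Real.rpow_pos_of_pos hs m, ?_, ?_⟩
  · intro s S hs hS
    have := mul_le_mul_of_nonneg_right (min_le_right 1 ((S / s) ^ m))
      (Real.rpow_pos_of_pos hs m).le
    rwa [key s S hs hS] at this
  · intro s S hs hS
    have := mul_le_mul_of_nonneg_right (le_max_right 1 ((S / s) ^ m))
      (Real.rpow_pos_of_pos hs m).le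
    rwa [key s S hs hS] at this

/-- the function `ap * s`, extended to `μ = ν = 0` -/
private noncomputable def FF (m : ℝ) (p : ℝ × ℝ × ℝ) : ℝ :=
  if 0 ≤ m then p.2.2 * ((p.1 + p.2.2 ^ 2) ^ (m / 2) / (1 + p.2.1 * (p.1 + p.2.2 ^ 2) ^ (m / 2)))
  else p.2.2 * ((p.1 + p.2.2 ^ 2) ^ (m / 2) + p.2.1)

private theorem FF_ap (m : ℝ) {μ ν : ℝ} (hμ : 0 < μ) (hν : 0 < ν) (s : ℝ) :
    FF m (μ, ν, s) = ap m μ ν s * s := by
  have hx : 0 < μ + s ^ 2 := by positivity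
  unfold FF ap
  by_cases hm : 0 ≤ m
  · rw [if_pos hm, if_pos hm]
    have hp := Real.rpow_pos_of_pos hx (m / 2)
    rw [show -m / 2 = -(m / 2) by ring, Real.rpow_neg hx.le]
    have h1 : 1 + ν * (μ + s ^ 2) ^ (m / 2) ≠ 0 := by positivity
    have h2 : ((μ + s ^ 2) ^ (m / 2))⁻¹ + ν ≠ 0 := by positivity
    show s * ((μ + s ^ 2) ^ (m / 2) / (1 + ν * (μ + s ^ 2) ^ (m / 2))) = _
    field_simp
  · rw [if_neg hm, if_neg hm]
    show s * ((μ + s ^ 2) ^ (m / 2) + ν) = _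
    ring

private theorem FF_zero (m : ℝ) {s : ℝ} (hs : 0 ≤ s) : FF m (0, 0, s) = s ^ m * s := by
  have h1 : (0 + s ^ 2) ^ (m / 2) = s ^ m := by
    rw [zero_add, ← Real.rpow_natCast, ← Real.rpow_mul hs]
    congr 1
    push_cast
    ring
  unfold FF
  split_ifs
  · show s * ((0 + s ^ 2) ^ (m / 2) / (1 + 0 * (0 + s ^ 2) ^ (m / 2))) = _
    rw [h1]
    simp [mul_comm]
  · show s * ((0 + s ^ 2) ^ (m / 2) + 0) = _
    rw [h1]
    ring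

private theorem FF_cont {m : ℝ} (hm : -1 < m) (R : ℝ) :
    ContinuousOn (FF m) (Icc 0 1 ×ˢ Icc 0 1 ×ˢ Icc 0 R) := by
  rintro ⟨μ, ν, s⟩ hp
  simp only [mem_prod, mem_Icc] at hp
  obtain ⟨⟨hμ, -⟩, ⟨hν, -⟩, hs, -⟩ := hp
  by_cases hm0 : 0 ≤ m
  · have e : FF m = fun p : ℝ × ℝ × ℝ => p.2.2 * ((p.1 + p.2.2 ^ 2) ^ (m / 2) /
        (1 + p.2.1 * (p.1 + p.2.2 ^ 2) ^ (m / 2))) := by
      funext p
      unfold FF
      rw [if_pos hm0]
    rw [e]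
    have hc : Continuous fun p : ℝ × ℝ × ℝ => (p.1 + p.2.2 ^ 2) ^ (m / 2) :=
      Continuous.rpow_const (by fun_prop) fun p => Or.inr (by linarith)
    have hx : 0 ≤ μ + s ^ 2 := by positivity
    have hnn := Real.rpow_nonneg hx (m / 2)
    have hd : (1 + ν * (μ + s ^ 2) ^ (m / 2)) ≠ 0 := by positivity
    refine ContinuousAt.continuousWithinAt ?_
    refine ContinuousAt.mul (by fun_prop) (ContinuousAt.div hc.continuousAt ?_ hd)
    exact continuousAt_const.add (ContinuousAt.mul (by fun_prop) hc.continuousAt)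
  · have hm' : m < 0 := not_le.1 hm0
    have e : FF m = fun p : ℝ × ℝ × ℝ => p.2.2 * ((p.1 + p.2.2 ^ 2) ^ (m / 2) + p.2.1) := by
      funext p
      unfold FF
      rw [if_neg hm0]
    rw [e]
    by_cases hx : μ + s ^ 2 = 0
    · have hs0 : s = 0 := by nlinarith [sq_nonneg s]
      have hμ0 : μ = 0 := by nlinarith [sq_nonneg s]
      subst hs0
      subst hμ0
      have hf0 : (fun p : ℝ × ℝ × ℝ => p.2.2 * ((p.1 + p.2.2 ^ 2) ^ (m / 2) + p.2.1))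
          ((0 : ℝ), ν, (0 : ℝ)) = 0 := by
        simp
      show Tendsto (fun p : ℝ × ℝ × ℝ => p.2.2 * ((p.1 + p.2.2 ^ 2) ^ (m / 2) + p.2.1))
        (𝓝[Icc 0 1 ×ˢ Icc 0 1 ×ˢ Icc 0 R] ((0 : ℝ), ν, (0 : ℝ)))
        (𝓝 ((fun p : ℝ × ℝ × ℝ => p.2.2 * ((p.1 + p.2.2 ^ 2) ^ (m / 2) + p.2.1))
          ((0 : ℝ), ν, (0 : ℝ))))
      rw [hf0]
      have hg : Tendsto (fun p : ℝ × ℝ × ℝ => (p.1 + p.2.2 ^ 2) ^ ((m + 1) / 2) + p.2.2 * p.2.1)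
          (𝓝[Icc 0 1 ×ˢ Icc 0 1 ×ˢ Icc 0 R] ((0 : ℝ), ν, (0 : ℝ))) (𝓝 0) := by
        have hc : Continuous fun p : ℝ × ℝ × ℝ =>
            (p.1 + p.2.2 ^ 2) ^ ((m + 1) / 2) + p.2.2 * p.2.1 := by
          refine Continuous.add (Continuous.rpow_const (by fun_prop) fun p => Or.inr ?_)
            (by fun_prop)
          linarith
        have h : Tendsto (fun p : ℝ × ℝ × ℝ => (p.1 + p.2.2 ^ 2) ^ ((m + 1) / 2) + p.2.2 * p.2.1)
            (𝓝 ((0 : ℝ), ν, (0 : ℝ)))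
            (𝓝 (((0 : ℝ) + (0 : ℝ) ^ 2) ^ ((m + 1) / 2) + (0 : ℝ) * ν)) :=
          hc.tendsto ((0 : ℝ), ν, (0 : ℝ))
        have h0 : ((0 : ℝ) + (0 : ℝ) ^ 2) ^ ((m + 1) / 2) + (0 : ℝ) * ν = 0 := by
          have : (m + 1) / 2 ≠ 0 := by
            have : 0 < (m + 1) / 2 := by linarith
            exact this.ne'
          rw [show (0 : ℝ) + (0 : ℝ) ^ 2 = 0 by ring, Real.zero_rpow this]
          ring
        rw [h0] at h
        exact h.mono_left nhdsWithin_le_nhds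
      refine squeeze_zero_norm' ?_ hg
      filter_upwards [self_mem_nhdsWithin] with p hp
      simp only [mem_prod, mem_Icc] at hp
      obtain ⟨⟨h1, -⟩, ⟨h2, -⟩, h3, -⟩ := hp
      have hy : 0 ≤ p.1 + p.2.2 ^ 2 := by positivity
      have hpow := Real.rpow_nonneg hy (m / 2)
      rw [Real.norm_of_nonneg (by positivity)]
      rcases hy.eq_or_lt with hy0 | hy0
      · have hz : p.2.2 = 0 := by nlinarith [sq_nonneg p.2.2]
        rw [hz]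
        have h4 : 0 ≤ (p.1 + (0 : ℝ) ^ 2) ^ ((m + 1) / 2) :=
          Real.rpow_nonneg (by nlinarith) _
        nlinarith
      · have h4 : p.2.2 ≤ (p.1 + p.2.2 ^ 2) ^ ((1 : ℝ) / 2) := by
          rw [← Real.sqrt_eq_rpow]
          exact Real.le_sqrt_of_sq_le (by linarith)
        have h5 : (p.1 + p.2.2 ^ 2) ^ ((m + 1) / 2) =
            (p.1 + p.2.2 ^ 2) ^ ((1 : ℝ) / 2) * (p.1 + p.2.2 ^ 2) ^ (m / 2) := by
          rw [← Real.rpow_add hy0]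
          congr 1
          ring
        rw [h5, mul_add]
        exact add_le_add (mul_le_mul_of_nonneg_right h4 hpow) le_rfl
    · refine ContinuousAt.continuousWithinAt ?_
      refine ContinuousAt.mul (by fun_prop) (ContinuousAt.add ?_ (by fun_prop))
      exact ContinuousAt.rpow_const (by fun_prop) (Or.inl hx)

private theorem conv_aux {m : ℝ} (hm : -1 < m) (R : ℝ) {ε : ℝ} (hε : 0 < ε) :
    ∃ δ : ℝ, 0 < δ ∧ ∀ μ ν : ℝ, 0 < μ → μ < δ → 0 < ν → ν < δ → ∀ s : ℝ, 0 ≤ s → s ≤ R →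
      |ap m μ ν s - s ^ m| * s ≤ ε := by
  have hK : IsCompact (Icc (0 : ℝ) 1 ×ˢ Icc (0 : ℝ) 1 ×ˢ Icc (0 : ℝ) R) :=
    isCompact_Icc.prod (isCompact_Icc.prod isCompact_Icc)
  have hu := hK.uniformContinuousOn_of_continuous (FF_cont hm R)
  rw [Metric.uniformContinuousOn_iff] at hu
  obtain ⟨δ, hδ, h⟩ := hu ε hε
  refine ⟨min δ 1, lt_min hδ one_pos, fun μ ν hμ hμ' hν hν' s hs hsR => ?_⟩
  have h1 : μ < δ := hμ'.trans_le (min_le_left _ _)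
  have h2 : μ ≤ 1 := (hμ'.trans_le (min_le_right _ _)).le
  have h3 : ν < δ := hν'.trans_le (min_le_left _ _)
  have h4 : ν ≤ 1 := (hν'.trans_le (min_le_right _ _)).le
  have h5 := h (μ, ν, s) ⟨⟨hμ.le, h2⟩, ⟨hν.le, h4⟩, hs, hsR⟩ (0, 0, s)
    ⟨⟨le_rfl, zero_le_one⟩, ⟨le_rfl, zero_le_one⟩, hs, hsR⟩ (by
      rw [Prod.dist_eq, Prod.dist_eq]
      simp only [dist_self, Real.dist_eq, sub_zero, abs_of_pos hμ, abs_of_pos hν]
      exact max_lt h1 (max_lt h3 hδ))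
  rw [FF_ap m hμ hν, FF_zero m hs, Real.dist_eq, ← sub_mul, abs_mul, abs_of_nonneg hs] at h5
  exact h5.le

variable (E : Type*) [NormedAddCommGroup E] [InnerProductSpace ℝ E]

theorem ap_conv {m : ℝ} (hm : -1 < m) (R : ℝ) {ε : ℝ} (hε : 0 < ε) :
    ∃ δ : ℝ, 0 < δ ∧ ∀ μ ν : ℝ, 0 < μ → μ < δ → 0 < ν → ν < δ → ∀ ξ : E, ‖ξ‖ ≤ R →
      ‖A (ap m μ ν) ξ - A (fun s => s ^ m) ξ‖ ≤ ε ∧
      ‖Vm (ap m μ ν) ξ - Vm (fun s => s ^ m) ξ‖ ≤ ε := by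
  have hR1 : 0 < |R| + 1 := by positivity
  obtain ⟨δ, hδ, h⟩ := conv_aux hm R (ε := min ε (ε ^ 2 / (|R| + 1)))
    (lt_min hε (by positivity))
  refine ⟨δ, hδ, fun μ ν hμ hμ' hν hν' ξ hξ => ?_⟩
  have h1 := h μ ν hμ hμ' hν hν' ‖ξ‖ (norm_nonneg ξ) hξ
  have hR : 0 ≤ R := (norm_nonneg ξ).trans hξ
  constructor
  · unfold A
    rw [← sub_smul, norm_smul, Real.norm_eq_abs]
    exact h1.trans (min_le_left _ _)
  · unfold Vm
    rw [← sub_smul, norm_smul, Real.norm_eq_abs]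
    have hnice := nice_ap m hμ hν
    obtain ⟨lam, Lam, hl, hb⟩ := hnice.bd
    have ha : 0 ≤ ap m μ ν ‖ξ‖ := hl.le.trans (hb _ (norm_nonneg ξ)).1
    have hb' : 0 ≤ ‖ξ‖ ^ m := Real.rpow_nonneg (norm_nonneg ξ) m
    have h2 : (√(ap m μ ν ‖ξ‖) - √(‖ξ‖ ^ m)) ^ 2 ≤ |ap m μ ν ‖ξ‖ - ‖ξ‖ ^ m| := by
      set x := √(ap m μ ν ‖ξ‖) with hx
      set y := √(‖ξ‖ ^ m) with hy
      have hx0 : 0 ≤ x := Real.sqrt_nonneg _
      have hy0 : 0 ≤ y := Real.sqrt_nonneg _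
      have hx2 : ap m μ ν ‖ξ‖ = x ^ 2 := (Real.sq_sqrt ha).symm
      have hy2 : ‖ξ‖ ^ m = y ^ 2 := (Real.sq_sqrt hb').symm
      rw [hx2, hy2]
      rcases le_total x y with hxy | hxy
      · rw [abs_of_nonpos (by nlinarith)]
        nlinarith
      · rw [abs_of_nonneg (by nlinarith)]
        nlinarith
    refine abs_le_of_sq_le_sq' ?_ hε.le |>.2
    have h3 : |√(ap m μ ν ‖ξ‖) - √(‖ξ‖ ^ m)| ^ 2 = (√(ap m μ ν ‖ξ‖) - √(‖ξ‖ ^ m)) ^ 2 := sq_abs _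
    rw [mul_pow, h3]
    have h4 : |ap m μ ν ‖ξ‖ - ‖ξ‖ ^ m| * ‖ξ‖ ≤ ε ^ 2 / (|R| + 1) := h1.trans (min_le_right _ _)
    have h5 : ‖ξ‖ ≤ |R| + 1 := hξ.trans ((le_abs_self R).trans (by linarith))
    have h6 : 0 ≤ |ap m μ ν ‖ξ‖ - ‖ξ‖ ^ m| * ‖ξ‖ := by positivity
    calc (√(ap m μ ν ‖ξ‖) - √(‖ξ‖ ^ m)) ^ 2 * ‖ξ‖ ^ 2
        ≤ |ap m μ ν ‖ξ‖ - ‖ξ‖ ^ m| * ‖ξ‖ ^ 2 := mul_le_mul_of_nonneg_right h2 (by positivity)
      _ = (|ap m μ ν ‖ξ‖ - ‖ξ‖ ^ m| * ‖ξ‖) * ‖ξ‖ := by ring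
      _ ≤ (ε ^ 2 / (|R| + 1)) * (|R| + 1) :=
          mul_le_mul h4 h5 (norm_nonneg ξ) (by positivity)
      _ = ε ^ 2 := by field_simp

end PLH
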