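import Pool.Agent.Lib.PLH.A3

/-!
MODULE A8 (pure, 120 lines). `V` is onto for the nice nonlinearities; `A` and `V` are Lipschitz and
`A` is strongly monotone (qualitatively).

`Vm_surj`: for `η ≠ 0`: `v(s) = sqrt(a s) s` is continuous, `v 0 = 0`, `v s ≥ sqrt(lam) s`, so
`v s = ‖η‖` for some `s > 0`; `ξ = (s/‖η‖) η`. `η = 0`: `ξ = 0`.
`nice_lip`: from `Alg` and `lam ≤ a ≤ Lam`: `‖ΔA‖ ≤ C Lam D`, `‖ΔV‖ ≤ sqrt(C Lam) D`,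
`⟨ΔA, ξ-ζ⟩ ≥ ‖ΔV‖²/C ≥ lam D²/C²`.
-/

open MeasureTheory Set Filter Topology

namespace PLH

variable {E : Type*} [NormedAddCommGroup E] [InnerProductSpace ℝ E] {m : ℝ} {a : ℝ → ℝ}

theorem Vm_surj (h : Nice m a) (η : E) : ∃ ξ : E, Vm a ξ = η := by
  rcases eq_or_ne η 0 with rfl | hη
  · exact ⟨0, by simp [Vm]⟩
  have hn : 0 < ‖η‖ := norm_pos_iff.2 hη
  obtain ⟨lam, Lam, hlam, hb⟩ := h.bd
  have hsl : 0 < Real.sqrt lam := Real.sqrt_pos.2 hlam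
  have hcont : Continuous fun s : ℝ => Real.sqrt (a s) * s :=
    (h.cont.sqrt).mul continuous_id
  have hS : 0 ≤ ‖η‖ / Real.sqrt lam := (div_pos hn hsl).le
  have hivt := intermediate_value_Icc hS hcont.continuousOn
  have hmem : ‖η‖ ∈ Icc ((fun s : ℝ => Real.sqrt (a s) * s) 0)
      ((fun s : ℝ => Real.sqrt (a s) * s) (‖η‖ / Real.sqrt lam)) := by
    refine ⟨?_, ?_⟩
    · show Real.sqrt (a 0) * 0 ≤ ‖η‖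
      rw [mul_zero]
      exact hn.le
    · show ‖η‖ ≤ Real.sqrt (a (‖η‖ / Real.sqrt lam)) * (‖η‖ / Real.sqrt lam)
      have h1 : Real.sqrt lam ≤ Real.sqrt (a (‖η‖ / Real.sqrt lam)) :=
        Real.sqrt_le_sqrt (hb _ hS).1
      calc ‖η‖ = Real.sqrt lam * (‖η‖ / Real.sqrt lam) := by field_simp
        _ ≤ _ := mul_le_mul_of_nonneg_right h1 hS
  obtain ⟨s, hs, hsη⟩ := hivt hmem
  have hsη' : Real.sqrt (a s) * s = ‖η‖ := hsη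
  refine ⟨(s / ‖η‖) • η, ?_⟩
  have h2 : ‖(s / ‖η‖) • η‖ = s := by
    rw [norm_smul, Real.norm_eq_abs, abs_of_nonneg (div_nonneg hs.1 hn.le),
      div_mul_cancel₀ _ hn.ne']
  unfold Vm
  rw [h2, smul_smul, ← mul_div_assoc, hsη', div_self hn.ne', one_smul]

theorem nice_lip (hm : -1 < m) (h : Nice m a) : ∃ (L : NNReal) (l : ℝ), 0 < l ∧
    LipschitzWith L (A a : E → E) ∧ LipschitzWith L (Vm a : E → E) ∧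
    ∀ ξ ζ : E, l * ‖ξ - ζ‖ ^ 2 ≤ inner ℝ (A a ξ - A a ζ) (ξ - ζ) := by
  obtain ⟨C, hC⟩ := exists_alg E hm
  obtain ⟨lam, Lam, hlam, hb⟩ := h.bd
  have hC0 : 0 < C := one_pos.trans_le hC.one
  have hLam : 0 < Lam := hlam.trans_le ((hb 0 le_rfl).1.trans (hb 0 le_rfl).2)
  have hCL : 0 ≤ C * Lam := mul_nonneg hC0.le hLam.le
  have hab : ∀ ξ ζ : E, lam ≤ a (‖ξ‖ + ‖ζ‖) ∧ a (‖ξ‖ + ‖ζ‖) ≤ Lam :=
    fun ξ ζ => hb _ (add_nonneg (norm_nonneg _) (norm_nonneg _))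
  refine ⟨⟨C * Lam + Real.sqrt (C * Lam), add_nonneg hCL (Real.sqrt_nonneg _)⟩, lam / C ^ 2,
    by positivity, ?_, ?_, ?_⟩
  · refine LipschitzWith.of_dist_le_mul fun ξ ζ => ?_
    rw [dist_eq_norm, dist_eq_norm]
    show ‖A a ξ - A a ζ‖ ≤ (C * Lam + Real.sqrt (C * Lam)) * ‖ξ - ζ‖
    have h1 := hC.lip a h.toCl ξ ζ
    have h2 : C * (a (‖ξ‖ + ‖ζ‖) * ‖ξ - ζ‖) ≤ C * (Lam * ‖ξ - ζ‖) :=
      mul_le_mul_of_nonneg_left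
        (mul_le_mul_of_nonneg_right (hab ξ ζ).2 (norm_nonneg _)) hC0.le
    have h3 : 0 ≤ Real.sqrt (C * Lam) * ‖ξ - ζ‖ :=
      mul_nonneg (Real.sqrt_nonneg _) (norm_nonneg _)
    calc ‖A a ξ - A a ζ‖ ≤ C * (Lam * ‖ξ - ζ‖) := h1.trans h2
      _ ≤ (C * Lam + Real.sqrt (C * Lam)) * ‖ξ - ζ‖ := by linarith
  · refine LipschitzWith.of_dist_le_mul fun ξ ζ => ?_
    rw [dist_eq_norm, dist_eq_norm]
    show ‖Vm a ξ - Vm a ζ‖ ≤ (C * Lam + Real.sqrt (C * Lam)) * ‖ξ - ζ‖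
    have h1 := hC.vhi a h.toCl ξ ζ
    have h2 : C * (a (‖ξ‖ + ‖ζ‖) * ‖ξ - ζ‖ ^ 2) ≤ C * (Lam * ‖ξ - ζ‖ ^ 2) :=
      mul_le_mul_of_nonneg_left
        (mul_le_mul_of_nonneg_right (hab ξ ζ).2 (sq_nonneg _)) hC0.le
    have h3 : ‖Vm a ξ - Vm a ζ‖ ≤ Real.sqrt (C * Lam) * ‖ξ - ζ‖ := by
      refine abs_le_of_sq_le_sq' ?_ (mul_nonneg (Real.sqrt_nonneg _) (norm_nonneg _)) |>.2
      rw [mul_pow, Real.sq_sqrt hCL]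
      calc ‖Vm a ξ - Vm a ζ‖ ^ 2 ≤ C * (Lam * ‖ξ - ζ‖ ^ 2) := h1.trans h2
        _ = C * Lam * ‖ξ - ζ‖ ^ 2 := by ring
    have h4 : 0 ≤ C * Lam * ‖ξ - ζ‖ := mul_nonneg hCL (norm_nonneg _)
    calc ‖Vm a ξ - Vm a ζ‖ ≤ Real.sqrt (C * Lam) * ‖ξ - ζ‖ := h3
      _ ≤ (C * Lam + Real.sqrt (C * Lam)) * ‖ξ - ζ‖ := by linarith
  · intro ξ ζ
    have h1 := hC.mono a h.toCl ξ ζ
    have h2 := hC.vlo a h.toCl ξ ζ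
    have h3 : lam * ‖ξ - ζ‖ ^ 2 ≤ a (‖ξ‖ + ‖ζ‖) * ‖ξ - ζ‖ ^ 2 :=
      mul_le_mul_of_nonneg_right (hab ξ ζ).1 (sq_nonneg _)
    have h4 : lam * ‖ξ - ζ‖ ^ 2 ≤ C * (C * inner ℝ (A a ξ - A a ζ) (ξ - ζ)) :=
      (h3.trans h2).trans (mul_le_mul_of_nonneg_left h1 hC0.le)
    rw [div_mul_eq_mul_div, div_le_iff₀ (by positivity)]
    calc lam * ‖ξ - ζ‖ ^ 2 ≤ C * (C * inner ℝ (A a ξ - A a ζ) (ξ - ζ)) := h4
      _ = inner ℝ (A a ξ - A a ζ) (ξ - ζ) * C ^ 2 := by ring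

theorem A_zero (a : ℝ → ℝ) : A a (0 : E) = 0 := by simp [A]

theorem Vm_zero (a : ℝ → ℝ) : Vm a (0 : E) = 0 := by simp [Vm]

end PLH
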