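import Pool.Agent.Lib.PLH.A7

/-!
MODULE A9 (pure, 180 lines). The conjugate inequality for the approximating nonlinearities.
`p' = (m+2)/(m+1) = 1 + 1/(m+1)`.

If `z ≤ ε ap(α+D) D` the first term on the right suffices. Otherwise `z > ε ap(α+D) D`, `D > 0`.
`m ≥ 0`: `ap(α+D) ≥ ap(D) = ((μ+D²)^(-m/2)+ν)⁻¹ ≥ (D^(-m)+ν)⁻¹ ≥ min(D^m, 1/ν)/2`.
 If `D^(-m) ≥ ν`: `z ≥ (ε/2) D^(m+1)`, so `D ≤ (2z/ε)^(1/(m+1))` and `z D ≤ (2/ε)^(1/(m+1)) z^p'`.
 If `D^(-m) < ν`: `z ≥ (ε/2) D/ν`, `D ≤ 2νz/ε`, `z D ≤ (2/ε) ν z²`.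
`m < 0`: `ap(α+D) ≥ (μ+(α+D)²)^(m/2) ≥ (√μ+α+D)^m`. If `D ≤ √μ+α`: `z ≥ ε (2(√μ+α))^m D`, so
 `z D ≤ ε⁻¹ 2^(-m) (√μ+α)^(-m) z²`. If `D > √μ+α`: `z ≥ ε (2D)^m D = ε 2^m D^(m+1)`, so
 `z D ≤ (2^(-m)/ε)^(1/(m+1)) z^p'`.
-/

open MeasureTheory Set Filter Topology

namespace PLH

private theorem a9_key {m c z D : ℝ} (hm : -1 < m) (hc : 0 < c) (hD : 0 < D) (hz : 0 < z)
    (h : c * D ^ (m + 1) ≤ z) : z * D ≤ c⁻¹ ^ (1 / (m + 1)) * z ^ ((m + 2) / (m + 1)) := by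
  have hm1 : 0 < m + 1 := by linarith
  have h1 : D ^ (m + 1) ≤ c⁻¹ * z := by
    rw [inv_mul_eq_div, le_div_iff₀ hc, mul_comm]
    exact h
  have h2 : D ≤ (c⁻¹ * z) ^ (1 / (m + 1)) := by
    have h3 := Real.rpow_le_rpow (Real.rpow_nonneg hD.le _) h1 (one_div_pos.2 hm1).le
    rwa [← Real.rpow_mul hD.le, mul_one_div_cancel hm1.ne', Real.rpow_one] at h3
  rw [Real.mul_rpow (inv_pos.2 hc).le hz.le] at h2
  have h4 : z ^ ((m + 2) / (m + 1)) = z * z ^ (1 / (m + 1)) := by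
    have h5 : (m + 2) / (m + 1) = 1 + 1 / (m + 1) := by
      field_simp
      ring
    rw [h5, Real.rpow_add hz, Real.rpow_one]
  rw [h4]
  calc z * D ≤ z * (c⁻¹ ^ (1 / (m + 1)) * z ^ (1 / (m + 1))) :=
        mul_le_mul_of_nonneg_left h2 hz.le
    _ = c⁻¹ ^ (1 / (m + 1)) * (z * z ^ (1 / (m + 1))) := by ring

theorem conj {m : ℝ} (hm : -1 < m) {ε : ℝ} (hε : 0 < ε) :
    ∃ C : ℝ, 0 ≤ C ∧ ∀ μ ν : ℝ, 0 < μ → 0 < ν → ∀ α D z : ℝ, 0 ≤ α → 0 ≤ D → 0 ≤ z →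
      z * D ≤ ε * (ap m μ ν (α + D) * D ^ 2) +
        C * (z ^ ((m + 2) / (m + 1)) +
          (ν + if m < 0 then (Real.sqrt μ + α) ^ (-m) else 0) * z ^ 2) := by
  have hm1 : 0 < m + 1 := by linarith
  have h2m : 0 < (2 : ℝ) ^ m := Real.rpow_pos_of_pos two_pos _
  have hc1 : 0 ≤ (ε / 2)⁻¹ ^ (1 / (m + 1)) := Real.rpow_nonneg (by positivity) _
  have hc2 : 0 ≤ 2 / ε := by positivity
  have hc3 : 0 ≤ (ε * 2 ^ m)⁻¹ := by positivity
  have hc4 : 0 ≤ (ε * 2 ^ m)⁻¹ ^ (1 / (m + 1)) := Real.rpow_nonneg hc3 _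
  refine ⟨(ε / 2)⁻¹ ^ (1 / (m + 1)) + 2 / ε + (ε * 2 ^ m)⁻¹ + (ε * 2 ^ m)⁻¹ ^ (1 / (m + 1)),
    by positivity, ?_⟩
  intro μ ν hμ hν α D z hα hD hz
  set C := (ε / 2)⁻¹ ^ (1 / (m + 1)) + 2 / ε + (ε * 2 ^ m)⁻¹ +
    (ε * 2 ^ m)⁻¹ ^ (1 / (m + 1)) with hC
  have hC0 : 0 ≤ C := by positivity
  have hs0 : 0 < μ + (α + D) ^ 2 := by positivity
  have hG : 0 < ap m μ ν (α + D) :=
    (nice_ap m hμ hν).pos' (add_nonneg hα hD)
  have hw : 0 ≤ ν + if m < 0 then (Real.sqrt μ + α) ^ (-m) else 0 := by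
    split_ifs
    · exact add_nonneg hν.le (Real.rpow_nonneg (add_nonneg (Real.sqrt_nonneg _) hα) _)
    · rw [add_zero]
      exact hν.le
  set w := ν + if m < 0 then (Real.sqrt μ + α) ^ (-m) else 0 with hwdef
  have hzp : 0 ≤ z ^ ((m + 2) / (m + 1)) := Real.rpow_nonneg hz _
  have hz2 : 0 ≤ w * z ^ 2 := mul_nonneg hw (sq_nonneg z)
  have hfirst : 0 ≤ ε * (ap m μ ν (α + D) * D ^ 2) :=
    mul_nonneg hε.le (mul_nonneg hG.le (sq_nonneg D))
  rcases le_or_gt z (ε * ap m μ ν (α + D) * D) with hle | hgt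
  · have h1 : z * D ≤ ε * (ap m μ ν (α + D) * D ^ 2) := by
      calc z * D ≤ ε * ap m μ ν (α + D) * D * D := mul_le_mul_of_nonneg_right hle hD
        _ = ε * (ap m μ ν (α + D) * D ^ 2) := by ring
    have h2 : 0 ≤ C * (z ^ ((m + 2) / (m + 1)) + w * z ^ 2) :=
      mul_nonneg hC0 (add_nonneg hzp hz2)
    linarith
  rcases hD.eq_or_lt with hD0 | hD0
  · rw [← hD0, mul_zero]
    rw [← hD0] at hfirst
    exact add_nonneg hfirst (mul_nonneg hC0 (add_nonneg hzp hz2))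
  have hz0 : 0 < z := lt_of_le_of_lt (by positivity) hgt
  -- it suffices to bound by one of the two terms
  have hsuf1 : ∀ c, c ≤ C → z * D ≤ c * z ^ ((m + 2) / (m + 1)) →
      z * D ≤ ε * (ap m μ ν (α + D) * D ^ 2) + C * (z ^ ((m + 2) / (m + 1)) + w * z ^ 2) := by
    intro c hc h
    have h1 : c * z ^ ((m + 2) / (m + 1)) ≤ C * z ^ ((m + 2) / (m + 1)) :=
      mul_le_mul_of_nonneg_right hc hzp
    have h2 : 0 ≤ C * (w * z ^ 2) := mul_nonneg hC0 hz2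
    rw [mul_add]
    linarith
  have hsuf2 : ∀ c, c ≤ C → z * D ≤ c * (w * z ^ 2) →
      z * D ≤ ε * (ap m μ ν (α + D) * D ^ 2) + C * (z ^ ((m + 2) / (m + 1)) + w * z ^ 2) := by
    intro c hc h
    have h1 : c * (w * z ^ 2) ≤ C * (w * z ^ 2) := mul_le_mul_of_nonneg_right hc hz2
    have h2 : 0 ≤ C * z ^ ((m + 2) / (m + 1)) := mul_nonneg hC0 hzp
    rw [mul_add]
    linarith
  rcases le_or_gt 0 m with hm0 | hm0
  · have hap : ap m μ ν (α + D) = ((μ + (α + D) ^ 2) ^ (-m / 2) + ν)⁻¹ := by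
      unfold ap
      rw [if_pos hm0]
    have hDm : 0 < D ^ (-m) := Real.rpow_pos_of_pos hD0 _
    have h1 : (μ + (α + D) ^ 2) ^ (-m / 2) ≤ D ^ (-m) := by
      have h2 : D ^ 2 ≤ μ + (α + D) ^ 2 := by nlinarith
      have h3 := Real.rpow_le_rpow_of_nonpos (pow_pos hD0 2) h2 (show -m / 2 ≤ 0 by linarith)
      have h4 : (D ^ 2) ^ (-m / 2) = D ^ (-m) := by
        rw [← Real.rpow_natCast, ← Real.rpow_mul hD0.le]
        congr 1
        push_cast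
        ring
      rwa [h4] at h3
    have hG1 : (D ^ (-m) + ν)⁻¹ ≤ ap m μ ν (α + D) := by
      rw [hap]
      exact inv_anti₀ (add_pos (Real.rpow_pos_of_pos hs0 _) hν) (by linarith)
    rcases le_or_gt ν (D ^ (-m)) with hcase | hcase
    · refine hsuf1 ((ε / 2)⁻¹ ^ (1 / (m + 1))) (by rw [hC]; linarith) ?_
      refine a9_key hm (by positivity) hD0 hz0 ?_
      have h5 : (2 * D ^ (-m))⁻¹ ≤ (D ^ (-m) + ν)⁻¹ :=
        inv_anti₀ (add_pos hDm hν) (by linarith)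
      have h6 : (2 * D ^ (-m))⁻¹ = D ^ m / 2 := by
        rw [Real.rpow_neg hD0.le, mul_inv, inv_inv]
        ring
      rw [h6] at h5
      have h7 : D ^ (m + 1) = D ^ m * D := by rw [Real.rpow_add hD0, Real.rpow_one]
      calc ε / 2 * D ^ (m + 1) = ε * (D ^ m / 2) * D := by rw [h7]; ring
        _ ≤ ε * ap m μ ν (α + D) * D :=
          mul_le_mul_of_nonneg_right (mul_le_mul_of_nonneg_left (h5.trans hG1) hε.le) hD
        _ ≤ z := hgt.le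
    · refine hsuf2 (2 / ε) (by rw [hC]; linarith) ?_
      have h5 : (2 * ν)⁻¹ ≤ (D ^ (-m) + ν)⁻¹ :=
        inv_anti₀ (add_pos hDm hν) (by linarith)
      have h8 : ε * (2 * ν)⁻¹ * D ≤ z :=
        (mul_le_mul_of_nonneg_right (mul_le_mul_of_nonneg_left (h5.trans hG1) hε.le) hD).trans
          hgt.le
      have h9 : D ≤ 2 / ε * (ν * z) := by
        have h10 : D = 2 / ε * (ν * (ε * (2 * ν)⁻¹ * D)) := by
          field_simp
        rw [h10]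
        exact mul_le_mul_of_nonneg_left (mul_le_mul_of_nonneg_left h8 hν.le) hc2
      have hwν : ν ≤ w := by
        rw [hwdef, if_neg (not_lt.2 hm0), add_zero]
      calc z * D ≤ z * (2 / ε * (ν * z)) := mul_le_mul_of_nonneg_left h9 hz
        _ = 2 / ε * (ν * z ^ 2) := by ring
        _ ≤ 2 / ε * (w * z ^ 2) :=
          mul_le_mul_of_nonneg_left (mul_le_mul_of_nonneg_right hwν (sq_nonneg z)) hc2
  · have hap : ap m μ ν (α + D) = (μ + (α + D) ^ 2) ^ (m / 2) + ν := by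
      unfold ap
      rw [if_neg (not_le.2 hm0)]
    have hβ : 0 < Real.sqrt μ + α := add_pos_of_pos_of_nonneg (Real.sqrt_pos.2 hμ) hα
    set β := Real.sqrt μ + α with hβdef
    have h1 : (β + D) ^ m ≤ (μ + (α + D) ^ 2) ^ (m / 2) := by
      have h2 : μ + (α + D) ^ 2 ≤ (β + D) ^ 2 := by
        have h3 := Real.sq_sqrt hμ.le
        have h4 := Real.sqrt_nonneg μ
        rw [hβdef]
        nlinarith [mul_nonneg h4 (add_nonneg hα hD)]
      have h3 := Real.rpow_le_rpow_of_nonpos hs0 h2 (show m / 2 ≤ 0 by linarith)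
      have h4 : ((β + D) ^ 2) ^ (m / 2) = (β + D) ^ m := by
        rw [← Real.rpow_natCast, ← Real.rpow_mul (by positivity)]
        congr 1
        push_cast
        ring
      rwa [h4] at h3
    have hG1 : (β + D) ^ m ≤ ap m μ ν (α + D) := by
      rw [hap]
      linarith
    have hgen : ∀ y, 0 < y → β + D ≤ 2 * y → ε * 2 ^ m * (y ^ m * D) ≤ z := by
      intro y hy hyle
      have h5 : (2 * y) ^ m ≤ (β + D) ^ m :=
        Real.rpow_le_rpow_of_nonpos (by positivity) hyle hm0.le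
      rw [Real.mul_rpow two_pos.le hy.le] at h5
      calc ε * 2 ^ m * (y ^ m * D) = ε * (2 ^ m * y ^ m) * D := by ring
        _ ≤ ε * ap m μ ν (α + D) * D :=
          mul_le_mul_of_nonneg_right (mul_le_mul_of_nonneg_left (h5.trans hG1) hε.le) hD
        _ ≤ z := hgt.le
    rcases le_or_gt D β with hcase | hcase
    · refine hsuf2 ((ε * 2 ^ m)⁻¹) (by rw [hC]; linarith) ?_
      have h8 := hgen β hβ (by linarith)
      have hβm : 0 < β ^ m := Real.rpow_pos_of_pos hβ _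
      have h9 : D ≤ (ε * 2 ^ m)⁻¹ * (β ^ (-m) * z) := by
        have h10 : D = (ε * 2 ^ m)⁻¹ * (β ^ (-m) * (ε * 2 ^ m * (β ^ m * D))) := by
          rw [Real.rpow_neg hβ.le]
          field_simp
        rw [h10]
        exact mul_le_mul_of_nonneg_left (mul_le_mul_of_nonneg_left h8
          (Real.rpow_nonneg hβ.le _)) hc3
      have hwβ : β ^ (-m) ≤ w := by
        rw [hwdef, if_pos hm0]
        linarith
      calc z * D ≤ z * ((ε * 2 ^ m)⁻¹ * (β ^ (-m) * z)) := mul_le_mul_of_nonneg_left h9 hz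
        _ = (ε * 2 ^ m)⁻¹ * (β ^ (-m) * z ^ 2) := by ring
        _ ≤ (ε * 2 ^ m)⁻¹ * (w * z ^ 2) :=
          mul_le_mul_of_nonneg_left (mul_le_mul_of_nonneg_right hwβ (sq_nonneg z)) hc3
    · refine hsuf1 ((ε * 2 ^ m)⁻¹ ^ (1 / (m + 1))) (by rw [hC]; linarith) ?_
      refine a9_key hm (by positivity) hD0 hz0 ?_
      have h8 := hgen D hD0 (by linarith)
      have h7 : D ^ (m + 1) = D ^ m * D := by rw [Real.rpow_add hD0, Real.rpow_one]
      rw [h7]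
      exact h8

end PLH
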