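import Pool.Agent.Lib.PLH.Defs

/-!
MODULE B1 (pure Hilbert space, 120 lines). Strongly monotone Lipschitz operators on a closed
subspace.

`H` is complete; let `P` be the orthogonal projection onto `H`
(`Submodule.orthogonalProjection`/`Submodule.starProjection`, instance from `IsClosed` and
completeness). For `t > 0` let `Ψ ζ = ζ - t P(𝒜(x₀+ζ))` on `H`:
`‖Ψζ-Ψζ'‖² = ‖ζ-ζ'‖² - 2t⟨𝒜-𝒜', ζ-ζ'⟩ + t²‖P(𝒜-𝒜')‖² ≤ (1 - 2tl + t²Λ²)‖ζ-ζ'‖²`. With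
`t = l/(Λ²+1)` small (also `2tl ≤ 1`) it is a contraction (`ContractingWith.fixedPoint`); a fixed point
satisfies `P(𝒜(x₀+ζ)) = 0`.
-/

open MeasureTheory Set Filter Topology

namespace PLH

theorem zar {X : Type*} [NormedAddCommGroup X] [InnerProductSpace ℝ X] [CompleteSpace X]
    (H : Submodule ℝ X) (hH : IsClosed (H : Set X)) {𝒜 : X → X} {Λ : NNReal} {l : ℝ}
    (hl : 0 < l) (hLip : LipschitzWith Λ 𝒜)
    (hmono : ∀ x y, l * ‖x - y‖ ^ 2 ≤ inner ℝ (𝒜 x - 𝒜 y) (x - y)) (x₀ : X) :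
    ∃ ζ ∈ H, ∀ h ∈ H, inner ℝ (𝒜 (x₀ + ζ)) h = 0 := by
  have : CompleteSpace H := hH.completeSpace_coe
  set t : ℝ := l / ((Λ : ℝ) ^ 2 + l ^ 2 + 1) with ht
  have hden : 0 < (Λ : ℝ) ^ 2 + l ^ 2 + 1 := by positivity
  have ht0 : 0 < t := by positivity
  have htl : t * l < 1 := by
    rw [ht, div_mul_eq_mul_div, div_lt_one hden]
    nlinarith [sq_nonneg (Λ : ℝ)]
  have htL : t ^ 2 * (Λ : ℝ) ^ 2 ≤ t * l := by
    have h1 : t * (Λ : ℝ) ^ 2 ≤ l := by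
      rw [ht, div_mul_eq_mul_div, div_le_iff₀ hden]
      nlinarith [sq_nonneg (Λ : ℝ), mul_nonneg hl.le (sq_nonneg l)]
    nlinarith
  set Ψ : H → H := fun ζ => ζ - t • H.orthogonalProjectionOnto (𝒜 (x₀ + ζ)) with hΨ
  set K : NNReal := ⟨Real.sqrt (1 - t * l), Real.sqrt_nonneg _⟩ with hK
  have hK1 : K < 1 := by
    rw [← NNReal.coe_lt_coe]
    change Real.sqrt (1 - t * l) < 1
    rw [Real.sqrt_lt' one_pos]
    nlinarith
  have hKsq : (K : ℝ) ^ 2 = 1 - t * l := Real.sq_sqrt (by linarith)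
  have hcontr : ContractingWith K Ψ := by
    refine ⟨hK1, LipschitzWith.of_dist_le_mul fun ζ ζ' => ?_⟩
    rw [dist_eq_norm, dist_eq_norm]
    have h1 : Ψ ζ - Ψ ζ' = (ζ - ζ') - t • H.orthogonalProjectionOnto (𝒜 (x₀ + ζ) - 𝒜 (x₀ + ζ')) := by
      simp only [hΨ]
      rw [map_sub, smul_sub]
      abel
    set d := 𝒜 (x₀ + ζ) - 𝒜 (x₀ + ζ') with hd
    have h2 : inner ℝ (ζ - ζ') (H.orthogonalProjectionOnto d) = inner ℝ ((ζ - ζ' : H) : X) d := by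
      exact Submodule.inner_orthogonalProjectionOnto_eq_of_mem_left (ζ - ζ') d
    have h3 : l * ‖ζ - ζ'‖ ^ 2 ≤ inner ℝ ((ζ - ζ' : H) : X) d := by
      have := hmono (x₀ + ζ) (x₀ + ζ')
      rw [add_sub_add_left_eq_sub] at this
      rw [real_inner_comm]
      exact this
    have h4 : ‖d‖ ≤ Λ * ‖ζ - ζ'‖ := by
      have := hLip.norm_sub_le (x₀ + ζ) (x₀ + ζ')
      rw [add_sub_add_left_eq_sub] at this
      exact this
    have h5 : ‖H.orthogonalProjectionOnto d‖ ≤ ‖d‖ := H.norm_orthogonalProjectionOnto_apply_le d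
    have h6 : ‖Ψ ζ - Ψ ζ'‖ ^ 2 ≤ (K * ‖ζ - ζ'‖) ^ 2 := by
      rw [h1, norm_sub_sq_real, real_inner_smul_right, h2, norm_smul, mul_pow, mul_pow, hKsq, Real.norm_eq_abs, sq_abs]
      have h7 : ‖H.orthogonalProjectionOnto d‖ ^ 2 ≤ (Λ * ‖ζ - ζ'‖) ^ 2 := by
        have := h5.trans h4
        gcongr
      have h8 : t ^ 2 * ‖H.orthogonalProjectionOnto d‖ ^ 2 ≤ t * l * ‖ζ - ζ'‖ ^ 2 := by
        calc t ^ 2 * ‖H.orthogonalProjectionOnto d‖ ^ 2 ≤ t ^ 2 * (Λ * ‖ζ - ζ'‖) ^ 2 := by gcongr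
          _ = (t ^ 2 * (Λ : ℝ) ^ 2) * ‖ζ - ζ'‖ ^ 2 := by ring
          _ ≤ t * l * ‖ζ - ζ'‖ ^ 2 := by gcongr
      have h9 : t * (l * ‖ζ - ζ'‖ ^ 2) ≤ t * inner ℝ ((ζ - ζ' : H) : X) d := by gcongr
      nlinarith
    exact le_of_sq_le_sq h6 (by positivity)
  have hfix := hcontr.fixedPoint_isFixedPt
  set ζ := ContractingWith.fixedPoint Ψ hcontr with hζ
  have h1 : H.orthogonalProjectionOnto (𝒜 (x₀ + ζ)) = 0 := by
    have h2 : Ψ ζ = ζ := hfix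
    simp only [hΨ] at h2
    have h3 : t • H.orthogonalProjectionOnto (𝒜 (x₀ + ζ)) = 0 := sub_eq_self.mp h2
    exact (smul_eq_zero.mp h3).resolve_left ht0.ne'
  refine ⟨ζ, ζ.2, fun h hh => ?_⟩
  have h2 : inner ℝ (⟨h, hh⟩ : H) (H.orthogonalProjectionOnto (𝒜 (x₀ + ζ))) = inner ℝ ((⟨h, hh⟩ : H) : X) (𝒜 (x₀ + ζ)) :=
    Submodule.inner_orthogonalProjectionOnto_eq_of_mem_left (⟨h, hh⟩ : H) _
  rw [h1, inner_zero_right] at h2
  rw [real_inner_comm]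
  exact h2.symm

end PLH
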