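import Pool.Agent.Lib.PLH.T1

/-!
MODULE T7 (250 lines). Calculus of weak derivatives.

All from the definition. `uniq`: `IsOpen.ae_eq_zero_of_integral_contDiff_smul_eq_zero` for `g - g'`.
`lin`: `der F φ = der G φ + κ der H φ`, and `κ φ` is a test function with
`der H (κ φ) = κ der H φ` because `der H κ = 0`.
`smulf`: `η φ` is a test function, `der F (η φ) = η der F φ + φ der F η`.
`extend`: for a test function `φ` on the whole space, `η φ` is a test function on `U`; the products
`η f`, ... vanish outside `tsupport η ⊆ U`, so they are integrable.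
`gradT`: `∫ (der vT φ) u = ∫ (XYφ - YXφ) u = -∫ (Yφ) ξ₀ + ∫ (Xφ) ξ₁ = ∫ φ ξ₀' - ∫ φ ξ₁'`, where
`ξ₀' = Y ξ₀`, `ξ₁' = X ξ₁` (`comm_XY`, `Tst.der`).
`commT`: `∫ (der F φ) uT = -∫ (T F φ) u = -∫ (F T φ) u = ∫ (Tφ) f = -∫ φ fT`, `F = vX` or `vY`.
`clm`: continuous linear maps commute with integrals.
-/

open MeasureTheory Set Filter Topology
open scoped ContDiff ENNReal

namespace PLH

variable {E : Type*} [NormedAddCommGroup E] [NormedSpace ℝ E] [CompleteSpace E]
variable {E' : Type*} [NormedAddCommGroup E'] [NormedSpace ℝ E'] [CompleteSpace E']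
variable {F G H : VF} {U U' : Set Pt} {f g f' g' h : Pt → E}

private theorem int_smul {ψ : Pt → ℝ} (hψ : Continuous ψ) (hc : HasCompactSupport ψ)
    (hs : tsupport ψ ⊆ U) (hf : LocallyIntegrableOn f U) : Integrable (fun z => ψ z • f z) := by
  have h1 : IntegrableOn f (tsupport ψ) := hf.integrableOn_compact_subset hs hc.isCompact
  have h2 : IntegrableOn (fun z => ψ z • f z) (tsupport ψ) :=
    h1.continuousOn_smul hψ.continuousOn hc.isCompact
  refine (integrableOn_iff_integrable_of_support_subset ?_).1 h2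
  intro z hz
  refine subset_tsupport ψ ?_
  intro h0
  exact hz (by simp [h0])

private theorem tst_int {φ : Pt → ℝ} (h : Tst U φ) (hf : LocallyIntegrableOn f U) :
    Integrable (fun z => φ z • f z) :=
  int_smul h.smooth.continuous h.cpt h.supp hf

private theorem tst_int_der {φ : Pt → ℝ} (h : Tst U φ) (F : VF) (hf : LocallyIntegrableOn f U) :
    Integrable (fun z => der F φ z • f z) :=
  tst_int (h.der F) hf

private theorem tst_off {φ : Pt → ℝ} (h : Tst U φ) {z : Pt} (hz : z ∉ U) : φ z = 0 :=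
  image_eq_zero_of_notMem_tsupport fun h' => hz (h.supp h')

theorem L2l.locInt (hU : IsOpen U) (hf : L2l U f) : LocallyIntegrableOn f U := by
  rw [locallyIntegrableOn_iff hU.isLocallyClosed]
  intro K hKU hK
  have : IsFiniteMeasure (volume.restrict K) := ⟨by
    rw [Measure.restrict_apply_univ]
    exact hK.measure_lt_top⟩
  exact (hf K hK hKU).integrable (by norm_num)

theorem L2l.of_memLp (hf : MemLp f 2 (volume.restrict U)) : L2l U f := fun _ _ hK =>
  hf.mono_measure (Measure.restrict_mono hK le_rfl)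

theorem WD.mono (h : WD F U f g) (hU : U' ⊆ U) : WD F U' f g :=
  ⟨h.lf.mono_set hU, h.lg.mono_set hU, fun φ hφ =>
    h.eq φ ⟨hφ.smooth, hφ.cpt, hφ.supp.trans hU⟩⟩

private theorem lio_congr (hU : IsOpen U) (h : LocallyIntegrableOn f U)
    (hf : f =ᵐ[volume.restrict U] f') : LocallyIntegrableOn f' U := by
  rw [locallyIntegrableOn_iff hU.isLocallyClosed] at h ⊢
  intro K hKU hK
  exact (h K hKU hK).congr (ae_mono (Measure.restrict_mono hKU le_rfl) hf)

private theorem int_congr (hU : IsOpen U) {φ : Pt → ℝ} (hφ : Tst U φ)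
    (hf : f =ᵐ[volume.restrict U] f') : ∫ z, φ z • f z = ∫ z, φ z • f' z := by
  refine integral_congr_ae ?_
  have h1 := (ae_restrict_iff' hU.measurableSet).1 hf
  filter_upwards [h1] with z hz
  by_cases h2 : z ∈ U
  · rw [hz h2]
  · rw [tst_off hφ h2, zero_smul, zero_smul]

theorem WD.congr (hU : IsOpen U) (h : WD F U f g) (hf : f =ᵐ[volume.restrict U] f')
    (hg : g =ᵐ[volume.restrict U] g') : WD F U f' g' := by
  refine ⟨lio_congr hU h.lf hf, lio_congr hU h.lg hg, fun φ hφ => ?_⟩
  rw [← int_congr hU (hφ.der F) hf, ← int_congr hU hφ hg]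
  exact h.eq φ hφ

theorem WD.uniq (hU : IsOpen U) (h : WD F U f g) (h' : WD F U f g') :
    g =ᵐ[volume.restrict U] g' := by
  have h1 : ∀ᵐ z, z ∈ U → (g - g') z = 0 := by
    refine hU.ae_eq_zero_of_integral_contDiff_smul_eq_zero (h.lg.sub h'.lg) ?_
    intro φ h2 h3 h4
    have hφ : Tst U φ := ⟨h2, h3, h4⟩
    have e1 := h.eq φ hφ
    have e2 := h'.eq φ hφ
    have e3 : ∫ z, φ z • (g - g') z = (∫ z, φ z • g z) - ∫ z, φ z • g' z := by
      rw [← integral_sub (tst_int hφ h.lg) (tst_int hφ h'.lg)]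
      refine integral_congr_ae (ae_of_all _ fun z => ?_)
      simp [smul_sub]
    rw [e3]
    rw [e1] at e2
    rw [neg_inj.1 e2, sub_self]
  refine (ae_restrict_iff' hU.measurableSet).2 ?_
  filter_upwards [h1] with z hz hzU
  exact sub_eq_zero.1 (hz hzU)

theorem WD.add (h : WD F U f g) (h' : WD F U f' g') :
    WD F U (fun z => f z + f' z) (fun z => g z + g' z) := by
  refine ⟨h.lf.add h'.lf, h.lg.add h'.lg, fun φ hφ => ?_⟩
  simp only [smul_add]
  rw [integral_add (tst_int_der hφ F h.lf) (tst_int_der hφ F h'.lf),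
    integral_add (tst_int hφ h.lg) (tst_int hφ h'.lg), h.eq φ hφ, h'.eq φ hφ, neg_add]

theorem WD.sub (h : WD F U f g) (h' : WD F U f' g') :
    WD F U (fun z => f z - f' z) (fun z => g z - g' z) := by
  refine ⟨h.lf.sub h'.lf, h.lg.sub h'.lg, fun φ hφ => ?_⟩
  simp only [smul_sub]
  rw [integral_sub (tst_int_der hφ F h.lf) (tst_int_der hφ F h'.lf),
    integral_sub (tst_int hφ h.lg) (tst_int hφ h'.lg), h.eq φ hφ, h'.eq φ hφ]
  abel

theorem WD.csmul (c : ℝ) (h : WD F U f g) : WD F U (fun z => c • f z) (fun z => c • g z) := by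
  refine ⟨?_, ?_, fun φ hφ => ?_⟩
  · exact (ContinuousLinearMap.locallyIntegrableOn_comp
      (c • ContinuousLinearMap.id ℝ E) h.lf)
  · exact (ContinuousLinearMap.locallyIntegrableOn_comp
      (c • ContinuousLinearMap.id ℝ E) h.lg)
  · have e1 : (fun z => der F φ z • c • f z) = fun z => c • (der F φ z • f z) := by
      funext z
      rw [smul_comm]
    have e2 : (fun z => φ z • c • g z) = fun z => c • (φ z • g z) := by
      funext z
      rw [smul_comm]
    rw [e1, e2, integral_smul, integral_smul, h.eq φ hφ, smul_neg]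

private theorem int_partial {φ κ : Pt → ℝ} (hφ : ContDiff ℝ ∞ φ) (hc : HasCompactSupport φ)
    (hκ : ContDiff ℝ ∞ κ) (v : Pt) (hv : ∀ z, fderiv ℝ κ z v = 0) :
    ∫ z, κ z * fderiv ℝ φ z v = 0 := by
  have c1 : Continuous fun z => fderiv ℝ φ z v :=
    (hφ.continuous_fderiv (by simp)).clm_apply continuous_const
  have s1 : HasCompactSupport fun z => fderiv ℝ φ z v := by
    refine (hc.fderiv ℝ).comp_left (g := fun L : Pt →L[ℝ] ℝ => L v) ?_
    simp
  haveI i2 : (volume : Measure (ℝ × ℝ)).IsAddHaarMeasure :=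
    inferInstanceAs (((volume : Measure ℝ).prod (volume : Measure ℝ)).IsAddHaarMeasure)
  haveI i3 : (volume : Measure Pt).IsAddHaarMeasure :=
    inferInstanceAs (((volume : Measure ℝ).prod (volume : Measure (ℝ × ℝ))).IsAddHaarMeasure)
  have h := integral_mul_fderiv_eq_neg_fderiv_mul_of_integrable (μ := (volume : Measure Pt))
    (f := κ) (g := φ) (v := v) ?_ ?_ ?_ ?_ ?_
  · rw [h]
    simp [hv]
  · simp [hv]
  · exact (hκ.continuous.mul c1).integrable_of_hasCompactSupport s1.mul_left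
  · exact (hκ.continuous.mul hφ.continuous).integrable_of_hasCompactSupport hc.mul_left
  · exact fun z _ => (hκ.differentiable (by simp)) z
  · exact fun z _ => (hφ.differentiable (by simp)) z

private theorem int_der_zero {φ : Pt → ℝ} (hφ : ContDiff ℝ ∞ φ) (hc : HasCompactSupport φ)
    (F : VF) : ∫ z, der F φ z = 0 := by
  have e : ∀ z, der F φ z = F.al * fderiv ℝ φ z ((1 : ℝ), (0 : ℝ), (0 : ℝ)) +
      F.be * fderiv ℝ φ z ((0 : ℝ), (1 : ℝ), (0 : ℝ)) +
      (F.ga + F.k1 * z.1 + F.k2 * z.2.1) * fderiv ℝ φ z ((0 : ℝ), (0 : ℝ), (1 : ℝ)) := by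
    intro z
    unfold der
    have e1 : F.v z = F.al • ((1 : ℝ), (0 : ℝ), (0 : ℝ)) + F.be • ((0 : ℝ), (1 : ℝ), (0 : ℝ)) +
        (F.ga + F.k1 * z.1 + F.k2 * z.2.1) • ((0 : ℝ), (0 : ℝ), (1 : ℝ)) := by
      simp [VF.v]
    rw [e1, map_add, map_add, map_smul, map_smul, map_smul]
    rfl
  have c1 : ∀ v : Pt, Continuous fun z => fderiv ℝ φ z v := fun v =>
    (hφ.continuous_fderiv (by simp)).clm_apply continuous_const
  have s1 : ∀ v : Pt, HasCompactSupport fun z => fderiv ℝ φ z v := fun v => by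
    refine (hc.fderiv ℝ).comp_left (g := fun L : Pt →L[ℝ] ℝ => L v) ?_
    simp
  have hκ : ContDiff ℝ ∞ fun z : Pt => F.ga + F.k1 * z.1 + F.k2 * z.2.1 := by fun_prop
  have i1 : Integrable fun z => F.al * fderiv ℝ φ z ((1 : ℝ), (0 : ℝ), (0 : ℝ)) :=
    (continuous_const.mul (c1 _)).integrable_of_hasCompactSupport (s1 _).mul_left
  have i2 : Integrable fun z => F.be * fderiv ℝ φ z ((0 : ℝ), (1 : ℝ), (0 : ℝ)) :=
    (continuous_const.mul (c1 _)).integrable_of_hasCompactSupport (s1 _).mul_left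
  have i3 : Integrable fun z : Pt => (F.ga + F.k1 * z.1 + F.k2 * z.2.1) *
      fderiv ℝ φ z ((0 : ℝ), (0 : ℝ), (1 : ℝ)) :=
    (hκ.continuous.mul (c1 _)).integrable_of_hasCompactSupport (s1 _).mul_left
  have i12 : Integrable fun z => F.al * fderiv ℝ φ z ((1 : ℝ), (0 : ℝ), (0 : ℝ)) +
      F.be * fderiv ℝ φ z ((0 : ℝ), (1 : ℝ), (0 : ℝ)) := i1.add i2
  simp only [e]
  rw [integral_add i12 i3, integral_add i1 i2,
    int_partial hφ hc contDiff_const _ (fun z => by simp),
    int_partial hφ hc contDiff_const _ (fun z => by simp), int_partial hφ hc hκ _ ?_]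
  · simp
  · intro z
    have hd : HasFDerivAt (fun z : Pt => F.ga + F.k1 * z.1 + F.k2 * z.2.1)
        (F.k1 • ContinuousLinearMap.fst ℝ ℝ (ℝ × ℝ) + F.k2 •
          ((ContinuousLinearMap.fst ℝ ℝ ℝ).comp (ContinuousLinearMap.snd ℝ ℝ (ℝ × ℝ)))) z := by
      have h1 : HasFDerivAt (fun z : Pt => F.k1 * z.1)
          (F.k1 • ContinuousLinearMap.fst ℝ ℝ (ℝ × ℝ)) z :=
        (ContinuousLinearMap.fst ℝ ℝ (ℝ × ℝ)).hasFDerivAt.const_mul F.k1
      have h2 : HasFDerivAt (fun z : Pt => F.k2 * z.2.1)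
          (F.k2 • ((ContinuousLinearMap.fst ℝ ℝ ℝ).comp
            (ContinuousLinearMap.snd ℝ ℝ (ℝ × ℝ)))) z :=
        (((ContinuousLinearMap.fst ℝ ℝ ℝ).comp
            (ContinuousLinearMap.snd ℝ ℝ (ℝ × ℝ)))).hasFDerivAt.const_mul F.k2
      exact (h1.const_add F.ga).add h2
    rw [hd.fderiv]
    simp

theorem WD.const (c : E) : WD F U (fun _ => c) (fun _ => 0) := by
  refine ⟨(locallyIntegrable_const c).locallyIntegrableOn U,
    (locallyIntegrable_const 0).locallyIntegrableOn U, fun φ hφ => ?_⟩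
  rw [integral_smul_const, int_der_zero hφ.smooth hφ.cpt, zero_smul]
  simp

theorem WD.clm (L : E →L[ℝ] E') (h : WD F U f g) :
    WD F U (fun z => L (f z)) (fun z => L (g z)) := by
  refine ⟨ContinuousLinearMap.locallyIntegrableOn_comp L h.lf,
    ContinuousLinearMap.locallyIntegrableOn_comp L h.lg, fun φ hφ => ?_⟩
  have e1 : (fun z => der F φ z • L (f z)) = fun z => L (der F φ z • f z) := by
    funext z
    rw [map_smul]
  have e2 : (fun z => φ z • L (g z)) = fun z => L (φ z • g z) := by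
    funext z
    rw [map_smul]
  rw [e1, e2, L.integral_comp_comm (tst_int_der hφ F h.lf), L.integral_comp_comm (tst_int hφ h.lg),
    h.eq φ hφ, map_neg]

theorem WD.lin (hU : IsOpen U) {κ : Pt → ℝ} (hκ : ContDiff ℝ ∞ κ) (hH : ∀ z, der H κ z = 0)
    (hF : ∀ z, F.v z = G.v z + κ z • H.v z) (h1 : WD G U f g) (h2 : WD H U f h) :
    WD F U f (fun z => g z + κ z • h z) := by
  have l2 : LocallyIntegrableOn (fun z => κ z • h z) U :=
    h2.lg.continuousOn_smul hU.isLocallyClosed hκ.continuous.continuousOn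
  refine ⟨h1.lf, h1.lg.add l2, fun φ hφ => ?_⟩
  have hκφ : Tst U (fun z => κ z * φ z) := hφ.mul_left hκ
  have e1 : ∀ z, der F φ z = der G φ z + der H (fun w => κ w * φ w) z := by
    intro z
    rw [der_mul H hκ hφ.smooth, hH, mul_zero, add_zero]
    unfold der
    rw [hF, map_add, map_smul]
    rfl
  have e2 : (fun z => der F φ z • f z) =
      fun z => der G φ z • f z + der H (fun w => κ w * φ w) z • f z := by
    funext z
    rw [e1, add_smul]
  have e3 : (fun z => φ z • (g z + κ z • h z)) = fun z => φ z • g z + (κ z * φ z) • h z := by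
    funext z
    rw [smul_add, smul_smul, mul_comm]
  rw [e2, e3, integral_add (tst_int_der hφ G h1.lf) (tst_int_der hκφ H h1.lf),
    integral_add (tst_int hφ h1.lg) (tst_int hκφ h2.lg), h1.eq φ hφ, h2.eq _ hκφ, neg_add]

theorem WD.smulf (hU : IsOpen U) {η : Pt → ℝ} (hη : ContDiff ℝ ∞ η) (h : WD F U f g) :
    WD F U (fun z => η z • f z) (fun z => η z • g z + der F η z • f z) := by
  have cη : Continuous (der F η) := (F.smooth_der hη).continuous
  have l1 : LocallyIntegrableOn (fun z => η z • f z) U :=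
    h.lf.continuousOn_smul hU.isLocallyClosed hη.continuous.continuousOn
  have l2 : LocallyIntegrableOn (fun z => η z • g z) U :=
    h.lg.continuousOn_smul hU.isLocallyClosed hη.continuous.continuousOn
  have l3 : LocallyIntegrableOn (fun z => der F η z • f z) U :=
    h.lf.continuousOn_smul hU.isLocallyClosed cη.continuousOn
  refine ⟨l1, l2.add l3, fun φ hφ => ?_⟩
  have hηφ : Tst U (fun z => η z * φ z) := hφ.mul_left hη
  have e1 : ∀ z, der F φ z • η z • f z =
      der F (fun w => η w * φ w) z • f z - φ z • (der F η z • f z) := by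
    intro z
    rw [der_mul F hη hφ.smooth, add_smul, smul_smul, smul_smul, mul_comm (der F φ z)]
    abel
  have e3 : (fun z => φ z • (η z • g z + der F η z • f z)) =
      fun z => (η z * φ z) • g z + φ z • (der F η z • f z) := by
    funext z
    rw [smul_add, smul_smul, mul_comm]
  simp only [e1]
  rw [e3, integral_sub (tst_int_der hηφ F h.lf) (tst_int hφ l3),
    integral_add (tst_int hηφ h.lg) (tst_int hφ l3), h.eq _ hηφ]
  abel

theorem WD.extend (hU : IsOpen U) {η : Pt → ℝ} (hη : Tst U η) (h : WD F U f g) :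
    WD F univ (fun z => η z • f z) (fun z => η z • g z + der F η z • f z) := by
  have i1 : Integrable (fun z => η z • f z) := tst_int hη h.lf
  have i2 : Integrable (fun z => η z • g z) := tst_int hη h.lg
  have i3 : Integrable (fun z => der F η z • f z) := tst_int_der hη F h.lf
  have l1 : LocallyIntegrableOn (fun z => η z • f z) univ :=
    i1.locallyIntegrable.locallyIntegrableOn _
  have l2 : LocallyIntegrableOn (fun z => η z • g z + der F η z • f z) univ :=
    (i2.add i3).locallyIntegrable.locallyIntegrableOn _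
  have l3 : LocallyIntegrableOn (fun z => der F η z • f z) univ :=
    i3.locallyIntegrable.locallyIntegrableOn _
  refine ⟨l1, l2, fun φ hφ => ?_⟩
  have hηφ : Tst U (fun z => η z * φ z) := by
    have e : (fun z => η z * φ z) = fun z => φ z * η z := by
      funext z
      ring
    rw [e]
    exact hη.mul_left hφ.smooth
  have e1 : ∀ z, der F φ z • η z • f z =
      der F (fun w => η w * φ w) z • f z - φ z • (der F η z • f z) := by
    intro z
    rw [der_mul F hη.smooth hφ.smooth, add_smul, smul_smul, smul_smul, mul_comm (der F φ z)]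
    abel
  have e3 : (fun z => φ z • (η z • g z + der F η z • f z)) =
      fun z => (η z * φ z) • g z + φ z • (der F η z • f z) := by
    funext z
    rw [smul_add, smul_smul, mul_comm]
  simp only [e1]
  rw [e3, integral_sub (tst_int_der hηφ F h.lf) (tst_int hφ l3),
    integral_add (tst_int hηφ h.lg) (tst_int hφ l3), h.eq _ hηφ]
  abel

theorem WD.gradT {u ξ₀ ξ₁ ξ₀' ξ₁' : Pt → E} (hX : WD vX U u ξ₀) (hY : WD vY U u ξ₁)
    (h0 : WD vY U ξ₀ ξ₀') (h1 : WD vX U ξ₁ ξ₁') : WD vT U u (fun z => ξ₁' z - ξ₀' z) := by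
  refine ⟨hX.lf, h1.lg.sub h0.lg, fun φ hφ => ?_⟩
  have e1 : (fun z => der vT φ z • u z) =
      fun z => der vX (der vY φ) z • u z - der vY (der vX φ) z • u z := by
    funext z
    rw [← comm_XY hφ.smooth z, sub_smul]
  have tX := hφ.der vX
  have tY := hφ.der vY
  rw [e1, integral_sub (tst_int_der tY vX hX.lf) (tst_int_der tX vY hX.lf), hX.eq _ tY,
    hY.eq _ tX, h0.eq φ hφ, h1.eq φ hφ]
  simp only [smul_sub]
  rw [integral_sub (tst_int hφ h1.lg) (tst_int hφ h0.lg)]
  abel

theorem WD.commT (hF : F = vX ∨ F = vY) {u uT fT : Pt → E} (h : WD F U u f) (hT : WD vT U u uT)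
    (hfT : WD vT U f fT) : WD F U uT fT := by
  refine ⟨hT.lg, hfT.lg, fun φ hφ => ?_⟩
  have hc : der vT (der F φ) = der F (der vT φ) := by
    funext z
    rcases hF with rfl | rfl
    · exact (comm_XT hφ.smooth z).symm
    · exact (comm_YT hφ.smooth z).symm
  have e1 := hT.eq _ (hφ.der F)
  have e2 := h.eq _ (hφ.der vT)
  have e3 := hfT.eq φ hφ
  rw [hc, e2, neg_inj] at e1
  rw [← e1]
  exact e3

end PLH
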