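import Pool.Agent.Lib.PLH.B1
import Pool.Agent.Lib.PLH.A8
import Pool.Agent.Lib.PLH.T7

/-!
MODULE B2 (300 lines). Solutions of the approximating problem.

`X = Lp (V2 W) 2 (volume.restrict B)`, `H` = closure of the submodule of the classes of
`∇φ = (der vX φ, der vY φ)`, `φ : Pt → W` smooth with compact support in `B`. `𝒜` = composition with
`A a` (`LipschitzWith.compLp`, `A 0 = 0`; strong monotonicity from `nice_lip` and `L2.inner_def`).
`zar` with `x₀` = class of `ξd` gives `ζ`. (i) `Sol0 B (A(ξd+ζ))`: take `h = ∇(φ e)`, `e ∈ W`: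
`∫ (Xφ)⟨A₀,e⟩ + (Yφ)⟨A₁,e⟩ = 0` for all `e`. (ii) `∫⟨A(ξd+ζ),ζ⟩ = 0`: `ζ ∈ H`. (iii) if `Sol0 B σ`,
`σ ∈ L²(B)`, then `∫⟨σ,∇φ⟩ = 0` for `W`-valued test functions (orthonormal basis of `W`) and by closure
`∫⟨σ,ζ⟩ = 0`. (iv) potential: Poincare: for `φ` smooth with compact support in `B ⊆ {‖z‖ ≤ R}`:
`φ z = φ z - φ(vX.fl (2R) z) = -∫₀^{2R} (Xφ)(vX.fl s z) ds` (the end point has `x > R`... use `3R`), so
`‖φ‖_{L²} ≤ 3R ‖Xφ‖_{L²}`; so if `∇φ_n → ζ` in `L²(B)` then `φ_n` is Cauchy in `L²(B)`, limit `w`;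
the weak derivatives pass to the limit: `∫ (Xψ) φ_n = -∫ ψ Xφ_n` (classical integration by parts:
`φ_n` smooth, the field is divergence free; `integral_mul_fderiv_eq_neg_fderiv_mul_of_integrable`
or invariance of the integral under the flow).
-/

open MeasureTheory Set Filter Topology
open scoped ContDiff ENNReal

set_option linter.unusedSectionVars false

namespace PLH

section gen
variable {E : Type*} [NormedAddCommGroup E] [NormedSpace ℝ E]

private lemma b2_haar : (volume : Measure Pt).IsAddHaarMeasure := by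
  have : ((volume : Measure ℝ).prod (volume : Measure ℝ)).IsAddHaarMeasure := inferInstance
  exact Measure.prod.instIsAddHaarMeasure (volume : Measure ℝ)
    ((volume : Measure ℝ).prod (volume : Measure ℝ))

private lemma b2_fderiv_cpt {ψ : Pt → E} (hψ : ContDiff ℝ ∞ ψ) (hc : HasCompactSupport ψ) (v : Pt) :
    HasCompactSupport (fun z => fderiv ℝ ψ z v) ∧ Continuous (fun z => fderiv ℝ ψ z v) :=
  ⟨hc.fderiv_apply ℝ v, (hψ.continuous_fderiv (by simp)).clm_apply continuous_const⟩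

/-- direction with a coefficient which is constant along it -/
private lemma b2_dir {ψ : Pt → E} (hψ : ContDiff ℝ ∞ ψ) (hc : HasCompactSupport ψ) (v : Pt)
    {κ : Pt → ℝ} (hκ : ContDiff ℝ ∞ κ) (h0 : ∀ z, fderiv ℝ κ z v = 0) :
    ∫ z, κ z • fderiv ℝ ψ z v = 0 := by
  obtain ⟨h1, h2⟩ := b2_fderiv_cpt hψ hc v
  have hκc := hκ.continuous
  have := b2_haar
  have h3 := integral_smul_fderiv_eq_neg_fderiv_smul_of_integrable (μ := (volume : Measure Pt))
    (f := κ) (g := ψ) (v := v) (by simp [h0])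
    ((hκc.smul h2).integrable_of_hasCompactSupport h1.smul_left)
    ((hκc.smul hψ.continuous).integrable_of_hasCompactSupport hc.smul_left)
    (fun x _ => (hκ.differentiable (by simp)).differentiableAt)
    (fun x _ => (hψ.differentiable (by simp)).differentiableAt)
  rw [h3]
  simp [h0]

private lemma b2_int_der (F : VF) {ψ : Pt → E} (hψ : ContDiff ℝ ∞ ψ) (hc : HasCompactSupport ψ) :
    ∫ z, der F ψ z = 0 := by
  have hκ : ContDiff ℝ ∞ (fun z : Pt => F.ga + F.k1 * z.1 + F.k2 * z.2.1) := by fun_prop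
  have e : ∀ z, der F ψ z = (fun _ : Pt => F.al) z • fderiv ℝ ψ z (1, 0, 0)
      + (fun _ : Pt => F.be) z • fderiv ℝ ψ z (0, 1, 0)
      + (fun z : Pt => F.ga + F.k1 * z.1 + F.k2 * z.2.1) z • fderiv ℝ ψ z (0, 0, 1) := by
    intro z
    have hv : F.v z = F.al • ((1, 0, 0) : Pt) + F.be • ((0, 1, 0) : Pt)
        + (F.ga + F.k1 * z.1 + F.k2 * z.2.1) • ((0, 0, 1) : Pt) := by
      simp [VF.v]
    rw [der, hv, map_add, map_add, map_smul, map_smul, map_smul]
  have i : ∀ (v : Pt) (κ : Pt → ℝ), Continuous κ → Integrable (fun z => κ z • fderiv ℝ ψ z v) := by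
    intro v κ hκ
    obtain ⟨h1, h2⟩ := b2_fderiv_cpt hψ hc v
    exact (hκ.smul h2).integrable_of_hasCompactSupport h1.smul_left
  have hz : ∀ z : Pt, fderiv ℝ (fun z : Pt => F.ga + F.k1 * z.1 + F.k2 * z.2.1) z (0, 0, 1) = 0 := by
    intro z
    have h1 : HasFDerivAt (fun z : Pt => F.ga + F.k1 * z.1 + F.k2 * z.2.1)
        (F.k1 • ContinuousLinearMap.fst ℝ ℝ (ℝ × ℝ)
          + F.k2 • (ContinuousLinearMap.fst ℝ ℝ ℝ).comp (ContinuousLinearMap.snd ℝ ℝ (ℝ × ℝ))) z := by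
      have h2 : HasFDerivAt (fun z : Pt => z.1) (ContinuousLinearMap.fst ℝ ℝ (ℝ × ℝ)) z :=
        hasFDerivAt_fst
      have h3 : HasFDerivAt (fun z : Pt => z.2.1)
          ((ContinuousLinearMap.fst ℝ ℝ ℝ).comp (ContinuousLinearMap.snd ℝ ℝ (ℝ × ℝ))) z :=
        ((ContinuousLinearMap.fst ℝ ℝ ℝ).comp (ContinuousLinearMap.snd ℝ ℝ (ℝ × ℝ))).hasFDerivAt
      have h4 := ((h2.const_mul F.k1).const_add F.ga).add (h3.const_mul F.k2)
      exact h4
    rw [h1.fderiv]
    simp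
  have h1 := b2_dir hψ hc (1, 0, 0) (κ := fun _ => F.al) contDiff_const (by simp)
  have h2 := b2_dir hψ hc (0, 1, 0) (κ := fun _ => F.be) contDiff_const (by simp)
  have h3 := b2_dir hψ hc (0, 0, 1) hκ hz
  have i1 := i (1, 0, 0) (fun _ => F.al) continuous_const
  have i2 := i (0, 1, 0) (fun _ => F.be) continuous_const
  have i3 := i (0, 0, 1) _ hκ.continuous
  have e4 := integral_add (i1.add i2) i3
  have e5 := integral_add i1 i2
  calc ∫ z, der F ψ z = _ := integral_congr_ae (Eventually.of_forall e)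
    _ = _ := e4
    _ = 0 := by
      rw [h3, add_zero]
      exact e5.trans (by rw [h1, h2, add_zero])

private lemma b2_der_smul (F : VF) {ψ : Pt → ℝ} {f : Pt → E} (hψ : ContDiff ℝ ∞ ψ)
    (hf : ContDiff ℝ ∞ f) (z : Pt) :
    der F (fun w => ψ w • f w) z = ψ z • der F f z + der F ψ z • f z := by
  have h1 := (hψ.differentiable (by simp)).differentiableAt (x := z)
  have h2 := (hf.differentiable (by simp)).differentiableAt (x := z)
  rw [der, fderiv_fun_smul h1 h2]
  rfl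

private lemma b2_ibp (F : VF) {U : Set Pt} {ψ : Pt → ℝ} {f : Pt → E} (hψ : Tst U ψ)
    (hf : ContDiff ℝ ∞ f) : ∫ z, der F ψ z • f z = - ∫ z, ψ z • der F f z := by
  have h1 := b2_int_der F (hψ.smooth.smul hf) hψ.cpt.smul_right
  have h2 : ∀ z, der F (fun w => ψ w • f w) z = ψ z • der F f z + der F ψ z • f z :=
    b2_der_smul F hψ.smooth hf
  have hd : Continuous (der F f) := (F.smooth_der hf).continuous
  have hdψ := hψ.der F
  have h3 : ∫ z, der F (fun w => ψ w • f w) z = 0 := h1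
  simp_rw [h2] at h3
  rw [integral_add] at h3
  · exact eq_neg_of_add_eq_zero_right h3
  · exact (hψ.smooth.continuous.smul hd).integrable_of_hasCompactSupport hψ.cpt.smul_right
  · exact (hdψ.smooth.continuous.smul hf.continuous).integrable_of_hasCompactSupport
      hdψ.cpt.smul_right

end gen

section W
variable {W : Type*} [NormedAddCommGroup W] [InnerProductSpace ℝ W] [FiniteDimensional ℝ W]

/-- smooth with compact support in `B` -/
private structure B2D (B : Set Pt) (φ : Pt → W) : Prop where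
  sm : ContDiff ℝ ∞ φ
  cp : HasCompactSupport φ
  su : tsupport φ ⊆ B

/-- horizontal gradient -/
private noncomputable def b2g (φ : Pt → W) (z : Pt) : V2 W :=
  WithLp.toLp 2 ![der vX φ z, der vY φ z]

private lemma b2g_0 (φ : Pt → W) (z : Pt) : b2g φ z 0 = der vX φ z := rfl

private lemma b2g_1 (φ : Pt → W) (z : Pt) : b2g φ z 1 = der vY φ z := rfl

private lemma b2_der_zero (F : VF) {E : Type*} [NormedAddCommGroup E] [NormedSpace ℝ E] {φ : Pt → E}
    {z : Pt} (hz : z ∉ tsupport φ) : der F φ z = 0 := by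
  rw [der, fderiv_of_notMem_tsupport ℝ hz]
  rfl

private lemma b2_v2_ext {x y : V2 W} (h0 : x 0 = y 0) (h1 : x 1 = y 1) : x = y := by
  ext i
  fin_cases i
  · exact h0
  · exact h1

private lemma b2g_zero {φ : Pt → W} {z : Pt} (hz : z ∉ tsupport φ) : b2g φ z = 0 := by
  apply b2_v2_ext
  · rw [b2g_0, b2_der_zero vX hz]; rfl
  · rw [b2g_1, b2_der_zero vY hz]; rfl

private lemma b2g_cont {φ : Pt → W} (h : ContDiff ℝ ∞ φ) : Continuous (b2g φ) := by
  have h0 := (vX.smooth_der h).continuous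
  have h1 := (vY.smooth_der h).continuous
  refine (PiLp.continuous_toLp 2 (fun _ : Fin 2 => W)).comp (continuous_pi fun i => ?_)
  fin_cases i
  · exact h0
  · exact h1

private lemma b2g_cpt {φ : Pt → W} (h : HasCompactSupport φ) : HasCompactSupport (b2g φ) :=
  HasCompactSupport.intro h fun _ hz => b2g_zero hz

private lemma b2_der_add (F : VF) {φ ψ : Pt → W} (hφ : ContDiff ℝ ∞ φ) (hψ : ContDiff ℝ ∞ ψ)
    (z : Pt) : der F (φ + ψ) z = der F φ z + der F ψ z := by
  rw [der, fderiv_add ((hφ.differentiable (by simp)).differentiableAt)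
    ((hψ.differentiable (by simp)).differentiableAt)]
  rfl

private lemma b2_der_csmul (F : VF) {φ : Pt → W} (hφ : ContDiff ℝ ∞ φ) (c : ℝ)
    (z : Pt) : der F (c • φ) z = c • der F φ z := by
  rw [der, fderiv_const_smul ((hφ.differentiable (by simp)).differentiableAt)]
  rfl

private lemma b2g_add {φ ψ : Pt → W} (hφ : ContDiff ℝ ∞ φ) (hψ : ContDiff ℝ ∞ ψ) (z : Pt) :
    b2g (φ + ψ) z = b2g φ z + b2g ψ z := by
  apply b2_v2_ext
  · rw [b2g_0, b2_der_add vX hφ hψ]; rfl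
  · rw [b2g_1, b2_der_add vY hφ hψ]; rfl

private lemma b2g_csmul {φ : Pt → W} (hφ : ContDiff ℝ ∞ φ) (c : ℝ) (z : Pt) :
    b2g (c • φ) z = c • b2g φ z := by
  apply b2_v2_ext
  · rw [b2g_0, b2_der_csmul vX hφ]; rfl
  · rw [b2g_1, b2_der_csmul vY hφ]; rfl

private lemma B2D.add {B : Set Pt} {φ ψ : Pt → W} (hφ : B2D B φ) (hψ : B2D B ψ) :
    B2D B (φ + ψ) :=
  ⟨hφ.sm.add hψ.sm, hφ.cp.add hψ.cp, (tsupport_add φ ψ).trans (union_subset hφ.su hψ.su)⟩

private lemma B2D.csmul {B : Set Pt} {φ : Pt → W} (c : ℝ) (hφ : B2D B φ) : B2D B (c • φ) :=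
  ⟨hφ.sm.const_smul c, hφ.cp.smul_left (f := fun _ => c),
    (tsupport_smul_subset_right (fun _ : Pt => c) φ).trans hφ.su⟩

private lemma B2D.zero {B : Set Pt} : B2D B (0 : Pt → W) := by
  refine ⟨contDiff_const, HasCompactSupport.zero, ?_⟩
  have : tsupport (0 : Pt → W) = ∅ := tsupport_eq_empty_iff.mpr rfl
  rw [this]
  exact empty_subset _

/-- the classes of the gradients -/
private noncomputable def b2H (W : Type*) [NormedAddCommGroup W] [InnerProductSpace ℝ W]
    [FiniteDimensional ℝ W] (B : Set Pt) : Submodule ℝ (Lp (V2 W) 2 (volume.restrict B)) where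
  carrier := {x | ∃ φ : Pt → W, B2D B φ ∧ x =ᵐ[volume.restrict B] b2g φ}
  zero_mem' := by
    refine ⟨0, B2D.zero, ?_⟩
    filter_upwards [Lp.coeFn_zero (V2 W) 2 (volume.restrict B)] with z hz
    rw [hz]
    have h1 : b2g (0 : Pt → W) z = 0 := by
      apply b2g_zero
      have : tsupport (0 : Pt → W) = ∅ := tsupport_eq_empty_iff.mpr rfl
      rw [this]
      exact notMem_empty z
    rw [h1]; rfl
  add_mem' := by
    rintro x y ⟨φ, hφ, hx⟩ ⟨ψ, hψ, hy⟩
    refine ⟨φ + ψ, hφ.add hψ, ?_⟩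
    filter_upwards [Lp.coeFn_add x y, hx, hy] with z h1 h2 h3
    rw [h1, b2g_add hφ.sm hψ.sm, Pi.add_apply, h2, h3]
  smul_mem' := by
    rintro c x ⟨φ, hφ, hx⟩
    refine ⟨c • φ, hφ.csmul c, ?_⟩
    filter_upwards [Lp.coeFn_smul c x, hx] with z h1 h2
    rw [h1, b2g_csmul hφ.sm, Pi.smul_apply, h2]

private lemma b2_norm_sq {E : Type*} [NormedAddCommGroup E] [InnerProductSpace ℝ E]
    {μ : Measure Pt} (f : Lp E 2 μ) : ‖f‖ ^ 2 = ∫ z, ‖f z‖ ^ 2 ∂μ := by
  rw [← real_inner_self_eq_norm_sq, L2.inner_def]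
  simp_rw [real_inner_self_eq_norm_sq]

private lemma b2_v2_norm (x : V2 W) : ‖x‖ ^ 2 = ‖x 0‖ ^ 2 + ‖x 1‖ ^ 2 := by
  rw [PiLp.norm_sq_eq_of_L2, Fin.sum_univ_two]

private lemma b2_v2_inner (x y : V2 W) : inner ℝ x y = inner ℝ (x 0) (y 0) + inner ℝ (x 1) (y 1) := by
  rw [PiLp.inner_apply, Fin.sum_univ_two]

/-- Poincare -/
private lemma b2_poin {B : Set Pt} {R : ℝ} (hR : B ⊆ Metric.closedBall 0 R) {φ : Pt → W}
    (hφ : B2D B φ) :
    ∫ z in B, ‖φ z‖ ^ 2 ≤ 4 * R ^ 2 * ∫ z in B, ‖der vX φ z‖ ^ 2 := by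
  have hout : ∀ z, z ∉ B → φ z = 0 ∧ der vX φ z = 0 := fun z hz => by
    have h1 : z ∉ tsupport φ := fun h => hz (hφ.su h)
    exact ⟨image_eq_zero_of_notMem_tsupport h1, b2_der_zero vX h1⟩
  rw [setIntegral_eq_integral_of_forall_compl_eq_zero (fun z hz => by rw [(hout z hz).1]; simp),
    setIntegral_eq_integral_of_forall_compl_eq_zero (fun z hz => by rw [(hout z hz).2]; simp)]
  have hsm : ContDiff ℝ ∞ (fun z : Pt => z.1 * ‖φ z‖ ^ 2) := contDiff_fst.mul (hφ.sm.norm_sq ℝ)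
  have hcp2 : HasCompactSupport (fun z : Pt => ‖φ z‖ ^ 2) :=
    HasCompactSupport.intro hφ.cp fun z hz => by
      rw [image_eq_zero_of_notMem_tsupport hz]; simp
  have h0 := b2_int_der vX hsm (hcp2.mul_left)
  have hXc : Continuous (der vX φ) := (vX.smooth_der hφ.sm).continuous
  have hXcp : HasCompactSupport (fun z : Pt => ‖der vX φ z‖ ^ 2) :=
    HasCompactSupport.intro hφ.cp fun z hz => by rw [b2_der_zero vX hz]; simp
  have hder : ∀ z, der vX (fun z : Pt => z.1 * ‖φ z‖ ^ 2) z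
      = ‖φ z‖ ^ 2 + z.1 * (2 * inner ℝ (φ z) (der vX φ z)) := by
    intro z
    have h1 : HasFDerivAt φ (fderiv ℝ φ z) z :=
      ((hφ.sm.differentiable (by simp)).differentiableAt).hasFDerivAt
    have h2 : HasFDerivAt (fun z : Pt => z.1) (ContinuousLinearMap.fst ℝ ℝ (ℝ × ℝ)) z :=
      hasFDerivAt_fst
    have h3 : HasFDerivAt (fun z : Pt => z.1 * ‖φ z‖ ^ 2) _ z := h2.mul h1.norm_sq
    rw [der, h3.fderiv]
    simp [der, vX, VF.v]
    ring
  have i1 : Integrable (fun z : Pt => ‖φ z‖ ^ 2) :=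
    ((hφ.sm.continuous.norm).pow 2).integrable_of_hasCompactSupport hcp2
  have i2 : Integrable (fun z : Pt => ‖der vX φ z‖ ^ 2) :=
    ((hXc.norm).pow 2).integrable_of_hasCompactSupport hXcp
  have i3 : Integrable (fun z => der vX (fun z : Pt => z.1 * ‖φ z‖ ^ 2) z) :=
    (vX.smooth_der hsm).continuous.integrable_of_hasCompactSupport
      (HasCompactSupport.intro (hcp2.mul_left) fun z hz => b2_der_zero vX hz)
  have hpt : ∀ z, ‖φ z‖ ^ 2 / 2 - 2 * R ^ 2 * ‖der vX φ z‖ ^ 2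
      ≤ der vX (fun z : Pt => z.1 * ‖φ z‖ ^ 2) z := by
    intro z
    rw [hder z]
    by_cases hz : z ∈ B
    · have h1 : |z.1| ≤ R := by
        have h2 := mem_closedBall_zero_iff.mp (hR hz)
        exact (norm_fst_le z).trans h2
      have h2 : |z.1 * (2 * inner ℝ (φ z) (der vX φ z))| ≤ R * (2 * (‖φ z‖ * ‖der vX φ z‖)) := by
        rw [abs_mul, abs_mul, abs_two]
        have h3 := abs_real_inner_le_norm (φ z) (der vX φ z)
        have h4 : 0 ≤ R := (abs_nonneg _).trans h1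
        gcongr
      have h3 := neg_abs_le (z.1 * (2 * inner ℝ (φ z) (der vX φ z)))
      nlinarith [sq_nonneg (‖φ z‖ / 2 - R * ‖der vX φ z‖), sq_nonneg (‖φ z‖ - 2 * R * ‖der vX φ z‖)]
    · rw [(hout z hz).1, (hout z hz).2]
      simp
  have h5 : ∫ z, (‖φ z‖ ^ 2 / 2 - 2 * R ^ 2 * ‖der vX φ z‖ ^ 2) ≤ 0 := by
    rw [← h0]
    exact integral_mono ((i1.div_const 2).sub (i2.const_mul _)) i3 hpt
  rw [integral_sub (i1.div_const 2) (i2.const_mul _), integral_div, integral_const_mul] at h5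
  linarith

private lemma b2_poin_Lp {B : Set Pt} {R : ℝ} (hR0 : 0 ≤ R) (hR : B ⊆ Metric.closedBall 0 R)
    {φ : Pt → W} (hφ : B2D B φ) (u : Lp W 2 (volume.restrict B))
    (x : Lp (V2 W) 2 (volume.restrict B)) (hu : u =ᵐ[volume.restrict B] φ)
    (hx : x =ᵐ[volume.restrict B] b2g φ) : ‖u‖ ≤ 2 * R * ‖x‖ := by
  have h1 : ‖u‖ ^ 2 = ∫ z in B, ‖φ z‖ ^ 2 := by
    rw [b2_norm_sq]
    refine integral_congr_ae ?_
    filter_upwards [hu] with z hz
    rw [hz]
  have h2 : ‖x‖ ^ 2 = ∫ z in B, ‖b2g φ z‖ ^ 2 := by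
    rw [b2_norm_sq]
    refine integral_congr_ae ?_
    filter_upwards [hx] with z hz
    rw [hz]
  have hXc : Continuous (der vX φ) := (vX.smooth_der hφ.sm).continuous
  have i1 : Integrable (fun z : Pt => ‖der vX φ z‖ ^ 2) :=
    ((hXc.norm).pow 2).integrable_of_hasCompactSupport
      (HasCompactSupport.intro hφ.cp fun z hz => by simp [b2_der_zero vX hz])
  have i2 : Integrable (fun z : Pt => ‖b2g φ z‖ ^ 2) :=
    (((b2g_cont hφ.sm).norm).pow 2).integrable_of_hasCompactSupport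
      (HasCompactSupport.intro hφ.cp fun z hz => by simp [b2g_zero hz])
  have h3 : ∫ z in B, ‖der vX φ z‖ ^ 2 ≤ ∫ z in B, ‖b2g φ z‖ ^ 2 := by
    refine integral_mono i1.restrict i2.restrict fun z => ?_
    simp only
    rw [b2_v2_norm (b2g φ z), b2g_0]
    nlinarith [sq_nonneg ‖b2g φ z 1‖]
  have h4 : ‖u‖ ^ 2 ≤ (2 * R * ‖x‖) ^ 2 := by
    rw [h1]
    refine (b2_poin hR hφ).trans ?_
    rw [mul_pow, h2]
    nlinarith [mul_nonneg (by positivity : (0 : ℝ) ≤ 4 * R ^ 2)
      (by linarith : (0 : ℝ) ≤ (∫ z in B, ‖b2g φ z‖ ^ 2) - ∫ z in B, ‖der vX φ z‖ ^ 2)]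
  exact (pow_le_pow_iff_left₀ (norm_nonneg _) (by positivity) (by norm_num)).mp h4

private lemma b2_int {B : Set Pt} (hf : volume B ≠ ⊤) {ψ : Pt → ℝ}
    (hψ : Continuous ψ) (hc : HasCompactSupport ψ) {f : Pt → W}
    (h : MemLp f 2 (volume.restrict B)) : Integrable (fun z => ψ z • f z) (volume.restrict B) := by
  have hfin : IsFiniteMeasure (volume.restrict B) := ⟨by
    rw [Measure.restrict_apply_univ]; exact lt_top_iff_ne_top.mpr hf⟩
  have h1 : Integrable f (volume.restrict B) := h.integrable (by norm_num)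
  have h2 : MemLp ψ ⊤ (volume.restrict B) := hψ.memLp_of_hasCompactSupport hc
  exact h1.smul_of_top_right h2

/-- pairing with a bounded function -/
private lemma b2_pair {B : Set Pt} (hf : volume B ≠ ⊤) {ψ : Pt → ℝ}
    (hψ : Continuous ψ) (hc : HasCompactSupport ψ) (e : W) (f : Lp W 2 (volume.restrict B)) :
    ∃ h : MemLp (fun z => ψ z • e) 2 (volume.restrict B),
      inner ℝ (h.toLp _) f = inner ℝ e (∫ z in B, ψ z • f z) ∧
      Integrable (fun z => ψ z • f z) (volume.restrict B) := by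
  have hfin : IsFiniteMeasure (volume.restrict B) := ⟨by
    rw [Measure.restrict_apply_univ]; exact lt_top_iff_ne_top.mpr hf⟩
  have hm : MemLp (fun z => ψ z • e) 2 (volume.restrict B) :=
    (hψ.smul continuous_const).memLp_of_hasCompactSupport hc.smul_right
  have hi : Integrable (fun z => ψ z • f z) (volume.restrict B) := by
    have h1 : Integrable f (volume.restrict B) := (Lp.memLp f).integrable (by norm_num)
    have h2 : MemLp ψ ⊤ (volume.restrict B) := hψ.memLp_of_hasCompactSupport hc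
    exact h1.smul_of_top_right h2
  refine ⟨hm, ?_, hi⟩
  rw [L2.inner_def, ← integral_inner hi]
  refine integral_congr_ae ?_
  filter_upwards [hm.coeFn_toLp] with z hz
  rw [hz, real_inner_smul_left, real_inner_smul_right]

private lemma b2_wd_lim {B : Set Pt} (hB : IsOpen B) (hf : volume B ≠ ⊤) (F : VF)
    {φ : ℕ → Pt → W} (hφ : ∀ n, B2D B (φ n)) (un gn : ℕ → Lp W 2 (volume.restrict B))
    (u g : Lp W 2 (volume.restrict B)) (hun : ∀ n, un n =ᵐ[volume.restrict B] φ n)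
    (hgn : ∀ n, gn n =ᵐ[volume.restrict B] der F (φ n)) (hu : Tendsto un atTop (𝓝 u))
    (hg : Tendsto gn atTop (𝓝 g)) : WD F B u g := by
  refine ⟨L2l.locInt hB (L2l.of_memLp (Lp.memLp u)), L2l.locInt hB (L2l.of_memLp (Lp.memLp g)),
    fun ψ hψ => ?_⟩
  have hdψ := hψ.der F
  have hout : ∀ z, z ∉ B → ψ z = 0 ∧ der F ψ z = 0 := fun z hz => by
    have h1 : z ∉ tsupport ψ := fun h => hz (hψ.supp h)
    exact ⟨image_eq_zero_of_notMem_tsupport h1, b2_der_zero F h1⟩
  have hc1 : ∀ f : Pt → W, ∫ z in B, der F ψ z • f z = ∫ z, der F ψ z • f z := fun f =>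
    setIntegral_eq_integral_of_forall_compl_eq_zero (fun z hz => by rw [(hout z hz).2, zero_smul])
  have hc2 : ∀ f : Pt → W, ∫ z in B, ψ z • f z = ∫ z, ψ z • f z := fun f =>
    setIntegral_eq_integral_of_forall_compl_eq_zero (fun z hz => by rw [(hout z hz).1, zero_smul])
  rw [← hc1, ← hc2]
  have key : ∀ e : W, inner ℝ e (∫ z in B, der F ψ z • u z)
      = -inner ℝ e (∫ z in B, ψ z • g z) := by
    intro e
    obtain ⟨m1, h1, -⟩ := b2_pair hf hdψ.smooth.continuous hdψ.cpt e u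
    obtain ⟨m2, h2, -⟩ := b2_pair hf hψ.smooth.continuous hψ.cpt e g
    rw [← h1, ← h2]
    have t1 : Tendsto (fun n => inner ℝ (m1.toLp _) (un n)) atTop (𝓝 (inner ℝ (m1.toLp _) u)) :=
      tendsto_const_nhds.inner hu
    have t2 : Tendsto (fun n => -inner ℝ (m2.toLp _) (gn n)) atTop
        (𝓝 (-inner ℝ (m2.toLp _) g)) := (tendsto_const_nhds.inner hg).neg
    refine tendsto_nhds_unique t1 (t2.congr fun n => ?_)
    obtain ⟨m3, h3, -⟩ := b2_pair hf hdψ.smooth.continuous hdψ.cpt e (un n)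
    obtain ⟨m4, h4, -⟩ := b2_pair hf hψ.smooth.continuous hψ.cpt e (gn n)
    have e3 : inner ℝ (m1.toLp _) (un n) = inner ℝ e (∫ z in B, der F ψ z • un n z) := h3
    have e4 : inner ℝ (m2.toLp _) (gn n) = inner ℝ e (∫ z in B, ψ z • gn n z) := h4
    rw [e3, e4]
    have e5 : ∫ z in B, der F ψ z • un n z = ∫ z in B, der F ψ z • φ n z :=
      integral_congr_ae (by filter_upwards [hun n] with z hz; rw [hz])
    have e6 : ∫ z in B, ψ z • gn n z = ∫ z in B, ψ z • der F (φ n) z :=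
      integral_congr_ae (by filter_upwards [hgn n] with z hz; rw [hz])
    rw [e5, e6, hc1, hc2, b2_ibp F hψ (hφ n).sm, inner_neg_right]
  have h2 : ∀ e : W, inner ℝ e ((∫ z in B, der F ψ z • u z) + ∫ z in B, ψ z • g z) = 0 := by
    intro e
    rw [inner_add_right, key e]; ring
  have h3 := h2 ((∫ z in B, der F ψ z • u z) + ∫ z in B, ψ z • g z)
  rw [inner_self_eq_zero] at h3
  exact eq_neg_of_add_eq_zero_left h3

private lemma b2_comp {μ : Measure Pt} {σ : Pt → V2 W} (h : MemLp σ 2 μ) (j : Fin 2) :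
    MemLp (fun z => σ z j) 2 μ :=
  (PiLp.proj (𝕜 := ℝ) 2 (fun _ : Fin 2 => W) j).comp_memLp' h

private lemma b2_sol_test {B : Set Pt} (hf : volume B ≠ ⊤) {σ : Pt → V2 W}
    (hσ : MemLp σ 2 (volume.restrict B)) (hs : Sol0 B σ) {φ : Pt → W} (hφ : B2D B φ) :
    ∫ z in B, inner ℝ (σ z) (b2g φ z) = 0 := by
  obtain ⟨b, -⟩ : ∃ b : OrthonormalBasis (Fin (Module.finrank ℝ W)) ℝ W, True :=
    ⟨stdOrthonormalBasis ℝ W, trivial⟩
  have hT : ∀ k, Tst B (fun z => inner ℝ (b k) (φ z)) := fun k => by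
    refine ⟨contDiff_const.inner ℝ hφ.sm, ?_, ?_⟩
    · exact HasCompactSupport.intro hφ.cp fun z hz => by
        rw [image_eq_zero_of_notMem_tsupport hz, inner_zero_right]
    · refine (closure_mono ?_).trans hφ.su
      intro z hz hz2
      exact hz (by simp only [hz2, inner_zero_right])
  have hder : ∀ (F : VF) k z, der F (fun z => inner ℝ (b k) (φ z)) z = inner ℝ (b k) (der F φ z) := by
    intro F k z
    have h1 : HasFDerivAt φ (fderiv ℝ φ z) z :=
      ((hφ.sm.differentiable (by simp)).differentiableAt).hasFDerivAt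
    have h2 : HasFDerivAt (fun z => inner ℝ (b k) (φ z))
        ((innerSL ℝ (b k)).comp (fderiv ℝ φ z)) z :=
      (innerSL ℝ (b k)).hasFDerivAt.comp z h1
    rw [der, h2.fderiv]
    rfl
  have hI : ∀ k, Integrable (fun z => der vX (fun z => inner ℝ (b k) (φ z)) z • σ z 0
      + der vY (fun z => inner ℝ (b k) (φ z)) z • σ z 1) (volume.restrict B) := fun k =>
    (b2_int hf ((hT k).der vX).smooth.continuous ((hT k).der vX).cpt (b2_comp hσ 0)).add
      (b2_int hf ((hT k).der vY).smooth.continuous ((hT k).der vY).cpt (b2_comp hσ 1))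
  have h0 : ∀ k, ∫ z in B, inner ℝ (b k) (der vX (fun z => inner ℝ (b k) (φ z)) z • σ z 0
      + der vY (fun z => inner ℝ (b k) (φ z)) z • σ z 1) = 0 := by
    intro k
    rw [integral_inner (hI k)]
    have h1 := hs _ (hT k)
    rw [← setIntegral_eq_integral_of_forall_compl_eq_zero (s := B) (fun z hz => by
      have h2 : z ∉ tsupport (fun z => inner ℝ (b k) (φ z)) := fun h => hz ((hT k).supp h)
      rw [b2_der_zero vX h2, b2_der_zero vY h2, zero_smul, zero_smul, add_zero])] at h1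
    rw [h1, inner_zero_right]
  have h1 : ∀ z, inner ℝ (σ z) (b2g φ z) = ∑ k, inner ℝ (b k)
      (der vX (fun z => inner ℝ (b k) (φ z)) z • σ z 0
        + der vY (fun z => inner ℝ (b k) (φ z)) z • σ z 1) := by
    intro z
    rw [b2_v2_inner, b2g_0, b2g_1]
    simp_rw [inner_add_right, real_inner_smul_right, hder, Finset.sum_add_distrib]
    rw [real_inner_comm, real_inner_comm (der vY φ z), ← b.sum_inner_mul_inner,
      ← b.sum_inner_mul_inner]
    congr 1
    · exact Finset.sum_congr rfl fun k _ => by rw [real_inner_comm (der vX φ z)]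
    · exact Finset.sum_congr rfl fun k _ => by rw [real_inner_comm (der vY φ z)]
  simp_rw [h1]
  rw [integral_finsetSum _ (fun k _ => (hI k).const_inner (b k))]
  exact Finset.sum_eq_zero fun k _ => h0 k

private lemma b2_test_sol {B : Set Pt} (hf : volume B ≠ ⊤) {σ : Pt → V2 W}
    (hσ : MemLp σ 2 (volume.restrict B))
    (h : ∀ φ : Pt → W, B2D B φ → ∫ z in B, inner ℝ (σ z) (b2g φ z) = 0) : Sol0 B σ := by
  intro ψ hψ
  have hi : Integrable (fun z => der vX ψ z • σ z 0 + der vY ψ z • σ z 1) (volume.restrict B) :=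
    (b2_int hf (hψ.der vX).smooth.continuous (hψ.der vX).cpt (b2_comp hσ 0)).add
      (b2_int hf (hψ.der vY).smooth.continuous (hψ.der vY).cpt (b2_comp hσ 1))
  have key : ∀ e : W, inner ℝ e (∫ z in B, (der vX ψ z • σ z 0 + der vY ψ z • σ z 1)) = 0 := by
    intro e
    rw [← integral_inner hi]
    have hφ : B2D B (fun z => ψ z • e) := by
      refine ⟨hψ.smooth.smul contDiff_const, hψ.cpt.smul_right, ?_⟩
      exact (tsupport_smul_subset_left ψ (fun _ => e)).trans hψ.supp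
    rw [← h _ hφ]
    refine integral_congr_ae (Eventually.of_forall fun z => ?_)
    have hd : ∀ F : VF, der F (fun z => ψ z • e) z = der F ψ z • e := by
      intro F
      rw [b2_der_smul F hψ.smooth contDiff_const]
      simp [der]
    simp only
    rw [b2_v2_inner, b2g_0, b2g_1, hd, hd, inner_add_right, real_inner_smul_right,
      real_inner_smul_right, real_inner_smul_right, real_inner_smul_right, real_inner_comm,
      real_inner_comm (σ z 1)]
  have h2 := key (∫ z in B, (der vX ψ z • σ z 0 + der vY ψ z • σ z 1))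
  rw [inner_self_eq_zero] at h2
  rw [← setIntegral_eq_integral_of_forall_compl_eq_zero (s := B) (fun z hz => by
      have h2 : z ∉ tsupport ψ := fun h => hz (hψ.supp h)
      rw [b2_der_zero vX h2, b2_der_zero vY h2, zero_smul, zero_smul, add_zero])]
  exact h2

private lemma b2_memg {B : Set Pt} {φ : Pt → W} (h : B2D B φ) :
    MemLp (b2g φ) 2 (volume.restrict B) :=
  (b2g_cont h.sm).memLp_of_hasCompactSupport (b2g_cpt h.cp)

private lemma b2_pot {B : Set Pt} (hB : IsOpen B) (hBb : Bornology.IsBounded B)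
    (ζ : Lp (V2 W) 2 (volume.restrict B)) (hζ : ζ ∈ closure ((b2H W B : Submodule ℝ _) : Set _)) :
    ∃ w : Lp W 2 (volume.restrict B), WD vX B w (fun z => ζ z 0) ∧ WD vY B w (fun z => ζ z 1) := by
  have hcW : CompleteSpace W := FiniteDimensional.complete ℝ W
  have hf : volume B ≠ ⊤ := hBb.measure_lt_top.ne
  obtain ⟨R0, hR0⟩ := hBb.subset_closedBall 0
  obtain ⟨R, hRp, hR⟩ : ∃ R : ℝ, 0 ≤ R ∧ B ⊆ Metric.closedBall 0 R :=
    ⟨max R0 0, le_max_right _ _, hR0.trans (Metric.closedBall_subset_closedBall (le_max_left _ _))⟩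
  obtain ⟨x, hx, hxt⟩ := mem_closure_iff_seq_limit.mp hζ
  choose φ hφ hxφ using hx
  have hmφ : ∀ n, MemLp (φ n) 2 (volume.restrict B) := fun n =>
    (hφ n).sm.continuous.memLp_of_hasCompactSupport (hφ n).cp
  have hd : ∀ n m, dist ((hmφ n).toLp (φ n)) ((hmφ m).toLp (φ m)) ≤ 2 * R * dist (x n) (x m) := by
    intro n m
    rw [dist_eq_norm, dist_eq_norm]
    refine b2_poin_Lp hRp hR ((hφ n).add ((hφ m).csmul (-1 : ℝ))) _ _ ?_ ?_
    · filter_upwards [Lp.coeFn_sub ((hmφ n).toLp (φ n)) ((hmφ m).toLp (φ m)),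
        (hmφ n).coeFn_toLp, (hmφ m).coeFn_toLp] with z h1 h2 h3
      rw [h1, Pi.sub_apply, h2, h3, Pi.add_apply, Pi.smul_apply, neg_one_smul, sub_eq_add_neg]
    · filter_upwards [Lp.coeFn_sub (x n) (x m), hxφ n, hxφ m] with z h1 h2 h3
      rw [h1, Pi.sub_apply, h2, h3, b2g_add (hφ n).sm ((hφ m).csmul (-1 : ℝ)).sm,
        b2g_csmul (hφ m).sm, neg_one_smul, sub_eq_add_neg]
  have hc : CauchySeq (fun n => (hmφ n).toLp (φ n)) := by
    rw [Metric.cauchySeq_iff']
    intro ε hε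
    have hxc := hxt.cauchySeq
    rw [Metric.cauchySeq_iff'] at hxc
    obtain ⟨N, hN⟩ := hxc (ε / (2 * R + 1)) (by positivity)
    refine ⟨N, fun n hn => (hd n N).trans_lt ?_⟩
    have h1 := hN n hn
    have h2 : 2 * R * dist (x n) (x N) ≤ 2 * R * (ε / (2 * R + 1)) := by gcongr
    have h3 : 2 * R * (ε / (2 * R + 1)) < ε := by
      rw [mul_div_assoc', div_lt_iff₀ (by positivity)]
      nlinarith
    exact h2.trans_lt h3
  obtain ⟨w, hw⟩ := cauchySeq_tendsto_of_complete hc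
  have main : ∀ (j : Fin 2) (F : VF), (∀ n z, b2g (φ n) z j = der F (φ n) z) →
      WD F B w (fun z => ζ z j) := by
    intro j F hj
    have h1 := b2_wd_lim hB hf F hφ (fun n => (hmφ n).toLp (φ n))
      (fun n => (PiLp.proj (𝕜 := ℝ) 2 (fun _ : Fin 2 => W) j).compLpL 2 (volume.restrict B) (x n))
      w ((PiLp.proj (𝕜 := ℝ) 2 (fun _ : Fin 2 => W) j).compLpL 2 (volume.restrict B) ζ)
      (fun n => (hmφ n).coeFn_toLp) (fun n => by
        filter_upwards [(PiLp.proj (𝕜 := ℝ) 2 (fun _ : Fin 2 => W) j).coeFn_compLpL (x n),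
          hxφ n] with z h1 h2
        rw [h1, h2]
        exact hj n z)
      hw ((((PiLp.proj (𝕜 := ℝ) 2 (fun _ : Fin 2 => W) j).compLpL 2
        (volume.restrict B)).continuous.tendsto ζ).comp hxt)
    exact h1.congr hB (ae_eq_refl _)
      ((PiLp.proj (𝕜 := ℝ) 2 (fun _ : Fin 2 => W) j).coeFn_compLpL ζ)
  exact ⟨w, main 0 vX (fun n z => rfl), main 1 vY (fun n z => rfl)⟩

theorem exists_approx {m : ℝ} {a : ℝ → ℝ} (hm : -1 < m) (ha : Nice m a) {B : Set Pt}
    (hB : IsOpen B) (hBb : Bornology.IsBounded B) {ξd : Pt → V2 W}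
    (hξ : MemLp ξd 2 (volume.restrict B)) :
    ∃ (w : Pt → W) (ζ : Pt → V2 W), MemLp w 2 (volume.restrict B) ∧
      MemLp ζ 2 (volume.restrict B) ∧ WD vX B w (fun z => ζ z 0) ∧ WD vY B w (fun z => ζ z 1) ∧
      Sol0 B (fun z => A a (ξd z + ζ z)) ∧
      ∫ z in B, inner ℝ (A a (ξd z + ζ z)) (ζ z) = 0 ∧
      ∀ σ : Pt → V2 W, MemLp σ 2 (volume.restrict B) → Sol0 B σ →
        ∫ z in B, inner ℝ (σ z) (ζ z) = 0 := by
  have hcW : CompleteSpace W := FiniteDimensional.complete ℝ W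
  have hf : volume B ≠ ⊤ := hBb.measure_lt_top.ne
  obtain ⟨L, l, hl, hLip, -, hmono⟩ := nice_lip (E := V2 W) hm ha
  obtain ⟨Ac, hAc⟩ : ∃ Ac : Lp (V2 W) 2 (volume.restrict B) → Lp (V2 W) 2 (volume.restrict B),
      Ac = hLip.compLp (A_zero a) := ⟨_, rfl⟩
  have hcoe : ∀ x, Ac x =ᵐ[volume.restrict B] fun z => A a (x z) := fun x => by
    rw [hAc]; exact hLip.coeFn_compLp (A_zero a) x
  have hLip2 : LipschitzWith L Ac := by rw [hAc]; exact hLip.lipschitzWith_compLp (A_zero a)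
  have hmono2 : ∀ x y, l * ‖x - y‖ ^ 2 ≤ inner ℝ (Ac x - Ac y) (x - y) := by
    intro x y
    rw [b2_norm_sq, L2.inner_def, ← integral_const_mul]
    refine integral_mono_ae (((memLp_two_iff_integrable_sq_norm
      (Lp.aestronglyMeasurable _)).mp (Lp.memLp _)).const_mul _) (L2.integrable_inner _ _) ?_
    filter_upwards [Lp.coeFn_sub x y, Lp.coeFn_sub (Ac x) (Ac y), hcoe x, hcoe y]
      with z h1 h2 h3 h4
    rw [h1, h2, Pi.sub_apply, Pi.sub_apply, h3, h4]
    exact hmono _ _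
  obtain ⟨ζ, hζH, hζ⟩ := zar (b2H W B).topologicalClosure
    (Submodule.isClosed_topologicalClosure _) hl hLip2 hmono2 (hξ.toLp ξd)
  have hζc : ζ ∈ closure ((b2H W B : Submodule ℝ _) : Set _) := hζH
  obtain ⟨w, hw0, hw1⟩ := b2_pot hB hBb ζ hζc
  have hsum : Ac (hξ.toLp ξd + ζ) =ᵐ[volume.restrict B] fun z => A a (ξd z + ζ z) := by
    filter_upwards [hcoe (hξ.toLp ξd + ζ), Lp.coeFn_add (hξ.toLp ξd) ζ, hξ.coeFn_toLp]
      with z h1 h2 h3
    rw [h1, h2, Pi.add_apply, h3]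
  have hmA : MemLp (fun z => A a (ξd z + ζ z)) 2 (volume.restrict B) :=
    (memLp_congr_ae hsum).mp (Lp.memLp _)
  refine ⟨w, ζ, Lp.memLp w, Lp.memLp ζ, hw0, hw1, ?_, ?_, ?_⟩
  · refine b2_test_sol hf hmA fun φ hφ => ?_
    have h1 : (b2_memg hφ).toLp (b2g φ) ∈ (b2H W B).topologicalClosure :=
      subset_closure ⟨φ, hφ, (b2_memg hφ).coeFn_toLp⟩
    have h2 := hζ _ h1
    rw [L2.inner_def] at h2
    rw [← h2]
    refine integral_congr_ae ?_
    filter_upwards [hsum, (b2_memg hφ).coeFn_toLp] with z h3 h4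
    rw [h3, h4]
  · have h2 := hζ ζ hζH
    rw [L2.inner_def] at h2
    rw [← h2]
    refine integral_congr_ae ?_
    filter_upwards [hsum] with z h3
    rw [h3]
  · intro σ hσ hs
    have hcl : IsClosed {x : Lp (V2 W) 2 (volume.restrict B) | inner ℝ (hσ.toLp σ) x = 0} :=
      isClosed_eq (continuous_const.inner continuous_id) continuous_const
    have hsub : ((b2H W B : Submodule ℝ _) : Set _) ⊆
        {x : Lp (V2 W) 2 (volume.restrict B) | inner ℝ (hσ.toLp σ) x = 0} := by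
      rintro x ⟨φ, hφ, hx⟩
      change inner ℝ (hσ.toLp σ) x = 0
      rw [L2.inner_def, ← b2_sol_test hf hσ hs hφ]
      refine integral_congr_ae ?_
      filter_upwards [hσ.coeFn_toLp, hx] with z h3 h4
      rw [h3, h4]
    have h5 : inner ℝ (hσ.toLp σ) ζ = 0 := closure_minimal hsub hcl hζc
    rw [L2.inner_def] at h5
    rw [← h5]
    refine integral_congr_ae ?_
    filter_upwards [hσ.coeFn_toLp] with z h3
    rw [h3]

end W

end PLH
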