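import Pool.Agent.Lib.PLH.A3
import Pool.Agent.Lib.PLH.A7

/-!
MODULE B4 (250 lines). Continuity of `A₀`, `V₀` (`a₀ s = s^m`) between Lebesgue spaces. `p = m+2`,
`p' = (m+2)/(m+1)`. Finite measure is not needed.

`V₀`: `‖V₀ξ-V₀ζ‖² ≤ C(‖ξ‖+‖ζ‖)^m‖ξ-ζ‖²` (`Alg.vhi`, `cl_pow`). If `m < 0`: `≤ C‖ξ-ζ‖^p` as
`‖ξ-ζ‖ ≤ ‖ξ‖+‖ζ‖`. If `m ≥ 0`: Holder with exponents `p/m`, `p/2` (`m = 0` trivial):
`∫ ≤ C (∫(‖ξ‖+‖ζ‖)^p)^{m/p} (∫‖ξ-ζ‖^p)^{2/p}`. `A₀`: `‖A₀ξ-A₀ζ‖ ≤ C(‖ξ‖+‖ζ‖)^m‖ξ-ζ‖`. If `m < 0`: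
`≤ C‖ξ-ζ‖^{m+1}`, and `(m+1)p' = p`. If `m ≥ 0`: Holder, `mp'/p + p'/p = 1`:
`∫‖ΔA‖^{p'} ≤ C (∫(‖ξ‖+‖ζ‖)^p)^{mp'/p}(∫‖ξ-ζ‖^p)^{p'/p}`.
So along a sequence (filter) with `f_i → f` in `L^p` (then `‖f_i‖_p` is eventually bounded) both
converge. `MemLp`: `‖V₀ξ‖² = ‖ξ‖^p`, `‖A₀ξ‖^{p'} = ‖ξ‖^p`.
-/

open MeasureTheory Set Filter Topology
open scoped ContDiff ENNReal

namespace PLH

section gen

variable {F : Type*} [NormedAddCommGroup F] {s C p : ℝ} {T : F → F} {μ : Measure Pt}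

private theorem b4_pow {G : Type*} [NormedAddCommGroup G] (hs : 0 < s) (hp : 0 < p) (g : Pt → G) :
    eLpNorm (fun z => ‖g z‖ ^ s) (ENNReal.ofReal (p / s)) μ =
      eLpNorm g (ENNReal.ofReal p) μ ^ s := by
  rw [eLpNorm_norm_rpow g hs, ← ENNReal.ofReal_mul (div_pos hp hs).le, div_mul_cancel₀ _ hs.ne']

private theorem b4_mem (hs : 0 < s) (hp : 0 < p)
    (hT : ∀ ξ ζ, ‖T ξ - T ζ‖ ≤ C * ((‖ξ‖ + ‖ζ‖) ^ (s - 1) * ‖ξ - ζ‖)) (hT0 : T 0 = 0)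
    {f : Pt → F} (hf : MemLp f (ENNReal.ofReal p) μ)
    (hm : AEStronglyMeasurable (fun z => T (f z)) μ) :
    MemLp (fun z => T (f z)) (ENNReal.ofReal (p / s)) μ := by
  have hg : MemLp (fun z => ‖f z‖ ^ s) (ENNReal.ofReal (p / s)) μ := by
    refine ⟨(hf.1.norm.aemeasurable.pow_const s).aestronglyMeasurable, ?_⟩
    rw [b4_pow hs hp]
    exact ENNReal.rpow_lt_top_of_nonneg hs.le hf.2.ne
  refine hg.of_le_mul (c := C) hm (Filter.Eventually.of_forall fun z => ?_)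
  have h := hT (f z) 0
  rw [hT0, sub_zero, sub_zero, norm_zero, add_zero] at h
  refine h.trans (le_of_eq ?_)
  rw [Real.norm_of_nonneg (by positivity)]
  congr 1
  rcases (norm_nonneg (f z)).eq_or_lt with h0 | h0
  · rw [← h0, mul_zero, Real.zero_rpow hs.ne']
  · rw [← Real.rpow_add_one h0.ne', sub_add_cancel]

private theorem b4_small {K ε : ℝ≥0∞} (hK : K ≠ ⊤) (hε : 0 < ε) {t : ℝ} (ht : 0 < t) :
    ∃ δ : ℝ≥0∞, 0 < δ ∧ δ ≤ 1 ∧ K * δ ^ t ≤ ε := by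
  obtain ⟨x, hx⟩ : ∃ x, x = min ε 1 / (K + 1) := ⟨_, rfl⟩
  have hK1 : K + 1 ≠ ⊤ := ENNReal.add_ne_top.2 ⟨hK, ENNReal.one_ne_top⟩
  have hK0 : K + 1 ≠ 0 := by simp
  have hm : min ε 1 ≠ ⊤ := ne_top_of_le_ne_top ENNReal.one_ne_top (min_le_right _ _)
  have hx0 : 0 < x := by
    rw [hx]
    exact ENNReal.div_pos (lt_min hε one_pos).ne' hK1
  have hxt : x ≠ ⊤ := by
    rw [hx]
    exact ENNReal.div_ne_top hm hK0
  refine ⟨min 1 (x ^ (1 / t)), lt_min one_pos (ENNReal.rpow_pos hx0 hxt), min_le_left _ _, ?_⟩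
  calc K * (min 1 (x ^ (1 / t))) ^ t ≤ K * (x ^ (1 / t)) ^ t := by
        gcongr
        exact min_le_right _ _
    _ = K * x := by rw [← ENNReal.rpow_mul, one_div_mul_cancel ht.ne', ENNReal.rpow_one]
    _ ≤ (K + 1) * x := by
        gcongr
        exact le_self_add
    _ = min ε 1 := by
        rw [hx]
        exact ENNReal.mul_div_cancel hK0 hK1
    _ ≤ ε := min_le_left _ _

private theorem b4_diff (hs : 0 < s) (hp : 1 ≤ p)
    (hT : ∀ ξ ζ, ‖T ξ - T ζ‖ ≤ C * ((‖ξ‖ + ‖ζ‖) ^ (s - 1) * ‖ξ - ζ‖))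
    (hC : 0 ≤ C) {f : Pt → F} (hf : MemLp f (ENNReal.ofReal p) μ) {ε : ℝ≥0∞} (hε : 0 < ε) :
    ∃ δ : ℝ≥0∞, 0 < δ ∧ ∀ f' : Pt → F, MemLp f' (ENNReal.ofReal p) μ →
      eLpNorm (fun z => f' z - f z) (ENNReal.ofReal p) μ ≤ δ →
      eLpNorm (fun z => T (f' z) - T (f z)) (ENNReal.ofReal (p / s)) μ ≤ ε := by
  have hp0 : 0 < p := by linarith
  rcases le_or_gt s 1 with hs1 | hs1
  · obtain ⟨δ, hδ, -, hδε⟩ := b4_small (K := ENNReal.ofReal C) ENNReal.ofReal_ne_top hε hs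
    refine ⟨δ, hδ, fun f' hf' hd => ?_⟩
    have h1 : eLpNorm (fun z => T (f' z) - T (f z)) (ENNReal.ofReal (p / s)) μ ≤
        ENNReal.ofReal C * eLpNorm (fun z => ‖f' z - f z‖ ^ s) (ENNReal.ofReal (p / s)) μ := by
      refine eLpNorm_le_mul_eLpNorm_of_ae_le_mul (Filter.Eventually.of_forall fun z => ?_) _
      refine (hT (f' z) (f z)).trans (mul_le_mul_of_nonneg_left ?_ hC)
      rw [Real.norm_of_nonneg (by positivity)]
      rcases (norm_nonneg (f' z - f z)).eq_or_lt with h0 | h0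
      · rw [← h0, mul_zero]
        exact Real.rpow_nonneg le_rfl _
      · have h2 : ‖f' z - f z‖ ^ s = ‖f' z - f z‖ ^ (s - 1) * ‖f' z - f z‖ := by
          rw [← Real.rpow_add_one h0.ne', sub_add_cancel]
        rw [h2]
        refine mul_le_mul_of_nonneg_right ?_ h0.le
        exact Real.rpow_le_rpow_of_nonpos h0 (norm_sub_le _ _) (by linarith)
    rw [b4_pow hs hp0] at h1
    refine h1.trans (le_trans ?_ hδε)
    gcongr
  · obtain ⟨N, hN⟩ : ∃ N, N = eLpNorm f (ENNReal.ofReal p) μ := ⟨_, rfl⟩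
    have hNt : N ≠ ⊤ := by rw [hN]; exact hf.2.ne
    have hs0 : 0 < s - 1 := by linarith
    obtain ⟨δ, hδ, hδ1, hδε⟩ := b4_small (K := ENNReal.ofReal C * (2 * N + 1) ^ (s - 1))
      (ENNReal.mul_ne_top ENNReal.ofReal_ne_top (ENNReal.rpow_ne_top_of_nonneg hs0.le
        (ENNReal.add_ne_top.2 ⟨ENNReal.mul_ne_top (by norm_num) hNt, ENNReal.one_ne_top⟩)))
      hε one_pos
    rw [ENNReal.rpow_one] at hδε
    refine ⟨δ, hδ, fun f' hf' hd => ?_⟩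
    have hp1 : (1 : ℝ≥0∞) ≤ ENNReal.ofReal p := ENNReal.one_le_ofReal.2 hp
    have hm1 : AEStronglyMeasurable (fun z => ‖f' z‖ + ‖f z‖) μ := hf'.1.norm.add hf.1.norm
    have hm2 : AEStronglyMeasurable (fun z => (‖f' z‖ + ‖f z‖) ^ (s - 1)) μ :=
      (hm1.aemeasurable.pow_const _).aestronglyMeasurable
    have hm3 : AEStronglyMeasurable (fun z => ‖f' z - f z‖) μ := (hf'.1.sub hf.1).norm
    have h1 : eLpNorm (fun z => T (f' z) - T (f z)) (ENNReal.ofReal (p / s)) μ ≤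
        ENNReal.ofReal C * eLpNorm ((fun z => (‖f' z‖ + ‖f z‖) ^ (s - 1)) •
          (fun z => ‖f' z - f z‖)) (ENNReal.ofReal (p / s)) μ := by
      refine eLpNorm_le_mul_eLpNorm_of_ae_le_mul (Filter.Eventually.of_forall fun z => ?_) _
      refine (hT (f' z) (f z)).trans (mul_le_mul_of_nonneg_left (le_of_eq ?_) hC)
      rw [Pi.smul_apply', smul_eq_mul, Real.norm_of_nonneg (by positivity)]
    have htr : ENNReal.HolderTriple (ENNReal.ofReal (p / (s - 1))) (ENNReal.ofReal p)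
        (ENNReal.ofReal (p / s)) := by
      refine ⟨?_⟩
      rw [← ENNReal.ofReal_inv_of_pos (div_pos hp0 hs0), ← ENNReal.ofReal_inv_of_pos hp0,
        ← ENNReal.ofReal_inv_of_pos (div_pos hp0 hs), ← ENNReal.ofReal_add (by positivity)
          (by positivity)]
      congr 1
      field_simp
      ring
    have h2 := eLpNorm_smul_le_mul_eLpNorm (μ := μ) (p := ENNReal.ofReal (p / (s - 1)))
      (q := ENNReal.ofReal p) (r := ENNReal.ofReal (p / s)) hm3 hm2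
    have h3 : eLpNorm (fun z => (‖f' z‖ + ‖f z‖) ^ (s - 1)) (ENNReal.ofReal (p / (s - 1))) μ =
        eLpNorm (fun z => ‖f' z‖ + ‖f z‖) (ENNReal.ofReal p) μ ^ (s - 1) := by
      rw [← b4_pow hs0 hp0]
      congr 1
      funext z
      rw [Real.norm_of_nonneg (by positivity)]
    have h4 : eLpNorm (fun z => ‖f' z - f z‖) (ENNReal.ofReal p) μ ≤ δ := by
      rw [eLpNorm_norm]
      exact hd
    have h5 : eLpNorm f' (ENNReal.ofReal p) μ ≤ δ + N := by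
      have e : f' = (fun z => f' z - f z) + f := by
        funext z
        simp
      rw [e]
      refine (eLpNorm_add_le (hf'.1.sub hf.1) hf.1 hp1).trans ?_
      rw [hN]
      exact add_le_add hd le_rfl
    have h6 : eLpNorm (fun z => ‖f' z‖ + ‖f z‖) (ENNReal.ofReal p) μ ≤ 2 * N + 1 := by
      refine (eLpNorm_add_le hf'.1.norm hf.1.norm hp1).trans ?_
      rw [eLpNorm_norm, eLpNorm_norm, ← hN]
      calc eLpNorm f' (ENNReal.ofReal p) μ + N ≤ (δ + N) + N := by gcongr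
        _ ≤ (1 + N) + N := by gcongr
        _ = 2 * N + 1 := by ring
    rw [h3] at h2
    calc eLpNorm (fun z => T (f' z) - T (f z)) (ENNReal.ofReal (p / s)) μ ≤ _ := h1
      _ ≤ ENNReal.ofReal C * ((2 * N + 1) ^ (s - 1) * δ) := by
          gcongr
          exact h2.trans (mul_le_mul' (ENNReal.rpow_le_rpow h6 hs0.le) h4)
      _ = ENNReal.ofReal C * (2 * N + 1) ^ (s - 1) * δ := by ring
      _ ≤ ε := hδε

end gen

variable {E : Type*} [NormedAddCommGroup E] [InnerProductSpace ℝ E] [CompleteSpace E]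

private theorem b4_V {m : ℝ} (hm : -1 < m) : ∃ C : ℝ, 0 ≤ C ∧ ∀ ξ ζ : E,
    ‖Vm (fun s => s ^ m) ξ - Vm (fun s => s ^ m) ζ‖ ≤
      C * ((‖ξ‖ + ‖ζ‖) ^ ((m + 2) / 2 - 1) * ‖ξ - ζ‖) := by
  obtain ⟨C, hC⟩ := exists_alg E hm
  have hC0 : 0 ≤ C := le_trans zero_le_one hC.one
  refine ⟨Real.sqrt C, Real.sqrt_nonneg _, fun ξ ζ => ?_⟩
  have h := hC.vhi _ (cl_pow m) ξ ζ
  have h1 : ‖Vm (fun s => s ^ m) ξ - Vm (fun s => s ^ m) ζ‖ ≤
      Real.sqrt (C * ((‖ξ‖ + ‖ζ‖) ^ m * ‖ξ - ζ‖ ^ 2)) := Real.le_sqrt_of_sq_le h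
  refine h1.trans (le_of_eq ?_)
  have hn : 0 ≤ ‖ξ‖ + ‖ζ‖ := by positivity
  rw [Real.sqrt_mul hC0, Real.sqrt_mul (Real.rpow_nonneg hn _), Real.sqrt_sq (norm_nonneg _),
    Real.sqrt_eq_rpow, Real.sqrt_eq_rpow, ← Real.rpow_mul hn]
  congr 3
  ring

private theorem b4_A {m : ℝ} (hm : -1 < m) : ∃ C : ℝ, 0 ≤ C ∧ ∀ ξ ζ : E,
    ‖A (fun s => s ^ m) ξ - A (fun s => s ^ m) ζ‖ ≤
      C * ((‖ξ‖ + ‖ζ‖) ^ (m + 1 - 1) * ‖ξ - ζ‖) := by
  obtain ⟨C, hC⟩ := exists_alg E hm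
  refine ⟨C, le_trans zero_le_one hC.one, fun ξ ζ => ?_⟩
  rw [add_sub_cancel_right]
  exact hC.lip _ (cl_pow m) ξ ζ

private theorem b4_two {m : ℝ} (hm : -1 < m) :
    ENNReal.ofReal ((m + 2) / ((m + 2) / 2)) = 2 := by
  have h : (m + 2) / ((m + 2) / 2) = 2 := by
    have : m + 2 ≠ 0 := by linarith
    field_simp
  rw [h]
  norm_num

omit [InnerProductSpace ℝ E] [CompleteSpace E] in
private theorem b4_meas {μ : Measure Pt} {f : Pt → E} [NormedSpace ℝ E]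
    (hf : AEStronglyMeasurable f μ) {b : ℝ → ℝ} (hb : Measurable b) :
    AEStronglyMeasurable (fun z => b ‖f z‖ • f z) μ :=
  (hb.comp_aemeasurable hf.norm.aemeasurable).aestronglyMeasurable.smul hf

theorem memLp_V0 {m : ℝ} (hm : -1 < m) {μ : Measure Pt} {f : Pt → E}
    (hf : MemLp f (ENNReal.ofReal (m + 2)) μ) : MemLp (fun z => Vm (fun s => s ^ m) (f z)) 2 μ := by
  obtain ⟨C, -, hT⟩ := b4_V (E := E) hm
  have h := b4_mem (s := (m + 2) / 2) (p := m + 2) (by linarith) (by linarith) hT (by simp [Vm]) hf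
    (b4_meas hf.1 (b := fun x => Real.sqrt (x ^ m)) (by fun_prop))
  rw [b4_two hm] at h
  exact h

theorem memLp_A0 {m : ℝ} (hm : -1 < m) {μ : Measure Pt} {f : Pt → E}
    (hf : MemLp f (ENNReal.ofReal (m + 2)) μ) :
    MemLp (fun z => A (fun s => s ^ m) (f z)) (ENNReal.ofReal ((m + 2) / (m + 1))) μ := by
  obtain ⟨C, -, hT⟩ := b4_A (E := E) hm
  exact b4_mem (s := m + 1) (p := m + 2) (by linarith) (by linarith) hT (by simp [A]) hf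
    (b4_meas hf.1 (b := fun x => x ^ m) (by fun_prop))

theorem tendsto_V0 {m : ℝ} (hm : -1 < m) {μ : Measure Pt} {f : Pt → E}
    (hf : MemLp f (ENNReal.ofReal (m + 2)) μ) {ε : ℝ≥0∞} (hε : 0 < ε) :
    ∃ δ : ℝ≥0∞, 0 < δ ∧ ∀ f' : Pt → E, MemLp f' (ENNReal.ofReal (m + 2)) μ →
      eLpNorm (fun z => f' z - f z) (ENNReal.ofReal (m + 2)) μ ≤ δ →
      eLpNorm (fun z => Vm (fun s => s ^ m) (f' z) - Vm (fun s => s ^ m) (f z)) 2 μ ≤ ε := by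
  obtain ⟨C, hC, hT⟩ := b4_V (E := E) hm
  have h := b4_diff (s := (m + 2) / 2) (p := m + 2) (by linarith) (by linarith) hT hC hf hε
  rw [b4_two hm] at h
  exact h

theorem tendsto_A0 {m : ℝ} (hm : -1 < m) {μ : Measure Pt} {f : Pt → E}
    (hf : MemLp f (ENNReal.ofReal (m + 2)) μ) {ε : ℝ≥0∞} (hε : 0 < ε) :
    ∃ δ : ℝ≥0∞, 0 < δ ∧ ∀ f' : Pt → E, MemLp f' (ENNReal.ofReal (m + 2)) μ →
      eLpNorm (fun z => f' z - f z) (ENNReal.ofReal (m + 2)) μ ≤ δ →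
      eLpNorm (fun z => A (fun s => s ^ m) (f' z) - A (fun s => s ^ m) (f z))
        (ENNReal.ofReal ((m + 2) / (m + 1))) μ ≤ ε := by
  obtain ⟨C, hC, hT⟩ := b4_A (E := E) hm
  exact b4_diff (s := m + 1) (p := m + 2) (by linarith) (by linarith) hT hC hf hε

end PLH
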