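import Pool.Agent.Lib.PLH.Defs

/-!
MODULE T4 (180 lines). Continuity in `L^q` of compositions with measure preserving maps that are
close to the identity.

Given `ε > 0`, choose a continuous compactly supported `k` with `‖f - k‖_q ≤ ε`
(`MemLp.exists_hasCompactSupport_eLpNorm_sub_le`). `‖f∘τ - k∘τ‖_q = ‖f - k‖_q`. And
`k∘τ - k` vanishes outside `K ∪ τ⁻¹K`, `K = tsupport k ⊆ {‖z‖ ≤ R}`, a set of measure `≤ 2|K|`; on
it `‖τ z - z‖ ≤ δ` eventually (one of `z`, `τ z` has norm at most `R`), so by uniform continuity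
`‖k(τ z) - k z‖ ≤ η` and `‖k∘τ - k‖_q ≤ η (2|K|)^{1/q}` (bound of the `eLpNorm` by the sup and the
measure of a set, `eLpNorm_le_of_ae_bound` on the restricted measure).
-/

open MeasureTheory Set Filter Topology
open scoped ContDiff ENNReal

namespace PLH

variable {E : Type*} [NormedAddCommGroup E] [NormedSpace ℝ E]

theorem tendsto_comp_sub {ι : Type*} {l : Filter ι} {τ : ι → Pt → Pt} {q : ℝ≥0∞} (hq : 1 ≤ q)
    (hq' : q ≠ ⊤) (hmp : ∀ i, MeasurePreserving (τ i) volume volume)
    (hτ : ∀ R : ℝ, ∀ ε : ℝ, 0 < ε → ∀ᶠ i in l, ∀ z : Pt, (‖z‖ ≤ R ∨ ‖τ i z‖ ≤ R) →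
      ‖τ i z - z‖ ≤ ε) {f : Pt → E} (hf : MemLp f q volume) :
    Tendsto (fun i => eLpNorm (fun z => f (τ i z) - f z) q volume) l (𝓝 0) := by
  rw [ENNReal.tendsto_nhds_zero]
  intro ε hε
  have hε3 : ε / 3 ≠ 0 := (ENNReal.div_pos hε.ne' (by norm_num)).ne'
  obtain ⟨k, hk1, hk2, hk3, hk4⟩ := hf.exists_hasCompactSupport_eLpNorm_sub_le hq' hε3
  set K := tsupport k with hK
  have hKc : IsCompact K := hk1
  obtain ⟨R, hR⟩ := hKc.isBounded.exists_norm_le
  have hM : (2 * volume K) ^ q.toReal⁻¹ ≠ ⊤ := by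
    refine ENNReal.rpow_ne_top_of_nonneg (by positivity) ?_
    exact ENNReal.mul_ne_top (by norm_num) hKc.measure_lt_top.ne
  obtain ⟨η, hη, hη2⟩ := ENNReal.exists_nnreal_pos_mul_lt hM hε3
  have huc := hk1.uniformContinuous_of_continuous hk3
  rw [Metric.uniformContinuous_iff] at huc
  obtain ⟨δ, hδ, hδ2⟩ := huc η (by exact_mod_cast hη)
  filter_upwards [hτ R (δ / 2) (by positivity)] with i hi
  set A : Set Pt := K ∪ (τ i) ⁻¹' K with hA
  have hAm : MeasurableSet A := hKc.measurableSet.union ((hmp i).measurable hKc.measurableSet)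
  have hAμ : volume A ≤ 2 * volume K := by
    refine (measure_union_le _ _).trans ?_
    rw [(hmp i).measure_preimage hKc.measurableSet.nullMeasurableSet, two_mul]
  have e1 : (fun z => k (τ i z) - k z) = A.indicator (fun z => k (τ i z) - k z) := by
    funext z
    by_cases hz : z ∈ A
    · rw [indicator_of_mem hz]
    · rw [indicator_of_notMem hz]
      have h1 : z ∉ K := fun h => hz (Or.inl h)
      have h2 : τ i z ∉ K := fun h => hz (Or.inr h)
      rw [image_eq_zero_of_notMem_tsupport h1, image_eq_zero_of_notMem_tsupport h2, sub_zero]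
  have e2 : eLpNorm (fun z => k (τ i z) - k z) q volume ≤ ε / 3 := by
    rw [e1, eLpNorm_indicator_eq_eLpNorm_restrict hAm]
    refine (eLpNorm_le_of_ae_bound (C := η) ?_).trans ?_
    · filter_upwards [ae_restrict_mem hAm] with z hz
      have h3 : ‖z‖ ≤ R ∨ ‖τ i z‖ ≤ R := hz.imp (fun h => hR _ h) (fun h => hR _ h)
      have h4 := hi z h3
      have h5 := hδ2 (a := τ i z) (b := z) (by rw [dist_eq_norm]; linarith)
      rw [dist_eq_norm] at h5
      exact h5.le
    · rw [Measure.restrict_apply_univ, ENNReal.ofReal_coe_nnreal, mul_comm]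
      refine le_trans ?_ hη2.le
      refine mul_le_mul_right ?_ _
      exact ENNReal.rpow_le_rpow hAμ (by positivity)
  have m1 : AEStronglyMeasurable (fun z => f (τ i z) - k (τ i z)) volume :=
    (hf.1.sub hk4.1).comp_measurePreserving (hmp i)
  have m2 : AEStronglyMeasurable (fun z => k (τ i z) - k z) volume :=
    (hk4.1.comp_measurePreserving (hmp i)).sub hk4.1
  have m3 : AEStronglyMeasurable (fun z => f z - k z) volume := hf.1.sub hk4.1
  have e3 : eLpNorm (fun z => f (τ i z) - k (τ i z)) q volume ≤ ε / 3 := by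
    have := eLpNorm_comp_measurePreserving (p := q) (hf.1.sub hk4.1) (hmp i)
    rw [← this] at hk2
    exact hk2
  have e4 : (fun z => f (τ i z) - f z) = ((fun z => f (τ i z) - k (τ i z)) +
      fun z => k (τ i z) - k z) - fun z => f z - k z := by
    funext z
    simp only [Pi.add_apply, Pi.sub_apply]
    abel
  rw [e4]
  calc _ ≤ eLpNorm ((fun z => f (τ i z) - k (τ i z)) + fun z => k (τ i z) - k z) q volume
        + eLpNorm (fun z => f z - k z) q volume := eLpNorm_sub_le (m1.add m2) m3 hq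
    _ ≤ (eLpNorm (fun z => f (τ i z) - k (τ i z)) q volume
        + eLpNorm (fun z => k (τ i z) - k z) q volume)
        + eLpNorm (fun z => f z - k z) q volume := by
        gcongr
        exact eLpNorm_add_le m1 m2 hq
    _ ≤ (ε / 3 + ε / 3) + ε / 3 := add_le_add (add_le_add e3 e2) hk2
    _ = ε := ENNReal.add_thirds ε

end PLH
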