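import Pool.Agent.Lib.PLH.T9
import Pool.Agent.Lib.PLH.T4

/-!
MODULE T10 (250 lines). Left averages: convergence and smoothness.

`lav_tendsto`: let `f₀ = B'.indicator f ∈ L^q`. For `z ∈ B` and `‖g‖ ≤ δ` small, `f (g z) = f₀ (g z)`.
By Jensen (probability measure `ρ g dg`, convex function `‖·‖^q`) or Minkowski,
`‖lav ρ f - f‖_{L^q(B)} ≤ sup_{‖g‖ ≤ δ} ‖f₀(g ·) - f₀‖_{L^q}`, which tends to `0` with `δ`:
`tendsto_comp_sub` with `τ_g = tau g 1`, filter `𝓝 0` (`g z - z = (g₁, g₂, g₃ + (g₁ y - g₂ x)/2)`).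
`lav_smooth`: `lav ρ f z = ∫ ρ (mul w (inv z)) • f w dw` (substitution); `(z,w) ↦ ρ(w z⁻¹)` is smooth
and for `z` in a ball vanishes for `w` outside a compact set: differentiation under the integral,
for instance `contDiffOn_convolution_right_with_param` (or `contDiff_..._with_param`) with
`g z v = ρ((-v) z⁻¹)` at the point `0`.
`lav_supp`: if `lav ρ f z ≠ 0` there is `g ∈ supp ρ` with `g z ∈ tsupport f`.
-/

open MeasureTheory Set Filter Topology
open scoped ContDiff ENNReal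

namespace PLH

variable {E : Type*} [NormedAddCommGroup E] [NormedSpace ℝ E] [CompleteSpace E]
variable {B B' : Set Pt} {f : Pt → E}

private theorem mul_tau (g z : Pt) : mul g z = tau g 1 z := by
  unfold tau dil
  simp

private theorem cont_mul : Continuous fun p : Pt × Pt => mul p.1 p.2 := by
  unfold mul
  fun_prop

private theorem mp_mul (g : Pt) : MeasurePreserving (fun z => mul g z) volume volume := by
  have e : (fun z => mul g z) = tau g 1 := by
    funext z
    exact mul_tau g z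
  rw [e]
  exact mp_tau g

private theorem mp_pair : MeasurePreserving (fun p : Pt × Pt => (p.1, mul p.1 p.2))
    ((volume : Measure Pt).prod volume) ((volume : Measure Pt).prod volume) := by
  refine MeasurePreserving.skew_product (f := id) (g := fun g z => mul g z)
    (MeasurePreserving.id _) ?_ ?_
  · exact cont_mul.measurable
  · exact Filter.Eventually.of_forall fun g => (mp_mul g).map_eq

private theorem ker_cpt {δ : ℝ} {ρ : Pt → ℝ} (hρ : Ker δ ρ) : HasCompactSupport ρ :=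
  (isCompact_closedBall (0 : Pt) δ).of_isClosed_subset (isClosed_tsupport ρ) hρ.supp

private theorem ker_int {δ : ℝ} {ρ : Pt → ℝ} (hρ : Ker δ ρ) : Integrable ρ :=
  hρ.smooth.continuous.integrable_of_hasCompactSupport (ker_cpt hρ)

private theorem ker_zero {δ : ℝ} {ρ : Pt → ℝ} (hρ : Ker δ ρ) {g : Pt} (hg : ¬ ‖g‖ ≤ δ) :
    ρ g = 0 := by
  refine image_eq_zero_of_notMem_tsupport fun h => hg ?_
  have := hρ.supp h
  rwa [mem_closedBall_zero_iff] at this

/-- the probability measure of a kernel -/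
private noncomputable def km (ρ : Pt → ℝ) : Measure Pt :=
  (volume : Measure Pt).withDensity fun g => ENNReal.ofReal (ρ g)

private theorem km_meas {δ : ℝ} {ρ : Pt → ℝ} (hρ : Ker δ ρ) :
    Measurable fun g => ENNReal.ofReal (ρ g) :=
  ENNReal.measurable_ofReal.comp hρ.smooth.continuous.measurable

private theorem km_prob {δ : ℝ} {ρ : Pt → ℝ} (hρ : Ker δ ρ) : IsProbabilityMeasure (km ρ) := by
  refine ⟨?_⟩
  rw [km, withDensity_apply _ MeasurableSet.univ, Measure.restrict_univ,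
    ← ofReal_integral_eq_lintegral_ofReal (ker_int hρ) (ae_of_all _ hρ.nonneg), hρ.int1,
    ENNReal.ofReal_one]

private theorem km_ac (ρ : Pt → ℝ) : km ρ ≪ volume := withDensity_absolutelyContinuous _ _

private theorem km_ball {δ : ℝ} {ρ : Pt → ℝ} (hρ : Ker δ ρ) : ∀ᵐ g ∂(km ρ), ‖g‖ ≤ δ := by
  rw [km, ae_withDensity_iff (km_meas hρ)]
  refine ae_of_all _ fun g hg => ?_
  by_contra h
  exact hg (by rw [ker_zero hρ h, ENNReal.ofReal_zero])

private theorem lav_km {δ : ℝ} {ρ : Pt → ℝ} (hρ : Ker δ ρ) (f : Pt → E) (z : Pt) :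
    lav ρ f z = ∫ g, f (mul g z) ∂(km ρ) := by
  rw [km, integral_withDensity_eq_integral_toReal_smul (km_meas hρ)
    (ae_of_all _ fun g => ENNReal.ofReal_lt_top)]
  unfold lav
  refine integral_congr_ae (ae_of_all _ fun g => ?_)
  show ρ g • f (mul g z) = (ENNReal.ofReal (ρ g)).toReal • f (mul g z)
  rw [ENNReal.toReal_ofReal (hρ.nonneg g)]

private theorem jensen0 {μ : Measure Pt} [IsProbabilityMeasure μ] {q : ℝ≥0∞} (hq : 1 ≤ q)
    (hq' : q ≠ ⊤) {F : Pt → Pt → E}
    (hF : AEStronglyMeasurable (fun p : Pt × Pt => F p.1 p.2) (μ.prod volume))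
    {ε : ℝ≥0∞} (h : ∀ᵐ g ∂μ, eLpNorm (F g) q volume ≤ ε) :
    ∫⁻ z, ∫⁻ g, ‖F g z‖ₑ ^ q.toReal ∂μ ≤ ε ^ q.toReal := by
  have hq0 : q ≠ 0 := (zero_lt_one.trans_le hq).ne'
  have hqr : 0 < q.toReal := ENNReal.toReal_pos hq0 hq'
  have hm : AEMeasurable (Function.uncurry fun z g => ‖F g z‖ₑ ^ q.toReal)
      ((volume : Measure Pt).prod μ) := by
    have := hF.prod_swap.enorm.pow_const q.toReal
    exact this
  rw [lintegral_lintegral_swap hm]
  calc ∫⁻ g, ∫⁻ z, ‖F g z‖ₑ ^ q.toReal ∂volume ∂μ ≤ ∫⁻ _, ε ^ q.toReal ∂μ := by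
        refine lintegral_mono_ae ?_
        filter_upwards [h] with g hg
        rw [eLpNorm_eq_lintegral_rpow_enorm_toReal hq0 hq'] at hg
        rw [one_div, ENNReal.rpow_inv_le_iff hqr] at hg
        exact hg
    _ = ε ^ q.toReal := by rw [lintegral_const, measure_univ, mul_one]

private theorem jensen {μ : Measure Pt} [IsProbabilityMeasure μ] {q : ℝ≥0∞} (hq : 1 ≤ q)
    (hq' : q ≠ ⊤) {F : Pt → Pt → E}
    (hF : AEStronglyMeasurable (fun p : Pt × Pt => F p.1 p.2) (μ.prod volume))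
    {ε : ℝ≥0∞} (h : ∀ᵐ g ∂μ, eLpNorm (F g) q volume ≤ ε) :
    eLpNorm (fun z => ∫ g, F g z ∂μ) q volume ≤ ε := by
  have hq0 : q ≠ 0 := (zero_lt_one.trans_le hq).ne'
  have hqr : 0 < q.toReal := ENNReal.toReal_pos hq0 hq'
  rw [eLpNorm_eq_lintegral_rpow_enorm_toReal hq0 hq', one_div, ENNReal.rpow_inv_le_iff hqr]
  refine le_trans (lintegral_mono_ae ?_) (jensen0 hq hq' hF h)
  filter_upwards [hF.prod_swap.prodMk_left] with z hz
  have h1 : ‖∫ g, F g z ∂μ‖ₑ ≤ eLpNorm (fun g => F g z) q μ := by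
    refine (enorm_integral_le_lintegral_enorm _).trans ?_
    rw [← eLpNorm_one_eq_lintegral_enorm]
    exact eLpNorm_le_eLpNorm_of_exponent_le hq hz
  rw [eLpNorm_eq_lintegral_rpow_enorm_toReal hq0 hq', one_div] at h1
  have h2 := ENNReal.rpow_le_rpow h1 hqr.le
  rwa [ENNReal.rpow_inv_rpow hqr.ne'] at h2

private theorem jensen_int {μ : Measure Pt} [IsProbabilityMeasure μ] {q : ℝ≥0∞} (hq : 1 ≤ q)
    (hq' : q ≠ ⊤) {F : Pt → Pt → E}
    (hF : AEStronglyMeasurable (fun p : Pt × Pt => F p.1 p.2) (μ.prod volume))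
    {ε : ℝ≥0∞} (hε : ε ≠ ⊤) (h : ∀ᵐ g ∂μ, eLpNorm (F g) q volume ≤ ε) :
    ∀ᵐ z : Pt, Integrable (fun g => F g z) μ := by
  have hq0 : q ≠ 0 := (zero_lt_one.trans_le hq).ne'
  have hqr : 0 < q.toReal := ENNReal.toReal_pos hq0 hq'
  have h1 : ∫⁻ z, ∫⁻ g, ‖F g z‖ₑ ^ q.toReal ∂μ ≠ ⊤ :=
    ((jensen0 hq hq' hF h).trans_lt (ENNReal.rpow_lt_top_of_nonneg hqr.le hε)).ne
  have hm : AEMeasurable (Function.uncurry fun z g => ‖F g z‖ₑ ^ q.toReal)
      ((volume : Measure Pt).prod μ) := by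
    have := hF.prod_swap.enorm.pow_const q.toReal
    exact this
  have h2 := ae_lt_top' hm.lintegral_prod_right' h1
  filter_upwards [h2, hF.prod_swap.prodMk_left] with z hz hz'
  have h3 : MemLp (fun g => F g z) q μ := by
    refine ⟨hz', ?_⟩
    rw [eLpNorm_eq_lintegral_rpow_enorm_toReal hq0 hq', one_div]
    exact ENNReal.rpow_lt_top_of_nonneg (by positivity) hz.ne
  exact h3.integrable hq

private theorem close_left (R ε : ℝ) (hε : 0 < ε) : ∀ᶠ g in 𝓝 (0 : Pt), ∀ z : Pt,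
    (‖z‖ ≤ R ∨ ‖mul g z‖ ≤ R) → ‖mul g z - z‖ ≤ ε := by
  have hδ : 0 < min 1 (ε / (|R| + 2)) := by positivity
  filter_upwards [Metric.ball_mem_nhds (0 : Pt) hδ] with g hg z hz
  rw [mem_ball_zero_iff, lt_min_iff] at hg
  obtain ⟨hg1, hg2⟩ := hg
  have hgn := norm_nonneg g
  have a1 : |g.1| ≤ ‖g‖ := norm_fst_le g
  have a2 : |g.2.1| ≤ ‖g‖ := (norm_fst_le g.2).trans (norm_snd_le g)
  have a3 : |g.2.2| ≤ ‖g‖ := (norm_snd_le g.2).trans (norm_snd_le g)
  have hR := le_abs_self R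
  have hz1 : |z.1| ≤ |R| + 1 ∧ |z.2.1| ≤ |R| + 1 := by
    rcases hz with h | h
    · have b1 : |z.1| ≤ ‖z‖ := norm_fst_le z
      have b2 : |z.2.1| ≤ ‖z‖ := (norm_fst_le z.2).trans (norm_snd_le z)
      constructor <;> linarith
    · have b1 : |g.1 + z.1| ≤ ‖mul g z‖ := norm_fst_le (mul g z)
      have b2 : |g.2.1 + z.2.1| ≤ ‖mul g z‖ :=
        (norm_fst_le (mul g z).2).trans (norm_snd_le (mul g z))
      constructor
      · have := abs_sub (g.1 + z.1) g.1
        rw [add_sub_cancel_left] at this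
        linarith
      · have := abs_sub (g.2.1 + z.2.1) g.2.1
        rw [add_sub_cancel_left] at this
        linarith
  rw [lt_div_iff₀ (by positivity)] at hg2
  have hR0 := abs_nonneg R
  have e1 : (mul g z - z).1 = g.1 := by simp [mul]
  have e2 : (mul g z - z).2.1 = g.2.1 := by simp [mul]
  have e3 : (mul g z - z).2.2 = g.2.2 + (g.1 * z.2.1 - g.2.1 * z.1) / 2 := by
    simp [mul]; ring
  have c1 : ‖g‖ ≤ ε := by nlinarith
  rw [norm_prod_le_iff, norm_prod_le_iff, e1, e2, e3, Real.norm_eq_abs, Real.norm_eq_abs,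
    Real.norm_eq_abs]
  refine ⟨by linarith, by linarith, ?_⟩
  have d1 : |g.1 * z.2.1| ≤ ‖g‖ * (|R| + 1) := by
    rw [abs_mul]; exact mul_le_mul a1 hz1.2 (abs_nonneg _) hgn
  have d2 : |g.2.1 * z.1| ≤ ‖g‖ * (|R| + 1) := by
    rw [abs_mul]; exact mul_le_mul a2 hz1.1 (abs_nonneg _) hgn
  rw [abs_le] at d1 d2 a3 ⊢
  constructor <;> nlinarith

private theorem mul_zero_left (z : Pt) : mul 0 z = z := by
  unfold mul
  refine Prod.ext ?_ (Prod.ext ?_ ?_) <;> simp

theorem lav_tendsto (hB : MeasurableSet B) (hB' : MeasurableSet B') {δ₀ : ℝ} (hδ₀ : 0 < δ₀)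
    (hs : ∀ g : Pt, ‖g‖ ≤ δ₀ → ∀ z ∈ B, mul g z ∈ B') {q : ℝ≥0∞} (hq : 1 ≤ q) (hq' : q ≠ ⊤)
    (hf : MemLp f q (volume.restrict B')) {ε : ℝ≥0∞} (hε : 0 < ε) :
    ∃ δ₁ : ℝ, 0 < δ₁ ∧ δ₁ ≤ δ₀ ∧ ∀ δ : ℝ, 0 < δ → δ ≤ δ₁ → ∀ ρ : Pt → ℝ, Ker δ ρ →
      MemLp (lav ρ f) q (volume.restrict B) ∧
      eLpNorm (fun z => lav ρ f z - f z) q (volume.restrict B) ≤ ε := by
  set f₀ : Pt → E := B'.indicator f with hf₀
  have m0 : MemLp f₀ q volume := (memLp_indicator_iff_restrict hB').2 hf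
  have hBB : B ⊆ B' := fun z hz => by
    have := hs 0 (by rw [norm_zero]; exact hδ₀.le) z hz
    rwa [mul_zero_left] at this
  set ε' : ℝ≥0∞ := min ε 1 with hε'
  have hε'0 : 0 < ε' := lt_min hε zero_lt_one
  have hε't : ε' ≠ ⊤ := ((min_le_right _ _).trans_lt ENNReal.one_lt_top).ne
  have ht := tendsto_comp_sub (l := 𝓝 (0 : Pt)) (τ := fun g z => mul g z) hq hq' mp_mul
    close_left m0
  rw [ENNReal.tendsto_nhds_zero] at ht
  obtain ⟨r, hr, hr'⟩ := Metric.eventually_nhds_iff.1 (ht ε' hε'0)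
  refine ⟨min δ₀ (r / 2), lt_min hδ₀ (by positivity), min_le_left _ _, ?_⟩
  intro δ hδ hδ1 ρ hρ
  haveI := km_prob hρ
  have hF : AEStronglyMeasurable (fun p : Pt × Pt => f₀ (mul p.1 p.2) - f₀ p.2)
      ((km ρ).prod volume) := by
    have h1 : AEStronglyMeasurable (fun p : Pt × Pt => f₀ p.2)
        ((volume : Measure Pt).prod volume) := m0.1.comp_snd
    have h2 : AEStronglyMeasurable (fun p : Pt × Pt => f₀ (mul p.1 p.2))
        ((volume : Measure Pt).prod volume) := h1.comp_measurePreserving mp_pair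
    exact (h2.sub h1).mono_ac ((km_ac ρ).prod Measure.AbsolutelyContinuous.rfl)
  have hg : ∀ᵐ g ∂(km ρ), eLpNorm (fun z => f₀ (mul g z) - f₀ z) q volume ≤ ε' := by
    filter_upwards [km_ball hρ] with g hg
    refine hr' ?_
    rw [dist_zero_right]
    have := hδ1.trans (min_le_right _ _)
    linarith
  have hJ := jensen (F := fun g z => f₀ (mul g z) - f₀ z) hq hq' hF hg
  have hI := jensen_int (F := fun g z => f₀ (mul g z) - f₀ z) hq hq' hF hε't hg
  have hM : AEStronglyMeasurable (fun z => ∫ g, (f₀ (mul g z) - f₀ z) ∂(km ρ)) volume :=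
    hF.prod_swap.integral_prod_right'
  have he : (fun z => ∫ g, (f₀ (mul g z) - f₀ z) ∂(km ρ)) =ᵐ[volume.restrict B]
      fun z => lav ρ f z - f z := by
    filter_upwards [ae_restrict_of_ae hI, ae_restrict_mem hB] with z hz hzB
    have h1 : Integrable (fun g => f₀ (mul g z)) (km ρ) := by
      have := hz.add (integrable_const (f₀ z))
      refine this.congr (ae_of_all _ fun g => ?_)
      show f₀ (mul g z) - f₀ z + f₀ z = f₀ (mul g z)
      rw [sub_add_cancel]
    show ∫ g, (f₀ (mul g z) - f₀ z) ∂(km ρ) = lav ρ f z - f z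
    rw [integral_sub h1 (integrable_const _), integral_const, probReal_univ, one_smul,
      lav_km hρ, hf₀, indicator_of_mem (hBB hzB)]
    congr 1
    refine integral_congr_ae ?_
    filter_upwards [km_ball hρ] with g hg
    exact indicator_of_mem (hs g (hg.trans (hδ1.trans (min_le_left _ _))) z hzB) f
  have hN : eLpNorm (fun z => lav ρ f z - f z) q (volume.restrict B) ≤ ε' := by
    rw [← eLpNorm_congr_ae he]
    exact (eLpNorm_mono_measure _ Measure.restrict_le_self).trans hJ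
  have hL : MemLp (fun z => lav ρ f z - f z) q (volume.restrict B) :=
    ⟨hM.restrict.congr he, hN.trans_lt hε't.lt_top⟩
  refine ⟨?_, hN.trans (min_le_left _ _)⟩
  have h2 := hL.add (hf.mono_measure (Measure.restrict_mono hBB le_rfl))
  refine h2.ae_eq (ae_of_all _ fun z => ?_)
  show lav ρ f z - f z + f z = lav ρ f z
  rw [sub_add_cancel]

private theorem inv_neg (z : Pt) : inv z = -z := rfl

private theorem mp_inv : MeasurePreserving inv (volume : Measure Pt) volume := by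
  haveI i2 : (volume : Measure (ℝ × ℝ)).IsAddHaarMeasure :=
    inferInstanceAs (((volume : Measure ℝ).prod (volume : Measure ℝ)).IsAddHaarMeasure)
  haveI i3 : (volume : Measure Pt).IsAddHaarMeasure :=
    inferInstanceAs (((volume : Measure ℝ).prod (volume : Measure (ℝ × ℝ))).IsAddHaarMeasure)
  have e : inv = fun z => -z := by
    funext z
    exact inv_neg z
  rw [e]
  exact Measure.measurePreserving_neg volume

/-- right translation -/
private theorem rt_eq (z g : Pt) : mul g z = inv (tau (inv z) 1 (inv g)) := by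
  unfold tau dil mul inv
  refine Prod.ext ?_ (Prod.ext ?_ ?_) <;> simp <;> ring

private theorem mp_rt (z : Pt) : MeasurePreserving (fun g => mul g z) volume volume := by
  have e : (fun g => mul g z) = inv ∘ tau (inv z) 1 ∘ inv := by
    funext g
    exact rt_eq z g
  rw [e]
  exact mp_inv.comp ((mp_tau (inv z)).comp mp_inv)

private theorem mul_cancel (g z : Pt) : mul (mul g z) (inv z) = g := by
  unfold mul inv
  refine Prod.ext ?_ (Prod.ext ?_ ?_) <;> simp
  ring

private theorem mul_cancel' (g z : Pt) : mul (mul g (inv z)) z = g := by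
  unfold mul inv
  refine Prod.ext ?_ (Prod.ext ?_ ?_) <;> simp
  ring

private theorem rt_emb (z : Pt) : MeasurableEmbedding (fun g => mul g z) := by
  let H : Pt ≃ₜ Pt :=
    { toFun := fun g => mul g z
      invFun := fun g => mul g (inv z)
      left_inv := fun g => mul_cancel g z
      right_inv := fun g => mul_cancel' g z
      continuous_toFun := cont_mul.comp (Continuous.prodMk_left z)
      continuous_invFun := cont_mul.comp (Continuous.prodMk_left (inv z)) }
  exact H.measurableEmbedding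

private theorem lav_rt (ρ : Pt → ℝ) (f : Pt → E) (z : Pt) :
    lav ρ f z = ∫ w, ρ (mul w (inv z)) • f w := by
  have h1 := (mp_rt z).integral_comp (rt_emb z) (fun w => ρ (mul w (inv z)) • f w)
  rw [← h1]
  unfold lav
  refine integral_congr_ae (ae_of_all _ fun g => ?_)
  show ρ g • f (mul g z) = ρ (mul (mul g z) (inv z)) • f (mul g z)
  rw [mul_cancel]

theorem lav_smooth {δ : ℝ} {ρ : Pt → ℝ} (hρ : Ker δ ρ) (hf : Integrable f) :
    ContDiff ℝ ∞ (lav ρ f) := by
  rw [← contDiffOn_univ]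
  have key : ∀ R : ℝ, ContDiffOn ℝ ∞ (lav ρ f) (Metric.ball 0 R) := by
    intro R
    set L : E →L[ℝ] ℝ →L[ℝ] E := (ContinuousLinearMap.lsmul ℝ ℝ : ℝ →L[ℝ] E →L[ℝ] E).flip with hL
    set G : Pt → Pt → ℝ := fun p v => ρ (mul (-v) (inv p)) with hG
    set k : Set Pt := (fun p : Pt × Pt => -(mul p.1 p.2)) ''
      (Metric.closedBall 0 δ ×ˢ Metric.closedBall 0 R) with hk
    have hkc : IsCompact k := ((isCompact_closedBall (0 : Pt) δ).prod
      (isCompact_closedBall (0 : Pt) R)).image cont_mul.neg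
    have hgs : ∀ p, ∀ x, p ∈ Metric.ball (0 : Pt) R → x ∉ k → G p x = 0 := by
      intro p x hp hx
      by_contra h
      apply hx
      have h1 : ‖mul (-x) (inv p)‖ ≤ δ := by
        by_contra h2
        exact h (ker_zero hρ h2)
      refine ⟨(mul (-x) (inv p), p), ⟨?_, Metric.ball_subset_closedBall hp⟩, ?_⟩
      · rwa [mem_closedBall_zero_iff]
      · show -(mul (mul (-x) (inv p)) p) = x
        rw [mul_cancel', neg_neg]
    have hgc : ContDiff ℝ ∞ (fun q : Pt × Pt => G q.1 q.2) := by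
      refine hρ.smooth.comp ?_
      unfold mul inv
      fun_prop
    have h1 := contDiffOn_convolution_right_with_param_comp (μ := (volume : Measure Pt)) L
      (v := fun _ : Pt => (0 : Pt)) contDiffOn_const Metric.isOpen_ball hkc hgs
      hf.locallyIntegrable hgc.contDiffOn
    refine h1.congr fun z _ => ?_
    rw [lav_rt, convolution_def]
    refine integral_congr_ae (ae_of_all _ fun w => ?_)
    show ρ (mul w (inv z)) • f w = ρ (mul (-(0 - w)) (inv z)) • f w
    rw [zero_sub, neg_neg]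
  intro z _
  have hz : z ∈ Metric.ball (0 : Pt) (‖z‖ + 1) := by
    rw [mem_ball_zero_iff]
    linarith
  exact ((key (‖z‖ + 1)).contDiffAt (Metric.isOpen_ball.mem_nhds hz)).contDiffWithinAt

theorem lav_supp {δ : ℝ} {ρ : Pt → ℝ} (hρ : Ker δ ρ) {z : Pt} (hz : lav ρ f z ≠ 0) :
    ∃ g : Pt, ‖g‖ ≤ δ ∧ mul g z ∈ tsupport f := by
  by_contra h
  push Not at h
  apply hz
  unfold lav
  refine (integral_congr_ae (ae_of_all _ fun g => ?_)).trans (integral_zero Pt E)
  show ρ g • f (mul g z) = 0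
  by_cases hg : ‖g‖ ≤ δ
  · rw [image_eq_zero_of_notMem_tsupport (h g hg), smul_zero]
  · rw [ker_zero hρ hg, zero_smul]

end PLH
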