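import Pool.Agent.Lib.PLH.B2
import Pool.Agent.Lib.PLH.B4
import Pool.Agent.Lib.PLH.A9
import Pool.Agent.Lib.PLH.T10

/-!
MODULE B5 (300 lines). The approximation theorem.

`p = m+2`, `p' = (m+2)/(m+1)`, `A₀ = A (·^m)`, `V₀ = Vm (·^m)`, `σ = A₀(ξ) ∈ L^{p'}(B')` (`memLp_A0`).
Step 1 (choice of `δ`): for a kernel `ρ` of radius `≤ δ₁`: `u_d = lav ρ u`, `ξ_d = lav ρ ξ`,
`σ_d = lav ρ σ`: bounded and continuous on `B` (`lav_bdd`, `lav_cont`; `B'` bounded so `L^p ⊆ L¹`),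
`WD vX B u_d (ξ_d 0)`, ... (`lav_WD`; the components of `lav ρ ξ` are `lav ρ` of the components),
`Sol0 B σ_d`, and `‖ξ_d-ξ‖_{L^p(B)}`, `‖σ_d-σ‖_{L^{p'}(B)}` as small as we like (`lav_tendsto`).
Step 2: for `μ, ν` small, `a = ap m μ ν`, `exists_approx` for `ξ_d`: `ζ`, `w`; `u' = u_d+w`,
`ξ' = ξ_d+ζ`. `∫⟨A(ξ')-A(ξ_d),ζ⟩ = ∫⟨σ_d-A(ξ_d),ζ⟩` (both `∫⟨A(ξ'),ζ⟩ = 0`, `∫⟨σ_d,ζ⟩ = 0`).
With `Alg.mono` (constant `C`), `z = ‖σ_d-A(ξ_d)‖`, `D = ‖ζ‖`, `conj` with `ε₀` small and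
`a(‖ξ_d‖+D)D² ≤ C‖V(ξ')-V(ξ_d)‖²` (`phiV` of module A4, or `Alg.vlo` and `Cl.comp`):
`∫‖V(ξ')-V(ξ_d)‖² ≤ 2CC₁ ∫_B J`, `J = z^{p'} + (ν + 1_{m<0}(√μ+‖ξ_d‖)^{-m}) z²`.
Step 3: `δ` fixed, `M` a bound for `‖ξ_d‖`, `‖σ_d‖`: by `ap_conv` (`R = M`), for `μ,ν → 0`:
`A(ξ_d) → A₀(ξ_d)`, `V(ξ_d) → V₀(ξ_d)` uniformly on `B` (finite measure), so `∫J →`
`J₀ = ∫ z_d^{p'} + 1_{m<0} ∫‖ξ_d‖^{-m} z_d²`, `z_d = ‖σ_d-A₀(ξ_d)‖`; Holder (`m<0`):
`∫‖ξ_d‖^{-m}z_d² ≤ (∫z_d^{p'})^{2/p'}(∫‖ξ_d‖^p)^{-m/p}`; and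
`‖σ_d-A₀(ξ_d)‖_{p'} ≤ ‖σ_d-σ‖_{p'}+‖A₀(ξ)-A₀(ξ_d)‖_{p'}` is small by step 1 and `tendsto_A0`.
Finally `V(ξ')-V₀(ξ) = (V(ξ')-V(ξ_d)) + (V(ξ_d)-V₀(ξ_d)) + (V₀(ξ_d)-V₀(ξ))`, `tendsto_V0`.
-/

open MeasureTheory Set Filter Topology
open scoped ContDiff ENNReal

namespace PLH

section aux

private theorem b5_small {K q θ : ℝ} (hK : 0 ≤ K) (hq : 0 < q) (hθ : 0 < θ) :
    ∃ e : ℝ, 0 < e ∧ e ≤ 1 ∧ ∀ x : ℝ, 0 ≤ x → x ≤ e → K * x ^ q ≤ θ := by
  have hK1 : 0 < K + 1 := by linarith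
  have h0 : 0 < θ / (K + 1) := div_pos hθ hK1
  refine ⟨min 1 ((θ / (K + 1)) ^ (1 / q)), lt_min one_pos (Real.rpow_pos_of_pos h0 _),
    min_le_left _ _, fun x hx hxe => ?_⟩
  have h1 : x ^ q ≤ ((θ / (K + 1)) ^ (1 / q)) ^ q :=
    Real.rpow_le_rpow hx (hxe.trans (min_le_right _ _)) hq.le
  rw [← Real.rpow_mul h0.le, one_div_mul_cancel hq.ne', Real.rpow_one] at h1
  calc K * x ^ q ≤ K * (θ / (K + 1)) := mul_le_mul_of_nonneg_left h1 hK
    _ = θ * (K / (K + 1)) := by ring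
    _ ≤ θ * 1 := mul_le_mul_of_nonneg_left ((div_le_one hK1).2 (by linarith)) hθ.le
    _ = θ := mul_one _

private theorem b5_young {m : ℝ} (hm : -1 < m) (hm0 : m < 0) {η : ℝ} (hη : 0 < η) :
    ∃ C : ℝ, 0 ≤ C ∧ ∀ x y : ℝ, 0 ≤ x → 0 ≤ y →
      y ^ (-m) * x ^ 2 ≤ η * y ^ (m + 2) + C * x ^ ((m + 2) / (m + 1)) := by
  have hm1 : 0 < m + 1 := by linarith
  obtain ⟨k, hk⟩ : ∃ k, k = 1 / (2 * (m + 1)) := ⟨_, rfl⟩
  have hk0 : 0 < k := by rw [hk]; positivity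
  refine ⟨(1 / η) ^ (k * (-m)), Real.rpow_nonneg (by positivity) _, fun x y hx hy => ?_⟩
  have hC0 : 0 ≤ (1 / η) ^ (k * (-m)) * x ^ ((m + 2) / (m + 1)) :=
    mul_nonneg (Real.rpow_nonneg (by positivity) _) (Real.rpow_nonneg hx _)
  have hη0 : 0 ≤ η * y ^ (m + 2) := mul_nonneg hη.le (Real.rpow_nonneg hy _)
  rcases hy.eq_or_lt with hy0 | hy0
  · rw [← hy0, Real.zero_rpow (by linarith : -m ≠ 0), zero_mul]
    rw [← hy0] at hη0
    linarith
  rcases hx.eq_or_lt with hx0 | hx0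
  · rw [← hx0] at hC0 ⊢
    have e0 : y ^ (-m) * (0 : ℝ) ^ 2 = 0 := by simp
    rw [e0]
    linarith
  rcases le_or_gt (y ^ (-m) * x ^ 2) (η * y ^ (m + 2)) with h | h
  · linarith
  · have h1 : y ^ (m + 2) = y ^ (-m) * (y ^ (2 * (m + 1))) := by
      rw [← Real.rpow_add hy0]
      congr 1
      ring
    rw [h1] at h
    have hym : 0 < y ^ (-m) := Real.rpow_pos_of_pos hy0 _
    have h2 : η * y ^ (2 * (m + 1)) < x ^ 2 := by
      have h3 : y ^ (-m) * (η * y ^ (2 * (m + 1))) < y ^ (-m) * x ^ 2 := by linarith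
      exact lt_of_mul_lt_mul_left h3 hym.le
    have h4 : y ^ (2 * (m + 1)) ≤ 1 / η * x ^ 2 := by
      rw [one_div, ← div_eq_inv_mul, le_div_iff₀ hη]
      linarith
    have h5 : y ≤ (1 / η * x ^ 2) ^ k := by
      have h6 := Real.rpow_le_rpow (Real.rpow_nonneg hy _) h4 hk0.le
      rw [← Real.rpow_mul hy, show 2 * (m + 1) * k = 1 by rw [hk]; field_simp, Real.rpow_one] at h6
      exact h6
    have h7 : y ^ (-m) ≤ (1 / η) ^ (k * (-m)) * x ^ (2 * (k * (-m))) := by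
      have h8 := Real.rpow_le_rpow hy h5 (by linarith : 0 ≤ -m)
      rw [← Real.rpow_mul (by positivity), Real.mul_rpow (by positivity) (by positivity)] at h8
      refine h8.trans (le_of_eq ?_)
      rw [← Real.rpow_natCast x 2, ← Real.rpow_mul hx]
      norm_num
    have h9 : x ^ (2 * (k * (-m))) * x ^ 2 = x ^ ((m + 2) / (m + 1)) := by
      rw [← Real.rpow_natCast x 2, ← Real.rpow_add hx0]
      congr 1
      rw [hk]
      field_simp
      push_cast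
      ring
    calc y ^ (-m) * x ^ 2 ≤ ((1 / η) ^ (k * (-m)) * x ^ (2 * (k * (-m)))) * x ^ 2 :=
          mul_le_mul_of_nonneg_right h7 (by positivity)
      _ = (1 / η) ^ (k * (-m)) * x ^ ((m + 2) / (m + 1)) := by rw [mul_assoc, h9]
      _ ≤ _ := by linarith

private theorem b5_two {q a b : ℝ} (hq : 0 < q) (ha : 0 ≤ a) (hb : 0 ≤ b) :
    (a + b) ^ q ≤ 2 ^ q * (a ^ q + b ^ q) := by
  have h1 : a + b ≤ 2 * max a b := by
    have := le_max_left a b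
    have := le_max_right a b
    linarith
  have h2 : (a + b) ^ q ≤ (2 * max a b) ^ q := Real.rpow_le_rpow (by positivity) h1 hq.le
  rw [Real.mul_rpow (by norm_num) (le_max_of_le_left ha)] at h2
  refine h2.trans (mul_le_mul_of_nonneg_left ?_ (by positivity))
  rcases max_cases a b with ⟨h, -⟩ | ⟨h, -⟩
  · rw [h]
    have := Real.rpow_nonneg hb q
    linarith
  · rw [h]
    have := Real.rpow_nonneg ha q
    linarith

/-- the function `J` -/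
private noncomputable def b5J (m μ ν z α : ℝ) : ℝ :=
  z ^ ((m + 2) / (m + 1)) + (ν + if m < 0 then (Real.sqrt μ + α) ^ (-m) else 0) * z ^ 2

private theorem b5_J {m : ℝ} (hm : -1 < m) {η : ℝ} (hη : 0 < η) : ∃ C : ℝ, 0 ≤ C ∧
    ∀ r e z₀ z α M : ℝ, 0 ≤ r → 0 ≤ e → e ≤ 1 → 0 ≤ z₀ → 0 ≤ z → z ≤ z₀ + e → 0 ≤ α → z₀ ≤ M →
      b5J m (r ^ 2) (r ^ 2) z α ≤ C * (z₀ ^ ((m + 2) / (m + 1)) + e ^ ((m + 2) / (m + 1))) +
        η * (r ^ (m + 2) + α ^ (m + 2)) + r ^ 2 * (M + 1) ^ 2 := by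
  have hm1 : 0 < m + 1 := by linarith
  have hm2 : 0 < m + 2 := by linarith
  have hq : 0 < (m + 2) / (m + 1) := div_pos hm2 hm1
  have key : ∃ C : ℝ, 0 ≤ C ∧ ∀ r z α : ℝ, 0 ≤ r → 0 ≤ z → 0 ≤ α →
      (if m < 0 then (r + α) ^ (-m) else 0) * z ^ 2 ≤
        η * (r ^ (m + 2) + α ^ (m + 2)) + C * z ^ ((m + 2) / (m + 1)) := by
    by_cases hm0 : m < 0
    · have h2 : (0 : ℝ) < 2 ^ (m + 2) := by positivity
      obtain ⟨C, hC, h⟩ := b5_young hm hm0 (div_pos hη h2)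
      refine ⟨C, hC, fun r z α hr hz hα => ?_⟩
      rw [if_pos hm0]
      refine (h z (r + α) hz (by positivity)).trans ?_
      have h3 := mul_le_mul_of_nonneg_left (b5_two hm2 hr hα) (div_pos hη h2).le
      have h4 : η / 2 ^ (m + 2) * (2 ^ (m + 2) * (r ^ (m + 2) + α ^ (m + 2))) =
          η * (r ^ (m + 2) + α ^ (m + 2)) := by
        field_simp
      linarith
    · refine ⟨0, le_rfl, fun r z α hr hz hα => ?_⟩
      rw [if_neg hm0, zero_mul, zero_mul, add_zero]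
      positivity
  obtain ⟨C, hC, hkey⟩ := key
  refine ⟨(1 + C) * 2 ^ ((m + 2) / (m + 1)), by positivity, ?_⟩
  intro r e z₀ z α M hr he he1 hz₀ hz hzz hα hM
  have h1 := hkey r z α hr hz hα
  have h2 : z ^ ((m + 2) / (m + 1)) ≤ 2 ^ ((m + 2) / (m + 1)) *
      (z₀ ^ ((m + 2) / (m + 1)) + e ^ ((m + 2) / (m + 1))) :=
    (Real.rpow_le_rpow hz hzz hq.le).trans (b5_two hq hz₀ he)
  have h3 : z ^ 2 ≤ (M + 1) ^ 2 := pow_le_pow_left₀ hz (by linarith) 2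
  have h4 : r ^ 2 * z ^ 2 ≤ r ^ 2 * (M + 1) ^ 2 := mul_le_mul_of_nonneg_left h3 (by positivity)
  have h5 : (1 + C) * z ^ ((m + 2) / (m + 1)) ≤ (1 + C) * (2 ^ ((m + 2) / (m + 1)) *
      (z₀ ^ ((m + 2) / (m + 1)) + e ^ ((m + 2) / (m + 1)))) :=
    mul_le_mul_of_nonneg_left h2 (by positivity)
  rw [b5J, Real.sqrt_sq hr]
  linarith

variable {E : Type*} [NormedAddCommGroup E] {M : Measure Pt}

private theorem b5_le {f : Pt → E} {q t : ℝ} (hq : 0 < q) (ht : 0 ≤ t)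
    (hf : MemLp f (ENNReal.ofReal q) M) :
    eLpNorm f (ENNReal.ofReal q) M ≤ ENNReal.ofReal t ↔ ∫ z, ‖f z‖ ^ q ∂M ≤ t ^ q := by
  rw [hf.eLpNorm_eq_integral_rpow_norm (by rw [Ne, ENNReal.ofReal_eq_zero]; linarith)
    ENNReal.ofReal_ne_top, ENNReal.toReal_ofReal hq.le, ENNReal.ofReal_le_ofReal_iff ht]
  exact Real.rpow_inv_le_iff_of_pos (integral_nonneg fun z => Real.rpow_nonneg (norm_nonneg _) _) ht hq

private theorem b5_le2 {f : Pt → E} {t : ℝ} (ht : 0 ≤ t) (hf : MemLp f 2 M)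
    (h : ∫ z, ‖f z‖ ^ 2 ∂M ≤ t ^ 2) : eLpNorm f 2 M ≤ ENNReal.ofReal t := by
  have h2 : (2 : ℝ≥0∞) = ENNReal.ofReal 2 := by norm_num
  rw [h2] at hf ⊢
  rw [b5_le two_pos ht hf]
  simpa using h

variable [InnerProductSpace ℝ E]

private theorem b5_meas {f : Pt → E} (hf : AEStronglyMeasurable f M) {b : ℝ → ℝ}
    (hb : Measurable b) : AEStronglyMeasurable (fun z => b ‖f z‖ • f z) M :=
  (hb.comp_aemeasurable hf.norm.aemeasurable).aestronglyMeasurable.smul hf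

private theorem b5_memA {m : ℝ} {a : ℝ → ℝ} (ha : Nice m a) {f : Pt → E} (hf : MemLp f 2 M) :
    MemLp (fun z => A a (f z)) 2 M := by
  obtain ⟨lam, Lam, hlam, hb⟩ := ha.bd
  refine hf.of_le_mul (c := Lam) (b5_meas hf.1 ha.cont.measurable)
    (Filter.Eventually.of_forall fun z => ?_)
  rw [A, norm_smul, Real.norm_of_nonneg (ha.pos' (norm_nonneg _)).le]
  exact mul_le_mul_of_nonneg_right (hb _ (norm_nonneg _)).2 (norm_nonneg _)

private theorem b5_memV {m : ℝ} {a : ℝ → ℝ} (ha : Nice m a) {f : Pt → E} (hf : MemLp f 2 M) :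
    MemLp (fun z => Vm a (f z)) 2 M := by
  obtain ⟨lam, Lam, hlam, hb⟩ := ha.bd
  refine hf.of_le_mul (c := Real.sqrt Lam)
    (b5_meas hf.1 (b := fun x => Real.sqrt (a x)) ha.cont.measurable.sqrt)
    (Filter.Eventually.of_forall fun z => ?_)
  rw [Vm, norm_smul, Real.norm_of_nonneg (Real.sqrt_nonneg _)]
  exact mul_le_mul_of_nonneg_right (Real.sqrt_le_sqrt (hb _ (norm_nonneg _)).2) (norm_nonneg _)

private theorem b5_inner {f g : Pt → E} (hf : MemLp f 2 M) (hg : MemLp g 2 M) :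
    Integrable (fun z => inner ℝ (f z) (g z)) M := by
  have h := hf.norm.integrable_mul hg.norm
  refine h.mono (hf.1.inner hg.1) (Filter.Eventually.of_forall fun z => ?_)
  have h0 : ‖(‖f z‖ * ‖g z‖)‖ = ‖f z‖ * ‖g z‖ := Real.norm_of_nonneg (by positivity)
  rw [Pi.mul_apply, h0]
  exact norm_inner_le_norm _ _

private theorem b5_core {m : ℝ} (hm : -1 < m) : ∃ K₁ : ℝ, 0 ≤ K₁ ∧
    ∀ μ ν : ℝ, 0 < μ → 0 < ν → ∀ ξd ζ σd : Pt → E,
      MemLp ξd 2 M → MemLp ζ 2 M → MemLp σd 2 M →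
      Integrable (fun z => b5J m μ ν ‖σd z - A (ap m μ ν) (ξd z)‖ ‖ξd z‖) M →
      ∫ z, inner ℝ (A (ap m μ ν) (ξd z + ζ z)) (ζ z) ∂M = 0 →
      ∫ z, inner ℝ (σd z) (ζ z) ∂M = 0 →
      ∫ z, ‖Vm (ap m μ ν) (ξd z + ζ z) - Vm (ap m μ ν) (ξd z)‖ ^ 2 ∂M ≤
        K₁ * ∫ z, b5J m μ ν ‖σd z - A (ap m μ ν) (ξd z)‖ ‖ξd z‖ ∂M := by
  obtain ⟨C, hC⟩ := exists_alg E hm
  have hC0 : 0 < C := lt_of_lt_of_le one_pos hC.one
  obtain ⟨C₂, hC₂⟩ : ∃ C₂ : ℝ, C₂ = 2 ^ |m| * C := ⟨_, rfl⟩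
  have hC₂0 : 0 < C₂ := by rw [hC₂]; positivity
  obtain ⟨C₁, hC₁, hconj⟩ := conj hm (ε := 1 / (2 * C * C₂)) (by positivity)
  refine ⟨2 * C * C₁, by positivity, ?_⟩
  intro μ ν hμ hν ξd ζ σd hξ hζ hσ hJ h1 h2
  have ha := nice_ap m hμ hν
  obtain ⟨a, haa⟩ : ∃ a, a = ap m μ ν := ⟨_, rfl⟩
  rw [← haa] at ha hJ h1 ⊢
  -- pointwise
  have hV2 : ∀ z, a (‖ξd z‖ + ‖ζ z‖) * ‖ζ z‖ ^ 2 ≤ C₂ * ‖Vm a (ξd z + ζ z) - Vm a (ξd z)‖ ^ 2 := by
    intro z
    rcases (norm_nonneg (ζ z)).eq_or_lt with h0 | h0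
    · rw [← h0]
      have : 0 ≤ C₂ * ‖Vm a (ξd z + ζ z) - Vm a (ξd z)‖ ^ 2 := by positivity
      simpa using this
    · have e1 : ‖ξd z + ζ z‖ ≤ ‖ξd z‖ + ‖ζ z‖ := norm_add_le _ _
      have e2 : ‖ζ z‖ ≤ ‖ξd z + ζ z‖ + ‖ξd z‖ := by
        have := norm_sub_le (ξd z + ζ z) (ξd z)
        rwa [add_sub_cancel_left] at this
      have p1 : 0 < ‖ξd z‖ + ‖ζ z‖ := by positivity
      have p2 : 0 < ‖ξd z + ζ z‖ + ‖ξd z‖ := by linarith
      have k1 := ha.comp (K := 2) (s := ‖ξd z‖ + ‖ζ z‖) (S := ‖ξd z + ζ z‖ + ‖ξd z‖) (by norm_num) p1 p2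
        (by linarith [norm_nonneg (ξd z), norm_nonneg (ξd z + ζ z)])
        (by linarith [norm_nonneg (ξd z), norm_nonneg (ζ z)])
      have k2 := hC.vlo a ha.toCl (ξd z + ζ z) (ξd z)
      rw [add_sub_cancel_left] at k2
      calc a (‖ξd z‖ + ‖ζ z‖) * ‖ζ z‖ ^ 2
          ≤ (2 ^ |m| * a (‖ξd z + ζ z‖ + ‖ξd z‖)) * ‖ζ z‖ ^ 2 :=
            mul_le_mul_of_nonneg_right k1 (by positivity)
        _ = 2 ^ |m| * (a (‖ξd z + ζ z‖ + ‖ξd z‖) * ‖ζ z‖ ^ 2) := by ring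
        _ ≤ 2 ^ |m| * (C * ‖Vm a (ξd z + ζ z) - Vm a (ξd z)‖ ^ 2) :=
            mul_le_mul_of_nonneg_left k2 (by positivity)
        _ = _ := by rw [hC₂]; ring
  have hΔ : MemLp (fun z => Vm a (ξd z + ζ z) - Vm a (ξd z)) 2 M :=
    (b5_memV ha (hξ.add hζ)).sub (b5_memV ha hξ)
  have iV : Integrable (fun z => ‖Vm a (ξd z + ζ z) - Vm a (ξd z)‖ ^ 2) M :=
    (memLp_two_iff_integrable_sq_norm hΔ.1).1 hΔ
  have i1 : Integrable (fun z => inner ℝ (A a (ξd z + ζ z)) (ζ z)) M :=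
    b5_inner (b5_memA ha (hξ.add hζ)) hζ
  have i2 : Integrable (fun z => inner ℝ (A a (ξd z)) (ζ z)) M := b5_inner (b5_memA ha hξ) hζ
  have i3 : Integrable (fun z => inner ℝ (σd z) (ζ z)) M := b5_inner hσ hζ
  have s1 : ∫ z, ‖Vm a (ξd z + ζ z) - Vm a (ξd z)‖ ^ 2 ∂M ≤
      ∫ z, C * (inner ℝ (A a (ξd z + ζ z)) (ζ z) - inner ℝ (A a (ξd z)) (ζ z)) ∂M := by
    refine integral_mono iV ((i1.sub i2).const_mul C) fun z => ?_
    have h := hC.mono a ha.toCl (ξd z + ζ z) (ξd z)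
    rw [add_sub_cancel_left, inner_sub_left] at h
    exact h
  rw [integral_const_mul, integral_sub i1 i2, h1, zero_sub] at s1
  have s2 : ∫ z, (inner ℝ (σd z) (ζ z) - inner ℝ (A a (ξd z)) (ζ z)) ∂M ≤
      ∫ z, (1 / (2 * C * C₂) * (C₂ * ‖Vm a (ξd z + ζ z) - Vm a (ξd z)‖ ^ 2) +
        C₁ * b5J m μ ν ‖σd z - A a (ξd z)‖ ‖ξd z‖) ∂M := by
    refine integral_mono (i3.sub i2) (((iV.const_mul C₂).const_mul _).add (hJ.const_mul C₁))
      fun z => ?_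
    have k1 : inner ℝ (σd z) (ζ z) - inner ℝ (A a (ξd z)) (ζ z) ≤
        ‖σd z - A a (ξd z)‖ * ‖ζ z‖ := by
      rw [← inner_sub_left]
      exact real_inner_le_norm _ _
    have k2 := hconj μ ν hμ hν ‖ξd z‖ ‖ζ z‖ ‖σd z - A a (ξd z)‖ (norm_nonneg _) (norm_nonneg _)
      (norm_nonneg _)
    rw [← haa] at k2
    have k3 := mul_le_mul_of_nonneg_left (hV2 z)
      (by positivity : (0 : ℝ) ≤ 1 / (2 * C * C₂))
    simp only [b5J]
    linarith
  rw [integral_sub i3 i2, h2, zero_sub, integral_add ((iV.const_mul C₂).const_mul _)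
    (hJ.const_mul C₁), integral_const_mul, integral_const_mul, integral_const_mul] at s2
  have hcc : 1 / (2 * C * C₂) * (C₂ * ∫ z, ‖Vm a (ξd z + ζ z) - Vm a (ξd z)‖ ^ 2 ∂M) =
      (∫ z, ‖Vm a (ξd z + ζ z) - Vm a (ξd z)‖ ^ 2 ∂M) / (2 * C) := by
    field_simp
  rw [hcc] at s2
  have s3 := mul_le_mul_of_nonneg_left s2 hC0.le
  have hcc2 : C * ((∫ z, ‖Vm a (ξd z + ζ z) - Vm a (ξd z)‖ ^ 2 ∂M) / (2 * C) +
      C₁ * ∫ z, b5J m μ ν ‖σd z - A a (ξd z)‖ ‖ξd z‖ ∂M) =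
      (∫ z, ‖Vm a (ξd z + ζ z) - Vm a (ξd z)‖ ^ 2 ∂M) / 2 +
      C * C₁ * ∫ z, b5J m μ ν ‖σd z - A a (ξd z)‖ ‖ξd z‖ ∂M := by
    field_simp
  rw [hcc2] at s3
  linarith

end aux

section comm

variable {E : Type*} [NormedAddCommGroup E] [NormedSpace ℝ E]

private theorem b5_right (z : Pt) : MeasurePreserving (fun g : Pt => mul g z) volume volume := by
  have h0 : MeasurePreserving (fun g : ℝ => -g) volume volume := Measure.measurePreserving_neg _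
  have h1 : MeasurePreserving (fun g : Pt => -g) volume volume := h0.prod (h0.prod h0)
  have h2 := h1.comp ((mp_tau (inv z)).comp h1)
  have e : ((fun g : Pt => -g) ∘ (tau (inv z) 1 ∘ fun g : Pt => -g)) = fun g : Pt => mul g z := by
    funext g
    simp only [Function.comp_apply, tau, mul, inv, dil]
    ext <;> simp <;> ring
  rw [e] at h2
  exact h2

private theorem b5_int {δ : ℝ} {ρ : Pt → ℝ} (hρ : Ker δ ρ) {B B' : Set Pt}
    (hs : ∀ g : Pt, ‖g‖ ≤ δ → ∀ z ∈ B, mul g z ∈ B') (hB' : MeasurableSet B') {f : Pt → E}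
    (hf : IntegrableOn f B') {z : Pt} (hz : z ∈ B) :
    Integrable (fun g => ρ g • f (mul g z)) := by
  have h1 : Integrable (B'.indicator f) := (integrable_indicator_iff hB').2 hf
  have h2 : Integrable (fun g => B'.indicator f (mul g z)) :=
    (b5_right z).integrable_comp_of_integrable h1
  have hcs : HasCompactSupport ρ :=
    HasCompactSupport.of_support_subset_isCompact (isCompact_closedBall (0 : Pt) δ)
      ((subset_tsupport ρ).trans hρ.supp)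
  obtain ⟨K, hK⟩ := hρ.smooth.continuous.bounded_above_of_compact_support hcs
  have h3 : Integrable (fun g => ρ g • B'.indicator f (mul g z)) :=
    h2.bdd_smul K hρ.smooth.continuous.aestronglyMeasurable (Filter.Eventually.of_forall hK)
  refine h3.congr (Filter.Eventually.of_forall fun g => ?_)
  by_cases hg : ρ g = 0
  · simp only [hg, zero_smul]
  · have h4 : g ∈ Metric.closedBall (0 : Pt) δ := hρ.supp (subset_tsupport ρ hg)
    have h5 : mul g z ∈ B' := hs g (by simpa using h4) z hz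
    simp only [Set.indicator_of_mem h5]

end comm

private theorem b5_comp {W : Type*} [NormedAddCommGroup W] [InnerProductSpace ℝ W]
    [CompleteSpace W] {δ : ℝ} {ρ : Pt → ℝ} (hρ : Ker δ ρ) {B B' : Set Pt}
    (hs : ∀ g : Pt, ‖g‖ ≤ δ → ∀ z ∈ B, mul g z ∈ B') (hB' : MeasurableSet B') {ξ : Pt → V2 W}
    (hf : IntegrableOn ξ B') {z : Pt} (hz : z ∈ B) (i : Fin 2) :
    (lav ρ ξ z) i = lav ρ (fun w => ξ w i) z := by
  have h := b5_int hρ hs hB' hf hz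
  have h1 := (PiLp.proj (𝕜 := ℝ) 2 (fun _ : Fin 2 => W) i).integral_comp_comm h
  rw [lav, lav]
  have h2 : (∫ g, ρ g • ξ (mul g z)) i =
      (PiLp.proj (𝕜 := ℝ) 2 (fun _ : Fin 2 => W) i) (∫ g, ρ g • ξ (mul g z)) := rfl
  rw [h2, ← h1]
  rfl

variable {W : Type*} [NormedAddCommGroup W] [InnerProductSpace ℝ W] [FiniteDimensional ℝ W]

theorem approximation {m : ℝ} (hm : -1 < m) {B B' : Set Pt} (hB : IsOpen B) (hB' : IsOpen B')
    (hBb : Bornology.IsBounded B') {δ₀ : ℝ} (hδ₀ : 0 < δ₀)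
    (hs : ∀ g : Pt, ‖g‖ ≤ δ₀ → ∀ z ∈ B, mul g z ∈ B') {u : Pt → W} {ξ : Pt → V2 W}
    (hu : IntegrableOn u B') (hξ : MemLp ξ (ENNReal.ofReal (m + 2)) (volume.restrict B'))
    (gx : WD vX B' u (fun z => ξ z 0)) (gy : WD vY B' u (fun z => ξ z 1))
    (hsol : Sol0 B' (fun z => A (fun s => s ^ m) (ξ z))) {ε : ℝ≥0∞} (hε : 0 < ε) :
    ∃ (a : ℝ → ℝ) (u' : Pt → W) (ξ' : Pt → V2 W), Nice m a ∧ SolU a B u' ξ' ∧
      MemLp (fun z => Vm a (ξ' z)) 2 (volume.restrict B) ∧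
      eLpNorm (fun z => Vm a (ξ' z) - Vm (fun s => s ^ m) (ξ z)) 2 (volume.restrict B) ≤ ε := by
  have hcW : CompleteSpace W := FiniteDimensional.complete ℝ W
  have hm1 : 0 < m + 1 := by linarith
  have hm2 : 0 < m + 2 := by linarith
  have hq : 0 < (m + 2) / (m + 1) := div_pos hm2 hm1
  have hq1' : 1 ≤ (m + 2) / (m + 1) := by rw [one_le_div hm1]; linarith
  have hp1 : (1 : ℝ≥0∞) ≤ ENNReal.ofReal (m + 2) := ENNReal.one_le_ofReal.2 (by linarith)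
  have hq1 : (1 : ℝ≥0∞) ≤ ENNReal.ofReal ((m + 2) / (m + 1)) := ENNReal.one_le_ofReal.2 hq1'
  have hmB := hB.measurableSet
  have hmB' := hB'.measurableSet
  have hBB' : B ⊆ B' := by
    intro z hz
    have h := hs 0 (by simpa using hδ₀.le) z hz
    have h0 : mul (0 : Pt) z = z := by
      simp only [mul]
      ext <;> simp
    rwa [h0] at h
  have hvB' : volume B' < ⊤ := hBb.measure_lt_top
  have hvB : volume B < ⊤ := (measure_mono hBB').trans_lt hvB'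
  have hfB' : IsFiniteMeasure (volume.restrict B') := ⟨by rwa [Measure.restrict_apply_univ]⟩
  have hfB : IsFiniteMeasure (volume.restrict B) := ⟨by rwa [Measure.restrict_apply_univ]⟩
  obtain ⟨vB, hvBdef⟩ : ∃ vB : ℝ, vB = (volume.restrict B).real Set.univ := ⟨_, rfl⟩
  have hvB0 : 0 ≤ vB := by rw [hvBdef]; exact measureReal_nonneg
  -- the real accuracy
  obtain ⟨ε₁, hε₁, hε₁'⟩ : ∃ ε₁ : ℝ, 0 < ε₁ ∧ ENNReal.ofReal ε₁ ≤ ε := by
    refine ⟨(min ε 1).toReal, ?_, ?_⟩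
    · exact ENNReal.toReal_pos (lt_min hε one_pos).ne' (ne_top_of_le_ne_top ENNReal.one_ne_top (min_le_right _ _))
    · rw [ENNReal.ofReal_toReal (ne_top_of_le_ne_top ENNReal.one_ne_top (min_le_right _ _))]
      exact min_le_left _ _
  obtain ⟨θ, hθ⟩ : ∃ θ : ℝ, θ = (ε₁ / 3) ^ 2 := ⟨_, rfl⟩
  have hθ0 : 0 < θ := by rw [hθ]; positivity
  -- the functions
  obtain ⟨σ, hσdef⟩ : ∃ σ : Pt → V2 W, σ = fun z => A (fun s => s ^ m) (ξ z) := ⟨_, rfl⟩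
  have hσ : MemLp σ (ENNReal.ofReal ((m + 2) / (m + 1))) (volume.restrict B') := by
    rw [hσdef]
    exact memLp_A0 hm hξ
  have hξI : IntegrableOn ξ B' := hξ.integrable hp1
  have hσI : IntegrableOn σ B' := hσ.integrable hq1
  have hξB : MemLp ξ (ENNReal.ofReal (m + 2)) (volume.restrict B) :=
    hξ.mono_measure (Measure.restrict_mono hBB' le_rfl)
  have hσB : MemLp σ (ENNReal.ofReal ((m + 2) / (m + 1))) (volume.restrict B) :=
    hσ.mono_measure (Measure.restrict_mono hBB' le_rfl)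
  -- constants
  obtain ⟨K₁, hK₁, hcore⟩ := b5_core (E := V2 W) (M := volume.restrict B) hm
  obtain ⟨N, hNdef⟩ : ∃ N : ℝ, N = (eLpNorm ξ (ENNReal.ofReal (m + 2)) (volume.restrict B)).toReal + 1 :=
    ⟨_, rfl⟩
  have hN0 : 0 ≤ N := by rw [hNdef]; positivity
  have hNp : 0 ≤ N ^ (m + 2) := Real.rpow_nonneg hN0 _
  obtain ⟨η, hη⟩ : ∃ η : ℝ, η = θ / (4 * (K₁ * N ^ (m + 2) + 1)) := ⟨_, rfl⟩
  have hη0 : 0 < η := by rw [hη]; positivity
  have hηN : K₁ * (η * N ^ (m + 2)) ≤ θ / 4 := by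
    have h1 : K₁ * (η * N ^ (m + 2)) = θ / 4 * ((K₁ * N ^ (m + 2)) / (K₁ * N ^ (m + 2) + 1)) := by
      rw [hη]
      field_simp
    rw [h1]
    have h2 : (K₁ * N ^ (m + 2)) / (K₁ * N ^ (m + 2) + 1) ≤ 1 :=
      (div_le_one (by positivity)).2 (by linarith)
    calc θ / 4 * ((K₁ * N ^ (m + 2)) / (K₁ * N ^ (m + 2) + 1)) ≤ θ / 4 * 1 :=
          mul_le_mul_of_nonneg_left h2 (by positivity)
      _ = θ / 4 := mul_one _
  obtain ⟨C, hC, hJ⟩ := b5_J hm hη0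
  obtain ⟨t, ht0, ht1, ht⟩ := b5_small (K := K₁ * C) (q := (m + 2) / (m + 1)) (θ := θ / 4)
    (mul_nonneg hK₁ hC) hq (by positivity)
  have ht2 := ht t ht0.le le_rfl
  -- the kernel
  obtain ⟨δ₃, hδ₃, hV0⟩ := tendsto_V0 hm hξB (ε := ENNReal.ofReal (ε₁ / 3))
    (ENNReal.ofReal_pos.2 (by positivity))
  obtain ⟨δ₄, hδ₄, hA0⟩ := tendsto_A0 hm hξB (ε := ENNReal.ofReal (t / 2))
    (ENNReal.ofReal_pos.2 (by positivity))
  obtain ⟨δa, hδa, hδa', hla⟩ := lav_tendsto hmB hmB' hδ₀ hs hp1 ENNReal.ofReal_ne_top hξ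
    (ε := min δ₃ (min δ₄ 1)) (lt_min hδ₃ (lt_min hδ₄ one_pos))
  obtain ⟨δb, hδb, hδb', hlb⟩ := lav_tendsto hmB hmB' hδ₀ hs hq1 ENNReal.ofReal_ne_top hσ
    (ε := ENNReal.ofReal (t / 2)) (ENNReal.ofReal_pos.2 (by positivity))
  obtain ⟨δ, hδ⟩ : ∃ δ, δ = min δa δb := ⟨_, rfl⟩
  have hδ0 : 0 < δ := by rw [hδ]; exact lt_min hδa hδb
  obtain ⟨ρ, hρ⟩ := exists_ker hδ0
  have hsδ : ∀ g : Pt, ‖g‖ ≤ δ → ∀ z ∈ B, mul g z ∈ B' := fun g hg z hz =>
    hs g (hg.trans ((by rw [hδ]; exact min_le_left _ _ : δ ≤ δa).trans hδa')) z hz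
  obtain ⟨hξdp, hξd⟩ := hla δ hδ0 (by rw [hδ]; exact min_le_left _ _) ρ hρ
  obtain ⟨hσdq, hσd⟩ := hlb δ hδ0 (by rw [hδ]; exact min_le_right _ _) ρ hρ
  obtain ⟨ξd, hξddef⟩ : ∃ ξd, ξd = lav ρ ξ := ⟨_, rfl⟩
  obtain ⟨σd, hσddef⟩ : ∃ σd, σd = lav ρ σ := ⟨_, rfl⟩
  obtain ⟨ud, huddef⟩ : ∃ ud, ud = lav ρ u := ⟨_, rfl⟩
  obtain ⟨Mξ, hMξ⟩ := lav_bdd hρ hsδ hmB' hξI
  obtain ⟨Mσ, hMσ⟩ := lav_bdd hρ hsδ hmB' hσI
  obtain ⟨Mu, hMu⟩ := lav_bdd hρ hsδ hmB' hu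
  have hcu := lav_cont hB hρ hsδ hu
  rw [← hξddef] at hξdp hξd hMξ
  rw [← hσddef] at hσdq hσd hMσ
  rw [← huddef] at hMu hcu
  have hV3 := hV0 ξd hξdp (hξd.trans (min_le_left _ _))
  have hA3 := hA0 ξd hξdp (hξd.trans ((min_le_right _ _).trans (min_le_left _ _)))
  have hξd1 := hξd.trans ((min_le_right _ _).trans (min_le_right _ _))
  -- bounds of integrals
  have hI2 : ∫ z in B, ‖ξd z‖ ^ (m + 2) ≤ N ^ (m + 2) := by
    rw [← b5_le hm2 hN0 hξdp]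
    have e : ξd = (fun z => ξd z - ξ z) + ξ := by
      funext z
      simp
    rw [e]
    refine (eLpNorm_add_le (hξdp.1.sub hξB.1) hξB.1 hp1).trans ?_
    rw [hNdef, ENNReal.ofReal_add ENNReal.toReal_nonneg zero_le_one, ENNReal.ofReal_toReal hξB.2.ne,
      ENNReal.ofReal_one, add_comm]
    exact add_le_add le_rfl hξd1
  have hA0d : MemLp (fun z => A (fun s => s ^ m) (ξd z)) (ENNReal.ofReal ((m + 2) / (m + 1)))
      (volume.restrict B) := memLp_A0 hm hξdp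
  have hz0 : MemLp (fun z => σd z - A (fun s => s ^ m) (ξd z))
      (ENNReal.ofReal ((m + 2) / (m + 1))) (volume.restrict B) := hσdq.sub hA0d
  have hI1 : ∫ z in B, ‖σd z - A (fun s => s ^ m) (ξd z)‖ ^ ((m + 2) / (m + 1)) ≤
      t ^ ((m + 2) / (m + 1)) := by
    rw [← b5_le hq ht0.le hz0]
    have e : (fun z => σd z - A (fun s => s ^ m) (ξd z)) =
        (fun z => σd z - σ z) - (fun z => A (fun s => s ^ m) (ξd z) - A (fun s => s ^ m) (ξ z)) := by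
      funext z
      simp only [Pi.sub_apply, hσdef]
      abel
    rw [e]
    refine (eLpNorm_sub_le (hσdq.1.sub hσB.1) (hA0d.1.sub (memLp_A0 hm hξB).1) hq1).trans ?_
    refine (add_le_add hσd hA3).trans (le_of_eq ?_)
    rw [← ENNReal.ofReal_add (by positivity) (by positivity)]
    congr 1
    ring
  -- second set of constants
  obtain ⟨M, hMdef⟩ : ∃ M : ℝ, M = |Mσ| + |Mξ| ^ (m + 1) := ⟨_, rfl⟩
  have hM0 : 0 ≤ M := by rw [hMdef]; positivity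
  have hzM : ∀ z ∈ B, ‖σd z - A (fun s => s ^ m) (ξd z)‖ ≤ M := by
    intro z hz
    have h1 : ‖A (fun s => s ^ m) (ξd z)‖ ≤ |Mξ| ^ (m + 1) := by
      rw [A, norm_smul, Real.norm_of_nonneg (Real.rpow_nonneg (norm_nonneg _) _)]
      rcases (norm_nonneg (ξd z)).eq_or_lt with h0 | h0
      · rw [← h0, mul_zero]
        positivity
      · rw [← Real.rpow_add_one h0.ne']
        exact Real.rpow_le_rpow h0.le ((hMξ z hz).trans (le_abs_self _)) hm1.le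
    rw [hMdef]
    exact (norm_sub_le _ _).trans (add_le_add ((hMσ z hz).trans (le_abs_self _)) h1)
  obtain ⟨e₁, he₁0, he₁1, he₁⟩ := b5_small (K := K₁ * C * vB) (q := (m + 2) / (m + 1)) (θ := θ / 8)
    (by positivity) hq (by positivity)
  obtain ⟨e₂, he₂0, he₂1, he₂⟩ := b5_small (K := vB) (q := 2) (θ := θ) hvB0 two_pos hθ0
  obtain ⟨e, hedef⟩ : ∃ e, e = min e₁ e₂ := ⟨_, rfl⟩
  have he0 : 0 < e := by rw [hedef]; exact lt_min he₁0 he₂0
  have hele₁ : e ≤ e₁ := by rw [hedef]; exact min_le_left _ _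
  have hele₂ : e ≤ e₂ := by rw [hedef]; exact min_le_right _ _
  have he1 : e ≤ 1 := hele₁.trans he₁1
  have hee₁ := he₁ e he0.le hele₁
  have hee₂ := he₂ e he0.le hele₂
  obtain ⟨δ₅, hδ₅, hap⟩ := ap_conv (E := V2 W) hm Mξ he0
  obtain ⟨r₁, hr₁0, hr₁1, hr₁⟩ := b5_small (K := K₁ * η * vB) (q := m + 2) (θ := θ / 8)
    (by positivity) hm2 (by positivity)
  obtain ⟨r₂, hr₂0, hr₂1, hr₂⟩ := b5_small (K := K₁ * (M + 1) ^ 2 * vB) (q := 2) (θ := θ / 8)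
    (by positivity) two_pos (by positivity)
  obtain ⟨r₃, hr₃0, hr₃1, hr₃⟩ := b5_small (K := 1) (q := 2) (θ := δ₅ / 2)
    zero_le_one two_pos (by positivity)
  obtain ⟨r, hrdef⟩ : ∃ r, r = min r₁ (min r₂ r₃) := ⟨_, rfl⟩
  have hr0 : 0 < r := by rw [hrdef]; exact lt_min hr₁0 (lt_min hr₂0 hr₃0)
  have hrr₁ := hr₁ r hr0.le (by rw [hrdef]; exact min_le_left _ _)
  have hrr₂ := hr₂ r hr0.le (by rw [hrdef]; exact (min_le_right _ _).trans (min_le_left _ _))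
  have hrr₃ := hr₃ r hr0.le (by rw [hrdef]; exact (min_le_right _ _).trans (min_le_right _ _))
  simp only [Real.rpow_ofNat, one_mul] at hee₂ hrr₂ hrr₃
  have hr2 : 0 < r ^ 2 := by positivity
  have hrδ : r ^ 2 < δ₅ := by linarith
  obtain ⟨a, hadef⟩ : ∃ a, a = ap m (r ^ 2) (r ^ 2) := ⟨_, rfl⟩
  have ha : Nice m a := by rw [hadef]; exact nice_ap m hr2 hr2
  have happ : ∀ z ∈ B, ‖A a (ξd z) - A (fun s => s ^ m) (ξd z)‖ ≤ e ∧
      ‖Vm a (ξd z) - Vm (fun s => s ^ m) (ξd z)‖ ≤ e := by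
    intro z hz
    rw [hadef]
    exact hap _ _ hr2 hrδ hr2 hrδ (ξd z) (hMξ z hz)
  -- square integrability
  have hξd2 : MemLp ξd 2 (volume.restrict B) :=
    MemLp.of_bound hξdp.1 Mξ ((ae_restrict_iff' hmB).2 (Filter.Eventually.of_forall hMξ))
  have hσd2 : MemLp σd 2 (volume.restrict B) :=
    MemLp.of_bound hσdq.1 Mσ ((ae_restrict_iff' hmB).2 (Filter.Eventually.of_forall hMσ))
  have hud2 : MemLp ud 2 (volume.restrict B) :=
    MemLp.of_bound (hcu.aestronglyMeasurable hmB) Mu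
      ((ae_restrict_iff' hmB).2 (Filter.Eventually.of_forall hMu))
  obtain ⟨w, ζ, hw, hζ, gwx, gwy, hsolA, hort, hσort⟩ := exists_approx hm ha hB
    (hBb.subset hBB') hξd2
  have hσsol : Sol0 B σd := by
    rw [hσddef, hσdef]
    refine lav_Sol0 hB hB' hρ hsδ ?_ hsol
    rw [hσdef] at hσI
    exact hσI.locallyIntegrableOn
  have hort2 := hσort σd hσd2 hσsol
  -- the function J
  obtain ⟨J, hJdef⟩ : ∃ J : Pt → ℝ, J = fun z =>
      b5J m (r ^ 2) (r ^ 2) ‖σd z - A a (ξd z)‖ ‖ξd z‖ := ⟨_, rfl⟩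
  obtain ⟨R, hRdef⟩ : ∃ R : Pt → ℝ, R = fun z =>
      C * (‖σd z - A (fun s => s ^ m) (ξd z)‖ ^ ((m + 2) / (m + 1)) + e ^ ((m + 2) / (m + 1))) +
        η * (r ^ (m + 2) + ‖ξd z‖ ^ (m + 2)) + r ^ 2 * (M + 1) ^ 2 := ⟨_, rfl⟩
  have hJ0 : ∀ z, 0 ≤ J z := by
    intro z
    rw [hJdef]
    simp only [b5J]
    split_ifs <;> positivity
  have hJR : ∀ z ∈ B, J z ≤ R z := by
    intro z hz
    rw [hJdef, hRdef]
    refine hJ r e _ _ _ M hr0.le he0.le he1 (norm_nonneg _) (norm_nonneg _) ?_ (norm_nonneg _)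
      (hzM z hz)
    have e1 : σd z - A a (ξd z) = (σd z - A (fun s => s ^ m) (ξd z)) -
        (A a (ξd z) - A (fun s => s ^ m) (ξd z)) := by abel
    rw [e1]
    exact (norm_sub_le _ _).trans (add_le_add le_rfl (happ z hz).1)
  have iI1 : Integrable (fun z => ‖σd z - A (fun s => s ^ m) (ξd z)‖ ^ ((m + 2) / (m + 1)))
      (volume.restrict B) := by
    have h := hz0.integrable_norm_rpow (by rw [Ne, ENNReal.ofReal_eq_zero]; linarith)
      ENNReal.ofReal_ne_top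
    rw [ENNReal.toReal_ofReal hq.le] at h
    exact h
  have iI2 : Integrable (fun z => ‖ξd z‖ ^ (m + 2)) (volume.restrict B) := by
    have h := hξdp.integrable_norm_rpow (by rw [Ne, ENNReal.ofReal_eq_zero]; linarith)
      ENNReal.ofReal_ne_top
    rw [ENNReal.toReal_ofReal hm2.le] at h
    exact h
  have iR1 : Integrable (fun z => C * (‖σd z - A (fun s => s ^ m) (ξd z)‖ ^ ((m + 2) / (m + 1)) +
      e ^ ((m + 2) / (m + 1)))) (volume.restrict B) := (iI1.add (integrable_const _)).const_mul C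
  have iR2 : Integrable (fun z => η * (r ^ (m + 2) + ‖ξd z‖ ^ (m + 2))) (volume.restrict B) :=
    ((integrable_const _).add iI2).const_mul η
  have iR12 : Integrable (fun z => C * (‖σd z - A (fun s => s ^ m) (ξd z)‖ ^ ((m + 2) / (m + 1)) +
      e ^ ((m + 2) / (m + 1))) + η * (r ^ (m + 2) + ‖ξd z‖ ^ (m + 2))) (volume.restrict B) :=
    iR1.add iR2
  have iR : Integrable R (volume.restrict B) := by
    rw [hRdef]
    exact iR12.add (integrable_const _)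
  have mz : AEStronglyMeasurable (fun z => σd z - A a (ξd z)) (volume.restrict B) :=
    hσd2.1.sub (b5_memA ha hξd2).1
  have mJ : AEStronglyMeasurable J (volume.restrict B) := by
    rw [hJdef]
    simp only [b5J]
    refine ((mz.norm.aemeasurable.pow_const _).add (AEMeasurable.mul ?_
      (mz.norm.aemeasurable.pow_const 2))).aestronglyMeasurable
    refine aemeasurable_const.add ?_
    split_ifs
    · exact (aemeasurable_const.add hξd2.1.norm.aemeasurable).pow_const _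
    · exact aemeasurable_const
  have iJ : Integrable J (volume.restrict B) := by
    refine iR.mono' mJ ((ae_restrict_iff' hmB).2 (Filter.Eventually.of_forall fun z hz => ?_))
    rw [Real.norm_of_nonneg (hJ0 z)]
    exact hJR z hz
  have hJint : K₁ * ∫ z in B, J z ≤ θ := by
    have h1 : ∫ z in B, J z ≤ ∫ z in B, R z := setIntegral_mono_on iJ iR hmB hJR
    have h2 : ∫ z in B, R z = C * ((∫ z in B, ‖σd z - A (fun s => s ^ m) (ξd z)‖ ^ ((m + 2) / (m + 1))) +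
        vB * e ^ ((m + 2) / (m + 1))) + η * (vB * r ^ (m + 2) + ∫ z in B, ‖ξd z‖ ^ (m + 2)) +
        vB * (r ^ 2 * (M + 1) ^ 2) := by
      rw [hRdef]
      beta_reduce
      rw [integral_add iR12 (integrable_const _), integral_add iR1 iR2,
        integral_const_mul, integral_const_mul, integral_add iI1 (integrable_const _),
        integral_add (integrable_const _) iI2, integral_const, integral_const, integral_const,
        smul_eq_mul, smul_eq_mul, smul_eq_mul, ← hvBdef]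
    have h3 : C * (∫ z in B, ‖σd z - A (fun s => s ^ m) (ξd z)‖ ^ ((m + 2) / (m + 1))) ≤
        C * t ^ ((m + 2) / (m + 1)) := mul_le_mul_of_nonneg_left hI1 hC
    have h4 : η * (∫ z in B, ‖ξd z‖ ^ (m + 2)) ≤ η * N ^ (m + 2) :=
      mul_le_mul_of_nonneg_left hI2 hη0.le
    have h5 : ∫ z in B, J z ≤ C * t ^ ((m + 2) / (m + 1)) + C * vB * e ^ ((m + 2) / (m + 1)) +
        η * vB * r ^ (m + 2) + η * N ^ (m + 2) + (M + 1) ^ 2 * vB * r ^ 2 := by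
      rw [h2] at h1
      linarith
    have h6 := mul_le_mul_of_nonneg_left h5 hK₁
    linarith
  have hfirst := hcore (r ^ 2) (r ^ 2) hr2 hr2 ξd ζ σd hξd2 hζ hσd2
    (by rw [hJdef, hadef] at iJ; exact iJ) (by rw [← hadef]; exact hort) hort2
  rw [← hadef] at hfirst
  have hJe : (∫ z in B, b5J m (r ^ 2) (r ^ 2) ‖σd z - A a (ξd z)‖ ‖ξd z‖) = ∫ z in B, J z := by
    rw [hJdef]
  rw [hJe] at hfirst
  have hfirst2 := hfirst.trans hJint
  rw [hθ] at hfirst2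
  have hVd : MemLp (fun z => Vm a (ξd z)) 2 (volume.restrict B) := b5_memV ha hξd2
  have hV' : MemLp (fun z => Vm a (ξd z + ζ z)) 2 (volume.restrict B) :=
    b5_memV ha (hξd2.add hζ)
  have hV0d : MemLp (fun z => Vm (fun s => s ^ m) (ξd z)) 2 (volume.restrict B) := memLp_V0 hm hξdp
  have hV0x : MemLp (fun z => Vm (fun s => s ^ m) (ξ z)) 2 (volume.restrict B) := memLp_V0 hm hξB
  have hn1 : eLpNorm (fun z => Vm a (ξd z + ζ z) - Vm a (ξd z)) 2 (volume.restrict B) ≤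
      ENNReal.ofReal (ε₁ / 3) := b5_le2 (by positivity) (hV'.sub hVd) hfirst2
  have hn2 : eLpNorm (fun z => Vm a (ξd z) - Vm (fun s => s ^ m) (ξd z)) 2 (volume.restrict B) ≤
      ENNReal.ofReal (ε₁ / 3) := by
    refine b5_le2 (by positivity) (hVd.sub hV0d) ?_
    have h1 : ∫ z in B, ‖Vm a (ξd z) - Vm (fun s => s ^ m) (ξd z)‖ ^ 2 ≤ ∫ z in B, e ^ 2 := by
      refine setIntegral_mono_on ?_ (integrable_const _) hmB fun z hz => ?_
      · exact (memLp_two_iff_integrable_sq_norm (hVd.sub hV0d).1).1 (hVd.sub hV0d)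
      · exact pow_le_pow_left₀ (norm_nonneg _) (happ z hz).2 2
    rw [integral_const, smul_eq_mul, ← hvBdef] at h1
    rw [← hθ]
    exact h1.trans hee₂
  refine ⟨a, fun z => ud z + w z, fun z => ξd z + ζ z, ha, ?_, hV', ?_⟩
  · refine ⟨L2l.of_memLp (hud2.add hw), L2l.of_memLp (hξd2.add hζ), ?_, ?_, hsolA⟩
    · have h1 := lav_WD hB hB' hρ hsδ (Or.inl rfl) gx
      have h2 : WD vX B ud (fun z => ξd z 0) := by
        rw [huddef, hξddef]
        refine h1.congr hB (Filter.EventuallyEq.refl _ _) ?_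
        refine (ae_restrict_iff' hmB).2 (Filter.Eventually.of_forall fun z hz => ?_)
        exact (b5_comp hρ hsδ hmB' hξI hz 0).symm
      exact h2.add gwx
    · have h1 := lav_WD hB hB' hρ hsδ (Or.inr (Or.inl rfl)) gy
      have h2 : WD vY B ud (fun z => ξd z 1) := by
        rw [huddef, hξddef]
        refine h1.congr hB (Filter.EventuallyEq.refl _ _) ?_
        refine (ae_restrict_iff' hmB).2 (Filter.Eventually.of_forall fun z hz => ?_)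
        exact (b5_comp hρ hsδ hmB' hξI hz 1).symm
      exact h2.add gwy
  · have e1 : (fun z => Vm a (ξd z + ζ z) - Vm (fun s => s ^ m) (ξ z)) =
        (fun z => Vm a (ξd z + ζ z) - Vm a (ξd z)) +
        ((fun z => Vm a (ξd z) - Vm (fun s => s ^ m) (ξd z)) +
          fun z => Vm (fun s => s ^ m) (ξd z) - Vm (fun s => s ^ m) (ξ z)) := by
      funext z
      simp only [Pi.add_apply]
      abel
    rw [e1]
    refine (eLpNorm_add_le (hV'.sub hVd).1 ((hVd.sub hV0d).1.add (hV0d.sub hV0x).1)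
      (by norm_num)).trans ?_
    refine (add_le_add hn1 ((eLpNorm_add_le (hVd.sub hV0d).1 (hV0d.sub hV0x).1
      (by norm_num)).trans (add_le_add hn2 hV3))).trans ?_
    rw [← ENNReal.ofReal_add (by positivity) (by positivity),
      ← ENNReal.ofReal_add (by positivity) (by positivity)]
    refine le_trans (le_of_eq ?_) hε₁'
    congr 1
    ring

end PLH
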