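import Pool.Agent.Lib.PLH.T7

/-!
MODULE T8 (250 lines). The maps `tau z₀ r = z₀ · δ_r`.

`tau z₀ r` is the affine bijection `(x,y,t) ↦ (x₀+r x, y₀+r y, t₀+r² t+(x₀ r y - y₀ r x)/2)` with
inverse `tauI`; its linear part has determinant `r⁴` (shear after a diagonal map):
`map_linearMap_addHaar_eq_smul_addHaar`, or Fubini in the three variables.
`der_tauX`: the derivative of `tau` at `z` maps `vX.v z = (1,0,-y/2)` to
`(r, 0, -r² y/2 - y₀ r/2) = r vX.v (tau z)` (second coordinate of `tau z` is `y₀ + r y`); same for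
`Y`; for `T`: `(0,0,r²)`.
`WD.tauX`: for a test function `φ` on `tau⁻¹ U` put `φ' = φ∘tauI`, a test function on `U`:
`der vX φ z = r der vX φ' (tau z)`; change variables.
-/

open MeasureTheory Set Filter Topology
open scoped ContDiff ENNReal

namespace PLH

/-- The inverse of `tau z₀ r`. -/
noncomputable def tauI (z₀ : Pt) (r : ℝ) (z : Pt) : Pt := dil r⁻¹ (mul (inv z₀) z)

theorem tau_tauI (z₀ : Pt) {r : ℝ} (hr : 0 < r) (z : Pt) : tau z₀ r (tauI z₀ r z) = z := by
  have hr' : r ≠ 0 := hr.ne'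
  unfold tau tauI mul dil inv
  refine Prod.ext ?_ (Prod.ext ?_ ?_) <;> simp only <;> field_simp <;> ring

theorem tauI_tau (z₀ : Pt) {r : ℝ} (hr : 0 < r) (z : Pt) : tauI z₀ r (tau z₀ r z) = z := by
  have hr' : r ≠ 0 := hr.ne'
  unfold tau tauI mul dil inv
  refine Prod.ext ?_ (Prod.ext ?_ ?_) <;> simp only <;> field_simp <;> ring

theorem smooth_tau (z₀ : Pt) (r : ℝ) : ContDiff ℝ ∞ (tau z₀ r) := by
  unfold tau mul dil
  fun_prop

theorem smooth_tauI (z₀ : Pt) (r : ℝ) : ContDiff ℝ ∞ (tauI z₀ r) := by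
  unfold tauI mul dil
  fun_prop

/-- `tau z₀ r` as a homeomorphism. -/
noncomputable def tauH (z₀ : Pt) {r : ℝ} (hr : 0 < r) : Pt ≃ₜ Pt where
  toFun := tau z₀ r
  invFun := tauI z₀ r
  left_inv := tauI_tau z₀ hr
  right_inv := tau_tauI z₀ hr
  continuous_toFun := (smooth_tau z₀ r).continuous
  continuous_invFun := (smooth_tauI z₀ r).continuous

private theorem mp1 (a b c d : ℝ) :
    MeasurePreserving (fun p : ℝ × ℝ => (a + p.1, b + p.2 + (c * p.1 - d) / 2))
      (volume.prod volume) (volume.prod volume) := by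
  refine MeasurePreserving.skew_product (g := fun x y => b + y + (c * x - d) / 2)
    (measurePreserving_add_left volume a) ?_ ?_
  · exact Measurable.add (by fun_prop) (by fun_prop)
  · refine Filter.Eventually.of_forall fun x => ?_
    have h := (measurePreserving_add_left (volume : Measure ℝ) (b + (c * x - d) / 2)).map_eq
    have e : (fun y : ℝ => b + y + (c * x - d) / 2) = fun y => (b + (c * x - d) / 2) + y := by
      funext y; ring
    rw [e]; exact h

theorem mp_tau (z₀ : Pt) : MeasurePreserving (tau z₀ 1) volume volume := by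
  have e : tau z₀ 1 = fun p : ℝ × (ℝ × ℝ) => (z₀.1 + p.1,
      (fun x (q : ℝ × ℝ) => (z₀.2.1 + q.1, z₀.2.2 + q.2 + (z₀.1 * q.1 - z₀.2.1 * x) / 2))
        p.1 p.2) := by
    funext p
    unfold tau mul dil
    refine Prod.ext ?_ (Prod.ext ?_ ?_) <;> simp
  rw [e]
  refine MeasurePreserving.skew_product
    (g := fun x (q : ℝ × ℝ) => (z₀.2.1 + q.1, z₀.2.2 + q.2 + (z₀.1 * q.1 - z₀.2.1 * x) / 2))
    (measurePreserving_add_left volume z₀.1) ?_ ?_
  · simp only [Function.uncurry_def]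
    fun_prop
  · refine Filter.Eventually.of_forall fun x => ?_
    exact (mp1 z₀.2.1 z₀.2.2 z₀.1 (z₀.2.1 * x)).map_eq

private theorem map_dil {r : ℝ} (hr : 0 < r) :
    (volume : Measure Pt).map (dil r) = ENNReal.ofReal (r ^ 4)⁻¹ • (volume : Measure Pt) := by
  have h1 : ∀ a : ℝ, 0 < a → (volume : Measure ℝ).map (fun x => a * x) =
      ENNReal.ofReal a⁻¹ • (volume : Measure ℝ) := by
    intro a ha
    have := Real.map_volume_mul_left ha.ne'
    rwa [abs_of_pos (inv_pos.mpr ha)] at this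
  have e : dil r = Prod.map (fun x => r * x) (Prod.map (fun x => r * x) (fun x => r ^ 2 * x)) := by
    funext z
    rfl
  rw [e, Measure.volume_eq_prod, Measure.volume_eq_prod, ← Measure.map_prod_map _ _
    (by fun_prop) (by fun_prop), ← Measure.map_prod_map _ _ (by fun_prop) (by fun_prop),
    h1 r hr, h1 (r ^ 2) (by positivity)]
  simp only [Measure.prod_smul_left, Measure.prod_smul_right, smul_smul]
  rw [← ENNReal.ofReal_mul (by positivity), ← ENNReal.ofReal_mul (by positivity)]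
  congr 2
  field_simp

theorem map_tau (z₀ : Pt) {r : ℝ} (hr : 0 < r) :
    (volume : Measure Pt).map (tau z₀ r) = ENNReal.ofReal (r ^ 4)⁻¹ • (volume : Measure Pt) := by
  have hd : Measurable (dil r) := by unfold dil; fun_prop
  have e : tau z₀ r = tau z₀ 1 ∘ dil r := by
    funext z
    simp [tau, dil]
  rw [e, ← Measure.map_map (mp_tau z₀).measurable hd, map_dil hr, Measure.map_smul,
    (mp_tau z₀).map_eq]

private theorem emb_tau (z₀ : Pt) {r : ℝ} (hr : 0 < r) : MeasurableEmbedding (tau z₀ r) :=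
  (tauH z₀ hr).measurableEmbedding

variable {E : Type*} [NormedAddCommGroup E] [NormedSpace ℝ E] [CompleteSpace E]

theorem setIntegral_tau (z₀ : Pt) {r : ℝ} (hr : 0 < r) {S : Set Pt} (hS : MeasurableSet S)
    (f : Pt → E) :
    ∫ z in tau z₀ r ⁻¹' S, f (tau z₀ r z) = (r ^ 4)⁻¹ • ∫ z in S, f z := by
  rw [← (emb_tau z₀ hr).setIntegral_map, map_tau z₀ hr, Measure.restrict_smul,
    integral_smul_measure, ENNReal.toReal_ofReal (by positivity)]

theorem memLp_tau (z₀ : Pt) {r : ℝ} (hr : 0 < r) {S : Set Pt} (hS : MeasurableSet S)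
    {q : ℝ≥0∞} {f : Pt → E} (hf : MemLp f q (volume.restrict S)) :
    MemLp (fun z => f (tau z₀ r z)) q (volume.restrict (tau z₀ r ⁻¹' S)) := by
  have h1 := Measure.restrict_map (μ := volume) (emb_tau z₀ hr).measurable hS
  rw [map_tau z₀ hr, Measure.restrict_smul] at h1
  have h2 := hf.smul_measure (c := ENNReal.ofReal (r ^ 4)⁻¹) ENNReal.ofReal_ne_top
  rw [h1] at h2
  exact h2.comp_of_map (emb_tau z₀ hr).measurable.aemeasurable

private theorem pre_image (z₀ : Pt) {r : ℝ} (hr : 0 < r) (K : Set Pt) :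
    tau z₀ r ⁻¹' (tau z₀ r '' K) = K := (tauH z₀ hr).preimage_image K

theorem l2l_tau (z₀ : Pt) {r : ℝ} (hr : 0 < r) {U : Set Pt} {f : Pt → E} (hf : L2l U f) :
    L2l (tau z₀ r ⁻¹' U) (fun z => f (tau z₀ r z)) := by
  intro K hK hKU
  have hc : IsCompact (tau z₀ r '' K) := hK.image (smooth_tau z₀ r).continuous
  have h := memLp_tau z₀ hr hc.measurableSet (hf _ hc (image_subset_iff.mpr hKU))
  rwa [pre_image z₀ hr K] at h

private theorem der_tau {φ : Pt → E} (hφ : Differentiable ℝ φ) (F : VF) (c : ℝ) (z₀ : Pt) (r : ℝ)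
    (z : Pt) (h : ∀ s : ℝ, tau z₀ r (z + s • F.v z) =
      tau z₀ r z + s • (c • F.v (tau z₀ r z))) :
    der F (fun w => φ (tau z₀ r w)) z = c • der F φ (tau z₀ r z) := by
  have hd : Differentiable ℝ (fun w => φ (tau z₀ r w)) :=
    hφ.comp ((smooth_tau z₀ r).differentiable (by simp))
  unfold der
  rw [← (hd z).lineDeriv_eq_fderiv, ← map_smul, ← (hφ _).lineDeriv_eq_fderiv]
  unfold lineDeriv
  simp_rw [h]

theorem der_tauX {φ : Pt → E} (hφ : Differentiable ℝ φ) (z₀ : Pt) (r : ℝ) (z : Pt) :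
    der vX (fun w => φ (tau z₀ r w)) z = r • der vX φ (tau z₀ r z) := by
  refine der_tau hφ vX r z₀ r z fun s => ?_
  unfold tau mul dil VF.v vX
  refine Prod.ext ?_ (Prod.ext ?_ ?_) <;> simp <;> ring

theorem der_tauY {φ : Pt → E} (hφ : Differentiable ℝ φ) (z₀ : Pt) (r : ℝ) (z : Pt) :
    der vY (fun w => φ (tau z₀ r w)) z = r • der vY φ (tau z₀ r z) := by
  refine der_tau hφ vY r z₀ r z fun s => ?_
  unfold tau mul dil VF.v vY
  refine Prod.ext ?_ (Prod.ext ?_ ?_) <;> simp <;> ring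

theorem der_tauT {φ : Pt → E} (hφ : Differentiable ℝ φ) (z₀ : Pt) (r : ℝ) (z : Pt) :
    der vT (fun w => φ (tau z₀ r w)) z = r ^ 2 • der vT φ (tau z₀ r z) := by
  refine der_tau hφ vT (r ^ 2) z₀ r z fun s => ?_
  unfold tau mul dil VF.v vT
  refine Prod.ext ?_ (Prod.ext ?_ ?_) <;> simp <;> ring

variable {U : Set Pt} {f g : Pt → E}

private theorem li_tau (h : LocallyIntegrableOn f U) (hU : IsOpen U) (z₀ : Pt) {r : ℝ}
    (hr : 0 < r) : LocallyIntegrableOn (fun z => f (tau z₀ r z)) (tau z₀ r ⁻¹' U) := by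
  have hU' : IsOpen (tau z₀ r ⁻¹' U) := hU.preimage (smooth_tau z₀ r).continuous
  rw [locallyIntegrableOn_iff hU.isLocallyClosed] at h
  rw [locallyIntegrableOn_iff hU'.isLocallyClosed]
  intro K hKU hK
  have hc : IsCompact (tau z₀ r '' K) := hK.image (smooth_tau z₀ r).continuous
  have h1 := h _ (image_subset_iff.mpr hKU) hc
  have h2 := memLp_tau z₀ hr hc.measurableSet (memLp_one_iff_integrable.mpr h1)
  rw [pre_image z₀ hr K] at h2
  exact memLp_one_iff_integrable.mp h2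

private theorem WD.tau_aux {F : VF} {c : ℝ} (h : WD F U f g) (hU : IsOpen U) (z₀ : Pt) {r : ℝ}
    (hr : 0 < r)
    (hc : ∀ φ : Pt → ℝ, Differentiable ℝ φ → ∀ z, der F (fun w => φ (tau z₀ r w)) z =
      c • der F φ (tau z₀ r z)) :
    WD F (tau z₀ r ⁻¹' U) (fun z => f (tau z₀ r z)) (fun z => c • g (tau z₀ r z)) := by
  refine ⟨li_tau h.lf hU z₀ hr, (li_tau h.lg hU z₀ hr).smul c, ?_⟩
  intro φ hφ
  set ψ : Pt → ℝ := fun z => φ (tauI z₀ r z) with hψ
  have hT : Tst U ψ := by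
    refine ⟨hφ.smooth.comp (smooth_tauI z₀ r), ?_, ?_⟩
    · exact hφ.cpt.comp_homeomorph (tauH z₀ hr).symm
    · intro z hz
      have h1 : z ∈ tauI z₀ r ⁻¹' tsupport φ :=
        tsupport_comp_subset_preimage φ (smooth_tauI z₀ r).continuous hz
      have h2 := hφ.supp h1
      rw [mem_preimage, tau_tauI z₀ hr] at h2
      exact h2
  have hφψ : φ = fun z => ψ (tau z₀ r z) := by
    funext z
    rw [hψ]
    simp only [tauI_tau z₀ hr]
  have hdψ : Differentiable ℝ ψ := hT.smooth.differentiable (by simp)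
  have hI : ∀ G : Pt → E, ∫ z, G (tau z₀ r z) = (r ^ 4)⁻¹ • ∫ z, G z := by
    intro G
    have := setIntegral_tau z₀ hr MeasurableSet.univ G
    simpa using this
  have e1 : ∀ z, der F φ z • f (tau z₀ r z) =
      (fun w => c • (der F ψ w • f w)) (tau z₀ r z) := by
    intro z
    have h3 : der F φ z = c • der F ψ (tau z₀ r z) := by
      rw [hφψ]; exact hc ψ hdψ z
    rw [h3]
    simp only [smul_smul, smul_eq_mul]
  have e2 : ∀ z, φ z • (c • g (tau z₀ r z)) = (fun w => c • (ψ w • g w)) (tau z₀ r z) := by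
    intro z
    have h3 : φ z = ψ (tau z₀ r z) := congrFun hφψ z
    rw [h3]
    simp only [smul_smul, mul_comm]
  rw [integral_congr_ae (Filter.Eventually.of_forall e1),
    integral_congr_ae (Filter.Eventually.of_forall e2),
    hI (fun w => c • (der F ψ w • f w)), hI (fun w => c • (ψ w • g w)), integral_smul,
    integral_smul, h.eq ψ hT, smul_neg, smul_neg]

theorem WD.tauX (h : WD vX U f g) (hU : IsOpen U) (z₀ : Pt) {r : ℝ} (hr : 0 < r) :
    WD vX (tau z₀ r ⁻¹' U) (fun z => f (tau z₀ r z)) (fun z => r • g (tau z₀ r z)) :=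
  h.tau_aux hU z₀ hr fun _ hφ z => der_tauX hφ z₀ r z

theorem WD.tauY (h : WD vY U f g) (hU : IsOpen U) (z₀ : Pt) {r : ℝ} (hr : 0 < r) :
    WD vY (tau z₀ r ⁻¹' U) (fun z => f (tau z₀ r z)) (fun z => r • g (tau z₀ r z)) :=
  h.tau_aux hU z₀ hr fun _ hφ z => der_tauY hφ z₀ r z

theorem WD.tauT (h : WD vT U f g) (hU : IsOpen U) (z₀ : Pt) {r : ℝ} (hr : 0 < r) :
    WD vT (tau z₀ r ⁻¹' U) (fun z => f (tau z₀ r z)) (fun z => r ^ 2 • g (tau z₀ r z)) :=
  h.tau_aux hU z₀ hr fun _ hφ z => der_tauT hφ z₀ r z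

theorem lX_fl (s : ℝ) (z : Pt) : lX.fl s z = tau (s, 0, 0) 1 z := by
  unfold tau mul dil VF.fl lX
  refine Prod.ext ?_ (Prod.ext ?_ ?_) <;> simp <;> ring

theorem lY_fl (s : ℝ) (z : Pt) : lY.fl s z = tau (0, s, 0) 1 z := by
  unfold tau mul dil VF.fl lY
  refine Prod.ext ?_ (Prod.ext ?_ ?_) <;> simp <;> ring

theorem vT_fl (s : ℝ) (z : Pt) : vT.fl s z = tau (0, 0, s) 1 z := by
  unfold tau mul dil VF.fl vT
  refine Prod.ext ?_ (Prod.ext ?_ ?_) <;> simp <;> ring

end PLH
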