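import Pool.Agent.Lib.PLH.P2
import Pool.Agent.Lib.PLH.T4
import Pool.Agent.Lib.PLH.T8

/-!
MODULE C1 (300 lines). Campanato's theorem for the gauge boxes.

`bl z r = {w | gd z w < r}`, `gd z w = gd w z`, and `gd z v < d`, `gd z w ≤ d` imply `gd w v < 2d`
(first two coordinates `< 2d`; last one `< d² + d² + (d²+d²)/2 = 3d²`). `bl z r = tau z r '' bx 1 1` has
measure `8r⁴`. Let `m_j(z)` be the average of `f` over `bl z (2^{-j}r₀)`. By `avg_sub_le` (for the smaller
box and the constant `m_j z`): `‖m_{j+1}(z)-m_j(z)‖² ≤ |bl z (2^{-j-1}r₀)|⁻¹ exc f (bl z (2^{-j}r₀))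
 ≤ 2 M²(2^{-j}r₀)^{2al}`, so `m_j(z)` converges, for every `z ∈ Ω₁`, to `f'(z)`, and
`‖f'(z) - avg over bl z d‖ ≤ C M d^{al}` for all `d ≤ r₀` (compare `d` with the next dyadic radius).
`f' = f` a.e. on `Ω₁`: `m_j(z) = ⨍_{g ∈ bx ρ ρ²} f(mul z g) dg`, `ρ = 2^{-j}r₀`; with `f₀ = U.indicator f ∈ L²`
the maps `z ↦ mul z g` are measure preserving and close to the identity, `tendsto_comp_sub` (filter
`𝓝 0` in `g`), Jensen: `‖m_j - f‖_{L²(Ω₁)} → 0`, so a subsequence converges a.e. to `f`.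
Holder: `d = gd z w`, `0 < d ≤ r₀/4`: `bl z d ⊆ bl w (2d)`, so
`‖avg_{bl z d} - avg_{bl w (2d)}‖² ≤ |bl z d|⁻¹ exc f (bl w (2d)) ≤ C M² d^{2al}`. `d = 0` iff `z = w`.
-/

open MeasureTheory Set Filter Topology
open scoped ContDiff ENNReal

namespace PLH

/-- The gauge distance of `z` and `w`. -/
noncomputable def gd (z w : Pt) : ℝ :=
  max (max |(mul (inv z) w).1| |(mul (inv z) w).2.1|) (Real.sqrt |(mul (inv z) w).2.2|)

theorem mem_bl_iff {z w : Pt} {r : ℝ} (hr : 0 < r) : w ∈ bl z r ↔ gd z w < r := by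
  unfold bl bx gd
  rw [mem_ofPred_eq, mem_ofPred_eq, max_lt_iff, max_lt_iff, Real.sqrt_lt' hr, and_assoc]

theorem gd_comm (z w : Pt) : gd z w = gd w z := by
  have h1 : (mul (inv z) w).1 = - (mul (inv w) z).1 := by simp [mul, inv]
  have h2 : (mul (inv z) w).2.1 = - (mul (inv w) z).2.1 := by simp [mul, inv]
  have h3 : (mul (inv z) w).2.2 = - (mul (inv w) z).2.2 := by simp [mul, inv]; ring
  unfold gd
  rw [h1, h2, h3, abs_neg, abs_neg, abs_neg]

theorem gd_eq_zero {z w : Pt} (h : gd z w = 0) : z = w := by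
  have h0 : gd z w ≤ 0 := h.le
  unfold gd at h0
  rw [max_le_iff, max_le_iff] at h0
  obtain ⟨⟨h1, h2⟩, h3⟩ := h0
  have h1' : (mul (inv z) w).1 = 0 := abs_nonpos_iff.mp h1
  have h2' : (mul (inv z) w).2.1 = 0 := abs_nonpos_iff.mp h2
  have h3' : (mul (inv z) w).2.2 = 0 := by
    have := Real.sqrt_eq_zero'.mp (le_antisymm h3 (Real.sqrt_nonneg _))
    exact abs_nonpos_iff.mp this
  have e1 : w.1 = z.1 := by simp [mul, inv] at h1'; linarith
  have e2 : w.2.1 = z.2.1 := by simp [mul, inv] at h2'; linarith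
  have e3 : w.2.2 = z.2.2 := by
    simp only [mul, inv] at h3'
    rw [e1, e2] at h3'
    linarith
  exact (Prod.ext e1 (Prod.ext e2 e3)).symm

theorem gd_nonneg (z w : Pt) : 0 ≤ gd z w := by
  unfold gd; positivity

theorem continuous_gd : Continuous (fun q : Pt × Pt => gd q.1 q.2) := by
  unfold gd mul inv
  fun_prop

private theorem gd_tri {z w v : Pt} {d : ℝ} (h1 : gd z w ≤ d) (h2 : gd z v < d) :
    gd w v < 2 * d := by
  have hd : 0 < d := (gd_nonneg z v).trans_lt h2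
  unfold gd at h1 h2 ⊢
  rw [max_le_iff, max_le_iff] at h1
  rw [max_lt_iff, max_lt_iff, Real.sqrt_lt' hd] at h2
  rw [max_lt_iff, max_lt_iff, Real.sqrt_lt' (by linarith)]
  obtain ⟨⟨h11, h12⟩, h13⟩ := h1
  obtain ⟨⟨h21, h22⟩, h23⟩ := h2
  rw [Real.sqrt_le_left hd.le] at h13
  have e1 : (mul (inv w) v).1 = (mul (inv z) v).1 - (mul (inv z) w).1 := by
    simp only [mul, inv]; ring
  have e2 : (mul (inv w) v).2.1 = (mul (inv z) v).2.1 - (mul (inv z) w).2.1 := by
    simp only [mul, inv]; ring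
  have e3 : (mul (inv w) v).2.2 = (mul (inv z) v).2.2 - (mul (inv z) w).2.2
      + (-((mul (inv z) w).1 * (mul (inv z) v).2.1) + (mul (inv z) w).2.1 * (mul (inv z) v).1) / 2
      := by
    simp only [mul, inv]; ring
  rw [e1, e2, e3]
  set a := (mul (inv z) w).1
  set b := (mul (inv z) w).2.1
  set c := (mul (inv z) w).2.2
  set a' := (mul (inv z) v).1
  set b' := (mul (inv z) v).2.1
  set c' := (mul (inv z) v).2.2
  refine ⟨⟨?_, ?_⟩, ?_⟩
  · have := abs_sub a' a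
    linarith
  · have := abs_sub b' b
    linarith
  · have h3 : |a * b'| ≤ d * d := by
      rw [abs_mul]; exact mul_le_mul h11 h22.le (abs_nonneg _) hd.le
    have h4 : |b * a'| ≤ d * d := by
      rw [abs_mul]; exact mul_le_mul h12 h21.le (abs_nonneg _) hd.le
    rw [abs_le] at h3 h4 h13
    rw [abs_lt] at h23 ⊢
    constructor <;> nlinarith

private theorem bx_meas (ρ h : ℝ) : MeasurableSet (bx ρ h) := by
  unfold bx
  have h1 : Measurable (fun z : Pt => |z.1|) := by fun_prop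
  have h2 : Measurable (fun z : Pt => |z.2.1|) := by fun_prop
  have h3 : Measurable (fun z : Pt => |z.2.2|) := by fun_prop
  exact (measurableSet_lt h1 measurable_const).inter
    ((measurableSet_lt h2 measurable_const).inter (measurableSet_lt h3 measurable_const))

private theorem bx_vol {r : ℝ} (hr : 0 < r) :
    volume (bx r (r ^ 2)) = ENNReal.ofReal (8 * r ^ 4) := by
  have e : bx r (r ^ 2) = Ioo (-r) r ×ˢ (Ioo (-r) r ×ˢ Ioo (-(r ^ 2)) (r ^ 2)) := by
    ext z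
    simp only [bx, mem_ofPred_eq, mem_prod, mem_Ioo, abs_lt]
  rw [e, Measure.volume_eq_prod, Measure.prod_prod, Measure.volume_eq_prod, Measure.prod_prod,
    Real.volume_Ioo, Real.volume_Ioo, ← ENNReal.ofReal_mul (by linarith),
    ← ENNReal.ofReal_mul (by linarith)]
  congr 1
  ring

private theorem bl_meas (z : Pt) (r : ℝ) : MeasurableSet (bl z r) := by
  have h : Measurable (fun w : Pt => mul (inv z) w) := by
    unfold mul; fun_prop
  exact h (bx_meas r (r ^ 2))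

private theorem pre_bl (z : Pt) (r : ℝ) : tau z 1 ⁻¹' bl z r = bx r (r ^ 2) := by
  ext g
  have : mul (inv z) (tau z 1 g) = g := by
    unfold tau mul dil inv
    refine Prod.ext ?_ (Prod.ext ?_ ?_) <;> simp
    ring
  simp only [bl, mem_preimage, mem_ofPred_eq, this]

private theorem bl_vol (z : Pt) {r : ℝ} (hr : 0 < r) :
    volume (bl z r) = ENNReal.ofReal (8 * r ^ 4) := by
  rw [← bx_vol hr, ← pre_bl z r, (mp_tau z).measure_preimage (bl_meas z r).nullMeasurableSet]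

section

variable {E : Type*} [NormedAddCommGroup E] [InnerProductSpace ℝ E] [CompleteSpace E]

private theorem bl_fin (z : Pt) {r : ℝ} (hr : 0 < r) : volume (bl z r) ≠ ⊤ := by
  rw [bl_vol z hr]; exact ENNReal.ofReal_ne_top

private theorem bl_ne (z : Pt) {r : ℝ} (hr : 0 < r) : volume (bl z r) ≠ 0 := by
  rw [bl_vol z hr]
  have : 0 < 8 * r ^ 4 := by positivity
  simpa using this

omit [InnerProductSpace ℝ E] [CompleteSpace E] in
private theorem int_sq {f : Pt → E} {S : Set Pt} (h0 : volume S ≠ ⊤)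
    (hf : MemLp f 2 (volume.restrict S)) (c : E) : IntegrableOn (fun z => ‖f z - c‖ ^ 2) S := by
  have : IsFiniteMeasure (volume.restrict S) := ⟨by
    rw [Measure.restrict_apply_univ]; exact h0.lt_top⟩
  exact (hf.sub (memLp_const c)).integrable_norm_pow (by norm_num)

/-- Averages over nested gauge boxes. -/
private theorem key {f : Pt → E} {z w : Pt} {r s al M : ℝ} (hr : 0 < r) (hs : 0 < s)
    (hrs : s ≤ 2 * r) (hsub : bl z r ⊆ bl w s) (hM : 0 ≤ M)
    (hf : MemLp f 2 (volume.restrict (bl w s)))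
    (he : exc f (bl w s) ≤ M ^ 2 * s ^ (4 + 2 * al)) :
    ‖(⨍ v in bl z r, f v) - ⨍ v in bl w s, f v‖ ≤ 2 * M * s ^ al := by
  have hf' : MemLp f 2 (volume.restrict (bl z r)) := hf.mono_measure (Measure.restrict_mono hsub
    le_rfl)
  have h1 := avg_sub_le (bl_meas z r) (bl_fin z hr) (bl_ne z hr) hf' (⨍ v in bl w s, f v)
  have h2 : ∫ v in bl z r, ‖f v - ⨍ v in bl w s, f v‖ ^ 2 ≤ exc f (bl w s) := by
    unfold exc
    refine setIntegral_mono_set (int_sq (bl_fin w hs) hf _) ?_ hsub.eventuallyLE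
    exact Filter.Eventually.of_forall fun v => by positivity
  rw [bl_vol z hr, ENNReal.toReal_ofReal (by positivity)] at h1
  have h3 : s ^ (4 + 2 * al) = s ^ 4 * (s ^ al) ^ 2 := by
    rw [Real.rpow_add hs, ← Real.rpow_natCast (s ^ al) 2, ← Real.rpow_mul hs.le,
      ← Real.rpow_natCast s 4]
    norm_num
    left
    ring_nf
  rw [h3] at he
  have h4 : s ^ 4 ≤ (2 * r) ^ 4 := by gcongr
  set N := ‖(⨍ v in bl z r, f v) - ⨍ v in bl w s, f v‖
  set p := s ^ al
  have hp : 0 < p := Real.rpow_pos_of_pos hs al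
  have h5 : 8 * r ^ 4 * N ^ 2 ≤ 8 * r ^ 4 * (2 * (M * p) ^ 2) := by
    have h6 : M ^ 2 * (s ^ 4 * p ^ 2) ≤ M ^ 2 * ((2 * r) ^ 4 * p ^ 2) := by gcongr
    nlinarith
  have h7 : N ^ 2 ≤ 2 * (M * p) ^ 2 := le_of_mul_le_mul_left h5 (by positivity)
  have h8 : N ^ 2 ≤ (2 * (M * p)) ^ 2 := by nlinarith [sq_nonneg (M * p)]
  have h9 := abs_le_of_sq_le_sq h8 (by positivity)
  have h10 := le_abs_self N
  calc N ≤ 2 * (M * p) := abs_le.mp (abs_le_of_sq_le_sq h8 (by positivity)) |>.2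
    _ = 2 * M * p := by ring

private theorem bl_mono (z : Pt) {r s : ℝ} (hr : 0 < r) (h : r ≤ s) : bl z r ⊆ bl z s := by
  intro v hv
  rw [mem_bl_iff hr] at hv
  rw [mem_bl_iff (hr.trans_le h)]
  linarith

/-- The limit of the averages. -/
private theorem lim_avg {al : ℝ} (hal : 0 < al) : ∃ C : ℝ, 0 ≤ C ∧ ∀ (f : Pt → E) (z : Pt)
    (M r₀ : ℝ), 0 < r₀ → 0 ≤ M → MemLp f 2 (volume.restrict (bl z r₀)) →
    (∀ r : ℝ, 0 < r → r ≤ r₀ → exc f (bl z r) ≤ M ^ 2 * r ^ (4 + 2 * al)) →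
    ∃ y : E, Tendsto (fun n : ℕ => ⨍ v in bl z (r₀ * (1 / 2) ^ n), f v) atTop (𝓝 y) ∧
      ∀ d : ℝ, 0 < d → d ≤ r₀ → ‖(⨍ v in bl z d, f v) - y‖ ≤ C * M * d ^ al := by
  set q : ℝ := (1 / 2) ^ al with hq
  have hq0 : 0 < q := by positivity
  have hq1 : q < 1 := Real.rpow_lt_one (by norm_num) (by norm_num) hal
  refine ⟨2 * 2 ^ al + 2 * 2 ^ al / (1 - q), by
    have : 0 < 1 - q := by linarith
    positivity, ?_⟩
  intro f z M r₀ hr₀ hM hf he
  have hpos : ∀ n : ℕ, 0 < r₀ * (1 / 2) ^ n := fun n => by positivity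
  have hle : ∀ n : ℕ, r₀ * (1 / 2) ^ n ≤ r₀ := fun n =>
    mul_le_of_le_one_right hr₀.le (pow_le_one₀ (by norm_num) (by norm_num))
  have hfm : ∀ r : ℝ, 0 < r → r ≤ r₀ → MemLp f 2 (volume.restrict (bl z r)) := fun r hr hr' =>
    hf.mono_measure (Measure.restrict_mono (bl_mono z hr hr') le_rfl)
  have hrp : ∀ n : ℕ, (r₀ * (1 / 2) ^ n) ^ al = r₀ ^ al * q ^ n := by
    intro n
    rw [Real.mul_rpow hr₀.le (by positivity), hq, ← Real.rpow_natCast, ← Real.rpow_natCast,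
      ← Real.rpow_mul (by norm_num), ← Real.rpow_mul (by norm_num), mul_comm al]
  have hstep : ∀ n : ℕ, dist (⨍ v in bl z (r₀ * (1 / 2) ^ n), f v)
      (⨍ v in bl z (r₀ * (1 / 2) ^ (n + 1)), f v) ≤ 2 * M * r₀ ^ al * q ^ n := by
    intro n
    rw [dist_comm, dist_eq_norm]
    have h := key (al := al) (hpos (n + 1)) (hpos n) (by rw [pow_succ]; linarith [hpos n])
      (bl_mono z (hpos (n + 1)) (by rw [pow_succ]; linarith [hpos n])) hM
      (hfm _ (hpos n) (hle n)) (he _ (hpos n) (hle n))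
    rw [hrp n] at h
    linarith
  have hc := cauchySeq_of_le_geometric q (2 * M * r₀ ^ al) hq1 hstep
  obtain ⟨y, hy⟩ := cauchySeq_tendsto_of_complete hc
  refine ⟨y, hy, ?_⟩
  intro d hd hdr
  obtain ⟨n, hn1, hn2⟩ := exists_nat_pow_near_of_lt_one (x := d / r₀) (y := (1 / 2 : ℝ))
    (by positivity) ((div_le_one hr₀).mpr hdr) (by norm_num) (by norm_num)
  have h1 : d ≤ r₀ * (1 / 2) ^ n := by
    rw [div_le_iff₀ hr₀] at hn2; linarith
  have h2 : r₀ * (1 / 2) ^ n ≤ 2 * d := by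
    rw [lt_div_iff₀ hr₀, pow_succ] at hn1; linarith
  have h3 := key (al := al) hd (hpos n) h2 (bl_mono z hd h1) hM (hfm _ (hpos n) (hle n))
    (he _ (hpos n) (hle n))
  have h4 := dist_le_of_le_geometric_of_tendsto q (2 * M * r₀ ^ al) hq1 hstep hy n
  rw [dist_eq_norm] at h4
  have h5 : (r₀ * (1 / 2) ^ n) ^ al ≤ 2 ^ al * d ^ al := by
    rw [← Real.mul_rpow (by norm_num) hd.le]
    exact Real.rpow_le_rpow (hpos n).le h2 hal.le
  have h6 : 2 * M * r₀ ^ al * q ^ n / (1 - q) ≤ 2 * M * (2 ^ al * d ^ al) / (1 - q) := by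
    have : 0 < 1 - q := by linarith
    rw [hrp n] at h5
    have : 2 * M * r₀ ^ al * q ^ n = 2 * M * (r₀ ^ al * q ^ n) := by ring
    rw [this]
    gcongr
  calc ‖(⨍ v in bl z d, f v) - y‖ ≤ ‖(⨍ v in bl z d, f v) -
        ⨍ v in bl z (r₀ * (1 / 2) ^ n), f v‖ + ‖(⨍ v in bl z (r₀ * (1 / 2) ^ n), f v) - y‖ :=
          norm_sub_le_norm_sub_add_norm_sub _ _ _
    _ ≤ 2 * M * (2 ^ al * d ^ al) + 2 * M * (2 ^ al * d ^ al) / (1 - q) := by
          refine add_le_add (h3.trans ?_) (h4.trans h6)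
          gcongr
    _ = (2 * 2 ^ al + 2 * 2 ^ al / (1 - q)) * M * d ^ al := by ring

private theorem mp_right (g : Pt) : MeasurePreserving (fun z : Pt => mul z g) volume volume := by
  have h0 : MeasurePreserving (fun z : ℝ => -z) volume volume := Measure.measurePreserving_neg _
  have h1 : MeasurePreserving (fun z : Pt => -z) volume volume := h0.prod (h0.prod h0)
  have h2 := h1.comp ((mp_tau (inv g)).comp h1)
  have e : ((fun z : Pt => -z) ∘ (tau (inv g) 1 ∘ fun z : Pt => -z)) = fun z : Pt => mul z g := by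
    funext z
    simp only [Function.comp, tau, mul, dil, inv]
    refine Prod.ext ?_ (Prod.ext ?_ ?_) <;> simp <;> ring
  rwa [e] at h2

private theorem cont_mul : Continuous (fun q : Pt × Pt => mul q.1 q.2) := by
  unfold mul
  fun_prop

private theorem close_right (R ε : ℝ) (hε : 0 < ε) : ∀ᶠ g in 𝓝 (0 : Pt), ∀ z : Pt,
    (‖z‖ ≤ R ∨ ‖mul z g‖ ≤ R) → ‖mul z g - z‖ ≤ ε := by
  have hδ : 0 < min 1 (ε / (|R| + 2)) := by positivity
  filter_upwards [Metric.ball_mem_nhds (0 : Pt) hδ] with g hg z hz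
  rw [mem_ball_zero_iff, lt_min_iff] at hg
  obtain ⟨hg1, hg2⟩ := hg
  have hgn := norm_nonneg g
  have a1 : |g.1| ≤ ‖g‖ := norm_fst_le g
  have a2 : |g.2.1| ≤ ‖g‖ := (norm_fst_le g.2).trans (norm_snd_le g)
  have a3 : |g.2.2| ≤ ‖g‖ := (norm_snd_le g.2).trans (norm_snd_le g)
  have hR := le_abs_self R
  have hz1 : |z.1| ≤ |R| + 1 ∧ |z.2.1| ≤ |R| + 1 := by
    rcases hz with h | h
    · have b1 : |z.1| ≤ ‖z‖ := norm_fst_le z
      have b2 : |z.2.1| ≤ ‖z‖ := (norm_fst_le z.2).trans (norm_snd_le z)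
      constructor <;> linarith
    · have b1 : |z.1 + g.1| ≤ ‖mul z g‖ := norm_fst_le (mul z g)
      have b2 : |z.2.1 + g.2.1| ≤ ‖mul z g‖ :=
        (norm_fst_le (mul z g).2).trans (norm_snd_le (mul z g))
      constructor
      · have := abs_sub (z.1 + g.1) g.1
        rw [add_sub_cancel_right] at this
        linarith
      · have := abs_sub (z.2.1 + g.2.1) g.2.1
        rw [add_sub_cancel_right] at this
        linarith
  rw [lt_div_iff₀ (by positivity)] at hg2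
  have hR0 := abs_nonneg R
  have e1 : (mul z g - z).1 = g.1 := by simp [mul]
  have e2 : (mul z g - z).2.1 = g.2.1 := by simp [mul]
  have e3 : (mul z g - z).2.2 = g.2.2 + (z.1 * g.2.1 - z.2.1 * g.1) / 2 := by
    simp [mul]; ring
  have c1 : ‖g‖ ≤ ε := by nlinarith
  rw [norm_prod_le_iff, norm_prod_le_iff, e1, e2, e3, Real.norm_eq_abs, Real.norm_eq_abs,
    Real.norm_eq_abs]
  refine ⟨by linarith, by linarith, ?_⟩
  have d1 : |z.1 * g.2.1| ≤ (|R| + 1) * ‖g‖ := by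
    rw [abs_mul]; exact mul_le_mul hz1.1 a2 (abs_nonneg _) (by positivity)
  have d2 : |z.2.1 * g.1| ≤ (|R| + 1) * ‖g‖ := by
    rw [abs_mul]; exact mul_le_mul hz1.2 a1 (abs_nonneg _) (by positivity)
  rw [abs_le] at d1 d2 a3 ⊢
  constructor <;> nlinarith

/-- The mean square of the difference over a small box. -/
private noncomputable def G (f : Pt → E) (r : ℝ) (z : Pt) : ℝ≥0∞ :=
  (ENNReal.ofReal (8 * r ^ 4))⁻¹ * ∫⁻ g in bx r (r ^ 2), ‖f (mul z g) - f z‖ₑ ^ 2

omit [InnerProductSpace ℝ E] [CompleteSpace E] in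
private theorem sm_diff {f : Pt → E} (sm : StronglyMeasurable f) :
    Measurable (fun q : Pt × Pt => ‖f (mul q.1 q.2) - f q.1‖ₑ ^ 2) := by
  have h1 : StronglyMeasurable (fun q : Pt × Pt => f (mul q.1 q.2)) :=
    sm.comp_measurable cont_mul.measurable
  have h2 : StronglyMeasurable (fun q : Pt × Pt => f q.1) := sm.comp_measurable measurable_fst
  exact (h1.sub h2).enorm.pow_const 2

omit [InnerProductSpace ℝ E] [CompleteSpace E] in
private theorem G_meas {f : Pt → E} (sm : StronglyMeasurable f) (r : ℝ) : Measurable (G f r) := by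
  unfold G
  exact (Measurable.lintegral_prod_right' (sm_diff sm)).const_mul _

omit [CompleteSpace E] in
private theorem G_lim {f : Pt → E} (sm : StronglyMeasurable f) (hf : MemLp f 2 volume)
    {r : ℕ → ℝ} (hr : ∀ n, 0 < r n) (hr0 : Tendsto r atTop (𝓝 0)) :
    Tendsto (fun n => ∫⁻ z, G f (r n) z) atTop (𝓝 0) := by
  have h0 : Tendsto (fun g : Pt => eLpNorm (fun z => f (mul z g) - f z) 2 volume) (𝓝 0)
      (𝓝 0) :=
    tendsto_comp_sub (τ := fun g z => mul z g) (by norm_num) (by norm_num) mp_right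
      close_right hf
  rw [ENNReal.tendsto_nhds_zero] at h0 ⊢
  intro ε hε
  by_cases hεt : ε = ⊤
  · rw [hεt]; exact Filter.Eventually.of_forall fun _ => le_top
  obtain ⟨η, hη0, hη⟩ : ∃ η : ℝ≥0∞, 0 < η ∧ η ^ 2 ≤ ε := by
    refine ⟨min 1 ε, lt_min one_pos hε, ?_⟩
    calc (min 1 ε) ^ 2 = min 1 ε * min 1 ε := sq _
      _ ≤ 1 * ε := mul_le_mul' (min_le_left _ _) (min_le_right _ _)
      _ = ε := one_mul _
  obtain ⟨δ, hδ, hb⟩ := Metric.eventually_nhds_iff.mp (h0 η hη0)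
  have hev : ∀ᶠ n in atTop, r n < min δ 1 := hr0.eventually (gt_mem_nhds (by positivity))
  filter_upwards [hev] with n hn
  rw [lt_min_iff] at hn
  have hrn := hr n
  have hbx : ∀ g ∈ bx (r n) (r n ^ 2), ∫⁻ z, ‖f (mul z g) - f z‖ₑ ^ 2 ≤ ε := by
    intro g hg
    have hg1 : |g.1| < r n := hg.1
    have hg2 : |g.2.1| < r n := hg.2.1
    have hg3 : |g.2.2| < r n ^ 2 := hg.2.2
    have hd : dist g 0 < δ := by
      rw [dist_zero_right, Prod.norm_def, Prod.norm_def, max_lt_iff, max_lt_iff]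
      refine ⟨hg1.trans hn.1, hg2.trans hn.1, ?_⟩
      have : r n ^ 2 ≤ r n := by nlinarith
      exact (hg3.trans_le this).trans hn.1
    have h1 := hb hd
    rw [eLpNorm_eq_lintegral_rpow_enorm_toReal (by norm_num) (by norm_num)] at h1
    have h2 : ∫⁻ z, ‖f (mul z g) - f z‖ₑ ^ 2 ≤ η ^ 2 := by
      have h3 := ENNReal.rpow_le_rpow h1 (z := 2) (by norm_num)
      rw [← ENNReal.rpow_mul] at h3
      norm_num at h3
      exact h3
    exact h2.trans hη
  have hmm := sm_diff sm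
  calc ∫⁻ z, G f (r n) z = (ENNReal.ofReal (8 * r n ^ 4))⁻¹ *
        ∫⁻ z, ∫⁻ g in bx (r n) (r n ^ 2), ‖f (mul z g) - f z‖ₑ ^ 2 := by
          unfold G
          rw [lintegral_const_mul]
          exact Measurable.lintegral_prod_right' hmm
    _ = (ENNReal.ofReal (8 * r n ^ 4))⁻¹ *
        ∫⁻ g in bx (r n) (r n ^ 2), ∫⁻ z, ‖f (mul z g) - f z‖ₑ ^ 2 := by
          rw [lintegral_lintegral_swap]
          exact hmm.aemeasurable
    _ ≤ (ENNReal.ofReal (8 * r n ^ 4))⁻¹ * ∫⁻ g in bx (r n) (r n ^ 2), ε := by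
          gcongr 1
          exact setLIntegral_mono measurable_const hbx
    _ = ε := by
          rw [setLIntegral_const, bx_vol hrn, mul_comm ε, ← mul_assoc, ENNReal.inv_mul_cancel,
            one_mul]
          · have : 0 < 8 * r n ^ 4 := by positivity
            simpa using this
          · exact ENNReal.ofReal_ne_top

private theorem avg_le_G {f : Pt → E} (sm : StronglyMeasurable f) (z : Pt) {r : ℝ} (hr : 0 < r)
    (hf : MemLp f 2 (volume.restrict (bl z r))) :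
    ‖(⨍ v in bl z r, f v) - f z‖ₑ ^ 2 ≤ G f r z := by
  have h1 := avg_sub_le (bl_meas z r) (bl_fin z hr) (bl_ne z hr) hf (f z)
  have h2 := ENNReal.ofReal_le_ofReal h1
  rw [ENNReal.ofReal_mul ENNReal.toReal_nonneg, ENNReal.ofReal_toReal (bl_fin z hr),
    bl_vol z hr, ofReal_integral_eq_lintegral_ofReal (int_sq (bl_fin z hr) hf _)
      (Filter.Eventually.of_forall fun v => by positivity)] at h2
  have h3 : ∀ x : E, ENNReal.ofReal (‖x‖ ^ 2) = ‖x‖ₑ ^ 2 := by
    intro x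
    rw [ENNReal.ofReal_pow (norm_nonneg _), ofReal_norm]
  simp_rw [h3] at h2
  have h4 : ∫⁻ v in bl z r, ‖f v - f z‖ₑ ^ 2 =
      ∫⁻ g in bx r (r ^ 2), ‖f (mul z g) - f z‖ₑ ^ 2 := by
    have h5 := (mp_tau z).setLIntegral_comp_preimage (bl_meas z r)
      (f := fun v => ‖f v - f z‖ₑ ^ 2) ((sm.sub stronglyMeasurable_const).enorm.pow_const 2)
    rw [pre_bl] at h5
    rw [← h5]
    have h6 : ∀ g : Pt, tau z 1 g = mul z g := by
      intro g
      unfold tau dil
      congr 1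
      refine Prod.ext ?_ (Prod.ext ?_ ?_) <;> simp
    simp_rw [h6]
  rw [h4] at h2
  unfold G
  rw [← ENNReal.div_eq_inv_mul, ENNReal.le_div_iff_mul_le, mul_comm]
  · exact h2
  · left
    have : 0 < 8 * r ^ 4 := by positivity
    simpa using this
  · left
    exact ENNReal.ofReal_ne_top

end

theorem campanato (E : Type*) [NormedAddCommGroup E] [InnerProductSpace ℝ E] [CompleteSpace E]
    {al : ℝ} (hal : 0 < al) : ∃ C : ℝ, 0 ≤ C ∧ ∀ (U Ω₁ : Set Pt) (f : Pt → E) (M r₀ : ℝ),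
    IsOpen U → IsOpen Ω₁ → 0 < r₀ → 0 ≤ M → MemLp f 2 (volume.restrict U) →
    (∀ z ∈ Ω₁, bl z r₀ ⊆ U) →
    (∀ z ∈ Ω₁, ∀ r : ℝ, 0 < r → r ≤ r₀ → exc f (bl z r) ≤ M ^ 2 * r ^ (4 + 2 * al)) →
    ∃ f' : Pt → E, (∀ᵐ z ∂(volume.restrict Ω₁), f z = f' z) ∧
      ∀ z ∈ Ω₁, ∀ w ∈ Ω₁, gd z w ≤ r₀ / 4 → ‖f' z - f' w‖ ≤ C * M * gd z w ^ al := by
  obtain ⟨C₁, hC₁, H⟩ := lim_avg (E := E) hal
  refine ⟨C₁ + 2 * 2 ^ al + C₁ * 2 ^ al, by positivity, ?_⟩
  intro U Ω₁ f M r₀ hU hΩ hr₀ hM hf hsub he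
  have key0 : ∀ z ∈ Ω₁, ∃ y : E,
      Tendsto (fun n : ℕ => ⨍ v in bl z (r₀ * (1 / 2) ^ n), f v) atTop (𝓝 y) ∧
      ∀ d : ℝ, 0 < d → d ≤ r₀ → ‖(⨍ v in bl z d, f v) - y‖ ≤ C₁ * M * d ^ al := fun z hz =>
    H f z M r₀ hr₀ hM (hf.mono_measure (Measure.restrict_mono (hsub z hz) le_rfl)) (he z hz)
  choose! f' hf1 hf2 using key0
  refine ⟨f', ?_, ?_⟩
  · set f₀ : Pt → E := U.indicator f with hf₀
    have hm0 : MemLp f₀ 2 volume := (memLp_indicator_iff_restrict hU.measurableSet).mpr hf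
    obtain ⟨f₁, sm, e1⟩ := hm0.1
    have hm1 : MemLp f₁ 2 volume := hm0.ae_eq e1
    have hpos : ∀ n : ℕ, 0 < r₀ * (1 / 2) ^ n := fun n => by positivity
    have hr0 : Tendsto (fun n : ℕ => r₀ * (1 / 2) ^ n) atTop (𝓝 0) := by
      have := (tendsto_pow_atTop_nhds_zero_of_lt_one (r := (1 / 2 : ℝ)) (by norm_num)
        (by norm_num)).const_mul r₀
      simpa using this
    have hG := G_lim sm hm1 hpos hr0
    have hF : ∫⁻ z, liminf (fun n : ℕ => G f₁ (r₀ * (1 / 2) ^ n) z) atTop = 0 := by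
      refine le_antisymm ?_ bot_le
      refine (lintegral_liminf_le fun n => G_meas sm _).trans ?_
      rw [hG.liminf_eq]
    have hL : ∀ᵐ z : Pt, liminf (fun n : ℕ => G f₁ (r₀ * (1 / 2) ^ n) z) atTop = 0 := by
      have := (lintegral_eq_zero_iff (Measurable.liminf fun n => G_meas sm _)).mp hF
      filter_upwards [this] with z hz
      exact hz
    rw [ae_restrict_iff' hΩ.measurableSet]
    filter_upwards [e1, hL] with z hz1 hz2 hzΩ
    have hgz : gd z z = 0 := by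
      have h5 : -(z.1 * z.2.1) + z.2.1 * z.1 = 0 := by ring
      simp [gd, mul, inv, h5]
    have hzU : z ∈ U := hsub z hzΩ ((mem_bl_iff hr₀).mpr (by rw [hgz]; exact hr₀))
    have hfz : f z = f₁ z := by
      rw [← hz1, hf₀, indicator_of_mem hzU]
    have hav : ∀ n : ℕ, (⨍ v in bl z (r₀ * (1 / 2) ^ n), f v) =
        ⨍ v in bl z (r₀ * (1 / 2) ^ n), f₁ v := by
      intro n
      refine average_congr ?_
      have h1 : ∀ᵐ v ∂(volume.restrict (bl z (r₀ * (1 / 2) ^ n))), f₀ v = f₁ v :=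
        ae_restrict_of_ae e1
      have h2 := ae_restrict_mem (μ := volume) (bl_meas z (r₀ * (1 / 2) ^ n))
      filter_upwards [h1, h2] with v hv1 hv2
      have hle : r₀ * (1 / 2) ^ n ≤ r₀ :=
        mul_le_of_le_one_right hr₀.le (pow_le_one₀ (by norm_num) (by norm_num))
      rw [← hv1, hf₀, indicator_of_mem (hsub z hzΩ (bl_mono z (hpos n) hle hv2))]
    have hle2 : ∀ n : ℕ, ‖(⨍ v in bl z (r₀ * (1 / 2) ^ n), f v) - f₁ z‖ₑ ^ 2 ≤
        G f₁ (r₀ * (1 / 2) ^ n) z := by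
      intro n
      rw [hav n]
      exact avg_le_G sm z (hpos n) (hm1.mono_measure Measure.restrict_le_self)
    have ht : Tendsto (fun n : ℕ => ‖(⨍ v in bl z (r₀ * (1 / 2) ^ n), f v) - f₁ z‖ₑ ^ 2) atTop
        (𝓝 (‖f' z - f₁ z‖ₑ ^ 2)) := by
      have h1 := (hf1 z hzΩ).sub_const (f₁ z)
      have h2 := h1.enorm
      exact (ENNReal.continuous_pow 2).continuousAt.tendsto.comp h2
    have h0 : ‖f' z - f₁ z‖ₑ ^ 2 ≤ 0 := by
      rw [← ht.liminf_eq, ← hz2]
      exact liminf_le_liminf (Filter.Eventually.of_forall hle2)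
    have h00 : f' z - f₁ z = 0 := by
      have := le_antisymm h0 bot_le
      simpa using this
    rw [hfz, sub_eq_zero.mp h00]
  · intro z hz w hw hd
    rcases (gd_nonneg z w).eq_or_lt with h0 | h0
    · have hzw := gd_eq_zero h0.symm
      rw [hzw, sub_self, norm_zero]
      have : 0 ≤ gd w w := gd_nonneg w w
      positivity
    · have hd1 : gd z w ≤ r₀ := by linarith
      have hd2 : 2 * gd z w ≤ r₀ := by linarith
      have hs : bl z (gd z w) ⊆ bl w (2 * gd z w) := by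
        intro v hv
        rw [mem_bl_iff h0] at hv
        rw [mem_bl_iff (by linarith)]
        exact gd_tri le_rfl hv
      have hfw : MemLp f 2 (volume.restrict (bl w (2 * gd z w))) :=
        hf.mono_measure (Measure.restrict_mono
          ((bl_mono w (by linarith) hd2).trans (hsub w hw)) le_rfl)
      have h1 := key (al := al) h0 (by linarith) le_rfl hs hM hfw (he w hw _ (by linarith) hd2)
      have h2 := hf2 z hz _ h0 hd1
      have h3 := hf2 w hw _ (by linarith : 0 < 2 * gd z w) hd2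
      have h4 : (2 * gd z w) ^ al = 2 ^ al * gd z w ^ al :=
        Real.mul_rpow (by norm_num) h0.le
      rw [h4] at h1 h3
      rw [norm_sub_rev] at h2
      calc ‖f' z - f' w‖ ≤ ‖f' z - ⨍ v in bl z (gd z w), f v‖ +
            ‖(⨍ v in bl z (gd z w), f v) - f' w‖ := norm_sub_le_norm_sub_add_norm_sub _ _ _
        _ ≤ ‖f' z - ⨍ v in bl z (gd z w), f v‖ +
            (‖(⨍ v in bl z (gd z w), f v) - ⨍ v in bl w (2 * gd z w), f v‖ +
            ‖(⨍ v in bl w (2 * gd z w), f v) - f' w‖) := by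
              gcongr
              exact norm_sub_le_norm_sub_add_norm_sub _ _ _
        _ ≤ C₁ * M * gd z w ^ al + (2 * M * (2 ^ al * gd z w ^ al) +
            C₁ * M * (2 ^ al * gd z w ^ al)) := by gcongr
        _ = (C₁ + 2 * 2 ^ al + C₁ * 2 ^ al) * M * gd z w ^ al := by ring

end PLH
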