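import Pool.Agent.Lib.PLH.A2
import Pool.Agent.Lib.PLH.A7

/-!
MODULE C2 (pure, 150 lines). The inverse of `V₀(ξ) = ‖ξ‖^{m/2} ξ`.

`m' = -m/(m+2) > -1`, `J η = ‖η‖^{m'} η = A (·^{m'}) η`. `V₀ ξ = sqrt(‖ξ‖^m) ξ`, `‖V₀ ξ‖ = ‖ξ‖^{(m+2)/2}`, so
`J (V₀ ξ) = ‖ξ‖^{((m+2)/2) m' + m/2} ξ = ξ` for `ξ ≠ 0`. `alg_lip` for `cl_pow m'`:
`‖Jη-Jη'‖ ≤ C max(‖η‖,‖η'‖)^{m'}‖η-η'‖`. If `m ≥ 0` (`m' ≤ 0`): `‖η-η'‖ ≤ 2 max`, so this is
`≤ C 2^{-m'} ‖η-η'‖^{1+m'}`, `1+m' = 2/(m+2) ≤ 1`. If `m < 0` (`m' > 0`): `≤ C R^{m'}‖η-η'‖` for norms `≤ R`.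
-/

open MeasureTheory Set Filter Topology

namespace PLH

variable {E : Type*} [NormedAddCommGroup E] [InnerProductSpace ℝ E]

/-- The inverse of `V₀`. -/
noncomputable def Vinv (m : ℝ) (η : E) : E := A (fun s => s ^ (-m / (m + 2))) η

theorem Vinv_Vm {m : ℝ} (hm : -1 < m) (ξ : E) : Vinv m (Vm (fun s => s ^ m) ξ) = ξ := by
  rcases (norm_nonneg ξ).eq_or_lt with h0 | h0
  · have : ξ = 0 := norm_eq_zero.mp h0.symm
    subst this
    simp [Vinv, Vm, A]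
  · unfold Vinv A Vm
    have h1 : Real.sqrt (‖ξ‖ ^ m) = ‖ξ‖ ^ (m / 2) := by
      rw [Real.sqrt_eq_rpow, ← Real.rpow_mul h0.le]
      congr 1
      ring
    simp only [h1]
    have h2 : 0 < ‖ξ‖ ^ (m / 2) := Real.rpow_pos_of_pos h0 _
    have h3 : ‖‖ξ‖ ^ (m / 2) • ξ‖ = ‖ξ‖ ^ ((m + 2) / 2) := by
      rw [norm_smul, Real.norm_eq_abs, abs_of_pos h2]
      have : (m + 2) / 2 = m / 2 + 1 := by ring
      rw [this, Real.rpow_add h0, Real.rpow_one]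
    rw [h3, smul_smul, ← Real.rpow_mul h0.le, ← Real.rpow_add h0]
    have h4 : (m + 2) / 2 * (-m / (m + 2)) + m / 2 = 0 := by
      have : m + 2 ≠ 0 := by linarith
      field_simp
      ring
    rw [h4, Real.rpow_zero, one_smul]

theorem Vinv_holder {m : ℝ} (hm : -1 < m) (R : ℝ) : ∃ C : ℝ, 0 ≤ C ∧ ∀ η η' : E, ‖η‖ ≤ R →
    ‖η'‖ ≤ R → ‖Vinv m η - Vinv m η'‖ ≤ C * ‖η - η'‖ ^ (min 1 (2 / (m + 2))) := by
  set m' : ℝ := -m / (m + 2) with hm'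
  have h2 : 0 < m + 2 := by linarith
  have hm'1 : -1 < m' := by
    rw [hm', lt_div_iff₀ h2]
    linarith
  set L : ℝ := 1 + max 1 m' with hL
  have hLp : 0 < L := by have := le_max_left 1 m'; linarith
  have hR : 0 ≤ |R| ^ m' := Real.rpow_nonneg (abs_nonneg R) _
  have h2m : 0 < (2 : ℝ) ^ (-m') := Real.rpow_pos_of_pos (by norm_num) _
  refine ⟨L * (2 ^ (-m') + |R| ^ m'), by positivity, fun η η' hη hη' => ?_⟩
  have hpow : 0 ≤ ‖η - η'‖ ^ (min 1 (2 / (m + 2))) := Real.rpow_nonneg (norm_nonneg _) _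
  rcases (norm_nonneg (η - η')).eq_or_lt with hD | hD
  · have h3 : η = η' := sub_eq_zero.mp (norm_eq_zero.mp hD.symm)
    subst h3
    rw [sub_self, norm_zero]
    positivity
  have hM : 0 < max ‖η‖ ‖η'‖ := by
    by_contra hcon
    push Not at hcon
    have h3 : ‖η‖ ≤ 0 := (le_max_left _ _).trans hcon
    have h4 : ‖η'‖ ≤ 0 := (le_max_right _ _).trans hcon
    have h5 := norm_sub_le η η'
    linarith
  have hDM : ‖η - η'‖ ≤ 2 * max ‖η‖ ‖η'‖ := by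
    have h5 := norm_sub_le η η'
    have := le_max_left ‖η‖ ‖η'‖
    have := le_max_right ‖η‖ ‖η'‖
    linarith
  have h1 : ‖Vinv m η - Vinv m η'‖ ≤ L * ((max ‖η‖ ‖η'‖) ^ m' * ‖η - η'‖) :=
    alg_lip hm'1 (cl_pow m') η η'
  rcases le_or_gt 0 m with hm0 | hm0
  · have hm'0 : m' ≤ 0 := by
      rw [hm']
      exact div_nonpos_of_nonpos_of_nonneg (by linarith) h2.le
    have hmin : min 1 (2 / (m + 2)) = 1 + m' := by
      have h6 : 2 / (m + 2) = 1 + m' := by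
        rw [hm']
        field_simp
        ring
      rw [h6, min_eq_right (by linarith)]
    rw [hmin]
    have h7 : (max ‖η‖ ‖η'‖) ^ m' ≤ (‖η - η'‖ / 2) ^ m' :=
      Real.rpow_le_rpow_of_nonpos (by positivity) (by linarith) hm'0
    have h8 : (‖η - η'‖ / 2) ^ m' * ‖η - η'‖ = 2 ^ (-m') * ‖η - η'‖ ^ (1 + m') := by
      rw [Real.div_rpow hD.le (by norm_num), Real.rpow_add hD, Real.rpow_one, Real.rpow_neg (by norm_num)]
      ring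
    have h9 : 0 ≤ ‖η - η'‖ ^ (1 + m') := Real.rpow_nonneg hD.le _
    calc ‖Vinv m η - Vinv m η'‖ ≤ L * ((max ‖η‖ ‖η'‖) ^ m' * ‖η - η'‖) := h1
      _ ≤ L * ((‖η - η'‖ / 2) ^ m' * ‖η - η'‖) := by gcongr
      _ = L * 2 ^ (-m') * ‖η - η'‖ ^ (1 + m') := by rw [h8]; ring
      _ ≤ L * (2 ^ (-m') + |R| ^ m') * ‖η - η'‖ ^ (1 + m') := by
        gcongr
        linarith
  · have hm'0 : 0 < m' := by
      rw [hm']
      exact div_pos (by linarith) h2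
    have hmin : min 1 (2 / (m + 2)) = 1 := by
      apply min_eq_left
      rw [le_div_iff₀ h2]
      linarith
    rw [hmin, Real.rpow_one]
    have h7 : (max ‖η‖ ‖η'‖) ^ m' ≤ |R| ^ m' := by
      apply Real.rpow_le_rpow hM.le _ hm'0.le
      exact (max_le hη hη').trans (le_abs_self R)
    calc ‖Vinv m η - Vinv m η'‖ ≤ L * ((max ‖η‖ ‖η'‖) ^ m' * ‖η - η'‖) := h1
      _ ≤ L * (|R| ^ m' * ‖η - η'‖) := by gcongr
      _ = L * |R| ^ m' * ‖η - η'‖ := by ring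
      _ ≤ L * (2 ^ (-m') + |R| ^ m') * ‖η - η'‖ := by
        gcongr
        linarith

end PLH
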