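import Pool.Agent.Lib.PLH.C1

/-!
MODULE C3 (150 lines). The gauge distance is at most the length of horizontal curves.

Let `ℓ = ∫₀¹ √(a²+b²)`. `|x 1 - z.1| ≤ ∫|a| ≤ ℓ`, same for `y`, and `|x s - z.1|,|y s - z.2.1|` and even
`√((x s - z.1)²+(y s - z.2.1)²) ≤ ∫₀^s √(a²+b²) ≤ ℓ` (norm of the integral of a vector valued function:
`EuclideanSpace ℝ (Fin 2)` or `ℂ`). Last coordinate of `mul (inv z) w`, `w = (x 1, y 1, t 1)`:
`t 1 - z.2.2 - (z.1 y 1 - z.2.1 x 1)/2 = ∫₀¹ ((x-z.1) b - (y-z.2.1) a)/2`, absolute value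
`≤ (1/2)∫ ℓ √(a²+b²) = ℓ²/2`, so its square root is `≤ ℓ`.
-/

open MeasureTheory Set Filter Topology

namespace PLH

/-- `ℓ` is the length of an absolutely continuous horizontal curve from `z` to `w`: the curve is
`(x,y,t)` on `[0,1]` with `x' = a`, `y' = b`, `t' = (x b - y a)/2`, `a`, `b` integrable. -/
def IsLen (z w : Pt) (ℓ : ℝ) : Prop :=
  ∃ a b x y t : ℝ → ℝ, IntervalIntegrable a volume 0 1 ∧ IntervalIntegrable b volume 0 1 ∧
    (∀ s ∈ Icc (0 : ℝ) 1, x s = z.1 + ∫ r in (0 : ℝ)..s, a r) ∧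
    (∀ s ∈ Icc (0 : ℝ) 1, y s = z.2.1 + ∫ r in (0 : ℝ)..s, b r) ∧
    (∀ s ∈ Icc (0 : ℝ) 1, t s = z.2.2 + ∫ r in (0 : ℝ)..s, (x r * b r - y r * a r) / 2) ∧
    w = (x 1, y 1, t 1) ∧ ℓ = ∫ r in (0 : ℝ)..1, Real.sqrt (a r ^ 2 + b r ^ 2)

private theorem n_int {a b : ℝ → ℝ} (ha : IntervalIntegrable a volume 0 1) (hb : IntervalIntegrable b volume 0 1) :
    IntervalIntegrable (fun r => Real.sqrt (a r ^ 2 + b r ^ 2)) volume 0 1 := by
  have h1 : IntervalIntegrable (fun r => |a r| + |b r|) volume 0 1 := ha.abs.add hb.abs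
  refine h1.mono_fun' ?_ ?_
  · have ham := (intervalIntegrable_iff.mp ha).aestronglyMeasurable
    have hbm := (intervalIntegrable_iff.mp hb).aestronglyMeasurable
    exact Real.continuous_sqrt.comp_aestronglyMeasurable ((ham.pow 2).add (hbm.pow 2))
  · refine ae_of_all _ fun r => ?_
    change ‖Real.sqrt (a r ^ 2 + b r ^ 2)‖ ≤ |a r| + |b r|
    rw [Real.norm_of_nonneg (Real.sqrt_nonneg _), Real.sqrt_le_left (by positivity)]
    nlinarith [sq_abs (a r), sq_abs (b r), mul_nonneg (abs_nonneg (a r)) (abs_nonneg (b r))]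

private theorem vec_le {a b : ℝ → ℝ} (ha : IntervalIntegrable a volume 0 1) (hb : IntervalIntegrable b volume 0 1)
    {s : ℝ} (hs : s ∈ Icc (0 : ℝ) 1) :
    Real.sqrt ((∫ r in (0 : ℝ)..s, a r) ^ 2 + (∫ r in (0 : ℝ)..s, b r) ^ 2) ≤
      ∫ r in (0 : ℝ)..1, Real.sqrt (a r ^ 2 + b r ^ 2) := by
  have hsub : uIcc (0 : ℝ) s ⊆ uIcc (0 : ℝ) 1 := by
    rw [uIcc_of_le hs.1, uIcc_of_le (by norm_num)]
    exact Icc_subset_Icc le_rfl hs.2
  have ha' : IntervalIntegrable a volume 0 s := ha.mono_set hsub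
  have hb' : IntervalIntegrable b volume 0 s := hb.mono_set hsub
  have hn := n_int ha hb
  have hn' : IntervalIntegrable (fun r => Real.sqrt (a r ^ 2 + b r ^ 2)) volume 0 s := hn.mono_set hsub
  have hmono : ∫ r in (0 : ℝ)..s, Real.sqrt (a r ^ 2 + b r ^ 2) ≤ ∫ r in (0 : ℝ)..1, Real.sqrt (a r ^ 2 + b r ^ 2) := by
    refine intervalIntegral.integral_mono_interval le_rfl hs.1 hs.2 ?_ hn
    exact ae_of_all _ fun r => Real.sqrt_nonneg _
  set P := ∫ r in (0 : ℝ)..s, a r with hP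
  set Q := ∫ r in (0 : ℝ)..s, b r with hQ
  set R := Real.sqrt (P ^ 2 + Q ^ 2) with hR
  have hR0 : 0 ≤ R := Real.sqrt_nonneg _
  have hRsq : R ^ 2 = P ^ 2 + Q ^ 2 := Real.sq_sqrt (by positivity)
  have h1 : R ^ 2 = ∫ r in (0 : ℝ)..s, (P * a r + Q * b r) := by
    rw [intervalIntegral.integral_add (ha'.const_mul P) (hb'.const_mul Q), intervalIntegral.integral_const_mul,
      intervalIntegral.integral_const_mul, ← hP, ← hQ, hRsq]
    ring
  have h2 : ∫ r in (0 : ℝ)..s, (P * a r + Q * b r) ≤ ∫ r in (0 : ℝ)..s, R * Real.sqrt (a r ^ 2 + b r ^ 2) := by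
    refine intervalIntegral.integral_mono_on hs.1 ((ha'.const_mul P).add (hb'.const_mul Q)) (hn'.const_mul R) ?_
    intro r _
    rw [hR, ← Real.sqrt_mul (by positivity)]
    refine Real.le_sqrt_of_sq_le ?_
    nlinarith [sq_nonneg (P * b r - Q * a r)]
  rw [intervalIntegral.integral_const_mul] at h2
  have h3 : R ^ 2 ≤ R * ∫ r in (0 : ℝ)..s, Real.sqrt (a r ^ 2 + b r ^ 2) := by
    rw [h1]
    exact h2
  refine le_trans ?_ hmono
  rcases hR0.eq_or_lt with h0 | h0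
  · rw [← h0]
    exact intervalIntegral.integral_nonneg hs.1 fun r _ => Real.sqrt_nonneg _
  · rw [sq] at h3
    exact le_of_mul_le_mul_left h3 h0

theorem gd_le_len {z w : Pt} {ℓ : ℝ} (h : IsLen z w ℓ) : gd z w ≤ ℓ := by
  obtain ⟨a, b, x, y, t, ha, hb, hx, hy, ht, hw, hℓ⟩ := h
  have h1m : (1 : ℝ) ∈ Icc (0 : ℝ) 1 := ⟨by norm_num, le_rfl⟩
  have hv := vec_le ha hb h1m
  rw [← hℓ] at hv
  have hℓ0 : 0 ≤ ℓ := (Real.sqrt_nonneg _).trans hv
  have hx1 := hx 1 h1m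
  have hy1 := hy 1 h1m
  have ht1 := ht 1 h1m
  set P := ∫ r in (0 : ℝ)..1, a r with hP
  set Q := ∫ r in (0 : ℝ)..1, b r with hQ
  have hPl : |P| ≤ ℓ := by
    refine le_trans ?_ hv
    exact Real.abs_le_sqrt (by nlinarith [sq_nonneg Q])
  have hQl : |Q| ≤ ℓ := by
    refine le_trans ?_ hv
    exact Real.abs_le_sqrt (by nlinarith [sq_nonneg P])
  set X : ℝ → ℝ := fun r => ∫ u in (0 : ℝ)..r, a u with hX
  set Y : ℝ → ℝ := fun r => ∫ u in (0 : ℝ)..r, b u with hY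
  have hXc : ContinuousOn X (uIcc 0 1) := intervalIntegral.continuousOn_primitive_interval' ha left_mem_uIcc
  have hYc : ContinuousOn Y (uIcc 0 1) := intervalIntegral.continuousOn_primitive_interval' hb left_mem_uIcc
  have hXb : IntervalIntegrable (fun r => X r * b r) volume 0 1 := hb.continuousOn_mul hXc
  have hYa : IntervalIntegrable (fun r => Y r * a r) volume 0 1 := ha.continuousOn_mul hYc
  have hD : IntervalIntegrable (fun r => (X r * b r - Y r * a r) / 2) volume 0 1 := (hXb.sub hYa).div_const 2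
  have hn := n_int ha hb
  have ht2 : ∫ r in (0 : ℝ)..1, (x r * b r - y r * a r) / 2 =
      z.1 / 2 * Q - z.2.1 / 2 * P + ∫ r in (0 : ℝ)..1, (X r * b r - Y r * a r) / 2 := by
    have h1 : ∫ r in (0 : ℝ)..1, (x r * b r - y r * a r) / 2 =
        ∫ r in (0 : ℝ)..1, ((z.1 / 2 * b r - z.2.1 / 2 * a r) + (X r * b r - Y r * a r) / 2) := by
      refine intervalIntegral.integral_congr fun r hr => ?_
      rw [uIcc_of_le (by norm_num)] at hr
      simp only [hx r hr, hy r hr, hX, hY]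
      ring
    rw [h1, intervalIntegral.integral_add ((hb.const_mul _).sub (ha.const_mul _)) hD,
      intervalIntegral.integral_sub (hb.const_mul _) (ha.const_mul _), intervalIntegral.integral_const_mul,
      intervalIntegral.integral_const_mul]
  have hq : |∫ r in (0 : ℝ)..1, (X r * b r - Y r * a r) / 2| ≤ ℓ ^ 2 / 2 := by
    have h1 : ∀ r ∈ Icc (0 : ℝ) 1, |(X r * b r - Y r * a r) / 2| ≤ ℓ / 2 * Real.sqrt (a r ^ 2 + b r ^ 2) := by
      intro r hr
      have h2 := vec_le ha hb hr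
      rw [← hℓ] at h2
      have h3 : |X r * b r - Y r * a r| ≤ Real.sqrt (X r ^ 2 + Y r ^ 2) * Real.sqrt (a r ^ 2 + b r ^ 2) := by
        rw [← Real.sqrt_mul (by positivity)]
        refine Real.abs_le_sqrt ?_
        nlinarith [sq_nonneg (X r * a r + Y r * b r)]
      have h4 : Real.sqrt (X r ^ 2 + Y r ^ 2) * Real.sqrt (a r ^ 2 + b r ^ 2) ≤ ℓ * Real.sqrt (a r ^ 2 + b r ^ 2) := by
        exact mul_le_mul_of_nonneg_right h2 (Real.sqrt_nonneg _)
      rw [abs_div, abs_two]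
      linarith
    calc |∫ r in (0 : ℝ)..1, (X r * b r - Y r * a r) / 2| ≤ ∫ r in (0 : ℝ)..1, |(X r * b r - Y r * a r) / 2| :=
          intervalIntegral.abs_integral_le_integral_abs (by norm_num)
      _ ≤ ∫ r in (0 : ℝ)..1, ℓ / 2 * Real.sqrt (a r ^ 2 + b r ^ 2) :=
          intervalIntegral.integral_mono_on (by norm_num) hD.abs (hn.const_mul _) h1
      _ = ℓ ^ 2 / 2 := by
        rw [intervalIntegral.integral_const_mul, ← hℓ]
        ring
  subst hw
  unfold gd mul inv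
  have e1 : -z.1 + x 1 = P := by rw [hx1]; ring
  have e2 : -z.2.1 + y 1 = Q := by rw [hy1]; ring
  have e3 : -z.2.2 + t 1 + (-z.1 * y 1 - -z.2.1 * x 1) / 2 = ∫ r in (0 : ℝ)..1, (X r * b r - Y r * a r) / 2 := by
    rw [ht1, ht2, hx1, hy1]
    ring
  simp only [e1, e2, e3]
  refine max_le (max_le hPl hQl) ?_
  rw [Real.sqrt_le_left hℓ0]
  nlinarith

end PLH
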