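import Pool.Agent.Lib.PLH.D4
import Pool.Agent.Lib.PLH.A5
import Pool.Agent.Lib.PLH.A6

/-!
MODULE D5 (300 lines). The estimate of the `t`-differences of `V`.

Let `V₀ = c = V(ξ₀)` (`Vm_surj`), `S = ‖ξ₀‖`, `w = u∘vT.fl s - u`, `Δξ = ξ∘vT.fl s - ξ` its gradient on
`U' = U ∩ (vT.fl s)⁻¹ U ⊇ nb Rg`. (1) `shift` (pair `ξ z`, `ξ₀`, parameter `ε₁`):
`a(‖ξ‖+y)y² ≤ C₁ a(S+y)y² + ε₁‖V-V₀‖²`, `y = ‖w-c'‖`. (2) `a(S+y)y² ≤ C psi a S y` (`psi_facts`).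
(3) `good_ring` for `ψ = psi a S`: `∫_{Rg}∫_{Rg} ψ(‖w p - w q‖) ≤ K ∫_{nb Rg} ψ(‖Δξ‖)`; choose `q ∈ Rg`
with `∫_{Rg} ψ(‖w p - w q‖) dp ≤ |Rg|⁻¹ K ∫_{nb Rg} ψ(‖Δξ‖)` (`exists_le` average) and `c' = w q`.
(4) `ψ(‖Δξ‖) ≤ a(S+‖Δξ‖)‖Δξ‖² ≤ C₂ a(‖ξ‖+‖Δξ‖)‖Δξ‖² + ε₂‖V-V₀‖²` (`shift` for the pair `ξ₀`, `ξ z`) and
`a(‖ξ‖+‖Δξ‖)‖Δξ‖² ≤ C₃‖ΔV‖²` (`phiV`). (5) `∫_{nb Rg}‖ΔV‖² ≤ s² ∫_{bx 2 4 \ bx (1/4)(1/16)} ‖Vt‖²`
(`WD.sq_le` for `V` and `vT`, `S = nb Rg`, the vertical segments of length `≤ 1/2` starting in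
`nb Rg` stay in that set: either `|x|` or `|y|` is `≥ 1/2-1/16 ≥ 1/4`, or `|t| ≥ 3/4-1/16-1/2 ≥ 1/16`).
(6) `nb Rg ⊆ bx 2 4`. Collect: `cac_td` gives
`∫ ‖ΔV‖² ≤ K[C₁ C (K'(C₂C₃ ∫‖Vt‖² + ε₂ ∫‖V-V₀‖²)) + ε₁∫‖V-V₀‖²]`; choose `ε₁`, then `ε₂`.
All functions involved are integrable (bounded coefficients, `L²` functions on bounded sets), so
pass between `lintegral` and `integral` with `ofReal_integral_eq_lintegral_ofReal`.
-/

open MeasureTheory Set Filter Topology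
open scoped ContDiff ENNReal

namespace PLH

private theorem d5_norm_lt {z w : Pt} {r : ℝ} (h : ‖w - z‖ < r) :
    |w.1 - z.1| < r ∧ |w.2.1 - z.2.1| < r ∧ |w.2.2 - z.2.2| < r := by
  have h1 : ‖(w - z).1‖ ≤ ‖w - z‖ := norm_fst_le _
  have h2 : ‖(w - z).2‖ ≤ ‖w - z‖ := norm_snd_le _
  have h3 : ‖(w - z).2.1‖ ≤ ‖(w - z).2‖ := norm_fst_le _
  have h4 : ‖(w - z).2.2‖ ≤ ‖(w - z).2‖ := norm_snd_le _
  refine ⟨?_, ?_, ?_⟩
  · exact lt_of_le_of_lt h1 h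
  · exact lt_of_le_of_lt (h3.trans h2) h
  · exact lt_of_le_of_lt (h4.trans h2) h

private theorem d5_c1 : Continuous fun z : Pt => |z.1| := by fun_prop

private theorem d5_c2 : Continuous fun z : Pt => |z.2.1| := by fun_prop

private theorem d5_c3 : Continuous fun z : Pt => |z.2.2| := by fun_prop

private theorem d5_bx_open (ρ h : ℝ) : IsOpen (bx ρ h) :=
  (isOpen_lt d5_c1 continuous_const).inter
    ((isOpen_lt d5_c2 continuous_const).inter (isOpen_lt d5_c3 continuous_const))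

private theorem d5_Rg_open : IsOpen Rg := by
  have h1 : IsOpen (bx 1 1) := d5_bx_open 1 1
  have h2 : IsClosed {z : Pt | |z.1| ≤ 1 / 2 ∧ |z.2.1| ≤ 1 / 2 ∧ |z.2.2| ≤ 3 / 4} :=
    (isClosed_le d5_c1 continuous_const).inter
      ((isClosed_le d5_c2 continuous_const).inter (isClosed_le d5_c3 continuous_const))
  exact h1.inter h2.isOpen_compl

private theorem d5_Rg_sub : Rg ⊆ Metric.closedBall (0 : Pt) 1 := by
  intro z hz
  obtain ⟨⟨h1, h2, h3⟩, _⟩ := hz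
  rw [mem_closedBall_zero_iff, Prod.norm_def, Prod.norm_def]
  refine max_le h1.le (max_le h2.le h3.le)

private theorem d5_Rg_pos : volume Rg ≠ 0 := by
  refine (d5_Rg_open.measure_pos volume ⟨(3 / 4, 0, 0), ?_⟩).ne'
  refine ⟨⟨?_, ?_, ?_⟩, ?_⟩
  · show |(3 / 4 : ℝ)| < 1
    norm_num [abs_of_pos]
  · show |(0 : ℝ)| < 1
    norm_num
  · show |(0 : ℝ)| < 1
    norm_num
  · rintro ⟨h, _⟩
    have : |(3 / 4 : ℝ)| ≤ 1 / 2 := h
    norm_num [abs_of_pos] at this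

private theorem d5_Rg_fin : volume Rg ≠ ⊤ :=
  ((measure_mono d5_Rg_sub).trans_lt measure_closedBall_lt_top).ne

private theorem d5_nb_open (S : Set Pt) : IsOpen (nb S) := by
  have : nb S = ⋃ z ∈ S, Metric.ball z (1 / 16) := by
    ext w
    simp only [nb, mem_ofPred_eq, mem_iUnion, Metric.mem_ball, dist_eq_norm, exists_prop]
  rw [this]
  exact isOpen_biUnion fun z _ => Metric.isOpen_ball

private theorem d5_nb {w : Pt} (h : w ∈ nb Rg) : |w.1| < 17 / 16 ∧ |w.2.1| < 17 / 16 ∧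
    |w.2.2| < 17 / 16 ∧ ¬ (|w.1| ≤ 7 / 16 ∧ |w.2.1| ≤ 7 / 16 ∧ |w.2.2| ≤ 11 / 16) := by
  obtain ⟨z, ⟨⟨z1, z2, z3⟩, hz⟩, hw⟩ := h
  obtain ⟨h1, h2, h3⟩ := d5_norm_lt hw
  have key : ∀ a b c : ℝ, |a - b| < 1 / 16 → |b| < c → |a| < c + 1 / 16 := by
    intro a b c h1 h2
    have : a = (a - b) + b := by ring
    calc |a| = |(a - b) + b| := by rw [← this]
      _ ≤ |a - b| + |b| := abs_add_le _ _
      _ < c + 1 / 16 := by linarith
  have key2 : ∀ a b c : ℝ, |a - b| < 1 / 16 → |a| ≤ c → |b| ≤ c + 1 / 16 := by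
    intro a b c h1 h2
    have : b = a - (a - b) := by ring
    calc |b| = |a - (a - b)| := by rw [← this]
      _ ≤ |a| + |a - b| := abs_sub _ _
      _ ≤ c + 1 / 16 := by linarith
  refine ⟨by have := key _ _ _ h1 z1; linarith, by have := key _ _ _ h2 z2; linarith,
    by have := key _ _ _ h3 z3; linarith, ?_⟩
  rintro ⟨a1, a2, a3⟩
  apply hz
  refine ⟨?_, ?_, ?_⟩
  · have := key2 _ _ _ h1 a1; linarith
  · have := key2 _ _ _ h2 a2; linarith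
  · have := key2 _ _ _ h3 a3; linarith

private theorem d5_fl (s : ℝ) (z : Pt) : vT.fl s z = (z.1, z.2.1, z.2.2 + s) := by
  unfold VF.fl vT
  refine Prod.ext ?_ (Prod.ext ?_ ?_) <;> simp

private theorem d5_path {w : Pt} (h : w ∈ nb Rg) {s : ℝ} (hs : |s| ≤ 1 / 2) :
    vT.fl s w ∈ bx 2 4 \ bx (1 / 4) (1 / 16) := by
  obtain ⟨h1, h2, h3, h4⟩ := d5_nb h
  rw [d5_fl]
  refine ⟨⟨?_, ?_, ?_⟩, ?_⟩
  · show |w.1| < 2
    linarith
  · show |w.2.1| < 2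
    linarith
  · show |w.2.2 + s| < 4
    calc |w.2.2 + s| ≤ |w.2.2| + |s| := abs_add_le _ _
      _ < 4 := by linarith
  · rintro ⟨a1, a2, a3⟩
    apply h4
    have a1' : |w.1| < 1 / 4 := a1
    have a2' : |w.2.1| < 1 / 4 := a2
    have a3' : |w.2.2 + s| < 1 / 16 := a3
    refine ⟨by linarith, by linarith, ?_⟩
    have : w.2.2 = (w.2.2 + s) - s := by ring
    calc |w.2.2| = |(w.2.2 + s) - s| := by rw [← this]
      _ ≤ |w.2.2 + s| + |s| := abs_sub _ _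
      _ ≤ 11 / 16 := by linarith

private theorem d5_bx_sub {ρ h : ℝ} {U : Set Pt} (h2 : ρ ≤ 2) (h4 : h ≤ 4)
    (hU : {z : Pt | |z.1| ≤ 2 ∧ |z.2.1| ≤ 2 ∧ |z.2.2| ≤ 4} ⊆ U) : bx ρ h ⊆ U := by
  rintro z ⟨z1, z2, z3⟩
  exact hU ⟨by linarith, by linarith, by linarith⟩

private theorem d5_bx_meas (ρ h : ℝ) : MeasurableSet (bx ρ h) := (d5_bx_open ρ h).measurableSet

private theorem d5_bx_fin (ρ h : ℝ) : volume (bx ρ h) ≠ ⊤ := by
  have hsub : bx ρ h ⊆ Metric.closedBall (0 : Pt) (max ρ h) := by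
    rintro z ⟨z1, z2, z3⟩
    rw [mem_closedBall_zero_iff, Prod.norm_def, Prod.norm_def]
    refine max_le (z1.le.trans (le_max_left _ _)) (max_le (z2.le.trans (le_max_left _ _))
      (z3.le.trans (le_max_right _ _)))
  exact ((measure_mono hsub).trans_lt measure_closedBall_lt_top).ne

/-- integral and lower integral of a nonnegative function -/
private theorem d5_int_le {μ : Measure Pt} {F : Pt → ℝ} (hF : ∀ z, 0 ≤ F z) :
    ENNReal.ofReal (∫ z, F z ∂μ) ≤ ∫⁻ z, ENNReal.ofReal (F z) ∂μ := by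
  by_cases h : Integrable F μ
  · rw [ofReal_integral_eq_lintegral_ofReal h (ae_of_all _ hF)]
  · rw [integral_undef h]
    simp

/-- choice of the centre -/
private theorem d5_center {W : Type*} [NormedAddCommGroup W] {C : ℝ} {ψ : ℝ → ℝ} (hψ : Yng C ψ)
    {S : Set Pt} (hS0 : volume S ≠ 0) (hS1 : volume S ≠ ⊤) {w : Pt → W}
    (hw : AEStronglyMeasurable w (volume.restrict S)) {M : ℝ≥0∞}
    (hM : ∫⁻ p in S, ∫⁻ q in S, ENNReal.ofReal (ψ ‖w p - w q‖) ≤ M) :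
    ∃ q ∈ S, ∫⁻ p in S, ENNReal.ofReal (ψ ‖w q - w p‖) ≤ (volume S)⁻¹ * M := by
  have hmeas : Measurable (fun y : ℝ => ψ (max y 0)) := by
    apply Monotone.measurable
    intro a b hab
    exact hψ.mono (mem_Ici.2 (le_max_right _ _)) (mem_Ici.2 (le_max_right _ _))
      (max_le_max_right 0 hab)
  obtain ⟨w', hw', hww⟩ := hw
  have hf : AEMeasurable (fun p => ∫⁻ q in S, ENNReal.ofReal (ψ ‖w p - w q‖))
      (volume.restrict S) := by
    have h1 : Measurable (Function.uncurry fun (p q : Pt) =>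
        ENNReal.ofReal (ψ (max ‖w' p - w' q‖ 0))) := by
      have h2 : StronglyMeasurable fun x : Pt × Pt => w' x.1 - w' x.2 :=
        (hw'.comp_measurable measurable_fst).sub (hw'.comp_measurable measurable_snd)
      exact (hmeas.comp h2.norm.measurable).ennreal_ofReal
    have h3 : Measurable fun p => ∫⁻ q in S, ENNReal.ofReal (ψ (max ‖w' p - w' q‖ 0)) :=
      h1.lintegral_prod_right
    refine ⟨_, h3, ?_⟩
    filter_upwards [hww] with p hp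
    refine lintegral_congr_ae ?_
    filter_upwards [hww] with q hq
    rw [hp, hq, max_eq_left (norm_nonneg _)]
  obtain ⟨q, hq, h⟩ := exists_le_setLAverage hS0 hS1 hf
  refine ⟨q, hq, h.trans ?_⟩
  rw [setLAverage_eq, ENNReal.div_eq_inv_mul]
  gcongr


private theorem d5_e1 {E : Type*} [NormedAddCommGroup E] (x : E) :
    ENNReal.ofReal (‖x‖ ^ 2) = ‖x‖ₑ ^ 2 := by
  rw [ENNReal.ofReal_pow (norm_nonneg _), ofReal_norm]

private theorem d5_J {μ : Measure Pt} {E : Type*} [NormedAddCommGroup E] {f : Pt → E}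
    (hf : MemLp f 2 μ) :
    ∫⁻ z, ENNReal.ofReal (‖f z‖ ^ 2) ∂μ = ENNReal.ofReal (∫ z, ‖f z‖ ^ 2 ∂μ) :=
  (ofReal_integral_eq_lintegral_ofReal hf.norm.integrable_sq
    (ae_of_all _ fun z => by positivity)).symm

private theorem d5_comb {x y α β : ℝ} (hx : 0 ≤ x) (hy : 0 ≤ y) (hα : 0 ≤ α) (hβ : 0 ≤ β) :
    ENNReal.ofReal α * ENNReal.ofReal x + ENNReal.ofReal β * ENNReal.ofReal y =
      ENNReal.ofReal (α * x + β * y) := by
  rw [← ENNReal.ofReal_mul hα, ← ENNReal.ofReal_mul hβ,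
    ← ENNReal.ofReal_add (mul_nonneg hα hx) (mul_nonneg hβ hy)]

private theorem d5_comb2 {x α β : ℝ} (hα : 0 ≤ α) (hβ : 0 ≤ β) :
    ENNReal.ofReal α * (ENNReal.ofReal β * ENNReal.ofReal x) =
      ENNReal.ofReal (α * (β * x)) := by
  rw [← ENNReal.ofReal_mul hβ, ← ENNReal.ofReal_mul hα]

private theorem d5_arith {Kc C vi K D I1 I2 ε ε1 ε2 B : ℝ} (hKc : 0 ≤ Kc) (hI1 : 0 ≤ I1)
    (hε : 0 < ε) (hB0 : 0 ≤ B) (hB : B = Kc * (C * (vi * K))) (h1 : ε1 = ε / (2 * (Kc + 1)))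
    (h2 : ε2 = ε / (2 * (B + 1))) :
    Kc * (C * (vi * (K * (D * I2 + ε2 * I1))) + ε1 * I1) ≤ ε * I1 + B * D * I2 := by
  have a1 : Kc * ε1 ≤ ε / 2 := by
    rw [h1, mul_div_assoc', div_le_div_iff₀ (by positivity) (by positivity)]
    nlinarith
  have a2 : B * ε2 ≤ ε / 2 := by
    rw [h2, mul_div_assoc', div_le_div_iff₀ (by positivity) (by positivity)]
    nlinarith
  have a3 := mul_le_mul_of_nonneg_right a1 hI1
  have a4 := mul_le_mul_of_nonneg_right a2 hI1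
  have e : Kc * (C * (vi * (K * (D * I2 + ε2 * I1))) + ε1 * I1) =
      B * ε2 * I1 + Kc * ε1 * I1 + B * D * I2 := by rw [hB]; ring
  rw [e]
  linarith

private theorem d5_split {μ : Measure Pt} {F G : Pt → ℝ≥0∞} {H : Pt → ℝ} {α β : ℝ}
    (hH : AEMeasurable (fun z => ENNReal.ofReal (H z)) μ)
    (h : ∀ z, F z ≤ ENNReal.ofReal α * G z + ENNReal.ofReal β * ENNReal.ofReal (H z)) :
    ∫⁻ z, F z ∂μ ≤ ENNReal.ofReal α * (∫⁻ z, G z ∂μ) +
      ENNReal.ofReal β * ∫⁻ z, ENNReal.ofReal (H z) ∂μ := by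
  calc ∫⁻ z, F z ∂μ ≤ ∫⁻ z, (ENNReal.ofReal α * G z +
        ENNReal.ofReal β * ENNReal.ofReal (H z)) ∂μ := lintegral_mono h
    _ = (∫⁻ z, ENNReal.ofReal α * G z ∂μ) +
        ∫⁻ z, ENNReal.ofReal β * ENNReal.ofReal (H z) ∂μ :=
      lintegral_add_right' _ (hH.const_mul _)
    _ = _ := by
      rw [lintegral_const_mul' _ _ ENNReal.ofReal_ne_top,
        lintegral_const_mul' _ _ ENNReal.ofReal_ne_top]

variable (W : Type*) [NormedAddCommGroup W] [InnerProductSpace ℝ W] [FiniteDimensional ℝ W]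

private theorem d5_WD {U : Set Pt} (hU : IsOpen U) {E : Type*} [NormedAddCommGroup E]
    [NormedSpace ℝ E] [CompleteSpace E] {f g : Pt → E} (s : ℝ) :
    (WD vX U f g → WD vX (U ∩ vT.fl s ⁻¹' U) (fun z => f (vT.fl s z) - f z)
      (fun z => g (vT.fl s z) - g z)) ∧
    (WD vY U f g → WD vY (U ∩ vT.fl s ⁻¹' U) (fun z => f (vT.fl s z) - f z)
      (fun z => g (vT.fl s z) - g z)) := by
  have e : vT.fl s = tau (0, 0, s) 1 := by
    funext z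
    exact vT_fl s z
  rw [e]
  constructor
  · intro h
    have h1 := h.tauX hU (0, 0, s) one_pos
    simp only [one_smul] at h1
    exact (h1.mono inter_subset_right).sub (h.mono inter_subset_left)
  · intro h
    have h1 := h.tauY hU (0, 0, s) one_pos
    simp only [one_smul] at h1
    exact (h1.mono inter_subset_right).sub (h.mono inter_subset_left)

private theorem d5_main {m : ℝ} (hm : -1 < m) {ε : ℝ} (hε : 0 < ε) : ∃ K : ℝ, 0 ≤ K ∧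
    ∀ (a : ℝ → ℝ), Nice m a →
    ∀ (U : Set Pt), IsOpen U → {z : Pt | |z.1| ≤ 2 ∧ |z.2.1| ≤ 2 ∧ |z.2.2| ≤ 4} ⊆ U →
    ∀ (u : Pt → W) (ξ Vt : Pt → V2 W), SolU a U u ξ →
    MemLp ξ 2 (volume.restrict U) → MemLp Vt 2 (volume.restrict U) →
    WD vT U (fun z => Vm a (ξ z)) Vt → ∀ s : ℝ, |s| ≤ 1 / 2 → ∀ c : V2 W,
    ∫ z in bx (1 / 2) (3 / 4), ‖Vm a (ξ (vT.fl s z)) - Vm a (ξ z)‖ ^ 2 ≤
      ε * (∫ z in bx 2 4, ‖Vm a (ξ z) - c‖ ^ 2) +
        K * ∫ z in bx 2 4 \ bx (1 / 4) (1 / 16), ‖Vt z‖ ^ 2 := by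
  obtain ⟨Kc, hKc, hcac⟩ := cac_td W hm
  obtain ⟨Cψ, hCψ, hpsi⟩ := psi_facts hm
  obtain ⟨K, hK, hgood⟩ := good_ring W hCψ
  obtain ⟨C3, hC3, hphi⟩ := phiV (V2 W) hm
  have hε1 : 0 < ε / (2 * (Kc + 1)) := by positivity
  obtain ⟨C1, hC1, hsh1⟩ := shift (V2 W) hm hε1
  set ε1 := ε / (2 * (Kc + 1)) with hε1d
  set vi : ℝ := ((volume Rg)⁻¹).toReal with hvi
  have hvi0 : 0 ≤ vi := ENNReal.toReal_nonneg
  have hCψ0 : 0 ≤ Cψ := by linarith
  set B : ℝ := Kc * (C1 * Cψ * (vi * K)) with hB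
  have hB0 : 0 ≤ B := by positivity
  have hε2 : 0 < ε / (2 * (B + 1)) := by positivity
  obtain ⟨C2, hC2, hsh2⟩ := shift (V2 W) hm hε2
  set ε2 := ε / (2 * (B + 1)) with hε2d
  refine ⟨B * (C2 * C3), by positivity, fun a ha U hU hUs u ξ Vt hsol hξ hVt hWD s hs c => ?_⟩
  obtain ⟨ξ₀, hξ₀⟩ := Vm_surj (E := V2 W) ha c
  obtain ⟨L, l, hl, hLA, hLV, hlow⟩ := nice_lip (E := V2 W) hm ha
  set S : ℝ := ‖ξ₀‖ with hS
  obtain ⟨hY, hpu, hpl⟩ := hpsi a ha S (norm_nonneg _)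
  -- sets
  have hnbU : nb Rg ⊆ U ∩ vT.fl s ⁻¹' U := by
    intro z hz
    obtain ⟨h1, h2, h3, _⟩ := d5_nb hz
    refine ⟨hUs ⟨by linarith, by linarith, by linarith⟩, ?_⟩
    exact d5_bx_sub le_rfl le_rfl hUs (d5_path hz hs).1
  have hnb24 : nb Rg ⊆ bx 2 4 := by
    intro z hz
    obtain ⟨h1, h2, h3, _⟩ := d5_nb hz
    exact ⟨by linarith, by linarith, by linarith⟩
  have hRnb : Rg ⊆ nb Rg := fun z hz => ⟨z, hz, by simp⟩
  have hR24 : Rg ⊆ bx 2 4 := hRnb.trans hnb24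
  have h24U : bx 2 4 ⊆ U := d5_bx_sub le_rfl le_rfl hUs
  -- the functions
  have wX := (d5_WD hU s).1 hsol.gx
  have wY := (d5_WD hU s).2 hsol.gy
  have hV0 : MemLp (fun z => Vm a (ξ z)) 2 (volume.restrict U) :=
    hLV.comp_memLp (Vm_zero a) hξ
  have hV24 : MemLp (fun z => Vm a (ξ z)) 2 (volume.restrict (bx 2 4)) :=
    hV0.mono_measure (Measure.restrict_mono h24U le_rfl)
  have : IsFiniteMeasure (volume.restrict (bx 2 4)) := ⟨by
    rw [Measure.restrict_apply_univ]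
    exact lt_top_iff_ne_top.2 (d5_bx_fin 2 4)⟩
  have hVc : MemLp (fun z => Vm a (ξ z) - c) 2 (volume.restrict (bx 2 4)) :=
    hV24.sub (memLp_const c)
  have hVt' : MemLp Vt 2 (volume.restrict (bx 2 4 \ bx (1 / 4) (1 / 16))) :=
    hVt.mono_measure (Measure.restrict_mono (sdiff_subset.trans h24U) le_rfl)
  have hJ1 := d5_J hVc
  have hJ2 := d5_J hVt'
  set I1 : ℝ := ∫ z in bx 2 4, ‖Vm a (ξ z) - c‖ ^ 2 with hI1
  set I2 : ℝ := ∫ z in bx 2 4 \ bx (1 / 4) (1 / 16), ‖Vt z‖ ^ 2 with hI2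
  have hI10 : 0 ≤ I1 := integral_nonneg fun z => by positivity
  have hI20 : 0 ≤ I2 := integral_nonneg fun z => by positivity
  have hmeas : ∀ T : Set Pt, T ⊆ bx 2 4 →
      AEMeasurable (fun z => ENNReal.ofReal (‖Vm a (ξ z) - c‖ ^ 2)) (volume.restrict T) := by
    intro T hT
    have h1 := (hVc.aestronglyMeasurable.norm.aemeasurable.pow_const 2).ennreal_ofReal
    exact h1.mono_measure (Measure.restrict_mono hT le_rfl)
  have hJT : ∀ T : Set Pt, T ⊆ bx 2 4 →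
      ∫⁻ z in T, ENNReal.ofReal (‖Vm a (ξ z) - c‖ ^ 2) ≤ ENNReal.ofReal I1 := by
    intro T hT
    rw [← hJ1]
    exact lintegral_mono_set hT
  -- the gradient term
  have hD : ∫⁻ z in nb Rg, ENNReal.ofReal (psi a S ‖ξ (vT.fl s z) - ξ z‖) ≤
      ENNReal.ofReal (C2 * C3) * ENNReal.ofReal I2 + ENNReal.ofReal ε2 * ENNReal.ofReal I1 := by
    have h1 : ∀ z, ENNReal.ofReal (psi a S ‖ξ (vT.fl s z) - ξ z‖) ≤
        ENNReal.ofReal (C2 * C3) * ENNReal.ofReal (‖Vm a (ξ (vT.fl s z)) - Vm a (ξ z)‖ ^ 2) +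
          ENNReal.ofReal ε2 * ENNReal.ofReal (‖Vm a (ξ z) - c‖ ^ 2) := by
      intro z
      have h2 := hpu ‖ξ (vT.fl s z) - ξ z‖ (norm_nonneg _)
      have h3 := hsh2 a ha.toCl ξ₀ (ξ z) ‖ξ (vT.fl s z) - ξ z‖ (norm_nonneg _)
      have h4 := hphi a ha.toCl (ξ z) (ξ (vT.fl s z))
      rw [norm_sub_rev (ξ z) (ξ (vT.fl s z)), norm_sub_rev (Vm a (ξ z))] at h4
      rw [hξ₀, norm_sub_rev c] at h3
      have h5 : psi a S ‖ξ (vT.fl s z) - ξ z‖ ≤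
          C2 * C3 * ‖Vm a (ξ (vT.fl s z)) - Vm a (ξ z)‖ ^ 2 +
            ε2 * ‖Vm a (ξ z) - c‖ ^ 2 := by
        calc psi a S ‖ξ (vT.fl s z) - ξ z‖ ≤ _ := h2
          _ ≤ _ := h3
          _ ≤ _ := by
            have := mul_le_mul_of_nonneg_left h4 hC2
            linarith
      rw [← ENNReal.ofReal_mul (by positivity), ← ENNReal.ofReal_mul hε2.le,
        ← ENNReal.ofReal_add (by positivity) (by positivity)]
      exact ENNReal.ofReal_le_ofReal h5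
    refine (d5_split (hmeas _ hnb24) h1).trans ?_
    have h6 : ∫⁻ z in nb Rg, ENNReal.ofReal (‖Vm a (ξ (vT.fl s z)) - Vm a (ξ z)‖ ^ 2) ≤
        ENNReal.ofReal I2 := by
      have h7 := hWD.lsq_le hU (d5_nb_open Rg).measurableSet
        ((d5_bx_meas 2 4).diff (d5_bx_meas (1 / 4) (1 / 16))) (sdiff_subset.trans h24U) s
        (fun z hz σ hσ => by
          refine d5_path hz ?_
          rw [abs_mul, abs_of_nonneg hσ.1]
          calc σ * |s| ≤ 1 * |s| := mul_le_mul_of_nonneg_right hσ.2 (abs_nonneg _)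
            _ ≤ 1 / 2 := by rw [one_mul]; exact hs)
      simp only [← d5_e1] at h7
      rw [hJ2] at h7
      refine h7.trans ?_
      have h8 : ENNReal.ofReal (s ^ 2) ≤ 1 := by
        rw [← ENNReal.ofReal_one]
        apply ENNReal.ofReal_le_ofReal
        rw [← sq_abs]
        nlinarith [abs_nonneg s]
      calc ENNReal.ofReal (s ^ 2) * ENNReal.ofReal I2 ≤ 1 * ENNReal.ofReal I2 := by gcongr
        _ = _ := one_mul _
    gcongr
    exact hJT _ hnb24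
  -- the centre
  have hwm : AEStronglyMeasurable (fun z => u (vT.fl s z) - u z) (volume.restrict Rg) :=
    wX.lf.aestronglyMeasurable.mono_measure
      (Measure.restrict_mono (hRnb.trans hnbU) le_rfl)
  have hg := hgood (psi a S) hY (U ∩ vT.fl s ⁻¹' U)
    (hU.inter (hU.preimage (vT.flH s).continuous)) hnbU (fun z => u (vT.fl s z) - u z)
    (fun z => ξ (vT.fl s z) - ξ z) wX wY
  obtain ⟨q, hq, hqle⟩ := d5_center hY d5_Rg_pos d5_Rg_fin hwm hg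
  -- Caccioppoli
  have hc := hcac a ha U hU hUs u ξ hsol s hs (u (vT.fl s q) - u q)
  set w : Pt → W := fun z => u (vT.fl s z) - u z with hw
  have hF0 : ∀ z, 0 ≤ a (‖ξ z‖ + ‖w z - w q‖) * ‖w z - w q‖ ^ 2 := fun z =>
    mul_nonneg (ha.pos' (by positivity)).le (by positivity)
  have hX0 : 0 ≤ vi * (K * (C2 * C3 * I2 + ε2 * I1)) :=
    mul_nonneg hvi0 (mul_nonneg hK (add_nonneg (mul_nonneg (mul_nonneg hC2 hC3) hI20)
      (mul_nonneg hε2.le hI10)))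
  have hXX0 : 0 ≤ C1 * Cψ * (vi * (K * (C2 * C3 * I2 + ε2 * I1))) + ε1 * I1 :=
    add_nonneg (mul_nonneg (mul_nonneg hC1 hCψ0) hX0) (mul_nonneg hε1.le hI10)
  have hE : ENNReal.ofReal (∫ z in Rg, a (‖ξ z‖ + ‖w z - w q‖) * ‖w z - w q‖ ^ 2) ≤
      ENNReal.ofReal (C1 * Cψ * (vi * (K * (C2 * C3 * I2 + ε2 * I1))) + ε1 * I1) := by
    refine (d5_int_le hF0).trans ?_
    have h1 : ∀ z, ENNReal.ofReal (a (‖ξ z‖ + ‖w z - w q‖) * ‖w z - w q‖ ^ 2) ≤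
        ENNReal.ofReal (C1 * Cψ) * ENNReal.ofReal (psi a S ‖w q - w z‖) +
          ENNReal.ofReal ε1 * ENNReal.ofReal (‖Vm a (ξ z) - c‖ ^ 2) := by
      intro z
      have h2 := hsh1 a ha.toCl (ξ z) ξ₀ ‖w z - w q‖ (norm_nonneg _)
      have h3 := hpl ‖w z - w q‖ (norm_nonneg _)
      rw [hξ₀] at h2
      have hp0 : 0 ≤ psi a S ‖w z - w q‖ := by
        have := hY.mono (mem_Ici.2 (le_refl (0 : ℝ))) (mem_Ici.2 (norm_nonneg (w z - w q)))
          (norm_nonneg _)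
        rwa [hY.zero] at this
      have h5 : a (‖ξ z‖ + ‖w z - w q‖) * ‖w z - w q‖ ^ 2 ≤
          C1 * Cψ * psi a S ‖w z - w q‖ + ε1 * ‖Vm a (ξ z) - c‖ ^ 2 := by
        have := mul_le_mul_of_nonneg_left h3 hC1
        linarith
      rw [norm_sub_rev (w q) (w z), ← ENNReal.ofReal_mul (by positivity),
        ← ENNReal.ofReal_mul hε1.le, ← ENNReal.ofReal_add (by positivity) (by positivity)]
      exact ENNReal.ofReal_le_ofReal h5
    refine (d5_split (hmeas _ hR24) h1).trans ?_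
    have hvol : (volume Rg)⁻¹ = ENNReal.ofReal vi := by
      rw [hvi, ENNReal.ofReal_toReal]
      exact ENNReal.inv_ne_top.2 d5_Rg_pos
    have h9 : ∫⁻ z in Rg, ENNReal.ofReal (psi a S ‖w q - w z‖) ≤
        ENNReal.ofReal (vi * (K * (C2 * C3 * I2 + ε2 * I1))) := by
      refine hqle.trans ?_
      rw [hvol]
      calc ENNReal.ofReal vi * (ENNReal.ofReal K *
            ∫⁻ z in nb Rg, ENNReal.ofReal (psi a S ‖ξ (vT.fl s z) - ξ z‖))
          ≤ ENNReal.ofReal vi * (ENNReal.ofReal K * (ENNReal.ofReal (C2 * C3) *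
            ENNReal.ofReal I2 + ENNReal.ofReal ε2 * ENNReal.ofReal I1)) := by gcongr
        _ = _ := by
          rw [d5_comb hI20 hI10 (mul_nonneg hC2 hC3) hε2.le]
          exact d5_comb2 hvi0 hK
    calc ENNReal.ofReal (C1 * Cψ) * (∫⁻ z in Rg, ENNReal.ofReal (psi a S ‖w q - w z‖)) +
          ENNReal.ofReal ε1 * ∫⁻ z in Rg, ENNReal.ofReal (‖Vm a (ξ z) - c‖ ^ 2)
        ≤ ENNReal.ofReal (C1 * Cψ) * ENNReal.ofReal (vi * (K * (C2 * C3 * I2 + ε2 * I1))) +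
          ENNReal.ofReal ε1 * ENNReal.ofReal I1 := by
          gcongr
          exact hJT _ hR24
      _ = _ := d5_comb hX0 hI10 (mul_nonneg hC1 hCψ0) hε1.le
  have hE' := (ENNReal.ofReal_le_ofReal_iff hXX0).1 hE
  refine hc.trans ((mul_le_mul_of_nonneg_left hE' hKc).trans ?_)
  exact d5_arith hKc hI10 hε hB0 hB hε1d hε2d

theorem td_est {m : ℝ} (hm : -1 < m) : ∃ Kf : ℝ → ℝ, (∀ ε, 0 ≤ Kf ε) ∧
    ∀ ε : ℝ, 0 < ε → ∀ (a : ℝ → ℝ), Nice m a →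
    ∀ (U : Set Pt), IsOpen U → {z : Pt | |z.1| ≤ 2 ∧ |z.2.1| ≤ 2 ∧ |z.2.2| ≤ 4} ⊆ U →
    ∀ (u : Pt → W) (ξ Vt : Pt → V2 W), SolU a U u ξ →
    MemLp ξ 2 (volume.restrict U) → MemLp Vt 2 (volume.restrict U) →
    WD vT U (fun z => Vm a (ξ z)) Vt → ∀ s : ℝ, |s| ≤ 1 / 2 → ∀ c : V2 W,
    ∫ z in bx (1 / 2) (3 / 4), ‖Vm a (ξ (vT.fl s z)) - Vm a (ξ z)‖ ^ 2 ≤
      ε * (∫ z in bx 2 4, ‖Vm a (ξ z) - c‖ ^ 2) +
        Kf ε * ∫ z in bx 2 4 \ bx (1 / 4) (1 / 16), ‖Vt z‖ ^ 2 := by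
  classical
  refine ⟨fun ε => if hε : 0 < ε then (d5_main W hm hε).choose else 0, fun ε => ?_,
    fun ε hε => ?_⟩
  · show 0 ≤ (if hε : 0 < ε then (d5_main W hm hε).choose else 0)
    split_ifs with h
    · exact (d5_main W hm h).choose_spec.1
    · exact le_rfl
  · have h := (d5_main W hm hε).choose_spec.2
    simp only [dif_pos hε]
    exact h

end PLH
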