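import Pool.Agent.Lib.PLH.T13
import Pool.Agent.Lib.PLH.A8

/-!
MODULE E0 (180 lines). The derivatives of `A(ξ)` and `V(ξ)`.

`A a`, `Vm a` are Lipschitz (`nice_lip`), so `WD.lip` gives `A'`, `V'` on `U₁`. `WD.seq2` (three
functions `ξ`, `A(ξ)`, `V(ξ)`): along `s_n → 0` the quotients converge a.e. on `U₁` to `ξ'`, `A'`, `V'`; in
particular `ξ(F.fl s_n z) → ξ z`. Divide the inequalities of `Alg` for the pair `ξ(F.fl s_n z)`, `ξ z`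
by `s_n²` and let `n → ∞` (`a` is continuous): with `α = a(2‖ξ z‖)`:
`‖V'‖² ≤ C⟨A',ξ'⟩`, `α‖ξ'‖² ≤ C‖V'‖²`, `‖V'‖² ≤ Cα‖ξ'‖²`, `‖A'‖² ≤ Cα‖V'‖²`. Finally
`a(2r) ≤ 2^|m| a(r)`, `a(r) ≤ 2^|m| a(2r)` for `r > 0` (`Cl.comp`), and for `r = 0` they are equal.
The constant is `2^|m| C`.
-/

open MeasureTheory Set Filter Topology
open scoped ContDiff ENNReal

namespace PLH

variable (W : Type*) [NormedAddCommGroup W] [InnerProductSpace ℝ W] [CompleteSpace W]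

private theorem e0_double {m : ℝ} {a : ℝ → ℝ} (h : Nice m a) {r : ℝ} (hr : 0 ≤ r) :
    a (r + r) ≤ 2 ^ |m| * a r ∧ a r ≤ 2 ^ |m| * a (r + r) := by
  have h2 : (1 : ℝ) ≤ 2 ^ |m| := Real.one_le_rpow (by norm_num) (abs_nonneg m)
  rcases hr.eq_or_lt with rfl | hr0
  · rw [add_zero]
    have h0 := h.pos' (le_refl (0 : ℝ))
    exact ⟨le_mul_of_one_le_left h0.le h2, le_mul_of_one_le_left h0.le h2⟩
  · have hrr : 0 < r + r := by linarith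
    exact ⟨h.toCl.comp (by norm_num) hrr hr0 (by linarith) (by linarith),
      h.toCl.comp (by norm_num) hr0 hrr (by linarith) (by linarith)⟩

theorem exists_DA {m : ℝ} (hm : -1 < m) : ∃ C : ℝ, 1 ≤ C ∧ ∀ (a : ℝ → ℝ), Nice m a →
    ∀ (U : Set Pt), IsOpen U → ∀ (F : VF) (ξ ξ' : Pt → V2 W),
      MemLp ξ 2 (volume.restrict U) → MemLp ξ' 2 (volume.restrict U) → WD F U ξ ξ' →
      ∀ U₁ : Set Pt, IsOpen U₁ → IsCompact (closure U₁) → closure U₁ ⊆ U →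
        ∃ A' V' : Pt → V2 W, DA C a U₁ F ξ ξ' A' V' := by
  obtain ⟨C₀, hC₀⟩ := exists_alg (V2 W) hm
  have h1 : 1 ≤ C₀ := hC₀.one
  have hC0 : 0 < C₀ := one_pos.trans_le h1
  have h2 : (1 : ℝ) ≤ 2 ^ |m| := Real.one_le_rpow (by norm_num) (abs_nonneg m)
  have h20 : (0 : ℝ) < 2 ^ |m| := one_pos.trans_le h2
  refine ⟨2 ^ |m| * C₀, by nlinarith, ?_⟩
  intro a ha U hU F ξ ξ' mξ mξ' hW U₁ hU₁ hc hcU
  obtain ⟨L, l, -, hLA, hLV, -⟩ := nice_lip (E := V2 W) hm ha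
  obtain ⟨A', mA, wA⟩ := hW.lip hU (L2l.of_memLp mξ) (L2l.of_memLp mξ') hLA hU₁ hc hcU
  obtain ⟨V', mV, wV⟩ := hW.lip hU (L2l.of_memLp mξ) (L2l.of_memLp mξ') hLV hU₁ hc hcU
  have hsub : U₁ ⊆ U := subset_closure.trans hcU
  have mξ₁ : MemLp ξ' 2 (volume.restrict U₁) := mξ'.mono_measure (Measure.restrict_mono hsub le_rfl)
  obtain ⟨s, hs0, hs, hae⟩ := (hW.mono hsub).seq2 hU₁ (L2l.of_memLp mξ₁) wA (L2l.of_memLp mA)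
    wV (L2l.of_memLp mV)
  refine ⟨A', V', ?_⟩
  -- the inequalities in the limit
  have key : ∀ᵐ z ∂(volume.restrict U₁),
      ‖V' z‖ ^ 2 ≤ C₀ * inner ℝ (A' z) (ξ' z) ∧
      a (‖ξ z‖ + ‖ξ z‖) * ‖ξ' z‖ ^ 2 ≤ C₀ * ‖V' z‖ ^ 2 ∧
      ‖V' z‖ ^ 2 ≤ C₀ * (a (‖ξ z‖ + ‖ξ z‖) * ‖ξ' z‖ ^ 2) ∧
      ‖A' z‖ ^ 2 ≤ C₀ * (a (‖ξ z‖ + ‖ξ z‖) * ‖V' z‖ ^ 2) := by
    refine hae.mono fun z hz => ?_
    obtain ⟨t0, t1, t2⟩ := hz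
    have hx : Tendsto (fun n => ξ (F.fl (s n) z)) atTop (𝓝 (ξ z)) := by
      have h3 : Tendsto (fun n => ξ z + s n • ((s n)⁻¹ • (ξ (F.fl (s n) z) - ξ z))) atTop
          (𝓝 (ξ z + (0 : ℝ) • ξ' z)) := tendsto_const_nhds.add (hs.smul t0)
      rw [zero_smul, add_zero] at h3
      refine h3.congr fun n => ?_
      rw [smul_smul, mul_inv_cancel₀ (hs0 n), one_smul, add_sub_cancel]
    have hα : Tendsto (fun n => a (‖ξ (F.fl (s n) z)‖ + ‖ξ z‖)) atTop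
        (𝓝 (a (‖ξ z‖ + ‖ξ z‖))) :=
      (ha.cont.tendsto _).comp (hx.norm.add tendsto_const_nhds)
    have n0 := (t0.norm).pow 2
    have n1 := (t1.norm).pow 2
    have n2 := (t2.norm).pow 2
    have hsc : ∀ (n : ℕ) (v : V2 W), ‖(s n)⁻¹ • v‖ ^ 2 = ((s n)⁻¹) ^ 2 * ‖v‖ ^ 2 := by
      intro n v
      rw [norm_smul, mul_pow, Real.norm_eq_abs, sq_abs]
    have hin : ∀ (n : ℕ) (u v : V2 W),
        inner ℝ ((s n)⁻¹ • u) ((s n)⁻¹ • v) = ((s n)⁻¹) ^ 2 * inner ℝ u v := by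
      intro n u v
      rw [real_inner_smul_left, real_inner_smul_right, ← mul_assoc, ← sq]
    refine ⟨?_, ?_, ?_, ?_⟩
    · refine le_of_tendsto_of_tendsto' n2 ((t1.inner t0).const_mul C₀) fun n => ?_
      rw [hsc, hin]
      have h4 := hC₀.mono a ha.toCl (ξ (F.fl (s n) z)) (ξ z)
      have h5 := mul_le_mul_of_nonneg_left h4 (sq_nonneg (s n)⁻¹)
      linarith
    · refine le_of_tendsto_of_tendsto' (hα.mul n0) (n2.const_mul C₀) fun n => ?_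
      rw [hsc, hsc]
      have h4 := hC₀.vlo a ha.toCl (ξ (F.fl (s n) z)) (ξ z)
      have h5 := mul_le_mul_of_nonneg_left h4 (sq_nonneg (s n)⁻¹)
      linarith
    · refine le_of_tendsto_of_tendsto' n2 ((hα.mul n0).const_mul C₀) fun n => ?_
      rw [hsc, hsc]
      have h4 := hC₀.vhi a ha.toCl (ξ (F.fl (s n) z)) (ξ z)
      have h5 := mul_le_mul_of_nonneg_left h4 (sq_nonneg (s n)⁻¹)
      linarith
    · refine le_of_tendsto_of_tendsto' n1 ((hα.mul n2).const_mul C₀) fun n => ?_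
      rw [hsc, hsc]
      have h4 := hC₀.av a ha.toCl (ξ (F.fl (s n) z)) (ξ z)
      have h5 := mul_le_mul_of_nonneg_left h4 (sq_nonneg (s n)⁻¹)
      linarith
  refine ⟨mA, mV, wA, wV, key.mono fun z hz => ?_, key.mono fun z hz => ?_,
    key.mono fun z hz => ?_, key.mono fun z hz => ?_⟩
  · obtain ⟨k1, -, -, -⟩ := hz
    have h3 : 0 ≤ C₀ * inner ℝ (A' z) (ξ' z) := (sq_nonneg _).trans k1
    calc ‖V' z‖ ^ 2 ≤ C₀ * inner ℝ (A' z) (ξ' z) := k1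
      _ ≤ 2 ^ |m| * (C₀ * inner ℝ (A' z) (ξ' z)) := le_mul_of_one_le_left h3 h2
      _ = 2 ^ |m| * C₀ * inner ℝ (A' z) (ξ' z) := by ring
  · obtain ⟨-, -, -, k4⟩ := hz
    have h3 := (e0_double ha (norm_nonneg (ξ z))).1
    calc ‖A' z‖ ^ 2 ≤ C₀ * (a (‖ξ z‖ + ‖ξ z‖) * ‖V' z‖ ^ 2) := k4
      _ ≤ C₀ * (2 ^ |m| * a ‖ξ z‖ * ‖V' z‖ ^ 2) :=
        mul_le_mul_of_nonneg_left (mul_le_mul_of_nonneg_right h3 (sq_nonneg _)) hC0.le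
      _ = 2 ^ |m| * C₀ * (a ‖ξ z‖ * ‖V' z‖ ^ 2) := by ring
  · obtain ⟨-, k2, -, -⟩ := hz
    have h3 := (e0_double ha (norm_nonneg (ξ z))).2
    calc a ‖ξ z‖ * ‖ξ' z‖ ^ 2 ≤ 2 ^ |m| * a (‖ξ z‖ + ‖ξ z‖) * ‖ξ' z‖ ^ 2 :=
          mul_le_mul_of_nonneg_right h3 (sq_nonneg _)
      _ = 2 ^ |m| * (a (‖ξ z‖ + ‖ξ z‖) * ‖ξ' z‖ ^ 2) := by ring
      _ ≤ 2 ^ |m| * (C₀ * ‖V' z‖ ^ 2) := mul_le_mul_of_nonneg_left k2 h20.le
      _ = 2 ^ |m| * C₀ * ‖V' z‖ ^ 2 := by ring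
  · obtain ⟨-, -, k3, -⟩ := hz
    have h3 := (e0_double ha (norm_nonneg (ξ z))).1
    calc ‖V' z‖ ^ 2 ≤ C₀ * (a (‖ξ z‖ + ‖ξ z‖) * ‖ξ' z‖ ^ 2) := k3
      _ ≤ C₀ * (2 ^ |m| * a ‖ξ z‖ * ‖ξ' z‖ ^ 2) :=
        mul_le_mul_of_nonneg_left (mul_le_mul_of_nonneg_right h3 (sq_nonneg _)) hC0.le
      _ = 2 ^ |m| * C₀ * (a ‖ξ z‖ * ‖ξ' z‖ ^ 2) := by ring

end PLH
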