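import Pool.Agent.Lib.PLH.T12
import Pool.Agent.Lib.PLH.A8

/-!
MODULE E3 (180 lines). The two ways of writing a mixed term.

`δA = A(ξ) - A(ξ₀)`, `δξ = ξ - ξ₀`, `δV = V(ξ) - V(ξ₀)`. By `WD.ibp` (components `i`, `k`, with
`WD.clm`, `WD.sub`, `WD.const`): `∫ ζ⟨A'_i, δξ_k⟩ + ∫ ζ⟨δA_i, ξ'_k⟩ = -∫ (Dζ)⟨δA_i, δξ_k⟩`, and
`‖δA‖‖δξ‖ ≤ C₀‖δV‖²` (`Alg.ad`). So it is enough to bound one of the two terms.
`m ≥ 0`: `‖A'‖‖δξ‖ ≤ (C a(‖ξ‖))^{1/2}‖V'‖‖δξ‖` and `a(‖ξ‖) ≤ a(‖ξ‖+‖ξ₀‖)` (`Nice.mono`),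
`a(‖ξ‖+‖ξ₀‖)‖δξ‖² ≤ C₀‖δV‖²`: the first integrand is at most `C'|ζ|‖δV‖‖V'‖`.
`m < 0`: `‖δA‖ ≤ C₀ a(‖ξ‖+‖ξ₀‖)‖δξ‖`, `a(‖ξ‖+‖ξ₀‖) ≤ a(‖ξ‖)` (`Nice.anti`), so
`‖δA‖‖ξ'‖ ≤ C₀ (a(‖ξ‖+‖ξ₀‖)^{1/2}‖δξ‖)(a(‖ξ‖)^{1/2}‖ξ'‖) ≤ C'‖δV‖‖V'‖`: the second integrand.
Constant functions are `L2l`.
-/

open MeasureTheory Set Filter Topology
open scoped ContDiff ENNReal

namespace PLH

variable (W : Type*) [NormedAddCommGroup W] [InnerProductSpace ℝ W] [CompleteSpace W]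

section aux
variable {W' : Type*} [NormedAddCommGroup W']

private theorem e3_fin {K : Set Pt} (hK : IsCompact K) : IsFiniteMeasure (volume.restrict K) :=
  ⟨by
    rw [Measure.restrict_apply_univ]
    exact hK.measure_lt_top⟩

private theorem e3_L2l_sub_const {U : Set Pt} {f : Pt → W'} (hf : L2l U f) (c : W') :
    L2l U (fun z => f z - c) := by
  intro K hK hKU
  have := e3_fin hK
  exact (hf K hK hKU).sub (memLp_const c)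

private theorem e3_L2l_lip {E : Type*} [NormedAddCommGroup E] {U : Set Pt} {f : Pt → E}
    (lf : L2l U f) {G : E → W'} {c : NNReal} (hG : LipschitzWith c G) (h0 : G 0 = 0) :
    L2l U (fun z => G (f z)) := by
  intro K hK hKU
  exact hG.comp_memLp h0 (lf K hK hKU)

private theorem e3_int {U : Set Pt} {ζ : Pt → ℝ} (hζ : Tst U ζ) {h : Pt → ℝ}
    (hh : ∀ K : Set Pt, IsCompact K → K ⊆ U → IntegrableOn h K) :
    Integrable (fun z => |ζ z| * h z) := by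
  have h1 : IntegrableOn (fun z => |ζ z| * h z) (tsupport ζ) :=
    (hh _ hζ.cpt hζ.supp).continuousOn_mul hζ.smooth.continuous.abs.continuousOn hζ.cpt
  refine (integrableOn_iff_integrable_of_support_subset ?_).1 h1
  intro z hz
  refine subset_tsupport ζ ?_
  intro h0
  refine hz ?_
  show |ζ z| * h z = 0
  rw [h0, abs_zero, zero_mul]

private theorem e3_off {U : Set Pt} {ζ : Pt → ℝ} (hζ : Tst U ζ) {z : Pt} (hz : z ∉ U) :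
    ζ z = 0 := image_eq_zero_of_notMem_tsupport fun h' => hz (hζ.supp h')

/-- bound of an integral against a test function by an almost everywhere bound on `U` -/
private theorem e3_bound {U : Set Pt} (hU : IsOpen U) {ζ : Pt → ℝ} (hζ : Tst U ζ)
    {u h : Pt → ℝ} {c : ℝ} (hh : ∀ K : Set Pt, IsCompact K → K ⊆ U → IntegrableOn h K)
    (hb : ∀ᵐ z ∂(volume.restrict U), |u z| ≤ c * h z) :
    |∫ z, ζ z * u z| ≤ c * ∫ z, |ζ z| * h z := by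
  have h1 : ∀ᵐ z, ‖ζ z * u z‖ ≤ c * (|ζ z| * h z) := by
    filter_upwards [(ae_restrict_iff' hU.measurableSet).1 hb] with z hz
    rw [norm_mul, Real.norm_eq_abs, Real.norm_eq_abs]
    by_cases hzU : z ∈ U
    · calc |ζ z| * |u z| ≤ |ζ z| * (c * h z) := mul_le_mul_of_nonneg_left (hz hzU) (abs_nonneg _)
        _ = c * (|ζ z| * h z) := by ring
    · rw [e3_off hζ hzU, abs_zero, zero_mul, zero_mul, mul_zero]
  have h2 := norm_integral_le_of_norm_le ((e3_int hζ hh).const_mul c) h1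
  rwa [integral_const_mul, Real.norm_eq_abs] at h2

end aux

theorem conv_M {m : ℝ} (hm : -1 < m) (C : ℝ) (hC : 1 ≤ C) : ∃ K : ℝ, 0 ≤ K ∧
    ∀ (a : ℝ → ℝ) (U : Set Pt) (D : VF) (ξ ξ' A' V' : Pt → V2 W), Nice m a → IsOpen U →
    MemLp ξ 2 (volume.restrict U) → MemLp ξ' 2 (volume.restrict U) → WD D U ξ ξ' →
    DA C a U D ξ ξ' A' V' → ∀ ζ : Pt → ℝ, Tst U ζ → ∀ (ξ₀ : V2 W) (i k : Fin 2),
    |∫ z, ζ z * inner ℝ (A' z i) (ξ z k - ξ₀ k)| ≤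
      K * (∫ z, |ζ z| * (‖Vm a (ξ z) - Vm a ξ₀‖ * ‖V' z‖)) +
      K * (∫ z, |der D ζ z| * ‖Vm a (ξ z) - Vm a ξ₀‖ ^ 2) ∧
    |∫ z, ζ z * inner ℝ (A a (ξ z) i - A a ξ₀ i) (ξ' z k)| ≤
      K * (∫ z, |ζ z| * (‖Vm a (ξ z) - Vm a ξ₀‖ * ‖V' z‖)) +
      K * (∫ z, |der D ζ z| * ‖Vm a (ξ z) - Vm a ξ₀‖ ^ 2) := by
  obtain ⟨C₀, hC₀⟩ := exists_alg (V2 W) hm
  have hC₀1 : 1 ≤ C₀ := hC₀.one
  have hC₀0 : 0 < C₀ := one_pos.trans_le hC₀1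
  have hC0 : 0 < C := one_pos.trans_le hC
  have hCC : 1 ≤ C * C₀ := one_le_mul_of_one_le_of_one_le hC hC₀1
  refine ⟨C * C₀, by positivity, ?_⟩
  intro a U D ξ ξ' A' V' ha hU mξ mξ' hW hDA ζ hζ ξ₀ i k
  obtain ⟨L, l, -, hLA, hLV, -⟩ := nice_lip (E := V2 W) hm ha
  have lξ : L2l U ξ := L2l.of_memLp mξ
  have lξ' : L2l U ξ' := L2l.of_memLp mξ'
  have lA : L2l U (fun z => A a (ξ z)) := e3_L2l_lip lξ hLA (A_zero a)
  have lV : L2l U (fun z => Vm a (ξ z)) := e3_L2l_lip lξ hLV (Vm_zero a)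
  have lA' : L2l U A' := L2l.of_memLp hDA.mA
  have lV' : L2l U V' := L2l.of_memLp hDA.mV
  -- integrability
  have i1 : ∀ K : Set Pt, IsCompact K → K ⊆ U →
      IntegrableOn (fun z => ‖Vm a (ξ z) - Vm a ξ₀‖ * ‖V' z‖) K := by
    intro K hK hKU
    exact ((e3_L2l_sub_const lV (Vm a ξ₀) K hK hKU).norm).integrable_mul (lV' K hK hKU).norm
  have i2 : ∀ K : Set Pt, IsCompact K → K ⊆ U →
      IntegrableOn (fun z => ‖Vm a (ξ z) - Vm a ξ₀‖ ^ 2) K := by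
    intro K hK hKU
    exact ((e3_L2l_sub_const lV (Vm a ξ₀) K hK hKU).norm).integrable_sq
  have I1 : 0 ≤ ∫ z, |ζ z| * (‖Vm a (ξ z) - Vm a ξ₀‖ * ‖V' z‖) :=
    integral_nonneg fun z => mul_nonneg (abs_nonneg _) (mul_nonneg (norm_nonneg _) (norm_nonneg _))
  have I2 : 0 ≤ ∫ z, |der D ζ z| * ‖Vm a (ξ z) - Vm a ξ₀‖ ^ 2 :=
    integral_nonneg fun z => mul_nonneg (abs_nonneg _) (sq_nonneg _)
  -- components
  let P : Fin 2 → (V2 W →L[ℝ] W) := fun i => PiLp.proj 2 (fun _ : Fin 2 => W) i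
  have hP : ∀ (i : Fin 2) (v : V2 W), P i v = v i := fun _ _ => rfl
  have wA : WD D U (fun z => A a (ξ z) i - A a ξ₀ i) (fun z => A' z i) := by
    have h1 := (hDA.wA.clm (P i)).sub (WD.const (F := D) (U := U) (A a ξ₀ i))
    simpa only [hP, sub_zero] using h1
  have wξ : WD D U (fun z => ξ z k - ξ₀ k) (fun z => ξ' z k) := by
    have h1 := (hW.clm (P k)).sub (WD.const (F := D) (U := U) (ξ₀ k))
    simpa only [hP, sub_zero] using h1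
  have lcomp : ∀ (j : Fin 2) (f : Pt → V2 W), L2l U f → L2l U (fun z => f z j) := by
    intro j f hf K hK hKU
    exact (P j).comp_memLp' (hf K hK hKU)
  have hibp := wA.ibp hU wξ (e3_L2l_sub_const (lcomp i _ lA) (A a ξ₀ i)) (lcomp i _ lA')
    (e3_L2l_sub_const (lcomp k _ lξ) (ξ₀ k)) (lcomp k _ lξ') hζ
  -- the boundary term
  have hR : |∫ z, der D ζ z * inner ℝ (A a (ξ z) i - A a ξ₀ i) (ξ z k - ξ₀ k)| ≤
      C * C₀ * ∫ z, |der D ζ z| * ‖Vm a (ξ z) - Vm a ξ₀‖ ^ 2 := by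
    refine e3_bound hU (hζ.der D) i2 (Eventually.of_forall fun z => ?_)
    have h1 : |inner ℝ (A a (ξ z) i - A a ξ₀ i) (ξ z k - ξ₀ k)| ≤
        ‖A a (ξ z) i - A a ξ₀ i‖ * ‖ξ z k - ξ₀ k‖ := abs_real_inner_le_norm _ _
    have h2 : ‖A a (ξ z) i - A a ξ₀ i‖ ≤ ‖A a (ξ z) - A a ξ₀‖ :=
      PiLp.norm_apply_le (A a (ξ z) - A a ξ₀) i
    have h3 : ‖ξ z k - ξ₀ k‖ ≤ ‖ξ z - ξ₀‖ := PiLp.norm_apply_le (ξ z - ξ₀) k
    have h4 := hC₀.ad a ha.toCl (ξ z) ξ₀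
    calc |inner ℝ (A a (ξ z) i - A a ξ₀ i) (ξ z k - ξ₀ k)|
        ≤ ‖A a (ξ z) i - A a ξ₀ i‖ * ‖ξ z k - ξ₀ k‖ := h1
      _ ≤ ‖A a (ξ z) - A a ξ₀‖ * ‖ξ z - ξ₀‖ :=
        mul_le_mul h2 h3 (norm_nonneg _) (norm_nonneg _)
      _ ≤ C₀ * ‖Vm a (ξ z) - Vm a ξ₀‖ ^ 2 := h4
      _ ≤ C * C₀ * ‖Vm a (ξ z) - Vm a ξ₀‖ ^ 2 :=
        mul_le_mul_of_nonneg_right (le_mul_of_one_le_left hC₀0.le hC) (sq_nonneg _)
  -- from a bound of the squares to a bound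
  have hsq : ∀ x y v w : ℝ, 0 ≤ v → 0 ≤ w → (x * y) ^ 2 ≤ C * C₀ * (v * w) ^ 2 →
      x * y ≤ C * C₀ * (v * w) := by
    intro x y v w hv hw h
    have hvw : 0 ≤ v * w := mul_nonneg hv hw
    refine abs_le_of_sq_le_sq' ?_ (by positivity) |>.2
    calc (x * y) ^ 2 ≤ C * C₀ * (v * w) ^ 2 := h
      _ ≤ (C * C₀) * (C * C₀) * (v * w) ^ 2 :=
        mul_le_mul_of_nonneg_right (le_mul_of_one_le_left (by positivity) hCC) (sq_nonneg _)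
      _ = (C * C₀ * (v * w)) ^ 2 := by ring
  rcases le_or_gt 0 m with hm0 | hm0
  · have h1 : |∫ z, ζ z * inner ℝ (A' z i) (ξ z k - ξ₀ k)| ≤
        C * C₀ * ∫ z, |ζ z| * (‖Vm a (ξ z) - Vm a ξ₀‖ * ‖V' z‖) := by
      refine e3_bound hU hζ i1 (hDA.q2.mono fun z hz => ?_)
      have h2 : |inner ℝ (A' z i) (ξ z k - ξ₀ k)| ≤ ‖A' z‖ * ‖ξ z - ξ₀‖ :=
        (abs_real_inner_le_norm _ _).trans (mul_le_mul (PiLp.norm_apply_le (A' z) i)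
          (PiLp.norm_apply_le (ξ z - ξ₀) k) (norm_nonneg _) (norm_nonneg _))
      refine h2.trans (hsq _ _ _ _ (norm_nonneg _) (norm_nonneg _) ?_)
      have h3 := ha.mono hm0 (mem_Ici.2 (norm_nonneg (ξ z)))
        (mem_Ici.2 (add_nonneg (norm_nonneg (ξ z)) (norm_nonneg ξ₀)))
        (le_add_of_nonneg_right (norm_nonneg ξ₀))
      have h4 := hC₀.vlo a ha.toCl (ξ z) ξ₀
      calc (‖A' z‖ * ‖ξ z - ξ₀‖) ^ 2 = ‖A' z‖ ^ 2 * ‖ξ z - ξ₀‖ ^ 2 := by ring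
        _ ≤ C * (a ‖ξ z‖ * ‖V' z‖ ^ 2) * ‖ξ z - ξ₀‖ ^ 2 :=
          mul_le_mul_of_nonneg_right hz (sq_nonneg _)
        _ = C * ‖V' z‖ ^ 2 * (a ‖ξ z‖ * ‖ξ z - ξ₀‖ ^ 2) := by ring
        _ ≤ C * ‖V' z‖ ^ 2 * (a (‖ξ z‖ + ‖ξ₀‖) * ‖ξ z - ξ₀‖ ^ 2) :=
          mul_le_mul_of_nonneg_left (mul_le_mul_of_nonneg_right h3 (sq_nonneg _)) (by positivity)
        _ ≤ C * ‖V' z‖ ^ 2 * (C₀ * ‖Vm a (ξ z) - Vm a ξ₀‖ ^ 2) :=
          mul_le_mul_of_nonneg_left h4 (by positivity)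
        _ = C * C₀ * (‖Vm a (ξ z) - Vm a ξ₀‖ * ‖V' z‖) ^ 2 := by ring
    refine ⟨?_, ?_⟩
    · exact h1.trans (le_add_of_nonneg_right (mul_nonneg (by positivity) I2))
    · have h5 : ∫ z, ζ z * inner ℝ (A a (ξ z) i - A a ξ₀ i) (ξ' z k) =
          -(∫ z, ζ z * inner ℝ (A' z i) (ξ z k - ξ₀ k)) -
            ∫ z, der D ζ z * inner ℝ (A a (ξ z) i - A a ξ₀ i) (ξ z k - ξ₀ k) := by
        rw [hibp]
        ring
      rw [h5]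
      refine (abs_sub _ _).trans ?_
      rw [abs_neg]
      exact add_le_add h1 hR
  · have h1 : |∫ z, ζ z * inner ℝ (A a (ξ z) i - A a ξ₀ i) (ξ' z k)| ≤
        C * C₀ * ∫ z, |ζ z| * (‖Vm a (ξ z) - Vm a ξ₀‖ * ‖V' z‖) := by
      refine e3_bound hU hζ i1 (hDA.q3.mono fun z hz => ?_)
      have h2 : |inner ℝ (A a (ξ z) i - A a ξ₀ i) (ξ' z k)| ≤ ‖A a (ξ z) - A a ξ₀‖ * ‖ξ' z‖ :=
        (abs_real_inner_le_norm _ _).trans (mul_le_mul (PiLp.norm_apply_le (A a (ξ z) - A a ξ₀) i)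
          (PiLp.norm_apply_le (ξ' z) k) (norm_nonneg _) (norm_nonneg _))
      refine h2.trans (hsq _ _ _ _ (norm_nonneg _) (norm_nonneg _) ?_)
      have h3 := ha.anti hm0.le (mem_Ici.2 (norm_nonneg (ξ z)))
        (mem_Ici.2 (add_nonneg (norm_nonneg (ξ z)) (norm_nonneg ξ₀)))
        (le_add_of_nonneg_right (norm_nonneg ξ₀))
      have h4 := hC₀.av a ha.toCl (ξ z) ξ₀
      calc (‖A a (ξ z) - A a ξ₀‖ * ‖ξ' z‖) ^ 2 = ‖A a (ξ z) - A a ξ₀‖ ^ 2 * ‖ξ' z‖ ^ 2 := by ring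
        _ ≤ C₀ * (a (‖ξ z‖ + ‖ξ₀‖) * ‖Vm a (ξ z) - Vm a ξ₀‖ ^ 2) * ‖ξ' z‖ ^ 2 :=
          mul_le_mul_of_nonneg_right h4 (sq_nonneg _)
        _ = C₀ * ‖Vm a (ξ z) - Vm a ξ₀‖ ^ 2 * (a (‖ξ z‖ + ‖ξ₀‖) * ‖ξ' z‖ ^ 2) := by ring
        _ ≤ C₀ * ‖Vm a (ξ z) - Vm a ξ₀‖ ^ 2 * (a ‖ξ z‖ * ‖ξ' z‖ ^ 2) :=
          mul_le_mul_of_nonneg_left (mul_le_mul_of_nonneg_right h3 (sq_nonneg _)) (by positivity)
        _ ≤ C₀ * ‖Vm a (ξ z) - Vm a ξ₀‖ ^ 2 * (C * ‖V' z‖ ^ 2) :=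
          mul_le_mul_of_nonneg_left hz (by positivity)
        _ = C * C₀ * (‖Vm a (ξ z) - Vm a ξ₀‖ * ‖V' z‖) ^ 2 := by ring
    refine ⟨?_, ?_⟩
    · rw [hibp]
      refine (abs_sub _ _).trans ?_
      rw [abs_neg]
      exact add_le_add h1 hR
    · exact h1.trans (le_add_of_nonneg_right (mul_nonneg (by positivity) I2))

end PLH
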