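import Pool.Agent.Lib.PLH.E1
import Pool.Agent.Lib.PLH.E3

/-!
MODULE E4 (300 lines). The Caccioppoli inequality with an arbitrary constant.

`c = V(ξ₀)` (`Vm_surj`), `δ k = ξ k - ξ₀ k`, `θ = η²` (a test function). `SolR.test'` with the cut-off
`θ`: for `sol_X` with `f = δ 0` (derivatives `ξx 0`, `ξy 0`), for `sol_Y` with `f = δ 1` (derivatives
`ξx 1`, `ξy 1`):
`∫ θ(⟨Ax 0,ξx 0⟩+⟨Ax 1,ξy 0⟩) + Xθ⟨Ax 0,δ0⟩ + Yθ⟨Ax 1,δ0⟩ = ∫ θ⟨At 1,δ0⟩`
`∫ θ(⟨Ay 0,ξx 1⟩+⟨Ay 1,ξy 1⟩) + Xθ⟨Ay 0,δ1⟩ + Yθ⟨Ay 1,δ1⟩ = -∫ θ⟨At 0,δ1⟩`.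
Add, insert `ξy 0 = ξx 1 - ut`, `ξx 1 = ξy 0 + ut` (`ut_eq`):
`∫ θ(⟨Ax,ξx⟩+⟨Ay,ξy⟩) = ∫ θ⟨Ax 1,ut⟩ - ∫ θ⟨Ay 0,ut⟩ - (the four terms with Xθ, Yθ)`
`  + ∫ θ⟨At 1,δ0⟩ - ∫ θ⟨At 0,δ1⟩`. By `WD.ibp` (`A - A(ξ₀)` and `ut`, derivatives `ξt 0`, `ξt 1` of `ut`,
`ut_X`, `ut_Y`): `∫ θ⟨Ax 1,ut⟩ = -∫ θ⟨δA 1,ξt 0⟩ - ∫ Xθ⟨δA 1,ut⟩`,
`-∫ θ⟨Ay 0,ut⟩ = ∫ θ⟨δA 0,ξt 1⟩ + ∫ Yθ⟨δA 0,ut⟩`, and again `ut = ξx 1 - ξy 0`. Every term is now of
the form of `conv_M` with `ζ = θ`, `D = vT` or `ζ ∈ {Xθ, Yθ}`, `D ∈ {vX, vY}`. Left side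
`≥ (1/C)∫ θ(‖Vx‖²+‖Vy‖²)` (`DA.q1`). With `δV = V - c`:
`∫ θ(‖Vx‖²+‖Vy‖²) ≤ K' ∫ θ‖δV‖‖Vt‖ + K' ∫ |Tθ|‖δV‖² + K' ∫ (|Xθ|+|Yθ|)‖δV‖(‖Vx‖+‖Vy‖)`
`  + K' ∫ (|XXθ|+|XYθ|+|YXθ|+|YYθ|)‖δV‖²`, `|Xθ| = 2|η||Xη|`: absorb by Young.
-/

open MeasureTheory Set Filter Topology
open scoped ContDiff ENNReal

namespace PLH

private theorem E4_int {ζ G : Pt → ℝ} (hζ : Continuous ζ) {K : Set Pt} (hK : IsCompact K)
    (hs : Function.support ζ ⊆ K) (hG : IntegrableOn G K) : Integrable (fun z => ζ z * G z) := by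
  have h1 := hG.continuousOn_mul hζ.continuousOn hK
  refine (integrableOn_iff_integrable_of_support_subset ?_).1 h1
  intro z hz
  apply hs
  rw [Function.mem_support] at hz ⊢
  intro h0
  exact hz (by rw [h0, zero_mul])

private theorem E4_mul {E E' : Type*} [NormedAddCommGroup E] [NormedAddCommGroup E'] {K : Set Pt}
    {p : Pt → E} {q : Pt → E'} (hp : MemLp p 2 (volume.restrict K))
    (hq : MemLp q 2 (volume.restrict K)) : IntegrableOn (fun z => ‖p z‖ * ‖q z‖) K :=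
  hp.norm.integrable_mul hq.norm

private theorem E4_inner {E : Type*} [NormedAddCommGroup E] [InnerProductSpace ℝ E] {K : Set Pt}
    {p q : Pt → E} (hp : MemLp p 2 (volume.restrict K)) (hq : MemLp q 2 (volume.restrict K)) :
    IntegrableOn (fun z => inner ℝ (p z) (q z)) K :=
  Integrable.mono' (E4_mul hp hq) (hp.1.inner hq.1) (ae_of_all _ fun z => norm_inner_le_norm _ _)

private theorem E4_constL {E : Type*} [NormedAddCommGroup E] {U : Set Pt} (c : E) :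
    L2l U (fun _ : Pt => c) := by
  intro K hK _
  have : IsFiniteMeasure (volume.restrict K) :=
    ⟨by rw [Measure.restrict_apply_univ]; exact hK.measure_lt_top⟩
  exact memLp_const c

private theorem E4_subL {E : Type*} [NormedAddCommGroup E] {U : Set Pt} {f g : Pt → E}
    (hf : L2l U f) (hg : L2l U g) : L2l U (fun z => f z - g z) :=
  fun K hK hKU => (hf K hK hKU).sub (hg K hK hKU)

section

variable {W : Type*} [NormedAddCommGroup W] [InnerProductSpace ℝ W]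
variable {m C : ℝ} {a : ℝ → ℝ} {U : Set Pt} {u ut : Pt → W} {ξ ξx ξy ξt : Pt → V2 W}
variable {Ax Ay At Vx Vy Vt : Pt → V2 W}

private theorem E4_comp {f : Pt → V2 W} (hf : L2l U f) (i : Fin 2) : L2l U (fun z => f z i) :=
  fun K hK hKU => (PiLp.proj (𝕜 := ℝ) 2 (fun _ : Fin 2 => W) i).comp_memLp' (hf K hK hKU)

/-- the pairing -/
private noncomputable def E4_J (ζ : Pt → ℝ) (p q : Pt → W) : ℝ := ∫ z, ζ z * inner ℝ (p z) (q z)

private theorem E4_Jint {ζ : Pt → ℝ} (hζ : Tst U ζ) {p q : Pt → W} (hp : L2l U p)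
    (hq : L2l U q) : Integrable (fun z => ζ z * inner ℝ (p z) (q z)) :=
  E4_int hζ.smooth.continuous hζ.cpt.isCompact (subset_tsupport _)
    (E4_inner (hp _ hζ.cpt.isCompact hζ.supp) (hq _ hζ.cpt.isCompact hζ.supp))

private theorem E4_WD [CompleteSpace W] {F : VF} {f f' : Pt → V2 W} (h : WD F U f f') (c : V2 W)
    (k : Fin 2) : WD F U (fun z => f z k - c k) (fun z => f' z k) := by
  have h1 := (h.clm (PiLp.proj (𝕜 := ℝ) 2 (fun _ : Fin 2 => W) k)).sub (WD.const (c k))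
  simp only [sub_zero] at h1
  exact h1

private theorem E4_add7 {f1 f2 f3 f4 f5 f6 f7 : Pt → ℝ} (h1 : Integrable f1)
    (h2 : Integrable f2) (h3 : Integrable f3) (h4 : Integrable f4) (h5 : Integrable f5)
    (h6 : Integrable f6) (h7 : Integrable f7) :
    ∫ z, (f1 z + f2 z + f3 z + f4 z + f5 z + f6 z + f7 z) =
      (∫ z, f1 z) + (∫ z, f2 z) + (∫ z, f3 z) + (∫ z, f4 z) + (∫ z, f5 z) + (∫ z, f6 z) +
        ∫ z, f7 z := by
  have a2 : Integrable (fun z => f1 z + f2 z) := h1.add h2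
  have a3 : Integrable (fun z => f1 z + f2 z + f3 z) := a2.add h3
  have a4 : Integrable (fun z => f1 z + f2 z + f3 z + f4 z) := a3.add h4
  have a5 : Integrable (fun z => f1 z + f2 z + f3 z + f4 z + f5 z) := a4.add h5
  have a6 : Integrable (fun z => f1 z + f2 z + f3 z + f4 z + f5 z + f6 z) := a5.add h6
  rw [integral_add a6 h7, integral_add a5 h6, integral_add a4 h5, integral_add a3 h4,
    integral_add a2 h3, integral_add h1 h2]

private theorem E4_add4 {f1 f2 f3 f4 : Pt → ℝ} (h1 : Integrable f1)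
    (h2 : Integrable f2) (h3 : Integrable f3) (h4 : Integrable f4) :
    ∫ z, (f1 z + f2 z + f3 z + f4 z) =
      (∫ z, f1 z) + (∫ z, f2 z) + (∫ z, f3 z) + (∫ z, f4 z) := by
  have a2 : Integrable (fun z => f1 z + f2 z) := h1.add h2
  have a3 : Integrable (fun z => f1 z + f2 z + f3 z) := a2.add h3
  rw [integral_add a3 h4, integral_add a2 h3, integral_add h1 h2]

private theorem E4_add2 {f1 f2 f3 f4 : Pt → ℝ} (h1 : Integrable (f1 + f2))
    (h2 : Integrable (f3 + f4)) :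
    ∫ z, (f1 z + f2 z + (f3 z + f4 z)) =
      (∫ z, (f1 z + f2 z)) + (∫ z, (f3 z + f4 z)) := by
  have a1 : Integrable (fun z => f1 z + f2 z) := h1
  have a2 : Integrable (fun z => f3 z + f4 z) := h2
  rw [integral_add a1 a2]

private theorem E4_test [FiniteDimensional ℝ W] (hU : IsOpen U) {σ : Pt → V2 W} {r : Pt → W}
    (hσ : L2l U σ) (hr : L2l U r) (hs : SolR U σ r) {f g₀ g₁ : Pt → W} (hf : L2l U f)
    (h0 : L2l U g₀) (h1 : L2l U g₁) (w0 : WD vX U f g₀) (w1 : WD vY U f g₁) {θ : Pt → ℝ}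
    (hθ : Tst U θ) :
    E4_J θ (fun z => σ z 0) g₀ + E4_J (der vX θ) (fun z => σ z 0) f +
      (E4_J θ (fun z => σ z 1) g₁ + E4_J (der vY θ) (fun z => σ z 1) f) = E4_J θ r f := by
  have h := SolR.test' hU hσ hr hs hf h0 h1 w0 w1 hθ
  unfold E4_J
  have a1 : Integrable (fun z => θ z * inner ℝ (σ z 0) (g₀ z) +
      der vX θ z * inner ℝ (σ z 0) (f z)) :=
    (E4_Jint hθ (E4_comp hσ 0) h0).add (E4_Jint (hθ.der vX) (E4_comp hσ 0) hf)
  have a2 : Integrable (fun z => θ z * inner ℝ (σ z 1) (g₁ z) +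
      der vY θ z * inner ℝ (σ z 1) (f z)) :=
    (E4_Jint hθ (E4_comp hσ 1) h1).add (E4_Jint (hθ.der vY) (E4_comp hσ 1) hf)
  rw [← h, ← integral_add (E4_Jint hθ (E4_comp hσ 0) h0) (E4_Jint (hθ.der vX) (E4_comp hσ 0) hf),
    ← integral_add (E4_Jint hθ (E4_comp hσ 1) h1) (E4_Jint (hθ.der vY) (E4_comp hσ 1) hf),
    ← integral_add a1 a2]
  refine integral_congr_ae (ae_of_all _ fun z => ?_)
  simp only [inner_add_right, real_inner_smul_right]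

private theorem E4_ut [FiniteDimensional ℝ W] (h : Rs m a U u ut ξ ξx ξy ξt) {ζ : Pt → ℝ}
    (hζ : Tst U ζ) {p : Pt → W} (hp : L2l U p) :
    E4_J ζ p ut = E4_J ζ p (fun z => ξx z 1) - E4_J ζ p (fun z => ξy z 0) := by
  unfold E4_J
  rw [← integral_sub (E4_Jint hζ hp (E4_comp (L2l.of_memLp h.mx) 1))
    (E4_Jint hζ hp (E4_comp (L2l.of_memLp h.my) 0))]
  apply integral_congr_ae
  have h1 := (ae_restrict_iff' h.opn.measurableSet).1 (ut_eq h)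
  filter_upwards [h1] with z hz
  by_cases hzU : z ∈ U
  · rw [hz hzU, inner_sub_right]
    ring
  · have h2 : ζ z = 0 := image_eq_zero_of_notMem_tsupport (fun hh => hzU (hζ.supp hh))
    rw [h2]
    ring

/-- the basic identity -/
private theorem E4_id [FiniteDimensional ℝ W] (hm : -1 < m) (h : Rs m a U u ut ξ ξx ξy ξt)
    (dX : DA C a U vX ξ ξx Ax Vx) (dY : DA C a U vY ξ ξy Ay Vy) (dT : DA C a U vT ξ ξt At Vt)
    {θ : Pt → ℝ} (hθ : Tst U θ) (ξ₀ : V2 W) :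
    E4_J θ (fun z => Ax z 0) (fun z => ξx z 0) + E4_J θ (fun z => Ax z 1) (fun z => ξx z 1) +
      (E4_J θ (fun z => Ay z 0) (fun z => ξy z 0) + E4_J θ (fun z => Ay z 1) (fun z => ξy z 1)) =
      E4_J θ (fun z => At z 1) (fun z => ξ z 0 - ξ₀ 0)
      - E4_J (der vX θ) (fun z => Ax z 0) (fun z => ξ z 0 - ξ₀ 0)
      - E4_J (der vY θ) (fun z => Ax z 1) (fun z => ξ z 0 - ξ₀ 0)
      - E4_J θ (fun z => A a (ξ z) 1 - A a ξ₀ 1) (fun z => ξt z 0)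
      - E4_J (der vX θ) (fun z => A a (ξ z) 1 - A a ξ₀ 1) (fun z => ξx z 1)
      + E4_J (der vX θ) (fun z => A a (ξ z) 1 - A a ξ₀ 1) (fun z => ξy z 0)
      - E4_J θ (fun z => At z 0) (fun z => ξ z 1 - ξ₀ 1)
      - E4_J (der vX θ) (fun z => Ay z 0) (fun z => ξ z 1 - ξ₀ 1)
      - E4_J (der vY θ) (fun z => Ay z 1) (fun z => ξ z 1 - ξ₀ 1)
      + E4_J θ (fun z => A a (ξ z) 0 - A a ξ₀ 0) (fun z => ξt z 1)
      + E4_J (der vY θ) (fun z => A a (ξ z) 0 - A a ξ₀ 0) (fun z => ξx z 1)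
      - E4_J (der vY θ) (fun z => A a (ξ z) 0 - A a ξ₀ 0) (fun z => ξy z 0) := by
  have : CompleteSpace W := FiniteDimensional.complete ℝ W
  have lξ : L2l U ξ := L2l.of_memLp h.mξ
  have lx : L2l U ξx := L2l.of_memLp h.mx
  have ly : L2l U ξy := L2l.of_memLp h.my
  have lt' : L2l U ξt := L2l.of_memLp h.mt
  have lut : L2l U ut := L2l.of_memLp h.mτ
  have lAx : L2l U Ax := L2l.of_memLp dX.mA
  have lAy : L2l U Ay := L2l.of_memLp dY.mA
  have lAt : L2l U At := L2l.of_memLp dT.mA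
  obtain ⟨L, l, hl, hLA, hLV, -⟩ := nice_lip (E := V2 W) hm h.nice
  have lA : L2l U (fun z => A a (ξ z)) := fun K hK hKU =>
    hLA.comp_memLp (A_zero a) (lξ K hK hKU)
  have lδ : ∀ k : Fin 2, L2l U (fun z => ξ z k - ξ₀ k) := fun k =>
    E4_subL (E4_comp lξ k) (E4_constL _)
  have lδA : ∀ k : Fin 2, L2l U (fun z => A a (ξ z) k - A a ξ₀ k) := fun k =>
    E4_subL (E4_comp lA k) (E4_constL _)
  have EX := E4_test h.opn lAx (E4_comp lAt 1) (sol_X h dX dT) (lδ 0) (E4_comp lx 0)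
    (E4_comp ly 0) (E4_WD h.wx ξ₀ 0) (E4_WD h.wy ξ₀ 0) hθ
  have lnAt : L2l U (fun z => -At z 0) := fun K hK hKU => (E4_comp lAt 0 K hK hKU).neg
  have EY := E4_test h.opn lAy lnAt (sol_Y h dY dT) (lδ 1) (E4_comp lx 1)
    (E4_comp ly 1) (E4_WD h.wx ξ₀ 1) (E4_WD h.wy ξ₀ 1) hθ
  have EY' : E4_J θ (fun z => -At z 0) (fun z => ξ z 1 - ξ₀ 1) =
      -E4_J θ (fun z => At z 0) (fun z => ξ z 1 - ξ₀ 1) := by
    unfold E4_J
    rw [← integral_neg]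
    refine integral_congr_ae (ae_of_all _ fun z => ?_)
    simp only [inner_neg_left]
    ring
  rw [EY'] at EY
  have U1 := E4_ut h hθ (E4_comp lAx 1)
  have U2 := E4_ut h hθ (E4_comp lAy 0)
  have U3 := E4_ut h (hθ.der vX) (lδA 1)
  have U4 := E4_ut h (hθ.der vY) (lδA 0)
  have I1 := WD.ibp h.opn (E4_WD dX.wA (A a ξ₀) 1) (ut_X h) (lδA 1) (E4_comp lAx 1) lut
    (E4_comp lt' 0) hθ
  have I2 := WD.ibp h.opn (E4_WD dY.wA (A a ξ₀) 0) (ut_Y h) (lδA 0) (E4_comp lAy 0) lut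
    (E4_comp lt' 1) hθ
  change E4_J θ (fun z => Ax z 1) ut =
    -E4_J θ (fun z => A a (ξ z) 1 - A a ξ₀ 1) (fun z => ξt z 0) -
      E4_J (der vX θ) (fun z => A a (ξ z) 1 - A a ξ₀ 1) ut at I1
  change E4_J θ (fun z => Ay z 0) ut =
    -E4_J θ (fun z => A a (ξ z) 0 - A a ξ₀ 0) (fun z => ξt z 1) -
      E4_J (der vY θ) (fun z => A a (ξ z) 0 - A a ξ₀ 0) ut at I2
  linear_combination EX + EY - U1 + U2 + I1 - I2 - U3 + U4

end

private theorem E4_der_sq {η : Pt → ℝ} (hη : ContDiff ℝ ∞ η) (F : VF) (z : Pt) :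
    der F (fun w => η w ^ 2) z = 2 * (η z * der F η z) := by
  have h1 := der_mul F hη hη z
  have h2 : (fun w => η w ^ 2) = fun w => η w * η w := by
    funext w
    ring
  rw [h2, h1]
  ring

/-- Young's inequality, pointwise -/
private theorem E4_young {e x y v p q ε : ℝ} (hε : 0 < ε) (hx : 0 ≤ x) (hy : 0 ≤ y) (hv : 0 ≤ v) :
    2 * (|2 * (e * p)| * (v * x)) + 2 * (|2 * (e * q)| * (v * x)) +
      2 * (|2 * (e * p)| * (v * y)) + 2 * (|2 * (e * q)| * (v * y)) ≤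
      4 * ε * (e ^ 2 * (x ^ 2 + y ^ 2)) + 4 / ε * ((p ^ 2 + q ^ 2) * v ^ 2) := by
  have key : ∀ s t : ℝ, 4 * (s * t) ≤ 2 * ε * s ^ 2 + 2 / ε * t ^ 2 := by
    intro s t
    have h1 : 0 ≤ 2 / ε * (ε * s - t) ^ 2 := by positivity
    have h2 : 2 / ε * (ε * s - t) ^ 2 = 2 * ε * s ^ 2 + 2 / ε * t ^ 2 - 4 * (s * t) := by
      field_simp
      ring
    linarith
  have h1 := key (|e| * x) (|p| * v)
  have h2 := key (|e| * x) (|q| * v)
  have h3 := key (|e| * y) (|p| * v)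
  have h4 := key (|e| * y) (|q| * v)
  have e2 : |e| ^ 2 = e ^ 2 := sq_abs e
  have p2 : |p| ^ 2 = p ^ 2 := sq_abs p
  have q2 : |q| ^ 2 = q ^ 2 := sq_abs q
  have a1 : ∀ r : ℝ, |2 * (e * r)| = 2 * (|e| * |r|) := by
    intro r
    rw [abs_mul, abs_mul, abs_two]
  rw [a1, a1]
  simp only [mul_pow, e2, p2, q2] at h1 h2 h3 h4
  have e5 : 4 / ε * ((p ^ 2 + q ^ 2) * v ^ 2) = 2 / ε * (p ^ 2 * v ^ 2) + 2 / ε * (q ^ 2 * v ^ 2) +
      2 / ε * (p ^ 2 * v ^ 2) + 2 / ε * (q ^ 2 * v ^ 2) := by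
    field_simp
    ring
  rw [e5]
  nlinarith [h1, h2, h3, h4]

variable (W : Type*) [NormedAddCommGroup W] [InnerProductSpace ℝ W] [FiniteDimensional ℝ W]

theorem cacH {m : ℝ} (hm : -1 < m) (C : ℝ) (hC : 1 ≤ C) : ∃ K : ℝ, 0 ≤ K ∧
    ∀ (a : ℝ → ℝ) (U : Set Pt)
    (u ut : Pt → W) (ξ ξx ξy ξt Ax Ay At Vx Vy Vt : Pt → V2 W),
    Rs m a U u ut ξ ξx ξy ξt → DA C a U vX ξ ξx Ax Vx → DA C a U vY ξ ξy Ay Vy →
    DA C a U vT ξ ξt At Vt → ∀ η : Pt → ℝ, Tst U η → ∀ c : V2 W,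
    ∫ z, η z ^ 2 * (‖Vx z‖ ^ 2 + ‖Vy z‖ ^ 2) ≤
      K * (∫ z, wt η z * ‖Vm a (ξ z) - c‖ ^ 2) +
      K * ∫ z, η z ^ 2 * (‖Vm a (ξ z) - c‖ * ‖Vt z‖) := by
  obtain ⟨K₁, hK₁0, hK₁⟩ := conv_M W hm C hC
  have hW : CompleteSpace W := FiniteDimensional.complete ℝ W
  set ε : ℝ := 1 / (8 * C * K₁ + 1) with hε
  have hC0 : 0 < C := by linarith
  have hεpos : 0 < ε := by positivity
  have hεb : 4 * C * K₁ * ε ≤ 1 / 2 := by
    rw [hε, mul_one_div, div_le_iff₀ (by positivity)]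
    nlinarith [mul_nonneg hC0.le hK₁0]
  refine ⟨8 * C * K₁ * (1 + 1 / ε), by positivity, ?_⟩
  intro a U u ut ξ ξx ξy ξt Ax Ay At Vx Vy Vt h dX dY dT η hη c
  obtain ⟨ξ₀, rfl⟩ := Vm_surj h.nice c
  have hθ : Tst U (fun w => η w ^ 2) := by
    have h1 := hη.mul_left hη.smooth
    have h2 : (fun w => η w ^ 2) = fun w => η w * η w := by
      funext w
      ring
    rw [h2]
    exact h1
  set θ : Pt → ℝ := fun w => η w ^ 2 with hθdef
  -- local square integrability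
  obtain ⟨L, l, hl, hLA, hLV, -⟩ := nice_lip (E := V2 W) hm h.nice
  have lξ : L2l U ξ := L2l.of_memLp h.mξ
  have lVx : L2l U Vx := L2l.of_memLp dX.mV
  have lVy : L2l U Vy := L2l.of_memLp dY.mV
  have lVt : L2l U Vt := L2l.of_memLp dT.mV
  have lAx : L2l U Ax := L2l.of_memLp dX.mA
  have lAy : L2l U Ay := L2l.of_memLp dY.mA
  have lx : L2l U ξx := L2l.of_memLp h.mx
  have ly : L2l U ξy := L2l.of_memLp h.my
  have lV : L2l U (fun z => Vm a (ξ z)) := fun K hK hKU =>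
    hLV.comp_memLp (Vm_zero a) (lξ K hK hKU)
  have lδ : L2l U (fun z => Vm a (ξ z) - Vm a ξ₀) := E4_subL lV (E4_constL _)
  -- integrability
  have i1 : ∀ {ζ : Pt → ℝ}, Tst U ζ → ∀ {p q : Pt → V2 W}, L2l U p → L2l U q →
      Integrable (fun z => |ζ z| * (‖p z‖ * ‖q z‖)) := fun {ζ} hζ {p q} hp hq =>
    E4_int hζ.smooth.continuous.abs hζ.cpt.isCompact (by
      intro z hz
      apply subset_tsupport
      rw [Function.mem_support] at hz ⊢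
      exact fun h0 => hz (by rw [h0, abs_zero]))
      (E4_mul (hp _ hζ.cpt.isCompact hζ.supp) (hq _ hζ.cpt.isCompact hζ.supp))
  have i2 : ∀ {ζ : Pt → ℝ}, Tst U ζ → Integrable (fun z => |ζ z| * ‖Vm a (ξ z) - Vm a ξ₀‖ ^ 2) :=
    fun {ζ} hζ => by
      have h1 := i1 hζ lδ lδ
      simp only [← sq] at h1
      exact h1
  have i3 : ∀ {ζ : Pt → ℝ}, Tst U ζ → Integrable (fun z => ζ z ^ 2 * ‖Vm a (ξ z) - Vm a ξ₀‖ ^ 2) :=
    fun {ζ} hζ => by
      have h1 := E4_int (hζ.smooth.continuous.pow 2) hζ.cpt.isCompact (by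
        intro z hz
        apply subset_tsupport
        rw [Function.mem_support] at hz ⊢
        exact fun h0 => hz (by simp only [Pi.pow_apply, h0]; ring))
        (E4_mul (lδ _ hζ.cpt.isCompact hζ.supp) (lδ _ hζ.cpt.isCompact hζ.supp))
      simp only [← sq] at h1
      exact h1
  have habs : ∀ z, |θ z| = η z ^ 2 := fun z => abs_of_nonneg (sq_nonneg _)
  have i4 : ∀ {p : Pt → V2 W}, L2l U p → Integrable (fun z => η z ^ 2 * ‖p z‖ ^ 2) :=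
    fun {p} hp => by
      have h1 := i1 hθ hp hp
      simp only [← sq, habs] at h1
      exact h1
  -- names for the integrals
  set dV : Pt → V2 W := fun z => Vm a (ξ z) - Vm a ξ₀ with hdV
  set P : ℝ := ∫ z, η z ^ 2 * (‖Vx z‖ ^ 2 + ‖Vy z‖ ^ 2) with hP
  set IT : ℝ := ∫ z, |θ z| * (‖dV z‖ * ‖Vt z‖) with hIT
  set JT : ℝ := ∫ z, |der vT θ z| * ‖dV z‖ ^ 2 with hJT
  set R1 : ℝ := ∫ z, |der vX θ z| * (‖dV z‖ * ‖Vx z‖) with hR1
  set R2 : ℝ := ∫ z, |der vY θ z| * (‖dV z‖ * ‖Vx z‖) with hR2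
  set R3 : ℝ := ∫ z, |der vX θ z| * (‖dV z‖ * ‖Vy z‖) with hR3
  set R4 : ℝ := ∫ z, |der vY θ z| * (‖dV z‖ * ‖Vy z‖) with hR4
  set J1 : ℝ := ∫ z, |der vX (der vX θ) z| * ‖dV z‖ ^ 2 with hJ1
  set J2 : ℝ := ∫ z, |der vX (der vY θ) z| * ‖dV z‖ ^ 2 with hJ2
  set J3 : ℝ := ∫ z, |der vY (der vX θ) z| * ‖dV z‖ ^ 2 with hJ3
  set J4 : ℝ := ∫ z, |der vY (der vY θ) z| * ‖dV z‖ ^ 2 with hJ4
  set G1 : ℝ := ∫ z, (der vX η z) ^ 2 * ‖dV z‖ ^ 2 with hG1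
  set G2 : ℝ := ∫ z, (der vY η z) ^ 2 * ‖dV z‖ ^ 2 with hG2
  have hX := hθ.der vX
  have hY := hθ.der vY
  have hT := hθ.der vT
  have hWt : ∫ z, wt η z * ‖dV z‖ ^ 2 = J1 + J2 + J3 + J4 + G1 + G2 + JT := by
    rw [hJ1, hJ2, hJ3, hJ4, hG1, hG2, hJT, ← E4_add7 (i2 (hX.der vX)) (i2 (hY.der vX))
      (i2 (hX.der vY)) (i2 (hY.der vY)) (i3 (hη.der vX)) (i3 (hη.der vY)) (i2 hT)]
    refine integral_congr_ae (ae_of_all _ fun z => ?_)
    simp only [wt]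
    ring
  have hITe : ∫ z, η z ^ 2 * (‖dV z‖ * ‖Vt z‖) = IT := by
    rw [hIT]
    refine integral_congr_ae (ae_of_all _ fun z => ?_)
    simp only [habs]
  -- nonnegativity
  have nn : ∀ {f : Pt → ℝ}, (∀ z, 0 ≤ f z) → 0 ≤ ∫ z, f z := fun hf => integral_nonneg hf
  have nIT : 0 ≤ IT := nn fun z => by positivity
  have nJT : 0 ≤ JT := nn fun z => by positivity
  have nJ1 : 0 ≤ J1 := nn fun z => by positivity
  have nJ2 : 0 ≤ J2 := nn fun z => by positivity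
  have nJ3 : 0 ≤ J3 := nn fun z => by positivity
  have nJ4 : 0 ≤ J4 := nn fun z => by positivity
  have nG1 : 0 ≤ G1 := nn fun z => by positivity
  have nG2 : 0 ≤ G2 := nn fun z => by positivity
  -- Young
  have hyoung : 2 * R1 + 2 * R2 + 2 * R3 + 2 * R4 ≤ 4 * ε * P + 4 / ε * (G1 + G2) := by
    have iR1 := i1 hX lδ lVx
    have iR2 := i1 hY lδ lVx
    have iR3 := i1 hX lδ lVy
    have iR4 := i1 hY lδ lVy
    have iP : Integrable (fun z => η z ^ 2 * (‖Vx z‖ ^ 2 + ‖Vy z‖ ^ 2)) := by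
      have := (i4 lVx).add (i4 lVy)
      refine this.congr (ae_of_all _ fun z => ?_)
      simp only [Pi.add_apply]
      ring
    have iG : Integrable (fun z => ((der vX η z) ^ 2 + (der vY η z) ^ 2) * ‖dV z‖ ^ 2) := by
      have := (i3 (hη.der vX)).add (i3 (hη.der vY))
      refine this.congr (ae_of_all _ fun z => ?_)
      simp only [Pi.add_apply]
      ring
    have e1 : 2 * R1 + 2 * R2 + 2 * R3 + 2 * R4 = ∫ z, (2 * (|der vX θ z| * (‖dV z‖ * ‖Vx z‖)) +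
        2 * (|der vY θ z| * (‖dV z‖ * ‖Vx z‖)) + 2 * (|der vX θ z| * (‖dV z‖ * ‖Vy z‖)) +
        2 * (|der vY θ z| * (‖dV z‖ * ‖Vy z‖))) := by
      rw [E4_add4 (iR1.const_mul 2) (iR2.const_mul 2) (iR3.const_mul 2) (iR4.const_mul 2),
        integral_const_mul, integral_const_mul, integral_const_mul, integral_const_mul]
    have e2 : 4 * ε * P + 4 / ε * (G1 + G2) = ∫ z, (4 * ε * (η z ^ 2 * (‖Vx z‖ ^ 2 + ‖Vy z‖ ^ 2)) +
        4 / ε * (((der vX η z) ^ 2 + (der vY η z) ^ 2) * ‖dV z‖ ^ 2)) := by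
      rw [integral_add (iP.const_mul _) (iG.const_mul _), integral_const_mul, integral_const_mul,
        hG1, hG2, ← integral_add (i3 (hη.der vX)) (i3 (hη.der vY))]
      congr 2
      refine integral_congr_ae (ae_of_all _ fun z => ?_)
      simp only
      ring
    rw [e1, e2]
    refine integral_mono_ae
      ((((iR1.const_mul 2).add (iR2.const_mul 2)).add (iR3.const_mul 2)).add (iR4.const_mul 2))
      ((iP.const_mul _).add (iG.const_mul _)) (ae_of_all _ fun z => ?_)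
    have h1 := E4_young (e := η z) (x := ‖Vx z‖) (y := ‖Vy z‖) (v := ‖dV z‖) (p := der vX η z)
      (q := der vY η z) hεpos (norm_nonneg _) (norm_nonneg _) (norm_nonneg _)
    simp only [hθdef, E4_der_sq hη.smooth]
    exact h1
  -- the identity and the bounds
  have hid := E4_id hm h dX dY dT hθ ξ₀
  have bT := hK₁ a U vT ξ ξt At Vt h.nice h.opn h.mξ h.mt h.wt dT
  have bX := hK₁ a U vX ξ ξx Ax Vx h.nice h.opn h.mξ h.mx h.wx dX
  have bY := hK₁ a U vY ξ ξy Ay Vy h.nice h.opn h.mξ h.my h.wy dY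
  have t1 := (abs_le.1 (bT θ hθ ξ₀ 1 0).1).2
  have t4 := (abs_le.1 (bT θ hθ ξ₀ 1 0).2).1
  have t7 := (abs_le.1 (bT θ hθ ξ₀ 0 1).1).1
  have t10 := (abs_le.1 (bT θ hθ ξ₀ 0 1).2).2
  have t2 := (abs_le.1 (bX _ hX ξ₀ 0 0).1).1
  have t3 := (abs_le.1 (bX _ hY ξ₀ 1 0).1).1
  have t5 := (abs_le.1 (bX _ hX ξ₀ 1 1).2).1
  have t11 := (abs_le.1 (bX _ hY ξ₀ 0 1).2).2
  have t6 := (abs_le.1 (bY _ hX ξ₀ 1 0).2).2
  have t8 := (abs_le.1 (bY _ hX ξ₀ 0 1).1).1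
  have t9 := (abs_le.1 (bY _ hY ξ₀ 1 1).1).1
  have t12 := (abs_le.1 (bY _ hY ξ₀ 0 0).2).1
  -- the left side
  have hS : P ≤ C * (E4_J θ (fun z => Ax z 0) (fun z => ξx z 0) +
      E4_J θ (fun z => Ax z 1) (fun z => ξx z 1) +
      (E4_J θ (fun z => Ay z 0) (fun z => ξy z 0) +
        E4_J θ (fun z => Ay z 1) (fun z => ξy z 1))) := by
    have j1 := E4_Jint hθ (E4_comp lAx 0) (E4_comp lx 0)
    have j2 := E4_Jint hθ (E4_comp lAx 1) (E4_comp lx 1)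
    have j3 := E4_Jint hθ (E4_comp lAy 0) (E4_comp ly 0)
    have j4 := E4_Jint hθ (E4_comp lAy 1) (E4_comp ly 1)
    have iP : Integrable (fun z => η z ^ 2 * (‖Vx z‖ ^ 2 + ‖Vy z‖ ^ 2)) := by
      have := (i4 lVx).add (i4 lVy)
      refine this.congr (ae_of_all _ fun z => ?_)
      simp only [Pi.add_apply]
      ring
    unfold E4_J
    rw [← integral_add j1 j2, ← integral_add j3 j4, ← E4_add2 (j1.add j2) (j3.add j4),
      ← integral_const_mul]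
    refine integral_mono_ae iP (((j1.add j2).add (j3.add j4)).const_mul C) ?_
    have q1 := (ae_restrict_iff' h.opn.measurableSet).1 dX.q1
    have q2 := (ae_restrict_iff' h.opn.measurableSet).1 dY.q1
    filter_upwards [q1, q2] with z h1 h2
    by_cases hzU : z ∈ U
    · have h3 := h1 hzU
      have h4 := h2 hzU
      rw [PiLp.inner_apply, Fin.sum_univ_two] at h3 h4
      have h5 : 0 ≤ η z ^ 2 := sq_nonneg _
      simp only [hθdef]
      have h6 := mul_le_mul_of_nonneg_left (add_le_add h3 h4) h5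
      linarith
    · have h2 : η z = 0 := image_eq_zero_of_notMem_tsupport (fun hh => hzU (hη.supp hh))
      simp only [hθdef, h2]
      norm_num
  unfold E4_J at hid hS
  rw [hITe, hWt]
  have hCK : 0 ≤ C * K₁ := mul_nonneg hC0.le hK₁0
  have hfin : P ≤ C * (K₁ * (4 * IT + 4 * JT + 2 * (J1 + J2 + J3 + J4) +
      (2 * R1 + 2 * R2 + 2 * R3 + 2 * R4))) := by
    refine hS.trans (mul_le_mul_of_nonneg_left ?_ hC0.le)
    rw [hid]
    linarith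
  have h1ε : 0 ≤ 1 / ε := by positivity
  have hfin2 : P ≤ C * K₁ * (4 * IT + 4 * JT + 2 * (J1 + J2 + J3 + J4) +
      4 / ε * (G1 + G2)) + (4 * C * K₁ * ε) * P := by
    have h1 := mul_le_mul_of_nonneg_left hyoung hCK
    calc P ≤ C * (K₁ * (4 * IT + 4 * JT + 2 * (J1 + J2 + J3 + J4) +
          (2 * R1 + 2 * R2 + 2 * R3 + 2 * R4))) := hfin
      _ = C * K₁ * (4 * IT + 4 * JT + 2 * (J1 + J2 + J3 + J4)) +
          C * K₁ * (2 * R1 + 2 * R2 + 2 * R3 + 2 * R4) := by ring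
      _ ≤ C * K₁ * (4 * IT + 4 * JT + 2 * (J1 + J2 + J3 + J4)) +
          C * K₁ * (4 * ε * P + 4 / ε * (G1 + G2)) := by linarith
      _ = _ := by ring
  have nP : 0 ≤ P := nn fun z => by positivity
  have h3 : (4 * C * K₁ * ε) * P ≤ 1 / 2 * P := mul_le_mul_of_nonneg_right hεb nP
  have h4 : P ≤ 2 * (C * K₁ * (4 * IT + 4 * JT + 2 * (J1 + J2 + J3 + J4) +
      4 / ε * (G1 + G2))) := by linarith
  have e4 : 4 / ε = 4 * (1 / ε) := by ring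
  rw [e4] at h4
  refine h4.trans ?_
  have hb : 4 * IT + 4 * JT + 2 * (J1 + J2 + J3 + J4) + 4 * (1 / ε) * (G1 + G2) ≤
      4 * (1 + 1 / ε) * (J1 + J2 + J3 + J4 + G1 + G2 + JT) + 4 * (1 + 1 / ε) * IT := by
    have m1 := mul_nonneg h1ε nIT
    have m2 := mul_nonneg h1ε nJT
    have m3 := mul_nonneg h1ε nJ1
    have m4 := mul_nonneg h1ε nJ2
    have m5 := mul_nonneg h1ε nJ3
    have m6 := mul_nonneg h1ε nJ4
    generalize 1 / ε = t at m1 m2 m3 m4 m5 m6 ⊢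
    linarith
  have h6 := mul_le_mul_of_nonneg_left hb hCK
  calc 2 * (C * K₁ * (4 * IT + 4 * JT + 2 * (J1 + J2 + J3 + J4) + 4 * (1 / ε) * (G1 + G2)))
      ≤ 2 * (C * K₁ * (4 * (1 + 1 / ε) * (J1 + J2 + J3 + J4 + G1 + G2 + JT) +
        4 * (1 + 1 / ε) * IT)) := by linarith
    _ = _ := by ring

end PLH
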