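import Pool.Agent.Lib.PLH.Defs

/-!
MODULE P8 (pure, 100 lines). Geometric decay of the sequences.

We may enlarge `C` so that `C ≥ 1`. `A = 2C`, `t = 1/(4C²)`: with `G j = e j + A b j`:
`G(j+1) ≤ e j/2 + C b j + (A-C) b(j+1)`, and `(A-C) b(j+1) ≤ (A-C)(1-t) b j + (A-C) t C e j`
(`b(j+1) ≤ b j`, `b(j+1) ≤ C e j`), `(A-C) t C = 1/4`, so
`G(j+1) ≤ (3/4) e j + (A - (A-C)t) b j ≤ θ G j`, `θ = max (3/4) (1 - t/2)`.
-/

open MeasureTheory Set Filter Topology

namespace PLH

theorem seq_decay (C : ℝ) (hC : 0 ≤ C) : ∃ θ K : ℝ, 0 < θ ∧ θ < 1 ∧ 0 ≤ K ∧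
    ∀ (e b : ℕ → ℝ), (∀ j, 0 ≤ e j) → (∀ j, 0 ≤ b j) → (∀ j, b (j + 1) ≤ b j) →
      (∀ j, e (j + 1) ≤ 1 / 2 * e j + C * (b j - b (j + 1))) → (∀ j, b (j + 1) ≤ C * e j) →
      ∀ j, e j ≤ K * θ ^ j * (e 0 + b 0) := by
  set D : ℝ := max C 1 with hD
  have hD1 : 1 ≤ D := le_max_right _ _
  have hCD : C ≤ D := le_max_left _ _
  have hDpos : 0 < D := by linarith
  set t : ℝ := 1 / (4 * D ^ 2) with ht
  have ht0 : 0 < t := by positivity
  have htD : t * D ^ 2 = 1 / 4 := by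
    rw [ht]; field_simp
  have ht1 : t ≤ 1 / 4 := by nlinarith [sq_nonneg (D - 1)]
  refine ⟨max (3 / 4) (1 - t / 2), 2 * D, ?_, ?_, by positivity, ?_⟩
  · exact lt_of_lt_of_le (by norm_num) (le_max_left _ _)
  · apply max_lt (by norm_num); linarith
  intro e b he hb hbm h1 h2 j
  set θ : ℝ := max (3 / 4) (1 - t / 2) with hθ
  have hθ0 : 0 ≤ θ := le_trans (by norm_num) (le_max_left _ _)
  have hθa : 3 / 4 ≤ θ := le_max_left _ _
  have hθb : 1 - t / 2 ≤ θ := le_max_right _ _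
  have step : ∀ j, e (j + 1) + 2 * D * b (j + 1) ≤ θ * (e j + 2 * D * b j) := by
    intro j
    have h1' : e (j + 1) ≤ 1 / 2 * e j + D * (b j - b (j + 1)) := by
      have := h1 j
      have h3 : C * (b j - b (j + 1)) ≤ D * (b j - b (j + 1)) :=
        mul_le_mul_of_nonneg_right hCD (by linarith [hbm j])
      linarith
    have h2' : b (j + 1) ≤ D * e j := by
      have := h2 j
      have h3 : C * e j ≤ D * e j := mul_le_mul_of_nonneg_right hCD (he j)
      linarith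
    have h4 : D * b (j + 1) ≤ D * (1 - t) * b j + D * t * (D * e j) := by
      have e1 : D * b (j + 1) = D * (1 - t) * b (j + 1) + D * t * b (j + 1) := by ring
      rw [e1]
      have e2 : D * (1 - t) * b (j + 1) ≤ D * (1 - t) * b j :=
        mul_le_mul_of_nonneg_left (hbm j) (mul_nonneg hDpos.le (by linarith))
      have e3 : D * t * b (j + 1) ≤ D * t * (D * e j) :=
        mul_le_mul_of_nonneg_left h2' (by positivity)
      linarith
    have h5 : D * t * (D * e j) = 1 / 4 * e j := by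
      rw [← htD]; ring
    rw [h5] at h4
    have h6 : e (j + 1) + 2 * D * b (j + 1) ≤ 3 / 4 * e j + 2 * D * (1 - t / 2) * b j := by
      nlinarith
    refine h6.trans ?_
    have h7 : 3 / 4 * e j ≤ θ * e j := mul_le_mul_of_nonneg_right hθa (he j)
    have h8 : 2 * D * (1 - t / 2) * b j ≤ θ * (2 * D * b j) := by
      have := mul_le_mul_of_nonneg_right hθb (mul_nonneg (by positivity : 0 ≤ 2 * D) (hb j))
      nlinarith
    linarith
  have main : ∀ j, e j + 2 * D * b j ≤ θ ^ j * (e 0 + 2 * D * b 0) := by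
    intro j
    induction j with
    | zero => simp
    | succ n ih =>
      refine (step n).trans ?_
      rw [pow_succ]
      calc θ * (e n + 2 * D * b n) ≤ θ * (θ ^ n * (e 0 + 2 * D * b 0)) :=
            mul_le_mul_of_nonneg_left ih hθ0
        _ = θ ^ n * θ * (e 0 + 2 * D * b 0) := by ring
  have hj := main j
  have h9 : e j ≤ θ ^ j * (e 0 + 2 * D * b 0) := by
    have := mul_nonneg (by positivity : 0 ≤ 2 * D) (hb j)
    linarith
  refine h9.trans ?_
  have h10 : e 0 + 2 * D * b 0 ≤ 2 * D * (e 0 + b 0) := by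
    nlinarith [he 0, hb 0]
  calc θ ^ j * (e 0 + 2 * D * b 0) ≤ θ ^ j * (2 * D * (e 0 + b 0)) :=
        mul_le_mul_of_nonneg_left h10 (pow_nonneg hθ0 j)
    _ = 2 * D * θ ^ j * (e 0 + b 0) := by ring

end PLH
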