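import Pool.Agent.Lib.PLH.T8

/-!
MODULE T8b (200 lines). Invariance of the equation and of regular solutions.

`Sol0.tau`: as `WD.tauX`, with `φ' = φ∘tauI` and `der vX φ z = r der vX φ' (tau z)`; the integral over
the whole space changes by the factor `(r⁴)⁻¹`.
`Rs.tau`, `DA.tauX/Y/T`: `T8` for every field; the a.e. inequalities are transported with `map_tau`
(null sets go to null sets) and are homogeneous.
-/

open MeasureTheory Set Filter Topology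
open scoped ContDiff ENNReal

namespace PLH

variable {W : Type*} [NormedAddCommGroup W] [InnerProductSpace ℝ W] [CompleteSpace W]
variable {U : Set Pt} {m C : ℝ} {a : ℝ → ℝ}

private theorem open_tau (hU : IsOpen U) (z₀ : Pt) (r : ℝ) : IsOpen (PLH.tau z₀ r ⁻¹' U) :=
  hU.preimage (smooth_tau z₀ r).continuous

private theorem tst_tauI {φ : Pt → ℝ} (z₀ : Pt) {r : ℝ} (hr : 0 < r)
    (hφ : Tst (PLH.tau z₀ r ⁻¹' U) φ) : Tst U (fun z => φ (tauI z₀ r z)) := by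
  refine ⟨hφ.smooth.comp (smooth_tauI z₀ r), ?_, ?_⟩
  · exact hφ.cpt.comp_homeomorph (tauH z₀ hr).symm
  · intro z hz
    have h1 : z ∈ tauI z₀ r ⁻¹' tsupport φ :=
      tsupport_comp_subset_preimage φ (smooth_tauI z₀ r).continuous hz
    have h2 := hφ.supp h1
    rw [mem_preimage, tau_tauI z₀ hr] at h2
    exact h2

private theorem ae_tau {P : Pt → Prop} (hU : IsOpen U) (z₀ : Pt) {r : ℝ} (hr : 0 < r)
    (h : ∀ᵐ z ∂(volume.restrict U), P z) :
    ∀ᵐ z ∂(volume.restrict (PLH.tau z₀ r ⁻¹' U)), P (PLH.tau z₀ r z) := by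
  rw [ae_restrict_iff' hU.measurableSet] at h
  rw [ae_restrict_iff' (open_tau hU z₀ r).measurableSet]
  have hq : Measure.QuasiMeasurePreserving (PLH.tau z₀ r) volume volume := by
    refine ⟨(smooth_tau z₀ r).continuous.measurable, ?_⟩
    rw [map_tau z₀ hr]
    exact Measure.smul_absolutelyContinuous
  exact hq.ae h

theorem Sol0.tau {σ : Pt → V2 W} (h : Sol0 U σ) (z₀ : Pt) {r : ℝ} (hr : 0 < r) :
    Sol0 (tau z₀ r ⁻¹' U) (fun z => σ (tau z₀ r z)) := by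
  intro φ hφ
  set ψ : Pt → ℝ := fun z => φ (tauI z₀ r z) with hψ
  have hT : Tst U ψ := tst_tauI z₀ hr hφ
  have hφψ : φ = fun z => ψ (PLH.tau z₀ r z) := by
    funext z
    rw [hψ]
    simp only [tauI_tau z₀ hr]
  have hdψ : Differentiable ℝ ψ := hT.smooth.differentiable (by simp)
  have hI : ∀ G : Pt → W, ∫ z, G (PLH.tau z₀ r z) = (r ^ 4)⁻¹ • ∫ z, G z := by
    intro G
    have := setIntegral_tau z₀ hr MeasurableSet.univ G
    simpa using this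
  have e1 : ∀ z, der vX φ z • σ (PLH.tau z₀ r z) 0 + der vY φ z • σ (PLH.tau z₀ r z) 1 =
      (fun w => r • (der vX ψ w • σ w 0 + der vY ψ w • σ w 1)) (PLH.tau z₀ r z) := by
    intro z
    have h3 : der vX φ z = r • der vX ψ (PLH.tau z₀ r z) := by
      rw [hφψ]; exact der_tauX hdψ z₀ r z
    have h4 : der vY φ z = r • der vY ψ (PLH.tau z₀ r z) := by
      rw [hφψ]; exact der_tauY hdψ z₀ r z
    rw [h3, h4]
    simp only [smul_eq_mul, smul_add, smul_smul]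
  rw [integral_congr_ae (Filter.Eventually.of_forall e1),
    hI (fun w => r • (der vX ψ w • σ w 0 + der vY ψ w • σ w 1)), integral_smul, h ψ hT]
  simp

private theorem mem_smul {E : Type*} [NormedAddCommGroup E] [NormedSpace ℝ E] {f : Pt → E}
    {μ : Measure Pt} (h : MemLp f 2 μ) (c : ℝ) : MemLp (fun z => c • f z) 2 μ := h.const_smul c

private theorem gx_tau {F : VF} {u : Pt → W} {ξ : Pt → V2 W} {i : Fin 2} {z₀ : Pt} {r : ℝ}
    (hr : 0 < r)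
    (h : WD F (PLH.tau z₀ r ⁻¹' U) (fun z => u (PLH.tau z₀ r z))
      (fun z => r • ξ (PLH.tau z₀ r z) i)) :
    WD F (PLH.tau z₀ r ⁻¹' U) (fun z => r⁻¹ • u (PLH.tau z₀ r z))
      (fun z => ξ (PLH.tau z₀ r z) i) := by
  have h1 := h.csmul r⁻¹
  have e : (fun z => r⁻¹ • r • ξ (PLH.tau z₀ r z) i) = fun z => ξ (PLH.tau z₀ r z) i := by
    funext z
    rw [smul_smul, inv_mul_cancel₀ hr.ne', one_smul]
  rwa [e] at h1

/-- Invariance under left translations. -/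
theorem SolU.tau1 {u : Pt → W} {ξ : Pt → V2 W} (hU : IsOpen U) (h : SolU a U u ξ) (z₀ : Pt) :
    SolU a (PLH.tau z₀ 1 ⁻¹' U) (fun z => u (PLH.tau z₀ 1 z)) (fun z => ξ (PLH.tau z₀ 1 z)) := by
  refine ⟨l2l_tau z₀ one_pos h.lu, l2l_tau z₀ one_pos h.lξ, ?_, ?_, h.sol.tau z₀ one_pos⟩
  · have := h.gx.tauX hU z₀ one_pos
    simpa using this
  · have := h.gy.tauY hU z₀ one_pos
    simpa using this

theorem Rs.tau {u ut : Pt → W} {ξ ξx ξy ξt : Pt → V2 W} (h : Rs m a U u ut ξ ξx ξy ξt)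
    (z₀ : Pt) {r : ℝ} (hr : 0 < r) :
    Rs m a (PLH.tau z₀ r ⁻¹' U) (fun z => r⁻¹ • u (PLH.tau z₀ r z))
      (fun z => r • ut (PLH.tau z₀ r z)) (fun z => ξ (PLH.tau z₀ r z))
      (fun z => r • ξx (PLH.tau z₀ r z)) (fun z => r • ξy (PLH.tau z₀ r z))
      (fun z => r ^ 2 • ξt (PLH.tau z₀ r z)) := by
  have hU := h.opn
  have hm := hU.measurableSet
  refine ⟨h.nice, open_tau hU z₀ r, mem_smul (memLp_tau z₀ hr hm h.mu) _,
    mem_smul (memLp_tau z₀ hr hm h.mτ) _, memLp_tau z₀ hr hm h.mξ,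
    mem_smul (memLp_tau z₀ hr hm h.mx) _, mem_smul (memLp_tau z₀ hr hm h.my) _,
    mem_smul (memLp_tau z₀ hr hm h.mt) _, gx_tau hr (h.gx.tauX hU z₀ hr),
    gx_tau hr (h.gy.tauY hU z₀ hr), ?_, h.wx.tauX hU z₀ hr, h.wy.tauY hU z₀ hr,
    h.wt.tauT hU z₀ hr, h.sol.tau z₀ hr⟩
  have h1 := (h.gt.tauT hU z₀ hr).csmul r⁻¹
  have e : (fun z => r⁻¹ • r ^ 2 • ut (PLH.tau z₀ r z)) = fun z => r • ut (PLH.tau z₀ r z) := by
    funext z
    rw [smul_smul]
    congr 1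
    field_simp
  rwa [e] at h1

private theorem DA.tau_aux {F : VF} {c : ℝ} {ξ ξ' A' V' : Pt → V2 W} (hU : IsOpen U)
    (h : DA C a U F ξ ξ' A' V') (z₀ : Pt) {r : ℝ} (hr : 0 < r)
    (hc : ∀ f g : Pt → V2 W, WD F U f g → WD F (PLH.tau z₀ r ⁻¹' U)
      (fun z => f (PLH.tau z₀ r z)) (fun z => c • g (PLH.tau z₀ r z))) :
    DA C a (PLH.tau z₀ r ⁻¹' U) F (fun z => ξ (PLH.tau z₀ r z))
      (fun z => c • ξ' (PLH.tau z₀ r z)) (fun z => c • A' (PLH.tau z₀ r z))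
      (fun z => c • V' (PLH.tau z₀ r z)) := by
  have hm := hU.measurableSet
  have hn : ∀ x : V2 W, ‖c • x‖ ^ 2 = c ^ 2 * ‖x‖ ^ 2 := by
    intro x
    rw [norm_smul, mul_pow, Real.norm_eq_abs, sq_abs]
  have hc2 : 0 ≤ c ^ 2 := sq_nonneg c
  refine ⟨mem_smul (memLp_tau z₀ hr hm h.mA) _, mem_smul (memLp_tau z₀ hr hm h.mV) _,
    hc _ _ h.wA, hc _ _ h.wV, ?_, ?_, ?_, ?_⟩
  · filter_upwards [ae_tau hU z₀ hr h.q1] with z hz
    rw [hn, real_inner_smul_left, real_inner_smul_right]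
    have := mul_le_mul_of_nonneg_left hz hc2
    calc _ ≤ _ := this
      _ = _ := by ring
  · filter_upwards [ae_tau hU z₀ hr h.q2] with z hz
    rw [hn, hn]
    have := mul_le_mul_of_nonneg_left hz hc2
    calc _ ≤ _ := this
      _ = _ := by ring
  · filter_upwards [ae_tau hU z₀ hr h.q3] with z hz
    rw [hn, hn]
    have := mul_le_mul_of_nonneg_left hz hc2
    calc _ = _ := by ring
      _ ≤ _ := this
      _ = _ := by ring
  · filter_upwards [ae_tau hU z₀ hr h.q4] with z hz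
    rw [hn, hn]
    have := mul_le_mul_of_nonneg_left hz hc2
    calc _ ≤ _ := this
      _ = _ := by ring

theorem DA.tauX {ξ ξ' A' V' : Pt → V2 W} (hU : IsOpen U) (h : DA C a U vX ξ ξ' A' V')
    (z₀ : Pt) {r : ℝ} (hr : 0 < r) :
    DA C a (PLH.tau z₀ r ⁻¹' U) vX (fun z => ξ (PLH.tau z₀ r z))
      (fun z => r • ξ' (PLH.tau z₀ r z)) (fun z => r • A' (PLH.tau z₀ r z))
      (fun z => r • V' (PLH.tau z₀ r z)) :=
  h.tau_aux hU z₀ hr fun _ _ hw => hw.tauX hU z₀ hr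

theorem DA.tauY {ξ ξ' A' V' : Pt → V2 W} (hU : IsOpen U) (h : DA C a U vY ξ ξ' A' V')
    (z₀ : Pt) {r : ℝ} (hr : 0 < r) :
    DA C a (PLH.tau z₀ r ⁻¹' U) vY (fun z => ξ (PLH.tau z₀ r z))
      (fun z => r • ξ' (PLH.tau z₀ r z)) (fun z => r • A' (PLH.tau z₀ r z))
      (fun z => r • V' (PLH.tau z₀ r z)) :=
  h.tau_aux hU z₀ hr fun _ _ hw => hw.tauY hU z₀ hr

theorem DA.tauT {ξ ξ' A' V' : Pt → V2 W} (hU : IsOpen U) (h : DA C a U vT ξ ξ' A' V')
    (z₀ : Pt) {r : ℝ} (hr : 0 < r) :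
    DA C a (PLH.tau z₀ r ⁻¹' U) vT (fun z => ξ (PLH.tau z₀ r z))
      (fun z => r ^ 2 • ξ' (PLH.tau z₀ r z)) (fun z => r ^ 2 • A' (PLH.tau z₀ r z))
      (fun z => r ^ 2 • V' (PLH.tau z₀ r z)) :=
  h.tau_aux hU z₀ hr fun _ _ hw => hw.tauT hU z₀ hr

end PLH
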