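import Pool.Agent.Lib.PLH.P7
import Pool.Agent.Lib.PLH.P8
import Pool.Agent.Lib.PLH.T8b
import Pool.Agent.Lib.PLH.E0
import Pool.Agent.Lib.PLH.E4
import Pool.Agent.Lib.PLH.D5

/-!
MODULE P9 (300 lines). Decay of the excess at all centres and scales, uniform in the nonlinearity.

`rs_core`: `cacT`, `cacH` (constant `C` of `exists_DA`), `td_est` with the constants `K`, `Kf`
(take `K` the maximum of the two constants).
`scale_core`: for `closed bl z₀ R ⊆ U` (`z ∈ closed bl` iff `tauI z₀ (R/4) z ∈ cbx 4 16`) the rescaled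
data `Rs.tau`, `DA.tauX/Y/T` with `tau z₀ (R/4)` satisfy `rs_core` on `tau⁻¹ U ⊇ cbx 4 16`.
`unit_decay` for the rescaled functions, transported back (`setIntegral_tau`, the average is
invariant): with `e(r) = r⁻⁴ exc V (bl z₀ r)`, `b(r) = ∫_{bl z₀ r}‖Vt‖²`, `q = lam`:
`e(qR) ≤ e(R)/2 + C(b(R) - b(qR))`, `b(qR) ≤ C e(R)`, for every `R` with `closed bl z₀ R ⊆ U`.
`growth`: `e_j = e(q^{j+1}R)`, `b_j = b(q^{j+1}R)`: `seq_decay` gives `e_j ≤ Kθ^j(e_0+b_0)`,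
`b_0 ≤ C e(R)`, `e_0 ≤ q⁻⁴ e(R)` (`exc` is monotone in the set, up to `exc_le`), `e(R) ≤ R⁻⁴∫_{bl z₀ R}‖V‖²`
(`exc_le` with `c = 0`). For `r ∈ (q^{j+2}R, q^{j+1}R]`: `e(r) ≤ q⁻⁴ e_j`. Choose
`al ∈ (0,1)` with `θ ≤ q^{2 al}`.
The domain: `exists_DA` shrinks the open set; the final statement only mentions `u`, `ξ`: for given
`z₀`, `R` with `closed bl z₀ R ⊆ U` choose `U₁` with `closed bl z₀ R ⊆ U₁`, `closure U₁` compact in `U`
(a closed gauge box is compact), restrict `Rs` to `U₁`. The constants do not depend on `U₁`.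
-/

open MeasureTheory Set Filter Topology
open scoped ContDiff ENNReal

namespace PLH

/-- The closed gauge box. -/
def cbl (z₀ : Pt) (r : ℝ) : Set Pt := {z | mul (inv z₀) z ∈ cbx r (r ^ 2)}

section aux

private theorem mul_inv_tau (z₀ : Pt) (r : ℝ) (z : Pt) : mul (inv z₀) (tau z₀ r z) = dil r z := by
  obtain ⟨a, b, c⟩ := z₀
  obtain ⟨x, y, t⟩ := z
  simp only [mul, inv, tau, dil, Prod.mk.injEq]
  refine ⟨by ring, by ring, by ring⟩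

private theorem bx_open' (ρ h : ℝ) : IsOpen (bx ρ h) := by
  have h1 : IsOpen {z : Pt | |z.1| < ρ} := isOpen_lt (by fun_prop) (by fun_prop)
  have h2 : IsOpen {z : Pt | |z.2.1| < ρ} := isOpen_lt (by fun_prop) (by fun_prop)
  have h3 : IsOpen {z : Pt | |z.2.2| < h} := isOpen_lt (by fun_prop) (by fun_prop)
  exact h1.inter (h2.inter h3)

private theorem cont_mul_inv (z₀ : Pt) : Continuous fun z => mul (inv z₀) z := by
  unfold mul inv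
  fun_prop

private theorem bl_open (z₀ : Pt) (r : ℝ) : IsOpen (bl z₀ r) :=
  (bx_open' r (r ^ 2)).preimage (cont_mul_inv z₀)

private theorem bl_meas (z₀ : Pt) (r : ℝ) : MeasurableSet (bl z₀ r) := (bl_open z₀ r).measurableSet

private theorem bl_mono (z₀ : Pt) {r r' : ℝ} (hr : 0 ≤ r) (h : r ≤ r') : bl z₀ r ⊆ bl z₀ r' :=
  fun _ hz => ⟨hz.1.trans_le h, hz.2.1.trans_le h, hz.2.2.trans_le (pow_le_pow_left₀ hr h 2)⟩

private theorem bl_sub_cbl (z₀ : Pt) {r r' : ℝ} (hr : 0 ≤ r) (h : r ≤ r') :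
    bl z₀ r ⊆ cbl z₀ r' :=
  fun _ hz => ⟨hz.1.le.trans h, hz.2.1.le.trans h,
    hz.2.2.le.trans (pow_le_pow_left₀ hr h 2)⟩

private theorem cbl_mono (z₀ : Pt) {r r' : ℝ} (hr : 0 ≤ r) (h : r ≤ r') :
    cbl z₀ r ⊆ cbl z₀ r' :=
  fun _ hz => ⟨hz.1.trans h, hz.2.1.trans h, hz.2.2.trans (pow_le_pow_left₀ hr h 2)⟩

private theorem tau_pre (z₀ : Pt) {ρ : ℝ} (hρ : 0 < ρ) (s : ℝ) :
    tau z₀ ρ ⁻¹' bl z₀ (s * ρ) = bx s (s ^ 2) := by
  ext z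
  simp only [bl, Set.mem_preimage, Set.mem_ofPred_eq, mul_inv_tau, dil, bx]
  have h2 : (0 : ℝ) < ρ ^ 2 := by positivity
  rw [abs_mul, abs_mul, abs_mul, abs_of_pos hρ, abs_of_pos h2, mul_comm s ρ, mul_pow,
    mul_lt_mul_iff_right₀ hρ, mul_lt_mul_iff_right₀ hρ, mul_lt_mul_iff_right₀ h2]

private theorem cbx_sub_tau (z₀ : Pt) {ρ : ℝ} (hρ : 0 < ρ) :
    cbx 4 16 ⊆ tau z₀ (ρ / 4) ⁻¹' cbl z₀ ρ := by
  intro z hz
  simp only [cbl, Set.mem_preimage, Set.mem_ofPred_eq, mul_inv_tau, dil, cbx]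
  have h1 : (0 : ℝ) < ρ / 4 := by positivity
  have h2 : (0 : ℝ) < (ρ / 4) ^ 2 := by positivity
  rw [abs_mul, abs_mul, abs_mul, abs_of_pos h1, abs_of_pos h2]
  obtain ⟨a1, a2, a3⟩ := hz
  refine ⟨?_, ?_, ?_⟩
  · nlinarith
  · nlinarith
  · nlinarith

private theorem cbx_compact (ρ h : ℝ) : IsCompact (cbx ρ h) := by
  have e : cbx ρ h = Icc (-ρ) ρ ×ˢ (Icc (-ρ) ρ ×ˢ Icc (-h) h) := by
    ext z
    simp only [cbx, Set.mem_ofPred_eq, Set.mem_prod, Set.mem_Icc, abs_le]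
  rw [e]
  exact isCompact_Icc.prod (isCompact_Icc.prod isCompact_Icc)

private theorem cbl_compact (z₀ : Pt) (r : ℝ) : IsCompact (cbl z₀ r) := by
  have h1 : (0 : ℝ) < 1 := one_pos
  have h2 := (tauH z₀ h1).isCompact_image.2 (cbx_compact r (r ^ 2))
  have e : (tauH z₀ h1) '' cbx r (r ^ 2) = cbl z₀ r := by
    ext z
    constructor
    · rintro ⟨w, hw, rfl⟩
      have : mul (inv z₀) (tau z₀ 1 w) = w := by
        rw [mul_inv_tau]
        simp [dil]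
      change mul (inv z₀) (tau z₀ 1 w) ∈ cbx r (r ^ 2)
      rw [this]
      exact hw
    · intro hz
      refine ⟨mul (inv z₀) z, hz, ?_⟩
      change tau z₀ 1 (mul (inv z₀) z) = z
      obtain ⟨a, b, c⟩ := z₀
      obtain ⟨x, y, t⟩ := z
      simp only [mul, inv, tau, dil, Prod.mk.injEq]
      refine ⟨by ring, by ring, by ring⟩
  rw [e] at h2
  exact h2

private theorem bl_vol (z₀ : Pt) {r : ℝ} (hr : 0 ≤ r) : volume (bl z₀ r) ≠ ⊤ :=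
  ((measure_mono (bl_sub_cbl z₀ hr le_rfl)).trans_lt (cbl_compact z₀ r).measure_lt_top).ne

private theorem exc_nonneg' {F : Type*} [NormedAddCommGroup F] [InnerProductSpace ℝ F]
    (f : Pt → F) (S : Set Pt) : 0 ≤ exc f S :=
  integral_nonneg fun z => by positivity

private theorem int_tau {F : Type*} [NormedAddCommGroup F] [InnerProductSpace ℝ F]
    (z₀ : Pt) {r : ℝ} (hr : 0 < r) {S : Set Pt} (hS : MeasurableSet S)
    (f : Pt → F) :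
    ∫ z in tau z₀ r ⁻¹' S, ‖r ^ 2 • f (tau z₀ r z)‖ ^ 2 = ∫ z in S, ‖f z‖ ^ 2 := by
  have h1 := setIntegral_tau z₀ hr hS (fun z => ‖f z‖ ^ 2)
  have h2 : ∀ z, ‖r ^ 2 • f (tau z₀ r z)‖ ^ 2 = r ^ 4 * ‖f (tau z₀ r z)‖ ^ 2 := by
    intro z
    rw [norm_smul, mul_pow, Real.norm_of_nonneg (by positivity)]
    ring
  simp_rw [h2]
  rw [integral_const_mul, h1, smul_eq_mul, ← mul_assoc, mul_inv_cancel₀ (by positivity), one_mul]

variable {F : Type*} [NormedAddCommGroup F] [InnerProductSpace ℝ F] [CompleteSpace F]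

private theorem exc_tau (z₀ : Pt) {r : ℝ} (hr : 0 < r) {S : Set Pt} (hS : MeasurableSet S)
    (f : Pt → F) :
    exc (fun z => f (tau z₀ r z)) (tau z₀ r ⁻¹' S) = (r ^ 4)⁻¹ * exc f S := by
  have hr4 : (r ^ 4)⁻¹ ≠ 0 := by positivity
  have hv : volume.real (tau z₀ r ⁻¹' S) = (r ^ 4)⁻¹ * volume.real S := by
    have := setIntegral_tau z₀ hr hS (fun _ => (1 : ℝ))
    simpa using this
  have ha : (⨍ w in tau z₀ r ⁻¹' S, f (tau z₀ r w)) = ⨍ w in S, f w := by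
    rw [setAverage_eq, setAverage_eq, setIntegral_tau z₀ hr hS f, hv, smul_smul, mul_inv]
    congr 1
    rw [mul_comm (((r ^ 4)⁻¹)⁻¹), mul_assoc, inv_mul_cancel₀ hr4, mul_one]
  unfold exc
  rw [ha]
  have := setIntegral_tau z₀ hr hS (fun z => ‖f z - ⨍ w in S, f w‖ ^ 2)
  simpa using this

private theorem exc_mono' {f : Pt → F} {S S' : Set Pt} (hS : MeasurableSet S) (h0 : volume S' ≠ ⊤)
    (hSS : S ⊆ S') (hf : MemLp f 2 (volume.restrict S')) : exc f S ≤ exc f S' := by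
  have h0' : volume S ≠ ⊤ := ((measure_mono hSS).trans_lt h0.lt_top).ne
  refine (exc_le hS h0' (hf.mono_measure (Measure.restrict_mono hSS le_rfl))
    (⨍ w in S', f w)).trans ?_
  unfold exc
  have : IsFiniteMeasure (volume.restrict S') := isFiniteMeasure_restrict.2 h0
  refine setIntegral_mono_set ((hf.sub (memLp_const _)).integrable_norm_pow (by norm_num))
    (Eventually.of_forall fun z => by positivity) hSS.eventuallyLE

end aux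

variable (W : Type*) [NormedAddCommGroup W] [InnerProductSpace ℝ W] [FiniteDimensional ℝ W]

theorem rs_core {m : ℝ} (hm : -1 < m) (C : ℝ) (hC : 1 ≤ C) : ∃ (K : ℝ) (Kf : ℝ → ℝ), 0 ≤ K ∧
    ∀ (a : ℝ → ℝ) (U : Set Pt)
    (u ut : Pt → W) (ξ ξx ξy ξt Ax Ay At Vx Vy Vt : Pt → V2 W), cbx 4 16 ⊆ U →
    Rs m a U u ut ξ ξx ξy ξt → DA C a U vX ξ ξx Ax Vx → DA C a U vY ξ ξy Ay Vy →
    DA C a U vT ξ ξt At Vt → Core K Kf U (fun z => Vm a (ξ z)) Vx Vy Vt := by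
  obtain ⟨KT, hKT, hT⟩ := cacT (W := W) C hC
  obtain ⟨KH, hKH, hH⟩ := cacH W hm C hC
  obtain ⟨Kf, hKf, htd⟩ := td_est W hm
  refine ⟨max KT KH, Kf, le_max_of_le_left hKT, ?_⟩
  intro a U u ut ξ ξx ξy ξt Ax Ay At Vx Vy Vt hsub h dX dY dT
  have mV : MemLp (fun z => Vm a (ξ z)) 2 (volume.restrict U) := by
    obtain ⟨L, l, hl, hA, hV, hi⟩ := nice_lip (E := V2 W) hm h.nice
    exact hV.comp_memLp (Vm_zero a) h.mξ
  have hS : SolU a U u ξ := ⟨L2l.of_memLp h.mu, L2l.of_memLp h.mξ, h.gx, h.gy, h.sol⟩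
  refine ⟨h.opn, hsub, mV, dX.mV, dY.mV, dT.mV, dX.wV, dY.wV, dT.wV, ?_, ?_, ?_⟩
  · intro η hη
    refine (hT m a U u ut ξ ξx ξy ξt Ax Ay At Vx Vy Vt h dX dY dT η hη).trans ?_
    exact mul_le_mul_of_nonneg_right (le_max_left _ _) (integral_nonneg fun z => by positivity)
  · intro η hη c
    refine (hH a U u ut ξ ξx ξy ξt Ax Ay At Vx Vy Vt h dX dY dT η hη c).trans (add_le_add ?_ ?_)
    · exact mul_le_mul_of_nonneg_right (le_max_right _ _)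
        (integral_nonneg fun z => mul_nonneg (wt_nonneg η z) (by positivity))
    · exact mul_le_mul_of_nonneg_right (le_max_right _ _) (integral_nonneg fun z => by positivity)
  · intro ε hε s hs c
    refine htd ε hε a h.nice U h.opn (fun z hz => hsub ⟨hz.1.trans (by norm_num),
      hz.2.1.trans (by norm_num), hz.2.2.trans (by norm_num)⟩) u ξ Vt hS h.mξ dT.mV dT.wV s hs c

private theorem Rs.mono' {m : ℝ} {a : ℝ → ℝ} {U U' : Set Pt} {u ut : Pt → W}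
    {ξ ξx ξy ξt : Pt → V2 W} (h : Rs m a U u ut ξ ξx ξy ξt) (hU : U' ⊆ U) (ho : IsOpen U') :
    Rs m a U' u ut ξ ξx ξy ξt := by
  have hm := Measure.restrict_mono hU (le_rfl (a := (volume : Measure Pt)))
  exact ⟨h.nice, ho, h.mu.mono_measure hm, h.mτ.mono_measure hm, h.mξ.mono_measure hm,
    h.mx.mono_measure hm, h.my.mono_measure hm, h.mt.mono_measure hm, h.gx.mono hU, h.gy.mono hU,
    h.gt.mono hU, h.wx.mono hU, h.wy.mono hU, h.wt.mono hU,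
    fun φ hφ => h.sol φ ⟨hφ.smooth, hφ.cpt, hφ.supp.trans hU⟩⟩

/-- Scales. -/
private theorem growth_pure {q θ al K C' I : ℝ} (hq : 0 < q) (hq1 : q < 1) (hK : 0 ≤ K)
    (hC' : 0 ≤ C') (hI : 0 ≤ I) (hθ : 0 < θ) (hal : 0 < al)
    (hθq : θ ≤ q ^ (2 * al)) {e : ℝ → ℝ} (R : ℝ) (hR : 0 < R)
    (hmono : ∀ r r', 0 < r → r ≤ r' → r' ≤ R → e r ≤ e r') (heI : e R ≤ I)
    (hdec : ∀ k : ℕ, e (q ^ (k + 1) * R) ≤
      (q ^ (k + 1)) ^ 4 * (K * θ ^ k * (((q ^ 4)⁻¹ + C') * I))) (r : ℝ) (hr : 0 < r)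
    (hrR : r ≤ R) :
    e r ≤ (K * ((q ^ 4)⁻¹ + C') * ((q ^ 4)⁻¹ * ((q ^ (2 * al)) ^ 2)⁻¹) +
      (q ^ 4)⁻¹ * (q ^ (2 * al))⁻¹) * (r / R) ^ (4 + 2 * al) * I := by
  obtain ⟨Q, hQ⟩ : ∃ Q, Q = q ^ (2 * al) := ⟨_, rfl⟩
  rw [← hQ] at hθq ⊢
  have hQ0 : 0 < Q := by rw [hQ]; exact Real.rpow_pos_of_pos hq _
  have hx0 : 0 < r / R := div_pos hr hR
  have hx1 : r / R ≤ 1 := (div_le_one hR).2 hrR
  obtain ⟨j, hj1, hj2⟩ := exists_nat_pow_near_of_lt_one hx0 hx1 hq hq1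
  have hlow : (q ^ (j + 1)) ^ 4 * Q ^ (j + 1) ≤ (r / R) ^ (4 + 2 * al) := by
    have h1 : (q ^ (j + 1)) ^ (4 + 2 * al) ≤ (r / R) ^ (4 + 2 * al) :=
      Real.rpow_le_rpow (by positivity) hj1.le (by positivity)
    have h2 : (q ^ (j + 1)) ^ (4 + 2 * al) = (q ^ (j + 1)) ^ 4 * Q ^ (j + 1) := by
      rw [Real.rpow_add (by positivity), hQ]
      congr 1
      · exact_mod_cast Real.rpow_natCast (q ^ (j + 1)) 4
      · rw [← Real.rpow_natCast, ← Real.rpow_natCast, ← Real.rpow_mul hq.le,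
          ← Real.rpow_mul hq.le, mul_comm]
    rw [← h2]
    exact h1
  have a1 : 0 ≤ K * ((q ^ 4)⁻¹ + C') * ((q ^ 4)⁻¹ * (Q ^ 2)⁻¹) := by positivity
  have a2 : 0 ≤ (q ^ 4)⁻¹ * Q⁻¹ := by positivity
  have a3 : 0 ≤ (r / R) ^ (4 + 2 * al) * I := by positivity
  rcases Nat.eq_zero_or_pos j with h0 | h0
  · subst h0
    have h1 : e r ≤ I := (hmono r R hr hrR le_rfl).trans heI
    have h2 : I = (q ^ 4)⁻¹ * Q⁻¹ * (((q ^ (0 + 1)) ^ 4 * Q ^ (0 + 1)) * I) := by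
      rw [zero_add, pow_one, pow_one]
      field_simp
    have h3 : (q ^ 4)⁻¹ * Q⁻¹ * (((q ^ (0 + 1)) ^ 4 * Q ^ (0 + 1)) * I) ≤
        (q ^ 4)⁻¹ * Q⁻¹ * ((r / R) ^ (4 + 2 * al) * I) :=
      mul_le_mul_of_nonneg_left (mul_le_mul_of_nonneg_right hlow hI) a2
    have h4 := mul_nonneg a1 a3
    calc e r ≤ I := h1
      _ ≤ (q ^ 4)⁻¹ * Q⁻¹ * ((r / R) ^ (4 + 2 * al) * I) := by rw [← h2] at h3; exact h3
      _ ≤ _ := by
        have : (K * ((q ^ 4)⁻¹ + C') * ((q ^ 4)⁻¹ * (Q ^ 2)⁻¹) + (q ^ 4)⁻¹ * Q⁻¹) *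
          (r / R) ^ (4 + 2 * al) * I = K * ((q ^ 4)⁻¹ + C') * ((q ^ 4)⁻¹ * (Q ^ 2)⁻¹) *
          ((r / R) ^ (4 + 2 * al) * I) + (q ^ 4)⁻¹ * Q⁻¹ * ((r / R) ^ (4 + 2 * al) * I) := by ring
        rw [this]
        linarith
  · obtain ⟨k, rfl⟩ : ∃ k, j = k + 1 := ⟨j - 1, by omega⟩
    have hr2 : r ≤ q ^ (k + 1) * R := by
      rw [div_le_iff₀ hR] at hj2
      exact hj2
    have hqR : q ^ (k + 1) * R ≤ R := mul_le_of_le_one_left hR.le (pow_le_one₀ hq.le hq1.le)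
    have h1 : e r ≤ (q ^ (k + 1)) ^ 4 * (K * θ ^ k * (((q ^ 4)⁻¹ + C') * I)) :=
      (hmono r _ hr hr2 hqR).trans (hdec k)
    have h2 : (q ^ (k + 1)) ^ 4 * (K * θ ^ k * (((q ^ 4)⁻¹ + C') * I)) ≤
        (q ^ (k + 1)) ^ 4 * (K * Q ^ k * (((q ^ 4)⁻¹ + C') * I)) := by
      have : θ ^ k ≤ Q ^ k := pow_le_pow_left₀ hθ.le hθq k
      gcongr
    have h3 : (q ^ (k + 1)) ^ 4 * (K * Q ^ k * (((q ^ 4)⁻¹ + C') * I)) =
        K * ((q ^ 4)⁻¹ + C') * ((q ^ 4)⁻¹ * (Q ^ 2)⁻¹) *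
          (((q ^ (k + 1 + 1)) ^ 4 * Q ^ (k + 1 + 1)) * I) := by
      have e1 : (q ^ (k + 1 + 1)) ^ 4 = (q ^ (k + 1)) ^ 4 * q ^ 4 := by ring
      have e2 : Q ^ (k + 1 + 1) = Q ^ k * Q ^ 2 := by ring
      rw [e1, e2]
      have e3 : (q ^ 4)⁻¹ * q ^ 4 = 1 := inv_mul_cancel₀ (by positivity)
      have e4 : (Q ^ 2)⁻¹ * Q ^ 2 = 1 := inv_mul_cancel₀ (by positivity)
      calc (q ^ (k + 1)) ^ 4 * (K * Q ^ k * (((q ^ 4)⁻¹ + C') * I)) =
          K * ((q ^ 4)⁻¹ + C') * 1 * 1 * ((q ^ (k + 1)) ^ 4 * Q ^ k * I) := by ring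
        _ = K * ((q ^ 4)⁻¹ + C') * ((q ^ 4)⁻¹ * q ^ 4) * ((Q ^ 2)⁻¹ * Q ^ 2) *
            ((q ^ (k + 1)) ^ 4 * Q ^ k * I) := by rw [e3, e4]
        _ = _ := by ring
    have h4 : K * ((q ^ 4)⁻¹ + C') * ((q ^ 4)⁻¹ * (Q ^ 2)⁻¹) *
          (((q ^ (k + 1 + 1)) ^ 4 * Q ^ (k + 1 + 1)) * I) ≤
        K * ((q ^ 4)⁻¹ + C') * ((q ^ 4)⁻¹ * (Q ^ 2)⁻¹) * ((r / R) ^ (4 + 2 * al) * I) :=
      mul_le_mul_of_nonneg_left (mul_le_mul_of_nonneg_right hlow hI) a1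
    have h5 := mul_nonneg a2 a3
    have h6 : (K * ((q ^ 4)⁻¹ + C') * ((q ^ 4)⁻¹ * (Q ^ 2)⁻¹) + (q ^ 4)⁻¹ * Q⁻¹) *
      (r / R) ^ (4 + 2 * al) * I = K * ((q ^ 4)⁻¹ + C') * ((q ^ 4)⁻¹ * (Q ^ 2)⁻¹) *
      ((r / R) ^ (4 + 2 * al) * I) + (q ^ 4)⁻¹ * Q⁻¹ * ((r / R) ^ (4 + 2 * al) * I) := by ring
    rw [h6]
    linarith

theorem growth {m : ℝ} (hm : -1 < m) : ∃ al C : ℝ, 0 < al ∧ al < 1 ∧ 0 ≤ C ∧
    ∀ (a : ℝ → ℝ) (U : Set Pt) (u ut : Pt → W) (ξ ξx ξy ξt : Pt → V2 W),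
    Rs m a U u ut ξ ξx ξy ξt → ∀ (z₀ : Pt) (R : ℝ), 0 < R → cbl z₀ R ⊆ U →
    ∀ r : ℝ, 0 < r → r ≤ R →
    exc (fun z => Vm a (ξ z)) (bl z₀ r) ≤
      C * (r / R) ^ (4 + 2 * al) * ∫ z in bl z₀ R, ‖Vm a (ξ z)‖ ^ 2 := by
  obtain ⟨CD, hCD, hDA⟩ := exists_DA W hm
  obtain ⟨K, Kf, hK, hcore⟩ := rs_core W hm CD hCD
  obtain ⟨q, C₁, hq0, hq16, hC₁, hunit⟩ := unit_decay (V2 W) K hK Kf
  have hq1 : q < 1 := by linarith
  have hC' : (0 : ℝ) ≤ 256 * C₁ := by positivity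
  obtain ⟨θ, K₂, hθ0, hθ1, hK₂, hseq⟩ := seq_decay (256 * C₁) hC'
  -- the exponent
  have hlq : Real.log q < 0 := Real.log_neg hq0 hq1
  have hlθ : Real.log θ < 0 := Real.log_neg hθ0 hθ1
  obtain ⟨al, hal⟩ : ∃ al, al = min (1 / 2) (Real.log θ / (2 * Real.log q)) := ⟨_, rfl⟩
  have hal0 : 0 < al := by
    rw [hal]
    exact lt_min (by norm_num) (div_pos_of_neg_of_neg hlθ (by linarith))
  have hal1 : al < 1 := by
    rw [hal]
    exact (min_le_left _ _).trans_lt (by norm_num)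
  have hθq : θ ≤ q ^ (2 * al) := by
    have h1 : al ≤ Real.log θ / (2 * Real.log q) := by rw [hal]; exact min_le_right _ _
    have h2 : Real.log θ ≤ 2 * al * Real.log q := by
      have h3 : Real.log θ / (2 * Real.log q) * (2 * Real.log q) = Real.log θ :=
        div_mul_cancel₀ _ (ne_of_lt (by linarith))
      nlinarith
    rw [← Real.exp_log hθ0, Real.rpow_def_of_pos hq0]
    exact Real.exp_le_exp.2 (by linarith)
  refine ⟨al, K₂ * ((q ^ 4)⁻¹ + 256 * C₁) * ((q ^ 4)⁻¹ * ((q ^ (2 * al)) ^ 2)⁻¹) +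
      (q ^ 4)⁻¹ * (q ^ (2 * al))⁻¹, hal0, hal1, by positivity, ?_⟩
  intro a U u ut ξ ξx ξy ξt h z₀ R hR hRU r hr hrR
  -- a smaller open set
  obtain ⟨L, hLc, hL1, hL2⟩ := exists_compact_between (cbl_compact z₀ R) h.opn hRU
  have hcl : closure (interior L) ⊆ L := closure_minimal interior_subset hLc.isClosed
  have hclc : IsCompact (closure (interior L)) := hLc.of_isClosed_subset isClosed_closure hcl
  have hU₁ : interior L ⊆ U := interior_subset.trans hL2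
  have h' := h.mono' W hU₁ isOpen_interior
  obtain ⟨Ax, Vx, dX⟩ := hDA a h.nice U h.opn vX ξ ξx h.mξ h.mx h.wx _ isOpen_interior hclc
    (hcl.trans hL2)
  obtain ⟨Ay, Vy, dY⟩ := hDA a h.nice U h.opn vY ξ ξy h.mξ h.my h.wy _ isOpen_interior hclc
    (hcl.trans hL2)
  obtain ⟨At, Vt, dT⟩ := hDA a h.nice U h.opn vT ξ ξt h.mξ h.mt h.wt _ isOpen_interior hclc
    (hcl.trans hL2)
  have mV : MemLp (fun z => Vm a (ξ z)) 2 (volume.restrict U) := by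
    obtain ⟨L, l, hl, hA, hV, hi⟩ := nice_lip (E := V2 W) hm h.nice
    exact hV.comp_memLp (Vm_zero a) h.mξ
  have blU : ∀ {ρ : ℝ}, 0 < ρ → ρ ≤ R → bl z₀ ρ ⊆ interior L := fun h1 h2 =>
    (bl_sub_cbl z₀ h1.le h2).trans hL1
  have mVb : ∀ {ρ : ℝ}, 0 < ρ → ρ ≤ R →
      MemLp (fun z => Vm a (ξ z)) 2 (volume.restrict (bl z₀ ρ)) := fun h1 h2 =>
    mV.mono_measure (Measure.restrict_mono ((blU h1 h2).trans hU₁) le_rfl)
  obtain ⟨e, he⟩ : ∃ e : ℝ → ℝ, e = fun ρ => exc (fun z => Vm a (ξ z)) (bl z₀ ρ) := ⟨_, rfl⟩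
  obtain ⟨b, hb⟩ : ∃ b : ℝ → ℝ, b = fun ρ => ∫ z in bl z₀ ρ, ‖Vt z‖ ^ 2 := ⟨_, rfl⟩
  obtain ⟨I, hI⟩ : ∃ I, I = ∫ z in bl z₀ R, ‖Vm a (ξ z)‖ ^ 2 := ⟨_, rfl⟩
  have hI0 : 0 ≤ I := by rw [hI]; exact integral_nonneg fun z => by positivity
  have he0 : ∀ ρ, 0 ≤ e ρ := fun ρ => by rw [he]; exact exc_nonneg' _ _
  have hb0 : ∀ ρ, 0 ≤ b ρ := fun ρ => by rw [hb]; exact integral_nonneg fun z => by positivity
  have hmono : ∀ r r', 0 < r → r ≤ r' → r' ≤ R → e r ≤ e r' := by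
    intro r r' h1 h2 h3
    rw [he]
    exact exc_mono' (bl_meas _ _) (bl_vol z₀ (h1.le.trans h2)) (bl_mono z₀ h1.le h2)
      (mVb (h1.trans_le h2) h3)
  have hbmono : ∀ r r', 0 < r → r ≤ r' → r' ≤ R → b r ≤ b r' := by
    intro r r' h1 h2 h3
    rw [hb]
    have h4 : MemLp Vt 2 (volume.restrict (bl z₀ r')) :=
      dT.mV.mono_measure (Measure.restrict_mono (blU (h1.trans_le h2) h3) le_rfl)
    exact setIntegral_mono_set (h4.integrable_norm_pow (by norm_num))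
      (Eventually.of_forall fun z => by positivity) (bl_mono z₀ h1.le h2).eventuallyLE
  have heI : e R ≤ I := by
    rw [he, hI]
    have := exc_le (bl_meas z₀ R) (bl_vol z₀ hR.le) (mVb hR le_rfl) 0
    simpa using this
  -- one step
  have hstep : ∀ ρ, 0 < ρ → ρ ≤ R →
      e (q * ρ) / (q * ρ) ^ 4 ≤ 1 / 2 * (e ρ / ρ ^ 4) + 256 * C₁ * (b ρ - b (q * ρ)) ∧
      b (q * ρ) ≤ 256 * C₁ * (e ρ / ρ ^ 4) := by
    intro ρ hρ hρR
    have hρ4 : 0 < ρ / 4 := by positivity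
    have hsub : cbx 4 16 ⊆ tau z₀ (ρ / 4) ⁻¹' (interior L) :=
      (cbx_sub_tau z₀ hρ).trans (Set.preimage_mono ((cbl_mono z₀ hρ.le hρR).trans hL1))
    have hc := hcore a _ _ _ _ _ _ _ _ _ _ _ _ _ hsub (h'.tau z₀ hρ4)
      (dX.tauX isOpen_interior z₀ hρ4) (dY.tauY isOpen_interior z₀ hρ4)
      (dT.tauT isOpen_interior z₀ hρ4)
    obtain ⟨u1, u2⟩ := hunit _ _ _ _ _ hc
    have p1 : tau z₀ (ρ / 4) ⁻¹' bl z₀ ρ = bx 4 16 := by
      have := tau_pre z₀ hρ4 4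
      rw [show (4 : ℝ) * (ρ / 4) = ρ by ring, show (4 : ℝ) ^ 2 = 16 by norm_num] at this
      exact this
    have p2 : tau z₀ (ρ / 4) ⁻¹' bl z₀ (q * ρ) = bx (4 * q) ((4 * q) ^ 2) := by
      have := tau_pre z₀ hρ4 (4 * q)
      rw [show 4 * q * (ρ / 4) = q * ρ by ring] at this
      exact this
    rw [← p1, ← p2] at u1 u2
    rw [exc_tau z₀ hρ4 (bl_meas _ _) (fun z => Vm a (ξ z)),
      exc_tau z₀ hρ4 (bl_meas _ _) (fun z => Vm a (ξ z)), int_tau z₀ hρ4 (bl_meas _ _) Vt,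
      int_tau z₀ hρ4 (bl_meas _ _) Vt] at u1
    rw [exc_tau z₀ hρ4 (bl_meas _ _) (fun z => Vm a (ξ z)),
      int_tau z₀ hρ4 (bl_meas _ _) Vt] at u2
    have eρ : exc (fun z => Vm a (ξ z)) (bl z₀ ρ) = e ρ := by rw [he]
    have eq' : exc (fun z => Vm a (ξ z)) (bl z₀ (q * ρ)) = e (q * ρ) := by rw [he]
    have bρ : (∫ z in bl z₀ ρ, ‖Vt z‖ ^ 2) = b ρ := by rw [hb]
    have bq : (∫ z in bl z₀ (q * ρ), ‖Vt z‖ ^ 2) = b (q * ρ) := by rw [hb]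
    rw [eρ, eq', bρ, bq] at u1
    rw [eρ, bq] at u2
    have hbd : 0 ≤ b ρ - b (q * ρ) := by
      have := hbmono (q * ρ) ρ (by positivity) (mul_le_of_le_one_left hρ.le hq1.le) hρR
      linarith
    have k1 : ((ρ / 4) ^ 4)⁻¹ = 256 / ρ ^ 4 := by
      field_simp
      norm_num
    rw [k1] at u1 u2
    constructor
    · have k2 : e (q * ρ) / (q * ρ) ^ 4 = (256 / ρ ^ 4 * e (q * ρ)) / (256 * q ^ 4) := by
        field_simp
      have k3 : (256 / ρ ^ 4 * e (q * ρ)) / (256 * q ^ 4) ≤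
          (q ^ 4 * (1 / 2 * (256 / ρ ^ 4 * e ρ) + C₁ * (b ρ - b (q * ρ)))) / (256 * q ^ 4) := by
        gcongr
      have k4 : (q ^ 4 * (1 / 2 * (256 / ρ ^ 4 * e ρ) + C₁ * (b ρ - b (q * ρ)))) /
          (256 * q ^ 4) = 1 / 2 * (e ρ / ρ ^ 4) + 1 / 256 * (C₁ * (b ρ - b (q * ρ))) := by
        field_simp
      have k5 : 0 ≤ C₁ * (b ρ - b (q * ρ)) := mul_nonneg hC₁ hbd
      rw [k2]
      refine (k3.trans_eq k4).trans ?_
      linarith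
    · refine u2.trans_eq ?_
      ring
  -- the sequences
  have hpow : ∀ j : ℕ, 0 < q ^ (j + 1) * R ∧ q ^ (j + 1) * R ≤ R := fun j =>
    ⟨by positivity, mul_le_of_le_one_left hR.le (pow_le_one₀ hq0.le hq1.le)⟩
  have hdec := hseq (fun j => e (q ^ (j + 1) * R) / (q ^ (j + 1) * R) ^ 4)
    (fun j => b (q ^ (j + 1) * R)) (fun j => div_nonneg (he0 _) (by positivity))
    (fun j => hb0 _) (fun j => by
      refine hbmono _ _ (hpow (j + 1)).1 ?_ (hpow j).2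
      rw [pow_succ q (j + 1)]
      have := (hpow j).1
      nlinarith)
    (fun j => by
      have := (hstep _ (hpow j).1 (hpow j).2).1
      rw [show q * (q ^ (j + 1) * R) = q ^ (j + 1 + 1) * R by ring] at this
      exact this)
    (fun j => by
      have := (hstep _ (hpow j).1 (hpow j).2).2
      rw [show q * (q ^ (j + 1) * R) = q ^ (j + 1 + 1) * R by ring] at this
      exact this)
  have hb1 : b (q ^ (0 + 1) * R) ≤ 256 * C₁ * (I / R ^ 4) := by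
    have h1 := (hstep R hR le_rfl).2
    rw [show q ^ (0 + 1) * R = q * R by ring]
    refine h1.trans ?_
    gcongr
  have he1 : e (q ^ (0 + 1) * R) / (q ^ (0 + 1) * R) ^ 4 ≤ (q ^ 4)⁻¹ * (I / R ^ 4) := by
    have h1 : e (q ^ (0 + 1) * R) ≤ I := (hmono _ R (hpow 0).1 (hpow 0).2 le_rfl).trans heI
    have h2 : (q ^ 4)⁻¹ * (I / R ^ 4) = I / (q ^ (0 + 1) * R) ^ 4 := by
      rw [zero_add, pow_one]
      field_simp
    rw [h2]
    gcongr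
  have hfin := growth_pure hq0 hq1 hK₂ hC' hI0 hθ0 hal0 hθq R hR hmono heI (fun k => by
    have h1 := hdec k
    have h2 : (q ^ (k + 1) * R) ^ 4 = (q ^ (k + 1)) ^ 4 * R ^ 4 := by ring
    have h3 : e (q ^ (k + 1) * R) / (q ^ (k + 1) * R) ^ 4 ≤
        K₂ * θ ^ k * (((q ^ 4)⁻¹ + 256 * C₁) * (I / R ^ 4)) := by
      refine h1.trans (mul_le_mul_of_nonneg_left ?_ (by positivity))
      linarith
    rw [div_le_iff₀ (by have := (hpow k).1; positivity), h2] at h3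
    refine h3.trans_eq ?_
    field_simp) r hr hrR
  rw [he, hI] at hfin
  exact hfin

end PLH
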