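import Pool.Agent.Lib.PLH.T1

/-!
MODULE T6 (250 lines). Bounded difference quotients give a weak derivative.

Let `K = closure U₁`. Hilbert space `L²(U₁;E)`. For a finite sum `Φ = ∑ φ_j e_j` of test functions on
`U₁` times vectors put `ℓ(Φ) = -∫ ⟨f, der F Φ⟩ = -∑ ∫ (der F φ_j) ⟨f, e_j⟩`. As `s → 0`,
`(φ(F.fl (-s) z) - φ z)/s → -der F φ z` uniformly with supports in a fixed compact subset of `U₁`, so
`ℓ(Φ) = lim ∫ ⟨f, (Φ∘F.fl(-s) - Φ)/s⟩ = lim ∫ ⟨(f∘F.fl s - f)/s, Φ⟩` (measure preserving) and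
`|ℓ(Φ)| ≤ √M ‖Φ‖_{L²(U₁)}` by the hypothesis for `K`. So `ℓ` extends to a bounded functional on the
closure of the space of these `Φ` in `L²(U₁;E)` (or on all of it, Hahn-Banach
`exists_extension_norm_eq`), and the Riesz theorem gives `g ∈ L²(U₁;E)` with
`ℓ(Φ) = ∫ ⟨g, Φ⟩`; take `Φ = φ e` and all vectors `e`: `∫ φ g = -∫ (der F φ) f`.
Alternative: weak limits of a sequence of difference quotients.
-/

open MeasureTheory Set Filter Topology
open scoped ContDiff ENNReal

namespace PLH

variable {E : Type*} [NormedAddCommGroup E] [InnerProductSpace ℝ E] [CompleteSpace E]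

private theorem t6_flow_near (F : VF) {K U : Set Pt} (hK : IsCompact K) (hU : IsOpen U)
    (hKU : K ⊆ U) : ∃ K' : Set Pt, IsCompact K' ∧ K' ⊆ U ∧ K ⊆ K' ∧
      ∃ s₁ : ℝ, 0 < s₁ ∧ ∀ s : ℝ, |s| ≤ s₁ → ∀ z ∈ K, F.fl s z ∈ K' := by
  obtain ⟨δ, hδ, hδU⟩ := hK.exists_cthickening_subset_open hU hKU
  obtain ⟨R, hR⟩ := hK.isBounded.exists_norm_le
  have hsz : 0 ≤ F.sz := by
    unfold VF.sz
    positivity
  refine ⟨Metric.cthickening δ K, hK.cthickening, hδU, Metric.self_subset_cthickening K,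
    δ / (F.sz * (1 + |R|) + 1), by positivity, ?_⟩
  intro s hs z hz
  refine Metric.mem_cthickening_of_dist_le _ z δ K hz ?_
  rw [dist_eq_norm]
  refine (F.norm_fl_sub s z).trans ?_
  have h1 : F.sz * (1 + ‖z‖) ≤ F.sz * (1 + |R|) + 1 := by
    have : ‖z‖ ≤ |R| := (hR z hz).trans (le_abs_self R)
    nlinarith
  have h2 : 0 ≤ F.sz * (1 + |R|) + 1 := by positivity
  calc |s| * (F.sz * (1 + ‖z‖)) ≤ (δ / (F.sz * (1 + |R|) + 1)) * (F.sz * (1 + |R|) + 1) :=
        mul_le_mul hs h1 (by positivity) (by positivity)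
    _ = δ := by
        field_simp

omit [CompleteSpace E] in
private theorem t6_int_smul {ψ : Pt → ℝ} (hψ : Continuous ψ) {K : Set Pt} (hK : IsCompact K)
    (hs : ∀ z, ψ z ≠ 0 → z ∈ K) {f : Pt → E} (hf : IntegrableOn f K) :
    Integrable (fun z => ψ z • f z) := by
  have hc : HasCompactSupport ψ := by
    refine HasCompactSupport.intro hK ?_
    intro z hz
    by_contra h
    exact hz (hs z h)
  have h1 : Integrable (K.indicator f) := (integrable_indicator_iff hK.measurableSet).2 hf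
  have h2 := h1.locallyIntegrable.integrable_smul_left_of_hasCompactSupport hψ hc
  refine h2.congr (Filter.Eventually.of_forall (fun z => ?_))
  show ψ z • K.indicator f z = ψ z • f z
  by_cases hz : z ∈ K
  · rw [Set.indicator_of_mem hz]
  · have : ψ z = 0 := by
      by_contra h
      exact hz (hs z h)
    rw [this, zero_smul, zero_smul]

omit [CompleteSpace E] in
private theorem t6_intOn {U : Set Pt} {f : Pt → E} (hf : L2l U f) {K : Set Pt} (hK : IsCompact K)
    (hKU : K ⊆ U) : IntegrableOn f K := by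
  have h := hf K hK hKU
  have : IsFiniteMeasure (volume.restrict K : Measure Pt) := ⟨by
    rw [Measure.restrict_apply_univ]
    exact hK.measure_lt_top⟩
  exact h.integrable (by norm_num)

omit [CompleteSpace E] in
/-- change of variables in the difference quotient -/
private theorem t6_change (F : VF) {U : Set Pt} {f : Pt → E} (hf : L2l U f) {φ : Pt → ℝ}
    (hφ : Tst U φ) {K' : Set Pt} (hK' : IsCompact K') (hK'U : K' ⊆ U) {s : ℝ} (hs0 : s ≠ 0)
    (hs : ∀ z ∈ tsupport φ, F.fl s z ∈ K') :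
    ∫ z, φ z • (s⁻¹ • (f (F.fl s z) - f z)) =
      ∫ z, (s⁻¹ * (φ (F.fl (-s) z) - φ z)) • f z := by
  have hφc : Continuous φ := hφ.smooth.continuous
  have hi1 : Integrable (fun z => φ z • f z) :=
    t6_int_smul hφc hφ.cpt (fun z hz => subset_tsupport φ hz) (t6_intOn hf hφ.cpt hφ.supp)
  have hfl : Continuous (F.fl (-s)) := F.cont_fl.comp (Continuous.prodMk_right (-s))
  have hmem : ∀ z, φ (F.fl (-s) z) ≠ 0 → z ∈ K' := by
    intro z hz
    have h1 := hs _ (subset_tsupport φ hz)
    rw [VF.fl_fl, add_neg_cancel, VF.fl_zero] at h1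
    exact h1
  have hi2 : Integrable (fun z => φ (F.fl (-s) z) • f z) :=
    t6_int_smul (hφc.comp hfl) hK' hmem (t6_intOn hf hK' hK'U)
  have hme : MeasurableEmbedding (F.fl s) := (F.flH s).measurableEmbedding
  have hcomp : (fun z => φ (F.fl (-s) z) • f z) ∘ (F.fl s) = fun z => φ z • f (F.fl s z) := by
    funext z
    show φ (F.fl (-s) (F.fl s z)) • f (F.fl s z) = _
    rw [VF.fl_fl, neg_add_cancel, VF.fl_zero]
  have hi3 : Integrable (fun z => φ z • f (F.fl s z)) := by
    rw [← hcomp]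
    exact ((F.mp s).integrable_comp_emb hme).2 hi2
  have he : ∫ z, φ z • f (F.fl s z) = ∫ z, φ (F.fl (-s) z) • f z := by
    rw [← (F.mp s).integral_comp hme (fun z => φ (F.fl (-s) z) • f z)]
    refine integral_congr_ae (Filter.Eventually.of_forall (fun z => ?_))
    exact (congrFun hcomp z).symm
  have e1 : ∫ z, φ z • (s⁻¹ • (f (F.fl s z) - f z)) =
      s⁻¹ • ((∫ z, φ z • f (F.fl s z)) - ∫ z, φ z • f z) := by
    rw [← integral_sub hi3 hi1, ← integral_smul]
    refine integral_congr_ae (Filter.Eventually.of_forall (fun z => ?_))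
    show φ z • (s⁻¹ • (f (F.fl s z) - f z)) = s⁻¹ • (φ z • f (F.fl s z) - φ z • f z)
    rw [smul_comm, smul_sub]
  have e2 : ∫ z, (s⁻¹ * (φ (F.fl (-s) z) - φ z)) • f z =
      s⁻¹ • ((∫ z, φ (F.fl (-s) z) • f z) - ∫ z, φ z • f z) := by
    rw [← integral_sub hi2 hi1, ← integral_smul]
    refine integral_congr_ae (Filter.Eventually.of_forall (fun z => ?_))
    show (s⁻¹ * (φ (F.fl (-s) z) - φ z)) • f z =
      s⁻¹ • (φ (F.fl (-s) z) • f z - φ z • f z)
    rw [← sub_smul, smul_smul]
  rw [e1, e2, he]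

omit [CompleteSpace E] in
/-- the limit of the difference quotients tested with a smooth function -/
private theorem t6_limit (F : VF) {U : Set Pt} (hU : IsOpen U) {f : Pt → E} (hf : L2l U f)
    {φ : Pt → ℝ} (hφ : Tst U φ) {s : ℕ → ℝ} (hs0 : ∀ n, s n ≠ 0) (hs : Tendsto s atTop (𝓝 0)) :
    Tendsto (fun n => ∫ z, φ z • ((s n)⁻¹ • (f (F.fl (s n) z) - f z))) atTop
      (𝓝 (-∫ z, der F φ z • f z)) := by
  obtain ⟨K', hK', hK'U, hKK', s₁, hs₁, hfl⟩ := t6_flow_near F hφ.cpt hU hφ.supp
  have hφc : Continuous φ := hφ.smooth.continuous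
  have hdiff : Differentiable ℝ φ := hφ.smooth.differentiable (by simp)
  have hd := hφ.der F
  obtain ⟨C, hC⟩ := hd.cpt.exists_bound_of_continuous hd.smooth.continuous
  have hC0 : 0 ≤ C := (norm_nonneg _).trans (hC 0)
  have hlip : ∀ (r : ℝ) (z : Pt), ‖φ (F.fl r z) - φ z‖ ≤ C * |r| := by
    intro r z
    have h1 := Convex.norm_image_sub_le_of_norm_hasDerivWithin_le
      (f := fun r => φ (F.fl r z)) (f' := fun r => der F φ (F.fl r z)) (s := Set.univ)
      (x := 0) (y := r) (C := C)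
      (fun x _ => (VF.hasDerivAt_fl F hdiff x z).hasDerivWithinAt) (fun x _ => hC _)
      convex_univ (Set.mem_univ _) (Set.mem_univ _)
    simp only [VF.fl_zero, sub_zero] at h1
    exact h1
  have hev : ∀ᶠ n in atTop, |s n| ≤ s₁ := by
    have h1 := (hs.abs).eventually (Iio_mem_nhds (show |(0 : ℝ)| < s₁ by simpa using hs₁))
    filter_upwards [h1] with n hn using le_of_lt hn
  have hevn : ∀ᶠ n in atTop, |-(s n)| ≤ s₁ := by
    filter_upwards [hev] with n hn
    rwa [abs_neg]
  have hlim : Tendsto (fun n => ∫ z, ((s n)⁻¹ * (φ (F.fl (-(s n)) z) - φ z)) • f z) atTop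
      (𝓝 (∫ z, (-(der F φ z)) • f z)) := by
    refine tendsto_integral_filter_of_dominated_convergence
      (fun z => C * ‖K'.indicator f z‖) ?_ ?_ ?_ ?_
    · filter_upwards [hev] with n hn
      have hψ : Continuous (fun z => (s n)⁻¹ * (φ (F.fl (-(s n)) z) - φ z)) := by
        have hfl : Continuous (F.fl (-(s n))) := F.cont_fl.comp (Continuous.prodMk_right (-(s n)))
        exact continuous_const.mul ((hφc.comp hfl).sub hφc)
      refine (t6_int_smul hψ hK' ?_ (t6_intOn hf hK' hK'U)).aestronglyMeasurable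
      intro z hz
      by_contra hzK
      apply hz
      have h1 : φ z = 0 := by
        by_contra h
        exact hzK (hKK' (subset_tsupport φ h))
      have h2 : φ (F.fl (-(s n)) z) = 0 := by
        by_contra h
        have h3 := hfl (s n) hn _ (subset_tsupport φ h)
        rw [VF.fl_fl, add_neg_cancel, VF.fl_zero] at h3
        exact hzK h3
      rw [h1, h2, sub_zero, mul_zero]
    · filter_upwards [hev] with n hn
      refine Filter.Eventually.of_forall (fun z => ?_)
      by_cases hzK : z ∈ K'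
      · rw [Set.indicator_of_mem hzK, norm_smul]
        refine mul_le_mul_of_nonneg_right ?_ (norm_nonneg _)
        have h1 := hlip (-(s n)) z
        rw [abs_neg] at h1
        rw [norm_mul, norm_inv, Real.norm_eq_abs]
        have h2 : 0 < |s n| := abs_pos.2 (hs0 n)
        rw [inv_mul_le_iff₀ h2, mul_comm]
        exact h1
      · have h1 : φ z = 0 := by
          by_contra h
          exact hzK (hKK' (subset_tsupport φ h))
        have h2 : φ (F.fl (-(s n)) z) = 0 := by
          by_contra h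
          have h3 := hfl (s n) hn _ (subset_tsupport φ h)
          rw [VF.fl_fl, add_neg_cancel, VF.fl_zero] at h3
          exact hzK h3
        rw [h1, h2, sub_zero, mul_zero, zero_smul, norm_zero]
        positivity
    · exact ((integrable_indicator_iff hK'.measurableSet).2 (t6_intOn hf hK' hK'U)).norm.const_mul C
    · refine Filter.Eventually.of_forall (fun z => ?_)
      refine Tendsto.smul_const ?_ _
      have h1 := VF.hasDerivAt_fl F hdiff 0 z
      rw [VF.fl_zero] at h1
      have h2 := hasDerivAt_iff_tendsto_slope.1 h1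
      have h3 : Tendsto (fun n => -(s n)) atTop (𝓝[≠] 0) := by
        refine tendsto_nhdsWithin_iff.2 ⟨by simpa using hs.neg, ?_⟩
        exact Filter.Eventually.of_forall (fun n => neg_ne_zero.2 (hs0 n))
      have h4 := (h2.comp h3).neg
      refine h4.congr (fun n => ?_)
      simp only [Function.comp_apply, slope_def_field, VF.fl_zero, sub_zero]
      rw [div_neg, neg_neg, div_eq_inv_mul]
  have hneg : ∫ z, (-(der F φ z)) • f z = -∫ z, der F φ z • f z := by
    rw [← integral_neg]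
    refine integral_congr_ae (Filter.Eventually.of_forall (fun z => ?_))
    exact neg_smul _ _
  rw [← hneg]
  refine hlim.congr' ?_
  filter_upwards [hev] with n hn
  exact (t6_change F hf hφ hK' hK'U (hs0 n) (fun z hz => hfl (s n) hn z hz)).symm

/-- a bounded sequence in a Hilbert space has a weak limit along an ultrafilter -/
private theorem t6_weak {H : Type*} [NormedAddCommGroup H] [InnerProductSpace ℝ H] [CompleteSpace H]
    (D : ℕ → H) (B : ℝ) (hD : ∀ n, ‖D n‖ ≤ B) :
    ∃ g : H, ∀ Φ : H, Tendsto (fun n => inner ℝ (D n) Φ) (Filter.hyperfilter ℕ : Filter ℕ)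
      (𝓝 (inner ℝ g Φ)) := by
  have hB : 0 ≤ B := (norm_nonneg _).trans (hD 0)
  have hbd : ∀ n (Φ : H), |inner ℝ (D n) Φ| ≤ B * ‖Φ‖ := by
    intro n Φ
    exact (abs_real_inner_le_norm _ _).trans (mul_le_mul_of_nonneg_right (hD n) (norm_nonneg _))
  have hex : ∀ Φ : H, ∃ l : ℝ, |l| ≤ B * ‖Φ‖ ∧
      Tendsto (fun n => inner ℝ (D n) Φ) (Filter.hyperfilter ℕ : Filter ℕ) (𝓝 l) := by
    intro Φ
    have hcpt : IsCompact (Set.Icc (-(B * ‖Φ‖)) (B * ‖Φ‖)) := isCompact_Icc
    obtain ⟨l, hl, hle⟩ := hcpt.ultrafilter_le_nhds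
      ((Filter.hyperfilter ℕ).map (fun n => inner ℝ (D n) Φ)) (by
        rw [Filter.le_principal_iff]
        refine Ultrafilter.mem_map.2 ?_
        refine Filter.univ_mem' (fun n => ?_)
        exact abs_le.1 (hbd n Φ))
    exact ⟨l, abs_le.2 hl, hle⟩
  choose L hL1 hL2 using hex
  have hadd : ∀ x y, L (x + y) = L x + L y := by
    intro x y
    refine tendsto_nhds_unique (hL2 (x + y)) ?_
    refine ((hL2 x).add (hL2 y)).congr (fun n => ?_)
    rw [inner_add_right]
  have hsmul : ∀ (c : ℝ) x, L (c • x) = c • L x := by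
    intro c x
    refine tendsto_nhds_unique (hL2 (c • x)) ?_
    refine ((hL2 x).const_mul c).congr (fun n => ?_)
    rw [inner_smul_right]
  let Lc : StrongDual ℝ H := LinearMap.mkContinuous
    { toFun := L, map_add' := hadd, map_smul' := hsmul } B (fun x => hL1 x)
  refine ⟨(InnerProductSpace.toDual ℝ H).symm Lc, fun Φ => ?_⟩
  rw [InnerProductSpace.toDual_symm_apply]
  exact hL2 Φ

omit [CompleteSpace E] in
private theorem t6_norm2 {μ : Measure Pt} (g : Pt → E) :
    eLpNorm g 2 μ = (∫⁻ z, ‖g z‖ₑ ^ 2 ∂μ) ^ (1 / 2 : ℝ) := by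
  rw [eLpNorm_eq_lintegral_rpow_enorm_toReal (by norm_num) (by norm_num)]
  norm_num

theorem wd_of_dq {F : VF} {U : Set Pt} (hU : IsOpen U) {f : Pt → E} (hf : L2l U f)
    (hb : ∀ K : Set Pt, IsCompact K → K ⊆ U → ∃ s₀ : ℝ, 0 < s₀ ∧ ∃ M : ℝ, ∀ s : ℝ, |s| ≤ s₀ →
      ∫⁻ z in K, ‖f (F.fl s z) - f z‖ₑ ^ 2 ≤ ENNReal.ofReal (M * s ^ 2))
    {U₁ : Set Pt} (hU₁ : IsOpen U₁) (hc : IsCompact (closure U₁)) (hcU : closure U₁ ⊆ U) :
    ∃ g : Pt → E, MemLp g 2 (volume.restrict U₁) ∧ WD F U₁ f g := by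
  have hK₁ : IsCompact (closure U₁) := hc
  obtain ⟨s₀, hs₀, M, hM⟩ := hb _ hK₁ hcU
  obtain ⟨K'', hK'', hK''U, hKK'', s₃, hs₃, hfl⟩ := t6_flow_near F hK₁ hU hcU
  set s₂ := min s₀ s₃ with hs₂
  have hs₂0 : 0 < s₂ := lt_min hs₀ hs₃
  set s : ℕ → ℝ := fun n => s₂ * (1 / ((n : ℝ) + 1)) with hsdef
  have hspos : ∀ n, 0 < s n := by
    intro n
    rw [hsdef]
    positivity
  have hs0 : ∀ n, s n ≠ 0 := fun n => (hspos n).ne'
  have hsle : ∀ n, |s n| ≤ s₂ := by
    intro n
    rw [abs_of_pos (hspos n), hsdef]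
    have h1 : (1 : ℝ) / ((n : ℝ) + 1) ≤ 1 := by
      rw [div_le_one (by positivity)]
      have : (0 : ℝ) ≤ n := Nat.cast_nonneg n
      linarith
    calc s₂ * (1 / ((n : ℝ) + 1)) ≤ s₂ * 1 := mul_le_mul_of_nonneg_left h1 hs₂0.le
      _ = s₂ := mul_one _
  have hslim : Tendsto s atTop (𝓝 0) := by
    have h1 := (tendsto_one_div_add_atTop_nhds_zero_nat (𝕜 := ℝ)).const_mul s₂
    rw [mul_zero] at h1
    exact h1
  have hms : MeasurableSet K'' := hK''.measurableSet
  set μ₁ : Measure Pt := volume.restrict U₁ with hμ₁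
  have hfin : IsFiniteMeasure μ₁ := ⟨by
    rw [hμ₁, Measure.restrict_apply_univ]
    exact (measure_mono subset_closure).trans_lt hK₁.measure_lt_top⟩
  have hfm : AEStronglyMeasurable f μ₁ := by
    have h1 := (hf _ hK₁ hcU).aestronglyMeasurable
    exact h1.mono_measure (Measure.restrict_mono subset_closure le_rfl)
  set D : ℕ → Pt → E := fun n z => (s n)⁻¹ • (f (F.fl (s n) z) - f z) with hD
  have hDm : ∀ n, AEStronglyMeasurable (D n) μ₁ := by
    intro n
    have h1 := (hf _ hK'' hK''U).aestronglyMeasurable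
    have h2 := (F.mp (s n)).restrict_preimage hms
    have h3 := h1.comp_measurePreserving h2
    have h4 : AEStronglyMeasurable (f ∘ F.fl (s n)) μ₁ := by
      refine h3.mono_measure (Measure.restrict_mono ?_ le_rfl)
      intro z hz
      exact hfl (s n) ((hsle n).trans (min_le_right _ _)) z (subset_closure hz)
    exact (h4.sub hfm).const_smul _
  have hDint : ∀ n, ∫⁻ z, ‖D n z‖ₑ ^ 2 ∂μ₁ ≤ ENNReal.ofReal M := by
    intro n
    have h1 := hM (s n) ((hsle n).trans (min_le_left _ _))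
    have h2 : ∫⁻ z, ‖D n z‖ₑ ^ 2 ∂μ₁ =
        (‖(s n)⁻¹‖ₑ ^ 2) * ∫⁻ z in U₁, ‖f (F.fl (s n) z) - f z‖ₑ ^ 2 := by
      rw [← lintegral_const_mul' _ _ (by finiteness)]
      refine lintegral_congr (fun z => ?_)
      rw [hD]
      simp only [enorm_smul, mul_pow]
    rw [h2]
    have h3 : ∫⁻ z in U₁, ‖f (F.fl (s n) z) - f z‖ₑ ^ 2 ≤ ENNReal.ofReal (M * (s n) ^ 2) :=
      (lintegral_mono_set subset_closure).trans h1
    refine (mul_le_mul_right h3 _).trans ?_
    have h4 : ‖(s n)⁻¹‖ₑ = ENNReal.ofReal ((s n)⁻¹) := by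
      rw [Real.enorm_eq_ofReal (inv_nonneg.2 (hspos n).le)]
    rw [h4, ← ENNReal.ofReal_pow (inv_nonneg.2 (hspos n).le), ← ENNReal.ofReal_mul (by positivity)]
    refine ENNReal.ofReal_le_ofReal (le_of_eq ?_)
    have := hs0 n
    field_simp
  have hDL : ∀ n, MemLp (D n) 2 μ₁ := by
    intro n
    refine ⟨hDm n, ?_⟩
    rw [t6_norm2]
    exact ENNReal.rpow_lt_top_of_nonneg (by norm_num) ((hDint n).trans_lt ENNReal.ofReal_lt_top).ne
  set B : ℝ := ((ENNReal.ofReal M) ^ (1 / 2 : ℝ)).toReal with hB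
  have hDB : ∀ n, ‖(hDL n).toLp (D n)‖ ≤ B := by
    intro n
    rw [Lp.norm_toLp, hB]
    refine ENNReal.toReal_mono ?_ ?_
    · exact (ENNReal.rpow_lt_top_of_nonneg (by norm_num) ENNReal.ofReal_ne_top).ne
    · rw [t6_norm2]
      exact ENNReal.rpow_le_rpow (hDint n) (by norm_num)
  obtain ⟨g, hg⟩ := t6_weak (fun n => (hDL n).toLp (D n)) B hDB
  have hgm : MemLp (g : Pt → E) 2 μ₁ := Lp.memLp g
  have hU₁U : U₁ ⊆ U := subset_closure.trans hcU
  refine ⟨g, hgm, ?_, ?_, ?_⟩
  · rw [locallyIntegrableOn_iff hU₁.isLocallyClosed]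
    intro K hKU hK
    exact t6_intOn hf hK (hKU.trans hU₁U)
  · rw [locallyIntegrableOn_iff hU₁.isLocallyClosed]
    intro K hKU hK
    have h1 : Integrable (g : Pt → E) μ₁ := hgm.integrable (by norm_num)
    have h2 : IntegrableOn (g : Pt → E) U₁ := h1
    exact h2.mono_set hKU
  · intro φ hφ
    have hφU : Tst U φ := ⟨hφ.smooth, hφ.cpt, hφ.supp.trans hU₁U⟩
    have hφc : Continuous φ := hφ.smooth.continuous
    have hz0 : ∀ z, z ∉ U₁ → φ z = 0 := by
      intro z hz
      by_contra h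
      exact hz (hφ.supp (subset_tsupport φ h))
    have hlim := t6_limit F hU hf hφU hs0 hslim
    have hgi : Integrable (g : Pt → E) μ₁ := hgm.integrable (by norm_num)
    have hgi2 : Integrable (fun z => φ z • (g : Pt → E) z) :=
      t6_int_smul hφc hφ.cpt (fun z hz => subset_tsupport φ hz)
        ((show IntegrableOn (g : Pt → E) U₁ volume from hgi).mono_set hφ.supp)
    have key : ∀ e : E, inner ℝ e (∫ z, φ z • (g : Pt → E) z) =
        inner ℝ e (-∫ z, der F φ z • f z) := by
      intro e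
      have hΦc : Continuous (fun z => φ z • e) := hφc.smul continuous_const
      have hΦs : HasCompactSupport (fun z => φ z • e) := hφ.cpt.smul_right
      have hΦ : MemLp (fun z => φ z • e) 2 μ₁ :=
        (hΦc.memLp_of_hasCompactSupport hΦs)
      have h1 := hg (hΦ.toLp _)
      have hin : ∀ (G : Lp E 2 μ₁) (G' : Pt → E), G =ᵐ[μ₁] G' → Integrable (fun z => φ z • G' z) →
          inner ℝ G (hΦ.toLp (fun z => φ z • e)) = inner ℝ e (∫ z, φ z • G' z) := by
        intro G G' hGG hGi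
        rw [L2.inner_def, ← integral_inner hGi]
        have e1 : ∫ z, inner ℝ e (φ z • G' z) = ∫ z in U₁, inner ℝ e (φ z • G' z) := by
          rw [setIntegral_eq_integral_of_forall_compl_eq_zero]
          intro z hz
          rw [hz0 z hz, zero_smul, inner_zero_right]
        rw [e1]
        refine integral_congr_ae ?_
        filter_upwards [hGG, hΦ.coeFn_toLp] with z hz1 hz2
        rw [hz1, hz2, inner_smul_right, inner_smul_right, real_inner_comm]
      have h2 : inner ℝ g (hΦ.toLp (fun z => φ z • e)) =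
          inner ℝ e (∫ z, φ z • (g : Pt → E) z) := hin g g (Filter.EventuallyEq.refl _ _) hgi2
      have h3 : ∀ n, inner ℝ ((hDL n).toLp (D n)) (hΦ.toLp (fun z => φ z • e)) =
          inner ℝ e (∫ z, φ z • D n z) := by
        intro n
        refine hin _ _ (hDL n).coeFn_toLp ?_
        have hDi : Integrable (D n) μ₁ := (hDL n).integrable (by norm_num)
        exact t6_int_smul hφc hφ.cpt (fun z hz => subset_tsupport φ hz)
          ((show IntegrableOn (D n) U₁ volume from hDi).mono_set hφ.supp)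
      rw [h2] at h1
      have h4 : Tendsto (fun n => inner ℝ e (∫ z, φ z • D n z)) (Filter.hyperfilter ℕ : Filter ℕ)
          (𝓝 (inner ℝ e (-∫ z, der F φ z • f z))) := by
        have h5 : Tendsto (fun n => inner ℝ e (∫ z, φ z • D n z)) atTop
            (𝓝 (inner ℝ e (-∫ z, der F φ z • f z))) :=
          Tendsto.inner tendsto_const_nhds hlim
        exact h5.mono_left Nat.hyperfilter_le_atTop
      refine tendsto_nhds_unique (h1.congr (fun n => ?_)) h4
      exact h3 n
    have hfinal := ext_inner_left ℝ key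
    rw [hfinal, neg_neg]

end PLH
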