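import Pool.Agent.Lib.PLH.R4
import Pool.Agent.Lib.PLH.T6

/-!
MODULE R5 (200 lines). Regularity of the solutions of the nondegenerate systems.

Let `U₁ ⋐ U' ⋐ U` (open, compact closures; `exists_open_between_and_isCompact_closure`).
`hl_one`, `hl_grad` (`F = vT`): `HL vT 1` for `u`, `ξ` (exponent `2 * 1`, `|s|^(2:ℝ) = s²`), so
`wd_of_dq` gives `ut`, `ξt ∈ L²(U')` with `WD vT U' u ut`, `WD vT U' ξ ξt`. Since
`lX.v = vX.v + y vT.v` (`y` does not depend on `t`), `WD.lin` gives `WD lX U' u (ξ 0 + y ut)`, a function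
in `L²_loc(U')`; by `WD.lsq_le` `HL lX 1 U' u`, so `hl_grad` on `U'` (the restriction of the solution)
gives `HL lX 1 U' ξ`, and `wd_of_dq` gives `ξ'` with `WD lX U₁ ξ ξ'`; finally
`vX.v = lX.v + (-y) vT.v`: `ξx = ξ' - y ξt`. Same for `Y` with `lY.v = vY.v - x vT.v`.
-/

open MeasureTheory Set Filter Topology
open scoped ContDiff ENNReal

namespace PLH

variable {W : Type*} [NormedAddCommGroup W] [InnerProductSpace ℝ W] [FiniteDimensional ℝ W]

private theorem r5_fl (F : VF) {K V : Set Pt} (hK : IsCompact K) (hV : IsOpen V) (hKV : K ⊆ V) :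
    ∃ s₀ : ℝ, 0 < s₀ ∧ ∀ s : ℝ, |s| ≤ s₀ → ∀ z ∈ K, F.fl s z ∈ V := by
  have hev : ∀ᶠ s in 𝓝 (0 : ℝ), ∀ z ∈ K, F.fl s z ∈ V := by
    refine hK.eventually_forall_of_forall_eventually fun z hz => ?_
    have h1 : V ∈ 𝓝 (F.fl 0 z) := by
      rw [F.fl_zero]
      exact hV.mem_nhds (hKV hz)
    have h2 : ∀ᶠ q in 𝓝 ((0 : ℝ), z), F.fl q.1 q.2 ∈ V :=
      (F.cont_fl.continuousAt (x := ((0 : ℝ), z))) h1
    exact h2
  obtain ⟨δ, hδ, hb⟩ := Metric.mem_nhds_iff.1 hev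
  refine ⟨δ / 2, by linarith, fun s hs z hz => ?_⟩
  have h3 : s ∈ Metric.ball (0 : ℝ) δ := by
    rw [mem_ball_zero_iff, Real.norm_eq_abs]
    linarith
  exact hb h3 z hz

private theorem r5_smul {E : Type*} [NormedAddCommGroup E] [NormedSpace ℝ E] {κ : Pt → ℝ}
    (hκ : Continuous κ) {S K : Set Pt} (hS : MeasurableSet S) (hK : IsCompact K) (hSK : S ⊆ K)
    {f : Pt → E} (hf : MemLp f 2 (volume.restrict S)) :
    MemLp (fun z => κ z • f z) 2 (volume.restrict S) := by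
  obtain ⟨C, hC⟩ := hK.exists_bound_of_continuousOn hκ.continuousOn
  refine hf.of_le_mul (c := C) (hκ.aestronglyMeasurable.smul hf.1)
    ((ae_restrict_iff' hS).2 (Filter.Eventually.of_forall fun z hz => ?_))
  rw [norm_smul]
  exact mul_le_mul_of_nonneg_right (hC z (hSK hz)) (norm_nonneg _)

private theorem r5_comp {S : Set Pt} {ξ : Pt → V2 W} (hξ : MemLp ξ 2 (volume.restrict S))
    (i : Fin 2) : MemLp (fun z => ξ z i) 2 (volume.restrict S) := by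
  refine hξ.mono ((PiLp.proj (𝕜 := ℝ) 2 (fun _ : Fin 2 => W) i).continuous.comp_aestronglyMeasurable
    hξ.1) (Filter.Eventually.of_forall fun z => ?_)
  exact PiLp.norm_apply_le (ξ z) i

private theorem r5_hl {E : Type*} [NormedAddCommGroup E] {F : VF} {U : Set Pt} {f : Pt → E}
    (h : HL F 1 U f) : ∀ K : Set Pt, IsCompact K → K ⊆ U → ∃ s₀ : ℝ, 0 < s₀ ∧ ∃ M : ℝ,
      ∀ s : ℝ, |s| ≤ s₀ → ∫⁻ z in K, ‖f (F.fl s z) - f z‖ₑ ^ 2 ≤ ENNReal.ofReal (M * s ^ 2) := by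
  intro K hK hKU
  obtain ⟨s₀, hs₀, M, hM⟩ := h K hK hKU
  refine ⟨s₀, hs₀, M, fun s hs => (hM s hs).trans (le_of_eq ?_)⟩
  have e : |s| ^ (2 * (1 : ℝ)) = s ^ 2 := by
    rw [mul_one, Real.rpow_two, sq_abs]
  rw [e]

private theorem r5_dir {m : ℝ} {a : ℝ → ℝ} {U : Set Pt} {u : Pt → W} {ξ : Pt → V2 W}
    (hm : -1 < m) (ha : Nice m a) (hU : IsOpen U) (h : SolU a U u ξ) {F G : VF}
    (hF : F = lX ∨ F = lY) {κ : Pt → ℝ} (hκ : ContDiff ℝ ∞ κ) (hκT : ∀ z, der vT κ z = 0)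
    (hv : ∀ z, F.v z = G.v z + κ z • vT.v z) {i : Fin 2} (gG : WD G U u (fun z => ξ z i))
    {ut : Pt → W} {ξt : Pt → V2 W} (hut : MemLp ut 2 (volume.restrict U)) (gt : WD vT U u ut)
    (hξt : MemLp ξt 2 (volume.restrict U)) (wt : WD vT U ξ ξt)
    {U₁ : Set Pt} (hU₁ : IsOpen U₁) (hc : IsCompact (closure U₁)) (hcU : closure U₁ ⊆ U) :
    ∃ ξ' : Pt → V2 W, MemLp ξ' 2 (volume.restrict U₁) ∧ WD G U₁ ξ ξ' := by
  have hcW : CompleteSpace W := FiniteDimensional.complete ℝ W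
  have hF' : F = vT ∨ F = lX ∨ F = lY := Or.inr hF
  have h1 : WD F U u (fun z => ξ z i + κ z • ut z) := WD.lin hU hκ hκT hv gG gt
  have h2 : HL F 1 U u := by
    intro K hK hKU
    obtain ⟨K', hK', hKK', hK'U⟩ := exists_compact_between hK hU hKU
    obtain ⟨s₀, hs₀, hs⟩ := r5_fl F hK isOpen_interior hKK'
    have hg : MemLp (fun z => ξ z i + κ z • ut z) 2 (volume.restrict K') :=
      (r5_comp (h.lξ K' hK' hK'U) i).add (r5_smul hκ.continuous hK'.measurableSet hK'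
        (subset_refl _) (hut.mono_measure (Measure.restrict_mono hK'U le_rfl)))
    have hfin : ∫⁻ z in K', ‖ξ z i + κ z • ut z‖ₑ ^ 2 ≠ ⊤ := by
      have h3 := eLpNorm_nnreal_pow_eq_lintegral (μ := volume.restrict K')
        (f := fun z => ξ z i + κ z • ut z) (p := 2) two_ne_zero
      have e : ((2 : NNReal) : ℝ) = ((2 : ℕ) : ℝ) := by norm_num
      rw [e] at h3
      simp only [ENNReal.rpow_natCast] at h3
      rw [← h3]
      exact (ENNReal.pow_lt_top hg.2).ne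
    refine ⟨s₀, hs₀, (∫⁻ z in K', ‖ξ z i + κ z • ut z‖ₑ ^ 2).toReal, fun s hss => ?_⟩
    refine (h1.lsq_le hU hK.measurableSet hK'.measurableSet hK'U s fun z hz σ hσ => ?_).trans
      (le_of_eq ?_)
    · refine interior_subset (hs _ ?_ z hz)
      rw [abs_mul, abs_of_nonneg hσ.1]
      calc σ * |s| ≤ 1 * |s| := mul_le_mul_of_nonneg_right hσ.2 (abs_nonneg _)
        _ ≤ s₀ := by rw [one_mul]; exact hss
    · have e : |s| ^ (2 * (1 : ℝ)) = s ^ 2 := by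
        rw [mul_one, Real.rpow_two, sq_abs]
      rw [e, ENNReal.ofReal_mul ENNReal.toReal_nonneg, ENNReal.ofReal_toReal hfin, mul_comm]
  have h3 := hl_grad hm ha hU h hF' one_pos h2
  obtain ⟨ξ', hξ', hw'⟩ := wd_of_dq hU h.lξ (r5_hl h3) hU₁ hc hcU
  have hU₁U : U₁ ⊆ U := subset_closure.trans hcU
  have hκn : ContDiff ℝ ∞ (fun z => -κ z) := hκ.neg
  have hκTn : ∀ z, der vT (fun z => -κ z) z = 0 := by
    intro z
    have e := hκT z
    rw [der] at e ⊢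
    rw [fderiv_fun_neg, neg_apply, e, neg_zero]
  refine ⟨fun z => ξ' z + (-κ z) • ξt z, ?_, ?_⟩
  · exact hξ'.add (r5_smul hκn.continuous hU₁.measurableSet hc subset_closure
      (hξt.mono_measure (Measure.restrict_mono hU₁U le_rfl)))
  · refine WD.lin hU₁ hκn hκTn (fun z => ?_) hw' (wt.mono hU₁U)
    rw [hv z, neg_smul, add_neg_cancel_right]

private theorem r5_der1 (z : Pt) : der vT (fun w : Pt => w.2.1) z = 0 := by
  have h : HasFDerivAt (fun w : Pt => w.2.1)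
      ((ContinuousLinearMap.fst ℝ ℝ ℝ).comp (ContinuousLinearMap.snd ℝ ℝ (ℝ × ℝ))) z :=
    ((ContinuousLinearMap.fst ℝ ℝ ℝ).comp (ContinuousLinearMap.snd ℝ ℝ (ℝ × ℝ))).hasFDerivAt
  rw [der, h.fderiv]
  simp [VF.v, vT]

private theorem r5_der2 (z : Pt) : der vT (fun w : Pt => -w.1) z = 0 := by
  have h : HasFDerivAt (fun w : Pt => -w.1) (-ContinuousLinearMap.fst ℝ ℝ (ℝ × ℝ)) z :=
    (ContinuousLinearMap.fst ℝ ℝ (ℝ × ℝ)).hasFDerivAt.neg
  rw [der, h.fderiv]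
  simp [VF.v, vT]

theorem regular {m : ℝ} {a : ℝ → ℝ} {U : Set Pt} {u : Pt → W} {ξ : Pt → V2 W}
    (hm : -1 < m) (ha : Nice m a) (hU : IsOpen U) (h : SolU a U u ξ)
    {U₁ : Set Pt} (hU₁ : IsOpen U₁) (hc : IsCompact (closure U₁)) (hcU : closure U₁ ⊆ U) :
    ∃ (ut : Pt → W) (ξx ξy ξt : Pt → V2 W), Rs m a U₁ u ut ξ ξx ξy ξt := by
  have hcW : CompleteSpace W := FiniteDimensional.complete ℝ W
  obtain ⟨U', hU', hUU', hU'U, hcU'⟩ := exists_open_between_and_isCompact_closure hc hU hcU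
  have hU'U2 : U' ⊆ U := subset_closure.trans hU'U
  have hU₁U' : U₁ ⊆ U' := subset_closure.trans hUU'
  have h1 := hl_one hm ha hU h
  have h2 := hl_grad hm ha hU h (Or.inl rfl) one_pos h1
  obtain ⟨ut, hut, gt⟩ := wd_of_dq hU h.lu (r5_hl h1) hU' hcU' hU'U
  obtain ⟨ξt, hξt, wt⟩ := wd_of_dq hU h.lξ (r5_hl h2) hU' hcU' hU'U
  have h' : SolU a U' u ξ :=
    ⟨fun K hK hKV => h.lu K hK (hKV.trans hU'U2), fun K hK hKV => h.lξ K hK (hKV.trans hU'U2),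
      h.gx.mono hU'U2, h.gy.mono hU'U2,
      fun φ hφ => h.sol φ ⟨hφ.smooth, hφ.cpt, hφ.supp.trans hU'U2⟩⟩
  obtain ⟨ξx, hξx, wx⟩ := r5_dir hm ha hU' h' (G := vX) (Or.inl rfl)
    (κ := fun w : Pt => w.2.1) (by fun_prop) r5_der1
    (fun z => by
      simp only [VF.v, lX, vX, vT]
      ext <;> simp <;> ring)
    h'.gx hut gt hξt wt hU₁ hc hUU'
  obtain ⟨ξy, hξy, wy⟩ := r5_dir hm ha hU' h' (G := vY) (Or.inr rfl)
    (κ := fun w : Pt => -w.1) (by fun_prop) r5_der2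
    (fun z => by
      simp only [VF.v, lY, vY, vT]
      ext <;> simp <;> ring)
    h'.gy hut gt hξt wt hU₁ hc hUU'
  have hmono : volume.restrict U₁ ≤ (volume.restrict U' : Measure Pt) :=
    Measure.restrict_mono hU₁U' le_rfl
  refine ⟨ut, ξx, ξy, ξt, ⟨ha, hU₁, ?_, hut.mono_measure hmono, ?_, hξx, hξy,
    hξt.mono_measure hmono, h'.gx.mono hU₁U', h'.gy.mono hU₁U', gt.mono hU₁U', wx, wy,
    wt.mono hU₁U', fun φ hφ => h'.sol φ ⟨hφ.smooth, hφ.cpt, hφ.supp.trans hU₁U'⟩⟩⟩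
  · exact (h.lu _ hc hcU).mono_measure (Measure.restrict_mono subset_closure le_rfl)
  · exact (h.lξ _ hc hcU).mono_measure (Measure.restrict_mono subset_closure le_rfl)

end PLH
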