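import Pool.Agent.Lib.PLH.C1
import Pool.Agent.Lib.PLH.C2
import Pool.Agent.Lib.PLH.B5
import Pool.Agent.Lib.PLH.R5
import Pool.Agent.Lib.PLH.P9

/-!
MODULE C4 (300 lines). Local Holder continuity of the gradient.

Let `R > 0` with `cbl z₀ (16R) ⊆ Ω`; `B' = bl z₀ (16R)`, `B = bl z₀ (8R)`, `U₁ = bl z₀ (4R)`, `Ω₁ = bl z₀ R`.
For `z ∈ Ω₁`: `cbl z R ⊆ U₁` (`gd` triangle as in C1). There is `δ₀` with `mul g z ∈ B'` for `‖g‖ ≤ δ₀`,
`z ∈ B` (compactness of the closure of `B`, contained in `B'`). `u ∈ L^p ⊆ L¹(B')`.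
`approximation` with `ε = 1/k`: `a_k`, `u_k`, `ξ_k`; `regular` gives `Rs` on `U₁` (`closure U₁` is compact in
`B`); `growth` for `z ∈ Ω₁`, radius `R`: for `0 < r ≤ R`
`exc (V_k) (bl z r) ≤ C (r/R)^{4+2al} ∫_{bl z R}‖V_k‖²`. As `V_k → V₀(ξ)` in `L²(B)`, both sides converge
(`exc` is the square of the norm of the projection to mean zero functions; or: `exc V₀ ≤ ∫‖V₀-c_k‖² ≤
(1+η)∫‖V_k-c_k‖² + (1+1/η)∫‖V₀-V_k‖²`, `c_k` the average of `V_k`): the same for `V₀(ξ)` (with `2C`).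
`campanato` (`M² = 2C R^{-4-2al}∫_B‖V₀(ξ)‖²`) gives `f'` on `Ω₁`; `f'` is bounded on `bl z₀ (R/8)`
(`gd z z₀ ≤ R/4`), `η = Vinv m ∘ f'`, `Vinv_holder`: exponent `al * min 1 (2/(m+2))`. `R' = R/16`: then
`gd z w ≤ R/8` for `z, w ∈ bl z₀ R'`.
-/

open MeasureTheory Set Filter Topology
open scoped ContDiff ENNReal

namespace PLH

private theorem c4_mul (z₀ z w : Pt) :
    mul (inv z₀) w = mul (mul (inv z₀) z) (mul (inv z) w) := by
  simp only [mul, inv]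
  ext <;> simp only [] <;> ring

private theorem c4_cont_mul : Continuous (fun q : Pt × Pt => mul q.1 q.2) := by
  unfold mul
  fun_prop

private theorem c4_cont_inv (z₀ : Pt) : Continuous (fun z : Pt => mul (inv z₀) z) :=
  c4_cont_mul.comp (Continuous.prodMk_right _)

private theorem c4_bl_open (z : Pt) (r : ℝ) : IsOpen (bl z r) := by
  have h : IsOpen (bx r (r ^ 2)) := by
    have e : bx r (r ^ 2) = {z : Pt | |z.1| < r} ∩ ({z : Pt | |z.2.1| < r} ∩ {z : Pt | |z.2.2| < r ^ 2}) := by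
      ext z
      rfl
    rw [e]
    refine (isOpen_lt (by fun_prop) continuous_const).inter
      ((isOpen_lt (by fun_prop) continuous_const).inter (isOpen_lt (by fun_prop) continuous_const))
  exact h.preimage (c4_cont_inv z)

private theorem c4_bl_sub_cbl (z : Pt) (r : ℝ) : bl z r ⊆ cbl z r :=
  fun _ hw => ⟨hw.1.le, hw.2.1.le, hw.2.2.le⟩

private theorem c4_cbl_sub_bl (z : Pt) {r r' : ℝ} (hr : 0 ≤ r) (h : r < r') : cbl z r ⊆ bl z r' := by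
  intro w hw
  have h2 : r ^ 2 < r' ^ 2 := by nlinarith
  exact ⟨hw.1.trans_lt h, hw.2.1.trans_lt h, hw.2.2.trans_lt h2⟩

private theorem c4_cbl_eq (z : Pt) (r : ℝ) : cbl z r = (fun g => mul z g) '' cbx r (r ^ 2) := by
  ext w
  constructor
  · intro hw
    refine ⟨mul (inv z) w, hw, ?_⟩
    simp only [mul, inv]
    ext <;> simp only [] <;> ring
  · rintro ⟨g, hg, rfl⟩
    have : mul (inv z) (mul z g) = g := by
      simp only [mul, inv]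
      ext <;> simp only [] <;> ring
    change mul (inv z) (mul z g) ∈ cbx r (r ^ 2)
    rw [this]
    exact hg

private theorem c4_cbl_compact (z : Pt) (r : ℝ) : IsCompact (cbl z r) := by
  rw [c4_cbl_eq]
  refine IsCompact.image ?_ (c4_cont_mul.comp (Continuous.prodMk_right _))
  have e : cbx r (r ^ 2) = Set.Icc ((-r, (-r, -r ^ 2)) : Pt) (r, (r, r ^ 2)) := by
    ext w
    constructor
    · rintro ⟨h1, h2, h3⟩
      rw [abs_le] at h1 h2 h3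
      exact ⟨⟨h1.1, h2.1, h3.1⟩, ⟨h1.2, h2.2, h3.2⟩⟩
    · rintro ⟨⟨h1, h2, h3⟩, ⟨h1', h2', h3'⟩⟩
      exact ⟨abs_le.2 ⟨h1, h1'⟩, abs_le.2 ⟨h2, h2'⟩, abs_le.2 ⟨h3, h3'⟩⟩
  rw [e]
  exact isCompact_Icc

private theorem c4_exists_cbl {Ω : Set Pt} (hΩ : IsOpen Ω) {z₀ : Pt} (hz : z₀ ∈ Ω) :
    ∃ R : ℝ, 0 < R ∧ cbl z₀ (16 * R) ⊆ Ω := by
  have hc : ContinuousAt (fun g => mul z₀ g) (0 : Pt) :=
    (c4_cont_mul.comp (Continuous.prodMk_right z₀)).continuousAt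
  have h0 : mul z₀ (0 : Pt) = z₀ := by
    simp only [mul]
    ext <;> simp
  have hn : Ω ∈ 𝓝 (mul z₀ (0 : Pt)) := by rw [h0]; exact hΩ.mem_nhds hz
  obtain ⟨δ, hδ, hb⟩ := Metric.mem_nhds_iff.1 (hc hn)
  obtain ⟨ρ, hρ⟩ : ∃ ρ, ρ = min (δ / 2) 1 := ⟨_, rfl⟩
  have hρ0 : 0 < ρ := by rw [hρ]; positivity
  have hρ1 : ρ ≤ 1 := by rw [hρ]; exact min_le_right _ _
  have hρδ : ρ < δ := by
    have : ρ ≤ δ / 2 := by rw [hρ]; exact min_le_left _ _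
    linarith
  refine ⟨ρ / 16, by positivity, ?_⟩
  rw [c4_cbl_eq, show 16 * (ρ / 16) = ρ by ring]
  rintro _ ⟨g, ⟨h1, h2, h3⟩, rfl⟩
  apply hb
  rw [mem_ball_zero_iff, Prod.norm_def, Prod.norm_def]
  have h4 : ρ ^ 2 ≤ ρ := by nlinarith
  exact max_lt (h1.trans_lt hρδ) (max_lt (h2.trans_lt hρδ) ((h3.trans h4).trans_lt hρδ))

private theorem c4_triangle {z₀ z : Pt} {R : ℝ} (hR : 0 < R) (hz : z ∈ bl z₀ R) :
    cbl z R ⊆ bl z₀ (4 * R) := by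
  intro w hw
  have e := c4_mul z₀ z w
  obtain ⟨a, ha⟩ : ∃ a, a = mul (inv z₀) z := ⟨_, rfl⟩
  obtain ⟨b, hb⟩ : ∃ b, b = mul (inv z) w := ⟨_, rfl⟩
  change mul (inv z₀) z ∈ bx R (R ^ 2) at hz
  change mul (inv z) w ∈ cbx R (R ^ 2) at hw
  change mul (inv z₀) w ∈ bx (4 * R) ((4 * R) ^ 2)
  rw [e, ← ha, ← hb]
  rw [← ha] at hz
  rw [← hb] at hw
  obtain ⟨h1, h2, h3⟩ := hz
  obtain ⟨g1, g2, g3⟩ := hw
  simp only [mul]
  refine ⟨?_, ?_, ?_⟩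
  · change |a.1 + b.1| < 4 * R
    have := abs_add_le a.1 b.1
    linarith
  · change |a.2.1 + b.2.1| < 4 * R
    have := abs_add_le a.2.1 b.2.1
    linarith
  · change |a.2.2 + b.2.2 + (a.1 * b.2.1 - a.2.1 * b.1) / 2| < (4 * R) ^ 2
    have k1 : |a.1 * b.2.1| ≤ R * R := by
      rw [abs_mul]
      exact mul_le_mul h1.le g2 (abs_nonneg _) hR.le
    have k2 : |a.2.1 * b.1| ≤ R * R := by
      rw [abs_mul]
      exact mul_le_mul h2.le g1 (abs_nonneg _) hR.le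
    rw [abs_lt] at h3 ⊢
    rw [abs_le] at g3 k1 k2
    have hR2 : 0 < R * R := mul_pos hR hR
    constructor <;> nlinarith [h3.1, h3.2, g3.1, g3.2, k1.1, k1.2, k2.1, k2.2]

private theorem c4_gd {z₀ z w : Pt} {R : ℝ} (hR : 0 < R) (hz : z ∈ bl z₀ R) (hw : w ∈ bl z₀ R) :
    gd z w < 4 * R := by
  rw [← mem_bl_iff (by linarith)]
  have h1 : z₀ ∈ cbl z R := by
    apply c4_bl_sub_cbl
    rw [mem_bl_iff hR, gd_comm, ← mem_bl_iff hR]
    exact hz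
  have e := c4_mul z z₀ w
  obtain ⟨a, ha⟩ : ∃ a, a = mul (inv z) z₀ := ⟨_, rfl⟩
  obtain ⟨b, hb⟩ : ∃ b, b = mul (inv z₀) w := ⟨_, rfl⟩
  change mul (inv z) z₀ ∈ cbx R (R ^ 2) at h1
  change mul (inv z₀) w ∈ bx R (R ^ 2) at hw
  change mul (inv z) w ∈ bx (4 * R) ((4 * R) ^ 2)
  rw [e, ← ha, ← hb]
  rw [← ha] at h1
  rw [← hb] at hw
  obtain ⟨h1, h2, h3⟩ := h1
  obtain ⟨g1, g2, g3⟩ := hw
  simp only [mul]
  refine ⟨?_, ?_, ?_⟩
  · change |a.1 + b.1| < 4 * R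
    have := abs_add_le a.1 b.1
    linarith
  · change |a.2.1 + b.2.1| < 4 * R
    have := abs_add_le a.2.1 b.2.1
    linarith
  · change |a.2.2 + b.2.2 + (a.1 * b.2.1 - a.2.1 * b.1) / 2| < (4 * R) ^ 2
    have k1 : |a.1 * b.2.1| ≤ R * R := by
      rw [abs_mul]
      exact mul_le_mul h1 g2.le (abs_nonneg _) hR.le
    have k2 : |a.2.1 * b.1| ≤ R * R := by
      rw [abs_mul]
      exact mul_le_mul h2 g1.le (abs_nonneg _) hR.le
    rw [abs_lt] at g3 ⊢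
    rw [abs_le] at h3 k1 k2
    have hR2 : 0 < R * R := mul_pos hR hR
    constructor <;> nlinarith [h3.1, h3.2, g3.1, g3.2, k1.1, k1.2, k2.1, k2.2]

private theorem c4_delta {z₀ : Pt} {R : ℝ} (hR : 0 < R) :
    ∃ δ₀ : ℝ, 0 < δ₀ ∧ ∀ g : Pt, ‖g‖ ≤ δ₀ → ∀ z ∈ bl z₀ (8 * R), mul g z ∈ bl z₀ (16 * R) := by
  have hK := c4_cbl_compact z₀ (8 * R)
  have hev : ∀ᶠ g in 𝓝 (0 : Pt), ∀ z ∈ cbl z₀ (8 * R), mul g z ∈ bl z₀ (16 * R) := by
    refine hK.eventually_forall_of_forall_eventually fun z hz => ?_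
    have h0 : mul (0 : Pt) z = z := by
      simp only [mul]
      ext <;> simp
    have h1 : bl z₀ (16 * R) ∈ 𝓝 (mul (0 : Pt) z) := by
      rw [h0]
      exact (c4_bl_open z₀ _).mem_nhds (c4_cbl_sub_bl z₀ (by linarith) (by linarith) hz)
    have h2 := (c4_cont_mul.continuousAt (x := ((0 : Pt), z))) h1
    exact h2
  obtain ⟨δ, hδ, hb⟩ := Metric.mem_nhds_iff.1 hev
  refine ⟨δ / 2, by linarith, fun g hg z hz => ?_⟩
  have h3 : g ∈ Metric.ball (0 : Pt) δ := by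
    rw [mem_ball_zero_iff]
    linarith
  exact hb h3 z (c4_bl_sub_cbl _ _ hz)

section
variable {E : Type*} [NormedAddCommGroup E] [InnerProductSpace ℝ E] [CompleteSpace E]

private theorem c4_int_sq {S : Set Pt} {f : Pt → E} (hf : MemLp f 2 (volume.restrict S)) :
    Integrable (fun z => ‖f z‖ ^ 2) (volume.restrict S) :=
  (memLp_two_iff_integrable_sq_norm hf.1).1 hf

private theorem c4_sq {S : Set Pt} {f g : Pt → E} (hf : MemLp f 2 (volume.restrict S))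
    (hg : MemLp g 2 (volume.restrict S)) :
    ∫ z in S, ‖g z‖ ^ 2 ≤ 2 * (∫ z in S, ‖f z‖ ^ 2) + 2 * ∫ z in S, ‖g z - f z‖ ^ 2 := by
  have h1 := c4_int_sq hf
  have h2 := c4_int_sq hg
  have h3 : Integrable (fun z => ‖g z - f z‖ ^ 2) (volume.restrict S) := c4_int_sq (hg.sub hf)
  rw [← integral_const_mul, ← integral_const_mul, ← integral_add (h1.const_mul 2) (h3.const_mul 2)]
  refine integral_mono h2 ((h1.const_mul 2).add (h3.const_mul 2)) fun z => ?_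
  have k1 : ‖g z‖ ≤ ‖f z‖ + ‖g z - f z‖ := by
    have := norm_add_le (f z) (g z - f z)
    rwa [add_sub_cancel] at this
  change ‖g z‖ ^ 2 ≤ 2 * ‖f z‖ ^ 2 + 2 * ‖g z - f z‖ ^ 2
  nlinarith [norm_nonneg (g z), norm_nonneg (f z), norm_nonneg (g z - f z),
    sq_nonneg (‖f z‖ - ‖g z - f z‖)]

private theorem c4_exc {S : Set Pt} (hS : MeasurableSet S) (h0 : volume S ≠ ⊤) {f g : Pt → E}
    (hf : MemLp f 2 (volume.restrict S)) (hg : MemLp g 2 (volume.restrict S)) :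
    exc g S ≤ 2 * exc f S + 2 * ∫ z in S, ‖g z - f z‖ ^ 2 := by
  have hfin : IsFiniteMeasure (volume.restrict S) := ⟨by
    rw [Measure.restrict_apply_univ]
    exact lt_top_iff_ne_top.2 h0⟩
  have h1 := exc_le hS h0 hg (⨍ w in S, f w)
  have hf1 : MemLp (fun z => f z - ⨍ w in S, f w) 2 (volume.restrict S) := hf.sub (memLp_const _)
  have hg1 : MemLp (fun z => g z - ⨍ w in S, f w) 2 (volume.restrict S) := hg.sub (memLp_const _)
  have h2 := c4_sq hf1 hg1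
  refine h1.trans (h2.trans_eq ?_)
  simp only [sub_sub_sub_cancel_right]
  rfl

private theorem c4_lp {S : Set Pt} {f : Pt → E} (hf : MemLp f 2 (volume.restrict S)) {ε : ℝ}
    (hε : 0 ≤ ε) (h : eLpNorm f 2 (volume.restrict S) ≤ ENNReal.ofReal ε) :
    ∫ z in S, ‖f z‖ ^ 2 ≤ ε ^ 2 := by
  rw [hf.eLpNorm_eq_integral_rpow_norm (by norm_num) (by norm_num)] at h
  rw [ENNReal.ofReal_le_ofReal_iff hε] at h
  simp only [ENNReal.toReal_ofNat, Real.rpow_ofNat] at h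
  have h0 : 0 ≤ ∫ z in S, ‖f z‖ ^ 2 := integral_nonneg fun z => by positivity
  have h' : Real.sqrt (∫ z in S, ‖f z‖ ^ 2) ≤ ε := by
    rw [Real.sqrt_eq_rpow, one_div]
    exact h
  exact (Real.sqrt_le_left hε).1 h'

end

variable (W : Type*) [NormedAddCommGroup W] [InnerProductSpace ℝ W] [FiniteDimensional ℝ W]

private theorem c4_key {m : ℝ} (hm : -1 < m) : ∃ al C : ℝ, 0 < al ∧ al < 1 ∧ 0 ≤ C ∧
    ∀ (Ω : Set Pt), IsOpen Ω → ∀ (u : Pt → W) (ξ : Pt → V2 W),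
    (∀ K : Set Pt, IsCompact K → K ⊆ Ω → MemLp u (ENNReal.ofReal (m + 2)) (volume.restrict K)) →
    (∀ K : Set Pt, IsCompact K → K ⊆ Ω → MemLp ξ (ENNReal.ofReal (m + 2)) (volume.restrict K)) →
    WD vX Ω u (fun z => ξ z 0) → WD vY Ω u (fun z => ξ z 1) →
    Sol0 Ω (fun z => A (fun s => s ^ m) (ξ z)) → ∀ (z₀ : Pt) (R : ℝ), 0 < R →
    cbl z₀ (16 * R) ⊆ Ω →
    MemLp (fun z => Vm (fun s => s ^ m) (ξ z)) 2 (volume.restrict (bl z₀ (8 * R))) ∧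
    ∀ z ∈ bl z₀ R, ∀ r : ℝ, 0 < r → r ≤ R →
      exc (fun z => Vm (fun s => s ^ m) (ξ z)) (bl z r) ≤
        C * (r / R) ^ (4 + 2 * al) * ∫ w in bl z₀ (8 * R), ‖Vm (fun s => s ^ m) (ξ w)‖ ^ 2 := by
  obtain ⟨al, C, hal0, hal1, hC, hgrowth⟩ := growth W hm
  refine ⟨al, 4 * C, hal0, hal1, by positivity, ?_⟩
  intro Ω hΩ u ξ hu hξ gx gy hsol z₀ R hR hRΩ
  have hB'Ω : bl z₀ (16 * R) ⊆ Ω := (c4_bl_sub_cbl _ _).trans hRΩ
  have hK := c4_cbl_compact z₀ (16 * R)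
  have hfinK : IsFiniteMeasure (volume.restrict (cbl z₀ (16 * R))) := ⟨by
    rw [Measure.restrict_apply_univ]
    exact hK.measure_lt_top⟩
  have hξ' : MemLp ξ (ENNReal.ofReal (m + 2)) (volume.restrict (bl z₀ (16 * R))) :=
    (hξ _ hK hRΩ).mono_measure (Measure.restrict_mono (c4_bl_sub_cbl _ _) le_rfl)
  have hu' : IntegrableOn u (bl z₀ (16 * R)) := by
    have h1 : Integrable u (volume.restrict (cbl z₀ (16 * R))) :=
      (hu _ hK hRΩ).integrable (ENNReal.one_le_ofReal.2 (by linarith))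
    exact IntegrableOn.mono_set h1 (c4_bl_sub_cbl _ _)
  obtain ⟨δ₀, hδ₀, hs⟩ := c4_delta (z₀ := z₀) hR
  have hBB' : bl z₀ (8 * R) ⊆ bl z₀ (16 * R) :=
    (c4_bl_sub_cbl _ _).trans (c4_cbl_sub_bl _ (by linarith) (by linarith))
  have hV : MemLp (fun z => Vm (fun s => s ^ m) (ξ z)) 2 (volume.restrict (bl z₀ (8 * R))) :=
    memLp_V0 hm (hξ'.mono_measure (Measure.restrict_mono hBB' le_rfl))
  refine ⟨hV, fun z hz r hr hrR => ?_⟩
  obtain ⟨X, hX⟩ : ∃ X : ℝ, X = (r / R) ^ (4 + 2 * al) := ⟨_, rfl⟩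
  have hX0 : 0 ≤ X := by
    rw [hX]
    exact Real.rpow_nonneg (div_nonneg hr.le hR.le) _
  obtain ⟨I, hI⟩ : ∃ I : ℝ, I = ∫ w in bl z₀ (8 * R), ‖Vm (fun s => s ^ m) (ξ w)‖ ^ 2 := ⟨_, rfl⟩
  -- inclusions
  have hsub1 : cbl z R ⊆ bl z₀ (4 * R) := c4_triangle hR hz
  have hsub2 : bl z₀ (4 * R) ⊆ bl z₀ (8 * R) :=
    (c4_bl_sub_cbl _ _).trans (c4_cbl_sub_bl _ (by linarith) (by linarith))
  have hsub3 : bl z R ⊆ bl z₀ (8 * R) := (c4_bl_sub_cbl _ _).trans (hsub1.trans hsub2)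
  have hsub4 : bl z r ⊆ bl z R := by
    rcases hrR.lt_or_eq with h | h
    · exact (c4_bl_sub_cbl _ _).trans (c4_cbl_sub_bl _ hr.le h)
    · rw [h]
  have hfinS : volume (bl z r) ≠ ⊤ :=
    ((measure_mono (c4_bl_sub_cbl z r)).trans_lt (c4_cbl_compact z r).measure_lt_top).ne
  have key : ∀ ε : ℝ, 0 < ε → exc (fun z => Vm (fun s => s ^ m) (ξ z)) (bl z r) ≤
      4 * C * X * I + (4 * C * X + 2) * ε ^ 2 := by
    intro ε hε
    obtain ⟨a, u', ξ', ha, hsolU, hVa, hest⟩ := approximation hm (c4_bl_open z₀ (8 * R))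
      (c4_bl_open z₀ (16 * R)) (hK.isBounded.subset (c4_bl_sub_cbl _ _)) hδ₀ hs hu' hξ'
      (gx.mono hB'Ω) (gy.mono hB'Ω)
      (fun φ hφ => hsol φ ⟨hφ.smooth, hφ.cpt, hφ.supp.trans hB'Ω⟩) (ENNReal.ofReal_pos.2 hε)
    have hcl : closure (bl z₀ (4 * R)) ⊆ cbl z₀ (4 * R) :=
      closure_minimal (c4_bl_sub_cbl _ _) (c4_cbl_compact z₀ (4 * R)).isClosed
    obtain ⟨ut, ξx, ξy, ξt, hRs⟩ := regular hm ha (c4_bl_open z₀ (8 * R)) hsolU
      (c4_bl_open z₀ (4 * R)) ((c4_cbl_compact z₀ (4 * R)).of_isClosed_subset isClosed_closure hcl)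
      (hcl.trans (c4_cbl_sub_bl _ (by linarith) (by linarith)))
    have h1 := hgrowth a _ u' ut ξ' ξx ξy ξt hRs z R hR hsub1 r hr hrR
    rw [← hX] at h1
    have hest' : ∫ w in bl z₀ (8 * R), ‖Vm a (ξ' w) - Vm (fun s => s ^ m) (ξ w)‖ ^ 2 ≤ ε ^ 2 :=
      c4_lp (hVa.sub hV) hε.le hest
    have hest2 : ∫ w in bl z₀ (8 * R), ‖Vm (fun s => s ^ m) (ξ w) - Vm a (ξ' w)‖ ^ 2 ≤ ε ^ 2 := by
      refine le_trans (le_of_eq ?_) hest'
      refine integral_congr_ae (Filter.Eventually.of_forall fun w => ?_)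
      simp only [norm_sub_rev]
    have hSB : bl z r ⊆ bl z₀ (8 * R) := hsub4.trans hsub3
    have hVS := hV.mono_measure (Measure.restrict_mono hSB le_rfl)
    have hVaS := hVa.mono_measure (Measure.restrict_mono hSB le_rfl)
    have h2 := c4_exc (c4_bl_open z r).measurableSet hfinS hVaS hVS
    have hint : IntegrableOn (fun w => ‖Vm (fun s => s ^ m) (ξ w) - Vm a (ξ' w)‖ ^ 2)
        (bl z₀ (8 * R)) := c4_int_sq (hV.sub hVa)
    have h3 : ∫ w in bl z r, ‖Vm (fun s => s ^ m) (ξ w) - Vm a (ξ' w)‖ ^ 2 ≤ ε ^ 2 :=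
      (setIntegral_mono_set hint (Filter.Eventually.of_forall fun w => by positivity)
        (Filter.Eventually.of_forall hSB)).trans hest2
    have h4 : ∫ w in bl z R, ‖Vm a (ξ' w)‖ ^ 2 ≤ ∫ w in bl z₀ (8 * R), ‖Vm a (ξ' w)‖ ^ 2 :=
      setIntegral_mono_set (c4_int_sq hVa) (Filter.Eventually.of_forall fun w => by positivity)
        (Filter.Eventually.of_forall hsub3)
    have h5 := c4_sq hV hVa
    rw [← hI] at h5
    have h6 : ∫ w in bl z R, ‖Vm a (ξ' w)‖ ^ 2 ≤ 2 * I + 2 * ε ^ 2 := by linarith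
    have hCX : 0 ≤ C * X := mul_nonneg hC hX0
    have h7 := mul_le_mul_of_nonneg_left h6 hCX
    linarith
  rw [← hX, ← hI]
  refine le_of_forall_pos_le_add fun t ht => ?_
  have hD : 0 < 4 * C * X + 2 := by positivity
  have h := key (Real.sqrt (t / (4 * C * X + 2))) (Real.sqrt_pos.2 (div_pos ht hD))
  rw [Real.sq_sqrt (div_pos ht hD).le, mul_div_cancel₀ _ hD.ne'] at h
  exact h

private theorem c4_self (z₀ : Pt) {R : ℝ} (hR : 0 < R) : z₀ ∈ bl z₀ R := by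
  have h : mul (inv z₀) z₀ = 0 := by
    simp only [mul, inv]
    ext <;> simp only [Prod.fst_zero, Prod.snd_zero] <;> ring
  change mul (inv z₀) z₀ ∈ bx R (R ^ 2)
  rw [h]
  refine ⟨?_, ?_, ?_⟩
  · simpa using hR
  · simpa using hR
  · simpa using pow_pos hR 2

theorem local_holder {m : ℝ} (hm : -1 < m) : ∃ al : ℝ, 0 < al ∧ al < 1 ∧
    ∀ (Ω : Set Pt), IsOpen Ω → ∀ (u : Pt → W) (ξ : Pt → V2 W),
    (∀ K : Set Pt, IsCompact K → K ⊆ Ω → MemLp u (ENNReal.ofReal (m + 2)) (volume.restrict K)) →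
    (∀ K : Set Pt, IsCompact K → K ⊆ Ω → MemLp ξ (ENNReal.ofReal (m + 2)) (volume.restrict K)) →
    WD vX Ω u (fun z => ξ z 0) → WD vY Ω u (fun z => ξ z 1) →
    Sol0 Ω (fun z => A (fun s => s ^ m) (ξ z)) → ∀ z₀ ∈ Ω,
    ∃ R : ℝ, 0 < R ∧ bl z₀ R ⊆ Ω ∧ ∃ η : Pt → V2 W,
      (∀ᵐ z ∂(volume.restrict (bl z₀ R)), ξ z = η z) ∧ ∃ C : ℝ, 0 ≤ C ∧
        ∀ z ∈ bl z₀ R, ∀ w ∈ bl z₀ R, ‖η z - η w‖ ≤ C * gd z w ^ al := by
  obtain ⟨al₀, C₀, hal0, hal1, hC0, hkey⟩ := c4_key W hm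
  obtain ⟨C₁, hC1, hcam⟩ := campanato (V2 W) hal0
  obtain ⟨th, hth⟩ : ∃ th, th = min 1 (2 / (m + 2)) := ⟨_, rfl⟩
  have hth0 : 0 < th := by
    rw [hth]
    exact lt_min one_pos (div_pos two_pos (by linarith))
  have hth1 : th ≤ 1 := by
    rw [hth]
    exact min_le_left _ _
  refine ⟨al₀ * th, mul_pos hal0 hth0, ?_, ?_⟩
  · calc al₀ * th ≤ al₀ * 1 := mul_le_mul_of_nonneg_left hth1 hal0.le
      _ < 1 := by rw [mul_one]; exact hal1
  intro Ω hΩ u ξ hu hξ gx gy hsol z₀ hz₀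
  obtain ⟨R, hR, hRΩ⟩ := c4_exists_cbl hΩ hz₀
  obtain ⟨hV, hexc⟩ := hkey Ω hΩ u ξ hu hξ gx gy hsol z₀ R hR hRΩ
  obtain ⟨I, hI⟩ : ∃ I : ℝ, I = ∫ w in bl z₀ (8 * R), ‖Vm (fun s => s ^ m) (ξ w)‖ ^ 2 := ⟨_, rfl⟩
  have hI0 : 0 ≤ I := by
    rw [hI]
    exact integral_nonneg fun w => by positivity
  rw [← hI] at hexc
  obtain ⟨Q, hQ⟩ : ∃ Q : ℝ, Q = C₀ * I / R ^ (4 + 2 * al₀) := ⟨_, rfl⟩
  have hQ0 : 0 ≤ Q := by
    rw [hQ]
    exact div_nonneg (mul_nonneg hC0 hI0) (Real.rpow_nonneg hR.le _)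
  obtain ⟨f', hf', hhol⟩ := hcam (bl z₀ (8 * R)) (bl z₀ R) (fun z => Vm (fun s => s ^ m) (ξ z))
    (Real.sqrt Q) R (c4_bl_open _ _) (c4_bl_open _ _) hR (Real.sqrt_nonneg _) hV
    (fun z hz => (c4_bl_sub_cbl _ _).trans ((c4_triangle hR hz).trans
      ((c4_bl_sub_cbl _ _).trans (c4_cbl_sub_bl _ (by linarith) (by linarith)))))
    (fun z hz r hr hrR => by
      refine (hexc z hz r hr hrR).trans_eq ?_
      rw [Real.sq_sqrt hQ0, hQ, Real.div_rpow hr.le hR.le]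
      ring)
  obtain ⟨M, hM⟩ : ∃ M : ℝ, M = Real.sqrt Q := ⟨_, rfl⟩
  have hM0 : 0 ≤ M := by rw [hM]; exact Real.sqrt_nonneg _
  rw [← hM] at hhol
  have hsubR : bl z₀ (R / 32) ⊆ bl z₀ R :=
    (c4_bl_sub_cbl _ _).trans (c4_cbl_sub_bl _ (by linarith) (by linarith))
  have hbd : ∀ z ∈ bl z₀ (R / 32), ‖f' z‖ ≤ ‖f' z₀‖ + C₁ * M * (R / 4) ^ al₀ := by
    intro z hz
    have h1 : gd z z₀ < R / 4 := by
      have := c4_gd (by linarith : 0 < R / 32) hz (c4_self z₀ (by linarith))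
      linarith
    have h2 := hhol z (hsubR hz) z₀ (c4_self z₀ hR) h1.le
    have h3 : gd z z₀ ^ al₀ ≤ (R / 4) ^ al₀ :=
      Real.rpow_le_rpow (gd_nonneg _ _) h1.le hal0.le
    have h4 := mul_le_mul_of_nonneg_left h3 (mul_nonneg hC1 hM0)
    have h5 : ‖f' z‖ ≤ ‖f' z₀‖ + ‖f' z - f' z₀‖ := by
      have := norm_add_le (f' z₀) (f' z - f' z₀)
      rwa [add_sub_cancel] at this
    linarith
  obtain ⟨C₂, hC2, hVinv⟩ := Vinv_holder (E := V2 W) hm (‖f' z₀‖ + C₁ * M * (R / 4) ^ al₀)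
  refine ⟨R / 32, by linarith, ?_, fun z => Vinv m (f' z), ?_, C₂ * (C₁ * M) ^ th,
    mul_nonneg hC2 (Real.rpow_nonneg (mul_nonneg hC1 hM0) _), ?_⟩
  · exact (c4_bl_sub_cbl _ _).trans (((c4_cbl_sub_bl z₀ (by linarith : 0 ≤ R / 32)
      (by linarith : R / 32 < 16 * R)).trans (c4_bl_sub_cbl _ _)).trans hRΩ)
  · have h1 := ae_restrict_of_ae_restrict_of_subset hsubR hf'
    filter_upwards [h1] with z hz
    rw [← hz, Vinv_Vm hm]
  · intro z hz w hw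
    have h1 : gd z w ≤ R / 4 := by
      have := c4_gd (by linarith : 0 < R / 32) hz hw
      linarith
    have h2 := hhol z (hsubR hz) w (hsubR hw) h1
    have h3 := hVinv (f' z) (f' w) (hbd z hz) (hbd w hw)
    rw [← hth] at h3
    have h4 : ‖f' z - f' w‖ ^ th ≤ (C₁ * M * gd z w ^ al₀) ^ th :=
      Real.rpow_le_rpow (norm_nonneg _) h2 hth0.le
    rw [Real.mul_rpow (mul_nonneg hC1 hM0) (Real.rpow_nonneg (gd_nonneg _ _) _),
      ← Real.rpow_mul (gd_nonneg _ _)] at h4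
    have h5 := mul_le_mul_of_nonneg_left h4 hC2
    rw [mul_assoc]
    exact h3.trans h5

end PLH
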