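import Pool.Agent.Lib.PLH.C1

/-!
MODULE C5 (pure, 200 lines). Gluing of the local representatives and compact sets.

Let `η_{z₀}`, `R_{z₀}`, `C_{z₀}` be the local data. On `bl z₀ R ∩ bl z₁ R'` (open) the two continuous
functions `η_{z₀}`, `η_{z₁}` agree a.e., hence everywhere (`Continuous.ae_eq_iff_eq` style for open sets:
`MeasureTheory.Measure.eqOn_open_of_ae_eq`). Put `η z = η_z(z)` for `z ∈ Ω`; then `η = η_{z₀}` on
`bl z₀ R_{z₀}` (`z₀ ∈ bl z₀ R`). `ξ = η` a.e. on `Ω`: countable subcover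
(`TopologicalSpace.isOpen_iUnion_countable`, `ae_restrict_biUnion_iff`). Compact sets: if the claim
fails for `K` there are `z_n, w_n ∈ K` with `‖η z_n - η w_n‖ > n gd(z_n,w_n)^al`; pass to convergent
subsequences `z_n → z`, `w_n → w` (`K × K` compact); `η` is continuous on `Ω`, so bounded on `K`, so
`gd(z_n,w_n) → 0`, `gd z w = 0`, `z = w`; for large `n` both are in `bl z R_z`, contradiction.
-/

open MeasureTheory Set Filter Topology
open scoped ContDiff ENNReal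

namespace PLH

private theorem gd_self (z : Pt) : gd z z = 0 := by
  unfold gd mul inv
  have h1 : -z.1 + z.1 = 0 := by ring
  have h2 : -z.2.1 + z.2.1 = 0 := by ring
  have h3 : -z.2.2 + z.2.2 + (-z.1 * z.2.1 - -z.2.1 * z.1) / 2 = 0 := by ring
  simp only [h1, h2, h3]
  simp

private theorem isOpen_bl {z : Pt} {r : ℝ} (hr : 0 < r) : IsOpen (bl z r) := by
  have h1 : bl z r = {w | gd z w < r} := by
    ext w
    exact mem_bl_iff hr
  rw [h1]
  exact isOpen_lt (continuous_gd.comp (Continuous.prodMk_right z)) continuous_const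

private theorem mem_bl_self {z : Pt} {r : ℝ} (hr : 0 < r) : z ∈ bl z r := by
  rw [mem_bl_iff hr, gd_self]
  exact hr

theorem glue {E : Type*} [NormedAddCommGroup E] [InnerProductSpace ℝ E] {al : ℝ} (hal : 0 < al)
    {Ω : Set Pt} (hΩ : IsOpen Ω) {ξ : Pt → E}
    (h : ∀ z₀ ∈ Ω, ∃ R : ℝ, 0 < R ∧ bl z₀ R ⊆ Ω ∧ ∃ η : Pt → E,
      (∀ᵐ z ∂(volume.restrict (bl z₀ R)), ξ z = η z) ∧ ∃ C : ℝ, 0 ≤ C ∧
        ∀ z ∈ bl z₀ R, ∀ w ∈ bl z₀ R, ‖η z - η w‖ ≤ C * gd z w ^ al) :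
    ∃ η : Pt → E, (∀ᵐ z ∂(volume.restrict Ω), ξ z = η z) ∧
      ∀ K : Set Pt, IsCompact K → K ⊆ Ω → ∃ C : ℝ, 0 ≤ C ∧
        ∀ z ∈ K, ∀ w ∈ K, ‖η z - η w‖ ≤ C * gd z w ^ al := by
  classical
  choose! R hR hsub ηl hae C hC hhol using h
  -- continuity of the local representatives
  have hcont : ∀ z₀ ∈ Ω, ContinuousOn (ηl z₀) (bl z₀ (R z₀)) := by
    intro z₀ hz₀ z hz
    rw [ContinuousWithinAt, tendsto_iff_norm_sub_tendsto_zero]
    have h1 : Tendsto (fun w : Pt => C z₀ * gd w z ^ al) (𝓝[bl z₀ (R z₀)] z) (𝓝 0) := by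
      have h2 : Continuous fun w : Pt => C z₀ * gd w z ^ al := by
        have h3 : Continuous fun w : Pt => gd w z := continuous_gd.comp (Continuous.prodMk_left z)
        exact continuous_const.mul (h3.rpow_const fun _ => Or.inr hal.le)
      have h4 := h2.tendsto z
      simp only [gd_self, Real.zero_rpow hal.ne', mul_zero] at h4
      exact h4.mono_left nhdsWithin_le_nhds
    refine squeeze_zero_norm' ?_ h1
    filter_upwards [self_mem_nhdsWithin] with w hw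
    rw [norm_norm]
    exact hhol z₀ hz₀ w hw z hz
  have hopen : ∀ z₀ ∈ Ω, IsOpen (bl z₀ (R z₀)) := fun z₀ hz₀ => isOpen_bl (hR z₀ hz₀)
  have hagree : ∀ z₀ ∈ Ω, ∀ z₁ ∈ Ω, EqOn (ηl z₀) (ηl z₁) (bl z₀ (R z₀) ∩ bl z₁ (R z₁)) := by
    intro z₀ hz₀ z₁ hz₁
    have h0 := ae_restrict_of_ae_restrict_of_subset (s := bl z₀ (R z₀) ∩ bl z₁ (R z₁)) inter_subset_left (hae z₀ hz₀)
    have h1 := ae_restrict_of_ae_restrict_of_subset (s := bl z₀ (R z₀) ∩ bl z₁ (R z₁)) inter_subset_right (hae z₁ hz₁)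
    refine Measure.eqOn_open_of_ae_eq (μ := volume) ?_ ((hopen z₀ hz₀).inter (hopen z₁ hz₁))
      ((hcont z₀ hz₀).mono inter_subset_left) ((hcont z₁ hz₁).mono inter_subset_right)
    filter_upwards [h0, h1] with z h2 h3
    rw [← h2, h3]
  set η : Pt → E := fun z => ηl z z with hη
  have hloc : ∀ z₀ ∈ Ω, EqOn η (ηl z₀) (bl z₀ (R z₀)) := by
    intro z₀ hz₀ z hz
    have hzΩ : z ∈ Ω := hsub z₀ hz₀ hz
    exact hagree z hzΩ z₀ hz₀ ⟨mem_bl_self (hR z hzΩ), hz⟩
  have hcη : ∀ z ∈ Ω, ContinuousAt η z := by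
    intro z hz
    have h1 : bl z (R z) ∈ 𝓝 z := (hopen z hz).mem_nhds (mem_bl_self (hR z hz))
    have h2 : ContinuousAt (ηl z) z := (hcont z hz).continuousAt h1
    refine h2.congr ?_
    filter_upwards [h1] with w hw
    exact (hloc z hz hw).symm
  refine ⟨η, ?_, ?_⟩
  · rw [ae_restrict_iff' hΩ.measurableSet, ae_iff]
    refine measure_null_of_locally_null _ fun x hx => ?_
    have hxΩ : x ∈ Ω := by
      by_contra hcon
      exact hx fun h => absurd h hcon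
    refine ⟨bl x (R x) ∩ {z | ¬ (z ∈ Ω → ξ z = η z)}, ?_, ?_⟩
    · exact inter_mem (mem_nhdsWithin_of_mem_nhds ((hopen x hxΩ).mem_nhds (mem_bl_self (hR x hxΩ)))) self_mem_nhdsWithin
    · have h1 := hae x hxΩ
      rw [ae_restrict_iff' (hopen x hxΩ).measurableSet, ae_iff] at h1
      refine measure_mono_null ?_ h1
      rintro z ⟨hz1, hz2⟩ h2
      apply hz2
      intro _
      rw [h2 hz1, hloc x hxΩ hz1]
  · intro K hK hKΩ
    have key : ∃ C : ℝ, 0 ≤ C ∧ ∀ q ∈ K ×ˢ K, ‖η q.1 - η q.2‖ ≤ C * gd q.1 q.2 ^ al := by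
      refine (hK.prod hK).induction_on (p := fun s => ∃ C : ℝ, 0 ≤ C ∧ ∀ q ∈ s, ‖η q.1 - η q.2‖ ≤ C * gd q.1 q.2 ^ al)
        ⟨0, le_rfl, by simp⟩ ?_ ?_ ?_
      · rintro s t hst ⟨c, hc, h1⟩
        exact ⟨c, hc, fun q hq => h1 q (hst hq)⟩
      · rintro s t ⟨c, hc, h1⟩ ⟨c', hc', h1'⟩
        refine ⟨max c c', le_max_of_le_left hc, fun q hq => ?_⟩
        have hg : 0 ≤ gd q.1 q.2 ^ al := Real.rpow_nonneg (gd_nonneg _ _) _
        rcases hq with hq | hq
        · exact (h1 q hq).trans (mul_le_mul_of_nonneg_right (le_max_left _ _) hg)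
        · exact (h1' q hq).trans (mul_le_mul_of_nonneg_right (le_max_right _ _) hg)
      · rintro ⟨z, w⟩ ⟨hz, hw⟩
        have hzΩ : z ∈ Ω := hKΩ hz
        have hwΩ : w ∈ Ω := hKΩ hw
        by_cases hzw : z = w
        · subst hzw
          refine ⟨bl z (R z) ×ˢ bl z (R z), ?_, C z, hC z hzΩ, ?_⟩
          · have h1 := (hopen z hzΩ).mem_nhds (mem_bl_self (hR z hzΩ))
            exact mem_nhdsWithin_of_mem_nhds (prod_mem_nhds h1 h1)
          · rintro ⟨a, b⟩ ⟨ha, hb⟩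
            change ‖η a - η b‖ ≤ _
            rw [hloc z hzΩ ha, hloc z hzΩ hb]
            exact hhol z hzΩ a ha b hb
        · have hg : 0 < gd z w := lt_of_le_of_ne (gd_nonneg z w) fun h0 => hzw (gd_eq_zero h0.symm)
          have h1 : ContinuousAt (fun q : Pt × Pt => ‖η q.1 - η q.2‖) (z, w) := by
            have ha : ContinuousAt (fun q : Pt × Pt => η q.1) (z, w) :=
              ContinuousAt.comp (f := fun q : Pt × Pt => q.1) (g := η) (hcη z hzΩ) continuousAt_fst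
            have hb : ContinuousAt (fun q : Pt × Pt => η q.2) (z, w) :=
              ContinuousAt.comp (f := fun q : Pt × Pt => q.2) (g := η) (hcη w hwΩ) continuousAt_snd
            exact (ha.sub hb).norm
          have h2 : ∀ᶠ q : Pt × Pt in 𝓝 (z, w), ‖η q.1 - η q.2‖ < ‖η z - η w‖ + 1 :=
            h1.eventually_lt continuousAt_const (by simp)
          have h3 : ∀ᶠ q : Pt × Pt in 𝓝 (z, w), gd z w / 2 < gd q.1 q.2 :=
            continuousAt_const.eventually_lt continuous_gd.continuousAt (by simp; exact hg)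
          refine ⟨{q | ‖η q.1 - η q.2‖ < ‖η z - η w‖ + 1} ∩ {q | gd z w / 2 < gd q.1 q.2},
            mem_nhdsWithin_of_mem_nhds (inter_mem h2 h3), (‖η z - η w‖ + 1) / (gd z w / 2) ^ al, by positivity, ?_⟩
          rintro q ⟨hq1, hq2⟩
          have hq1' : ‖η q.1 - η q.2‖ < ‖η z - η w‖ + 1 := hq1
          have hq2' : gd z w / 2 < gd q.1 q.2 := hq2
          have hp : 0 < (gd z w / 2) ^ al := Real.rpow_pos_of_pos (by positivity) _
          calc ‖η q.1 - η q.2‖ ≤ ‖η z - η w‖ + 1 := hq1'.le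
            _ = (‖η z - η w‖ + 1) / (gd z w / 2) ^ al * (gd z w / 2) ^ al := by field_simp
            _ ≤ (‖η z - η w‖ + 1) / (gd z w / 2) ^ al * gd q.1 q.2 ^ al := by
              gcongr
    obtain ⟨c, hc, h1⟩ := key
    exact ⟨c, hc, fun z hz w hw => h1 (z, w) ⟨hz, hw⟩⟩

end PLH
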