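import Pool.Agent.Lib.PLH.T3
import Pool.Agent.Lib.PLH.T8

/-!
MODULE D1 (250 lines). Horizontal paths: the modular inequality for a fixed right translation `v`.

`v = (α,β,γ)`, `γ' = γ - αβ/2`, `k = √|γ'|`. `v = (α,0,0)(0,β,0)(0,0,γ')`, and `(0,0,γ')` is the
product of the four moves of `R1` (with `k`). So `mul z v` is reached from `z` by six flows
`F_j.fl h_j`, `F_j ∈ {vX, vY}`, `|h_j| ≤ κ ≤ 1` (`mul z (h,0,0) = vX.fl h z`, `mul z (0,h,0) = vY.fl h z`),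
all intermediate points `w` (also inside the moves) satisfy `‖w - z‖ ≤ 8κ(1+‖z‖)`. With `x_j` the six
differences: `‖∑ x_j‖ ≤ 6 max ‖x_j‖ ≤ 8 max`, so `ψ(‖∑ x_j‖) ≤ C³ max ψ(‖x_j‖) ≤ C³ ∑ ψ(‖x_j‖)`. Each
`z ↦ w_j(z)` is measure preserving (composition of flows), so `WD.jensen` for the image of `S` gives
`∫⁻_S ψ(‖x_j‖) ≤ ∫⁻_{U'} ψ(|h_j| ‖g_i‖) ≤ ∫⁻_{U'} ψ(‖g‖)` as `|h_j| ≤ 1`, `‖g i‖ ≤ ‖g‖`.
-/

open MeasureTheory Set Filter Topology
open scoped ContDiff ENNReal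

namespace PLH

variable {W : Type*} [NormedAddCommGroup W] [InnerProductSpace ℝ W] [CompleteSpace W]

private noncomputable def dfm (b : Bool) : VF := if b then vX else vY

private noncomputable def dpt (m : ℕ → Bool × ℝ) : ℕ → Pt → Pt
  | 0, z => z
  | (j + 1), z => (dfm (m j).1).fl (m j).2 (dpt m j z)

private theorem dpt_homeo (m : ℕ → Bool × ℝ) (j : ℕ) :
    ∃ Φ : Pt ≃ₜ Pt, (∀ z, Φ z = dpt m j z) ∧ MeasurePreserving (⇑Φ) volume volume := by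
  induction j with
  | zero => exact ⟨Homeomorph.refl Pt, fun z => rfl, MeasurePreserving.id _⟩
  | succ j ih =>
    obtain ⟨Φ, h1, h2⟩ := ih
    refine ⟨Φ.trans ((dfm (m j).1).flH (m j).2), fun z => ?_, ?_⟩
    · show (dfm (m j).1).fl (m j).2 (Φ z) = (dfm (m j).1).fl (m j).2 (dpt m j z)
      rw [h1]
    · exact ((dfm (m j).1).mp (m j).2).comp h2

/-- the position after `n` moves -/
private def DQ (κ : ℝ) (n : ℕ) (z y : Pt) : Prop :=
  |y.1 - z.1| ≤ n * κ ∧ |y.2.1 - z.2.1| ≤ n * κ ∧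
    |y.2.2 - z.2.2| ≤ κ * (n * ‖z‖ + n * (n - 1) / 2) / 2

private theorem dq_abs (z : Pt) : |z.1| ≤ ‖z‖ ∧ |z.2.1| ≤ ‖z‖ := by
  constructor
  · exact norm_fst_le z
  · exact (norm_fst_le z.2).trans (norm_snd_le z)

private theorem dq_step {κ : ℝ} (hκ0 : 0 < κ) (hκ : κ ≤ 1) {n : ℕ} {z y : Pt} (h : DQ κ n z y)
    (b : Bool) {s : ℝ} (hs : |s| ≤ κ) : DQ κ (n + 1) z ((dfm b).fl s y) := by
  obtain ⟨h1, h2, h3⟩ := h
  obtain ⟨hz1, hz2⟩ := dq_abs z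
  have hn : (0 : ℝ) ≤ n := Nat.cast_nonneg n
  have hnκ : (n : ℝ) * κ ≤ n := by nlinarith
  have key : ∀ u c c' : ℝ, |u| ≤ κ → |c - c'| ≤ n * κ → |c'| ≤ ‖z‖ →
      |u * c / 2| ≤ κ * (‖z‖ + n) / 2 := by
    intro u c c' hu hc hc'
    have hcb : |c| ≤ ‖z‖ + n := by
      have : c = (c - c') + c' := by ring
      rw [this]
      exact (abs_add_le _ _).trans (by linarith)
    rw [abs_div, abs_mul, abs_two]
    have := mul_le_mul hu hcb (abs_nonneg c) hκ0.le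
    linarith
  cases b with
  | true =>
    have e : (dfm true).fl s y = (y.1 + s, y.2.1, y.2.2 - s * y.2.1 / 2) := by
      simp only [dfm, if_true, VF.fl, vX]
      ext <;> simp <;> ring
    rw [e]
    refine ⟨?_, ?_, ?_⟩
    · show |y.1 + s - z.1| ≤ _
      have : y.1 + s - z.1 = (y.1 - z.1) + s := by ring
      rw [this]
      refine (abs_add_le _ _).trans ?_
      push_cast
      linarith
    · show |y.2.1 - z.2.1| ≤ _
      push_cast
      linarith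
    · show |y.2.2 - s * y.2.1 / 2 - z.2.2| ≤ _
      have hk := key s y.2.1 z.2.1 hs h2 hz2
      have : y.2.2 - s * y.2.1 / 2 - z.2.2 = (y.2.2 - z.2.2) + -(s * y.2.1 / 2) := by ring
      rw [this]
      refine (abs_add_le _ _).trans ?_
      rw [abs_neg]
      push_cast
      nlinarith
  | false =>
    have e : (dfm false).fl s y = (y.1, y.2.1 + s, y.2.2 + s * y.1 / 2) := by
      simp only [dfm, VF.fl, vY]
      ext <;> simp
      ring
    rw [e]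
    refine ⟨?_, ?_, ?_⟩
    · show |y.1 - z.1| ≤ _
      push_cast
      linarith
    · show |y.2.1 + s - z.2.1| ≤ _
      have : y.2.1 + s - z.2.1 = (y.2.1 - z.2.1) + s := by ring
      rw [this]
      refine (abs_add_le _ _).trans ?_
      push_cast
      linarith
    · show |y.2.2 + s * y.1 / 2 - z.2.2| ≤ _
      have hk := key s y.1 z.1 hs h1 hz1
      have : y.2.2 + s * y.1 / 2 - z.2.2 = (y.2.2 - z.2.2) + (s * y.1 / 2) := by ring
      rw [this]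
      refine (abs_add_le _ _).trans ?_
      push_cast
      nlinarith

private theorem dq_le {κ : ℝ} (hκ0 : 0 < κ) {n : ℕ} (hn : n ≤ 6) {z y : Pt} (h : DQ κ n z y) :
    ‖y - z‖ ≤ 8 * κ * (1 + ‖z‖) := by
  obtain ⟨h1, h2, h3⟩ := h
  have hn' : (n : ℝ) ≤ 6 := by exact_mod_cast hn
  have hn0 : (0 : ℝ) ≤ n := Nat.cast_nonneg n
  have hz := norm_nonneg z
  have hκz : 0 ≤ κ * ‖z‖ := by positivity
  have a1 : (n : ℝ) * κ ≤ 8 * κ * (1 + ‖z‖) := by nlinarith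
  have a2 : κ * (n * ‖z‖ + n * (n - 1) / 2) / 2 ≤ 8 * κ * (1 + ‖z‖) := by
    have b1 : (n : ℝ) * ‖z‖ ≤ 6 * ‖z‖ := mul_le_mul_of_nonneg_right hn' hz
    have b2 : (n : ℝ) * (n - 1) / 2 ≤ 15 := by nlinarith
    have b3 : κ * (n * ‖z‖ + n * (n - 1) / 2) ≤ κ * (6 * ‖z‖ + 15) :=
      mul_le_mul_of_nonneg_left (by linarith) hκ0.le
    nlinarith
  rw [Prod.norm_def, Prod.norm_def]
  refine max_le ?_ (max_le ?_ ?_)
  · show |y.1 - z.1| ≤ _
    linarith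
  · show |y.2.1 - z.2.1| ≤ _
    linarith
  · show |y.2.2 - z.2.2| ≤ _
    linarith

private theorem dq_pt {κ : ℝ} (hκ0 : 0 < κ) (hκ : κ ≤ 1) {m : ℕ → Bool × ℝ}
    (hm : ∀ j, |(m j).2| ≤ κ) (z : Pt) (n : ℕ) : DQ κ n z (dpt m n z) := by
  induction n with
  | zero =>
    refine ⟨?_, ?_, ?_⟩ <;> simp [dpt]
  | succ n ih => exact dq_step hκ0 hκ ih _ (hm n)

private theorem yng_nonneg {C : ℝ} {ψ : ℝ → ℝ} (hψ : Yng C ψ) {y : ℝ} (hy : 0 ≤ y) : 0 ≤ ψ y := by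
  have := hψ.mono (mem_Ici.2 (le_refl (0 : ℝ))) (mem_Ici.2 hy) hy
  rw [hψ.zero] at this
  exact this

private theorem yng_six {C : ℝ} {ψ : ℝ → ℝ} (hC : 1 ≤ C) (hψ : Yng C ψ) (x : ℕ → W) :
    ψ ‖∑ j ∈ Finset.range 6, x j‖ ≤ C ^ 3 * ∑ j ∈ Finset.range 6, ψ ‖x j‖ := by
  obtain ⟨j0, hj0, hmax⟩ := Finset.exists_max_image (Finset.range 6) (fun j => ‖x j‖)
    ⟨0, by simp⟩
  have hM : 0 ≤ ‖x j0‖ := norm_nonneg _
  have h1 : ‖∑ j ∈ Finset.range 6, x j‖ ≤ 8 * ‖x j0‖ := by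
    calc ‖∑ j ∈ Finset.range 6, x j‖ ≤ ∑ j ∈ Finset.range 6, ‖x j‖ := norm_sum_le _ _
      _ ≤ ∑ _j ∈ Finset.range 6, ‖x j0‖ := Finset.sum_le_sum hmax
      _ = 6 * ‖x j0‖ := by simp
      _ ≤ 8 * ‖x j0‖ := by linarith
  have h2 : ψ ‖∑ j ∈ Finset.range 6, x j‖ ≤ ψ (8 * ‖x j0‖) :=
    hψ.mono (norm_nonneg _) (by simp [hM]) h1
  have h3 : ψ (8 * ‖x j0‖) ≤ C ^ 3 * ψ ‖x j0‖ := by
    have a1 := hψ.dbl (4 * ‖x j0‖) (by linarith)
    have a2 := hψ.dbl (2 * ‖x j0‖) (by linarith)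
    have a3 := hψ.dbl ‖x j0‖ hM
    have e1 : 2 * (4 * ‖x j0‖) = 8 * ‖x j0‖ := by ring
    have e2 : 2 * (2 * ‖x j0‖) = 4 * ‖x j0‖ := by ring
    rw [e1] at a1
    rw [e2] at a2
    have hC0 : 0 ≤ C := by linarith
    calc ψ (8 * ‖x j0‖) ≤ C * ψ (4 * ‖x j0‖) := a1
      _ ≤ C * (C * ψ (2 * ‖x j0‖)) := mul_le_mul_of_nonneg_left a2 hC0
      _ ≤ C * (C * (C * ψ ‖x j0‖)) :=
        mul_le_mul_of_nonneg_left (mul_le_mul_of_nonneg_left a3 hC0) hC0
      _ = C ^ 3 * ψ ‖x j0‖ := by ring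
  refine h2.trans (h3.trans (mul_le_mul_of_nonneg_left ?_ (by positivity)))
  exact Finset.single_le_sum (f := fun j => ψ ‖x j‖)
    (fun j _ => yng_nonneg hψ (norm_nonneg _)) hj0

private theorem dstep {U : Set Pt} (hU : IsOpen U) {w : Pt → W} {g : Pt → V2 W}
    (hX : WD vX U w (fun z => g z 0)) (hY : WD vY U w (fun z => g z 1))
    {C : ℝ} {ψ : ℝ → ℝ} (hψ : Yng C ψ) {S U' : Set Pt} (hS : MeasurableSet S)
    (hU' : MeasurableSet U') (hU'U : U' ⊆ U) {κ : ℝ} (hκ0 : 0 < κ) (hκ : κ ≤ 1)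
    (hp : ∀ z ∈ S, ∀ y : Pt, ‖y - z‖ ≤ 8 * κ * (1 + ‖z‖) → y ∈ U')
    {m : ℕ → Bool × ℝ} (hm : ∀ j, |(m j).2| ≤ κ) {j : ℕ} (hj : j < 6) :
    ∫⁻ z in S, ENNReal.ofReal (ψ ‖w (dpt m (j + 1) z) - w (dpt m j z)‖) ≤
      ∫⁻ z in U', ENNReal.ofReal (ψ ‖g z‖) := by
  obtain ⟨Φ, hΦ, hΦm⟩ := dpt_homeo m j
  set G : Pt → ℝ≥0∞ := fun y =>
    ENNReal.ofReal (ψ ‖w ((dfm (m j).1).fl (m j).2 y) - w y‖) with hG
  have hpre : Φ ⁻¹' (Φ '' S) = S := Φ.injective.preimage_image S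
  have hSim : MeasurableSet (Φ '' S) := Φ.measurableEmbedding.measurableSet_image.2 hS
  have h1 : ∫⁻ z in S, ENNReal.ofReal (ψ ‖w (dpt m (j + 1) z) - w (dpt m j z)‖) =
      ∫⁻ y in Φ '' S, G y := by
    have h := hΦm.setLIntegral_comp_preimage_emb Φ.measurableEmbedding G (Φ '' S)
    rw [hpre] at h
    rw [← h]
    apply lintegral_congr
    intro z
    simp only [hG]
    rw [hΦ z]
    rfl
  rw [h1]
  have hpath : ∀ y ∈ Φ '' S, ∀ σ ∈ Icc (0 : ℝ) 1, (dfm (m j).1).fl (σ * (m j).2) y ∈ U' := by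
    rintro _ ⟨z, hz, rfl⟩ σ hσ
    apply hp z hz
    have hq := dq_pt hκ0 hκ hm z j
    rw [hΦ z]
    have hs : |σ * (m j).2| ≤ κ := by
      rw [abs_mul, abs_of_nonneg hσ.1]
      calc σ * |(m j).2| ≤ 1 * |(m j).2| := mul_le_mul_of_nonneg_right hσ.2 (abs_nonneg _)
        _ ≤ κ := by rw [one_mul]; exact hm j
    exact dq_le hκ0 (by omega) (dq_step hκ0 hκ hq _ hs)
  have hs1 : |(m j).2| ≤ 1 := (hm j).trans hκ
  have hmono : ∀ i : Fin 2, ∫⁻ z in U', ENNReal.ofReal (ψ (|(m j).2| * ‖g z i‖)) ≤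
      ∫⁻ z in U', ENNReal.ofReal (ψ ‖g z‖) := by
    intro i
    apply lintegral_mono
    intro z
    apply ENNReal.ofReal_le_ofReal
    refine hψ.mono (by simp only [mem_Ici]; positivity) (norm_nonneg _) ?_
    calc |(m j).2| * ‖g z i‖ ≤ 1 * ‖g z i‖ := mul_le_mul_of_nonneg_right hs1 (norm_nonneg _)
      _ ≤ ‖g z‖ := by rw [one_mul]; exact PiLp.norm_apply_le (g z) i
  rcases hb : (m j).1 with _ | _
  · rw [hb] at hpath
    have e : G = fun y => ENNReal.ofReal (ψ ‖w (vY.fl (m j).2 y) - w y‖) := by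
      rw [hG, hb]; rfl
    rw [e]
    exact (hY.jensen hU hψ hSim hU' hU'U (m j).2 hpath).trans (hmono 1)
  · rw [hb] at hpath
    have e : G = fun y => ENNReal.ofReal (ψ ‖w (vX.fl (m j).2 y) - w y‖) := by
      rw [hG, hb]; rfl
    rw [e]
    exact (hX.jensen hU hψ hSim hU' hU'U (m j).2 hpath).trans (hmono 0)

private theorem daem {U : Set Pt} (hU : IsOpen U) {w : Pt → W} {g : Pt → V2 W}
    (hX : WD vX U w (fun z => g z 0))
    {S U' : Set Pt} (hU'U : U' ⊆ U) {κ : ℝ} (hκ0 : 0 < κ) (hκ : κ ≤ 1)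
    (hp : ∀ z ∈ S, ∀ y : Pt, ‖y - z‖ ≤ 8 * κ * (1 + ‖z‖) → y ∈ U')
    {m : ℕ → Bool × ℝ} (hm : ∀ j, |(m j).2| ≤ κ) {j : ℕ} (hj : j ≤ 6) :
    AEStronglyMeasurable (fun z => w (dpt m j z)) (volume.restrict S) := by
  obtain ⟨Φ, hΦ, hΦm⟩ := dpt_homeo m j
  have h1 : AEStronglyMeasurable w (volume.restrict U) := hX.lf.aestronglyMeasurable
  have h2 : MeasurePreserving (⇑Φ) (volume.restrict (Φ ⁻¹' U)) (volume.restrict U) :=
    hΦm.restrict_preimage hU.measurableSet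
  have h3 := h1.comp_quasiMeasurePreserving h2.quasiMeasurePreserving
  have h4 : S ⊆ Φ ⁻¹' U := by
    intro z hz
    show Φ z ∈ U
    rw [hΦ z]
    exact hU'U (hp z hz _ (dq_le hκ0 hj (dq_pt hκ0 hκ hm z j)))
  have h5 := h3.mono_measure (Measure.restrict_mono h4 le_rfl)
  refine h5.congr (Filter.Eventually.of_forall fun z => ?_)
  show w (Φ z) = w (dpt m j z)
  rw [hΦ z]

private theorem dmain {U : Set Pt} (hU : IsOpen U) {w : Pt → W} {g : Pt → V2 W}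
    (hX : WD vX U w (fun z => g z 0)) (hY : WD vY U w (fun z => g z 1))
    {C : ℝ} {ψ : ℝ → ℝ} (hC : 1 ≤ C) (hψ : Yng C ψ) {S U' : Set Pt} (hS : MeasurableSet S)
    (hU' : MeasurableSet U') (hU'U : U' ⊆ U) {κ : ℝ} (hκ0 : 0 < κ) (hκ : κ ≤ 1)
    (hp : ∀ z ∈ S, ∀ y : Pt, ‖y - z‖ ≤ 8 * κ * (1 + ‖z‖) → y ∈ U')
    {m : ℕ → Bool × ℝ} (hm : ∀ j, |(m j).2| ≤ κ) :
    ∫⁻ z in S, ENNReal.ofReal (ψ ‖w (dpt m 6 z) - w z‖) ≤
      ENNReal.ofReal (6 * C ^ 3) * ∫⁻ z in U', ENNReal.ofReal (ψ ‖g z‖) := by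
  have hmeas : Measurable (fun y : ℝ => ψ (max y 0)) := by
    apply Monotone.measurable
    intro a b hab
    exact hψ.mono (mem_Ici.2 (le_max_right _ _)) (mem_Ici.2 (le_max_right _ _))
      (max_le_max_right 0 hab)
  have hae : ∀ j ∈ Finset.range 6, AEMeasurable
      (fun z => ENNReal.ofReal (ψ ‖w (dpt m (j + 1) z) - w (dpt m j z)‖)) (volume.restrict S) := by
    intro j hj
    have hj' := Finset.mem_range.1 hj
    have a1 := daem hU hX hU'U hκ0 hκ hp hm (j := j + 1) (by omega)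
    have a2 := daem hU hX hU'U hκ0 hκ hp hm (j := j) (by omega)
    have a3 := (a1.sub a2).norm.aemeasurable
    have a4 := (hmeas.comp_aemeasurable a3).ennreal_ofReal
    refine a4.congr (Filter.Eventually.of_forall fun z => ?_)
    show ENNReal.ofReal (ψ (max ‖w (dpt m (j + 1) z) - w (dpt m j z)‖ 0)) = _
    rw [max_eq_left (norm_nonneg _)]
  calc ∫⁻ z in S, ENNReal.ofReal (ψ ‖w (dpt m 6 z) - w z‖)
      ≤ ∫⁻ z in S, ENNReal.ofReal (C ^ 3) * ∑ j ∈ Finset.range 6,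
          ENNReal.ofReal (ψ ‖w (dpt m (j + 1) z) - w (dpt m j z)‖) := by
        apply lintegral_mono
        intro z
        have h1 := yng_six hC hψ (fun j => w (dpt m (j + 1) z) - w (dpt m j z))
        have h2 : ∑ j ∈ Finset.range 6, (w (dpt m (j + 1) z) - w (dpt m j z)) =
            w (dpt m 6 z) - w z :=
          Finset.sum_range_sub (fun j => w (dpt m j z)) 6
        rw [h2] at h1
        show ENNReal.ofReal (ψ ‖w (dpt m 6 z) - w z‖) ≤ ENNReal.ofReal (C ^ 3) *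
          ∑ j ∈ Finset.range 6, ENNReal.ofReal (ψ ‖w (dpt m (j + 1) z) - w (dpt m j z)‖)
        rw [← ENNReal.ofReal_sum_of_nonneg (fun j _ => yng_nonneg hψ (norm_nonneg _)),
          ← ENNReal.ofReal_mul (by positivity)]
        exact ENNReal.ofReal_le_ofReal h1
    _ = ENNReal.ofReal (C ^ 3) * ∑ j ∈ Finset.range 6,
          ∫⁻ z in S, ENNReal.ofReal (ψ ‖w (dpt m (j + 1) z) - w (dpt m j z)‖) := by
        rw [lintegral_const_mul' _ _ ENNReal.ofReal_ne_top, lintegral_finsetSum' _ hae]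
    _ ≤ ENNReal.ofReal (C ^ 3) * ∑ _j ∈ Finset.range 6,
          ∫⁻ z in U', ENNReal.ofReal (ψ ‖g z‖) := by
        refine mul_le_mul_right (Finset.sum_le_sum fun j hj => ?_) _
        exact dstep hU hX hY hψ hS hU' hU'U hκ0 hκ hp hm (Finset.mem_range.1 hj)
    _ = ENNReal.ofReal (6 * C ^ 3) * ∫⁻ z in U', ENNReal.ofReal (ψ ‖g z‖) := by
        rw [Finset.sum_const, Finset.card_range, nsmul_eq_mul, ← mul_assoc]
        congr 1
        rw [mul_comm 6 (C ^ 3), ENNReal.ofReal_mul (by positivity)]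
        congr 1
        norm_num

private noncomputable def mvA (a b k : ℝ) : ℕ → Bool × ℝ
  | 0 => (true, a)
  | 1 => (false, b)
  | 2 => (true, k)
  | 3 => (false, k)
  | 4 => (true, -k)
  | _ => (false, -k)

private noncomputable def mvB (a b k : ℝ) : ℕ → Bool × ℝ
  | 0 => (true, a)
  | 1 => (false, b)
  | 2 => (false, k)
  | 3 => (true, k)
  | 4 => (false, -k)
  | _ => (true, -k)

theorem path_jensen {U : Set Pt} (hU : IsOpen U) {w : Pt → W} {g : Pt → V2 W}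
    (hX : WD vX U w (fun z => g z 0)) (hY : WD vY U w (fun z => g z 1))
    {C : ℝ} {ψ : ℝ → ℝ} (hC : 1 ≤ C) (hψ : Yng C ψ) {S U' : Set Pt} (hS : MeasurableSet S)
    (hU' : MeasurableSet U') (hU'U : U' ⊆ U) {κ : ℝ} (hκ0 : 0 < κ) (hκ : κ ≤ 1)
    (hp : ∀ z ∈ S, ∀ y : Pt, ‖y - z‖ ≤ 8 * κ * (1 + ‖z‖) → y ∈ U')
    {v : Pt} (h1 : |v.1| ≤ κ) (h2 : |v.2.1| ≤ κ) (h3 : |v.2.2 - v.1 * v.2.1 / 2| ≤ κ ^ 2) :
    ∫⁻ z in S, ENNReal.ofReal (ψ ‖w (mul z v) - w z‖) ≤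
      ENNReal.ofReal (6 * C ^ 3) * ∫⁻ z in U', ENNReal.ofReal (ψ ‖g z‖) := by
  set c := v.2.2 - v.1 * v.2.1 / 2 with hc
  set k := Real.sqrt |c| with hk
  have hk0 : 0 ≤ k := Real.sqrt_nonneg _
  have hk1 : |k| ≤ κ := by
    rw [abs_of_nonneg hk0, hk]
    calc Real.sqrt |c| ≤ Real.sqrt (κ ^ 2) := Real.sqrt_le_sqrt h3
      _ = κ := Real.sqrt_sq hκ0.le
  have hk2 : k ^ 2 = |c| := Real.sq_sqrt (abs_nonneg c)
  rcases le_or_gt 0 c with hc0 | hc0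
  · have hm : ∀ j, |(mvA v.1 v.2.1 k j).2| ≤ κ := by
      intro j
      match j with
      | 0 => exact h1
      | 1 => exact h2
      | 2 => exact hk1
      | 3 => exact hk1
      | 4 => show |-k| ≤ κ; rw [abs_neg]; exact hk1
      | (n + 5) => show |-k| ≤ κ; rw [abs_neg]; exact hk1
    have hmain := dmain hU hX hY hC hψ hS hU' hU'U hκ0 hκ hp hm
    have he : ∀ z, dpt (mvA v.1 v.2.1 k) 6 z = mul z v := by
      intro z
      have hck : c = k ^ 2 := by rw [hk2, abs_of_nonneg hc0]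
      have hv : v.2.2 = k ^ 2 + v.1 * v.2.1 / 2 := by rw [← hck, hc]; ring
      show (vY).fl (-k) ((vX).fl (-k) ((vY).fl k ((vX).fl k ((vY).fl v.2.1 ((vX).fl v.1 z))))) = _
      simp only [VF.fl, vX, vY, mul]
      refine Prod.ext ?_ (Prod.ext ?_ ?_)
      · simp only []
        ring
      · simp only []
        ring
      · simp only []
        rw [hv]
        ring
    simp only [he] at hmain
    exact hmain
  · have hm : ∀ j, |(mvB v.1 v.2.1 k j).2| ≤ κ := by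
      intro j
      match j with
      | 0 => exact h1
      | 1 => exact h2
      | 2 => exact hk1
      | 3 => exact hk1
      | 4 => show |-k| ≤ κ; rw [abs_neg]; exact hk1
      | (n + 5) => show |-k| ≤ κ; rw [abs_neg]; exact hk1
    have hmain := dmain hU hX hY hC hψ hS hU' hU'U hκ0 hκ hp hm
    have he : ∀ z, dpt (mvB v.1 v.2.1 k) 6 z = mul z v := by
      intro z
      have hck : c = -k ^ 2 := by rw [hk2, abs_of_neg hc0]; ring
      have hv : v.2.2 = -k ^ 2 + v.1 * v.2.1 / 2 := by rw [← hck, hc]; ring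
      show (vX).fl (-k) ((vY).fl (-k) ((vX).fl k ((vY).fl k ((vY).fl v.2.1 ((vX).fl v.1 z))))) = _
      simp only [VF.fl, vX, vY, mul]
      refine Prod.ext ?_ (Prod.ext ?_ ?_)
      · simp only []
        ring
      · simp only []
        ring
      · simp only []
        rw [hv]
        ring
    simp only [he] at hmain
    exact hmain

end PLH
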