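import Pool.Agent.Lib.PLH.D1

/-!
MODULE D2 (200 lines). The modular Poincare inequality (double integral form) on small cubes.

`κ = 1/640`, `ρ₀ = κ²/6`. For `p, q` in a cube `Bx c l` of half-sides `≤ ρ₀/2` inside `bx 2 2` (so `‖z‖ < 2`):
`v = p⁻¹ q = (Δx, Δy, Δt - (x Δy - y Δx)/2)`, `|v.1|,|v.2.1| ≤ ρ₀ ≤ κ`,
`|v.2.2 - v.1 v.2.1/2| ≤ ρ₀ + 2ρ₀ + ρ₀²/2 ≤ 6ρ₀ = κ²`. Substituting `q = mul p v` (measure preserving
for fixed `p`: it is `tau p 1`), and Tonelli:
`∫⁻_{p∈S} ∫⁻_{q∈S} ψ(‖w p - w q‖) ≤ ∫⁻_{v∈Q} ∫⁻_{p∈S} ψ(‖w(mul p v) - w p‖)`,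
`Q = {|v.1|,|v.2.1| ≤ κ, |v.2.2 - v.1 v.2.1/2| ≤ κ²}`, a set of measure at most `1`; apply
`path_jensen` with `U' = nb S`: `8κ(1+2) = 24/640 < 1/16`.
Measurability of `w` on `U`: change `w` to a strongly
measurable function on a null set (for fixed `v` the maps are measure preserving).
-/

open MeasureTheory Set Filter Topology
open scoped ContDiff ENNReal

namespace PLH

/-- The box with centre `c` and half-sides `l`. -/
def Bx (c l : Pt) : Set Pt :=
  {z | |z.1 - c.1| < l.1 ∧ |z.2.1 - c.2.1| < l.2.1 ∧ |z.2.2 - c.2.2| < l.2.2}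

/-- The `1/16` neighbourhood. -/
def nb (S : Set Pt) : Set Pt := {w | ∃ z ∈ S, ‖w - z‖ < 1 / 16}

/-- The modular Poincare inequality on `S` (gradient on the neighbourhood `nb S`). -/
def Good (W : Type*) [NormedAddCommGroup W] [InnerProductSpace ℝ W] (C : ℝ) (S : Set Pt) : Prop :=
  ∃ K : ℝ, 0 ≤ K ∧ ∀ ψ : ℝ → ℝ, Yng C ψ → ∀ U : Set Pt, IsOpen U → nb S ⊆ U →
    ∀ (w : Pt → W) (g : Pt → V2 W), WD vX U w (fun z => g z 0) → WD vY U w (fun z => g z 1) →
    ∫⁻ p in S, ∫⁻ q in S, ENNReal.ofReal (ψ ‖w p - w q‖) ≤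
      ENNReal.ofReal K * ∫⁻ z in nb S, ENNReal.ofReal (ψ ‖g z‖)

variable (W : Type*) [NormedAddCommGroup W] [InnerProductSpace ℝ W] [CompleteSpace W]

private theorem nb_open (S : Set Pt) : IsOpen (nb S) := by
  have : nb S = Metric.thickening (1 / 16) S := by
    ext z
    rw [Metric.mem_thickening_iff]
    simp only [nb, mem_ofPred_eq, dist_eq_norm]
  rw [this]
  exact Metric.isOpen_thickening

private theorem Bx_open (c l : Pt) : IsOpen (Bx c l) := by
  have h1 : IsOpen {z : Pt | |z.1 - c.1| < l.1} := isOpen_lt (by fun_prop) continuous_const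
  have h2 : IsOpen {z : Pt | |z.2.1 - c.2.1| < l.2.1} := isOpen_lt (by fun_prop) continuous_const
  have h3 : IsOpen {z : Pt | |z.2.2 - c.2.2| < l.2.2} := isOpen_lt (by fun_prop) continuous_const
  exact h1.inter (h2.inter h3)

/-- the set of right translations -/
private def QQ (κ : ℝ) : Set Pt :=
  {v | |v.1| ≤ κ ∧ |v.2.1| ≤ κ ∧ |v.2.2 - v.1 * v.2.1 / 2| ≤ κ ^ 2}

private theorem QQ_meas (κ : ℝ) : MeasurableSet (QQ κ) := by
  have h1 : IsClosed {z : Pt | |z.1| ≤ κ} := isClosed_le (by fun_prop) continuous_const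
  have h2 : IsClosed {z : Pt | |z.2.1| ≤ κ} := isClosed_le (by fun_prop) continuous_const
  have h3 : IsClosed {z : Pt | |z.2.2 - z.1 * z.2.1 / 2| ≤ κ ^ 2} :=
    isClosed_le (by fun_prop) continuous_const
  exact (h1.inter (h2.inter h3)).measurableSet

private theorem QQ_fin {κ : ℝ} (hκ : 0 < κ) : volume (QQ κ) ≠ ⊤ := by
  have hsub : QQ κ ⊆ Metric.closedBall (0 : Pt) (κ + 2 * κ ^ 2) := by
    rintro v ⟨h1, h2, h3⟩
    rw [mem_closedBall_zero_iff]
    have h4 : |v.1 * v.2.1 / 2| ≤ κ ^ 2 / 2 := by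
      rw [abs_div, abs_mul, abs_two]
      have := mul_le_mul h1 h2 (abs_nonneg _) hκ.le
      nlinarith
    have h5 : |v.2.2| ≤ 2 * κ ^ 2 := by
      have e : v.2.2 = (v.2.2 - v.1 * v.2.1 / 2) + v.1 * v.2.1 / 2 := by ring
      rw [e]
      refine (abs_add_le _ _).trans ?_
      nlinarith [sq_nonneg κ]
    have h6 : 0 ≤ 2 * κ ^ 2 := by positivity
    refine norm_prod_le_iff.2 ⟨?_, norm_prod_le_iff.2 ⟨?_, ?_⟩⟩
    · rw [Real.norm_eq_abs]; linarith
    · rw [Real.norm_eq_abs]; linarith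
    · rw [Real.norm_eq_abs]; linarith
  exact ne_top_of_le_ne_top (measure_closedBall_lt_top).ne (measure_mono hsub)

private theorem meas_psi {C : ℝ} {ψ : ℝ → ℝ} (hψ : Yng C ψ) {α : Type*} [MeasurableSpace α]
    {u : α → ℝ} (hu : Measurable u) (h0 : ∀ x, 0 ≤ u x) : Measurable (fun x => ψ (u x)) := by
  have hc : Continuous (fun y : ℝ => ψ (max y 0)) :=
    hψ.cont.comp_continuous (continuous_id.max continuous_const)
      (fun y => mem_Ici.2 (le_max_right _ _))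
  have h1 : (fun x => ψ (u x)) = fun x => (fun y : ℝ => ψ (max y 0)) (u x) := by
    funext x
    simp only
    rw [max_eq_left (h0 x)]
  rw [h1]
  exact hc.measurable.comp hu

theorem good_small {C : ℝ} (hC : 1 ≤ C) : ∃ ρ₀ : ℝ, 0 < ρ₀ ∧ ∀ c l : Pt, 0 < l.1 → 0 < l.2.1 →
    0 < l.2.2 → l.1 ≤ ρ₀ → l.2.1 ≤ ρ₀ → l.2.2 ≤ ρ₀ → Bx c l ⊆ bx 2 2 → Good W C (Bx c l) := by
  obtain ⟨κ, hκdef⟩ : ∃ κ : ℝ, κ = 1 / 640 := ⟨_, rfl⟩
  have hκ0 : 0 < κ := by rw [hκdef]; norm_num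
  have hκ1 : κ ≤ 1 := by rw [hκdef]; norm_num
  refine ⟨κ ^ 2 / 12, by positivity, fun c l _ _ _ hl1 hl2 hl3 hsub => ?_⟩
  set S := Bx c l with hS
  have hSo : IsOpen S := Bx_open c l
  have hSm : MeasurableSet S := hSo.measurableSet
  refine ⟨(volume (QQ κ)).toReal * (6 * C ^ 3), by positivity, fun ψ hψ U hU hnb w g hX hY => ?_⟩
  have hSnb : S ⊆ nb S := fun z hz => ⟨z, hz, by simp⟩
  have hSU : S ⊆ U := hSnb.trans hnb
  have hwm : AEStronglyMeasurable w (volume.restrict U) := hX.lf.aestronglyMeasurable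
  obtain ⟨w', hw', hww⟩ := hwm
  have hX' : WD vX U w' (fun z => g z 0) := hX.congr hU hww (EventuallyEq.refl _ _)
  have hY' : WD vY U w' (fun z => g z 1) := hY.congr hU hww (EventuallyEq.refl _ _)
  have hwS : ∀ᵐ z ∂(volume.restrict S), w z = w' z :=
    ae_restrict_of_ae_restrict_of_subset hSU hww
  have hmulc : Continuous (fun p : Pt × Pt => mul p.1 p.2) := by
    unfold mul
    fun_prop
  have hΨ : Measurable (fun p : Pt × Pt => ENNReal.ofReal (ψ ‖w' (mul p.1 p.2) - w' p.1‖)) := by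
    refine (meas_psi hψ ?_ (fun p => norm_nonneg _)).ennreal_ofReal
    exact ((hw'.comp_measurable hmulc.measurable).sub
      (hw'.comp_measurable measurable_fst)).norm.measurable
  have hp : ∀ z ∈ S, ∀ y : Pt, ‖y - z‖ ≤ 8 * κ * (1 + ‖z‖) → y ∈ nb S := by
    intro z hz y hy
    refine ⟨z, hz, hy.trans_lt ?_⟩
    obtain ⟨h1, h2, h3⟩ := hsub hz
    have hz2 : ‖z‖ ≤ 2 := by
      refine norm_prod_le_iff.2 ⟨?_, norm_prod_le_iff.2 ⟨?_, ?_⟩⟩
      · rw [Real.norm_eq_abs]; exact h1.le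
      · rw [Real.norm_eq_abs]; exact h2.le
      · rw [Real.norm_eq_abs]; exact h3.le
    rw [hκdef]
    linarith
  have hQ : ∀ p ∈ S, ∀ v : Pt, mul p v ∈ S → v ∈ QQ κ := by
    intro p hp v hv
    obtain ⟨b1, b2, b3⟩ := hsub hp
    obtain ⟨p1, p2, p3⟩ := hp
    obtain ⟨q1, q2, q3⟩ := hv
    simp only [mul] at q1 q2 q3
    have hk2 : κ ^ 2 / 6 ≤ κ := by nlinarith
    have d1 : |v.1| ≤ κ ^ 2 / 6 := by
      have e : v.1 = (p.1 + v.1 - c.1) - (p.1 - c.1) := by ring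
      rw [e]
      refine (abs_sub _ _).trans ?_
      linarith
    have d2 : |v.2.1| ≤ κ ^ 2 / 6 := by
      have e : v.2.1 = (p.2.1 + v.2.1 - c.2.1) - (p.2.1 - c.2.1) := by ring
      rw [e]
      refine (abs_sub _ _).trans ?_
      linarith
    have d3 : |v.2.2 + (p.1 * v.2.1 - p.2.1 * v.1) / 2| ≤ κ ^ 2 / 6 := by
      have e : v.2.2 + (p.1 * v.2.1 - p.2.1 * v.1) / 2
          = (p.2.2 + v.2.2 + (p.1 * v.2.1 - p.2.1 * v.1) / 2 - c.2.2) - (p.2.2 - c.2.2) := by ring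
      rw [e]
      refine (abs_sub _ _).trans ?_
      linarith
    refine ⟨d1.trans hk2, d2.trans hk2, ?_⟩
    have m1 : |p.1 * v.2.1| ≤ 2 * (κ ^ 2 / 6) := by
      rw [abs_mul]
      exact mul_le_mul b1.le d2 (abs_nonneg _) (by norm_num)
    have m2 : |p.2.1 * v.1| ≤ 2 * (κ ^ 2 / 6) := by
      rw [abs_mul]
      exact mul_le_mul b2.le d1 (abs_nonneg _) (by norm_num)
    have m3 : |v.1 * v.2.1| ≤ (κ ^ 2 / 6) * (κ ^ 2 / 6) := by
      rw [abs_mul]
      exact mul_le_mul d1 d2 (abs_nonneg _) (by positivity)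
    have m4 : (κ ^ 2 / 6) * (κ ^ 2 / 6) ≤ κ ^ 2 / 6 := by
      have : κ ^ 2 / 6 ≤ 1 := by nlinarith
      have h0 : 0 ≤ κ ^ 2 / 6 := by positivity
      nlinarith
    rw [abs_le] at *
    constructor <;> nlinarith [m1.1, m1.2, m2.1, m2.2, m3.1, m3.2, d3.1, d3.2]
  calc ∫⁻ p in S, ∫⁻ q in S, ENNReal.ofReal (ψ ‖w p - w q‖)
      = ∫⁻ p in S, ∫⁻ q in S, ENNReal.ofReal (ψ ‖w' p - w' q‖) := by
        refine lintegral_congr_ae ?_
        filter_upwards [hwS] with p hp'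
        refine lintegral_congr_ae ?_
        filter_upwards [hwS] with q hq'
        rw [hp', hq']
    _ ≤ ∫⁻ p in S, ∫⁻ v in QQ κ, ENNReal.ofReal (ψ ‖w' (mul p v) - w' p‖) := by
        refine setLIntegral_mono' hSm fun p hpS => ?_
        have hmq : Measurable (fun q => ENNReal.ofReal (ψ ‖w' p - w' q‖)) := by
          refine (meas_psi hψ ?_ (fun p => norm_nonneg _)).ennreal_ofReal
          exact (stronglyMeasurable_const.sub hw').norm.measurable
        have e1 := (mp_tau p).setLIntegral_comp_preimage hSm hmq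
        rw [← e1]
        have e2 : ∀ v, tau p 1 v = mul p v := by
          intro v
          simp [tau, dil]
        simp only [e2]
        have e3 : ∀ v, ENNReal.ofReal (ψ ‖w' (mul p v) - w' p‖)
            = ENNReal.ofReal (ψ ‖w' p - w' (mul p v)‖) := fun v => by rw [norm_sub_rev]
        simp only [e3]
        refine lintegral_mono_set ?_
        · intro v hv
          have hv' : mul p v ∈ S := by
            have : tau p 1 v ∈ S := hv
            rwa [e2] at this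
          exact hQ p hpS v hv'
    _ = ∫⁻ v in QQ κ, ∫⁻ p in S, ENNReal.ofReal (ψ ‖w' (mul p v) - w' p‖) :=
        lintegral_lintegral_swap hΨ.aemeasurable
    _ ≤ ∫⁻ v in QQ κ, (ENNReal.ofReal (6 * C ^ 3) * ∫⁻ z in nb S, ENNReal.ofReal (ψ ‖g z‖)) := by
        refine setLIntegral_mono' (QQ_meas κ) fun v hv => ?_
        exact path_jensen hU hX' hY' hC hψ hSm (nb_open S).measurableSet hnb hκ0 hκ1 hp
          hv.1 hv.2.1 hv.2.2
    _ = ENNReal.ofReal ((volume (QQ κ)).toReal * (6 * C ^ 3)) *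
          ∫⁻ z in nb S, ENNReal.ofReal (ψ ‖g z‖) := by
        rw [setLIntegral_const, ENNReal.ofReal_mul ENNReal.toReal_nonneg,
          ENNReal.ofReal_toReal (QQ_fin hκ0)]
        ring

end PLH
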