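import Pool.Agent.Lib.PLH.D2

/-!
MODULE D3 (250 lines). Chains: the modular Poincare inequality on all boxes and on the ring.

`chain_DI` (pure measure theory): for `p ∈ S₁`, `q ∈ S₂`, `z ∈ S₁ ∩ S₂`:
`ψ(‖w p - w q‖) ≤ C (ψ(‖w p - w z‖) + ψ(‖w z - w q‖))` (`a+b ≤ 2 max(a,b)`, `dbl`); average over `z`:
`∫_{S₁}∫_{S₂} ≤ C |S₁∩S₂|⁻¹ (|S₂| DI(S₁) + |S₁| DI(S₂))`, and
`DI(S₁∪S₂) ≤ DI(S₁) + DI(S₂) + 2 ∫_{S₁}∫_{S₂}`. `good_union`: `nb (S₁∪S₂) = nb S₁ ∪ nb S₂`, monotone.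
(If `w` is not measurable on the sets: it is a.e. strongly measurable on `U ⊇ S`.)
`good_box`: every box `Bx c l ⊆ bx 2 2` (with `l` positive) is good: from `good_small` by elongation.
If all boxes `⊆ bx 2 2` with half-sides `(l₁,l₂,l₃)`, `l₁ ≤ M`, are good then so are those with
`l₁ ≤ 3M/2`: a box with half-side `l₁ ∈ (M, 3M/2]` is the union of the two boxes with half-side `M`
and centres `c ± (l₁-M) e₁`, which overlap. Iterate up to `M ≥ 2`; then the same for the second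
and the third half-side.
`good_ring`: the ring is the union of the six boxes `{1/2 < x < 1, |y| < 1, |t| < 1}`,
`{|x|,|y| < 1, 3/4 < t < 1}`, `{-1 < x < -1/2,...}`, `{1/2 < y < 1,...}`, `{-1 < y < -1/2,...}`,
`{-1 < t < -3/4,...}` up to the null set of its boundary planes; in this order every box meets the
union of the previous ones in a set of positive measure.
-/

open MeasureTheory Set Filter Topology
open scoped ContDiff ENNReal

namespace PLH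

variable (W : Type*) [NormedAddCommGroup W] [InnerProductSpace ℝ W] [CompleteSpace W]

/-- The ring around the hole `{|x|,|y| ≤ 1/2, |t| ≤ 3/4}`. -/
def Rg : Set Pt := {z | z ∈ bx 1 1 ∧ ¬ (|z.1| ≤ 1 / 2 ∧ |z.2.1| ≤ 1 / 2 ∧ |z.2.2| ≤ 3 / 4)}

private theorem d3_tri {F : Type*} [NormedAddCommGroup F] {C : ℝ} (hC : 1 ≤ C) {ψ : ℝ → ℝ}
    (hψ : Yng C ψ) (a b c : F) :
    ENNReal.ofReal (ψ ‖a - c‖) ≤ ENNReal.ofReal C *
      (ENNReal.ofReal (ψ ‖a - b‖) + ENNReal.ofReal (ψ ‖b - c‖)) := by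
  have hn : ∀ y : ℝ, 0 ≤ y → 0 ≤ ψ y := fun y hy => by
    have h1 := hψ.mono (mem_Ici.2 le_rfl) (mem_Ici.2 hy) hy
    rwa [hψ.zero] at h1
  have h1 := hn _ (norm_nonneg (a - b))
  have h2 := hn _ (norm_nonneg (b - c))
  rw [← ENNReal.ofReal_add h1 h2, ← ENNReal.ofReal_mul (by linarith)]
  apply ENNReal.ofReal_le_ofReal
  have h3 : ‖a - c‖ ≤ ‖a - b‖ + ‖b - c‖ := norm_sub_le_norm_sub_add_norm_sub a b c
  rcases le_total ‖a - b‖ ‖b - c‖ with h | h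
  · have h4 : ‖a - c‖ ≤ 2 * ‖b - c‖ := by linarith
    have h5 := hψ.mono (mem_Ici.2 (norm_nonneg _))
      (mem_Ici.2 (by positivity : (0 : ℝ) ≤ 2 * ‖b - c‖)) h4
    have h6 := hψ.dbl _ (norm_nonneg (b - c))
    nlinarith
  · have h4 : ‖a - c‖ ≤ 2 * ‖a - b‖ := by linarith
    have h5 := hψ.mono (mem_Ici.2 (norm_nonneg _))
      (mem_Ici.2 (by positivity : (0 : ℝ) ≤ 2 * ‖a - b‖)) h4
    have h6 := hψ.dbl _ (norm_nonneg (a - b))
    nlinarith

private theorem d3_meas {F : Type*} [NormedAddCommGroup F] {C : ℝ} {ψ : ℝ → ℝ}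
    (hψ : Yng C ψ) {w : Pt → F} (hw : StronglyMeasurable w) :
    Measurable (Function.uncurry fun p q : Pt => ENNReal.ofReal (ψ ‖w p - w q‖)) := by
  have h1 : Continuous fun x : F => ψ ‖x‖ :=
    hψ.cont.comp_continuous continuous_norm fun x => norm_nonneg x
  have h2 : StronglyMeasurable fun p : Pt × Pt => w p.1 - w p.2 :=
    (hw.comp_measurable measurable_fst).sub (hw.comp_measurable measurable_snd)
  exact (h1.comp_stronglyMeasurable h2).measurable.ennreal_ofReal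

/-- the double integral -/
private noncomputable def d3_DI {F : Type*} [NormedAddCommGroup F] (ψ : ℝ → ℝ) (w : Pt → F)
    (S T : Set Pt) : ENNReal :=
  ∫⁻ p in S, ∫⁻ q in T, ENNReal.ofReal (ψ ‖w p - w q‖)

private theorem d3_cross {F : Type*} [NormedAddCommGroup F] {C : ℝ} (hC : 1 ≤ C) {ψ : ℝ → ℝ}
    (hψ : Yng C ψ) {S₁ S₂ T : Set Pt} (hT1 : T ⊆ S₁) (hT2 : T ⊆ S₂) {w : Pt → F}
    (hw : StronglyMeasurable w) :
    volume T * d3_DI ψ w S₁ S₂ ≤ ENNReal.ofReal C *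
      (volume S₂ * d3_DI ψ w S₁ S₁ + volume S₁ * d3_DI ψ w S₂ S₂) := by
  have hm := d3_meas hψ hw
  have hmq : ∀ z : Pt, Measurable fun q => ENNReal.ofReal (ψ ‖w z - w q‖) := fun z =>
    hm.comp (measurable_const.prodMk measurable_id)
  have hmp : ∀ z : Pt, Measurable fun p => ENNReal.ofReal (ψ ‖w p - w z‖) := fun z =>
    hm.comp (measurable_id.prodMk measurable_const)
  have e1 : ∀ z : Pt, d3_DI ψ w S₁ S₂ ≤ ENNReal.ofReal C *
      (volume S₂ * (∫⁻ p in S₁, ENNReal.ofReal (ψ ‖w p - w z‖)) +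
        volume S₁ * ∫⁻ q in S₂, ENNReal.ofReal (ψ ‖w z - w q‖)) := by
    intro z
    have h1 : d3_DI ψ w S₁ S₂ ≤ ∫⁻ p in S₁, ∫⁻ q in S₂, ENNReal.ofReal C *
        (ENNReal.ofReal (ψ ‖w p - w z‖) + ENNReal.ofReal (ψ ‖w z - w q‖)) :=
      lintegral_mono fun p => lintegral_mono fun q => d3_tri hC hψ (w p) (w z) (w q)
    refine h1.trans (le_of_eq ?_)
    have h2 : ∀ p : Pt, ∫⁻ q in S₂, ENNReal.ofReal C *
        (ENNReal.ofReal (ψ ‖w p - w z‖) + ENNReal.ofReal (ψ ‖w z - w q‖)) =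
        ENNReal.ofReal C * (ENNReal.ofReal (ψ ‖w p - w z‖) * volume S₂ +
          ∫⁻ q in S₂, ENNReal.ofReal (ψ ‖w z - w q‖)) := by
      intro p
      rw [lintegral_const_mul _ ((hmq z).const_add _), lintegral_add_left measurable_const,
        setLIntegral_const]
    simp_rw [h2]
    rw [lintegral_const_mul _ (((hmp z).mul_const _).add_const _),
      lintegral_add_left ((hmp z).mul_const _), lintegral_mul_const _ (hmp z), setLIntegral_const]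
    congr 1
    rw [mul_comm (∫⁻ p in S₁, ENNReal.ofReal (ψ ‖w p - w z‖)) (volume S₂),
      mul_comm (∫⁻ q in S₂, ENNReal.ofReal (ψ ‖w z - w q‖)) (volume S₁)]
  have hM1 : Measurable fun z => ∫⁻ p in S₁, ENNReal.ofReal (ψ ‖w p - w z‖) := by
    have h := Measurable.lintegral_prod_left' (μ := volume.restrict S₁) hm
    exact h
  have hM2 : Measurable fun z => ∫⁻ q in S₂, ENNReal.ofReal (ψ ‖w z - w q‖) := by
    have h := Measurable.lintegral_prod_right' (ν := volume.restrict S₂) hm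
    exact h
  have hMs : Measurable fun z => volume S₂ * (∫⁻ p in S₁, ENNReal.ofReal (ψ ‖w p - w z‖)) +
      volume S₁ * ∫⁻ q in S₂, ENNReal.ofReal (ψ ‖w z - w q‖) :=
    (hM1.const_mul _).add (hM2.const_mul _)
  calc volume T * d3_DI ψ w S₁ S₂ = ∫⁻ _z in T, d3_DI ψ w S₁ S₂ := by
        rw [setLIntegral_const, mul_comm]
    _ ≤ ∫⁻ z in T, ENNReal.ofReal C *
      (volume S₂ * (∫⁻ p in S₁, ENNReal.ofReal (ψ ‖w p - w z‖)) +
        volume S₁ * ∫⁻ q in S₂, ENNReal.ofReal (ψ ‖w z - w q‖)) := lintegral_mono e1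
    _ = ENNReal.ofReal C * (volume S₂ * (∫⁻ z in T, ∫⁻ p in S₁, ENNReal.ofReal (ψ ‖w p - w z‖)) +
        volume S₁ * ∫⁻ z in T, ∫⁻ q in S₂, ENNReal.ofReal (ψ ‖w z - w q‖)) := by
        rw [lintegral_const_mul _ hMs,
          lintegral_add_left (hM1.const_mul _), lintegral_const_mul _ hM1,
          lintegral_const_mul _ hM2]
    _ ≤ ENNReal.ofReal C * (volume S₂ * d3_DI ψ w S₁ S₁ + volume S₁ * d3_DI ψ w S₂ S₂) := by
        gcongr
        · refine (lintegral_mono_set hT1).trans (le_of_eq ?_)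
          unfold d3_DI
          refine lintegral_congr fun p => lintegral_congr fun q => ?_
          rw [norm_sub_rev]
        · exact lintegral_mono_set hT2

private theorem d3_chain {F : Type*} [NormedAddCommGroup F] {C : ℝ} (hC : 1 ≤ C) {ψ : ℝ → ℝ}
    (hψ : Yng C ψ) {S₁ S₂ : Set Pt}
    (f₁ : volume S₁ ≠ ⊤) (h12 : volume (S₁ ∩ S₂) ≠ 0) {w : Pt → F}
    (hw : StronglyMeasurable w) :
    d3_DI ψ w (S₁ ∪ S₂) (S₁ ∪ S₂) ≤
      (1 + ENNReal.ofReal (2 * C) * (volume S₁ + volume S₂) / volume (S₁ ∩ S₂)) *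
        (d3_DI ψ w S₁ S₁ + d3_DI ψ w S₂ S₂) := by
  have hm := d3_meas hψ hw
  have hMr : ∀ S : Set Pt, Measurable fun z => ∫⁻ q in S, ENNReal.ofReal (ψ ‖w z - w q‖) := by
    intro S
    have h := Measurable.lintegral_prod_right' (ν := volume.restrict S) hm
    exact h
  set m := volume (S₁ ∩ S₂) with hmdef
  have hmt : m ≠ ⊤ := ne_top_of_le_ne_top f₁ (measure_mono inter_subset_left)
  set a := d3_DI ψ w S₁ S₁ with ha
  set b := d3_DI ψ w S₂ S₂ with hb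
  set v₁ := volume S₁ with hv1
  set v₂ := volume S₂ with hv2
  have e0 : ENNReal.ofReal C * (v₂ * a + v₁ * b) ≤ ENNReal.ofReal C * (v₁ + v₂) * (a + b) := by
    rw [mul_assoc]
    gcongr
    calc v₂ * a + v₁ * b ≤ (v₁ + v₂) * a + (v₁ + v₂) * b := by
          gcongr
          · exact le_add_self
          · exact le_self_add
      _ = (v₁ + v₂) * (a + b) := by rw [mul_add]
  have e1 : d3_DI ψ w S₁ S₂ ≤ ENNReal.ofReal C * (v₁ + v₂) / m * (a + b) := by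
    have h1 := (d3_cross hC hψ (T := S₁ ∩ S₂) inter_subset_left inter_subset_right hw).trans e0
    rw [← ENNReal.mul_div_right_comm, ENNReal.le_div_iff_mul_le (Or.inl h12) (Or.inl hmt), mul_comm]
    exact h1
  have e2 : d3_DI ψ w S₂ S₁ ≤ ENNReal.ofReal C * (v₁ + v₂) / m * (a + b) := by
    have h1 := (d3_cross hC hψ (T := S₁ ∩ S₂) inter_subset_right inter_subset_left hw)
    rw [add_comm] at h1
    have h2 := h1.trans e0
    rw [← ENNReal.mul_div_right_comm, ENNReal.le_div_iff_mul_le (Or.inl h12) (Or.inl hmt), mul_comm]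
    exact h2
  have e3 : d3_DI ψ w (S₁ ∪ S₂) (S₁ ∪ S₂) ≤
      (a + d3_DI ψ w S₁ S₂) + (d3_DI ψ w S₂ S₁ + b) := by
    have h1 : ∀ S : Set Pt, d3_DI ψ w S (S₁ ∪ S₂) ≤ d3_DI ψ w S S₁ + d3_DI ψ w S S₂ := by
      intro S
      unfold d3_DI
      rw [← lintegral_add_left (hMr S₁)]
      exact lintegral_mono fun p => lintegral_union_le _ _ _
    refine (lintegral_union_le _ _ _).trans ?_
    exact add_le_add (h1 S₁) (h1 S₂)
  have e4 : ENNReal.ofReal (2 * C) * (v₁ + v₂) / m * (a + b) =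
      ENNReal.ofReal C * (v₁ + v₂) / m * (a + b) + ENNReal.ofReal C * (v₁ + v₂) / m * (a + b) := by
    have h2 : ENNReal.ofReal (2 * C) = 2 * ENNReal.ofReal C := by
      rw [ENNReal.ofReal_mul (by norm_num)]
      norm_num
    rw [h2, ← two_mul, ENNReal.div_eq_inv_mul, ENNReal.div_eq_inv_mul]
    ring
  rw [add_mul, one_mul, e4]
  refine e3.trans ?_
  calc (a + d3_DI ψ w S₁ S₂) + (d3_DI ψ w S₂ S₁ + b) =
      (a + b) + (d3_DI ψ w S₁ S₂ + d3_DI ψ w S₂ S₁) := by ring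
    _ ≤ _ := by gcongr

private theorem d3_congr {F : Type*} [NormedAddCommGroup F] {ψ : ℝ → ℝ} {S : Set Pt}
    {w w' : Pt → F} (h : w =ᵐ[volume.restrict S] w') :
    (∫⁻ p in S, ∫⁻ q in S, ENNReal.ofReal (ψ ‖w p - w q‖)) = d3_DI ψ w' S S := by
  unfold d3_DI
  apply lintegral_congr_ae
  filter_upwards [h] with p hp
  apply lintegral_congr_ae
  filter_upwards [h] with q hq
  rw [hp, hq]

theorem chain_DI {F : Type*} [NormedAddCommGroup F] {C : ℝ} (hC : 1 ≤ C) {ψ : ℝ → ℝ}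
    (hψ : Yng C ψ) {S₁ S₂ : Set Pt} (h₁ : MeasurableSet S₁) (h₂ : MeasurableSet S₂)
    (f₁ : volume S₁ ≠ ⊤) (f₂ : volume S₂ ≠ ⊤) (h12 : volume (S₁ ∩ S₂) ≠ 0) {w : Pt → F}
    (hw : AEStronglyMeasurable w (volume.restrict (S₁ ∪ S₂))) :
    ∫⁻ p in S₁ ∪ S₂, ∫⁻ q in S₁ ∪ S₂, ENNReal.ofReal (ψ ‖w p - w q‖) ≤
      (1 + ENNReal.ofReal (2 * C) * (volume S₁ + volume S₂) / volume (S₁ ∩ S₂)) *
        ((∫⁻ p in S₁, ∫⁻ q in S₁, ENNReal.ofReal (ψ ‖w p - w q‖)) +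
          ∫⁻ p in S₂, ∫⁻ q in S₂, ENNReal.ofReal (ψ ‖w p - w q‖)) := by
  obtain ⟨w', hw', hae⟩ := hw
  have g1 : w =ᵐ[volume.restrict S₁] w' := ae_restrict_of_ae_restrict_of_subset subset_union_left hae
  have g2 : w =ᵐ[volume.restrict S₂] w' := ae_restrict_of_ae_restrict_of_subset subset_union_right hae
  rw [d3_congr hae, d3_congr g1, d3_congr g2]
  exact d3_chain hC hψ f₁ h12 hw'

omit [CompleteSpace W] in
private theorem d3_union {C : ℝ} (hC : 1 ≤ C) {S₁ S₂ : Set Pt} (h₁ : IsOpen S₁) (h₂ : IsOpen S₂)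
    (f₁ : volume S₁ ≠ ⊤) (f₂ : volume S₂ ≠ ⊤) (h12 : (S₁ ∩ S₂).Nonempty)
    (g₁ : Good W C S₁) (g₂ : Good W C S₂) : Good W C (S₁ ∪ S₂) := by
  obtain ⟨K₁, hK₁, hg₁⟩ := g₁
  obtain ⟨K₂, hK₂, hg₂⟩ := g₂
  have hv : volume (S₁ ∩ S₂) ≠ 0 := ((h₁.inter h₂).measure_pos _ h12).ne'
  have hsub : ∀ S : Set Pt, S ⊆ nb S := fun S z hz => ⟨z, hz, by rw [sub_self, norm_zero]; norm_num⟩
  have hnb1 : nb S₁ ⊆ nb (S₁ ∪ S₂) := fun z ⟨y, hy, h⟩ => ⟨y, Or.inl hy, h⟩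
  have hnb2 : nb S₂ ⊆ nb (S₁ ∪ S₂) := fun z ⟨y, hy, h⟩ => ⟨y, Or.inr hy, h⟩
  set c : ENNReal := 1 + ENNReal.ofReal (2 * C) * (volume S₁ + volume S₂) / volume (S₁ ∩ S₂)
    with hc
  have hct : c ≠ ⊤ := by
    rw [hc]
    refine ENNReal.add_ne_top.2 ⟨ENNReal.one_ne_top, ?_⟩
    exact ENNReal.div_ne_top (ENNReal.mul_ne_top ENNReal.ofReal_ne_top
      (ENNReal.add_ne_top.2 ⟨f₁, f₂⟩)) hv
  refine ⟨c.toReal * (K₁ + K₂), by positivity, ?_⟩
  intro ψ hψ U hU hnU w g hx hy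
  have hSU : S₁ ∪ S₂ ⊆ U := (hsub _).trans hnU
  have hmeas : AEStronglyMeasurable w (volume.restrict (S₁ ∪ S₂)) :=
    (hx.lf.aestronglyMeasurable).mono_measure (Measure.restrict_mono hSU le_rfl)
  refine (chain_DI hC hψ h₁.measurableSet h₂.measurableSet f₁ f₂ hv hmeas).trans ?_
  have e1 := hg₁ ψ hψ U hU (hnb1.trans hnU) w g hx hy
  have e2 := hg₂ ψ hψ U hU (hnb2.trans hnU) w g hx hy
  have e3 : ENNReal.ofReal (c.toReal * (K₁ + K₂)) = c * (ENNReal.ofReal K₁ + ENNReal.ofReal K₂) := by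
    rw [ENNReal.ofReal_mul ENNReal.toReal_nonneg, ENNReal.ofReal_toReal hct,
      ENNReal.ofReal_add hK₁ hK₂]
  rw [e3, mul_assoc, add_mul (ENNReal.ofReal K₁) (ENNReal.ofReal K₂)]
  refine mul_le_mul' le_rfl (add_le_add (e1.trans ?_) (e2.trans ?_))
  · exact mul_le_mul' le_rfl (lintegral_mono_set hnb1)
  · exact mul_le_mul' le_rfl (lintegral_mono_set hnb2)

private theorem d3_fin {S : Set Pt} (h : S ⊆ bx 2 2) : volume S ≠ ⊤ := by
  have h1 : S ⊆ Metric.closedBall (0 : Pt) 2 := by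
    intro z hz
    have h2 := h hz
    rw [mem_closedBall_zero_iff]
    exact max_le h2.1.le (max_le h2.2.1.le h2.2.2.le)
  exact ne_top_of_le_ne_top (isCompact_closedBall (0 : Pt) 2).measure_lt_top.ne (measure_mono h1)

omit [CompleteSpace W] in
/-- elongation in the direction of the function `f` -/
private theorem d3_elong {C : ℝ} (hC : 1 ≤ C) {f : Pt → ℝ} (hf : Continuous f) {R : Set Pt}
    (hR : IsOpen R) (hs : ∀ x, ∃ z ∈ R, f z = x) {M : ℝ} (hM : 0 < M)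
    (h : ∀ a r : ℝ, 0 < r → r ≤ M → {z | z ∈ R ∧ |f z - a| < r} ⊆ bx 2 2 →
      Good W C {z | z ∈ R ∧ |f z - a| < r}) :
    ∀ a r : ℝ, 0 < r → {z | z ∈ R ∧ |f z - a| < r} ⊆ bx 2 2 →
      Good W C {z | z ∈ R ∧ |f z - a| < r} := by
  have key : ∀ n : ℕ, ∀ a r : ℝ, 0 < r → r ≤ M * (3 / 2) ^ n →
      {z | z ∈ R ∧ |f z - a| < r} ⊆ bx 2 2 → Good W C {z | z ∈ R ∧ |f z - a| < r} := by
    intro n
    induction n with
    | zero =>
      intro a r h0 h1 h2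
      exact h a r h0 (by simpa using h1) h2
    | succ n ih =>
      intro a r h0 h1 h2
      rcases le_or_gt r (M * (3 / 2) ^ n) with h3 | h3
      · exact ih a r h0 h3 h2
      · set m := M * (3 / 2) ^ n with hm
        have hm0 : 0 < m := by positivity
        have h4 : r ≤ 3 / 2 * m := by
          rw [pow_succ] at h1
          rw [hm]
          linarith
        have hopen : ∀ a' : ℝ, IsOpen {z | z ∈ R ∧ |f z - a'| < m} := fun a' =>
          hR.inter (isOpen_lt (f := fun z => |f z - a'|) (g := fun _ => m) (by fun_prop)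
            continuous_const)
        have hun : {z | z ∈ R ∧ |f z - a| < r} =
            {z | z ∈ R ∧ |f z - (a - (r - m))| < m} ∪ {z | z ∈ R ∧ |f z - (a + (r - m))| < m} := by
          ext z
          simp only [mem_ofPred_eq, mem_union, abs_lt]
          constructor
          · rintro ⟨h5, h6, h7⟩
            rcases lt_or_ge (f z) (a - r + 2 * m) with h8 | h8
            · exact Or.inl ⟨h5, by linarith, by linarith⟩
            · exact Or.inr ⟨h5, by linarith, by linarith⟩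
          · rintro (⟨h5, h6, h7⟩ | ⟨h5, h6, h7⟩)
            · exact ⟨h5, by linarith, by linarith⟩
            · exact ⟨h5, by linarith, by linarith⟩
        have s1 : {z | z ∈ R ∧ |f z - (a - (r - m))| < m} ⊆ bx 2 2 := by
          refine subset_trans ?_ h2
          rw [hun]
          exact subset_union_left
        have s2 : {z | z ∈ R ∧ |f z - (a + (r - m))| < m} ⊆ bx 2 2 := by
          refine subset_trans ?_ h2
          rw [hun]
          exact subset_union_right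
        rw [hun]
        refine d3_union W hC (hopen _) (hopen _) (d3_fin s1) (d3_fin s2) ?_
          (ih _ _ hm0 le_rfl s1) (ih _ _ hm0 le_rfl s2)
        obtain ⟨z, hz, hza⟩ := hs a
        refine ⟨z, ⟨hz, ?_⟩, ⟨hz, ?_⟩⟩
        · rw [hza, abs_lt]
          constructor <;> linarith
        · rw [hza, abs_lt]
          constructor <;> linarith
  intro a r h0 h2
  obtain ⟨n, hn⟩ := pow_unbounded_of_one_lt (r / M) (by norm_num : (1 : ℝ) < 3 / 2)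
  refine key n a r h0 ?_ h2
  rw [div_lt_iff₀ hM] at hn
  linarith

theorem good_box {C : ℝ} (hC : 1 ≤ C) (c l : Pt) (h1 : 0 < l.1) (h2 : 0 < l.2.1)
    (h3 : 0 < l.2.2) (hs : Bx c l ⊆ bx 2 2) : Good W C (Bx c l) := by
  obtain ⟨ρ₀, hρ₀, hgs⟩ := good_small W hC
  -- the first half-side
  have b1 : ∀ c l : Pt, 0 < l.1 → 0 < l.2.1 → 0 < l.2.2 → l.2.1 ≤ ρ₀ → l.2.2 ≤ ρ₀ →
      Bx c l ⊆ bx 2 2 → Good W C (Bx c l) := by
    intro c l h1 h2 h3 h4 h5 hs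
    have hR : IsOpen {z : Pt | |z.2.1 - c.2.1| < l.2.1 ∧ |z.2.2 - c.2.2| < l.2.2} :=
      (isOpen_lt (f := fun z : Pt => |z.2.1 - c.2.1|) (g := fun _ => l.2.1) (by fun_prop)
        continuous_const).and (isOpen_lt (f := fun z : Pt => |z.2.2 - c.2.2|)
        (g := fun _ => l.2.2) (by fun_prop) continuous_const)
    have he : ∀ a r : ℝ, {z : Pt | z ∈ {z : Pt | |z.2.1 - c.2.1| < l.2.1 ∧
        |z.2.2 - c.2.2| < l.2.2} ∧ |z.1 - a| < r} = Bx (a, c.2) (r, l.2) := by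
      intro a r
      ext z
      exact ⟨fun h => ⟨h.2, h.1.1, h.1.2⟩, fun h => ⟨⟨h.2.1, h.2.2⟩, h.1⟩⟩
    have h6 := d3_elong W hC (f := fun z : Pt => z.1) continuous_fst hR
      (fun x => ⟨(x, c.2), ⟨by simpa using h2, by simpa using h3⟩, rfl⟩) hρ₀
      (fun a r g1 g2 g3 => by
        rw [he] at g3 ⊢
        exact hgs _ _ g1 h2 h3 g2 h4 h5 g3) c.1 l.1 h1
    rw [he] at h6
    exact h6 hs
  -- the second half-side
  have b2 : ∀ c l : Pt, 0 < l.1 → 0 < l.2.1 → 0 < l.2.2 → l.2.2 ≤ ρ₀ →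
      Bx c l ⊆ bx 2 2 → Good W C (Bx c l) := by
    intro c l h1 h2 h3 h5 hs
    have hR : IsOpen {z : Pt | |z.1 - c.1| < l.1 ∧ |z.2.2 - c.2.2| < l.2.2} :=
      (isOpen_lt (f := fun z : Pt => |z.1 - c.1|) (g := fun _ => l.1) (by fun_prop)
        continuous_const).and (isOpen_lt (f := fun z : Pt => |z.2.2 - c.2.2|)
        (g := fun _ => l.2.2) (by fun_prop) continuous_const)
    have he : ∀ a r : ℝ, {z : Pt | z ∈ {z : Pt | |z.1 - c.1| < l.1 ∧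
        |z.2.2 - c.2.2| < l.2.2} ∧ |z.2.1 - a| < r} = Bx (c.1, (a, c.2.2)) (l.1, (r, l.2.2)) := by
      intro a r
      ext z
      exact ⟨fun h => ⟨h.1.1, h.2, h.1.2⟩, fun h => ⟨⟨h.1, h.2.2⟩, h.2.1⟩⟩
    have h6 := d3_elong W hC (f := fun z : Pt => z.2.1) (by fun_prop) hR
      (fun x => ⟨(c.1, (x, c.2.2)), ⟨by simpa using h1, by simpa using h3⟩, rfl⟩) hρ₀
      (fun a r g1 g2 g3 => by
        rw [he] at g3 ⊢
        exact b1 _ _ h1 g1 h3 g2 h5 g3) c.2.1 l.2.1 h2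
    rw [he] at h6
    exact h6 hs
  have hR : IsOpen {z : Pt | |z.1 - c.1| < l.1 ∧ |z.2.1 - c.2.1| < l.2.1} :=
    (isOpen_lt (f := fun z : Pt => |z.1 - c.1|) (g := fun _ => l.1) (by fun_prop)
      continuous_const).and (isOpen_lt (f := fun z : Pt => |z.2.1 - c.2.1|)
      (g := fun _ => l.2.1) (by fun_prop) continuous_const)
  have he : ∀ a r : ℝ, {z : Pt | z ∈ {z : Pt | |z.1 - c.1| < l.1 ∧
      |z.2.1 - c.2.1| < l.2.1} ∧ |z.2.2 - a| < r} = Bx (c.1, (c.2.1, a)) (l.1, (l.2.1, r)) := by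
    intro a r
    ext z
    exact ⟨fun h => ⟨h.1.1, h.1.2, h.2⟩, fun h => ⟨⟨h.1, h.2.1⟩, h.2.2⟩⟩
  have h6 := d3_elong W hC (f := fun z : Pt => z.2.2) (by fun_prop) hR
    (fun x => ⟨(c.1, (c.2.1, x)), ⟨by simpa using h1, by simpa using h2⟩, rfl⟩) hρ₀
    (fun a r g1 g2 g3 => by
      rw [he] at g3 ⊢
      exact b2 _ _ h1 h2 g1 g2 g3) c.2.2 l.2.2 h3
  rw [he] at h6
  exact h6 hs

private theorem d3_open (c l : Pt) : IsOpen (Bx c l) :=
  (isOpen_lt (f := fun z : Pt => |z.1 - c.1|) (g := fun _ => l.1) (by fun_prop)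
    continuous_const).and ((isOpen_lt (f := fun z : Pt => |z.2.1 - c.2.1|)
    (g := fun _ => l.2.1) (by fun_prop) continuous_const).and (isOpen_lt
      (f := fun z : Pt => |z.2.2 - c.2.2|) (g := fun _ => l.2.2) (by fun_prop) continuous_const))

private theorem d3_ring : Rg =
    ((((Bx (3 / 4, (0, 0)) (1 / 4, (1, 1)) ∪ Bx (0, (0, 7 / 8)) (1, (1, 1 / 8))) ∪
      Bx (-(3 / 4), (0, 0)) (1 / 4, (1, 1))) ∪ Bx (0, (3 / 4, 0)) (1, (1 / 4, 1))) ∪
      Bx (0, (-(3 / 4), 0)) (1, (1 / 4, 1))) ∪ Bx (0, (0, -(7 / 8))) (1, (1, 1 / 8)) := by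
  ext z
  simp only [Rg, bx, Bx, mem_ofPred_eq, mem_union, abs_lt, not_and_or, not_le, lt_abs]
  constructor
  · rintro ⟨⟨⟨a1, a2⟩, ⟨a3, a4⟩, a5, a6⟩, (h | h) | (h | h) | (h | h)⟩
    · left; left; left; left; left
      refine ⟨⟨?_, ?_⟩, ⟨?_, ?_⟩, ?_, ?_⟩ <;> linarith
    · left; left; left; right
      refine ⟨⟨?_, ?_⟩, ⟨?_, ?_⟩, ?_, ?_⟩ <;> linarith
    · left; left; right
      refine ⟨⟨?_, ?_⟩, ⟨?_, ?_⟩, ?_, ?_⟩ <;> linarith
    · left; right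
      refine ⟨⟨?_, ?_⟩, ⟨?_, ?_⟩, ?_, ?_⟩ <;> linarith
    · left; left; left; left; right
      refine ⟨⟨?_, ?_⟩, ⟨?_, ?_⟩, ?_, ?_⟩ <;> linarith
    · right
      refine ⟨⟨?_, ?_⟩, ⟨?_, ?_⟩, ?_, ?_⟩ <;> linarith
  · rintro (((((⟨⟨a1, a2⟩, ⟨a3, a4⟩, a5, a6⟩ | ⟨⟨a1, a2⟩, ⟨a3, a4⟩, a5, a6⟩) |
      ⟨⟨a1, a2⟩, ⟨a3, a4⟩, a5, a6⟩) | ⟨⟨a1, a2⟩, ⟨a3, a4⟩, a5, a6⟩) |
      ⟨⟨a1, a2⟩, ⟨a3, a4⟩, a5, a6⟩) | ⟨⟨a1, a2⟩, ⟨a3, a4⟩, a5, a6⟩)
    · refine ⟨⟨⟨?_, ?_⟩, ⟨?_, ?_⟩, ?_, ?_⟩, Or.inl (Or.inl ?_)⟩ <;> linarith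
    · refine ⟨⟨⟨?_, ?_⟩, ⟨?_, ?_⟩, ?_, ?_⟩, Or.inr (Or.inr (Or.inl ?_))⟩ <;> linarith
    · refine ⟨⟨⟨?_, ?_⟩, ⟨?_, ?_⟩, ?_, ?_⟩, Or.inl (Or.inr ?_)⟩ <;> linarith
    · refine ⟨⟨⟨?_, ?_⟩, ⟨?_, ?_⟩, ?_, ?_⟩, Or.inr (Or.inl (Or.inl ?_))⟩ <;> linarith
    · refine ⟨⟨⟨?_, ?_⟩, ⟨?_, ?_⟩, ?_, ?_⟩, Or.inr (Or.inl (Or.inr ?_))⟩ <;> linarith
    · refine ⟨⟨⟨?_, ?_⟩, ⟨?_, ?_⟩, ?_, ?_⟩, Or.inr (Or.inr (Or.inr ?_))⟩ <;> linarith

theorem good_ring {C : ℝ} (hC : 1 ≤ C) : Good W C Rg := by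
  have hbox : ∀ a b c r s t : ℝ, 0 < r → 0 < s → 0 < t → |a| + r ≤ 2 → |b| + s ≤ 2 →
      |c| + t ≤ 2 → Bx (a, (b, c)) (r, (s, t)) ⊆ bx 2 2 ∧
        Good W C (Bx (a, (b, c)) (r, (s, t))) := by
    intro a b c r s t hr hs ht h1 h2 h3
    have hsub : Bx (a, (b, c)) (r, (s, t)) ⊆ bx 2 2 := by
      intro z hz
      obtain ⟨g1, g2, g3⟩ := hz
      dsimp only at g1 g2 g3
      refine ⟨?_, ?_, ?_⟩
      · have := abs_sub_abs_le_abs_sub z.1 a
        linarith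
      · have := abs_sub_abs_le_abs_sub z.2.1 b
        linarith
      · have := abs_sub_abs_le_abs_sub z.2.2 c
        linarith
    exact ⟨hsub, good_box W hC _ _ hr hs ht hsub⟩
  have k1 := hbox (3 / 4) 0 0 (1 / 4) 1 1 (by norm_num) (by norm_num) (by norm_num)
    (by norm_num [abs_of_pos]) (by norm_num) (by norm_num)
  have k2 := hbox 0 0 (7 / 8) 1 1 (1 / 8) (by norm_num) (by norm_num) (by norm_num)
    (by norm_num) (by norm_num) (by norm_num [abs_of_pos])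
  have k3 := hbox (-(3 / 4)) 0 0 (1 / 4) 1 1 (by norm_num) (by norm_num) (by norm_num)
    (by rw [abs_neg]; norm_num [abs_of_pos]) (by norm_num) (by norm_num)
  have k4 := hbox 0 (3 / 4) 0 1 (1 / 4) 1 (by norm_num) (by norm_num) (by norm_num)
    (by norm_num) (by norm_num [abs_of_pos]) (by norm_num)
  have k5 := hbox 0 (-(3 / 4)) 0 1 (1 / 4) 1 (by norm_num) (by norm_num) (by norm_num)
    (by norm_num) (by rw [abs_neg]; norm_num [abs_of_pos]) (by norm_num)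
  have k6 := hbox 0 0 (-(7 / 8)) 1 1 (1 / 8) (by norm_num) (by norm_num) (by norm_num)
    (by norm_num) (by norm_num) (by rw [abs_neg]; norm_num [abs_of_pos])
  have step : ∀ S T : Set Pt, IsOpen S → IsOpen T → S ⊆ bx 2 2 ∧ Good W C S →
      T ⊆ bx 2 2 ∧ Good W C T → (S ∩ T).Nonempty → S ∪ T ⊆ bx 2 2 ∧ Good W C (S ∪ T) := by
    intro S T hS hT h1 h2 h3
    exact ⟨union_subset h1.1 h2.1,
      d3_union W hC hS hT (d3_fin h1.1) (d3_fin h2.1) h3 h1.2 h2.2⟩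
  have o := d3_open
  rw [d3_ring]
  have u2 := step _ _ (o _ _) (o _ _) k1 k2 ⟨(3 / 4, (0, 7 / 8)), by
    constructor <;> · refine ⟨?_, ?_, ?_⟩ <;> norm_num [abs_lt]⟩
  have u3 := step _ _ ((o _ _).union (o _ _)) (o _ _) u2 k3 ⟨(-(3 / 4), (0, 7 / 8)), by
    constructor
    · right
      refine ⟨?_, ?_, ?_⟩ <;> norm_num [abs_lt]
    · refine ⟨?_, ?_, ?_⟩ <;> norm_num [abs_lt]⟩
  have u4 := step _ _ (((o _ _).union (o _ _)).union (o _ _)) (o _ _) u3 k4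
    ⟨(0, (3 / 4, 7 / 8)), by
      constructor
      · left; right
        refine ⟨?_, ?_, ?_⟩ <;> norm_num [abs_lt]
      · refine ⟨?_, ?_, ?_⟩ <;> norm_num [abs_lt]⟩
  have u5 := step _ _ ((((o _ _).union (o _ _)).union (o _ _)).union (o _ _)) (o _ _) u4 k5
    ⟨(0, (-(3 / 4), 7 / 8)), by
      constructor
      · left; left; right
        refine ⟨?_, ?_, ?_⟩ <;> norm_num [abs_lt]
      · refine ⟨?_, ?_, ?_⟩ <;> norm_num [abs_lt]⟩
  have u6 := step _ _ (((((o _ _).union (o _ _)).union (o _ _)).union (o _ _)).union (o _ _))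
    (o _ _) u5 k6 ⟨(3 / 4, (0, -(7 / 8))), by
      constructor
      · left; left; left; left
        refine ⟨?_, ?_, ?_⟩ <;> norm_num [abs_lt]
      · refine ⟨?_, ?_, ?_⟩ <;> norm_num [abs_lt]⟩
  exact u6.2

end PLH
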