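import Pool.Agent.Lib.PLH.T1

/-!
MODULE P0 (300 lines). Cut-off functions.

With `st = Real.smoothTransition` (smooth, `0` for `x ≤ 0`, `1` for `x ≥ 1`; `st'`, `st''` are
continuous with compact support, so bounded): for `0 < κ ≤ h` let
`γ_{h,κ}(t) = st((h-t)/κ) st((h+t)/κ)`: it is `1` for `|t| ≤ h-κ`, `0` for `|t| ≥ h`,
`|γ'| ≤ M/κ`, `|γ''| ≤ M/κ²`. `cut_tall`: `η(x,y,t) = γ_{ρ,ρ/2}(x) γ_{ρ,ρ/2}(y) γ_{h,κ}(t)`. Then
`Xη = ∂xη - (y/2)∂tη`, `|y| ≤ ρ` on the support, so `|Xη| ≤ M'(ρ⁻¹ 1_lat + ρ/κ)` and similarly for the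
second derivatives of `θ = η²`: `XXθ = ∂xxθ - y ∂x∂tθ + (y²/4)∂ttθ`,
`XYθ = ∂x∂yθ + (1/2)∂tθ + (x/2)∂x∂tθ - (y/2)∂y∂tθ - (xy/4)∂ttθ`, `YXθ = XYθ - ∂tθ`, ...; the terms
with two derivatives in `x,y` are `O(ρ⁻²)` and live on `lat`, those with one are multiplied by
`x` or `y`: `ρ ρ⁻¹ κ⁻¹`, the others `O(κ⁻¹)`, `O(ρ² κ⁻²)`. As `ρ, κ ≤ 1` everything is
`≤ M''(ρ⁻² 1_lat + κ⁻²)` on `bx ρ h` and `0` outside the box (a smooth function which vanishes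
outside an open set has vanishing derivatives there).
`cut_std`: `η(x,y,t) = γ_{R,1}(x) γ_{R,1}(y) γ_{H,H'}(t)` for the pairs `(R,H) = (4,16)`, `(3,9)` and
`H' = 7`, `5`; all derivatives of a smooth function with compact support are bounded.
-/

open MeasureTheory Set Filter Topology
open scoped ContDiff ENNReal

namespace PLH

/-- The closed box. -/
def cbx (ρ h : ℝ) : Set Pt := {z | |z.1| ≤ ρ ∧ |z.2.1| ≤ ρ ∧ |z.2.2| ≤ h}

/-! ### One variable -/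

private theorem P0_st_bd : ∃ M : ℝ, 0 ≤ M ∧ (∀ x, |deriv Real.smoothTransition x| ≤ M) ∧
    (∀ x, |deriv (deriv Real.smoothTransition) x| ≤ M) := by
  have hs : ContDiff ℝ ∞ Real.smoothTransition := Real.smoothTransition.contDiff
  have h1 : HasCompactSupport (deriv Real.smoothTransition) := by
    refine HasCompactSupport.intro (isCompact_Icc (a := (0:ℝ)) (b := 1)) ?_
    intro x hx
    rw [mem_Icc, not_and_or, not_le, not_le] at hx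
    rcases hx with hx | hx
    · have : Real.smoothTransition =ᶠ[𝓝 x] fun _ => (0:ℝ) := by
        filter_upwards [Iio_mem_nhds hx] with y hy
        exact Real.smoothTransition.zero_of_nonpos (le_of_lt hy)
      rw [this.deriv_eq]; simp
    · have : Real.smoothTransition =ᶠ[𝓝 x] fun _ => (1:ℝ) := by
        filter_upwards [Ioi_mem_nhds hx] with y hy
        exact Real.smoothTransition.one_of_one_le (le_of_lt hy)
      rw [this.deriv_eq]; simp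
  have h2 : HasCompactSupport (deriv (deriv Real.smoothTransition)) := h1.deriv
  have hd : ContDiff ℝ ∞ (deriv Real.smoothTransition) := by
    have := (contDiff_infty_iff_deriv.1 hs).2
    exact this
  have hdd : ContDiff ℝ ∞ (deriv (deriv Real.smoothTransition)) :=
    (contDiff_infty_iff_deriv.1 hd).2
  obtain ⟨C1, hC1⟩ := hd.continuous.bounded_above_of_compact_support h1
  obtain ⟨C2, hC2⟩ := hdd.continuous.bounded_above_of_compact_support h2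
  refine ⟨max 0 (max C1 C2), le_max_left _ _, fun x => ?_, fun x => ?_⟩
  · exact (hC1 x).trans ((le_max_left _ _).trans (le_max_right _ _))
  · exact (hC2 x).trans ((le_max_right _ _).trans (le_max_right _ _))

private noncomputable def P0_gam (h κ t : ℝ) : ℝ :=
  Real.smoothTransition ((h - t) / κ) * Real.smoothTransition ((h + t) / κ)

private theorem P0_gam_smooth (h κ : ℝ) : ContDiff ℝ ∞ (P0_gam h κ) := by
  have hs : ContDiff ℝ ∞ Real.smoothTransition := Real.smoothTransition.contDiff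
  unfold P0_gam
  exact (hs.comp ((contDiff_const.sub contDiff_id).div_const κ)).mul
    (hs.comp ((contDiff_const.add contDiff_id).div_const κ))

private theorem P0_gam_nonneg (h κ t : ℝ) : 0 ≤ P0_gam h κ t :=
  mul_nonneg (Real.smoothTransition.nonneg _) (Real.smoothTransition.nonneg _)

private theorem P0_gam_le (h κ t : ℝ) : P0_gam h κ t ≤ 1 :=
  mul_le_one₀ (Real.smoothTransition.le_one _) (Real.smoothTransition.nonneg _)
    (Real.smoothTransition.le_one _)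

private theorem P0_gam_one {h κ t : ℝ} (hκ : 0 < κ) (ht : |t| ≤ h - κ) : P0_gam h κ t = 1 := by
  have h1 := abs_le.1 ht
  unfold P0_gam
  rw [Real.smoothTransition.one_of_one_le, Real.smoothTransition.one_of_one_le, one_mul]
  · rw [le_div_iff₀ hκ]; linarith [h1.1]
  · rw [le_div_iff₀ hκ]; linarith [h1.2]

private theorem P0_gam_zero {h κ t : ℝ} (hκ : 0 < κ) (ht : h ≤ |t|) : P0_gam h κ t = 0 := by
  unfold P0_gam
  rcases le_abs.1 ht with h1 | h1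
  · rw [Real.smoothTransition.zero_of_nonpos (x := (h - t) / κ), zero_mul]
    exact div_nonpos_of_nonpos_of_nonneg (by linarith) hκ.le
  · rw [Real.smoothTransition.zero_of_nonpos (x := (h + t) / κ), mul_zero]
    exact div_nonpos_of_nonpos_of_nonneg (by linarith) hκ.le

private theorem P0_gam_bd : ∃ N : ℝ, 0 ≤ N ∧ ∀ h κ : ℝ, 0 < κ → ∀ t : ℝ,
    |deriv (P0_gam h κ) t| ≤ N * κ⁻¹ ∧
    |deriv (fun s => P0_gam h κ s ^ 2) t| ≤ N * κ⁻¹ ∧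
    |deriv (deriv (fun s => P0_gam h κ s ^ 2)) t| ≤ N * (κ ^ 2)⁻¹ := by
  obtain ⟨M, hM0, hM1, hM2⟩ := P0_st_bd
  refine ⟨4 * M + 12 * M ^ 2, by positivity, ?_⟩
  intro h κ hκ t
  have hs : ContDiff ℝ ∞ Real.smoothTransition := Real.smoothTransition.contDiff
  have hd : ContDiff ℝ ∞ (deriv Real.smoothTransition) := (contDiff_infty_iff_deriv.1 hs).2
  set σ := Real.smoothTransition with hσ
  have hσ1 : ∀ x, HasDerivAt σ (deriv σ x) x := fun x =>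
    ((hs.differentiable (by simp)) x).hasDerivAt
  have hσ2 : ∀ x, HasDerivAt (deriv σ) (deriv (deriv σ) x) x := fun x =>
    ((hd.differentiable (by simp)) x).hasDerivAt
  have hu : ∀ s, HasDerivAt (fun s : ℝ => (h - s) / κ) (-κ⁻¹) s := by
    intro s
    have := ((hasDerivAt_id s).const_sub h).div_const κ
    simpa [neg_div, one_div] using this
  have hv : ∀ s, HasDerivAt (fun s : ℝ => (h + s) / κ) (κ⁻¹) s := by
    intro s
    have := ((hasDerivAt_id s).const_add h).div_const κ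
    simpa [one_div] using this
  have g1 : ∀ s, HasDerivAt (P0_gam h κ)
      (deriv σ ((h - s) / κ) * (-κ⁻¹) * σ ((h + s) / κ) +
        σ ((h - s) / κ) * (deriv σ ((h + s) / κ) * κ⁻¹)) s := by
    intro s
    exact ((hσ1 _).comp s (hu s)).mul ((hσ1 _).comp s (hv s))
  have g1' : deriv (P0_gam h κ) = fun s => deriv σ ((h - s) / κ) * (-κ⁻¹) * σ ((h + s) / κ) +
        σ ((h - s) / κ) * (deriv σ ((h + s) / κ) * κ⁻¹) := funext fun s => (g1 s).deriv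
  have g2 : ∀ s, HasDerivAt (deriv (P0_gam h κ))
      ((deriv (deriv σ) ((h - s) / κ) * (-κ⁻¹) * (-κ⁻¹)) * σ ((h + s) / κ) +
        (deriv σ ((h - s) / κ) * (-κ⁻¹)) * (deriv σ ((h + s) / κ) * κ⁻¹) +
        ((deriv σ ((h - s) / κ) * (-κ⁻¹)) * (deriv σ ((h + s) / κ) * κ⁻¹) +
          σ ((h - s) / κ) * (deriv (deriv σ) ((h + s) / κ) * κ⁻¹ * κ⁻¹))) s := by
    intro s
    rw [g1']
    exact ((((hσ2 _).comp s (hu s)).mul_const (-κ⁻¹)).mul ((hσ1 _).comp s (hv s))).add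
      (((hσ1 _).comp s (hu s)).mul (((hσ2 _).comp s (hv s)).mul_const κ⁻¹))
  have b0 : ∀ x, |σ x| ≤ 1 := by
    intro x
    rw [abs_of_nonneg (Real.smoothTransition.nonneg _)]
    exact Real.smoothTransition.le_one _
  have hκi : 0 < κ⁻¹ := inv_pos.2 hκ
  have B1 : ∀ s, |deriv (P0_gam h κ) s| ≤ 2 * M * κ⁻¹ := by
    intro s
    rw [(g1 s).deriv]
    refine (abs_add_le _ _).trans ?_
    rw [abs_mul, abs_mul, abs_mul, abs_mul, abs_neg, abs_of_pos hκi]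
    have e1 : |deriv σ ((h - s) / κ)| * κ⁻¹ * |σ ((h + s) / κ)| ≤ M * κ⁻¹ * 1 := by
      gcongr
      · exact hM1 _
      · exact b0 _
    have e2 : |σ ((h - s) / κ)| * (|deriv σ ((h + s) / κ)| * κ⁻¹) ≤ 1 * (M * κ⁻¹) := by
      gcongr
      · exact b0 _
      · exact hM1 _
    linarith
  have B2 : ∀ s, |deriv (deriv (P0_gam h κ)) s| ≤ (2 * M + 2 * M ^ 2) * (κ ^ 2)⁻¹ := by
    intro s
    rw [(g2 s).deriv]
    have hk2 : (κ ^ 2)⁻¹ = κ⁻¹ * κ⁻¹ := by rw [sq, mul_inv]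
    rw [hk2]
    refine (abs_add_le _ _).trans ?_
    have e1 : |(deriv (deriv σ) ((h - s) / κ) * (-κ⁻¹) * (-κ⁻¹)) * σ ((h + s) / κ)| ≤
        M * κ⁻¹ * κ⁻¹ * 1 := by
      rw [abs_mul, abs_mul, abs_mul, abs_neg, abs_of_pos hκi]
      gcongr
      · exact hM2 _
      · exact b0 _
    have e2 : |(deriv σ ((h - s) / κ) * (-κ⁻¹)) * (deriv σ ((h + s) / κ) * κ⁻¹)| ≤
        (M * κ⁻¹) * (M * κ⁻¹) := by
      rw [abs_mul, abs_mul, abs_mul, abs_neg, abs_of_pos hκi]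
      gcongr
      · exact hM1 _
      · exact hM1 _
    have e3 : |σ ((h - s) / κ) * (deriv (deriv σ) ((h + s) / κ) * κ⁻¹ * κ⁻¹)| ≤
        1 * (M * κ⁻¹ * κ⁻¹) := by
      rw [abs_mul, abs_mul, abs_mul, abs_of_pos hκi]
      gcongr
      · exact b0 _
      · exact hM2 _
    have e4 := abs_add_le ((deriv (deriv σ) ((h - s) / κ) * (-κ⁻¹) * (-κ⁻¹)) * σ ((h + s) / κ))
      ((deriv σ ((h - s) / κ) * (-κ⁻¹)) * (deriv σ ((h + s) / κ) * κ⁻¹))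
    have e5 := abs_add_le ((deriv σ ((h - s) / κ) * (-κ⁻¹)) * (deriv σ ((h + s) / κ) * κ⁻¹))
      (σ ((h - s) / κ) * (deriv (deriv σ) ((h + s) / κ) * κ⁻¹ * κ⁻¹))
    nlinarith
  have g3 : ∀ s, HasDerivAt (fun s => P0_gam h κ s ^ 2)
      (2 * P0_gam h κ s * deriv (P0_gam h κ) s) s := by
    intro s
    have := ((g1 s).differentiableAt.hasDerivAt).pow 2
    refine this.congr_deriv ?_
    simp
  have g3' : deriv (fun s => P0_gam h κ s ^ 2) =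
      fun s => 2 * P0_gam h κ s * deriv (P0_gam h κ) s := funext fun s => (g3 s).deriv
  have g4 : ∀ s, HasDerivAt (deriv (fun s => P0_gam h κ s ^ 2))
      ((2 * deriv (P0_gam h κ) s) * deriv (P0_gam h κ) s +
        (2 * P0_gam h κ s) * deriv (deriv (P0_gam h κ)) s) s := by
    intro s
    rw [g3']
    exact (((g1 s).differentiableAt.hasDerivAt).const_mul 2).mul
      ((g2 s).differentiableAt.hasDerivAt)
  have b1 : ∀ s, |P0_gam h κ s| ≤ 1 := fun s => by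
    rw [abs_of_nonneg (P0_gam_nonneg _ _ _)]; exact P0_gam_le _ _ _
  refine ⟨?_, ?_, ?_⟩
  · refine (B1 t).trans ?_
    nlinarith [mul_nonneg hM0 hκi.le, mul_nonneg (sq_nonneg M) hκi.le]
  · rw [(g3 t).deriv, abs_mul, abs_mul, abs_two]
    have : 2 * |P0_gam h κ t| * |deriv (P0_gam h κ) t| ≤ 2 * 1 * (2 * M * κ⁻¹) := by
      gcongr
      · exact b1 t
      · exact B1 t
    refine this.trans ?_
    nlinarith [mul_nonneg hM0 hκi.le, mul_nonneg (sq_nonneg M) hκi.le]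
  · rw [(g4 t).deriv]
    refine (abs_add_le _ _).trans ?_
    rw [abs_mul, abs_mul, abs_mul, abs_mul, abs_two]
    have e1 : 2 * |deriv (P0_gam h κ) t| * |deriv (P0_gam h κ) t| ≤
        2 * (2 * M * κ⁻¹) * (2 * M * κ⁻¹) := by
      gcongr
      · exact B1 t
      · exact B1 t
    have e2 : 2 * |P0_gam h κ t| * |deriv (deriv (P0_gam h κ)) t| ≤
        2 * 1 * ((2 * M + 2 * M ^ 2) * (κ ^ 2)⁻¹) := by
      gcongr
      · exact b1 t
      · exact B2 t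
    have hk2 : (κ ^ 2)⁻¹ = κ⁻¹ * κ⁻¹ := by rw [sq, mul_inv]
    rw [hk2] at e2 ⊢
    nlinarith [e1, e2]

/-! ### Products -/

private noncomputable def P0_P (f g h : ℝ → ℝ) (z : Pt) : ℝ := f z.1 * g z.2.1 * h z.2.2

private theorem P0_P_smooth {f g h : ℝ → ℝ} (hf : ContDiff ℝ ∞ f) (hg : ContDiff ℝ ∞ g)
    (hh : ContDiff ℝ ∞ h) : ContDiff ℝ ∞ (P0_P f g h) := by
  unfold P0_P
  exact ((hf.comp contDiff_fst).mul (hg.comp (contDiff_fst.comp contDiff_snd))).mul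
    (hh.comp (contDiff_snd.comp contDiff_snd))

private theorem P0_der {f g h : ℝ → ℝ} (hf : ContDiff ℝ ∞ f) (hg : ContDiff ℝ ∞ g)
    (hh : ContDiff ℝ ∞ h) (F : VF) (z : Pt) : der F (P0_P f g h) z =
      deriv f z.1 * g z.2.1 * h z.2.2 * F.al + f z.1 * deriv g z.2.1 * h z.2.2 * F.be +
      f z.1 * g z.2.1 * deriv h z.2.2 * (F.ga + F.k1 * z.1 + F.k2 * z.2.1) := by
  have h1 : HasFDerivAt (fun z : Pt => f z.1)
      (deriv f z.1 • (ContinuousLinearMap.fst ℝ ℝ (ℝ × ℝ))) z :=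
    (((hf.differentiable (by simp)) z.1).hasDerivAt).comp_hasFDerivAt z hasFDerivAt_fst
  have h2 : HasFDerivAt (fun z : Pt => g z.2.1)
      (deriv g z.2.1 • ((ContinuousLinearMap.fst ℝ ℝ ℝ).comp
        (ContinuousLinearMap.snd ℝ ℝ (ℝ × ℝ)))) z :=
    (((hg.differentiable (by simp)) z.2.1).hasDerivAt).comp_hasFDerivAt z
      (hasFDerivAt_fst.comp z hasFDerivAt_snd)
  have h3 : HasFDerivAt (fun z : Pt => h z.2.2)
      (deriv h z.2.2 • ((ContinuousLinearMap.snd ℝ ℝ ℝ).comp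
        (ContinuousLinearMap.snd ℝ ℝ (ℝ × ℝ)))) z :=
    (((hh.differentiable (by simp)) z.2.2).hasDerivAt).comp_hasFDerivAt z
      (hasFDerivAt_snd.comp z hasFDerivAt_snd)
  have h4 := (h1.mul h2).mul h3
  have h5 : fderiv ℝ (P0_P f g h) z = _ := h4.fderiv
  unfold der
  rw [h5]
  simp [VF.v]
  ring

private theorem P0_derX {f g h : ℝ → ℝ} (hf : ContDiff ℝ ∞ f) (hg : ContDiff ℝ ∞ g)
    (hh : ContDiff ℝ ∞ h) : der vX (P0_P f g h) = fun z =>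
      P0_P (deriv f) g h z - 1 / 2 * P0_P f (fun y => y * g y) (deriv h) z := by
  funext z
  rw [P0_der hf hg hh]
  simp only [vX, P0_P]
  ring

private theorem P0_derY {f g h : ℝ → ℝ} (hf : ContDiff ℝ ∞ f) (hg : ContDiff ℝ ∞ g)
    (hh : ContDiff ℝ ∞ h) : der vY (P0_P f g h) = fun z =>
      P0_P f (deriv g) h z + 1 / 2 * P0_P (fun x => x * f x) g (deriv h) z := by
  funext z
  rw [P0_der hf hg hh]
  simp only [vY, P0_P]
  ring

private theorem P0_derT {f g h : ℝ → ℝ} (hf : ContDiff ℝ ∞ f) (hg : ContDiff ℝ ∞ g)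
    (hh : ContDiff ℝ ∞ h) : der vT (P0_P f g h) = P0_P f g (deriv h) := by
  funext z
  rw [P0_der hf hg hh]
  simp only [vT, P0_P]
  ring

private theorem P0_der_sub (F : VF) {φ ψ : Pt → ℝ} (hφ : ContDiff ℝ ∞ φ) (hψ : ContDiff ℝ ∞ ψ)
    (c : ℝ) (z : Pt) :
    der F (fun w => φ w - c * ψ w) z = der F φ z - c * der F ψ z := by
  have h1 := ((hφ.differentiable (by simp)) z).hasFDerivAt
  have h2 := ((hψ.differentiable (by simp)) z).hasFDerivAt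
  have h3 := h1.sub (h2.const_mul c)
  have h4 : fderiv ℝ (fun w => φ w - c * ψ w) z = _ := h3.fderiv
  unfold der
  rw [h4]
  simp

private theorem P0_der_add (F : VF) {φ ψ : Pt → ℝ} (hφ : ContDiff ℝ ∞ φ) (hψ : ContDiff ℝ ∞ ψ)
    (c : ℝ) (z : Pt) :
    der F (fun w => φ w + c * ψ w) z = der F φ z + c * der F ψ z := by
  have h1 := ((hφ.differentiable (by simp)) z).hasFDerivAt
  have h2 := ((hψ.differentiable (by simp)) z).hasFDerivAt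
  have h3 := h1.add (h2.const_mul c)
  have h4 : fderiv ℝ (fun w => φ w + c * ψ w) z = _ := h3.fderiv
  unfold der
  rw [h4]
  simp

private theorem P0_deriv_smooth {f : ℝ → ℝ} (hf : ContDiff ℝ ∞ f) : ContDiff ℝ ∞ (deriv f) :=
  (contDiff_infty_iff_deriv.1 hf).2

private theorem P0_id_mul_smooth {f : ℝ → ℝ} (hf : ContDiff ℝ ∞ f) :
    ContDiff ℝ ∞ (fun x => x * f x) := contDiff_id.mul hf

private theorem P0_deriv_id_mul {f : ℝ → ℝ} (hf : ContDiff ℝ ∞ f) (x : ℝ) :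
    deriv (fun x => x * f x) x = f x + x * deriv f x := by
  have := (hasDerivAt_id x).mul ((hf.differentiable (by simp) x).hasDerivAt)
  have h2 := this.deriv
  simp only [id, one_mul] at h2
  exact h2

private theorem P0_tri {u v w U V W : ℝ} (hu : |u| ≤ U) (hv : |v| ≤ V) (hw : |w| ≤ W) :
    |u * v * w| ≤ U * V * W := by
  rw [abs_mul, abs_mul]
  have hU : 0 ≤ U := (abs_nonneg _).trans hu
  have hV : 0 ≤ V := (abs_nonneg _).trans hv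
  gcongr

private theorem P0_wt_le {f g h : ℝ → ℝ} (hf : ContDiff ℝ ∞ f) (hg : ContDiff ℝ ∞ g)
    (hh : ContDiff ℝ ∞ h) {ρ a b c d : ℝ} (z : Pt) (hx : |z.1| ≤ ρ)
    (hy : |z.2.1| ≤ ρ)
    (f0 : |f z.1| ≤ 1) (g0 : |g z.2.1| ≤ 1) (h0 : |h z.2.2| ≤ 1)
    (f1 : |deriv f z.1| ≤ a) (g1 : |deriv g z.2.1| ≤ a) (h1 : |deriv h z.2.2| ≤ c)
    (F1 : |deriv (fun s => f s ^ 2) z.1| ≤ a) (G1 : |deriv (fun s => g s ^ 2) z.2.1| ≤ a)
    (H1 : |deriv (fun s => h s ^ 2) z.2.2| ≤ c)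
    (F2 : |deriv (deriv (fun s => f s ^ 2)) z.1| ≤ b)
    (G2 : |deriv (deriv (fun s => g s ^ 2)) z.2.1| ≤ b)
    (H2 : |deriv (deriv (fun s => h s ^ 2)) z.2.2| ≤ d) :
    wt (P0_P f g h) z ≤ 2 * b + 4 * a ^ 2 + 6 * (ρ * a * c) + 2 * c + ρ ^ 2 * d +
      1 / 2 * (ρ ^ 2 * c ^ 2) := by
  have hFs : ContDiff ℝ ∞ (fun s => f s ^ 2) := hf.pow 2
  have hGs : ContDiff ℝ ∞ (fun s => g s ^ 2) := hg.pow 2
  have hHs : ContDiff ℝ ∞ (fun s => h s ^ 2) := hh.pow 2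
  have F0 : |(fun s => f s ^ 2) z.1| ≤ 1 := by
    show |f z.1 ^ 2| ≤ 1
    rw [abs_pow]; exact pow_le_one₀ (abs_nonneg _) f0
  have G0 : |(fun s => g s ^ 2) z.2.1| ≤ 1 := by
    show |g z.2.1 ^ 2| ≤ 1
    rw [abs_pow]; exact pow_le_one₀ (abs_nonneg _) g0
  have H0 : |(fun s => h s ^ 2) z.2.2| ≤ 1 := by
    show |h z.2.2 ^ 2| ≤ 1
    rw [abs_pow]; exact pow_le_one₀ (abs_nonneg _) h0
  have hθ : (fun w => P0_P f g h w ^ 2) =
      P0_P (fun s => f s ^ 2) (fun s => g s ^ 2) (fun s => h s ^ 2) := by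
    funext w; simp only [P0_P]; ring
  unfold wt
  rw [hθ]
  generalize (fun s => f s ^ 2) = F at *
  generalize (fun s => g s ^ 2) = G at *
  generalize (fun s => h s ^ 2) = H at *
  have hF' := P0_deriv_smooth hFs
  have hG' := P0_deriv_smooth hGs
  have hH' := P0_deriv_smooth hHs
  have hxF := P0_id_mul_smooth hFs
  have hyG := P0_id_mul_smooth hGs
  have hρ : 0 ≤ ρ := (abs_nonneg _).trans hx
  have ha : 0 ≤ a := (abs_nonneg _).trans f1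
  have hc : 0 ≤ c := (abs_nonneg _).trans h1
  have mulx : ∀ {u U : ℝ}, |u| ≤ U → |z.1 * u| ≤ ρ * U := by
    intro u U hu
    rw [abs_mul]; gcongr
  have muly : ∀ {u U : ℝ}, |u| ≤ U → |z.2.1 * u| ≤ ρ * U := by
    intro u U hu
    rw [abs_mul]; gcongr
  have dxF : |deriv (fun x => x * F x) z.1| ≤ 1 + ρ * a := by
    rw [P0_deriv_id_mul hFs]
    exact (abs_add_le _ _).trans (add_le_add F0 (mulx F1))
  have dyG : |deriv (fun x => x * G x) z.2.1| ≤ 1 + ρ * a := by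
    rw [P0_deriv_id_mul hGs]
    exact (abs_add_le _ _).trans (add_le_add G0 (muly G1))
  -- XX
  have e1 : |der vX (der vX (P0_P F G H)) z| ≤ b + ρ * a * c + 1 / 4 * (ρ ^ 2 * d) := by
    rw [P0_derX hFs hGs hHs,
      P0_der_sub vX (P0_P_smooth hF' hGs hHs) (P0_P_smooth hFs hyG hH'),
      P0_derX hF' hGs hHs, P0_derX hFs hyG hH']
    have t1 : |P0_P (deriv (deriv F)) G H z| ≤ b * 1 * 1 := P0_tri F2 G0 H0
    have t2 : |P0_P (deriv F) (fun y => y * G y) (deriv H) z| ≤ a * (ρ * 1) * c :=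
      P0_tri F1 (muly G0) H1
    have t3 : |P0_P F (fun y => y * (y * G y)) (deriv (deriv H)) z| ≤ 1 * (ρ * (ρ * 1)) * d :=
      P0_tri F0 (muly (muly G0)) H2
    rw [abs_le] at t1 t2 t3 ⊢
    constructor <;> nlinarith [t1.1, t1.2, t2.1, t2.2, t3.1, t3.2]
  have e2 : |der vX (der vY (P0_P F G H)) z| ≤
      a ^ 2 + ρ * a * c + 1 / 2 * c + 1 / 4 * (ρ ^ 2 * d) := by
    rw [P0_derY hFs hGs hHs,
      P0_der_add vX (P0_P_smooth hFs hG' hHs) (P0_P_smooth hxF hGs hH'),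
      P0_derX hFs hG' hHs, P0_derX hxF hGs hH']
    have t1 : |P0_P (deriv F) (deriv G) H z| ≤ a * a * 1 := P0_tri F1 G1 H0
    have t2 : |P0_P F (fun y => y * deriv G y) (deriv H) z| ≤ 1 * (ρ * a) * c :=
      P0_tri F0 (muly G1) H1
    have t3 : |P0_P (deriv (fun x => x * F x)) G (deriv H) z| ≤ (1 + ρ * a) * 1 * c :=
      P0_tri dxF G0 H1
    have t4 : |P0_P (fun x => x * F x) (fun y => y * G y) (deriv (deriv H)) z| ≤
      (ρ * 1) * (ρ * 1) * d := P0_tri (mulx F0) (muly G0) H2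
    rw [abs_le] at t1 t2 t3 t4 ⊢
    constructor <;> nlinarith [t1.1, t1.2, t2.1, t2.2, t3.1, t3.2, t4.1, t4.2]
  have e3 : |der vY (der vX (P0_P F G H)) z| ≤
      a ^ 2 + ρ * a * c + 1 / 2 * c + 1 / 4 * (ρ ^ 2 * d) := by
    rw [P0_derX hFs hGs hHs,
      P0_der_sub vY (P0_P_smooth hF' hGs hHs) (P0_P_smooth hFs hyG hH'),
      P0_derY hF' hGs hHs, P0_derY hFs hyG hH']
    have t1 : |P0_P (deriv F) (deriv G) H z| ≤ a * a * 1 := P0_tri F1 G1 H0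
    have t2 : |P0_P (fun x => x * deriv F x) G (deriv H) z| ≤ (ρ * a) * 1 * c :=
      P0_tri (mulx F1) G0 H1
    have t3 : |P0_P F (deriv (fun x => x * G x)) (deriv H) z| ≤ 1 * (1 + ρ * a) * c :=
      P0_tri F0 dyG H1
    have t4 : |P0_P (fun x => x * F x) (fun y => y * G y) (deriv (deriv H)) z| ≤
      (ρ * 1) * (ρ * 1) * d := P0_tri (mulx F0) (muly G0) H2
    rw [abs_le] at t1 t2 t3 t4 ⊢
    constructor <;> nlinarith [t1.1, t1.2, t2.1, t2.2, t3.1, t3.2, t4.1, t4.2]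
  have e4 : |der vY (der vY (P0_P F G H)) z| ≤ b + ρ * a * c + 1 / 4 * (ρ ^ 2 * d) := by
    rw [P0_derY hFs hGs hHs,
      P0_der_add vY (P0_P_smooth hFs hG' hHs) (P0_P_smooth hxF hGs hH'),
      P0_derY hFs hG' hHs, P0_derY hxF hGs hH']
    have t1 : |P0_P F (deriv (deriv G)) H z| ≤ 1 * b * 1 := P0_tri F0 G2 H0
    have t2 : |P0_P (fun x => x * F x) (deriv G) (deriv H) z| ≤ (ρ * 1) * a * c :=
      P0_tri (mulx F0) G1 H1
    have t3 : |P0_P (fun x => x * (x * F x)) G (deriv (deriv H)) z| ≤ (ρ * (ρ * 1)) * 1 * d :=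
      P0_tri (mulx (mulx F0)) G0 H2
    rw [abs_le] at t1 t2 t3 ⊢
    constructor <;> nlinarith [t1.1, t1.2, t2.1, t2.2, t3.1, t3.2]
  have e5 : (der vX (P0_P f g h) z) ^ 2 ≤ (a + 1 / 2 * (ρ * c)) ^ 2 := by
    rw [← sq_abs]
    refine pow_le_pow_left₀ (abs_nonneg _) ?_ 2
    rw [P0_derX hf hg hh]
    have t1 : |P0_P (deriv f) g h z| ≤ a * 1 * 1 := P0_tri f1 g0 h0
    have t2 : |P0_P f (fun y => y * g y) (deriv h) z| ≤ 1 * (ρ * 1) * c :=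
      P0_tri f0 (muly g0) h1
    rw [abs_le] at t1 t2 ⊢
    constructor <;> nlinarith [t1.1, t1.2, t2.1, t2.2]
  have e6 : (der vY (P0_P f g h) z) ^ 2 ≤ (a + 1 / 2 * (ρ * c)) ^ 2 := by
    rw [← sq_abs]
    refine pow_le_pow_left₀ (abs_nonneg _) ?_ 2
    rw [P0_derY hf hg hh]
    have t1 : |P0_P f (deriv g) h z| ≤ 1 * a * 1 := P0_tri f0 g1 h0
    have t2 : |P0_P (fun x => x * f x) g (deriv h) z| ≤ (ρ * 1) * 1 * c :=
      P0_tri (mulx f0) g0 h1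
    rw [abs_le] at t1 t2 ⊢
    constructor <;> nlinarith [t1.1, t1.2, t2.1, t2.2]
  have e7 : |der vT (P0_P F G H) z| ≤ c := by
    rw [P0_derT hFs hGs hHs]
    have t1 : |P0_P F G (deriv H) z| ≤ 1 * 1 * c := P0_tri F0 G0 H1
    linarith
  nlinarith [e1, e2, e3, e4, e5, e6, e7]

/-! ### Vanishing outside a box -/

private theorem P0_out {ρ h : ℝ} (hρ : 0 < ρ) (hh : 0 < h) {φ : Pt → ℝ} (hφ : Continuous φ)
    (h0 : ∀ z : Pt, (ρ < |z.1| ∨ ρ < |z.2.1| ∨ h < |z.2.2|) → φ z = 0) (z : Pt)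
    (hz : z ∉ bx ρ h) : φ z = 0 := by
  have hz' : ρ ≤ |z.1| ∨ ρ ≤ |z.2.1| ∨ h ≤ |z.2.2| := by
    by_contra hcon
    push Not at hcon
    exact hz ⟨hcon.1, hcon.2.1, hcon.2.2⟩
  have ht : Tendsto (fun n : ℕ => φ ((1 + 1 / ((n : ℝ) + 1)) • z)) atTop (𝓝 (φ z)) := by
    have h1 : Tendsto (fun n : ℕ => (1 + 1 / ((n : ℝ) + 1)) • z) atTop (𝓝 z) := by
      have := ((tendsto_const_nhds (x := (1:ℝ))).add
        (tendsto_one_div_add_atTop_nhds_zero_nat (𝕜 := ℝ))).smul_const z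
      simpa using this
    exact (hφ.tendsto z).comp h1
  have hzero : ∀ n : ℕ, φ ((1 + 1 / ((n : ℝ) + 1)) • z) = 0 := by
    intro n
    have hε : 0 < 1 / ((n : ℝ) + 1) := by positivity
    set ε := 1 / ((n : ℝ) + 1)
    apply h0
    have key : ∀ x r : ℝ, 0 < r → r ≤ |x| → r < |(1 + ε) * x| := by
      intro x r hr hx
      rw [abs_mul, abs_of_pos (by linarith : 0 < 1 + ε)]
      nlinarith
    rcases hz' with h1 | h1 | h1
    · exact Or.inl (key _ _ hρ h1)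
    · exact Or.inr (Or.inl (key _ _ hρ h1))
    · exact Or.inr (Or.inr (key _ _ hh h1))
  refine tendsto_nhds_unique ht ?_
  rw [show (fun n : ℕ => φ ((1 + 1 / ((n : ℝ) + 1)) • z)) = fun _ => (0:ℝ) from funext hzero]
  exact tendsto_const_nhds

private theorem P0_out_der {ρ h : ℝ} (hρ : 0 < ρ) (hh : 0 < h) {φ : Pt → ℝ}
    (hφ : ContDiff ℝ ∞ φ) (h0 : ∀ z : Pt, z ∉ bx ρ h → φ z = 0) (F : VF) (z : Pt)
    (hz : z ∉ bx ρ h) : der F φ z = 0 := by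
  refine P0_out hρ hh (F.smooth_der hφ).continuous ?_ z hz
  intro w hw
  have hO : IsOpen {w : Pt | ρ < |w.1| ∨ ρ < |w.2.1| ∨ h < |w.2.2|} :=
    (isOpen_lt continuous_const (continuous_abs.comp continuous_fst)).union
      ((isOpen_lt continuous_const (continuous_abs.comp (continuous_fst.comp continuous_snd))).union
      (isOpen_lt continuous_const (continuous_abs.comp (continuous_snd.comp continuous_snd))))
  have hopen : {w : Pt | ρ < |w.1| ∨ ρ < |w.2.1| ∨ h < |w.2.2|} ∈ 𝓝 w := hO.mem_nhds hw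
  have heq : φ =ᶠ[𝓝 w] fun _ => (0:ℝ) := by
    filter_upwards [hopen] with y hy
    apply h0
    rintro ⟨h1, h2, h3⟩
    rcases hy with hy | hy | hy <;> linarith
  unfold der
  rw [heq.fderiv_eq]
  simp

private theorem P0_out_wt {ρ h : ℝ} (hρ : 0 < ρ) (hh : 0 < h) {φ : Pt → ℝ}
    (hφ : ContDiff ℝ ∞ φ) (h0 : ∀ z : Pt, z ∉ bx ρ h → φ z = 0) (z : Pt)
    (hz : z ∉ bx ρ h) : wt φ z = 0 := by
  have h2 : ContDiff ℝ ∞ (fun w => φ w ^ 2) := hφ.pow 2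
  have h02 : ∀ z : Pt, z ∉ bx ρ h → (fun w => φ w ^ 2) z = 0 := by
    intro z hz
    simp [h0 z hz]
  have hX := fun z hz => P0_out_der hρ hh h2 h02 vX z hz
  have hY := fun z hz => P0_out_der hρ hh h2 h02 vY z hz
  unfold wt
  rw [P0_out_der hρ hh (vX.smooth_der h2) hX vX z hz, P0_out_der hρ hh (vY.smooth_der h2) hY vX z hz,
    P0_out_der hρ hh (vX.smooth_der h2) hX vY z hz, P0_out_der hρ hh (vY.smooth_der h2) hY vY z hz,
    P0_out_der hρ hh hφ h0 vX z hz, P0_out_der hρ hh hφ h0 vY z hz,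
    P0_out_der hρ hh h2 h02 vT z hz]
  simp

private theorem P0_compact_cbx (ρ h : ℝ) : IsCompact (cbx ρ h) := by
  have : cbx ρ h = (Icc (-ρ) ρ) ×ˢ ((Icc (-ρ) ρ) ×ˢ (Icc (-h) h)) := by
    ext z
    simp only [cbx, mem_ofPred_eq, mem_prod, mem_Icc, abs_le]
  rw [this]
  exact isCompact_Icc.prod (isCompact_Icc.prod isCompact_Icc)

private theorem P0_closed_cbx (ρ h : ℝ) : IsClosed (cbx ρ h) := (P0_compact_cbx ρ h).isClosed

private theorem P0_bx_sub_cbx (ρ h : ℝ) : bx ρ h ⊆ cbx ρ h :=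
  fun _ hz => ⟨hz.1.le, hz.2.1.le, hz.2.2.le⟩

private theorem P0_supp {ρ h : ℝ} {φ : Pt → ℝ} (h0 : ∀ z : Pt, z ∉ bx ρ h → φ z = 0) :
    tsupport φ ⊆ cbx ρ h := by
  refine closure_minimal ?_ (P0_closed_cbx ρ h)
  intro z hz
  by_contra hcon
  exact hz (h0 z (fun hb => hcon (P0_bx_sub_cbx ρ h hb)))

private theorem P0_cpt {ρ h : ℝ} {φ : Pt → ℝ} (h0 : ∀ z : Pt, z ∉ bx ρ h → φ z = 0) :
    HasCompactSupport φ :=
  (P0_compact_cbx ρ h).of_isClosed_subset (isClosed_tsupport φ) (P0_supp h0)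

private theorem P0_bdd {ρ h : ℝ} {φ : Pt → ℝ} (hφ : Continuous φ)
    (h0 : ∀ z : Pt, z ∉ bx ρ h → φ z = 0) : ∃ M : ℝ, 0 ≤ M ∧ ∀ z, |φ z| ≤ M := by
  obtain ⟨C, hC⟩ := hφ.bounded_above_of_compact_support (P0_cpt h0)
  exact ⟨max C 0, le_max_right _ _, fun z => (hC z).trans (le_max_left _ _)⟩

private theorem P0_wt_cont {φ : Pt → ℝ} (hφ : ContDiff ℝ ∞ φ) : Continuous (wt φ) := by
  have h2 : ContDiff ℝ ∞ (fun w => φ w ^ 2) := hφ.pow 2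
  have c1 := (vX.smooth_der (vX.smooth_der h2)).continuous
  have c2 := (vX.smooth_der (vY.smooth_der h2)).continuous
  have c3 := (vY.smooth_der (vX.smooth_der h2)).continuous
  have c4 := (vY.smooth_der (vY.smooth_der h2)).continuous
  have c5 := (vX.smooth_der hφ).continuous
  have c6 := (vY.smooth_der hφ).continuous
  have c7 := (vT.smooth_der h2).continuous
  unfold wt
  exact (((((c1.abs.add c2.abs).add c3.abs).add c4.abs).add (c5.pow 2)).add (c6.pow 2)).add c7.abs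

private noncomputable def P0_eta (ρ ρ' h κ : ℝ) : Pt → ℝ :=
  P0_P (P0_gam ρ ρ') (P0_gam ρ ρ') (P0_gam h κ)

private theorem P0_eta_smooth (ρ ρ' h κ : ℝ) : ContDiff ℝ ∞ (P0_eta ρ ρ' h κ) :=
  P0_P_smooth (P0_gam_smooth _ _) (P0_gam_smooth _ _) (P0_gam_smooth _ _)

private theorem P0_eta_mem (ρ ρ' h κ : ℝ) (z : Pt) :
    0 ≤ P0_eta ρ ρ' h κ z ∧ P0_eta ρ ρ' h κ z ≤ 1 := by
  unfold P0_eta P0_P
  constructor
  · exact mul_nonneg (mul_nonneg (P0_gam_nonneg _ _ _) (P0_gam_nonneg _ _ _))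
      (P0_gam_nonneg _ _ _)
  · exact mul_le_one₀ (mul_le_one₀ (P0_gam_le _ _ _) (P0_gam_nonneg _ _ _) (P0_gam_le _ _ _))
      (P0_gam_nonneg _ _ _) (P0_gam_le _ _ _)

private theorem P0_eta_zero {ρ ρ' h κ : ℝ} (hρ : 0 < ρ') (hκ : 0 < κ) (z : Pt)
    (hz : z ∉ bx ρ h) : P0_eta ρ ρ' h κ z = 0 := by
  have hz' : ρ ≤ |z.1| ∨ ρ ≤ |z.2.1| ∨ h ≤ |z.2.2| := by
    by_contra hcon
    push Not at hcon
    exact hz ⟨hcon.1, hcon.2.1, hcon.2.2⟩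
  unfold P0_eta P0_P
  rcases hz' with h1 | h1 | h1
  · rw [P0_gam_zero hρ h1]; ring
  · rw [P0_gam_zero hρ h1]; ring
  · rw [P0_gam_zero hκ h1]; ring

private theorem P0_eta_one {ρ ρ' h κ : ℝ} (hρ : 0 < ρ') (hκ : 0 < κ) (z : Pt)
    (hz : z ∈ bx (ρ - ρ') (h - κ)) : P0_eta ρ ρ' h κ z = 1 := by
  unfold P0_eta P0_P
  rw [P0_gam_one hρ hz.1.le, P0_gam_one hρ hz.2.1.le, P0_gam_one hκ hz.2.2.le]
  ring

theorem cut_tall : ∃ M : ℝ, 0 ≤ M ∧ ∀ ρ h κ : ℝ, 0 < ρ → ρ ≤ 1 → 0 < κ → κ < h → h ≤ 1 →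
    ∃ η : Pt → ℝ, ContDiff ℝ ∞ η ∧ HasCompactSupport η ∧ tsupport η ⊆ cbx ρ h ∧
      (∀ z, 0 ≤ η z ∧ η z ≤ 1) ∧ (∀ z ∈ bx (ρ / 2) (h - κ), η z = 1) ∧
      (∀ z, z ∉ bx ρ h → wt η z = 0 ∧ η z = 0) ∧
      (∀ z, z ∈ bx ρ h → z ∉ lat ρ h → wt η z ≤ M * (κ ^ 2)⁻¹) ∧
      (∀ z ∈ lat ρ h, wt η z ≤ M * ((ρ ^ 2)⁻¹ + (κ ^ 2)⁻¹)) := by
  obtain ⟨N, hN0, hN⟩ := P0_gam_bd
  refine ⟨8 * N + 28 * N ^ 2, by positivity, ?_⟩
  intro ρ h κ hρ hρ1 hκ hκh hh1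
  have hh : 0 < h := hκ.trans hκh
  have hκ1 : κ ≤ 1 := hκh.le.trans hh1
  have hρ2 : 0 < ρ / 2 := by positivity
  have hs := P0_gam_smooth
  have habs : ∀ a b t, |P0_gam a b t| ≤ 1 := fun a b t => by
    rw [abs_of_nonneg (P0_gam_nonneg _ _ _)]; exact P0_gam_le _ _ _
  have hz0 : ∀ z : Pt, z ∉ bx ρ h → P0_eta ρ (ρ / 2) h κ z = 0 :=
    fun z hz => P0_eta_zero hρ2 hκ z hz
  have hκi : 1 ≤ κ⁻¹ := (one_le_inv₀ hκ).2 hκ1
  have hk2 : (κ ^ 2)⁻¹ = κ⁻¹ * κ⁻¹ := by rw [sq, mul_inv]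
  have hr2 : (ρ ^ 2)⁻¹ = ρ⁻¹ * ρ⁻¹ := by rw [sq, mul_inv]
  have hρρ : ρ * ρ⁻¹ = 1 := mul_inv_cancel₀ hρ.ne'
  have hρi : 0 < ρ⁻¹ := inv_pos.2 hρ
  refine ⟨P0_eta ρ (ρ / 2) h κ, P0_eta_smooth _ _ _ _, P0_cpt hz0, P0_supp hz0,
    P0_eta_mem _ _ _ _, ?_, ?_, ?_, ?_⟩
  · intro z hz
    apply P0_eta_one hρ2 hκ
    have : ρ - ρ / 2 = ρ / 2 := by ring
    rw [this]; exact hz
  · intro z hz
    exact ⟨P0_out_wt hρ hh (P0_eta_smooth _ _ _ _) hz0 z hz, hz0 z hz⟩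
  · intro z hz hzl
    have hin : |z.1| < ρ / 2 ∧ |z.2.1| < ρ / 2 := by
      by_contra hcon
      exact hzl ⟨hz, hcon⟩
    have loc : ∀ t : ℝ, |t| < ρ / 2 → P0_gam ρ (ρ / 2) =ᶠ[𝓝 t] fun _ => (1:ℝ) := by
      intro t ht
      filter_upwards [(isOpen_lt continuous_abs continuous_const).mem_nhds ht] with y hy
      apply P0_gam_one hρ2
      have : ρ - ρ / 2 = ρ / 2 := by ring
      rw [this]
      exact le_of_lt hy
    have d1 : ∀ t : ℝ, |t| < ρ / 2 → |deriv (P0_gam ρ (ρ / 2)) t| ≤ 0 := by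
      intro t ht
      rw [(loc t ht).deriv_eq]; simp
    have d2 : ∀ t : ℝ, |t| < ρ / 2 → |deriv (fun s => P0_gam ρ (ρ / 2) s ^ 2) t| ≤ 0 := by
      intro t ht
      have : (fun s => P0_gam ρ (ρ / 2) s ^ 2) =ᶠ[𝓝 t] fun _ => (1:ℝ) := by
        filter_upwards [loc t ht] with y hy
        rw [hy]; norm_num
      rw [this.deriv_eq]; simp
    have d3 : ∀ t : ℝ, |t| < ρ / 2 →
        |deriv (deriv (fun s => P0_gam ρ (ρ / 2) s ^ 2)) t| ≤ 0 := by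
      intro t ht
      have : (deriv (fun s => P0_gam ρ (ρ / 2) s ^ 2)) =ᶠ[𝓝 t] fun _ => (0:ℝ) := by
        filter_upwards [(isOpen_lt continuous_abs continuous_const).mem_nhds ht] with y hy
        exact abs_nonpos_iff.1 (d2 y hy)
      rw [this.deriv_eq]; simp
    have hb := P0_wt_le (ρ := ρ) (a := 0) (b := 0) (hs ρ (ρ / 2)) (hs ρ (ρ / 2)) (hs h κ) z
      hz.1.le hz.2.1.le (habs _ _ _) (habs _ _ _) (habs _ _ _) (d1 _ hin.1) (d1 _ hin.2)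
      (hN h κ hκ _).1 (d2 _ hin.1) (d2 _ hin.2) (hN h κ hκ _).2.1 (d3 _ hin.1) (d3 _ hin.2)
      (hN h κ hκ _).2.2
    refine hb.trans ?_
    rw [hk2]
    have hρsq : ρ ^ 2 ≤ 1 := pow_le_one₀ hρ.le hρ1
    have t1 : N * κ⁻¹ ≤ N * (κ⁻¹ * κ⁻¹) := by
      apply mul_le_mul_of_nonneg_left _ hN0
      nlinarith
    have t2 : ρ ^ 2 * (N * (κ⁻¹ * κ⁻¹)) ≤ 1 * (N * (κ⁻¹ * κ⁻¹)) := by
      gcongr
    have t3 : ρ ^ 2 * (N * κ⁻¹) ^ 2 ≤ 1 * (N * κ⁻¹) ^ 2 := by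
      gcongr
    have t4 : 0 ≤ N * (κ⁻¹ * κ⁻¹) := by positivity
    have t5 : 0 ≤ N ^ 2 * (κ⁻¹ * κ⁻¹) := by positivity
    nlinarith [t1, t2, t3, t4, t5]
  · intro z hz
    have hzb := hz.1
    have hN1 : ∀ t, |deriv (P0_gam ρ (ρ / 2)) t| ≤ N * 2 * ρ⁻¹ := by
      intro t
      have := (hN ρ (ρ / 2) hρ2 t).1
      have e : N * (ρ / 2)⁻¹ = N * 2 * ρ⁻¹ := by field_simp
      rwa [e] at this
    have hN2 : ∀ t, |deriv (fun s => P0_gam ρ (ρ / 2) s ^ 2) t| ≤ N * 2 * ρ⁻¹ := by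
      intro t
      have := (hN ρ (ρ / 2) hρ2 t).2.1
      have e : N * (ρ / 2)⁻¹ = N * 2 * ρ⁻¹ := by field_simp
      rwa [e] at this
    have hN3 : ∀ t, |deriv (deriv (fun s => P0_gam ρ (ρ / 2) s ^ 2)) t| ≤ N * 4 * (ρ ^ 2)⁻¹ := by
      intro t
      have := (hN ρ (ρ / 2) hρ2 t).2.2
      have e : N * ((ρ / 2) ^ 2)⁻¹ = N * 4 * (ρ ^ 2)⁻¹ := by
        field_simp
        norm_num
      rwa [e] at this
    have hb := P0_wt_le (ρ := ρ) (hs ρ (ρ / 2)) (hs ρ (ρ / 2)) (hs h κ) z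
      hzb.1.le hzb.2.1.le (habs _ _ _) (habs _ _ _) (habs _ _ _) (hN1 _) (hN1 _)
      (hN h κ hκ _).1 (hN2 _) (hN2 _) (hN h κ hκ _).2.1 (hN3 _) (hN3 _)
      (hN h κ hκ _).2.2
    refine hb.trans ?_
    have hρsq : ρ ^ 2 ≤ 1 := pow_le_one₀ hρ.le hρ1
    have t1 : N * κ⁻¹ ≤ N * (κ⁻¹ * κ⁻¹) := by
      apply mul_le_mul_of_nonneg_left _ hN0
      nlinarith
    have t1' : N ^ 2 * κ⁻¹ ≤ N ^ 2 * (κ⁻¹ * κ⁻¹) := by
      apply mul_le_mul_of_nonneg_left _ (sq_nonneg N)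
      nlinarith
    have t2 : ρ ^ 2 * (N * (κ⁻¹ * κ⁻¹)) ≤ 1 * (N * (κ⁻¹ * κ⁻¹)) := by
      gcongr
    have t3 : ρ ^ 2 * (N * κ⁻¹) ^ 2 ≤ 1 * (N * κ⁻¹) ^ 2 := by
      gcongr
    have t4 : 0 ≤ N * (κ⁻¹ * κ⁻¹) := by positivity
    have t5 : 0 ≤ N ^ 2 * (κ⁻¹ * κ⁻¹) := by positivity
    have t6 : 0 ≤ N * (ρ⁻¹ * ρ⁻¹) := by positivity
    have t7 : 0 ≤ N ^ 2 * (ρ⁻¹ * ρ⁻¹) := by positivity
    have e1 : ρ * (N * 2 * ρ⁻¹) * (N * κ⁻¹) = 2 * (N ^ 2 * κ⁻¹) := by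
      have : ρ * (N * 2 * ρ⁻¹) * (N * κ⁻¹) = (ρ * ρ⁻¹) * (2 * (N ^ 2 * κ⁻¹)) := by ring
      rw [this, hρρ, one_mul]
    rw [e1, hk2, hr2]
    nlinarith [t1, t1', t2, t3, t4, t5, t6, t7]

theorem cut_std : ∃ M : ℝ, 0 ≤ M ∧ ∃ η₁ η₂ : Pt → ℝ,
    (ContDiff ℝ ∞ η₁ ∧ HasCompactSupport η₁ ∧ tsupport η₁ ⊆ cbx 4 16 ∧
      (∀ z, 0 ≤ η₁ z ∧ η₁ z ≤ 1) ∧ (∀ z ∈ bx 3 9, η₁ z = 1) ∧ (∀ z, z ∉ bx 4 16 → η₁ z = 0) ∧
      (∀ z, (der vX η₁ z) ^ 2 + (der vY η₁ z) ^ 2 ≤ M) ∧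
      (∀ z, wt (fun w => η₁ w ^ 2) z ≤ M) ∧
      (∀ z, z ∉ bx 4 16 → wt (fun w => η₁ w ^ 2) z = 0)) ∧
    (ContDiff ℝ ∞ η₂ ∧ HasCompactSupport η₂ ∧ tsupport η₂ ⊆ cbx 3 9 ∧
      (∀ z, 0 ≤ η₂ z ∧ η₂ z ≤ 1) ∧ (∀ z ∈ bx 2 4, η₂ z = 1) ∧
      (∀ z, (der vX η₂ z) ^ 2 + (der vY η₂ z) ^ 2 ≤ M) ∧
      (∀ z, z ∉ bx 3 9 → der vX η₂ z = 0 ∧ der vY η₂ z = 0)) := by
  have z1 : ∀ z : Pt, z ∉ bx 4 16 → P0_eta 4 1 16 7 z = 0 :=
    fun z hz => P0_eta_zero one_pos (by norm_num) z hz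
  have z2 : ∀ z : Pt, z ∉ bx 3 9 → P0_eta 3 1 9 5 z = 0 :=
    fun z hz => P0_eta_zero one_pos (by norm_num) z hz
  have s1 := P0_eta_smooth 4 1 16 7
  have s2 := P0_eta_smooth 3 1 9 5
  have s1' : ContDiff ℝ ∞ (fun w => P0_eta 4 1 16 7 w ^ 2) := s1.pow 2
  have z1' : ∀ z : Pt, z ∉ bx 4 16 → (fun w => P0_eta 4 1 16 7 w ^ 2) z = 0 := by
    intro z hz; simp [z1 z hz]
  have d1X := fun z hz => P0_out_der (by norm_num) (by norm_num) s1 z1 vX z hz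
  have d1Y := fun z hz => P0_out_der (by norm_num) (by norm_num) s1 z1 vY z hz
  have d2X := fun z hz => P0_out_der (by norm_num) (by norm_num) s2 z2 vX z hz
  have d2Y := fun z hz => P0_out_der (by norm_num) (by norm_num) s2 z2 vY z hz
  have w1 := fun z hz => P0_out_wt (by norm_num) (by norm_num) s1' z1' z hz
  obtain ⟨A1, hA1, b1X⟩ := P0_bdd (vX.smooth_der s1).continuous d1X
  obtain ⟨A2, hA2, b1Y⟩ := P0_bdd (vY.smooth_der s1).continuous d1Y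
  obtain ⟨A3, hA3, b2X⟩ := P0_bdd (vX.smooth_der s2).continuous d2X
  obtain ⟨A4, hA4, b2Y⟩ := P0_bdd (vY.smooth_der s2).continuous d2Y
  obtain ⟨A5, hA5, bw⟩ := P0_bdd (P0_wt_cont s1') w1
  refine ⟨A1 ^ 2 + A2 ^ 2 + (A3 ^ 2 + A4 ^ 2) + A5, by positivity, P0_eta 4 1 16 7,
    P0_eta 3 1 9 5, ⟨s1, P0_cpt z1, P0_supp z1, P0_eta_mem _ _ _ _, ?_, z1, ?_, ?_, w1⟩,
    ⟨s2, P0_cpt z2, P0_supp z2, P0_eta_mem _ _ _ _, ?_, ?_, fun z hz => ⟨d2X z hz, d2Y z hz⟩⟩⟩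
  · intro z hz
    apply P0_eta_one one_pos (by norm_num)
    norm_num; exact hz
  · intro z
    have e1 := sq_le_sq' (by linarith [abs_le.1 (b1X z)] : -A1 ≤ _) (abs_le.1 (b1X z)).2
    have e2 := sq_le_sq' (by linarith [abs_le.1 (b1Y z)] : -A2 ≤ _) (abs_le.1 (b1Y z)).2
    nlinarith [sq_nonneg A3, sq_nonneg A4]
  · intro z
    have := (abs_le.1 (bw z)).2
    nlinarith [sq_nonneg A1, sq_nonneg A2, sq_nonneg A3, sq_nonneg A4]
  · intro z hz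
    apply P0_eta_one one_pos (by norm_num)
    norm_num; exact hz
  · intro z
    have e1 := sq_le_sq' (by linarith [abs_le.1 (b2X z)] : -A3 ≤ _) (abs_le.1 (b2X z)).2
    have e2 := sq_le_sq' (by linarith [abs_le.1 (b2Y z)] : -A4 ≤ _) (abs_le.1 (b2Y z)).2
    nlinarith [sq_nonneg A1, sq_nonneg A2]

theorem wt_nonneg (η : Pt → ℝ) (z : Pt) : 0 ≤ wt η z := by
  unfold wt; positivity

end PLH
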