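import Pool.Agent.Lib.PLH.T11
import Pool.Agent.Lib.PLH.T8b
import Pool.Agent.Lib.PLH.A4
import Pool.Agent.Lib.PLH.A8
import Pool.Agent.Lib.PLH.D3
import Pool.Agent.Lib.PLH.P0

/-!
MODULE D4 (300 lines). Caccioppoli inequality for `t`-differences, constants depend on `m` only.

Fix once a smooth `η`, `0 ≤ η ≤ 1`, `η = 1` on `{|x|,|y| ≤ 1/2, |t| ≤ 3/4}`, `tsupport η ⊆
{|x|,|y|,|t| ≤ 1}` (products of one dimensional smooth transitions), `|Xη|, |Yη| ≤ M`, and an integer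
`q ≥ 2 + max(m,0)`. On `U' = U ∩ (vT.fl s)⁻¹ U`: `w = u∘vT.fl s - u`, gradient `Δξ = ξ∘vT.fl s - ξ`,
`σ = A(ξ∘vT.fl s) - A(ξ)` solves `Sol0 U' σ` (`Sol0.tau`, `vT_fl`). `SolR.test'` with `h = 0`, cut-off
`η^q` (a test function on `U'`) and `f = w - c` (`WD.const`):
`∫ η^q ⟨σ, Δξ⟩ = -∫ q η^(q-1)(Xη ⟨σ 0, w-c⟩ + Yη⟨σ 1, w-c⟩) ≤ ∫_{Rg} η^(q-1) ‖σ‖ y₀`,
`y₀ = 2 q M ‖w-c‖` (the derivatives of `η` vanish outside `Rg` a.e.). Where `η > 0` write this as
`η^q ‖σ‖ y₀/η ≤ η^q (ε‖ΔV‖² + C_ε a(‖ξ‖+y₀/η)(y₀/η)²)` (`young` for the pair `ξ∘fl s`, `ξ`; the shift is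
`‖ξ z‖`: apply it to the pair `(ξ z, ξ(fl s z))`, norms are symmetric), and by `Cl.hi`
`a(‖ξ‖+y₀/η) ≤ η^(-max(m,0)) a(‖ξ‖+y₀)`, so `η^q a(‖ξ‖+y₀/η)(y₀/η)² ≤ a(‖ξ‖+y₀) y₀²`, and
`a(‖ξ‖+y₀) y₀² ≤ C a(‖ξ‖+‖w-c‖) ‖w-c‖²` (`Cl.comp`). `⟨σ,Δξ⟩ ≥ ‖ΔV‖²/C` (`Alg.mono`). Absorb the
`ε`-term (finite: `‖ΔV‖²` is integrable on bounded sets inside).
-/

open MeasureTheory Set Filter Topology
open scoped ContDiff ENNReal

namespace PLH

variable (W : Type*) [NormedAddCommGroup W] [InnerProductSpace ℝ W] [FiniteDimensional ℝ W]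

private theorem D4_int {U : Set Pt} {E : Type*} [NormedAddCommGroup E] [NormedSpace ℝ E]
    {φ : Pt → ℝ} (hφ : Tst U φ) {f : Pt → E} (hf : LocallyIntegrableOn f U) :
    Integrable (fun z => φ z • f z) := by
  have h1 : IntegrableOn f (tsupport φ) := hf.integrableOn_compact_subset hφ.supp hφ.cpt
  have h2 : IntegrableOn (fun z => φ z • f z) (tsupport φ) :=
    h1.continuousOn_smul hφ.smooth.continuous.continuousOn hφ.cpt
  refine (integrableOn_iff_integrable_of_support_subset ?_).1 h2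
  intro z hz
  apply subset_tsupport
  intro h0
  apply hz
  show φ z • f z = 0
  rw [h0, zero_smul]

private theorem D4_inner {E : Type*} [NormedAddCommGroup E] [InnerProductSpace ℝ E]
    {μ : Measure Pt} {f g : Pt → E} (hf : MemLp f 2 μ) (hg : MemLp g 2 μ) :
    Integrable (fun z => inner ℝ (f z) (g z)) μ := by
  have h1 : Integrable (fun z => ‖f z‖ * ‖g z‖) μ := hf.norm.integrable_mul hg.norm
  refine h1.mono' (hf.1.inner hg.1) (ae_of_all _ fun z => ?_)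
  exact norm_inner_le_norm _ _

/-- Products of `L2l` functions are integrable against test functions. -/
private theorem D4_inner_tst {U : Set Pt} {E : Type*} [NormedAddCommGroup E]
    [InnerProductSpace ℝ E] {φ : Pt → ℝ} (hφ : Tst U φ) {f g : Pt → E} (hf : L2l U f)
    (hg : L2l U g) : Integrable (fun z => φ z * inner ℝ (f z) (g z)) := by
  have h1 : IntegrableOn (fun z => inner ℝ (f z) (g z)) (tsupport φ) :=
    D4_inner (hf _ hφ.cpt hφ.supp) (hg _ hφ.cpt hφ.supp)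
  have h2 : IntegrableOn (fun z => φ z • inner ℝ (f z) (g z)) (tsupport φ) :=
    h1.continuousOn_smul hφ.smooth.continuous.continuousOn hφ.cpt
  refine (integrableOn_iff_integrable_of_support_subset ?_).1 h2
  intro z hz
  apply subset_tsupport
  intro h0
  apply hz
  show φ z • inner ℝ (f z) (g z) = 0
  rw [h0, zero_smul]

variable {W} in
omit [FiniteDimensional ℝ W] in
private theorem D4_cmp {U : Set Pt} {f : Pt → V2 W} (hf : L2l U f) (i : Fin 2) :
    L2l U (fun z => f z i) := fun K hK hKU =>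
  (PiLp.proj (𝕜 := ℝ) 2 (fun _ : Fin 2 => W) i).comp_memLp' (hf K hK hKU)

private theorem D4_der_pow (F : VF) {η : Pt → ℝ} (hη : ContDiff ℝ ∞ η) (n : ℕ) (z : Pt) :
    der F (fun w => η w ^ (n + 1)) z = (n + 1) * η z ^ n * der F η z := by
  have h1 := ((hη.differentiable (by simp)) z).hasFDerivAt
  have h2 := h1.pow (n + 1)
  have h3 : fderiv ℝ (fun w => η w ^ (n + 1)) z = _ := h2.fderiv
  unfold der
  rw [h3]
  simp

private theorem D4_a {m : ℝ} {a : ℝ → ℝ} (h : Cl m a) {n : ℕ} (hn : m ≤ n) {e s S : ℝ}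
    (he : 0 < e) (he1 : e ≤ 1) (hs : 0 < s) (hsS : s ≤ S) (hS : S * e ≤ s) :
    e ^ n * a S ≤ a s := by
  have h1 := h.hi s S hs hsS
  have has := h.pos s hs
  have hr1 : 1 ≤ S / s := (one_le_div hs).2 hsS
  have hr2 : S / s ≤ 1 / e := by
    rw [div_le_div_iff₀ hs he]; linarith
  have h2 : (S / s) ^ m ≤ (1 / e) ^ n := by
    calc (S / s) ^ m ≤ (S / s) ^ (n : ℝ) := Real.rpow_le_rpow_of_exponent_le hr1 hn
      _ = (S / s) ^ n := Real.rpow_natCast _ _
      _ ≤ (1 / e) ^ n := pow_le_pow_left₀ (by positivity) hr2 n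
  have h3 : (1 : ℝ) ≤ (1 / e) ^ n := one_le_pow₀ ((one_le_div he).2 he1)
  have h4 : max 1 ((S / s) ^ m) ≤ (1 / e) ^ n := max_le h3 h2
  have h5 : a S ≤ (1 / e) ^ n * a s := h1.trans (mul_le_mul_of_nonneg_right h4 has.le)
  calc e ^ n * a S ≤ e ^ n * ((1 / e) ^ n * a s) := mul_le_mul_of_nonneg_left h5 (by positivity)
    _ = (e * (1 / e)) ^ n * a s := by rw [mul_pow]; ring
    _ = a s := by rw [mul_one_div_cancel he.ne', one_pow, one_mul]

variable {W} in
omit [FiniteDimensional ℝ W] in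
private theorem D4_pt {m : ℝ} {C₁ Cy M : ℝ} (hA : Alg m C₁ (V2 W)) (hCy : 0 ≤ Cy)
    (hY : ∀ a : ℝ → ℝ, Cl m a → ∀ (ξ ζ : V2 W) (y : ℝ), 0 ≤ y →
      ‖A a ξ - A a ζ‖ * y ≤ 1 / (2 * C₁) * ‖Vm a ξ - Vm a ζ‖ ^ 2 + Cy * (a (‖ξ‖ + y) * y ^ 2))
    (hM : 1 ≤ M) {n : ℕ} (hn : m ≤ n) {a : ℝ → ℝ} (ha : Nice m a) {e X Y : ℝ} (he : 0 ≤ e)
    (he1 : e ≤ 1) (hX : |X| ≤ M) (hYM : |Y| ≤ M) (x1 x2 : V2 W) (f : W) :
    e ^ (n + 2) * ‖Vm a x1 - Vm a x2‖ ^ 2 / (2 * C₁) -
      Cy * ((2 * (n + 2) * M) ^ |m| * (2 * (n + 2) * M) ^ 2) * (a (‖x2‖ + ‖f‖) * ‖f‖ ^ 2) ≤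
    e ^ (n + 2) * inner ℝ (A a x1 - A a x2) (x1 - x2) +
      ((n + 2) * e ^ (n + 1)) * (X * inner ℝ ((A a x1 - A a x2) 0) f +
        Y * inner ℝ ((A a x1 - A a x2) 1) f) := by
  have hC1 := hA.one
  have hC0 : 0 < C₁ := by linarith
  have hapos : 0 ≤ a (‖x2‖ + ‖f‖) := (ha.pos' (by positivity)).le
  set κ : ℝ := 2 * (n + 2) * M with hκ
  have hn0 : (0 : ℝ) ≤ n := Nat.cast_nonneg n
  have hκ1 : 1 ≤ κ := by rw [hκ]; nlinarith
  have hκ0 : 0 < κ := by linarith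
  have hκm : 0 ≤ κ ^ |m| := Real.rpow_nonneg hκ0.le _
  rcases eq_or_lt_of_le he with he0 | hepos
  · rw [← he0]
    simp only [ne_eq, Nat.add_eq_zero_iff, OfNat.ofNat_ne_zero, and_false, not_false_eq_true,
      zero_pow, zero_mul, zero_div, zero_sub, one_ne_zero, mul_zero, add_zero]
    have : 0 ≤ Cy * (κ ^ |m| * κ ^ 2) * (a (‖x2‖ + ‖f‖) * ‖f‖ ^ 2) := by positivity
    linarith
  set σ := A a x1 - A a x2 with hσ
  set v := ‖Vm a x1 - Vm a x2‖ with hv
  set y := ‖f‖ with hy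
  have hy0 : 0 ≤ y := norm_nonneg _
  -- monotonicity
  have m1 : v ^ 2 / C₁ ≤ inner ℝ σ (x1 - x2) := by
    rw [div_le_iff₀ hC0]
    have := hA.mono a ha.toCl x1 x2
    linarith
  -- Cauchy-Schwarz
  have n0 : ‖σ 0‖ ≤ ‖σ‖ := PiLp.norm_apply_le σ 0
  have n1 : ‖σ 1‖ ≤ ‖σ‖ := PiLp.norm_apply_le σ 1
  have m2 : |X * inner ℝ (σ 0) f + Y * inner ℝ (σ 1) f| ≤ 2 * M * ‖σ‖ * y := by
    refine (abs_add_le _ _).trans ?_
    rw [abs_mul, abs_mul]
    have i0 := abs_real_inner_le_norm (σ 0) f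
    have i1 := abs_real_inner_le_norm (σ 1) f
    have j0 : |inner ℝ (σ 0) f| ≤ ‖σ‖ * y := i0.trans (mul_le_mul_of_nonneg_right n0 hy0)
    have j1 : |inner ℝ (σ 1) f| ≤ ‖σ‖ * y := i1.trans (mul_le_mul_of_nonneg_right n1 hy0)
    have k0 : |X| * |inner ℝ (σ 0) f| ≤ M * (‖σ‖ * y) := by gcongr
    have k1 : |Y| * |inner ℝ (σ 1) f| ≤ M * (‖σ‖ * y) := by gcongr
    linarith
  have m3 : |((n + 2) * e ^ (n + 1)) * (X * inner ℝ (σ 0) f + Y * inner ℝ (σ 1) f)| ≤
      e ^ (n + 2) * (‖σ‖ * (κ * y / e)) := by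
    rw [abs_mul, abs_of_nonneg (by positivity : (0:ℝ) ≤ (n + 2) * e ^ (n + 1))]
    calc (n + 2) * e ^ (n + 1) * |X * inner ℝ (σ 0) f + Y * inner ℝ (σ 1) f|
        ≤ (n + 2) * e ^ (n + 1) * (2 * M * ‖σ‖ * y) := by gcongr
      _ = e ^ (n + 2) * (‖σ‖ * (κ * y / e)) := by
          rw [hκ]; field_simp; ring
  -- Young
  have m4 := hY a ha.toCl x2 x1 (κ * y / e) (by positivity)
  rw [norm_sub_rev (A a x2), norm_sub_rev (Vm a x2)] at m4
  -- the nonlinearity
  have m5 : e ^ (n + 2) * (a (‖x2‖ + κ * y / e) * (κ * y / e) ^ 2) ≤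
      κ ^ |m| * κ ^ 2 * (a (‖x2‖ + y) * y ^ 2) := by
    rcases eq_or_lt_of_le hy0 with h0 | hypos
    · rw [← h0]; simp
    have s1 : 0 < ‖x2‖ + κ * y := by positivity
    have s2 : ‖x2‖ + κ * y ≤ ‖x2‖ + κ * y / e := by
      have : κ * y ≤ κ * y / e := by
        rw [le_div_iff₀ hepos]
        have : 0 ≤ κ * y := by positivity
        nlinarith
      linarith
    have s3 : (‖x2‖ + κ * y / e) * e ≤ ‖x2‖ + κ * y := by
      have : κ * y / e * e = κ * y := div_mul_cancel₀ _ hepos.ne'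
      nlinarith [norm_nonneg x2]
    have s4 := D4_a ha.toCl hn hepos he1 s1 s2 s3
    have s5 : a (‖x2‖ + κ * y) ≤ κ ^ |m| * a (‖x2‖ + y) := by
      refine ha.toCl.comp hκ1 s1 (by positivity) ?_ ?_
      · nlinarith [norm_nonneg x2]
      · nlinarith [norm_nonneg x2, mul_nonneg hκ0.le hy0]
    calc e ^ (n + 2) * (a (‖x2‖ + κ * y / e) * (κ * y / e) ^ 2)
        = (e ^ n * a (‖x2‖ + κ * y / e)) * (κ * y) ^ 2 := by
          generalize a (‖x2‖ + κ * y / e) = A'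
          rw [div_pow, pow_add]
          field_simp
      _ ≤ (κ ^ |m| * a (‖x2‖ + y)) * (κ * y) ^ 2 :=
          mul_le_mul_of_nonneg_right (s4.trans s5) (by positivity)
      _ = κ ^ |m| * κ ^ 2 * (a (‖x2‖ + y) * y ^ 2) := by ring
  have m6 := neg_abs_le (((n : ℝ) + 2) * e ^ (n + 1) * (X * inner ℝ (σ 0) f +
    Y * inner ℝ (σ 1) f))
  have he2 : 0 ≤ e ^ (n + 2) := by positivity
  have m7 := mul_le_mul_of_nonneg_left m4 he2
  have m8 := mul_le_mul_of_nonneg_left m1 he2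
  have m9 := mul_le_mul_of_nonneg_left m5 hCy
  have m10 : e ^ (n + 2) * (v ^ 2 / C₁) = e ^ (n + 2) * v ^ 2 / (2 * C₁) +
      e ^ (n + 2) * (1 / (2 * C₁) * v ^ 2) := by
    field_simp; ring
  have m11 : e ^ (n + 2) * (1 / (2 * C₁) * v ^ 2 + Cy * (a (‖x2‖ + κ * y / e) *
      (κ * y / e) ^ 2)) = e ^ (n + 2) * (1 / (2 * C₁) * v ^ 2) +
      Cy * (e ^ (n + 2) * (a (‖x2‖ + κ * y / e) * (κ * y / e) ^ 2)) := by ring
  rw [m11] at m7
  rw [m10] at m8
  linarith

theorem cac_td {m : ℝ} (hm : -1 < m) : ∃ K : ℝ, 0 ≤ K ∧ ∀ (a : ℝ → ℝ), Nice m a →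
    ∀ (U : Set Pt), IsOpen U → {z : Pt | |z.1| ≤ 2 ∧ |z.2.1| ≤ 2 ∧ |z.2.2| ≤ 4} ⊆ U →
    ∀ (u : Pt → W) (ξ : Pt → V2 W), SolU a U u ξ → ∀ s : ℝ, |s| ≤ 1 / 2 → ∀ c : W,
    ∫ z in bx (1 / 2) (3 / 4), ‖Vm a (ξ (vT.fl s z)) - Vm a (ξ z)‖ ^ 2 ≤
      K * ∫ z in Rg, a (‖ξ z‖ + ‖u (vT.fl s z) - u z - c‖) * ‖u (vT.fl s z) - u z - c‖ ^ 2 := by
  obtain ⟨C₁, hA⟩ := exists_alg (V2 W) hm
  have hC1 := hA.one
  have hC0 : 0 < C₁ := by linarith
  obtain ⟨Cy, hCy0, hY⟩ := young (V2 W) hm (ε := 1 / (2 * C₁)) (by positivity)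
  obtain ⟨M₀, hM₀, hcut⟩ := cut_tall
  obtain ⟨η, hs, hc, hsu, h01, h1, hout, hin, hlat⟩ := hcut 1 1 (1 / 4) one_pos le_rfl
    (by norm_num) (by norm_num) le_rfl
  -- the bound for the derivatives of the cut-off
  have hwt : ∀ z, wt η z ≤ 17 * M₀ := by
    intro z
    by_cases hz : z ∈ bx 1 1
    · by_cases hl : z ∈ lat 1 1
      · have := hlat z hl
        norm_num at this
        linarith
      · have := hin z hz hl
        norm_num at this
        linarith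
    · rw [(hout z hz).1]; positivity
  have hX2 : ∀ z, (der vX η z) ^ 2 ≤ 17 * M₀ := by
    intro z
    refine le_trans ?_ (hwt z)
    unfold wt
    nlinarith [abs_nonneg (der vX (der vX fun w => η w ^ 2) z),
      abs_nonneg (der vX (der vY fun w => η w ^ 2) z),
      abs_nonneg (der vY (der vX fun w => η w ^ 2) z),
      abs_nonneg (der vY (der vY fun w => η w ^ 2) z),
      abs_nonneg (der vT (fun w => η w ^ 2) z), sq_nonneg (der vY η z)]
  have hY2 : ∀ z, (der vY η z) ^ 2 ≤ 17 * M₀ := by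
    intro z
    refine le_trans ?_ (hwt z)
    unfold wt
    nlinarith [abs_nonneg (der vX (der vX fun w => η w ^ 2) z),
      abs_nonneg (der vX (der vY fun w => η w ^ 2) z),
      abs_nonneg (der vY (der vX fun w => η w ^ 2) z),
      abs_nonneg (der vY (der vY fun w => η w ^ 2) z),
      abs_nonneg (der vT (fun w => η w ^ 2) z), sq_nonneg (der vX η z)]
  set M : ℝ := 1 + 17 * M₀ with hMdef
  have hM1 : 1 ≤ M := by linarith
  have hbd : ∀ x : ℝ, x ^ 2 ≤ 17 * M₀ → |x| ≤ M := by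
    intro x hx
    rw [abs_le]
    constructor <;> nlinarith [sq_nonneg (x - 1), sq_nonneg (x + 1)]
  -- derivatives vanish outside the ring
  have hder0 : ∀ (F : VF), (F = vX ∨ F = vY) → ∀ z, z ∉ Rg → der F η z = 0 := by
    intro F hF z hz
    by_cases hb : z ∈ bx 1 1
    · -- inside the closed inner box
      have hi : |z.1| ≤ 1 / 2 ∧ |z.2.1| ≤ 1 / 2 ∧ |z.2.2| ≤ 3 / 4 := by
        by_contra hcon
        exact hz ⟨hb, hcon⟩
      have hop : IsOpen (bx (1 / 2) (3 / 4)) :=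
        (isOpen_lt (continuous_abs.comp continuous_fst) continuous_const).inter
          ((isOpen_lt (continuous_abs.comp (continuous_fst.comp continuous_snd))
            continuous_const).inter
          (isOpen_lt (continuous_abs.comp (continuous_snd.comp continuous_snd))
            continuous_const))
      have hz0 : ∀ w ∈ bx (1 / 2) (3 / 4), der F η w = 0 := by
        intro w hw
        have : η =ᶠ[𝓝 w] fun _ => (1 : ℝ) := by
          filter_upwards [hop.mem_nhds hw] with y hy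
          apply h1
          norm_num
          exact hy
        unfold der
        rw [this.fderiv_eq]
        simp
      have hcont : Continuous (der F η) := (F.smooth_der hs).continuous
      have ht : Tendsto (fun n : ℕ => der F η ((1 - 1 / ((n : ℝ) + 1)) • z)) atTop
          (𝓝 (der F η z)) := by
        have h1 : Tendsto (fun n : ℕ => (1 - 1 / ((n : ℝ) + 1)) • z) atTop (𝓝 z) := by
          have := ((tendsto_const_nhds (x := (1:ℝ))).sub
            (tendsto_one_div_add_atTop_nhds_zero_nat (𝕜 := ℝ))).smul_const z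
          simpa using this
        exact (hcont.tendsto z).comp h1
      have hzero : ∀ n : ℕ, der F η ((1 - 1 / ((n : ℝ) + 1)) • z) = 0 := by
        intro n
        apply hz0
        have hε : 0 < 1 / ((n : ℝ) + 1) := by positivity
        have hε1 : 1 / ((n : ℝ) + 1) ≤ 1 := by
          rw [div_le_one (by positivity)]
          have : (0:ℝ) ≤ n := Nat.cast_nonneg n
          linarith
        set ε := 1 / ((n : ℝ) + 1)
        have key : ∀ x r : ℝ, 0 < r → |x| ≤ r → |(1 - ε) * x| < r := by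
          intro x r hr hx
          rw [abs_mul, abs_of_nonneg (by linarith : 0 ≤ 1 - ε)]
          nlinarith [abs_nonneg x]
        exact ⟨key _ _ (by norm_num) hi.1, key _ _ (by norm_num) hi.2.1,
          key _ _ (by norm_num) hi.2.2⟩
      refine tendsto_nhds_unique ht ?_
      rw [show (fun n : ℕ => der F η ((1 - 1 / ((n : ℝ) + 1)) • z)) = fun _ => (0:ℝ) from
        funext hzero]
      exact tendsto_const_nhds
    · have hw := (hout z hb).1
      unfold wt at hw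
      have p1 := abs_nonneg (der vX (der vX fun w => η w ^ 2) z)
      have p2 := abs_nonneg (der vX (der vY fun w => η w ^ 2) z)
      have p3 := abs_nonneg (der vY (der vX fun w => η w ^ 2) z)
      have p4 := abs_nonneg (der vY (der vY fun w => η w ^ 2) z)
      have p5 := abs_nonneg (der vT (fun w => η w ^ 2) z)
      have p6 := sq_nonneg (der vX η z)
      have p7 := sq_nonneg (der vY η z)
      rcases hF with rfl | rfl
      · exact pow_eq_zero_iff (two_ne_zero) |>.1 (by linarith)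
      · exact pow_eq_zero_iff (two_ne_zero) |>.1 (by linarith)
  obtain ⟨n, hn⟩ : ∃ n : ℕ, m ≤ n := ⟨⌈m⌉₊, Nat.le_ceil m⟩
  set C₃ : ℝ := Cy * ((2 * (n + 2) * M) ^ |m| * (2 * (n + 2) * M) ^ 2) with hC₃
  have hC₃0 : 0 ≤ C₃ := by
    have : 0 ≤ (2 * ((n : ℝ) + 2) * M) ^ |m| := Real.rpow_nonneg (by positivity) _
    positivity
  refine ⟨2 * C₁ * C₃, by positivity, ?_⟩
  intro a ha U hU hUsub u ξ hsol s hs2 c
  obtain ⟨L, l, hl, hLA, hLV, -⟩ := nice_lip (E := V2 W) hm ha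
  -- the translated solution
  have ht := SolU.tau1 hU hsol (0, 0, s)
  have hset : tau (0, 0, s) 1 ⁻¹' U = vT.fl s ⁻¹' U := by
    ext z; simp [vT_fl]
  have hfun1 : (fun z => u (tau (0, 0, s) 1 z)) = fun z => u (vT.fl s z) := by
    funext z; rw [vT_fl]
  have hfun2 : (fun z => ξ (tau (0, 0, s) 1 z)) = fun z => ξ (vT.fl s z) := by
    funext z; rw [vT_fl]
  rw [hset, hfun1, hfun2] at ht
  set U' : Set Pt := U ∩ vT.fl s ⁻¹' U with hU'def
  have hU' : IsOpen U' := hU.inter (hU.preimage (VF.smooth_fl vT s).continuous)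
  have hl2 : ∀ {E' : Type _} [NormedAddCommGroup E'] {f : Pt → E'} {B B' : Set Pt}, B' ⊆ B →
      L2l B f → L2l B' f := fun hBB h K hK hKB => h K hK (hKB.trans hBB)
  have hi1 : U' ⊆ U := inter_subset_left
  have hi2 : U' ⊆ vT.fl s ⁻¹' U := inter_subset_right
  have lu := hl2 hi1 hsol.lu
  have lξ := hl2 hi1 hsol.lξ
  have lu' := hl2 hi2 ht.lu
  have lξ' := hl2 hi2 ht.lξ
  have lA : L2l U' (fun z => A a (ξ z)) := fun K hK hKU =>
    hLA.comp_memLp (A_zero a) (lξ K hK hKU)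
  have lA' : L2l U' (fun z => A a (ξ (vT.fl s z))) := fun K hK hKU =>
    hLA.comp_memLp (A_zero a) (lξ' K hK hKU)
  have lV : L2l U' (fun z => Vm a (ξ z)) := fun K hK hKU =>
    hLV.comp_memLp (Vm_zero a) (lξ K hK hKU)
  have lV' : L2l U' (fun z => Vm a (ξ (vT.fl s z))) := fun K hK hKU =>
    hLV.comp_memLp (Vm_zero a) (lξ' K hK hKU)
  have lσ : L2l U' (fun z => A a (ξ (vT.fl s z)) - A a (ξ z)) := fun K hK hKU =>
    (lA' K hK hKU).sub (lA K hK hKU)
  have lΔV : L2l U' (fun z => Vm a (ξ (vT.fl s z)) - Vm a (ξ z)) := fun K hK hKU =>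
    (lV' K hK hKU).sub (lV K hK hKU)
  have lΔξ : L2l U' (fun z => ξ (vT.fl s z) - ξ z) := fun K hK hKU =>
    (lξ' K hK hKU).sub (lξ K hK hKU)
  have lf : L2l U' (fun z => u (vT.fl s z) - u z - c) := by
    intro K hK hKU
    have : IsFiniteMeasure (volume.restrict K) := ⟨by
      rw [Measure.restrict_apply_univ]; exact hK.measure_lt_top⟩
    exact ((lu' K hK hKU).sub (lu K hK hKU)).sub (memLp_const c)
  -- the equation for the difference
  have hσ : SolR U' (fun z => A a (ξ (vT.fl s z)) - A a (ξ z)) (fun _ => (0 : W)) := by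
    intro φ hφ
    have hφ1 : Tst U φ := ⟨hφ.smooth, hφ.cpt, hφ.supp.trans hi1⟩
    have hφ2 : Tst (vT.fl s ⁻¹' U) φ := ⟨hφ.smooth, hφ.cpt, hφ.supp.trans hi2⟩
    have hXφ := hφ.der vX
    have hYφ := hφ.der vY
    have e1 : ∫ z, (der vX φ z • A a (ξ z) 0 + der vY φ z • A a (ξ z) 1) = 0 := hsol.sol φ hφ1
    have e2 : ∫ z, (der vX φ z • A a (ξ (vT.fl s z)) 0 +
      der vY φ z • A a (ξ (vT.fl s z)) 1) = 0 := ht.sol φ hφ2
    have j1 := D4_int hXφ (L2l.locInt hU' (D4_cmp lA 0))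
    have j2 := D4_int hYφ (L2l.locInt hU' (D4_cmp lA 1))
    have j3 := D4_int hXφ (L2l.locInt hU' (D4_cmp lA' 0))
    have j4 := D4_int hYφ (L2l.locInt hU' (D4_cmp lA' 1))
    have e3 : (fun z => der vX φ z • (A a (ξ (vT.fl s z)) - A a (ξ z)) 0 +
        der vY φ z • (A a (ξ (vT.fl s z)) - A a (ξ z)) 1) = fun z =>
        (der vX φ z • A a (ξ (vT.fl s z)) 0 + der vY φ z • A a (ξ (vT.fl s z)) 1) -
        (der vX φ z • A a (ξ z) 0 + der vY φ z • A a (ξ z) 1) := by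
      funext z
      simp only [PiLp.sub_apply, smul_sub]
      abel
    show ∫ z, (der vX φ z • (A a (ξ (vT.fl s z)) - A a (ξ z)) 0 +
        der vY φ z • (A a (ξ (vT.fl s z)) - A a (ξ z)) 1) = ∫ z, φ z • (0 : W)
    have j34 : Integrable (fun z => der vX φ z • A a (ξ (vT.fl s z)) 0 +
      der vY φ z • A a (ξ (vT.fl s z)) 1) := j3.add j4
    have j12 : Integrable (fun z => der vX φ z • A a (ξ z) 0 +
      der vY φ z • A a (ξ z) 1) := j1.add j2
    rw [e3, integral_sub j34 j12, e1, e2]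
    simp
  -- weak derivatives of the test function
  have wX : WD vX U' (fun z => u (vT.fl s z) - u z - c) (fun z => (ξ (vT.fl s z) - ξ z) 0) := by
    have := ((ht.gx.mono hi2).sub (hsol.gx.mono hi1)).sub (WD.const c)
    simpa using this
  have wY : WD vY U' (fun z => u (vT.fl s z) - u z - c) (fun z => (ξ (vT.fl s z) - ξ z) 1) := by
    have := ((ht.gy.mono hi2).sub (hsol.gy.mono hi1)).sub (WD.const c)
    simpa using this
  -- the cut-off is a test function on `U'`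
  have hcb : cbx 1 1 ⊆ U' := by
    intro z hz
    have hsn := abs_le.1 hs2
    constructor
    · apply hUsub
      exact ⟨hz.1.trans (by norm_num), hz.2.1.trans (by norm_num), hz.2.2.trans (by norm_num)⟩
    · apply hUsub
      simp only [VF.fl, vT]
      refine ⟨?_, ?_, ?_⟩
      · simpa using hz.1.trans (by norm_num : (1:ℝ) ≤ 2)
      · simpa using hz.2.1.trans (by norm_num : (1:ℝ) ≤ 2)
      · have h3 := abs_le.1 hz.2.2
        rw [abs_le]
        constructor <;> linarith [h3.1, h3.2, hsn.1, hsn.2]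
  have hηT : Tst U' η := ⟨hs, hc, hsu.trans hcb⟩
  have hζ : Tst U' (fun z => η z ^ (n + 2)) := by
    have := hηT.mul_left (hs.pow (n + 1))
    have e : (fun z => η z ^ (n + 1) * η z) = fun z => η z ^ (n + 2) := by
      funext z; ring
    rwa [e] at this
  have test := SolR.test' hU' lσ (fun K _ _ => MemLp.zero') hσ lf (D4_cmp lΔξ 0) (D4_cmp lΔξ 1)
    wX wY hζ
  -- notation
  have hG : (fun z => inner ℝ ((A a (ξ (vT.fl s z)) - A a (ξ z)) 0)
        (η z ^ (n + 2) • (ξ (vT.fl s z) - ξ z) 0 +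
          der vX (fun w => η w ^ (n + 2)) z • (u (vT.fl s z) - u z - c)) +
      inner ℝ ((A a (ξ (vT.fl s z)) - A a (ξ z)) 1)
        (η z ^ (n + 2) • (ξ (vT.fl s z) - ξ z) 1 +
          der vY (fun w => η w ^ (n + 2)) z • (u (vT.fl s z) - u z - c))) = fun z =>
      η z ^ (n + 2) * inner ℝ (A a (ξ (vT.fl s z)) - A a (ξ z)) (ξ (vT.fl s z) - ξ z) +
      ((n + 2) * η z ^ (n + 1)) * (der vX η z * inner ℝ ((A a (ξ (vT.fl s z)) - A a (ξ z)) 0)
        (u (vT.fl s z) - u z - c) + der vY η z * inner ℝ ((A a (ξ (vT.fl s z)) - A a (ξ z)) 1)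
        (u (vT.fl s z) - u z - c)) := by
    funext z
    rw [D4_der_pow vX hs (n + 1), D4_der_pow vY hs (n + 1),
      PiLp.inner_apply (A a (ξ (vT.fl s z)) - A a (ξ z)), Fin.sum_univ_two]
    simp only [inner_add_right, inner_smul_right]
    push_cast
    ring
  have t' : ∫ z, (η z ^ (n + 2) * inner ℝ (A a (ξ (vT.fl s z)) - A a (ξ z))
        (ξ (vT.fl s z) - ξ z) +
      ((n + 2) * η z ^ (n + 1)) * (der vX η z * inner ℝ ((A a (ξ (vT.fl s z)) - A a (ξ z)) 0)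
        (u (vT.fl s z) - u z - c) + der vY η z * inner ℝ ((A a (ξ (vT.fl s z)) - A a (ξ z)) 1)
        (u (vT.fl s z) - u z - c))) = 0 := by
    rw [← hG]
    refine test.trans ?_
    simp
  -- integrability
  have iA := D4_inner_tst hζ lσ lΔξ
  have hpX : Tst U' (fun z => η z ^ (n + 1) * der vX η z) :=
    (hηT.der vX).mul_left (hs.pow (n + 1))
  have hpY : Tst U' (fun z => η z ^ (n + 1) * der vY η z) :=
    (hηT.der vY).mul_left (hs.pow (n + 1))
  have iX := D4_inner_tst hpX (D4_cmp lσ 0) lf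
  have iY := D4_inner_tst hpY (D4_cmp lσ 1) lf
  have iG : Integrable (fun z => η z ^ (n + 2) * inner ℝ (A a (ξ (vT.fl s z)) - A a (ξ z))
        (ξ (vT.fl s z) - ξ z) +
      ((n + 2) * η z ^ (n + 1)) * (der vX η z * inner ℝ ((A a (ξ (vT.fl s z)) - A a (ξ z)) 0)
        (u (vT.fl s z) - u z - c) + der vY η z * inner ℝ ((A a (ξ (vT.fl s z)) - A a (ξ z)) 1)
        (u (vT.fl s z) - u z - c))) := by
    refine ((iA.add (iX.const_mul (n + 2))).add (iY.const_mul (n + 2))).congr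
      (ae_of_all _ fun z => ?_)
    simp only [Pi.add_apply]
    ring
  have iV0 := D4_inner_tst hζ lΔV lΔV
  have iV : Integrable (fun z => η z ^ (n + 2) *
      ‖Vm a (ξ (vT.fl s z)) - Vm a (ξ z)‖ ^ 2) := by
    refine iV0.congr (ae_of_all _ fun z => ?_)
    simp only [real_inner_self_eq_norm_sq]
  have hRg : MeasurableSet Rg := by
    have m1 : MeasurableSet (bx 1 1) := by
      unfold bx
      measurability
    have m2 : MeasurableSet {z : Pt | |z.1| ≤ 1 / 2 ∧ |z.2.1| ≤ 1 / 2 ∧ |z.2.2| ≤ 3 / 4} := by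
      measurability
    exact m1.inter m2.compl
  have hRgc : Rg ⊆ cbx 1 1 := fun z hz => ⟨hz.1.1.le, hz.1.2.1.le, hz.1.2.2.le⟩
  have hccomp : IsCompact (cbx 1 1) := by
    have : cbx 1 1 = (Icc (-1) 1) ×ˢ ((Icc (-1) 1) ×ˢ (Icc (-1) 1)) := by
      ext z
      simp only [cbx, mem_ofPred_eq, mem_prod, mem_Icc, abs_le]
    rw [this]
    exact isCompact_Icc.prod (isCompact_Icc.prod isCompact_Icc)
  have iR : IntegrableOn (fun z => a (‖ξ z‖ + ‖u (vT.fl s z) - u z - c‖) *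
      ‖u (vT.fl s z) - u z - c‖ ^ 2) Rg := by
    have f2 : MemLp (fun z => u (vT.fl s z) - u z - c) 2 (volume.restrict Rg) :=
      (lf _ hccomp hcb).mono_measure (Measure.restrict_mono hRgc le_rfl)
    have x2 : MemLp ξ 2 (volume.restrict Rg) :=
      (lξ _ hccomp hcb).mono_measure (Measure.restrict_mono hRgc le_rfl)
    obtain ⟨lam, Lam, hlam, hb⟩ := ha.bd
    refine (f2.norm.integrable_sq).bdd_mul (c := Lam) ?_ ?_
    · exact ha.cont.comp_aestronglyMeasurable (x2.1.norm.add f2.1.norm)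
    · refine ae_of_all _ fun z => ?_
      have := hb (‖ξ z‖ + ‖u (vT.fl s z) - u z - c‖) (by positivity)
      rw [Real.norm_eq_abs, abs_of_nonneg (hlam.le.trans this.1)]
      exact this.2
  have iR' : Integrable (Rg.indicator (fun z => a (‖ξ z‖ + ‖u (vT.fl s z) - u z - c‖) *
      ‖u (vT.fl s z) - u z - c‖ ^ 2)) := (integrable_indicator_iff hRg).2 iR
  have key : ∫ z, (η z ^ (n + 2) * ‖Vm a (ξ (vT.fl s z)) - Vm a (ξ z)‖ ^ 2 / (2 * C₁) -
      C₃ * Rg.indicator (fun z => a (‖ξ z‖ + ‖u (vT.fl s z) - u z - c‖) *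
      ‖u (vT.fl s z) - u z - c‖ ^ 2) z) ≤
      ∫ z, (η z ^ (n + 2) * inner ℝ (A a (ξ (vT.fl s z)) - A a (ξ z)) (ξ (vT.fl s z) - ξ z) +
      ((n + 2) * η z ^ (n + 1)) * (der vX η z * inner ℝ ((A a (ξ (vT.fl s z)) - A a (ξ z)) 0)
        (u (vT.fl s z) - u z - c) + der vY η z * inner ℝ ((A a (ξ (vT.fl s z)) - A a (ξ z)) 1)
        (u (vT.fl s z) - u z - c))) := by
    refine integral_mono ((iV.div_const _).sub (iR'.const_mul _)) iG ?_
    intro z
    by_cases hz : z ∈ Rg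
    · simp only [indicator_of_mem hz]
      exact D4_pt hA hCy0 hY hM1 hn ha (h01 z).1 (h01 z).2 (hbd _ (hX2 z)) (hbd _ (hY2 z))
        _ _ _
    · simp only [indicator_of_notMem hz, hder0 vX (Or.inl rfl) z hz,
        hder0 vY (Or.inr rfl) z hz]
      have m1 := hA.mono a ha.toCl (ξ (vT.fl s z)) (ξ z)
      have e0 : 0 ≤ η z ^ (n + 2) := pow_nonneg (h01 z).1 _
      have hv0 := sq_nonneg ‖Vm a (ξ (vT.fl s z)) - Vm a (ξ z)‖
      have m2 : ‖Vm a (ξ (vT.fl s z)) - Vm a (ξ z)‖ ^ 2 / (2 * C₁) ≤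
          inner ℝ (A a (ξ (vT.fl s z)) - A a (ξ z)) (ξ (vT.fl s z) - ξ z) := by
        rw [div_le_iff₀ (by positivity)]
        nlinarith
      have m3 := mul_le_mul_of_nonneg_left m2 e0
      rw [mul_div_assoc]
      linarith
  rw [t', integral_sub (iV.div_const _) (iR'.const_mul _), integral_div, integral_const_mul,
    integral_indicator hRg] at key
  have hb1 : ∫ z in bx (1 / 2) (3 / 4), ‖Vm a (ξ (vT.fl s z)) - Vm a (ξ z)‖ ^ 2 ≤
      ∫ z, η z ^ (n + 2) * ‖Vm a (ξ (vT.fl s z)) - Vm a (ξ z)‖ ^ 2 := by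
    have mb : MeasurableSet (bx (1 / 2) (3 / 4)) := by
      unfold bx
      measurability
    calc ∫ z in bx (1 / 2) (3 / 4), ‖Vm a (ξ (vT.fl s z)) - Vm a (ξ z)‖ ^ 2
        = ∫ z in bx (1 / 2) (3 / 4), η z ^ (n + 2) *
            ‖Vm a (ξ (vT.fl s z)) - Vm a (ξ z)‖ ^ 2 := by
          refine setIntegral_congr_fun mb ?_
          intro z hz
          have : η z = 1 := h1 z (by norm_num; exact hz)
          simp only [this]
          ring
      _ ≤ _ := by
          refine setIntegral_le_integral iV (ae_of_all _ fun z => ?_)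
          exact mul_nonneg (pow_nonneg (h01 z).1 _) (sq_nonneg _)
  refine hb1.trans ?_
  have h2C : 0 < 2 * C₁ := by positivity
  have : (∫ z, η z ^ (n + 2) * ‖Vm a (ξ (vT.fl s z)) - Vm a (ξ z)‖ ^ 2) / (2 * C₁) ≤
      C₃ * ∫ z in Rg, a (‖ξ z‖ + ‖u (vT.fl s z) - u z - c‖) *
      ‖u (vT.fl s z) - u z - c‖ ^ 2 := by linarith
  rw [div_le_iff₀ h2C] at this
  linarith

end PLH
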