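import Mathlib

/-!
Definitions for the p-Laplace system on the first Heisenberg group (MP_55b5e8_an).
Points are `(x, (y, t))`, the group law is
`(x,y,t)(x',y',t') = (x+x', y+y', t+t'+(x y'-y x')/2)`.
-/

open MeasureTheory Set Filter Topology
open scoped ContDiff

namespace PLH

/-- Points of the first Heisenberg group, coordinates `(x, (y, t))`. -/
abbrev Pt := ℝ × ℝ × ℝ

/-- The group law. -/
noncomputable def mul (z w : Pt) : Pt :=
  (z.1 + w.1, z.2.1 + w.2.1, z.2.2 + w.2.2 + (z.1 * w.2.1 - z.2.1 * w.1) / 2)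

/-- The inverse. -/
def inv (z : Pt) : Pt := (-z.1, -z.2.1, -z.2.2)

/-- The dilations. -/
def dil (r : ℝ) (z : Pt) : Pt := (r * z.1, r * z.2.1, r ^ 2 * z.2.2)

/-- `z ↦ z₀ · δ_r z`. -/
noncomputable def tau (z₀ : Pt) (r : ℝ) (z : Pt) : Pt := mul z₀ (dil r z)

/-- An affine vector field `(al, be, ga + k1 x + k2 y)` that is constant along its own flow. -/
structure VF where
  al : ℝ
  be : ℝ
  ga : ℝ
  k1 : ℝ
  k2 : ℝ
  h : k1 * al + k2 * be = 0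

/-- The vector field. -/
def VF.v (F : VF) (z : Pt) : Pt := (F.al, F.be, F.ga + F.k1 * z.1 + F.k2 * z.2.1)

/-- Its flow: `z ↦ z + s v(z)`. -/
def VF.fl (F : VF) (s : ℝ) (z : Pt) : Pt :=
  (z.1 + s * F.al, z.2.1 + s * F.be, z.2.2 + s * (F.ga + F.k1 * z.1 + F.k2 * z.2.1))

/-- `X = ∂x - (y/2) ∂t` (right translations by `(s,0,0)`). -/
noncomputable def vX : VF := ⟨1, 0, 0, 0, -1 / 2, by norm_num⟩
/-- `Y = ∂y + (x/2) ∂t` (right translations by `(0,s,0)`). -/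
noncomputable def vY : VF := ⟨0, 1, 0, 1 / 2, 0, by norm_num⟩
/-- `T = ∂t = [X,Y]`. -/
def vT : VF := ⟨0, 0, 1, 0, 0, by norm_num⟩
/-- The Euclidean `∂x`. -/
def ex : VF := ⟨1, 0, 0, 0, 0, by norm_num⟩
/-- The Euclidean `∂y`. -/
def ey : VF := ⟨0, 1, 0, 0, 0, by norm_num⟩
/-- `X + y T` (left translations by `(s,0,0)`). -/
noncomputable def lX : VF := ⟨1, 0, 0, 0, 1 / 2, by norm_num⟩
/-- `Y - x T` (left translations by `(0,s,0)`). -/
noncomputable def lY : VF := ⟨0, 1, 0, -1 / 2, 0, by norm_num⟩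

section
variable {E : Type*} [NormedAddCommGroup E] [NormedSpace ℝ E]

/-- Derivative of a function along a vector field. -/
noncomputable def der (F : VF) (φ : Pt → E) (z : Pt) : E := fderiv ℝ φ z (F.v z)

/-- Test functions on `U`: smooth, with compact support inside `U`. -/
structure Tst (U : Set Pt) (φ : Pt → ℝ) : Prop where
  smooth : ContDiff ℝ ∞ φ
  cpt : HasCompactSupport φ
  supp : tsupport φ ⊆ U

/-- `g` is the weak derivative of `f` along `F` on `U` (the fields `F` are divergence free). -/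
structure WD (F : VF) (U : Set Pt) (f g : Pt → E) : Prop where
  lf : LocallyIntegrableOn f U
  lg : LocallyIntegrableOn g U
  eq : ∀ φ : Pt → ℝ, Tst U φ → ∫ z, der F φ z • f z = - ∫ z, φ z • g z

/-- Locally square integrable on `U`. -/
def L2l (U : Set Pt) (f : Pt → E) : Prop :=
  ∀ K : Set Pt, IsCompact K → K ⊆ U → MemLp f 2 (volume.restrict K)

/-- The box `|x|, |y| < ρ, |t| < h`. -/
def bx (ρ h : ℝ) : Set Pt := {z | |z.1| < ρ ∧ |z.2.1| < ρ ∧ |z.2.2| < h}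

/-- The lateral part of a box: `ρ/2 ≤ max(|x|,|y|) < ρ, |t| < h`. -/
def lat (ρ h : ℝ) : Set Pt := bx ρ h \ {z | |z.1| < ρ / 2 ∧ |z.2.1| < ρ / 2}

/-- The gauge box with centre `z₀` and radius `r`: `z₀ · {|x|,|y| < r, |t| < r²}`. -/
def bl (z₀ : Pt) (r : ℝ) : Set Pt := {z | mul (inv z₀) z ∈ bx r (r ^ 2)}

/-- Oscillation in the square mean. -/
noncomputable def exc (f : Pt → E) (S : Set Pt) : ℝ :=
  ∫ z in S, ‖f z - ⨍ w in S, f w‖ ^ 2

end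

section
variable {E : Type*} [NormedAddCommGroup E] [InnerProductSpace ℝ E]

/-- The flux `a(|ξ|) ξ`. -/
noncomputable def A (a : ℝ → ℝ) (ξ : E) : E := a ‖ξ‖ • ξ

/-- `V(ξ) = a(|ξ|)^{1/2} ξ`. -/
noncomputable def Vm (a : ℝ → ℝ) (ξ : E) : E := Real.sqrt (a ‖ξ‖) • ξ

end

/-- The class of nonlinearities of growth `m = p - 2`. -/
structure Cl (m : ℝ) (a : ℝ → ℝ) : Prop where
  pos : ∀ s, 0 < s → 0 < a s
  lo : ∀ s S, 0 < s → s ≤ S → min 1 ((S / s) ^ m) * a s ≤ a S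
  hi : ∀ s S, 0 < s → s ≤ S → a S ≤ max 1 ((S / s) ^ m) * a s

/-- Continuous, and bounded between positive constants. -/
structure Nice (m : ℝ) (a : ℝ → ℝ) : Prop extends Cl m a where
  cont : Continuous a
  bd : ∃ lam Lam : ℝ, 0 < lam ∧ ∀ s, 0 ≤ s → lam ≤ a s ∧ a s ≤ Lam

section
variable {W : Type*} [NormedAddCommGroup W] [InnerProductSpace ℝ W]

/-- Pairs `(ξ 0, ξ 1)` of vectors of `W`, with the Euclidean norm. -/
abbrev V2 (W : Type*) := PiLp 2 (fun _ : Fin 2 => W)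

/-- The equation `X σ₀ + Y σ₁ = -h` in the sense of distributions. -/
def SolR (U : Set Pt) (σ : Pt → V2 W) (h : Pt → W) : Prop :=
  ∀ φ : Pt → ℝ, Tst U φ →
    ∫ z, (der vX φ z • σ z 0 + der vY φ z • σ z 1) = ∫ z, φ z • h z

/-- The equation `X σ₀ + Y σ₁ = 0` in the sense of distributions. -/
def Sol0 (U : Set Pt) (σ : Pt → V2 W) : Prop :=
  ∀ φ : Pt → ℝ, Tst U φ → ∫ z, (der vX φ z • σ z 0 + der vY φ z • σ z 1) = 0

/-- A solution of the system with nonlinearity `a` and its horizontal gradient. -/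
structure SolU (a : ℝ → ℝ) (U : Set Pt) (u : Pt → W) (ξ : Pt → V2 W) : Prop where
  lu : L2l U u
  lξ : L2l U ξ
  gx : WD vX U u (fun z => ξ z 0)
  gy : WD vY U u (fun z => ξ z 1)
  sol : Sol0 U (fun z => A a (ξ z))

/-- A regular solution: all first derivatives of the gradient are in `L²(U)`. -/
structure Rs (m : ℝ) (a : ℝ → ℝ) (U : Set Pt) (u ut : Pt → W) (ξ ξx ξy ξt : Pt → V2 W) :
    Prop where
  nice : Nice m a
  opn : IsOpen U
  mu : MemLp u 2 (volume.restrict U)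
  mτ : MemLp ut 2 (volume.restrict U)
  mξ : MemLp ξ 2 (volume.restrict U)
  mx : MemLp ξx 2 (volume.restrict U)
  my : MemLp ξy 2 (volume.restrict U)
  mt : MemLp ξt 2 (volume.restrict U)
  gx : WD vX U u (fun z => ξ z 0)
  gy : WD vY U u (fun z => ξ z 1)
  gt : WD vT U u ut
  wx : WD vX U ξ ξx
  wy : WD vY U ξ ξy
  wt : WD vT U ξ ξt
  sol : Sol0 U (fun z => A a (ξ z))

/-- The derivatives `A'`, `V'` of `A(ξ)`, `V(ξ)` along `F`, with the structure inequalities. -/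
structure DA (C : ℝ) (a : ℝ → ℝ) (U : Set Pt) (F : VF) (ξ ξ' A' V' : Pt → V2 W) : Prop where
  mA : MemLp A' 2 (volume.restrict U)
  mV : MemLp V' 2 (volume.restrict U)
  wA : WD F U (fun z => A a (ξ z)) A'
  wV : WD F U (fun z => Vm a (ξ z)) V'
  q1 : ∀ᵐ z ∂(volume.restrict U), ‖V' z‖ ^ 2 ≤ C * inner ℝ (A' z) (ξ' z)
  q2 : ∀ᵐ z ∂(volume.restrict U), ‖A' z‖ ^ 2 ≤ C * (a ‖ξ z‖ * ‖V' z‖ ^ 2)
  q3 : ∀ᵐ z ∂(volume.restrict U), a ‖ξ z‖ * ‖ξ' z‖ ^ 2 ≤ C * ‖V' z‖ ^ 2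
  q4 : ∀ᵐ z ∂(volume.restrict U), ‖V' z‖ ^ 2 ≤ C * (a ‖ξ z‖ * ‖ξ' z‖ ^ 2)

end

/-- The weight of the second Caccioppoli inequality. -/
noncomputable def wt (η : Pt → ℝ) (z : Pt) : ℝ :=
  |der vX (der vX (fun w => η w ^ 2)) z| + |der vX (der vY (fun w => η w ^ 2)) z| +
  |der vY (der vX (fun w => η w ^ 2)) z| + |der vY (der vY (fun w => η w ^ 2)) z| +
  (der vX η z) ^ 2 + (der vY η z) ^ 2 + |der vT (fun w => η w ^ 2) z|

section
variable {E : Type*} [NormedAddCommGroup E] [InnerProductSpace ℝ E]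

/-- The inequalities from which the decay is derived. -/
structure Core (K : ℝ) (Kf : ℝ → ℝ) (U : Set Pt) (V Vx Vy Vt : Pt → E) : Prop where
  opn : IsOpen U
  sub : {z : Pt | |z.1| ≤ 4 ∧ |z.2.1| ≤ 4 ∧ |z.2.2| ≤ 16} ⊆ U
  m0 : MemLp V 2 (volume.restrict U)
  mx : MemLp Vx 2 (volume.restrict U)
  my : MemLp Vy 2 (volume.restrict U)
  mt : MemLp Vt 2 (volume.restrict U)
  wx : WD vX U V Vx
  wy : WD vY U V Vy
  wt' : WD vT U V Vt
  cT : ∀ η : Pt → ℝ, Tst U η → ∫ z, η z ^ 2 * ‖Vt z‖ ^ 2 ≤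
    K * ∫ z, ((der vX η z) ^ 2 + (der vY η z) ^ 2) * (‖Vx z‖ ^ 2 + ‖Vy z‖ ^ 2)
  cH : ∀ η : Pt → ℝ, Tst U η → ∀ c : E, ∫ z, η z ^ 2 * (‖Vx z‖ ^ 2 + ‖Vy z‖ ^ 2) ≤
    K * (∫ z, wt η z * ‖V z - c‖ ^ 2) + K * ∫ z, η z ^ 2 * (‖V z - c‖ * ‖Vt z‖)
  td : ∀ ε : ℝ, 0 < ε → ∀ s : ℝ, |s| ≤ 1 / 2 → ∀ c : E,
    ∫ z in bx (1 / 2) (3 / 4), ‖V (vT.fl s z) - V z‖ ^ 2 ≤
      ε * (∫ z in bx 2 4, ‖V z - c‖ ^ 2) +
        Kf ε * ∫ z in bx 2 4 \ bx (1 / 4) (1 / 16), ‖Vt z‖ ^ 2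

end

end PLH
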