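import Pool.Agent.Lib.PLH.T5
import Pool.Agent.Lib.PLH.T7

/-!
MODULE T12 (200 lines). Integration by parts for products of Sobolev functions.

For small `s ≠ 0`, with `K = tsupport ζ` and `K ⊆ int K' ⊆ K' ⊆ U`:
`∫ ζ(z) ⟨s⁻¹(f(F.fl s z) - f z), g(F.fl s z)⟩ dz + ∫ ζ(z) ⟨f z, s⁻¹(g(F.fl s z) - g z)⟩ dz`
`= s⁻¹ (∫ ζ(z) ⟨f,g⟩(F.fl s z) dz - ∫ ζ ⟨f,g⟩) = ∫ s⁻¹(ζ(F.fl (-s) z) - ζ z) ⟨f z, g z⟩ dz`
(measure preserving). As `s → 0` the quotients converge to `f'`, `g'` in `L²(K)` (`dq_tendsto`),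
`g(F.fl s ·) → g` in `L²(K)` (it is `g + s * quotient`), and `s⁻¹(ζ∘F.fl(-s) - ζ) → -der F ζ`
uniformly, with supports in `K'`.
-/

/-!
MODULE T12 (200 lines). Integration by parts for products of Sobolev functions.

For small `s ≠ 0`, with `K = tsupport ζ` and `K ⊆ int K' ⊆ K' ⊆ U`:
`∫ ζ(z) ⟨s⁻¹(f(F.fl s z) - f z), g(F.fl s z)⟩ dz + ∫ ζ(z) ⟨f z, s⁻¹(g(F.fl s z) - g z)⟩ dz`
`= s⁻¹ (∫ ζ(z) ⟨f,g⟩(F.fl s z) dz - ∫ ζ ⟨f,g⟩) = ∫ s⁻¹(ζ(F.fl (-s) z) - ζ z) ⟨f z, g z⟩ dz`
(measure preserving). As `s → 0` the quotients converge to `f'`, `g'` in `L²(K)` (`dq_tendsto`),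
`g(F.fl s ·) → g` in `L²(K)` (it is `g + s * quotient`), and `s⁻¹(ζ∘F.fl(-s) - ζ) → -der F ζ`
uniformly, with supports in `K'`.
-/

open MeasureTheory Set Filter Topology
open scoped ContDiff ENNReal

namespace PLH

variable {E : Type*} [NormedAddCommGroup E] [InnerProductSpace ℝ E] [CompleteSpace E]

private theorem exists_cut {U K : Set Pt} (hU : IsOpen U) (hK : IsCompact K) (hKU : K ⊆ U) :
    ∃ η : Pt → ℝ, Tst U η ∧ ∀ᶠ z in 𝓝ˢ K, η z = 1 := by
  obtain ⟨K', hK', hKK', hK'U⟩ := exists_compact_between hK hU hKU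
  obtain ⟨f, h1, h0, -⟩ := exists_contMDiffMap_one_nhds_of_subset_interior
    (n := (⊤ : ℕ∞)) (modelWithCornersSelf ℝ Pt) hK.isClosed hKK'
  have hs : tsupport (f : Pt → ℝ) ⊆ K' := by
    refine closure_minimal ?_ hK'.isClosed
    intro z hz
    by_contra hz'
    exact hz (h0 z hz')
  exact ⟨f, ⟨f.contMDiff.contDiff, hK'.of_isClosed_subset (isClosed_tsupport _) hs,
    hs.trans hK'U⟩, h1⟩

omit [CompleteSpace E] in
private theorem memLp_cut {U : Set Pt} {f : Pt → E} (hf : L2l U f) {ζ : Pt → ℝ}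
    (hζc : Continuous ζ) (hc : HasCompactSupport ζ) (hs : tsupport ζ ⊆ U) :
    MemLp (fun z => ζ z • f z) 2 volume := by
  have h1 := hf (tsupport ζ) hc hs
  obtain ⟨C, hC⟩ := hζc.bounded_above_of_compact_support hc
  have h2 : MemLp ζ ⊤ (volume.restrict (tsupport ζ)) :=
    memLp_top_of_bound hζc.aestronglyMeasurable C (ae_of_all _ hC)
  have h3 : MemLp (fun z => ζ z • f z) 2 (volume.restrict (tsupport ζ)) := h1.smul h2
  have h4 := (memLp_indicator_iff_restrict (isClosed_tsupport ζ).measurableSet).2 h3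
  have e : (tsupport ζ).indicator (fun z => ζ z • f z) = fun z => ζ z • f z := by
    rw [indicator_eq_self]
    intro z hz
    have : ζ z ≠ 0 := by
      intro h
      simp [h] at hz
    exact subset_tsupport _ this
  rwa [e] at h4

omit [CompleteSpace E] in
private theorem int_inner {μ : Measure Pt} {f g : Pt → E} (hf : MemLp f 2 μ) (hg : MemLp g 2 μ) :
    Integrable (fun z => (inner ℝ (f z) (g z) : ℝ)) μ := by
  have h := hf.norm.integrable_mul hg.norm
  refine h.mono (hf.1.inner hg.1) (ae_of_all _ fun z => ?_)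
  simp only [Pi.mul_apply, norm_mul, norm_norm]
  exact norm_inner_le_norm _ _

omit [CompleteSpace E] in
private theorem lim_inner {μ : Measure Pt} {l : Filter ℝ} {G : ℝ → Pt → E} {f g : Pt → E}
    (hG : ∀ s, MemLp (G s) 2 μ) (hf : MemLp f 2 μ) (hg : MemLp g 2 μ)
    (h : Tendsto (fun s => eLpNorm (fun z => G s z - f z) 2 μ) l (𝓝 0)) :
    Tendsto (fun s => ∫ z, (inner ℝ (G s z) (g z) : ℝ) ∂μ) l (𝓝 (∫ z, inner ℝ (f z) (g z) ∂μ)) := by
  refine tendsto_integral_of_L1' _ (int_inner hf hg).1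
    (Eventually.of_forall fun s => int_inner (hG s) hg) ?_
  have h1 : Tendsto (fun s => eLpNorm (fun z => G s z - f z) 2 μ * eLpNorm g 2 μ) l (𝓝 0) := by
    have := ENNReal.Tendsto.mul_const h (Or.inr hg.2.ne) (b := eLpNorm g 2 μ)
    rwa [zero_mul] at this
  refine tendsto_of_tendsto_of_tendsto_of_le_of_le tendsto_const_nhds h1 (fun s => zero_le)
    fun s => ?_
  have h2 := eLpNorm_le_eLpNorm_mul_eLpNorm_of_nnnorm (p := 2) (q := 2) (r := 1) (μ := μ)
    ((hG s).1.sub hf.1) hg.1 (fun x y => (inner ℝ x y : ℝ)) 1 (ae_of_all _ fun z => by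
      rw [one_mul]
      exact nnnorm_inner_le_nnnorm _ _)
  have e : ((fun z => (inner ℝ (G s z) (g z) : ℝ)) - fun z => (inner ℝ (f z) (g z) : ℝ)) =
      fun z => (inner ℝ ((G s - f) z) (g z) : ℝ) := by
    funext z
    simp only [Pi.sub_apply, inner_sub_left]
  rw [e]
  refine h2.trans (le_of_eq ?_)
  simp only [ENNReal.coe_one, one_mul]
  rfl

private theorem ibp_global {F : VF} {h h' g g' : Pt → E} (wh : WD F univ h h')
    (wg : WD F univ g g') (lh : MemLp h 2 volume) (lh' : MemLp h' 2 volume)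
    (lg : MemLp g 2 volume) (lg' : MemLp g' 2 volume)
    (ch : HasCompactSupport h) (cg : HasCompactSupport g) :
    ∫ z, (inner ℝ (h' z) (g z) : ℝ) = - ∫ z, inner ℝ (h z) (g' z) := by
  have hfl : ∀ {f : Pt → E}, MemLp f 2 volume → ∀ s, MemLp (fun z => f (F.fl s z)) 2 volume :=
    fun hf s => hf.comp_measurePreserving (F.mp s)
  have hdq : ∀ {f : Pt → E}, MemLp f 2 volume → ∀ s : ℝ,
      MemLp (fun z => s⁻¹ • (f (F.fl s z) - f z)) 2 volume :=
    fun hf s => ((hfl hf s).sub hf).const_smul _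
  have key : ∀ {f f' k : Pt → E}, WD F univ f f' → MemLp f 2 volume → MemLp f' 2 volume →
      MemLp k 2 volume → HasCompactSupport k →
      Tendsto (fun s : ℝ => ∫ z, (inner ℝ (s⁻¹ • (f (F.fl s z) - f z)) (k z) : ℝ)) (𝓝[≠] 0)
        (𝓝 (∫ z, inner ℝ (f' z) (k z))) := by
    intro f f' k wf lf lf' lk ck
    have e : ∀ q : Pt → E, ∫ z, (inner ℝ (q z) (k z) : ℝ) =
        ∫ z in tsupport k, (inner ℝ (q z) (k z) : ℝ) := by
      intro q
      refine (setIntegral_eq_integral_of_forall_compl_eq_zero fun z hz => ?_).symm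
      rw [image_eq_zero_of_notMem_tsupport hz, inner_zero_right]
    have h1 := wf.dq_tendsto isOpen_univ (fun K _ _ => lf'.restrict K) (K := tsupport k) ck
      (subset_univ _)
    have h2 := lim_inner (μ := volume.restrict (tsupport k)) (fun s => (hdq lf s).restrict _)
      (lf'.restrict _) (lk.restrict _) h1
    rw [← e] at h2
    refine h2.congr fun s => ?_
    rw [← e]
  have t1 := key wh lh lh' lg cg
  have t2 := key wg lg lg' lh ch
  have hneg : Tendsto (fun s : ℝ => -s) (𝓝[≠] 0) (𝓝[≠] 0) := by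
    refine tendsto_nhdsWithin_of_tendsto_nhds_of_eventually_within _ ?_ ?_
    · have : Tendsto (fun s : ℝ => -s) (𝓝 0) (𝓝 0) := by
        have := (continuous_neg (G := ℝ)).tendsto 0
        simpa using this
      exact this.mono_left nhdsWithin_le_nhds
    · filter_upwards [self_mem_nhdsWithin] with s hs
      simpa using hs
  have t3 := (t2.comp hneg).neg
  have e1 : ∫ z, (inner ℝ (g' z) (h z) : ℝ) = ∫ z, inner ℝ (h z) (g' z) :=
    integral_congr_ae (ae_of_all _ fun z => real_inner_comm _ _)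
  rw [e1] at t3
  refine tendsto_nhds_unique (t1.congr' ?_) t3
  filter_upwards [self_mem_nhdsWithin] with s hs
  have hs0 : s ≠ 0 := hs
  have i1 : ∫ z, (inner ℝ (h (F.fl s z)) (g z) : ℝ) = ∫ z, inner ℝ (h z) (g (F.fl (-s) z)) := by
    have hme : MeasurableEmbedding (F.fl s) := (F.flH s).measurableEmbedding
    rw [← (F.mp s).integral_comp hme (fun z => (inner ℝ (h z) (g (F.fl (-s) z)) : ℝ))]
    refine integral_congr_ae (ae_of_all _ fun z => ?_)
    simp only [F.fl_fl, neg_add_cancel, F.fl_zero]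
  simp only [Function.comp_apply]
  have i2 : ∫ z, (inner ℝ (s⁻¹ • (h (F.fl s z) - h z)) (g z) : ℝ) =
      s⁻¹ * (∫ z, (inner ℝ (h (F.fl s z)) (g z) : ℝ)) - s⁻¹ * ∫ z, (inner ℝ (h z) (g z) : ℝ) := by
    rw [← integral_const_mul, ← integral_const_mul, ← integral_sub
      ((int_inner (hfl lh s) lg).const_mul _) ((int_inner lh lg).const_mul _)]
    refine integral_congr_ae (ae_of_all _ fun z => ?_)
    simp only [real_inner_smul_left, inner_sub_left]
    ring
  have i3 : ∫ z, (inner ℝ ((-s)⁻¹ • (g (F.fl (-s) z) - g z)) (h z) : ℝ) =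
      -(s⁻¹ * (∫ z, (inner ℝ (h z) (g (F.fl (-s) z)) : ℝ)) -
        s⁻¹ * ∫ z, (inner ℝ (h z) (g z) : ℝ)) := by
    rw [← integral_const_mul, ← integral_const_mul, ← integral_sub
      ((int_inner lh (hfl lg (-s))).const_mul _) ((int_inner lh lg).const_mul _), ← integral_neg]
    refine integral_congr_ae (ae_of_all _ fun z => ?_)
    simp only [real_inner_smul_left, inner_sub_left, inv_neg]
    rw [real_inner_comm (h z) (g (F.fl (-s) z)), real_inner_comm (h z) (g z)]
    ring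
  rw [i2, i3, i1]
  ring

theorem WD.ibp {F : VF} {U : Set Pt} (hU : IsOpen U) {f g f' g' : Pt → E}
    (hf : WD F U f f') (hg : WD F U g g') (lf : L2l U f) (lf' : L2l U f') (lg : L2l U g)
    (lg' : L2l U g') {ζ : Pt → ℝ} (hζ : Tst U ζ) :
    ∫ z, ζ z * inner ℝ (f' z) (g z) =
      -(∫ z, ζ z * inner ℝ (f z) (g' z)) - ∫ z, der F ζ z * inner ℝ (f z) (g z) := by
  obtain ⟨η, hη, hη1⟩ := exists_cut hU hζ.cpt hζ.supp
  have dζ : Tst U (der F ζ) := hζ.der F
  have dη : Tst U (der F η) := hη.der F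
  have m : ∀ {q : Pt → E}, L2l U q → ∀ {θ : Pt → ℝ}, Tst U θ →
      MemLp (fun z => θ z • q z) 2 volume :=
    fun hq _ hθ => memLp_cut hq hθ.smooth.continuous hθ.cpt hθ.supp
  have h1 := ibp_global (hf.extend hU hζ) (hg.extend hU hη) (m lf hζ)
    ((m lf' hζ).add (m lf dζ)) (m lg hη) ((m lg' hη).add (m lg dη))
    (hζ.cpt.smul_right) (hη.cpt.smul_right)
  have z1 : ∀ z, ζ z ≠ 0 ∨ der F ζ z ≠ 0 → η z = 1 ∧ der F η z = 0 := by
    intro z hz
    have hz2 : z ∈ tsupport ζ := by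
      rcases hz with hz | hz
      · exact subset_tsupport _ hz
      · by_contra hcon
        refine hz ?_
        have : fderiv ℝ ζ z = 0 := by
          by_contra h3
          exact hcon (support_fderiv_subset ℝ h3)
        simp [der, this]
    have h3 : ∀ᶠ w in 𝓝 z, η w = 1 := (hη1.filter_mono (nhds_le_nhdsSet hz2))
    refine ⟨h3.self_of_nhds, ?_⟩
    have h4 : fderiv ℝ η z = 0 := by
      have h5 : η =ᶠ[𝓝 z] fun _ => (1 : ℝ) := h3
      rw [h5.fderiv_eq]
      simp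
    simp [der, h4]
  have e1 : ∫ z, (inner ℝ (ζ z • f' z + der F ζ z • f z) (η z • g z) : ℝ) =
      (∫ z, ζ z * inner ℝ (f' z) (g z)) + ∫ z, der F ζ z * inner ℝ (f z) (g z) := by
    have a1 : Integrable (fun z => ζ z * (inner ℝ (f' z) (g z) : ℝ)) := by
      refine (int_inner (m lf' hζ) (m lg hη)).congr (ae_of_all _ fun z => ?_)
      simp only [real_inner_smul_left, real_inner_smul_right]
      by_cases hz : ζ z = 0
      · simp [hz]
      · rw [(z1 z (Or.inl hz)).1]; ring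
    have a2 : Integrable (fun z => der F ζ z * (inner ℝ (f z) (g z) : ℝ)) := by
      refine (int_inner (m lf dζ) (m lg hη)).congr (ae_of_all _ fun z => ?_)
      simp only [real_inner_smul_left, real_inner_smul_right]
      by_cases hz : der F ζ z = 0
      · simp [hz]
      · rw [(z1 z (Or.inr hz)).1]; ring
    rw [← integral_add a1 a2]
    refine integral_congr_ae (ae_of_all _ fun z => ?_)
    simp only [inner_add_left, real_inner_smul_left, real_inner_smul_right]
    by_cases hz : ζ z ≠ 0 ∨ der F ζ z ≠ 0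
    · rw [(z1 z hz).1]; ring
    · push Not at hz
      rw [hz.1, hz.2]; ring
  have e2 : ∫ z, (inner ℝ (ζ z • f z) (η z • g' z + der F η z • g z) : ℝ) =
      ∫ z, ζ z * inner ℝ (f z) (g' z) := by
    refine integral_congr_ae (ae_of_all _ fun z => ?_)
    simp only [inner_add_right, real_inner_smul_left, real_inner_smul_right]
    by_cases hz : ζ z = 0
    · simp [hz]
    · rw [(z1 z (Or.inl hz)).1, (z1 z (Or.inl hz)).2]; ring
  rw [e1, e2] at h1
  linarith

end PLH
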