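import Pool.Agent.Lib.PLH.T11
import Pool.Agent.Lib.PLH.T12

/-!
MODULE E1 (250 lines). The differentiated equations and the Caccioppoli inequality for `∂_t V`.

`sol_T`: test the equation with `Tφ` (`Tst.der`): `0 = ∫ (X T φ) A₀ + (Y T φ) A₁`, `XT = TX`, `YT = TY`
(`comm_XT`, `comm_YT`) and the weak `T`-derivative of the components (`DA.wA`, `WD.clm` for the
coordinate projections): `∫ (Xφ) At₀ + (Yφ) At₁ = 0`.
`sol_X`: test with `Xφ`: `XXφ` and `YXφ = XYφ - Tφ` (`comm_XY`):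
`0 = ∫ (XXφ) A₀ + (XYφ - Tφ) A₁ = -∫ (Xφ) Ax₀ - ∫ (Yφ) Ax₁ + ∫ φ At₁`.
`sol_Y`: test with `Yφ`, `XYφ = YXφ + Tφ`:
`0 = ∫ (YXφ + Tφ) A₀ + (YYφ) A₁ = -∫ (Xφ) Ay₀ - ∫ φ At₀ - ∫ (Yφ) Ay₁`.
`ut_eq`: `WD.gradT` and `WD.uniq`: `ut = ξx 1 - ξy 0` a.e. on `U`.
`cacT`: `ut` has the weak derivatives `X ut = ξt 0`, `Y ut = ξt 1` (`WD.commT`). `SolR.test'` for
`σ = At`, `h = 0`, cut-off `η²`, `f = ut`:
`∫ η² ⟨At, ξt⟩ = -∫ 2η (Xη ⟨At 0, ut⟩ + Yη ⟨At 1, ut⟩) ≤ 2 ∫ |η| (Xη²+Yη²)^{1/2} ‖At‖ ‖ut‖`, and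
`‖Vt‖² ≤ C⟨At,ξt⟩`, `‖At‖² ≤ C a(‖ξ‖)‖Vt‖²`, so by Young
`∫ η²‖Vt‖² ≤ C' ∫ (Xη²+Yη²) a(‖ξ‖) ‖ut‖²` (all integrals are finite: `a` is bounded), and
`a‖ut‖² ≤ 2a(‖ξx‖²+‖ξy‖²) ≤ 2C(‖Vx‖²+‖Vy‖²)`.
-/

open MeasureTheory Set Filter Topology
open scoped ContDiff ENNReal

namespace PLH

variable {W : Type*} [NormedAddCommGroup W] [InnerProductSpace ℝ W] [FiniteDimensional ℝ W]
variable {m C : ℝ} {a : ℝ → ℝ} {U : Set Pt} {u ut : Pt → W} {ξ ξx ξy ξt : Pt → V2 W}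
variable {Ax Ay At Vx Vy Vt : Pt → V2 W}

private theorem E1_int {E : Type*} [NormedAddCommGroup E] [NormedSpace ℝ E] {φ : Pt → ℝ}
    (hφ : Tst U φ) {f : Pt → E} (hf : LocallyIntegrableOn f U) :
    Integrable (fun z => φ z • f z) := by
  have h1 : IntegrableOn f (tsupport φ) := hf.integrableOn_compact_subset hφ.supp hφ.cpt
  have h2 : IntegrableOn (fun z => φ z • f z) (tsupport φ) :=
    h1.continuousOn_smul hφ.smooth.continuous.continuousOn hφ.cpt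
  refine (integrableOn_iff_integrable_of_support_subset ?_).1 h2
  intro z hz
  apply subset_tsupport
  intro h0
  apply hz
  show φ z • f z = 0
  rw [h0, zero_smul]

private theorem E1_inner {E : Type*} [NormedAddCommGroup E] [InnerProductSpace ℝ E]
    {μ : Measure Pt} {f g : Pt → E} (hf : MemLp f 2 μ) (hg : MemLp g 2 μ) :
    Integrable (fun z => inner ℝ (f z) (g z)) μ := by
  have h1 : Integrable (fun z => ‖f z‖ * ‖g z‖) μ := hf.norm.integrable_mul hg.norm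
  refine h1.mono' (hf.1.inner hg.1) (ae_of_all _ fun z => ?_)
  exact norm_inner_le_norm _ _

omit [FiniteDimensional ℝ W] in
private theorem E1_cmp {μ : Measure Pt} {f : Pt → V2 W} (hf : MemLp f 2 μ) (i : Fin 2) :
    MemLp (fun z => f z i) 2 μ :=
  (PiLp.proj (𝕜 := ℝ) 2 (fun _ : Fin 2 => W) i).comp_memLp' hf

private theorem E1_WDc {F : VF} {f g : Pt → V2 W} (h : WD F U f g) (i : Fin 2) :
    WD F U (fun z => f z i) (fun z => g z i) :=
  h.clm (PiLp.proj (𝕜 := ℝ) 2 (fun _ : Fin 2 => W) i)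

theorem sol_T (h : Rs m a U u ut ξ ξx ξy ξt) (dT : DA C a U vT ξ ξt At Vt) : Sol0 U At := by
  intro φ hφ
  have hXφ := hφ.der vX
  have hYφ := hφ.der vY
  have hTφ := hφ.der vT
  have e := h.sol (der vT φ) hTφ
  have w0 := E1_WDc dT.wA 0
  have w1 := E1_WDc dT.wA 1
  have e0 := w0.eq _ hXφ
  have e1 := w1.eq _ hYφ
  have c0 : (fun z => der vX (der vT φ) z • A a (ξ z) 0 + der vY (der vT φ) z • A a (ξ z) 1) =
      fun z => der vT (der vX φ) z • A a (ξ z) 0 + der vT (der vY φ) z • A a (ξ z) 1 := by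
    funext z
    rw [comm_XT hφ.smooth, comm_YT hφ.smooth]
  have e' : ∫ z, (der vX (der vT φ) z • A a (ξ z) 0 + der vY (der vT φ) z • A a (ξ z) 1) = 0 := e
  rw [c0, integral_add (E1_int (hXφ.der vT) w0.lf) (E1_int (hYφ.der vT) w1.lf), e0, e1] at e'
  rw [integral_add (E1_int hXφ w0.lg) (E1_int hYφ w1.lg)]
  have : -((∫ z, der vX φ z • At z 0) + ∫ z, der vY φ z • At z 1) = 0 := by
    rw [← e']; abel
  exact neg_eq_zero.1 this

theorem sol_X (h : Rs m a U u ut ξ ξx ξy ξt) (dX : DA C a U vX ξ ξx Ax Vx)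
    (dT : DA C a U vT ξ ξt At Vt) : SolR U Ax (fun z => At z 1) := by
  intro φ hφ
  have hXφ := hφ.der vX
  have hYφ := hφ.der vY
  have hTφ := hφ.der vT
  have x0 := E1_WDc dX.wA 0
  have x1 := E1_WDc dX.wA 1
  have t1 := E1_WDc dT.wA 1
  have e' : ∫ z, (der vX (der vX φ) z • A a (ξ z) 0 + der vY (der vX φ) z • A a (ξ z) 1) = 0 :=
    h.sol (der vX φ) hXφ
  have c0 : (fun z => der vX (der vX φ) z • A a (ξ z) 0 + der vY (der vX φ) z • A a (ξ z) 1) =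
      fun z => der vX (der vX φ) z • A a (ξ z) 0 +
        (der vX (der vY φ) z • A a (ξ z) 1 - der vT φ z • A a (ξ z) 1) := by
    funext z
    rw [← comm_XY hφ.smooth z, ← sub_smul]
    congr 2
    ring
  have i1 : Integrable (fun z => der vX (der vY φ) z • A a (ξ z) 1 -
      der vT φ z • A a (ξ z) 1) := (E1_int (hYφ.der vX) x1.lf).sub (E1_int hTφ t1.lf)
  rw [c0, integral_add (E1_int (hXφ.der vX) x0.lf) i1,
    integral_sub (E1_int (hYφ.der vX) x1.lf) (E1_int hTφ t1.lf), x0.eq _ hXφ, x1.eq _ hYφ,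
    t1.eq _ hφ] at e'
  rw [integral_add (E1_int hXφ x0.lg) (E1_int hYφ x1.lg)]
  have : ((∫ z, der vX φ z • Ax z 0) + ∫ z, der vY φ z • Ax z 1) - (∫ z, φ z • At z 1) = 0 := by
    rw [← neg_eq_zero, ← e']; abel
  exact sub_eq_zero.1 this

theorem sol_Y (h : Rs m a U u ut ξ ξx ξy ξt) (dY : DA C a U vY ξ ξy Ay Vy)
    (dT : DA C a U vT ξ ξt At Vt) : SolR U Ay (fun z => -At z 0) := by
  intro φ hφ
  have hXφ := hφ.der vX
  have hYφ := hφ.der vY
  have hTφ := hφ.der vT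
  have x0 := E1_WDc dY.wA 0
  have x1 := E1_WDc dY.wA 1
  have t0 := E1_WDc dT.wA 0
  have e' : ∫ z, (der vX (der vY φ) z • A a (ξ z) 0 + der vY (der vY φ) z • A a (ξ z) 1) = 0 :=
    h.sol (der vY φ) hYφ
  have c0 : (fun z => der vX (der vY φ) z • A a (ξ z) 0 + der vY (der vY φ) z • A a (ξ z) 1) =
      fun z => (der vY (der vX φ) z • A a (ξ z) 0 + der vT φ z • A a (ξ z) 0) +
        der vY (der vY φ) z • A a (ξ z) 1 := by
    funext z
    rw [← comm_XY hφ.smooth z, ← add_smul]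
    congr 2
    ring
  have i1 : Integrable (fun z => der vY (der vX φ) z • A a (ξ z) 0 +
      der vT φ z • A a (ξ z) 0) := (E1_int (hXφ.der vY) x0.lf).add (E1_int hTφ t0.lf)
  rw [c0, integral_add i1 (E1_int (hYφ.der vY) x1.lf),
    integral_add (E1_int (hXφ.der vY) x0.lf) (E1_int hTφ t0.lf), x0.eq _ hXφ, x1.eq _ hYφ,
    t0.eq _ hφ] at e'
  rw [integral_add (E1_int hXφ x0.lg) (E1_int hYφ x1.lg)]
  simp only [smul_neg, integral_neg]
  rw [← sub_eq_zero, ← neg_eq_zero, ← e']; abel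

theorem ut_eq (h : Rs m a U u ut ξ ξx ξy ξt) :
    ∀ᵐ z ∂(volume.restrict U), ut z = ξx z 1 - ξy z 0 :=
  WD.uniq h.opn h.gt (WD.gradT h.gx h.gy (E1_WDc h.wy 0) (E1_WDc h.wx 1))

theorem ut_X (h : Rs m a U u ut ξ ξx ξy ξt) : WD vX U ut (fun z => ξt z 0) :=
  WD.commT (Or.inl rfl) h.gx h.gt (E1_WDc h.wt 0)

theorem ut_Y (h : Rs m a U u ut ξ ξx ξy ξt) : WD vY U ut (fun z => ξt z 1) :=
  WD.commT (Or.inr rfl) h.gy h.gt (E1_WDc h.wt 1)

private theorem E1_pt {C α e x y D Vn An un P I V2s : ℝ} (hC : 1 ≤ C) (hα : 0 ≤ α)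
    (hD : D = x ^ 2 + y ^ 2) (hVn : 0 ≤ Vn) (hAn : 0 ≤ An) (hun : 0 ≤ un)
    (q1 : Vn ^ 2 ≤ C * I) (q2 : An ^ 2 ≤ C * (α * Vn ^ 2))
    (hP : |P| ≤ Real.sqrt D * An * un) (hu : α * un ^ 2 ≤ 2 * C * V2s) :
    1 / 2 * (e ^ 2 * Vn ^ 2) - 4 * C ^ 4 * (D * V2s) ≤ C * (e ^ 2 * I + 2 * e * P) := by
  have hD0 : 0 ≤ D := by rw [hD]; positivity
  have hsD : Real.sqrt D ^ 2 = D := Real.sq_sqrt hD0
  have hs0 := Real.sqrt_nonneg D
  have hC0 : 0 < C := by linarith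
  -- |2 C e P| ≤ 1/2 e² Vn² + 2 C³ α D un²
  have k1 : |2 * C * (e * P)| ≤ 1 / 2 * (e ^ 2 * Vn ^ 2) + 2 * C ^ 3 * (α * (D * un ^ 2)) := by
    have h1 : |2 * C * (e * P)| ≤ 2 * C * (|e| * (Real.sqrt D * An * un)) := by
      rw [abs_mul, abs_mul, abs_mul, abs_two, abs_of_pos hC0]
      gcongr
    refine h1.trans ?_
    -- let X = |e| , Y = √D un ; An ≤ √(Cα) Vn
    have hsq : Real.sqrt (C * α) ^ 2 = C * α := Real.sq_sqrt (mul_nonneg hC0.le hα)
    have hsn := Real.sqrt_nonneg (C * α)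
    have h2 : An ≤ Real.sqrt (C * α) * Vn := by
      refine (pow_le_pow_iff_left₀ hAn (mul_nonneg hsn hVn) two_ne_zero).1 ?_
      rw [mul_pow, hsq]; linarith
    have h3 : |e| * (Real.sqrt D * An * un) ≤
        |e| * (Real.sqrt D * (Real.sqrt (C * α) * Vn) * un) := by gcongr
    have h4 : 2 * C * (|e| * (Real.sqrt D * (Real.sqrt (C * α) * Vn) * un)) ≤
        1 / 2 * (e ^ 2 * Vn ^ 2) + 2 * C ^ 3 * (α * (D * un ^ 2)) := by
      have h5 := sq_nonneg (|e| * Vn - 2 * C * (Real.sqrt D * Real.sqrt (C * α) * un))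
      have h6 : (2 * C * (Real.sqrt D * Real.sqrt (C * α) * un)) ^ 2 =
          4 * C ^ 3 * (α * (D * un ^ 2)) := by
        calc (2 * C * (Real.sqrt D * Real.sqrt (C * α) * un)) ^ 2
            = 4 * C ^ 2 * (Real.sqrt D ^ 2 * Real.sqrt (C * α) ^ 2 * un ^ 2) := by ring
          _ = _ := by rw [hsD, hsq]; ring
      have h7 : (|e| * Vn) ^ 2 = e ^ 2 * Vn ^ 2 := by rw [mul_pow, sq_abs]
      nlinarith [h5, h6, h7]
    exact (mul_le_mul_of_nonneg_left h3 (by positivity)).trans h4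
  have k2 : α * (D * un ^ 2) ≤ D * (2 * C * V2s) := by
    have := mul_le_mul_of_nonneg_left hu hD0
    linarith [this]
  have k3 := mul_le_mul_of_nonneg_left k2 (by positivity : 0 ≤ 2 * C ^ 3)
  have k4 := mul_le_mul_of_nonneg_left q1 (sq_nonneg e)
  have k5 := neg_abs_le (2 * C * (e * P))
  nlinarith [k1, k3, k4, k5]

theorem cacT (C : ℝ) (hC : 1 ≤ C) : ∃ K : ℝ, 0 ≤ K ∧ ∀ (m : ℝ) (a : ℝ → ℝ) (U : Set Pt)
    (u ut : Pt → W) (ξ ξx ξy ξt Ax Ay At Vx Vy Vt : Pt → V2 W),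
    Rs m a U u ut ξ ξx ξy ξt → DA C a U vX ξ ξx Ax Vx → DA C a U vY ξ ξy Ay Vy →
    DA C a U vT ξ ξt At Vt → ∀ η : Pt → ℝ, Tst U η →
    ∫ z, η z ^ 2 * ‖Vt z‖ ^ 2 ≤
      K * ∫ z, ((der vX η z) ^ 2 + (der vY η z) ^ 2) * (‖Vx z‖ ^ 2 + ‖Vy z‖ ^ 2) := by
  refine ⟨8 * C ^ 4, by positivity, ?_⟩
  intro m a U u ut ξ ξx ξy ξt Ax Ay At Vx Vy Vt h dX dY dT η hη
  have hC0 : 0 < C := by linarith
  have hη2 : Tst U (fun z => η z * η z) := hη.mul_left hη.smooth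
  have hXη := hη.der vX
  have hYη := hη.der vY
  have hX2 : Tst U (fun z => der vX η z * der vX η z) := hXη.mul_left hXη.smooth
  have hY2 : Tst U (fun z => der vY η z * der vY η z) := hYη.mul_left hYη.smooth
  have hηX : Tst U (fun z => η z * der vX η z) := hXη.mul_left hη.smooth
  have hηY : Tst U (fun z => η z * der vY η z) := hYη.mul_left hη.smooth
  have t := SolR.test' h.opn (σ := At) (h := fun _ => (0 : W)) (L2l.of_memLp dT.mA)
    (fun K _ _ => MemLp.zero') (Sol0.solR (sol_T h dT)) (L2l.of_memLp h.mτ)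
    (L2l.of_memLp (E1_cmp h.mt 0)) (L2l.of_memLp (E1_cmp h.mt 1)) (ut_X h) (ut_Y h) hη2
  -- the integrand
  have iA : Integrable (fun z => (η z * η z) * inner ℝ (At z) (ξt z)) :=
    E1_int hη2 (IntegrableOn.locallyIntegrableOn (E1_inner dT.mA h.mt))
  have iX : Integrable (fun z => (η z * der vX η z) * inner ℝ (At z 0) (ut z)) :=
    E1_int hηX (IntegrableOn.locallyIntegrableOn (E1_inner (E1_cmp dT.mA 0) h.mτ))
  have iY : Integrable (fun z => (η z * der vY η z) * inner ℝ (At z 1) (ut z)) :=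
    E1_int hηY (IntegrableOn.locallyIntegrableOn (E1_inner (E1_cmp dT.mA 1) h.mτ))
  have iV : Integrable (fun z => (η z * η z) * ‖Vt z‖ ^ 2) :=
    E1_int hη2 (IntegrableOn.locallyIntegrableOn dT.mV.norm.integrable_sq)
  have iS : IntegrableOn (fun z => ‖Vx z‖ ^ 2 + ‖Vy z‖ ^ 2) U :=
    dX.mV.norm.integrable_sq.add dY.mV.norm.integrable_sq
  have iDX : Integrable (fun z => (der vX η z * der vX η z) * (‖Vx z‖ ^ 2 + ‖Vy z‖ ^ 2)) :=
    E1_int hX2 (IntegrableOn.locallyIntegrableOn iS)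
  have iDY : Integrable (fun z => (der vY η z * der vY η z) * (‖Vx z‖ ^ 2 + ‖Vy z‖ ^ 2)) :=
    E1_int hY2 (IntegrableOn.locallyIntegrableOn iS)
  have iD : Integrable (fun z => ((der vX η z) ^ 2 + (der vY η z) ^ 2) *
      (‖Vx z‖ ^ 2 + ‖Vy z‖ ^ 2)) := by
    refine (iDX.add iDY).congr (ae_of_all _ fun z => ?_)
    simp only [Pi.add_apply]
    ring
  have iV' : Integrable (fun z => η z ^ 2 * ‖Vt z‖ ^ 2) := by
    refine iV.congr (ae_of_all _ fun z => ?_)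
    simp only
    ring
  have hG : (fun z => inner ℝ (At z 0) ((η z * η z) • ξt z 0 +
        der vX (fun w => η w * η w) z • ut z) + inner ℝ (At z 1) ((η z * η z) • ξt z 1 +
        der vY (fun w => η w * η w) z • ut z)) = fun z =>
      η z ^ 2 * inner ℝ (At z) (ξt z) + 2 * η z * (der vX η z * inner ℝ (At z 0) (ut z) +
        der vY η z * inner ℝ (At z 1) (ut z)) := by
    funext z
    rw [der_mul vX hη.smooth hη.smooth, der_mul vY hη.smooth hη.smooth, PiLp.inner_apply,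
      Fin.sum_univ_two]
    simp only [inner_add_right, inner_smul_right]
    ring
  have t' : ∫ z, (η z ^ 2 * inner ℝ (At z) (ξt z) + 2 * η z * (der vX η z *
      inner ℝ (At z 0) (ut z) + der vY η z * inner ℝ (At z 1) (ut z))) = 0 := by
    rw [← hG]
    refine t.trans ?_
    simp
  have iG : Integrable (fun z => η z ^ 2 * inner ℝ (At z) (ξt z) + 2 * η z * (der vX η z *
      inner ℝ (At z 0) (ut z) + der vY η z * inner ℝ (At z 1) (ut z))) := by
    refine ((iA.add (iX.const_mul 2)).add (iY.const_mul 2)).congr (ae_of_all _ fun z => ?_)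
    simp only [Pi.add_apply]
    ring
  have key : ∫ z, (1 / 2 * (η z ^ 2 * ‖Vt z‖ ^ 2) - 4 * C ^ 4 * (((der vX η z) ^ 2 +
      (der vY η z) ^ 2) * (‖Vx z‖ ^ 2 + ‖Vy z‖ ^ 2))) ≤
      ∫ z, C * (η z ^ 2 * inner ℝ (At z) (ξt z) + 2 * η z * (der vX η z *
      inner ℝ (At z 0) (ut z) + der vY η z * inner ℝ (At z 1) (ut z))) := by
    refine integral_mono_ae ((iV'.const_mul _).sub (iD.const_mul _)) (iG.const_mul _) ?_
    have hmU : MeasurableSet U := h.opn.measurableSet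
    have b1 := (ae_restrict_iff' hmU).1 dT.q1
    have b2 := (ae_restrict_iff' hmU).1 dT.q2
    have b3 := (ae_restrict_iff' hmU).1 dX.q3
    have b4 := (ae_restrict_iff' hmU).1 dY.q3
    have b5 := (ae_restrict_iff' hmU).1 (ut_eq h)
    filter_upwards [b1, b2, b3, b4, b5] with z c1 c2 c3 c4 c5
    by_cases hz : z ∈ U
    · have hα : 0 ≤ a ‖ξ z‖ := by
        obtain ⟨lam, Lam, hl, hb⟩ := h.nice.bd
        exact hl.le.trans (hb _ (norm_nonneg _)).1
      refine E1_pt hC hα rfl (norm_nonneg _) (norm_nonneg _) (norm_nonneg (ut z)) (c1 hz) (c2 hz)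
        ?_ ?_
      · -- Cauchy-Schwarz
        have n2 : ‖At z‖ ^ 2 = ‖At z 0‖ ^ 2 + ‖At z 1‖ ^ 2 := by
          rw [PiLp.norm_sq_eq_of_L2, Fin.sum_univ_two]
        have i0 := abs_real_inner_le_norm (At z 0) (ut z)
        have i1 := abs_real_inner_le_norm (At z 1) (ut z)
        have s1 : |der vX η z * inner ℝ (At z 0) (ut z) + der vY η z * inner ℝ (At z 1) (ut z)| ≤
            (|der vX η z| * ‖At z 0‖ + |der vY η z| * ‖At z 1‖) * ‖ut z‖ := by
          refine (abs_add_le _ _).trans ?_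
          rw [abs_mul, abs_mul]
          have := mul_le_mul_of_nonneg_left i0 (abs_nonneg (der vX η z))
          have := mul_le_mul_of_nonneg_left i1 (abs_nonneg (der vY η z))
          linarith
        refine s1.trans (mul_le_mul_of_nonneg_right ?_ (norm_nonneg _))
        have hD0 : 0 ≤ (der vX η z) ^ 2 + (der vY η z) ^ 2 := by positivity
        refine (pow_le_pow_iff_left₀ (by positivity) (by positivity) two_ne_zero).1 ?_
        rw [mul_pow, Real.sq_sqrt hD0, n2, ← sq_abs (der vX η z), ← sq_abs (der vY η z)]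
        nlinarith [sq_nonneg (|der vX η z| * ‖At z 1‖ - |der vY η z| * ‖At z 0‖)]
      · have n1 : ‖ξx z 1‖ ^ 2 ≤ ‖ξx z‖ ^ 2 := by
          rw [PiLp.norm_sq_eq_of_L2, Fin.sum_univ_two]
          nlinarith [sq_nonneg ‖ξx z 0‖]
        have n2 : ‖ξy z 0‖ ^ 2 ≤ ‖ξy z‖ ^ 2 := by
          rw [PiLp.norm_sq_eq_of_L2, Fin.sum_univ_two]
          nlinarith [sq_nonneg ‖ξy z 1‖]
        have n3 : ‖ut z‖ ^ 2 ≤ 2 * (‖ξx z 1‖ ^ 2 + ‖ξy z 0‖ ^ 2) := by
          rw [c5 hz]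
          have := norm_sub_le (ξx z 1) (ξy z 0)
          have h0 := norm_nonneg (ξx z 1 - ξy z 0)
          nlinarith [sq_nonneg (‖ξx z 1‖ - ‖ξy z 0‖), norm_nonneg (ξx z 1), norm_nonneg (ξy z 0)]
        have n4 : ‖ut z‖ ^ 2 ≤ 2 * (‖ξx z‖ ^ 2 + ‖ξy z‖ ^ 2) := by linarith
        have n5 := mul_le_mul_of_nonneg_left n4 hα
        have n6 := c3 hz
        have n7 := c4 hz
        linarith
    · have z1 : η z = 0 := image_eq_zero_of_notMem_tsupport (fun hc => hz (hη.supp hc))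
      have z2 : der vX η z = 0 := image_eq_zero_of_notMem_tsupport (fun hc => hz (hXη.supp hc))
      have z3 : der vY η z = 0 := image_eq_zero_of_notMem_tsupport (fun hc => hz (hYη.supp hc))
      simp [z1, z2, z3]
  rw [integral_const_mul, t', mul_zero, integral_sub (iV'.const_mul _) (iD.const_mul _),
    integral_const_mul, integral_const_mul] at key
  linarith

end PLH
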