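import Pool.Agent.Lib.PLH.P0

/-!
MODULE P1 (200 lines). Standard Caccioppoli inequalities from `Core`.

`G = ‖Vx‖²+‖Vy‖²`, `η₁`, `η₂`, `M` from `cut_std` (supports in the closed boxes, which lie in `U` by
`Core.sub`). `cH` for the test function `η₁²`:
`∫ η₁⁴ G ≤ K ∫ wt(η₁²)‖V-c‖² + K ∫ η₁⁴‖V-c‖‖Vt‖`. `cT` for `η₁³` (`F(η₁³) = 3η₁² Fη₁`, `der_mul`):
`∫ η₁⁶‖Vt‖² ≤ 9KM ∫ η₁⁴ G`. By Young
`K ∫ η₁⁴‖V-c‖‖Vt‖ ≤ δ ∫ η₁⁶‖Vt‖² + (K²/(4δ)) ∫ η₁²‖V-c‖²`, take `δ = 1/(18KM+1)` and absorb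
`∫ η₁⁴ G` (finite). This gives the first inequality (`η₁ = 1` on `bx 3 9`). Then `cT` for `η₂`:
`∫_{bx 2 4}‖Vt‖² ≤ K M ∫_{bx 3 9} G`.
-/

open MeasureTheory Set Filter Topology
open scoped ContDiff ENNReal

namespace PLH

variable {E : Type*} [NormedAddCommGroup E] [InnerProductSpace ℝ E] [CompleteSpace E]

private theorem meas_bx (ρ h : ℝ) : MeasurableSet (bx ρ h) := by
  have h1 : IsOpen {z : Pt | |z.1| < ρ} :=
    isOpen_lt (continuous_abs.comp continuous_fst) continuous_const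
  have h2 : IsOpen {z : Pt | |z.2.1| < ρ} :=
    isOpen_lt (continuous_abs.comp (continuous_fst.comp continuous_snd)) continuous_const
  have h3 : IsOpen {z : Pt | |z.2.2| < h} :=
    isOpen_lt (continuous_abs.comp (continuous_snd.comp continuous_snd)) continuous_const
  exact (h1.inter (h2.inter h3)).measurableSet

private theorem bx_mono {ρ ρ' h h' : ℝ} (h1 : ρ ≤ ρ') (h2 : h ≤ h') : bx ρ h ⊆ bx ρ' h' :=
  fun _ hz => ⟨hz.1.trans_le h1, hz.2.1.trans_le h1, hz.2.2.trans_le h2⟩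

private theorem int_cut {U : Set Pt} {h ζ : Pt → ℝ} (hh : IntegrableOn h U)
    (hc : Continuous ζ) (hs : HasCompactSupport ζ) (hsu : tsupport ζ ⊆ U) :
    Integrable (fun z => ζ z * h z) := by
  rw [← integrableOn_iff_integrable_of_support_subset (s := tsupport ζ)]
  · exact (hh.mono_set hsu).continuousOn_mul hc.continuousOn hs
  · intro z hz
    apply subset_tsupport ζ
    intro h0
    apply hz
    simp [h0]

private theorem tst_pow {U : Set Pt} {η : Pt → ℝ} (hη : Tst U η) (n : ℕ) :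
    Tst U (fun z => η z ^ (n + 1)) := by
  have hsub : tsupport (fun z => η z ^ (n + 1)) ⊆ tsupport η := by
    apply closure_mono
    intro z hz h0
    apply hz
    simp [h0]
  exact ⟨hη.smooth.pow _, hη.cpt.of_isClosed_subset (isClosed_tsupport _) hsub,
    hsub.trans hη.supp⟩

private theorem der_sq (F : VF) {η : Pt → ℝ} (hη : ContDiff ℝ ∞ η) (z : Pt) :
    der F (fun w => η w ^ 3) z = 3 * η z ^ 2 * der F η z := by
  have h1 : (fun w => η w ^ 3) = fun w => η w * (η w * η w) := by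
    funext w; ring
  rw [h1, der_mul F hη (hη.mul hη), der_mul F hη hη]
  ring

theorem core_cac (K : ℝ) (hK : 0 ≤ K) : ∃ K₁ : ℝ, 0 ≤ K₁ ∧ ∀ (Kf : ℝ → ℝ) (U : Set Pt)
    (V Vx Vy Vt : Pt → E), Core K Kf U V Vx Vy Vt → ∀ c : E,
    (∫ z in bx 3 9, (‖Vx z‖ ^ 2 + ‖Vy z‖ ^ 2)) ≤ K₁ * ∫ z in bx 4 16, ‖V z - c‖ ^ 2 ∧
    (∫ z in bx 2 4, ‖Vt z‖ ^ 2) ≤ K₁ * ∫ z in bx 4 16, ‖V z - c‖ ^ 2 := by
  obtain ⟨M, hM, η₁, η₂, ⟨s1, c1, t1, b1, o1, z1, d1, w1, w1'⟩,
    ⟨s2, c2, t2, b2, o2, d2, z2⟩⟩ := cut_std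
  set δ : ℝ := 1 / (18 * K ^ 2 * M + 1) with hδ
  have hδ0 : 0 < δ := by positivity
  have hδ1 : K * δ * (9 * K * M) ≤ 1 / 2 := by
    rw [hδ]
    have h1 : K * (1 / (18 * K ^ 2 * M + 1)) * (9 * K * M) =
        (18 * K ^ 2 * M / (18 * K ^ 2 * M + 1)) * (1 / 2) := by
      field_simp
      ring
    rw [h1]
    have h2 : 18 * K ^ 2 * M / (18 * K ^ 2 * M + 1) ≤ 1 := by
      rw [div_le_one (by positivity)]
      linarith
    nlinarith
  set K₂ : ℝ := 2 * (K * M + K / (4 * δ)) with hK₂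
  have hK₂0 : 0 ≤ K₂ := by positivity
  refine ⟨K₂ + K * M * K₂, by positivity, ?_⟩
  intro Kf U V Vx Vy Vt hc c
  set d : ℝ := ∫ z in bx 4 16, ‖V z - c‖ ^ 2 with hd
  have hd0 : 0 ≤ d := integral_nonneg (fun z => by positivity)
  have hsub : bx 4 16 ⊆ U := fun z hz => hc.sub ⟨hz.1.le, hz.2.1.le, hz.2.2.le⟩
  have hcb1 : cbx 4 16 ⊆ U := hc.sub
  have hcb2 : cbx 3 9 ⊆ U := fun z hz =>
    hc.sub ⟨hz.1.trans (by norm_num), hz.2.1.trans (by norm_num), hz.2.2.trans (by norm_num)⟩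
  have T1 : Tst U η₁ := ⟨s1, c1, t1.trans hcb1⟩
  have T2 : Tst U η₂ := ⟨s2, c2, t2.trans hcb2⟩
  have hbd : Bornology.IsBounded (bx 4 16) := by
    rw [Metric.isBounded_iff_subset_closedBall (0 : Pt)]
    refine ⟨16, ?_⟩
    intro z hz
    rw [mem_closedBall_zero_iff, Prod.norm_def, Prod.norm_def]
    simp only [Real.norm_eq_abs]
    have h1 := hz.1
    have h2 := hz.2.1
    have h3 := hz.2.2
    exact max_le (by linarith) (max_le (by linarith) (by linarith))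
  have hfin : IsFiniteMeasure ((volume : Measure Pt).restrict (bx 4 16)) :=
    ⟨by rw [Measure.restrict_apply_univ]; exact hbd.measure_lt_top⟩
  have hVc : IntegrableOn (fun z => ‖V z - c‖ ^ 2) (bx 4 16) := by
    have h1 : MemLp (fun z => V z - c) 2 (volume.restrict (bx 4 16)) :=
      (hc.m0.mono_measure (Measure.restrict_mono hsub le_rfl)).sub (memLp_const c)
    exact h1.integrable_norm_pow (by norm_num)
  have hVt : IntegrableOn (fun z => ‖Vt z‖ ^ 2) U := hc.mt.integrable_norm_pow (by norm_num)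
  have hG : IntegrableOn (fun z => ‖Vx z‖ ^ 2 + ‖Vy z‖ ^ 2) U :=
    (hc.mx.integrable_norm_pow (by norm_num)).add (hc.my.integrable_norm_pow (by norm_num))
  have hcont1 : Continuous η₁ := s1.continuous
  -- the two Caccioppoli inequalities
  set a : ℝ := ∫ z, (η₁ z ^ 2) ^ 2 * (‖Vx z‖ ^ 2 + ‖Vy z‖ ^ 2) with ha
  set b : ℝ := ∫ z, (η₁ z ^ 3) ^ 2 * ‖Vt z‖ ^ 2 with hb
  have T12 := tst_pow T1 1
  have T13 := tst_pow T1 2
  have ia : Integrable (fun z => (η₁ z ^ 2) ^ 2 * (‖Vx z‖ ^ 2 + ‖Vy z‖ ^ 2)) := by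
    have h4 := tst_pow T1 3
    have := int_cut hG h4.smooth.continuous h4.cpt h4.supp
    refine this.congr (Filter.Eventually.of_forall (fun z => ?_))
    simp only
    ring
  have ib : Integrable (fun z => (η₁ z ^ 3) ^ 2 * ‖Vt z‖ ^ 2) := by
    have h4 := tst_pow T1 5
    have := int_cut hVt h4.smooth.continuous h4.cpt h4.supp
    refine this.congr (Filter.Eventually.of_forall (fun z => ?_))
    simp only
    ring
  have iind : Integrable ((bx 4 16).indicator (fun z => ‖V z - c‖ ^ 2)) :=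
    (integrable_indicator_iff (meas_bx _ _)).mpr hVc
  have hdind : ∫ z, (bx 4 16).indicator (fun z => ‖V z - c‖ ^ 2) z = d :=
    integral_indicator (meas_bx _ _)
  have hH := hc.cH _ T12 c
  have hT := hc.cT _ T13
  have hb9 : b ≤ 9 * K * M * a := by
    have h1 : ∫ z, ((der vX (fun w => η₁ w ^ (2 + 1)) z) ^ 2 +
        (der vY (fun w => η₁ w ^ (2 + 1)) z) ^ 2) * (‖Vx z‖ ^ 2 + ‖Vy z‖ ^ 2) ≤
        ∫ z, 9 * M * ((η₁ z ^ 2) ^ 2 * (‖Vx z‖ ^ 2 + ‖Vy z‖ ^ 2)) := by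
      refine integral_mono_of_nonneg (Filter.Eventually.of_forall (fun z => by positivity))
        (ia.const_mul _) (Filter.Eventually.of_forall (fun z => ?_))
      simp only
      have e1 : der vX (fun w => η₁ w ^ (2 + 1)) z = 3 * η₁ z ^ 2 * der vX η₁ z :=
        der_sq vX s1 z
      have e2 : der vY (fun w => η₁ w ^ (2 + 1)) z = 3 * η₁ z ^ 2 * der vY η₁ z :=
        der_sq vY s1 z
      rw [e1, e2]
      have h2 := d1 z
      have h3 : 0 ≤ (η₁ z ^ 2) ^ 2 * (‖Vx z‖ ^ 2 + ‖Vy z‖ ^ 2) := by positivity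
      have h4 := mul_le_mul_of_nonneg_right h2 h3
      calc _ = 9 * (((der vX η₁ z) ^ 2 + (der vY η₁ z) ^ 2) *
            ((η₁ z ^ 2) ^ 2 * (‖Vx z‖ ^ 2 + ‖Vy z‖ ^ 2))) := by ring
        _ ≤ _ := by linarith
    rw [integral_const_mul] at h1
    have h5 := mul_le_mul_of_nonneg_left h1 hK
    have h6 : b ≤ K * (9 * M * a) := hT.trans h5
    linarith
  have hwt : ∫ z, wt (fun w => η₁ w ^ 2) z * ‖V z - c‖ ^ 2 ≤ M * d := by
    rw [← hdind, ← integral_const_mul]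
    refine integral_mono_of_nonneg (Filter.Eventually.of_forall (fun z => ?_))
      (iind.const_mul _) (Filter.Eventually.of_forall (fun z => ?_))
    · exact mul_nonneg (wt_nonneg _ _) (by positivity)
    · simp only
      by_cases hz : z ∈ bx 4 16
      · rw [indicator_of_mem hz]
        exact mul_le_mul_of_nonneg_right (w1 z) (by positivity)
      · rw [indicator_of_notMem hz, w1' z hz]
        simp
  have hmix : ∫ z, (η₁ z ^ 2) ^ 2 * (‖V z - c‖ * ‖Vt z‖) ≤ δ * b + 1 / (4 * δ) * d := by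
    rw [← hdind, hb, ← integral_const_mul, ← integral_const_mul,
      ← integral_add (ib.const_mul _) (iind.const_mul _)]
    refine integral_mono_of_nonneg (Filter.Eventually.of_forall (fun z => by positivity))
      ((ib.const_mul _).add (iind.const_mul _)) (Filter.Eventually.of_forall (fun z => ?_))
    simp only
    by_cases hz : z ∈ bx 4 16
    · rw [indicator_of_mem hz]
      set x : ℝ := ‖V z - c‖
      set y : ℝ := ‖Vt z‖
      have hη := b1 z
      have h1 : (η₁ z ^ 2) ^ 2 * (x * y) ≤ δ * ((η₁ z ^ 3) ^ 2 * y ^ 2) +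
          1 / (4 * δ) * (η₁ z ^ 2 * x ^ 2) := by
        have h2 : 0 ≤ (δ * (η₁ z ^ 3 * y) - 1 / 2 * (η₁ z * x)) ^ 2 / δ := by positivity
        have h3 : (δ * (η₁ z ^ 3 * y) - 1 / 2 * (η₁ z * x)) ^ 2 / δ =
            δ * ((η₁ z ^ 3) ^ 2 * y ^ 2) + 1 / (4 * δ) * (η₁ z ^ 2 * x ^ 2) -
              (η₁ z ^ 2) ^ 2 * (x * y) := by
          field_simp
          ring
        linarith
      have h4 : η₁ z ^ 2 * x ^ 2 ≤ x ^ 2 := by
        have : η₁ z ^ 2 ≤ 1 := pow_le_one₀ hη.1 hη.2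
        nlinarith [sq_nonneg x]
      have h5 : 1 / (4 * δ) * (η₁ z ^ 2 * x ^ 2) ≤ 1 / (4 * δ) * x ^ 2 :=
        mul_le_mul_of_nonneg_left h4 (by positivity)
      linarith
    · rw [indicator_of_notMem hz, z1 z hz]
      simp
  have haK : a ≤ K₂ * d := by
    have h1 : a ≤ K * (M * d) + K * (δ * b + 1 / (4 * δ) * d) := by
      refine hH.trans ?_
      exact add_le_add (mul_le_mul_of_nonneg_left hwt hK) (mul_le_mul_of_nonneg_left hmix hK)
    have ha0 : 0 ≤ a := integral_nonneg (fun z => by positivity)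
    have h2 : K * (δ * b) ≤ 1 / 2 * a := by
      calc K * (δ * b) ≤ K * (δ * (9 * K * M * a)) := by
            apply mul_le_mul_of_nonneg_left _ hK
            exact mul_le_mul_of_nonneg_left hb9 hδ0.le
        _ = (K * δ * (9 * K * M)) * a := by ring
        _ ≤ 1 / 2 * a := mul_le_mul_of_nonneg_right hδ1 ha0
    have h3 : K * (1 / (4 * δ) * d) = K / (4 * δ) * d := by ring
    rw [hK₂]
    linarith
  have hG39 : ∫ z in bx 3 9, (‖Vx z‖ ^ 2 + ‖Vy z‖ ^ 2) ≤ a := by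
    rw [ha]
    calc ∫ z in bx 3 9, (‖Vx z‖ ^ 2 + ‖Vy z‖ ^ 2) =
          ∫ z in bx 3 9, (η₁ z ^ 2) ^ 2 * (‖Vx z‖ ^ 2 + ‖Vy z‖ ^ 2) := by
          refine setIntegral_congr_fun (meas_bx _ _) (fun z hz => ?_)
          rw [o1 z hz]
          ring
      _ ≤ _ := setIntegral_le_integral ia (Filter.Eventually.of_forall (fun z => by positivity))
  refine ⟨?_, ?_⟩
  · have h1 := hG39.trans haK
    have h2 : 0 ≤ K * M * K₂ * d := by positivity
    linarith
  · have hT2 := hc.cT _ T2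
    have i2 : Integrable (fun z => η₂ z ^ 2 * ‖Vt z‖ ^ 2) := by
      have h4 := tst_pow T2 1
      exact int_cut hVt h4.smooth.continuous h4.cpt h4.supp
    have h1 : ∫ z in bx 2 4, ‖Vt z‖ ^ 2 ≤ ∫ z, η₂ z ^ 2 * ‖Vt z‖ ^ 2 := by
      calc ∫ z in bx 2 4, ‖Vt z‖ ^ 2 = ∫ z in bx 2 4, η₂ z ^ 2 * ‖Vt z‖ ^ 2 := by
            refine setIntegral_congr_fun (meas_bx _ _) (fun z hz => ?_)
            rw [o2 z hz]
            ring
        _ ≤ _ := setIntegral_le_integral i2 (Filter.Eventually.of_forall (fun z => by positivity))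
    have iG : Integrable ((bx 3 9).indicator (fun z => ‖Vx z‖ ^ 2 + ‖Vy z‖ ^ 2)) :=
      (integrable_indicator_iff (meas_bx _ _)).mpr (hG.mono_set
        ((bx_mono (by norm_num) (by norm_num)).trans hsub))
    have h2 : ∫ z, ((der vX η₂ z) ^ 2 + (der vY η₂ z) ^ 2) * (‖Vx z‖ ^ 2 + ‖Vy z‖ ^ 2) ≤
        M * ∫ z in bx 3 9, (‖Vx z‖ ^ 2 + ‖Vy z‖ ^ 2) := by
      rw [← integral_indicator (meas_bx _ _), ← integral_const_mul]
      refine integral_mono_of_nonneg (Filter.Eventually.of_forall (fun z => by positivity))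
        (iG.const_mul _) (Filter.Eventually.of_forall (fun z => ?_))
      simp only
      by_cases hz : z ∈ bx 3 9
      · rw [indicator_of_mem hz]
        exact mul_le_mul_of_nonneg_right (d2 z) (by positivity)
      · rw [indicator_of_notMem hz, (z2 z hz).1, (z2 z hz).2]
        simp
    have h3 : ∫ z in bx 2 4, ‖Vt z‖ ^ 2 ≤ K * (M * (K₂ * d)) := by
      refine h1.trans (hT2.trans ?_)
      apply mul_le_mul_of_nonneg_left _ hK
      refine h2.trans ?_
      exact mul_le_mul_of_nonneg_left (hG39.trans haK) hM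
    have h4 : 0 ≤ K₂ * d := by positivity
    have h5 : K * (M * (K₂ * d)) = K * M * K₂ * d := by ring
    rw [h5] at h3
    linarith

end PLH
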