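import Pool.Agent.Lib.PLH.D3
import Pool.Agent.Lib.PLH.T7

/-!
MODULE P2 (300 lines). Euclidean anisotropic Poincare inequalities on boxes and on the lateral
region.

`fx = Vx + (y/2) Vt`, `fy = Vy - (x/2) Vt`, `ft = Vt` are the weak derivatives of `V` along `ex`, `ey`,
`vT` (`WD.lin`: `ex.v = vX.v + (y/2) vT.v`, `ey.v = vY.v - (x/2) vT.v`).
`DI_box`: for a box `S = Bx c l ⊆ U`:
`∫_S∫_S ‖f p - f q‖² ≤ 3(I₁+I₂+I₃)`, going from `p` to `q` by changing the three coordinates one after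
the other; all intermediate points lie in `S`. `I₁ = ∫∫ ‖f(x,y,t) - f(x',y,t)‖²`: substitute `x' = x+s`;
for fixed `s`, `∫_{z∈S, z+s e∈S} ‖f(z+s e) - f z‖² ≤ s² ∫_S ‖fx‖²` (`WD.lsq_le`, the set
`{z ∈ S | z + s e ∈ S}`, the segment stays in `S`), and `∫_{|s| ≤ 2l₁} s² ds = 16 l₁³/3`, times the
measure `4 l₂ l₃` of the other variables: `I₁ ≤ (8/3)|S| l₁² ∫_S ‖fx‖²`, `|S| = 8 l₁l₂l₃`.
Total `≤ 8|S|(l₁²∫‖fx‖² + l₂²∫‖fy‖² + l₃²∫‖ft‖²)`.
`exc_le_DI`: `∫_S ‖f - avg‖² ≤ |S|⁻¹ ∫_S∫_S ‖f p - f q‖²`.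
`poin_box`: centre `(0,(0,t₀))`, `l = (r,r,h)`: `|x|,|y| ≤ r` on `S`, so
`‖fx‖² ≤ 2‖Vx‖² + r²‖Vt‖²/2`.
`poin_lat`: `lat ρ h` is, up to null sets, the union of the four boxes `{ρ/2<x<ρ,|y|<ρ}`,
`{|x|<ρ,ρ/2<y<ρ}`, `{-ρ<x<-ρ/2,..}`, `{..,-ρ<y<-ρ/2}` (times `|t| < h`), consecutive ones overlap in
measure `ρ²h/2 = |box|/4`: `chain_DI` three times with `ψ = y²` (`yng_sq`).
-/

open MeasureTheory Set Filter Topology
open scoped ContDiff ENNReal

namespace PLH

variable {E : Type*} [NormedAddCommGroup E] [InnerProductSpace ℝ E] [CompleteSpace E]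

omit [InnerProductSpace ℝ E] [CompleteSpace E] in
private theorem int_sq2 {f : Pt → E} {S : Set Pt} (h0 : volume S ≠ ⊤)
    (hf : MemLp f 2 (volume.restrict S)) (c : E) : IntegrableOn (fun z => ‖f z - c‖ ^ 2) S := by
  have : IsFiniteMeasure (volume.restrict S) := ⟨by
    rw [Measure.restrict_apply_univ]; exact h0.lt_top⟩
  exact (hf.sub (memLp_const c)).integrable_norm_pow (by norm_num)

/-- The square mean around a point. -/
private theorem sq_split {f : Pt → E} {S : Set Pt} (h0 : volume S ≠ ⊤)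
    (hf : MemLp f 2 (volume.restrict S)) (c : E) :
    ∫ z in S, ‖f z - c‖ ^ 2 = exc f S + (volume S).toReal * ‖(⨍ w in S, f w) - c‖ ^ 2 := by
  have : IsFiniteMeasure (volume.restrict S) := ⟨by
    rw [Measure.restrict_apply_univ]; exact h0.lt_top⟩
  have hi : Integrable f (volume.restrict S) := hf.integrable (by norm_num)
  set a : E := ⨍ w in S, f w with ha
  have h1 : ∫ z in S, (f z - a) = 0 := by
    rw [integral_sub hi (integrable_const a), setIntegral_const, ha]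
    by_cases hz : volume S = 0
    · have : volume.restrict S = 0 := Measure.restrict_eq_zero.mpr hz
      simp [this, Measure.real, hz]
    · rw [setAverage_eq, smul_smul, mul_inv_cancel₀, one_smul, sub_self]
      exact (ENNReal.toReal_pos hz h0).ne'
  have h2 : ∀ z, ‖f z - c‖ ^ 2 = ‖f z - a‖ ^ 2 + (2 * inner ℝ (a - c) (f z - a) + ‖a - c‖ ^ 2) := by
    intro z
    have : f z - c = (f z - a) + (a - c) := by abel
    rw [this, norm_add_sq_real, real_inner_comm]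
    ring
  have hia : Integrable (fun z => f z - a) (volume.restrict S) := hi.sub (integrable_const a)
  have h3 : Integrable (fun z => 2 * inner ℝ (a - c) (f z - a)) (volume.restrict S) :=
    (hia.const_inner (a - c)).const_mul 2
  have h4 : Integrable (fun z => 2 * inner ℝ (a - c) (f z - a) + ‖a - c‖ ^ 2)
      (volume.restrict S) := h3.add (integrable_const _)
  simp_rw [h2]
  rw [integral_add (int_sq2 h0 hf a) h4, integral_add h3 (integrable_const _), integral_const_mul, integral_inner hia, h1,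
    inner_zero_right, mul_zero, zero_add, setIntegral_const, smul_eq_mul]
  rfl

/-- The double integral of the squared differences. -/
private noncomputable def D (f : Pt → E) (S : Set Pt) : ℝ≥0∞ :=
  ∫⁻ p in S, ∫⁻ q in S, ENNReal.ofReal (‖f p - f q‖ ^ 2)

/-- The average minimises the square mean. -/
theorem exc_le {f : Pt → E} {S : Set Pt} (hS : MeasurableSet S) (h0 : volume S ≠ ⊤)
    (hf : MemLp f 2 (volume.restrict S)) (c : E) : exc f S ≤ ∫ z in S, ‖f z - c‖ ^ 2 := by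
  rw [sq_split h0 hf c]
  have : 0 ≤ (volume S).toReal * ‖(⨍ w in S, f w) - c‖ ^ 2 := by positivity
  linarith

/-- Comparison of averages over nested sets. -/
theorem avg_sub_le {f : Pt → E} {S : Set Pt} (hS : MeasurableSet S) (h0 : volume S ≠ ⊤)
    (h1 : volume S ≠ 0) (hf : MemLp f 2 (volume.restrict S)) (c : E) :
    (volume S).toReal * ‖(⨍ w in S, f w) - c‖ ^ 2 ≤ ∫ z in S, ‖f z - c‖ ^ 2 := by
  rw [sq_split h0 hf c]
  have : 0 ≤ exc f S := integral_nonneg fun z => by positivity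
  linarith

private theorem exc_D {f : Pt → E} {S : Set Pt} (hS : MeasurableSet S) (h0 : volume S ≠ ⊤)
    (hf : MemLp f 2 (volume.restrict S)) : ENNReal.ofReal (exc f S) * volume S ≤ D f S := by
  have h1 : ∀ p : Pt, ENNReal.ofReal (exc f S) ≤
      ∫⁻ q in S, ENNReal.ofReal (‖f p - f q‖ ^ 2) := by
    intro p
    have h2 := ENNReal.ofReal_le_ofReal (exc_le hS h0 hf (f p))
    rw [ofReal_integral_eq_lintegral_ofReal (int_sq2 h0 hf _)
      (Filter.Eventually.of_forall fun v => by positivity)] at h2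
    refine h2.trans (le_of_eq ?_)
    congr 1
    funext q
    rw [norm_sub_rev]
  unfold D
  calc ENNReal.ofReal (exc f S) * volume S = ∫⁻ _ in S, ENNReal.ofReal (exc f S) := by
        rw [setLIntegral_const]
    _ ≤ _ := lintegral_mono fun p => h1 p

/-- The constant field `v`. -/
private def cF (v : Pt) : VF := ⟨v.1, v.2.1, v.2.2, 0, 0, by simp⟩

private theorem cF_fl (v : Pt) (s : ℝ) (z : Pt) : (cF v).fl s z = z + s • v := by
  unfold cF VF.fl
  refine Prod.ext ?_ (Prod.ext ?_ ?_) <;> simp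

private theorem wd_cst {U : Set Pt} (hU : IsOpen U) {f Vx Vy Vt : Pt → E} (hX : WD vX U f Vx)
    (hY : WD vY U f Vy) (hT : WD vT U f Vt) (v : Pt) :
    WD (cF v) U f (fun z => ((0 + v.1 • Vx z) + v.2.1 • Vy z) +
      (v.2.2 + v.1 / 2 * z.2.1 - v.2.1 / 2 * z.1) • Vt z) := by
  have h0 : WD (⟨0, 0, 0, 0, 0, by simp⟩ : VF) U f (fun _ => 0) := by
    refine ⟨hX.lf, ?_, ?_⟩
    · exact locallyIntegrable_zero.locallyIntegrableOn U
    · intro φ _
      have : ∀ z, der (⟨0, 0, 0, 0, 0, by simp⟩ : VF) φ z = 0 := by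
        intro z
        have e : VF.v (⟨0, 0, 0, 0, 0, by simp⟩ : VF) z = 0 := by
          unfold VF.v
          refine Prod.ext ?_ (Prod.ext ?_ ?_) <;> simp
        unfold der
        rw [e, map_zero]
      simp [this]
  have dc : ∀ (H : VF) (c : ℝ) (z : Pt), der H (fun _ => c) z = 0 := by
    intro H c z
    unfold der
    rw [fderiv_fun_const]
    rfl
  have h1 : WD (⟨v.1, 0, 0, 0, -v.1 / 2, by simp⟩ : VF) U f (fun z => 0 + v.1 • Vx z) := by
    refine WD.lin hU (κ := fun _ => v.1) contDiff_const (dc vX _) ?_ h0 hX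
    intro z
    unfold VF.v vX
    refine Prod.ext ?_ (Prod.ext ?_ ?_) <;> simp <;> ring
  have h2 : WD (⟨v.1, v.2.1, 0, v.2.1 / 2, -v.1 / 2, by ring⟩ : VF) U f
      (fun z => (0 + v.1 • Vx z) + v.2.1 • Vy z) := by
    refine WD.lin hU (κ := fun _ => v.2.1) contDiff_const (dc vY _) ?_ h1 hY
    intro z
    unfold VF.v vY
    refine Prod.ext ?_ (Prod.ext ?_ ?_) <;> simp <;> ring
  refine WD.lin hU (κ := fun z => v.2.2 + v.1 / 2 * z.2.1 - v.2.1 / 2 * z.1) (by fun_prop) ?_ ?_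
    h2 hT
  · intro z
    have hd : Differentiable ℝ (fun z : Pt => v.2.2 + v.1 / 2 * z.2.1 - v.2.1 / 2 * z.1) := by
      fun_prop
    unfold der
    rw [← (hd z).lineDeriv_eq_fderiv]
    unfold lineDeriv VF.v vT
    simp
  · intro z
    unfold VF.v vT cF
    refine Prod.ext ?_ (Prod.ext ?_ ?_) <;> simp <;> ring

private theorem mp_addL (p : Pt) : MeasurePreserving (fun z : Pt => p + z) volume volume :=
  (measurePreserving_add_left volume p.1).prod
    ((measurePreserving_add_left volume p.2.1).prod (measurePreserving_add_left volume p.2.2))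

private theorem D_cvx {U : Set Pt} (hU : IsOpen U) {f Vx Vy Vt : Pt → E}
    (sm : StronglyMeasurable f) (hX : WD vX U f Vx) (hY : WD vY U f Vy) (hT : WD vT U f Vt)
    {S : Set Pt} (hS : MeasurableSet S) (hc : Convex ℝ S) (hSU : S ⊆ U)
    (mx : MemLp Vx 2 (volume.restrict S)) (my : MemLp Vy 2 (volume.restrict S))
    (mt : MemLp Vt 2 (volume.restrict S))
    {a c R : ℝ} (ha : 0 ≤ a) (hc0 : 0 ≤ c) (hR : 0 ≤ R)
    (hd : ∀ p ∈ S, ∀ q ∈ S, |q.1 - p.1| ≤ a ∧ |q.2.1 - p.2.1| ≤ a ∧ |q.2.2 - p.2.2| ≤ c)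
    (hb : ∀ p ∈ S, |p.1| ≤ R ∧ |p.2.1| ≤ R) :
    D f S ≤ ENNReal.ofReal (8 * a ^ 2 * c) * ENNReal.ofReal (3 * (a ^ 2 *
      (∫ z in S, (‖Vx z‖ ^ 2 + ‖Vy z‖ ^ 2)) + (c + a * R) ^ 2 * ∫ z in S, ‖Vt z‖ ^ 2)) := by
  set K : ℝ≥0∞ := ENNReal.ofReal (3 * (a ^ 2 *
      (∫ z in S, (‖Vx z‖ ^ 2 + ‖Vy z‖ ^ 2)) + (c + a * R) ^ 2 * ∫ z in S, ‖Vt z‖ ^ 2)) with hK
  set Q : Set Pt := Icc (-a) a ×ˢ (Icc (-a) a ×ˢ Icc (-c) c) with hQ
  have hQv : volume Q = ENNReal.ofReal (8 * a ^ 2 * c) := by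
    rw [hQ, Measure.volume_eq_prod, Measure.prod_prod, Measure.volume_eq_prod,
      Measure.prod_prod, Real.volume_Icc, Real.volume_Icc, ← ENNReal.ofReal_mul (by linarith),
      ← ENNReal.ofReal_mul (by linarith)]
    congr 1
    ring
  have hQm : MeasurableSet Q := measurableSet_Icc.prod (measurableSet_Icc.prod measurableSet_Icc)
  -- the inner integrals
  have hv : ∀ v ∈ Q, ∫⁻ z in S ∩ {z | z + v ∈ S}, ENNReal.ofReal (‖f (z + v) - f z‖ ^ 2)
      ≤ K := by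
    intro v hv
    have hv1 : |v.1| ≤ a := abs_le.mpr hv.1
    have hv2 : |v.2.1| ≤ a := abs_le.mpr hv.2.1
    have hv3 : |v.2.2| ≤ c := abs_le.mpr hv.2.2
    have hm : MeasurableSet (S ∩ {z : Pt | z + v ∈ S}) :=
      hS.inter ((measurable_id.add_const v) hS)
    have h1 := (wd_cst hU hX hY hT v).lsq_le hU hm hS hSU 1 (by
      intro z hz σ hσ
      rw [mul_one, cF_fl]
      exact hc.add_smul_mem hz.1 hz.2 hσ)
    simp only [cF_fl, one_smul, one_pow, ENNReal.ofReal_one, one_mul, zero_add] at h1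
    have h2 : ∀ x : E, ENNReal.ofReal (‖x‖ ^ 2) = ‖x‖ₑ ^ 2 := by
      intro x
      rw [ENNReal.ofReal_pow (norm_nonneg _), ofReal_norm]
    simp_rw [h2]
    refine h1.trans ?_
    have ix := mx.integrable_norm_pow (p := 2) (by norm_num)
    have iy := my.integrable_norm_pow (p := 2) (by norm_num)
    have it := mt.integrable_norm_pow (p := 2) (by norm_num)
    have i1 : Integrable (fun z => a ^ 2 * (‖Vx z‖ ^ 2 + ‖Vy z‖ ^ 2)) (volume.restrict S) :=
      (ix.add iy).const_mul _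
    have i2 : Integrable (fun z => (c + a * R) ^ 2 * ‖Vt z‖ ^ 2) (volume.restrict S) :=
      it.const_mul _
    have i3 : Integrable (fun z => 3 * (a ^ 2 * (‖Vx z‖ ^ 2 + ‖Vy z‖ ^ 2) +
        (c + a * R) ^ 2 * ‖Vt z‖ ^ 2)) (volume.restrict S) := (i1.add i2).const_mul 3
    have h3 : K = ∫⁻ z in S, ENNReal.ofReal (3 * (a ^ 2 * (‖Vx z‖ ^ 2 + ‖Vy z‖ ^ 2) +
        (c + a * R) ^ 2 * ‖Vt z‖ ^ 2)) := by
      rw [← ofReal_integral_eq_lintegral_ofReal i3
        (Filter.Eventually.of_forall fun v => by positivity), integral_const_mul,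
        integral_add i1 i2, integral_const_mul, integral_const_mul]
    rw [h3]
    refine setLIntegral_mono' hS fun z hz => ?_
    rw [← h2]
    refine ENNReal.ofReal_le_ofReal ?_
    obtain ⟨hz1, hz2⟩ := hb z hz
    have hk : |v.2.2 + v.1 / 2 * z.2.1 - v.2.1 / 2 * z.1| ≤ c + a * R := by
      have e1 : |v.1 * z.2.1| ≤ a * R := by
        rw [abs_mul]; exact mul_le_mul hv1 hz2 (abs_nonneg _) ha
      have e2 : |v.2.1 * z.1| ≤ a * R := by
        rw [abs_mul]; exact mul_le_mul hv2 hz1 (abs_nonneg _) ha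
      rw [abs_le] at e1 e2 hv3 ⊢
      constructor <;> linarith
    set κ := v.2.2 + v.1 / 2 * z.2.1 - v.2.1 / 2 * z.1
    have n1 : ‖v.1 • Vx z + v.2.1 • Vy z + κ • Vt z‖ ≤
        a * ‖Vx z‖ + a * ‖Vy z‖ + (c + a * R) * ‖Vt z‖ := by
      refine (norm_add₃_le).trans ?_
      rw [norm_smul, norm_smul, norm_smul, Real.norm_eq_abs, Real.norm_eq_abs, Real.norm_eq_abs]
      gcongr
    calc ‖v.1 • Vx z + v.2.1 • Vy z + κ • Vt z‖ ^ 2
        ≤ (a * ‖Vx z‖ + a * ‖Vy z‖ + (c + a * R) * ‖Vt z‖) ^ 2 := by gcongr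
      _ ≤ 3 * (a ^ 2 * (‖Vx z‖ ^ 2 + ‖Vy z‖ ^ 2) + (c + a * R) ^ 2 * ‖Vt z‖ ^ 2) := by
          nlinarith [sq_nonneg (a * ‖Vx z‖ - a * ‖Vy z‖),
            sq_nonneg (a * ‖Vx z‖ - (c + a * R) * ‖Vt z‖),
            sq_nonneg (a * ‖Vy z‖ - (c + a * R) * ‖Vt z‖)]
  -- the double integral
  set Φ : Pt × Pt → ℝ≥0∞ := (S ×ˢ S).indicator
    (fun x => ENNReal.ofReal (‖f x.1 - f x.2‖ ^ 2)) with hΦ
  have hΦm : Measurable Φ := by
    refine Measurable.indicator ?_ (hS.prod hS)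
    have h1 : StronglyMeasurable (fun x : Pt × Pt => f x.1 - f x.2) :=
      (sm.comp_measurable measurable_fst).sub (sm.comp_measurable measurable_snd)
    exact (h1.norm.measurable.pow_const 2).ennreal_ofReal
  have e1 : D f S = ∫⁻ p, ∫⁻ q, Φ (p, q) := by
    unfold D
    rw [← lintegral_indicator hS]
    refine lintegral_congr fun p => ?_
    by_cases hp : p ∈ S
    · rw [indicator_of_mem hp, ← lintegral_indicator hS]
      refine lintegral_congr fun q => ?_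
      by_cases hq : q ∈ S
      · rw [indicator_of_mem hq, hΦ, indicator_of_mem (mk_mem_prod hp hq)]
      · rw [indicator_of_notMem hq, hΦ, indicator_of_notMem (fun h => hq h.2)]
    · rw [indicator_of_notMem hp]
      have : ∀ q, Φ (p, q) = 0 := fun q => by
        rw [hΦ, indicator_of_notMem (fun h => hp h.1)]
      simp [this]
  have e2 : ∀ p : Pt, ∫⁻ q, Φ (p, q) = ∫⁻ v, Φ (p, p + v) := fun p =>
    ((mp_addL p).lintegral_comp (hΦm.comp measurable_prodMk_left)).symm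
  have e3 : ∫⁻ p, ∫⁻ v, Φ (p, p + v) = ∫⁻ v, ∫⁻ p, Φ (p, p + v) := by
    refine lintegral_lintegral_swap ?_
    have : Measurable (fun x : Pt × Pt => Φ (x.1, x.1 + x.2)) :=
      hΦm.comp (measurable_fst.prodMk (measurable_fst.add measurable_snd))
    exact this.aemeasurable
  have e4 : ∀ v : Pt, ∫⁻ p, Φ (p, p + v) ≤ Q.indicator (fun _ => K) v := by
    intro v
    have hm : MeasurableSet (S ∩ {z : Pt | z + v ∈ S}) :=
      hS.inter ((measurable_id.add_const v) hS)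
    have e5 : ∫⁻ p, Φ (p, p + v) =
        ∫⁻ z in S ∩ {z | z + v ∈ S}, ENNReal.ofReal (‖f (z + v) - f z‖ ^ 2) := by
      rw [← lintegral_indicator hm]
      refine lintegral_congr fun p => ?_
      by_cases hp : p ∈ S ∩ {z : Pt | z + v ∈ S}
      · rw [indicator_of_mem hp, hΦ,
          indicator_of_mem (show (p, p + v) ∈ S ×ˢ S from ⟨hp.1, hp.2⟩), norm_sub_rev]
      · rw [indicator_of_notMem hp, hΦ, indicator_of_notMem (fun h => hp ⟨h.1, h.2⟩)]
    rw [e5]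
    by_cases hvQ : v ∈ Q
    · rw [indicator_of_mem hvQ]; exact hv v hvQ
    · have : S ∩ {z : Pt | z + v ∈ S} = ∅ := by
        refine eq_empty_of_forall_notMem fun z hz => hvQ ?_
        have h := hd z hz.1 (z + v) hz.2
        simp only [Prod.fst_add, Prod.snd_add, add_sub_cancel_left] at h
        exact ⟨abs_le.mp h.1, abs_le.mp h.2.1, abs_le.mp h.2.2⟩
      rw [this, setLIntegral_empty]
      exact bot_le
  rw [e1, lintegral_congr e2, e3]
  calc ∫⁻ v, ∫⁻ p, Φ (p, p + v) ≤ ∫⁻ v, Q.indicator (fun _ => K) v := lintegral_mono e4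
    _ = ENNReal.ofReal (8 * a ^ 2 * c) * K := by
        rw [lintegral_indicator hQm, setLIntegral_const, hQv, mul_comm]

omit [CompleteSpace E] in
private theorem exc_congr' {f g : Pt → E} {S : Set Pt} (h : f =ᵐ[volume.restrict S] g) :
    exc f S = exc g S := by
  unfold exc
  rw [average_congr h]
  refine integral_congr_ae ?_
  filter_upwards [h] with z hz
  rw [hz]

/-- The good representative. -/
private theorem repr {U : Set Pt} (hU : IsOpen U) {V Vx Vy Vt : Pt → E}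
    (h0 : MemLp V 2 (volume.restrict U))
    (hX : WD vX U V Vx) (hY : WD vY U V Vy) (hT : WD vT U V Vt) :
    ∃ f : Pt → E, StronglyMeasurable f ∧ V =ᵐ[volume.restrict U] f ∧
      MemLp f 2 (volume.restrict U) ∧ WD vX U f Vx ∧ WD vY U f Vy ∧ WD vT U f Vt := by
  obtain ⟨f, sm, e⟩ := h0.1
  exact ⟨f, sm, e, h0.ae_eq e, hX.congr hU e (EventuallyEq.refl _ _),
    hY.congr hU e (EventuallyEq.refl _ _), hT.congr hU e (EventuallyEq.refl _ _)⟩

/-- On the box `{|x|,|y| < r, |t - t₀| < h}`. -/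
theorem poin_box : ∃ C : ℝ, 0 ≤ C ∧ ∀ (U : Set Pt) (V Vx Vy Vt : Pt → E) (r h t₀ : ℝ),
    IsOpen U → 0 < r → 0 < h → Bx (0, (0, t₀)) (r, (r, h)) ⊆ U →
    MemLp V 2 (volume.restrict U) → MemLp Vx 2 (volume.restrict U) →
    MemLp Vy 2 (volume.restrict U) → MemLp Vt 2 (volume.restrict U) →
    WD vX U V Vx → WD vY U V Vy → WD vT U V Vt →
    exc V (Bx (0, (0, t₀)) (r, (r, h))) ≤
      C * (r ^ 2 * (∫ z in Bx (0, (0, t₀)) (r, (r, h)), (‖Vx z‖ ^ 2 + ‖Vy z‖ ^ 2)) +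
        (r ^ 4 + h ^ 2) * ∫ z in Bx (0, (0, t₀)) (r, (r, h)), ‖Vt z‖ ^ 2) := by
  refine ⟨192, by norm_num, ?_⟩
  intro U V Vx Vy Vt r h t₀ hU hr hh hSU m0 mx my mt hX hY hT
  obtain ⟨f, sm, e, mf, wX, wY, wT⟩ := repr hU m0 hX hY hT
  have hS : Bx (0, (0, t₀)) (r, (r, h)) = Ioo (-r) r ×ˢ (Ioo (-r) r ×ˢ Ioo (t₀ - h) (t₀ + h)) := by
    ext z
    simp only [Bx, mem_ofPred_eq, mem_prod, mem_Ioo, abs_lt, sub_zero]
    constructor
    · rintro ⟨a, b, c, d⟩
      exact ⟨a, b, by linarith, by linarith⟩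
    · rintro ⟨a, b, c, d⟩
      exact ⟨a, b, by linarith, by linarith⟩
  rw [hS] at hSU ⊢
  set S : Set Pt := Ioo (-r) r ×ˢ (Ioo (-r) r ×ˢ Ioo (t₀ - h) (t₀ + h)) with hS'
  have hSm : MeasurableSet S := measurableSet_Ioo.prod (measurableSet_Ioo.prod measurableSet_Ioo)
  have hSc : Convex ℝ S := (convex_Ioo _ _).prod ((convex_Ioo _ _).prod (convex_Ioo _ _))
  have hSv : volume S = ENNReal.ofReal (8 * r ^ 2 * h) := by
    rw [hS', Measure.volume_eq_prod, Measure.prod_prod, Measure.volume_eq_prod,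
      Measure.prod_prod, Real.volume_Ioo, Real.volume_Ioo, ← ENNReal.ofReal_mul (by linarith),
      ← ENNReal.ofReal_mul (by linarith)]
    congr 1
    ring
  have hfin : volume S ≠ ⊤ := by rw [hSv]; exact ENNReal.ofReal_ne_top
  have hre : (volume : Measure Pt).restrict S ≤ volume.restrict U :=
    Measure.restrict_mono hSU le_rfl
  have h1 := D_cvx hU sm wX wY wT hSm hSc hSU (mx.mono_measure hre) (my.mono_measure hre)
    (mt.mono_measure hre) (a := 2 * r) (c := 2 * h) (R := r) (by linarith) (by linarith) hr.le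
    (by
      rintro p ⟨⟨a1, a2⟩, ⟨a3, a4⟩, a5, a6⟩ q ⟨⟨b1, b2⟩, ⟨b3, b4⟩, b5, b6⟩
      refine ⟨?_, ?_, ?_⟩ <;> rw [abs_le] <;> constructor <;> linarith)
    (by
      rintro p ⟨⟨a1, a2⟩, ⟨a3, a4⟩, -⟩
      exact ⟨abs_le.mpr ⟨a1.le, a2.le⟩, abs_le.mpr ⟨a3.le, a4.le⟩⟩)
  have h2 := (exc_D hSm hfin (mf.mono_measure hre)).trans h1
  rw [exc_congr' (ae_mono hre e), hSv] at *
  set A := ∫ z in S, (‖Vx z‖ ^ 2 + ‖Vy z‖ ^ 2)
  set B := ∫ z in S, ‖Vt z‖ ^ 2
  have hA : 0 ≤ A := integral_nonneg fun z => by positivity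
  have hB : 0 ≤ B := integral_nonneg fun z => by positivity
  have hE : 0 ≤ exc f S := integral_nonneg fun z => by positivity
  rw [← ENNReal.ofReal_mul hE, ← ENNReal.ofReal_mul (by positivity),
    ENNReal.ofReal_le_ofReal_iff (by positivity)] at h2
  have h3 : 8 * r ^ 2 * h * exc f S ≤ 8 * r ^ 2 * h *
      (24 * ((2 * r) ^ 2 * A + (2 * h + 2 * r * r) ^ 2 * B)) := by
    refine (le_of_eq (mul_comm _ _)).trans (h2.trans (le_of_eq ?_))
    ring
  have h4 := le_of_mul_le_mul_left h3 (by positivity)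
  refine h4.trans ?_
  have h5 : (2 * h + 2 * r * r) ^ 2 ≤ 8 * (r ^ 4 + h ^ 2) := by
    nlinarith [sq_nonneg (h - r ^ 2)]
  have h6 := mul_le_mul_of_nonneg_right h5 hB
  have h7 : 0 ≤ r ^ 2 * A := by positivity
  nlinarith

/-- One step of the chain. -/
private theorem chain_step {f : Pt → E} (sm : StronglyMeasurable f) {S₁ S₂ : Set Pt} {m : ℝ}
    (hm : 0 < m) (h₁ : MeasurableSet S₁) (h₂ : MeasurableSet S₂)
    (v₁ : volume S₁ ≤ ENNReal.ofReal (12 * m)) (v₂ : volume S₂ ≤ ENNReal.ofReal (4 * m))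
    (v₃ : ENNReal.ofReal m ≤ volume (S₁ ∩ S₂)) : D f (S₁ ∪ S₂) ≤ 129 * (D f S₁ + D f S₂) := by
  have hm' : ENNReal.ofReal m ≠ 0 := by simpa using hm
  have h := chain_DI (F := E) (C := 4) (by norm_num) yng_sq h₁ h₂
    (ne_top_of_le_ne_top ENNReal.ofReal_ne_top v₁) (ne_top_of_le_ne_top ENNReal.ofReal_ne_top v₂)
    (fun h0 => hm' (le_bot_iff.mp (v₃.trans h0.le))) (w := f) sm.aestronglyMeasurable
  refine h.trans ?_
  refine mul_le_mul' ?_ le_rfl
  have h1 : (volume S₁ + volume S₂) / volume (S₁ ∩ S₂) ≤ ENNReal.ofReal 16 := by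
    calc (volume S₁ + volume S₂) / volume (S₁ ∩ S₂) ≤
          (ENNReal.ofReal (12 * m) + ENNReal.ofReal (4 * m)) / ENNReal.ofReal m :=
          ENNReal.div_le_div (add_le_add v₁ v₂) v₃
      _ = ENNReal.ofReal 16 := by
          rw [← ENNReal.ofReal_add (by positivity) (by positivity),
            ← ENNReal.ofReal_div_of_pos hm]
          congr 1
          field_simp
          norm_num
  rw [mul_div_assoc]
  calc 1 + ENNReal.ofReal (2 * 4) * ((volume S₁ + volume S₂) / volume (S₁ ∩ S₂)) ≤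
        1 + ENNReal.ofReal (2 * 4) * ENNReal.ofReal 16 := by gcongr
    _ = 129 := by
        rw [← ENNReal.ofReal_mul (by norm_num), ← ENNReal.ofReal_one,
          ← ENNReal.ofReal_add (by norm_num) (by norm_num)]
        norm_num

theorem poin_lat : ∃ C : ℝ, 0 ≤ C ∧ ∀ (U : Set Pt) (V Vx Vy Vt : Pt → E) (ρ h : ℝ),
    IsOpen U → 0 < ρ → ρ ≤ 1 → 0 < h → h ≤ 1 → bx ρ h ⊆ U →
    MemLp V 2 (volume.restrict U) → MemLp Vx 2 (volume.restrict U) →
    MemLp Vy 2 (volume.restrict U) → MemLp Vt 2 (volume.restrict U) →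
    WD vX U V Vx → WD vY U V Vy → WD vT U V Vt →
    exc V (lat ρ h) ≤ C * (ρ ^ 2 * (∫ z in lat ρ h, (‖Vx z‖ ^ 2 + ‖Vy z‖ ^ 2)) +
      ∫ z in lat ρ h, ‖Vt z‖ ^ 2) := by
  refine ⟨129 ^ 3 * 6144, by norm_num, ?_⟩
  intro U V Vx Vy Vt ρ h hU hρ hρ1 hh hh1 hbU m0 mx my mt hX hY hT
  obtain ⟨f, sm, e, mf, wX, wY, wT⟩ := repr hU m0 hX hY hT
  set B1 : Set Pt := Ico (ρ / 2) ρ ×ˢ (Ioo (-ρ) ρ ×ˢ Ioo (-h) h) with hB1
  set B2 : Set Pt := Ioo (-ρ) ρ ×ˢ (Ico (ρ / 2) ρ ×ˢ Ioo (-h) h) with hB2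
  set B3 : Set Pt := Ioc (-ρ) (-(ρ / 2)) ×ˢ (Ioo (-ρ) ρ ×ˢ Ioo (-h) h) with hB3
  set B4 : Set Pt := Ioo (-ρ) ρ ×ˢ (Ioc (-ρ) (-(ρ / 2)) ×ˢ Ioo (-h) h) with hB4
  have hL : lat ρ h = ((B1 ∪ B2) ∪ B3) ∪ B4 := by
    ext z
    simp only [lat, bx, mem_diff, mem_ofPred_eq, hB1, hB2, hB3, hB4, mem_union, mem_prod,
      mem_Ioo, mem_Ico, mem_Ioc, abs_lt, not_and_or, not_lt]
    constructor
    · rintro ⟨⟨⟨a1, a2⟩, ⟨a3, a4⟩, a5⟩, h | h⟩
      · rcases h with h | h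
        · exact Or.inl (Or.inr ⟨⟨a1, by linarith⟩, ⟨a3, a4⟩, a5⟩)
        · exact Or.inl (Or.inl (Or.inl ⟨⟨h, a2⟩, ⟨a3, a4⟩, a5⟩))
      · rcases h with h | h
        · exact Or.inr ⟨⟨a1, a2⟩, ⟨a3, by linarith⟩, a5⟩
        · exact Or.inl (Or.inl (Or.inr ⟨⟨a1, a2⟩, ⟨h, a4⟩, a5⟩))
    · rintro (((⟨⟨a1, a2⟩, ⟨a3, a4⟩, a5⟩ | ⟨⟨a1, a2⟩, ⟨a3, a4⟩, a5⟩) |
        ⟨⟨a1, a2⟩, ⟨a3, a4⟩, a5⟩) | ⟨⟨a1, a2⟩, ⟨a3, a4⟩, a5⟩)
      · exact ⟨⟨⟨by linarith, a2⟩, ⟨a3, a4⟩, a5⟩, Or.inl (Or.inr a1)⟩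
      · exact ⟨⟨⟨a1, a2⟩, ⟨by linarith, a4⟩, a5⟩, Or.inr (Or.inr a3)⟩
      · exact ⟨⟨⟨a1, by linarith⟩, ⟨a3, a4⟩, a5⟩, Or.inl (Or.inl (by linarith))⟩
      · exact ⟨⟨⟨a1, a2⟩, ⟨a3, by linarith⟩, a5⟩, Or.inr (Or.inl (by linarith))⟩
  have m1 : MeasurableSet B1 := measurableSet_Ico.prod (measurableSet_Ioo.prod measurableSet_Ioo)
  have m2 : MeasurableSet B2 := measurableSet_Ioo.prod (measurableSet_Ico.prod measurableSet_Ioo)
  have m3 : MeasurableSet B3 := measurableSet_Ioc.prod (measurableSet_Ioo.prod measurableSet_Ioo)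
  have m4 : MeasurableSet B4 := measurableSet_Ioo.prod (measurableSet_Ioc.prod measurableSet_Ioo)
  have c1 : Convex ℝ B1 := (convex_Ico _ _).prod ((convex_Ioo _ _).prod (convex_Ioo _ _))
  have c2 : Convex ℝ B2 := (convex_Ioo _ _).prod ((convex_Ico _ _).prod (convex_Ioo _ _))
  have c3 : Convex ℝ B3 := (convex_Ioc _ _).prod ((convex_Ioo _ _).prod (convex_Ioo _ _))
  have c4 : Convex ℝ B4 := (convex_Ioo _ _).prod ((convex_Ioc _ _).prod (convex_Ioo _ _))
  have vol3 : ∀ (I J K : Set ℝ) (a b c : ℝ), volume I = ENNReal.ofReal a →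
      volume J = ENNReal.ofReal b → volume K = ENNReal.ofReal c → 0 ≤ a → 0 ≤ b →
      volume (I ×ˢ (J ×ˢ K) : Set Pt) = ENNReal.ofReal (a * (b * c)) := by
    intro I J K a b c h1 h2 h3 ha hb
    rw [Measure.volume_eq_prod, Measure.prod_prod, Measure.volume_eq_prod,
      Measure.prod_prod, h1, h2, h3, ← ENNReal.ofReal_mul hb, ← ENNReal.ofReal_mul ha]
  have iA : volume (Ico (ρ / 2) ρ) = ENNReal.ofReal (ρ / 2) := by
    rw [Real.volume_Ico]; congr 1; ring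
  have iB : volume (Ioo (-ρ) ρ) = ENNReal.ofReal (2 * ρ) := by
    rw [Real.volume_Ioo]; congr 1; ring
  have iC : volume (Ioo (-h) h) = ENNReal.ofReal (2 * h) := by
    rw [Real.volume_Ioo]; congr 1; ring
  have iD : volume (Ioc (-ρ) (-(ρ / 2))) = ENNReal.ofReal (ρ / 2) := by
    rw [Real.volume_Ioc]; congr 1; ring
  set m : ℝ := ρ ^ 2 * h / 2 with hm
  have hm0 : 0 < m := by positivity
  have w1 : volume B1 = ENNReal.ofReal (4 * m) := by
    rw [hB1, vol3 _ _ _ _ _ _ iA iB iC (by positivity) (by positivity)]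
    congr 1; rw [hm]; ring
  have w2 : volume B2 = ENNReal.ofReal (4 * m) := by
    rw [hB2, vol3 _ _ _ _ _ _ iB iA iC (by positivity) (by positivity)]
    congr 1; rw [hm]; ring
  have w3 : volume B3 = ENNReal.ofReal (4 * m) := by
    rw [hB3, vol3 _ _ _ _ _ _ iD iB iC (by positivity) (by positivity)]
    congr 1; rw [hm]; ring
  have w4 : volume B4 = ENNReal.ofReal (4 * m) := by
    rw [hB4, vol3 _ _ _ _ _ _ iB iD iC (by positivity) (by positivity)]
    congr 1; rw [hm]; ring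
  have x12 : ENNReal.ofReal m ≤ volume (B1 ∩ B2) := by
    have h1 : volume (Ico (ρ / 2) ρ ×ˢ (Ico (ρ / 2) ρ ×ˢ Ioo (-h) h) : Set Pt) =
        ENNReal.ofReal m := by
      rw [vol3 _ _ _ _ _ _ iA iA iC (by positivity) (by positivity)]
      congr 1; rw [hm]; ring
    rw [← h1]
    refine measure_mono ?_
    rintro z ⟨⟨a1, a2⟩, ⟨a3, a4⟩, a5⟩
    exact ⟨⟨⟨a1, a2⟩, ⟨by linarith, a4⟩, a5⟩, ⟨by linarith, a2⟩, ⟨a3, a4⟩, a5⟩
  have x23 : ENNReal.ofReal m ≤ volume ((B1 ∪ B2) ∩ B3) := by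
    have h1 : volume (Ioc (-ρ) (-(ρ / 2)) ×ˢ (Ico (ρ / 2) ρ ×ˢ Ioo (-h) h) : Set Pt) =
        ENNReal.ofReal m := by
      rw [vol3 _ _ _ _ _ _ iD iA iC (by positivity) (by positivity)]
      congr 1; rw [hm]; ring
    rw [← h1]
    refine measure_mono ?_
    rintro z ⟨⟨a1, a2⟩, ⟨a3, a4⟩, a5⟩
    exact ⟨Or.inr ⟨⟨a1, by linarith⟩, ⟨a3, a4⟩, a5⟩, ⟨a1, a2⟩, ⟨by linarith, a4⟩, a5⟩
  have x34 : ENNReal.ofReal m ≤ volume (((B1 ∪ B2) ∪ B3) ∩ B4) := by
    have h1 : volume (Ioc (-ρ) (-(ρ / 2)) ×ˢ (Ioc (-ρ) (-(ρ / 2)) ×ˢ Ioo (-h) h) : Set Pt) =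
        ENNReal.ofReal m := by
      rw [vol3 _ _ _ _ _ _ iD iD iC (by positivity) (by positivity)]
      congr 1; rw [hm]; ring
    rw [← h1]
    refine measure_mono ?_
    rintro z ⟨⟨a1, a2⟩, ⟨a3, a4⟩, a5⟩
    exact ⟨Or.inr ⟨⟨a1, a2⟩, ⟨a3, by linarith⟩, a5⟩, ⟨a1, by linarith⟩, ⟨a3, a4⟩, a5⟩
  have y12 : volume (B1 ∪ B2) ≤ ENNReal.ofReal (8 * m) := by
    refine (measure_union_le _ _).trans ?_
    rw [w1, w2, ← ENNReal.ofReal_add (by positivity) (by positivity)]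
    exact ENNReal.ofReal_le_ofReal (by linarith)
  have y123 : volume ((B1 ∪ B2) ∪ B3) ≤ ENNReal.ofReal (12 * m) := by
    refine (measure_union_le _ _).trans ?_
    refine (add_le_add y12 w3.le).trans ?_
    rw [← ENNReal.ofReal_add (by positivity) (by positivity)]
    exact ENNReal.ofReal_le_ofReal (by linarith)
  have s1 := chain_step sm hm0 m1 m2 (w1.le.trans (ENNReal.ofReal_le_ofReal (by linarith)))
    w2.le x12
  have s2 := chain_step sm hm0 (m1.union m2) m3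
    (y12.trans (ENNReal.ofReal_le_ofReal (by linarith))) w3.le x23
  have s3 := chain_step sm hm0 ((m1.union m2).union m3) m4 y123 w4.le x34
  rw [← hL] at s3
  have hlatU : lat ρ h ⊆ U := diff_subset.trans hbU
  have hlm : MeasurableSet (lat ρ h) := by
    rw [hL]; exact ((m1.union m2).union m3).union m4
  have hre : (volume : Measure Pt).restrict (lat ρ h) ≤ volume.restrict U :=
    Measure.restrict_mono hlatU le_rfl
  set A := ∫ z in lat ρ h, (‖Vx z‖ ^ 2 + ‖Vy z‖ ^ 2) with hA'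
  set B := ∫ z in lat ρ h, ‖Vt z‖ ^ 2 with hB'
  have hA : 0 ≤ A := integral_nonneg fun z => by positivity
  have hB : 0 ≤ B := integral_nonneg fun z => by positivity
  have hbox : ∀ S : Set Pt, MeasurableSet S → Convex ℝ S → S ⊆ lat ρ h →
      D f S ≤ ENNReal.ofReal (8 * (2 * ρ) ^ 2 * (2 * h)) *
        ENNReal.ofReal (3 * ((2 * ρ) ^ 2 * A + (2 * h + 2 * ρ * ρ) ^ 2 * B)) := by
    intro S hSm hSc hSl
    have hre' : (volume : Measure Pt).restrict S ≤ volume.restrict U :=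
      Measure.restrict_mono (hSl.trans hlatU) le_rfl
    have hb : ∀ p ∈ S, |p.1| < ρ ∧ |p.2.1| < ρ ∧ |p.2.2| < h := fun p hp => (hSl hp).1
    have h1 := D_cvx hU sm wX wY wT hSm hSc (hSl.trans hlatU) (mx.mono_measure hre')
      (my.mono_measure hre') (mt.mono_measure hre') (a := 2 * ρ) (c := 2 * h) (R := ρ)
      (by linarith) (by linarith) hρ.le
      (by
        intro p hp q hq
        obtain ⟨p1, p2, p3⟩ := hb p hp
        obtain ⟨q1, q2, q3⟩ := hb q hq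
        rw [abs_lt] at p1 p2 p3 q1 q2 q3
        refine ⟨?_, ?_, ?_⟩ <;> rw [abs_le] <;> constructor <;> linarith)
      (fun p hp => ⟨(hb p hp).1.le, (hb p hp).2.1.le⟩)
    refine h1.trans ?_
    refine mul_le_mul' le_rfl (ENNReal.ofReal_le_ofReal ?_)
    have ix : IntegrableOn (fun z => ‖Vx z‖ ^ 2 + ‖Vy z‖ ^ 2) (lat ρ h) :=
      ((mx.mono_measure hre).integrable_norm_pow (p := 2) (by norm_num)).add
        ((my.mono_measure hre).integrable_norm_pow (p := 2) (by norm_num))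
    have it : IntegrableOn (fun z => ‖Vt z‖ ^ 2) (lat ρ h) :=
      (mt.mono_measure hre).integrable_norm_pow (p := 2) (by norm_num)
    have i1 : ∫ z in S, (‖Vx z‖ ^ 2 + ‖Vy z‖ ^ 2) ≤ A :=
      setIntegral_mono_set ix (Filter.Eventually.of_forall fun z => by positivity)
        hSl.eventuallyLE
    have i2 : ∫ z in S, ‖Vt z‖ ^ 2 ≤ B :=
      setIntegral_mono_set it (Filter.Eventually.of_forall fun z => by positivity)
        hSl.eventuallyLE
    gcongr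
  have u1 : B1 ⊆ lat ρ h := by
    rw [hL]; exact fun z hz => Or.inl (Or.inl (Or.inl hz))
  have u2 : B2 ⊆ lat ρ h := by
    rw [hL]; exact fun z hz => Or.inl (Or.inl (Or.inr hz))
  have u3 : B3 ⊆ lat ρ h := by
    rw [hL]; exact fun z hz => Or.inl (Or.inr hz)
  have u4 : B4 ⊆ lat ρ h := by
    rw [hL]; exact fun z hz => Or.inr hz
  have d1 := hbox B1 m1 c1 u1
  have d2 := hbox B2 m2 c2 u2
  have d3 := hbox B3 m3 c3 u3
  have d4 := hbox B4 m4 c4 u4
  rw [← ENNReal.ofReal_mul (by positivity)] at d1 d2 d3 d4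
  set T : ℝ := 8 * (2 * ρ) ^ 2 * (2 * h) *
    (3 * ((2 * ρ) ^ 2 * A + (2 * h + 2 * ρ * ρ) ^ 2 * B)) with hT'
  have hT0 : 0 ≤ T := by positivity
  have f129 : (129 : ℝ≥0∞) = ENNReal.ofReal 129 := by norm_num
  have t1 : D f (B1 ∪ B2) ≤ ENNReal.ofReal (129 * (T + T)) := by
    refine s1.trans ?_
    rw [f129, ENNReal.ofReal_mul (by norm_num), ENNReal.ofReal_add hT0 hT0]
    gcongr
  have t2 : D f ((B1 ∪ B2) ∪ B3) ≤ ENNReal.ofReal (129 * (129 * (T + T) + T)) := by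
    refine s2.trans ?_
    rw [f129, ENNReal.ofReal_mul (by norm_num), ENNReal.ofReal_add (by positivity) hT0]
    gcongr
  have t3 : D f (lat ρ h) ≤ ENNReal.ofReal (129 * (129 * (129 * (T + T) + T) + T)) := by
    refine s3.trans ?_
    rw [f129, ENNReal.ofReal_mul (by norm_num), ENNReal.ofReal_add (by positivity) hT0]
    gcongr
  have hfin : volume (lat ρ h) ≠ ⊤ := by
    rw [hL]
    refine ne_top_of_le_ne_top ?_ (measure_union_le _ _)
    exact ENNReal.add_ne_top.mpr ⟨ne_top_of_le_ne_top ENNReal.ofReal_ne_top y123, by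
      rw [w4]; exact ENNReal.ofReal_ne_top⟩
  have h2 := (exc_D hlm hfin (mf.mono_measure hre)).trans t3
  rw [exc_congr' (ae_mono hre e)]
  have hE : 0 ≤ exc f (lat ρ h) := integral_nonneg fun z => by positivity
  have h3 : ENNReal.ofReal (exc f (lat ρ h)) * ENNReal.ofReal (4 * m) ≤
      ENNReal.ofReal (129 * (129 * (129 * (T + T) + T) + T)) := by
    refine le_trans ?_ h2
    rw [← w1]
    gcongr
  rw [← ENNReal.ofReal_mul hE, ENNReal.ofReal_le_ofReal_iff (by positivity)] at h3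
  have h4 : 129 * (129 * (129 * (T + T) + T) + T) ≤ 129 ^ 3 * 4 * T := by nlinarith
  have h5 : 4 * m * exc f (lat ρ h) ≤ 4 * m *
      (129 ^ 3 * 4 * 32 * (3 * ((2 * ρ) ^ 2 * A + (2 * h + 2 * ρ * ρ) ^ 2 * B))) := by
    refine (le_of_eq (mul_comm _ _)).trans ((h3.trans h4).trans (le_of_eq ?_))
    rw [hT', hm]; ring
  have h6 := le_of_mul_le_mul_left h5 (by positivity)
  refine h6.trans ?_
  have h7 : (2 * h + 2 * ρ * ρ) ^ 2 ≤ 16 := by
    have : 2 * h + 2 * ρ * ρ ≤ 4 := by nlinarith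
    have h0 : 0 ≤ 2 * h + 2 * ρ * ρ := by positivity
    nlinarith
  have h8 := mul_le_mul_of_nonneg_right h7 hB
  have h9 : 0 ≤ ρ ^ 2 * A := by positivity
  nlinarith

end PLH
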