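import Pool.Agent.Lib.PLH.T2
import Pool.Agent.Lib.PLH.T7

/-!
MODULE P3 (200 lines). The thin cylinder inequality (one dimensional trace).

`f = V - c` has the weak derivative `fx = Vx + (y/2)Vt` along `ex` (`WD.lin`). For `z ∈ bx ρ 1` with
`z.1 < 0` and `s ∈ (0,1)` the segment from `z` to `z + s e` lies in `bx 1 1` (`ρ ≤ 1`), and by `WD.ftc`
(field `ex`) and Cauchy-Schwarz `‖f z‖² ≤ 2‖f(z+se)‖² + 2∫₀¹ 1_{bx 1 1}‖fx‖²(z+σe) dσ` for a.e. `z`.
Average over `s ∈ (0,1)`: `‖f z‖² ≤ 2∫₀¹ (1_{bx 1 1}(‖f‖²+‖fx‖²))(z+σe) dσ`; the right side is at most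
the integral over the whole line `{x' ∈ (-1,1)}` through `z`; integrate over `z ∈ bx ρ 1`,
`z.1 ∈ (-ρ,0)`: factor `ρ`. Same for `z.1 ≥ 0` with `-s`. Finally `‖fx‖² ≤ 2‖Vx‖²+‖Vt‖²/2`.
-/

open MeasureTheory Set Filter Topology
open scoped ContDiff ENNReal

namespace PLH

variable {E : Type*} [NormedAddCommGroup E] [InnerProductSpace ℝ E] [CompleteSpace E]

private theorem isOpen_bx (ρ h : ℝ) : IsOpen (bx ρ h) := by
  have h1 : IsOpen {z : Pt | |z.1| < ρ} :=
    isOpen_lt (continuous_abs.comp continuous_fst) continuous_const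
  have h2 : IsOpen {z : Pt | |z.2.1| < ρ} :=
    isOpen_lt (continuous_abs.comp (continuous_fst.comp continuous_snd)) continuous_const
  have h3 : IsOpen {z : Pt | |z.2.2| < h} :=
    isOpen_lt (continuous_abs.comp (continuous_snd.comp continuous_snd)) continuous_const
  exact h1.inter (h2.inter h3)

private theorem bx_mono {ρ ρ' h h' : ℝ} (h1 : ρ ≤ ρ') (h2 : h ≤ h') : bx ρ h ⊆ bx ρ' h' :=
  fun _ hz => ⟨hz.1.trans_le h1, hz.2.1.trans_le h1, hz.2.2.trans_le h2⟩

/-- Tonelli: averaging translates along `e₁` of a function over a thin slab. -/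
private theorem slab {S : Set Pt} (hS : MeasurableSet S) {a b s : ℝ} (hab : a ≤ b) (hs : s ≠ 0)
    (hSab : ∀ z ∈ S, a ≤ z.1 ∧ z.1 ≤ b) {H : Pt → ℝ≥0∞} (hH : Measurable H) :
    ∫⁻ σ in Ioo (0 : ℝ) 1, ∫⁻ z in S, H (ex.fl (σ * s) z) ≤
      ENNReal.ofReal ((b - a) / |s|) * ∫⁻ z, H z := by
  have h1 : ∀ σ : ℝ, ∫⁻ z in S, H (ex.fl (σ * s) z) =
      ∫⁻ w, S.indicator (fun _ => (1 : ℝ≥0∞)) (ex.fl (-(σ * s)) w) * H w := by
    intro σ
    have h2 := (ex.mp (σ * s)).lintegral_comp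
      (f := fun w => S.indicator (fun _ => (1 : ℝ≥0∞)) (ex.fl (-(σ * s)) w) * H w) ?_
    · rw [← h2, ← lintegral_indicator hS]
      apply lintegral_congr
      intro z
      rw [ex.fl_fl]
      simp only [neg_add_cancel, ex.fl_zero]
      by_cases hz : z ∈ S
      · simp [hz]
      · simp [hz]
    · apply Measurable.mul _ hH
      apply Measurable.comp (g := S.indicator (fun _ => (1 : ℝ≥0∞)))
        (measurable_const.indicator hS)
      exact (ex.mp _).measurable
  simp_rw [h1]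
  have hmeas : Measurable (fun q : ℝ × Pt =>
      S.indicator (fun _ => (1 : ℝ≥0∞)) (ex.fl (-(q.1 * s)) q.2) * H q.2) := by
    apply Measurable.mul
    · apply Measurable.comp (g := S.indicator (fun _ => (1 : ℝ≥0∞)))
        (measurable_const.indicator hS)
      have : Continuous (fun q : ℝ × Pt => ex.fl (-(q.1 * s)) q.2) := by
        have h3 := ex.cont_fl
        exact h3.comp (((continuous_fst.mul continuous_const).neg).prodMk continuous_snd)
      exact this.measurable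
    · exact hH.comp measurable_snd
  rw [lintegral_lintegral_swap hmeas.aemeasurable]
  rw [← lintegral_const_mul _ hH]
  apply lintegral_mono
  intro w
  simp only
  rw [lintegral_mul_const]
  · apply mul_le_mul_left
    have h4 : ∀ σ : ℝ, S.indicator (fun _ => (1 : ℝ≥0∞)) (ex.fl (-(σ * s)) w) ≤
        (Icc (min ((w.1 - a) / s) ((w.1 - b) / s)) (max ((w.1 - a) / s) ((w.1 - b) / s))).indicator
          (fun _ => (1 : ℝ≥0∞)) σ := by
      intro σ
      by_cases hz : ex.fl (-(σ * s)) w ∈ S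
      · rw [indicator_of_mem hz]
        have h5 := hSab _ hz
        simp only [VF.fl, ex, mul_one] at h5
        rw [indicator_of_mem]
        rcases lt_or_gt_of_ne hs with hs' | hs'
        · have e1 : (w.1 - a) / s ≤ σ := by
            rw [div_le_iff_of_neg hs']; linarith [h5.1]
          have e2 : σ ≤ (w.1 - b) / s := by
            rw [le_div_iff_of_neg hs']; linarith [h5.2]
          exact ⟨(min_le_left _ _).trans e1, e2.trans (le_max_right _ _)⟩
        · have e1 : σ ≤ (w.1 - a) / s := by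
            rw [le_div_iff₀ hs']; linarith [h5.1]
          have e2 : (w.1 - b) / s ≤ σ := by
            rw [div_le_iff₀ hs']; linarith [h5.2]
          exact ⟨(min_le_right _ _).trans e2, e1.trans (le_max_left _ _)⟩
      · rw [indicator_of_notMem hz]
        exact zero_le
    calc ∫⁻ σ in Ioo (0 : ℝ) 1, S.indicator (fun _ => (1 : ℝ≥0∞)) (ex.fl (-(σ * s)) w)
        ≤ ∫⁻ σ, S.indicator (fun _ => (1 : ℝ≥0∞)) (ex.fl (-(σ * s)) w) :=
          setLIntegral_le_lintegral _ _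
      _ ≤ ∫⁻ σ, (Icc (min ((w.1 - a) / s) ((w.1 - b) / s))
            (max ((w.1 - a) / s) ((w.1 - b) / s))).indicator (fun _ => (1 : ℝ≥0∞)) σ :=
          lintegral_mono h4
      _ = ENNReal.ofReal (|(w.1 - a) / s - (w.1 - b) / s|) := by
          rw [lintegral_indicator_const measurableSet_Icc, one_mul, Real.volume_Icc,
            max_sub_min_eq_abs']
      _ ≤ _ := by
          apply ENNReal.ofReal_le_ofReal
          have e3 : (w.1 - a) / s - (w.1 - b) / s = (b - a) / s := by ring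
          rw [e3, abs_div, abs_of_nonneg (sub_nonneg.mpr hab)]
  · apply Measurable.comp (g := S.indicator (fun _ => (1 : ℝ≥0∞)))
      (measurable_const.indicator hS)
    have : Continuous (fun q : ℝ => ex.fl (-(q * s)) w) :=
      ex.cont_fl.comp (((continuous_id.mul continuous_const).neg).prodMk continuous_const)
    exact this.measurable

private theorem sq_add (a b : ℝ≥0∞) : (a + b) ^ 2 ≤ 2 * a ^ 2 + 2 * b ^ 2 := by
  have h := ENNReal.rpow_add_le_mul_rpow_add_rpow a b (p := 2) (by norm_num)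
  norm_num at h
  rw [mul_add] at h
  exact_mod_cast h

private theorem sq_lint {α : Type*} [MeasurableSpace α] {μ : Measure α} [IsProbabilityMeasure μ]
    {h : α → ℝ≥0∞} (hh : AEMeasurable h μ) : (∫⁻ x, h x ∂μ) ^ 2 ≤ ∫⁻ x, h x ^ 2 ∂μ := by
  have h1 := ENNReal.lintegral_mul_le_Lp_mul_Lq μ (p := 2) (q := 2)
    Real.HolderConjugate.two_two hh (aemeasurable_const (b := (1 : ℝ≥0∞)))
  simp only [Pi.mul_apply, mul_one, ENNReal.one_rpow, lintegral_const, measure_univ] at h1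
  have h2 : (∫⁻ x, h x ∂μ) ^ 2 ≤ ((∫⁻ x, h x ^ (2 : ℝ) ∂μ) ^ (1 / (2 : ℝ))) ^ 2 := by
    gcongr
  refine h2.trans (le_of_eq ?_)
  rw [← ENNReal.rpow_natCast, ← ENNReal.rpow_mul]
  norm_num

private theorem half {Q : Set Pt} (hQ : IsOpen Q) {f g : Pt → E} (hg : StronglyMeasurable g)
    (hf : StronglyMeasurable f) (h : WD ex Q f g)
    {S : Set Pt} (hS : MeasurableSet S) {a b : ℝ} (hab : a ≤ b)
    (hSab : ∀ z ∈ S, a ≤ z.1 ∧ z.1 ≤ b) {e : ℝ} (he : |e| = 1)
    (hp : ∀ z ∈ S, ∀ t ∈ Ico (0 : ℝ) 1, ex.fl (t * e) z ∈ Q) :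
    ∫⁻ z in S, ‖f z‖ₑ ^ 2 ≤ ENNReal.ofReal (2 * (b - a)) *
      ((∫⁻ z in Q, ‖f z‖ₑ ^ 2) + ∫⁻ z in Q, ‖g z‖ₑ ^ 2) := by
  have he0 : e ≠ 0 := by
    rintro rfl
    simp at he
  set Hf : Pt → ℝ≥0∞ := Q.indicator (fun z => ‖f z‖ₑ ^ 2) with hHf
  set Hg : Pt → ℝ≥0∞ := Q.indicator (fun z => ‖g z‖ₑ ^ 2) with hHg
  have mf : Measurable Hf := (hf.enorm.pow_const 2).indicator hQ.measurableSet
  have mg : Measurable Hg := (hg.enorm.pow_const 2).indicator hQ.measurableSet
  have iF : ∫⁻ z, Hf z = ∫⁻ z in Q, ‖f z‖ₑ ^ 2 := lintegral_indicator hQ.measurableSet _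
  have iG : ∫⁻ z, Hg z = ∫⁻ z in Q, ‖g z‖ₑ ^ 2 := lintegral_indicator hQ.measurableSet _
  have hS2 : ∀ s ∈ Ioo (0 : ℝ) 1, ∫⁻ z in S, ‖f z‖ₑ ^ 2 ≤
      2 * (∫⁻ z in S, Hf (ex.fl (s * e) z)) + 2 * (ENNReal.ofReal (b - a) * ∫⁻ z, Hg z) := by
    intro s hs
    have hse : |s * e| = s := by rw [abs_mul, he, mul_one, abs_of_pos hs.1]
    have hse0 : s * e ≠ 0 := mul_ne_zero hs.1.ne' he0
    have hpS : ∀ z ∈ S, ∀ σ ∈ Icc (0 : ℝ) 1, ex.fl (σ * (s * e)) z ∈ Q := by
      intro z hz σ hσ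
      rw [← mul_assoc]
      refine hp z hz (σ * s) ⟨mul_nonneg hσ.1 hs.1.le, ?_⟩
      have := hs.2
      have := hs.1
      nlinarith [hσ.1, hσ.2]
    have hftc := h.ftc hQ (s * e) hS hpS
    have hpt : ∀ᵐ z ∂(volume.restrict S), ‖f z‖ₑ ^ 2 ≤ 2 * Hf (ex.fl (s * e) z) +
        2 * (ENNReal.ofReal (s ^ 2) * ∫⁻ σ in Ioo (0 : ℝ) 1, Hg (ex.fl (σ * (s * e)) z)) := by
      filter_upwards [hftc, ae_restrict_mem hS] with z hz hzS
      have h1 : ‖f z‖ₑ ≤ ‖f (ex.fl (s * e) z)‖ₑ +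
          ‖∫ σ in (0 : ℝ)..1, (s * e) • g (ex.fl (σ * (s * e)) z)‖ₑ := by
        rw [← hz]
        have : f z = f (ex.fl (s * e) z) - (f (ex.fl (s * e) z) - f z) := by abel
        calc ‖f z‖ₑ = ‖f (ex.fl (s * e) z) - (f (ex.fl (s * e) z) - f z)‖ₑ := by rw [← this]
          _ ≤ _ := enorm_sub_le
      have h2 : ‖∫ σ in (0 : ℝ)..1, (s * e) • g (ex.fl (σ * (s * e)) z)‖ₑ ^ 2 ≤
          ENNReal.ofReal (s ^ 2) * ∫⁻ σ in Ioo (0 : ℝ) 1, Hg (ex.fl (σ * (s * e)) z) := by
        rw [intervalIntegral.integral_of_le zero_le_one, integral_Ioc_eq_integral_Ioo]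
        have hmeas : Measurable (fun σ : ℝ => ‖(s * e) • g (ex.fl (σ * (s * e)) z)‖ₑ) := by
          have hc : Continuous (fun σ : ℝ => ex.fl (σ * (s * e)) z) :=
            ex.cont_fl.comp ((continuous_id.mul continuous_const).prodMk continuous_const)
          exact ((hg.comp_measurable hc.measurable).const_smul (s * e)).enorm
        have hprob : IsProbabilityMeasure ((volume : Measure ℝ).restrict (Ioo (0 : ℝ) 1)) :=
          ⟨by rw [Measure.restrict_apply_univ]; simp⟩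
        calc ‖∫ σ in Ioo (0 : ℝ) 1, (s * e) • g (ex.fl (σ * (s * e)) z)‖ₑ ^ 2
            ≤ (∫⁻ σ in Ioo (0 : ℝ) 1, ‖(s * e) • g (ex.fl (σ * (s * e)) z)‖ₑ) ^ 2 := by
              gcongr
              exact enorm_integral_le_lintegral_enorm _
          _ ≤ ∫⁻ σ in Ioo (0 : ℝ) 1, ‖(s * e) • g (ex.fl (σ * (s * e)) z)‖ₑ ^ 2 :=
              sq_lint hmeas.aemeasurable
          _ = ∫⁻ σ in Ioo (0 : ℝ) 1, ENNReal.ofReal (s ^ 2) * Hg (ex.fl (σ * (s * e)) z) := by
              refine setLIntegral_congr_fun measurableSet_Ioo (fun σ hσ => ?_)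
              have hmem : ex.fl (σ * (s * e)) z ∈ Q := hpS z hzS σ ⟨hσ.1.le, hσ.2.le⟩
              rw [hHg, indicator_of_mem hmem, enorm_smul, mul_pow]
              congr 1
              rw [Real.enorm_eq_ofReal_abs, hse, ← ENNReal.ofReal_pow hs.1.le]
          _ = _ := by
              rw [lintegral_const_mul]
              have hc : Continuous (fun σ : ℝ => ex.fl (σ * (s * e)) z) :=
                ex.cont_fl.comp ((continuous_id.mul continuous_const).prodMk continuous_const)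
              exact mg.comp hc.measurable
      have hmem : ex.fl (s * e) z ∈ Q := by
        have := hpS z hzS 1 ⟨zero_le_one, le_rfl⟩
        rwa [one_mul] at this
      have h3 : Hf (ex.fl (s * e) z) = ‖f (ex.fl (s * e) z)‖ₑ ^ 2 := by
        rw [hHf, indicator_of_mem hmem]
      calc ‖f z‖ₑ ^ 2 ≤ (‖f (ex.fl (s * e) z)‖ₑ +
          ‖∫ σ in (0 : ℝ)..1, (s * e) • g (ex.fl (σ * (s * e)) z)‖ₑ) ^ 2 := by gcongr
        _ ≤ _ := sq_add _ _
        _ ≤ _ := by
            rw [h3]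
            gcongr
    calc ∫⁻ z in S, ‖f z‖ₑ ^ 2 ≤ ∫⁻ z in S, (2 * Hf (ex.fl (s * e) z) +
        2 * (ENNReal.ofReal (s ^ 2) * ∫⁻ σ in Ioo (0 : ℝ) 1, Hg (ex.fl (σ * (s * e)) z))) :=
          lintegral_mono_ae hpt
      _ = 2 * (∫⁻ z in S, Hf (ex.fl (s * e) z)) + 2 * (ENNReal.ofReal (s ^ 2) *
          ∫⁻ z in S, ∫⁻ σ in Ioo (0 : ℝ) 1, Hg (ex.fl (σ * (s * e)) z)) := by
          have hfl : Measurable (ex.fl (s * e)) := (ex.mp _).measurable
          have hc2 : Continuous (fun q : Pt × ℝ => ex.fl (q.2 * (s * e)) q.1) :=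
            ex.cont_fl.comp ((continuous_snd.mul continuous_const).prodMk continuous_fst)
          have hm2 : Measurable (fun q : Pt × ℝ => Hg (ex.fl (q.2 * (s * e)) q.1)) :=
            mg.comp hc2.measurable
          have hm3 : Measurable (fun z : Pt =>
              ∫⁻ σ in Ioo (0 : ℝ) 1, Hg (ex.fl (σ * (s * e)) z)) :=
            hm2.lintegral_prod_right'
          have hm4 : Measurable (fun z => Hf (ex.fl (s * e) z)) := mf.comp hfl
          rw [lintegral_add_left (hm4.const_mul 2), lintegral_const_mul _ hm4,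
            lintegral_const_mul _ (hm3.const_mul _), lintegral_const_mul _ hm3]
      _ ≤ _ := by
          gcongr 2 * _ + 2 * ?_
          have hc2 : Continuous (fun q : Pt × ℝ => ex.fl (q.2 * (s * e)) q.1) :=
            ex.cont_fl.comp ((continuous_snd.mul continuous_const).prodMk continuous_fst)
          have hm2 : Measurable (fun q : Pt × ℝ => Hg (ex.fl (q.2 * (s * e)) q.1)) :=
            mg.comp hc2.measurable
          rw [lintegral_lintegral_swap hm2.aemeasurable]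
          calc ENNReal.ofReal (s ^ 2) *
              ∫⁻ σ in Ioo (0 : ℝ) 1, ∫⁻ z in S, Hg (ex.fl (σ * (s * e)) z)
              ≤ ENNReal.ofReal (s ^ 2) * (ENNReal.ofReal ((b - a) / |s * e|) * ∫⁻ z, Hg z) := by
                gcongr
                exact slab hS hab hse0 hSab mg
            _ = ENNReal.ofReal (s ^ 2 * ((b - a) / s)) * ∫⁻ z, Hg z := by
                rw [hse, ← mul_assoc, ← ENNReal.ofReal_mul (by positivity)]
            _ ≤ _ := by
                gcongr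
                have hs0 := hs.1
                have : s ^ 2 * ((b - a) / s) = s * (b - a) := by field_simp
                rw [this]
                have := hs.2
                nlinarith [sub_nonneg.mpr hab]
  have hint : ∫⁻ s in Ioo (0 : ℝ) 1, ∫⁻ z in S, ‖f z‖ₑ ^ 2 ≤ ∫⁻ s in Ioo (0 : ℝ) 1,
      (2 * (∫⁻ z in S, Hf (ex.fl (s * e) z)) + 2 * (ENNReal.ofReal (b - a) * ∫⁻ z, Hg z)) :=
    setLIntegral_mono' measurableSet_Ioo hS2
  have hvol : volume (Ioo (0 : ℝ) 1) = 1 := by simp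
  rw [setLIntegral_const, hvol, mul_one, lintegral_add_right _ measurable_const,
    setLIntegral_const, hvol, mul_one] at hint
  refine hint.trans ?_
  have hc2 : Continuous (fun q : ℝ × Pt => ex.fl (q.1 * e) q.2) :=
    ex.cont_fl.comp ((continuous_fst.mul continuous_const).prodMk continuous_snd)
  have hm2 : Measurable (fun q : ℝ × Pt => Hf (ex.fl (q.1 * e) q.2)) := mf.comp hc2.measurable
  have hm3 : Measurable (fun s : ℝ => ∫⁻ z in S, Hf (ex.fl (s * e) z)) :=
    hm2.lintegral_prod_right'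
  rw [lintegral_const_mul _ hm3]
  have h6 := slab hS hab he0 hSab mf
  rw [he, div_one] at h6
  rw [← iF, ← iG]
  calc 2 * (∫⁻ s in Ioo (0 : ℝ) 1, ∫⁻ z in S, Hf (ex.fl (s * e) z)) +
      2 * (ENNReal.ofReal (b - a) * ∫⁻ z, Hg z)
      ≤ 2 * (ENNReal.ofReal (b - a) * ∫⁻ z, Hf z) +
        2 * (ENNReal.ofReal (b - a) * ∫⁻ z, Hg z) := by gcongr
    _ = _ := by
        rw [ENNReal.ofReal_mul (by norm_num)]
        norm_num
        ring

omit [InnerProductSpace ℝ E] [CompleteSpace E] in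
private theorem lint_sq {μ : Measure Pt} {f : Pt → E} (hf : MemLp f 2 μ) :
    ∫⁻ z, ‖f z‖ₑ ^ 2 ∂μ = ENNReal.ofReal (∫ z, ‖f z‖ ^ 2 ∂μ) := by
  rw [ofReal_integral_eq_lintegral_ofReal (hf.integrable_norm_pow (by norm_num))
    (Filter.Eventually.of_forall (fun z => by positivity))]
  apply lintegral_congr
  intro z
  rw [ENNReal.ofReal_pow (norm_nonneg _), ofReal_norm]

theorem thin : ∃ C : ℝ, 0 ≤ C ∧ ∀ (U : Set Pt) (V Vx Vt : Pt → E) (ρ : ℝ),
    IsOpen U → 0 < ρ → ρ ≤ 1 → bx 1 1 ⊆ U →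
    MemLp V 2 (volume.restrict U) → MemLp Vx 2 (volume.restrict U) →
    MemLp Vt 2 (volume.restrict U) → WD vX U V Vx → WD vT U V Vt → ∀ c : E,
    ∫ z in bx ρ 1, ‖V z - c‖ ^ 2 ≤ C * ρ * ((∫ z in bx 1 1, ‖V z - c‖ ^ 2) +
      (∫ z in bx 1 1, ‖Vx z‖ ^ 2) + ∫ z in bx 1 1, ‖Vt z‖ ^ 2) := by
  refine ⟨8, by norm_num, ?_⟩
  intro U V Vx Vt ρ hU hρ hρ1 hQU mV mx mt wx wt c
  set Q : Set Pt := bx 1 1 with hQ
  have oQ : IsOpen Q := isOpen_bx 1 1
  have hbd : Bornology.IsBounded Q := by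
    rw [Metric.isBounded_iff_subset_closedBall (0 : Pt)]
    refine ⟨1, ?_⟩
    intro z hz
    rw [mem_closedBall_zero_iff, Prod.norm_def, Prod.norm_def]
    simp only [Real.norm_eq_abs]
    exact max_le hz.1.le (max_le hz.2.1.le hz.2.2.le)
  have hfin : IsFiniteMeasure ((volume : Measure Pt).restrict Q) :=
    ⟨by rw [Measure.restrict_apply_univ]; exact hbd.measure_lt_top⟩
  have mV' : MemLp (fun z => V z - c) 2 (volume.restrict Q) :=
    (mV.mono_measure (Measure.restrict_mono hQU le_rfl)).sub (memLp_const c)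
  have mx' : MemLp Vx 2 (volume.restrict Q) := mx.mono_measure (Measure.restrict_mono hQU le_rfl)
  have mt' : MemLp Vt 2 (volume.restrict Q) := mt.mono_measure (Measure.restrict_mono hQU le_rfl)
  -- the Euclidean derivative
  set κ : Pt → ℝ := fun z => z.2.1 / 2 with hκ
  have κs : ContDiff ℝ ∞ κ := by
    have : ContDiff ℝ ∞ (fun z : Pt => z.2.1) := contDiff_fst.comp contDiff_snd
    exact this.div_const 2
  set fx : Pt → E := fun z => Vx z + κ z • Vt z with hfx
  have wfx : WD ex U V fx := by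
    refine WD.lin hU κs ?_ ?_ wx wt
    · intro z
      unfold der
      have h1 : HasFDerivAt κ ((1 / 2 : ℝ) • ((ContinuousLinearMap.fst ℝ ℝ ℝ).comp
          (ContinuousLinearMap.snd ℝ ℝ (ℝ × ℝ)))) z := by
        have h2 : κ = fun z => ((1 / 2 : ℝ) • ((ContinuousLinearMap.fst ℝ ℝ ℝ).comp
          (ContinuousLinearMap.snd ℝ ℝ (ℝ × ℝ)))) z := by
          funext z
          simp [hκ]
          ring
        rw [h2]
        exact ContinuousLinearMap.hasFDerivAt _
      rw [h1.fderiv]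
      simp [VF.v, vT]
    · intro z
      simp [VF.v, ex, vX, vT, hκ]
      ring
  have wQ : WD ex Q (fun z => V z - c) (fun z => fx z - 0) :=
    (wfx.mono hQU).sub (WD.const c)
  have mfx : MemLp (fun z => fx z - 0) 2 (volume.restrict Q) := by
    simp only [sub_zero]
    refine mx'.add ?_
    refine MemLp.of_le mt' ?_ ?_
    · exact κs.continuous.aestronglyMeasurable.smul mt'.aestronglyMeasurable
    · filter_upwards [ae_restrict_mem oQ.measurableSet] with z hz
      rw [norm_smul]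
      have h1 : ‖κ z‖ ≤ 1 := by
        rw [hκ, Real.norm_eq_abs, abs_div, abs_two]
        have := hz.2.1
        linarith
      nlinarith [norm_nonneg (Vt z)]
  obtain ⟨f₀, hf₀, hf₀e⟩ := mV'.aestronglyMeasurable
  obtain ⟨g₀, hg₀, hg₀e⟩ := mfx.aestronglyMeasurable
  have w0 : WD ex Q f₀ g₀ := wQ.congr oQ hf₀e hg₀e
  have mf₀ : MemLp f₀ 2 (volume.restrict Q) := mV'.ae_eq hf₀e
  have mg₀ : MemLp g₀ 2 (volume.restrict Q) := mfx.ae_eq hg₀e
  have hSQ : bx ρ 1 ⊆ Q := bx_mono hρ1 le_rfl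
  have cl : Measurable (fun z : Pt => z.1) := measurable_fst
  set S1 : Set Pt := bx ρ 1 ∩ {z | z.1 < 0} with hS1
  set S2 : Set Pt := bx ρ 1 ∩ {z | 0 ≤ z.1} with hS2
  have mS1 : MeasurableSet S1 :=
    (isOpen_bx ρ 1).measurableSet.inter (measurableSet_lt cl measurable_const)
  have mS2 : MeasurableSet S2 :=
    (isOpen_bx ρ 1).measurableSet.inter (measurableSet_le measurable_const cl)
  have hS12 : bx ρ 1 = S1 ∪ S2 := by
    ext z
    simp only [hS1, hS2, mem_union, mem_inter_iff]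
    constructor
    · intro hz
      rcases lt_or_ge z.1 0 with h | h
      · exact Or.inl ⟨hz, h⟩
      · exact Or.inr ⟨hz, h⟩
    · rintro (h | h)
      · exact h.1
      · exact h.1
  have h1 := half oQ hg₀ hf₀ w0 mS1 (a := -ρ) (b := 0) (by linarith)
    (fun z hz => ⟨by have := (abs_lt.mp hz.1.1).1; linarith, le_of_lt hz.2⟩) (e := 1) (by norm_num)
    (by
      intro z hz t ht
      have h0 := abs_lt.mp hz.1.1
      have hz2 : z.1 < 0 := hz.2
      refine ⟨?_, ?_, ?_⟩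
      · simp only [VF.fl, ex]
        rw [abs_lt]
        constructor
        · nlinarith [ht.1, ht.2]
        · nlinarith [ht.1, ht.2]
      · simp only [VF.fl, ex]
        simpa using (hSQ hz.1).2.1
      · simp only [VF.fl, ex]
        simpa using (hSQ hz.1).2.2)
  have h2 := half oQ hg₀ hf₀ w0 mS2 (a := 0) (b := ρ) (by linarith)
    (fun z hz => ⟨hz.2, by have := (abs_lt.mp hz.1.1).2; linarith⟩) (e := -1) (by norm_num)
    (by
      intro z hz t ht
      have h0 := abs_lt.mp hz.1.1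
      have hz2 : 0 ≤ z.1 := hz.2
      refine ⟨?_, ?_, ?_⟩
      · simp only [VF.fl, ex]
        rw [abs_lt]
        constructor
        · nlinarith [ht.1, ht.2]
        · nlinarith [ht.1, ht.2]
      · simp only [VF.fl, ex]
        simpa using (hSQ hz.1).2.1
      · simp only [VF.fl, ex]
        simpa using (hSQ hz.1).2.2)
  have h3 : ∫⁻ z in bx ρ 1, ‖f₀ z‖ₑ ^ 2 ≤ ENNReal.ofReal (4 * ρ) *
      ((∫⁻ z in Q, ‖f₀ z‖ₑ ^ 2) + ∫⁻ z in Q, ‖g₀ z‖ₑ ^ 2) := by
    have e1 : ENNReal.ofReal (4 * ρ) = ENNReal.ofReal (2 * (0 - -ρ)) +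
        ENNReal.ofReal (2 * (ρ - 0)) := by
      rw [← ENNReal.ofReal_add (by linarith) (by linarith)]
      congr 1
      ring
    rw [e1, add_mul]
    calc ∫⁻ z in bx ρ 1, ‖f₀ z‖ₑ ^ 2 ≤ (∫⁻ z in S1, ‖f₀ z‖ₑ ^ 2) + ∫⁻ z in S2, ‖f₀ z‖ₑ ^ 2 := by
          rw [hS12]
          exact lintegral_union_le _ _ _
      _ ≤ _ := add_le_add h1 h2
  have mf₁ : MemLp f₀ 2 (volume.restrict (bx ρ 1)) :=
    mf₀.mono_measure (Measure.restrict_mono hSQ le_rfl)
  rw [lint_sq mf₀, lint_sq mg₀, lint_sq mf₁, ← ENNReal.ofReal_add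
    (integral_nonneg (fun z => by positivity)) (integral_nonneg (fun z => by positivity)),
    ← ENNReal.ofReal_mul (by linarith), ENNReal.ofReal_le_ofReal_iff (by
      have a1 : 0 ≤ ∫ z in Q, ‖f₀ z‖ ^ 2 := integral_nonneg (fun z => by positivity)
      have a2 : 0 ≤ ∫ z in Q, ‖g₀ z‖ ^ 2 := integral_nonneg (fun z => by positivity)
      positivity)] at h3
  have e2 : ∫ z in bx ρ 1, ‖V z - c‖ ^ 2 = ∫ z in bx ρ 1, ‖f₀ z‖ ^ 2 := by
    apply integral_congr_ae
    have : ∀ᵐ z ∂(volume.restrict (bx ρ 1)), V z - c = f₀ z :=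
      ae_mono (Measure.restrict_mono hSQ le_rfl) hf₀e
    filter_upwards [this] with z hz
    rw [hz]
  have e3 : ∫ z in Q, ‖V z - c‖ ^ 2 = ∫ z in Q, ‖f₀ z‖ ^ 2 := by
    apply integral_congr_ae
    filter_upwards [hf₀e] with z hz
    rw [hz]
  have e4 : ∫ z in Q, ‖g₀ z‖ ^ 2 ≤ 2 * (∫ z in Q, ‖Vx z‖ ^ 2) + 2 * ∫ z in Q, ‖Vt z‖ ^ 2 := by
    rw [← integral_const_mul, ← integral_const_mul,
      ← integral_add ((mx'.integrable_norm_pow (by norm_num)).const_mul _)
        ((mt'.integrable_norm_pow (by norm_num)).const_mul _)]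
    apply integral_mono_ae (mg₀.integrable_norm_pow (by norm_num))
      (((mx'.integrable_norm_pow (by norm_num)).const_mul _).add
        ((mt'.integrable_norm_pow (by norm_num)).const_mul _))
    filter_upwards [hg₀e, ae_restrict_mem oQ.measurableSet] with z hz hzQ
    rw [← hz]
    simp only [sub_zero, hfx]
    have h1 : ‖κ z‖ ≤ 1 := by
      rw [hκ, Real.norm_eq_abs, abs_div, abs_two]
      have := hzQ.2.1
      linarith
    have h5 : ‖Vx z + κ z • Vt z‖ ≤ ‖Vx z‖ + ‖Vt z‖ := by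
      refine (norm_add_le _ _).trans ?_
      rw [norm_smul]
      nlinarith [norm_nonneg (Vt z)]
    show _ ≤ 2 * ‖Vx z‖ ^ 2 + 2 * ‖Vt z‖ ^ 2
    calc ‖Vx z + κ z • Vt z‖ ^ 2 ≤ (‖Vx z‖ + ‖Vt z‖) ^ 2 :=
          pow_le_pow_left₀ (norm_nonneg _) h5 2
      _ ≤ _ := by nlinarith [sq_nonneg (‖Vx z‖ - ‖Vt z‖)]
  rw [e2, e3]
  refine h3.trans ?_
  have a1 : 0 ≤ ∫ z in Q, ‖f₀ z‖ ^ 2 := integral_nonneg (fun z => by positivity)
  nlinarith

end PLH
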