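import Pool.Agent.Lib.PLH.P1
import Pool.Agent.Lib.PLH.P2
import Pool.Agent.Lib.PLH.P3

/-!
MODULE P4 (300 lines). One step of the hole filling on tall cylinders.

`P(ρ,h) = ∫_{bx ρ h} G`, `G = ‖Vx‖²+‖Vy‖²`, `Φ = ∫_{bx 4 16}‖V-c₀‖²`, `1/2 ≤ h-κ`, `h ≤ 1`. Let `c` be the
average of `V` over `lat ρ h`, `η` from `cut_tall`. `cH`:
`P(ρ/2,h-κ) ≤ K∫ wt η ‖V-c‖² + K∫ η²‖V-c‖‖Vt‖ ≤ KMρ⁻² exc V (lat ρ h) + KM κ⁻² ∫_{bx ρ 1}‖V-c‖²
 + K (∫_{bx ρ 1}‖V-c‖²)^{1/2}(∫_{bx 1 1}‖Vt‖²)^{1/2}`.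
`poin_lat`: `ρ⁻² exc V (lat ρ h) ≤ C(∫_{lat ρ h} G + ρ⁻² ∫_{lat ρ 1}‖Vt‖²)` and
`∫_{lat ρ h} G ≤ P(ρ,h) - P(ρ/2,h-κ)` (`lat ρ h` and `bx (ρ/2) (h-κ)` are disjoint subsets of
`bx ρ h`). Thin cylinder: `∫_{bx ρ 1}‖V-c‖² ≤ 2∫_{bx ρ 1}‖V-c₀‖² + 2|bx ρ 1|‖c-c₀‖²`,
`|lat ρ h| = 6ρ²h ≥ 3ρ²`, `|bx ρ 1| = 8ρ²`, so by `avg_sub_le`
`|bx ρ 1|‖c-c₀‖² ≤ (8/3)∫_{lat ρ h}‖V-c₀‖² ≤ (8/3)∫_{bx ρ 1}‖V-c₀‖²`, and `thin`, `core_cac`:
`∫_{bx ρ 1}‖V-c₀‖² ≤ CρΦ`, `∫_{bx 1 1}‖Vt‖² ≤ CΦ`. Together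
`(1+C₀)P(ρ/2,h-κ) ≤ C₀ P(ρ,h) + Cρ⁻²∫_{lat ρ 1}‖Vt‖² + C(κ⁻²ρ + ρ^{1/2})Φ`; `θ = C₀/(1+C₀)`.
-/

open MeasureTheory Set Filter Topology
open scoped ContDiff ENNReal

namespace PLH

section aux

private theorem bx_open (ρ h : ℝ) : IsOpen (bx ρ h) := by
  have h1 : IsOpen {z : Pt | |z.1| < ρ} := isOpen_lt (by fun_prop) (by fun_prop)
  have h2 : IsOpen {z : Pt | |z.2.1| < ρ} := isOpen_lt (by fun_prop) (by fun_prop)
  have h3 : IsOpen {z : Pt | |z.2.2| < h} := isOpen_lt (by fun_prop) (by fun_prop)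
  exact h1.inter (h2.inter h3)

private theorem bx_mono {ρ ρ' h h' : ℝ} (h1 : ρ ≤ ρ') (h2 : h ≤ h') : bx ρ h ⊆ bx ρ' h' :=
  fun _ hz => ⟨hz.1.trans_le h1, hz.2.1.trans_le h1, hz.2.2.trans_le h2⟩

private theorem bx_vol {ρ h : ℝ} (hρ : 0 ≤ ρ) (_hh : 0 ≤ h) :
    volume (bx ρ h) = ENNReal.ofReal (8 * ρ ^ 2 * h) := by
  have e : bx ρ h = Ioo (-ρ) ρ ×ˢ (Ioo (-ρ) ρ ×ˢ Ioo (-h) h) := by
    ext z
    simp only [bx, Set.mem_ofPred_eq, Set.mem_prod, Set.mem_Ioo, abs_lt]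
  rw [e, Measure.volume_eq_prod, Measure.prod_prod, Measure.volume_eq_prod, Measure.prod_prod,
    Real.volume_Ioo, Real.volume_Ioo, ← ENNReal.ofReal_mul (by linarith),
    ← ENNReal.ofReal_mul (by linarith)]
  congr 1
  ring

private theorem lat_eq (ρ h : ℝ) : lat ρ h = bx ρ h \ bx (ρ / 2) h := by
  ext z
  simp only [lat, bx, Set.mem_sdiff, Set.mem_ofPred_eq]
  tauto

private theorem lat_meas (ρ h : ℝ) : MeasurableSet (lat ρ h) := by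
  rw [lat_eq]
  exact (bx_open _ _).measurableSet.diff (bx_open _ _).measurableSet

private theorem lat_vol {ρ h : ℝ} (hρ : 0 ≤ ρ) (hh : 0 ≤ h) :
    volume (lat ρ h) = ENNReal.ofReal (6 * ρ ^ 2 * h) := by
  rw [lat_eq, measure_sdiff (bx_mono (by linarith) le_rfl)
    (bx_open _ _).measurableSet.nullMeasurableSet (by rw [bx_vol (by linarith) hh]; simp),
    bx_vol hρ hh, bx_vol (by linarith) hh, ← ENNReal.ofReal_sub _ (by positivity)]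
  congr 1
  ring

private theorem lat_sub_bx (ρ h : ℝ) : lat ρ h ⊆ bx ρ h := fun _ hz => hz.1

private theorem int_sq {F : Type*} [NormedAddCommGroup F] {U S : Set Pt} (hSU : S ⊆ U)
    {f : Pt → F} (hf : MemLp f 2 (volume.restrict U)) :
    IntegrableOn (fun z => ‖f z‖ ^ 2) S := by
  have h1 : MemLp f 2 (volume.restrict S) := hf.mono_measure (Measure.restrict_mono hSU le_rfl)
  exact h1.integrable_norm_pow (by norm_num)

private theorem int_sub {F : Type*} [NormedAddCommGroup F] {U S : Set Pt} (hSU : S ⊆ U)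
    (h0 : volume S ≠ ⊤) {f : Pt → F} (hf : MemLp f 2 (volume.restrict U)) (c : F) :
    IntegrableOn (fun z => ‖f z - c‖ ^ 2) S := by
  have h1 : MemLp f 2 (volume.restrict S) := hf.mono_measure (Measure.restrict_mono hSU le_rfl)
  have : IsFiniteMeasure (volume.restrict S) := isFiniteMeasure_restrict.2 h0
  exact (h1.sub (memLp_const c)).integrable_norm_pow (by norm_num)

private theorem sq_add_le' {x a b : ℝ} (h : x ≤ a + b) (hx : 0 ≤ x) :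
    x ^ 2 ≤ 2 * a ^ 2 + 2 * b ^ 2 := by
  nlinarith [sq_nonneg (a - b)]

/-- A product with a continuous function that vanishes outside a set. -/
private theorem int_cut {S : Set Pt} (hS : MeasurableSet S) {η f : Pt → ℝ} (hη : Continuous η)
    (hb : ∀ z, |η z| ≤ 1) (h0 : ∀ z, z ∉ S → η z = 0) (hf : IntegrableOn f S) :
    Integrable (fun z => η z * f z) := by
  have h1 : IntegrableOn (fun z => η z * f z) S :=
    Integrable.bdd_mul (c := 1) hf hη.aestronglyMeasurable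
      (Eventually.of_forall fun z => by simpa using hb z)
  rw [← integrable_indicator_iff hS] at h1
  refine h1.congr (Eventually.of_forall fun z => ?_)
  by_cases hz : z ∈ S
  · simp [hz]
  · simp [hz, h0 z hz]

end aux

variable (E : Type*) [NormedAddCommGroup E] [InnerProductSpace ℝ E] [CompleteSpace E]

theorem hole_step (K : ℝ) (hK : 0 ≤ K) : ∃ θ C : ℝ, 0 < θ ∧ θ < 1 ∧ 0 ≤ C ∧
    ∀ (Kf : ℝ → ℝ) (U : Set Pt) (V Vx Vy Vt : Pt → E), Core K Kf U V Vx Vy Vt → ∀ (c : E)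
    (ρ h κ : ℝ), 0 < ρ → ρ ≤ 1 → 0 < κ → 1 / 2 ≤ h - κ → h ≤ 1 →
    ∫ z in bx (ρ / 2) (h - κ), (‖Vx z‖ ^ 2 + ‖Vy z‖ ^ 2) ≤
      θ * (∫ z in bx ρ h, (‖Vx z‖ ^ 2 + ‖Vy z‖ ^ 2)) +
      C * (ρ ^ 2)⁻¹ * (∫ z in lat ρ 1, ‖Vt z‖ ^ 2) +
      C * ((κ ^ 2)⁻¹ * ρ + Real.sqrt ρ) * ∫ z in bx 4 16, ‖V z - c‖ ^ 2 := by
  obtain ⟨M, hM, hcut⟩ := cut_tall
  obtain ⟨K₁, hK₁, hcac⟩ := core_cac (E := E) K hK
  obtain ⟨Ct, hCt, hthin⟩ := thin (E := E)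
  obtain ⟨Cp, hCp, hlat⟩ := poin_lat (E := E)
  have hC0 : 0 < K * M * Cp + 1 := by positivity
  have hD : 0 ≤ K * M * (8 * Ct * (1 + 2 * K₁)) + K * (4 * Ct * (1 + 2 * K₁)) + K * K₁ := by
    positivity
  obtain ⟨C0, hC0e⟩ : ∃ C0, C0 = K * M * Cp + 1 := ⟨_, rfl⟩
  obtain ⟨D, hDe⟩ : ∃ D, D = K * M * (8 * Ct * (1 + 2 * K₁)) + K * (4 * Ct * (1 + 2 * K₁)) +
    K * K₁ := ⟨_, rfl⟩
  rw [← hC0e] at hC0
  rw [← hDe] at hD
  refine ⟨C0 / (1 + C0), C0 + D, by positivity, (div_lt_one (by positivity)).2 (by linarith),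
    by positivity, ?_⟩
  intro Kf U V Vx Vy Vt hc c ρ h κ hρ hρ1 hκ hhκ hh1
  have hh0 : 0 < h := by linarith
  have hκh : κ < h := by linarith
  have hU : ∀ {ρ' h' : ℝ}, ρ' ≤ 4 → h' ≤ 16 → bx ρ' h' ⊆ U := by
    intro ρ' h' h1 h2 z hz
    exact hc.sub ⟨(hz.1.le.trans h1), (hz.2.1.le.trans h1), (hz.2.2.le.trans h2)⟩
  have hfin : ∀ {ρ' h' : ℝ}, 0 ≤ ρ' → 0 ≤ h' → volume (bx ρ' h') ≠ ⊤ := by
    intro ρ' h' h1 h2
    rw [bx_vol h1 h2]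
    simp
  -- the average over the lateral part
  obtain ⟨c', hc'⟩ : ∃ c', c' = ⨍ w in lat ρ h, V w := ⟨_, rfl⟩
  -- the cut-off
  obtain ⟨η, hηs, hηc, hηt, hη01, hη1, hη0, hηi, hηl⟩ := hcut ρ h κ hρ hρ1 hκ hκh hh1
  have hT : Tst U η := by
    refine ⟨hηs, hηc, hηt.trans ?_⟩
    intro z hz
    exact hc.sub ⟨hz.1.trans (by linarith), hz.2.1.trans (by linarith), hz.2.2.trans (by linarith)⟩
  have hη2c : Continuous fun z => η z ^ 2 := hηs.continuous.pow 2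
  have hη2b : ∀ z, |η z ^ 2| ≤ 1 := by
    intro z
    rw [abs_of_nonneg (by positivity)]
    exact pow_le_one₀ (hη01 z).1 (hη01 z).2
  have hη20 : ∀ z, z ∉ bx ρ h → η z ^ 2 = 0 := fun z hz => by rw [(hη0 z hz).2]; ring
  -- subsets
  have s1 : bx ρ h ⊆ bx ρ 1 := bx_mono le_rfl hh1
  have s2 : bx ρ 1 ⊆ bx 1 1 := bx_mono hρ1 le_rfl
  have s3 : bx (ρ / 2) (h - κ) ⊆ bx ρ h := bx_mono (by linarith) (by linarith)
  have s4 : lat ρ h ⊆ lat ρ 1 := by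
    rw [lat_eq, lat_eq]
    intro z hz
    exact ⟨s1 hz.1, fun h2 => hz.2 ⟨h2.1, h2.2.1, hz.1.2.2⟩⟩
  have uG : bx ρ h ⊆ U := hU (by linarith) (by linarith)
  have u1 : bx (1 : ℝ) 1 ⊆ U := hU (by norm_num) (by norm_num)
  have uρ : bx ρ 1 ⊆ U := s2.trans u1
  have u4 : bx (4 : ℝ) 16 ⊆ U := hU le_rfl le_rfl
  have u3 : bx (3 : ℝ) 9 ⊆ U := hU (by norm_num) (by norm_num)
  have u2 : bx (2 : ℝ) 4 ⊆ U := hU (by norm_num) (by norm_num)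
  have iG : ∀ {S : Set Pt}, S ⊆ U → IntegrableOn (fun z => ‖Vx z‖ ^ 2 + ‖Vy z‖ ^ 2) S :=
    fun hS => (int_sq hS hc.mx).add (int_sq hS hc.my)
  have iT : ∀ {S : Set Pt}, S ⊆ U → IntegrableOn (fun z => ‖Vt z‖ ^ 2) S :=
    fun hS => int_sq hS hc.mt
  -- (c) the energy on the lateral part
  have fc : (∫ z in lat ρ h, (‖Vx z‖ ^ 2 + ‖Vy z‖ ^ 2)) +
      (∫ z in bx (ρ / 2) (h - κ), (‖Vx z‖ ^ 2 + ‖Vy z‖ ^ 2)) ≤
      ∫ z in bx ρ h, (‖Vx z‖ ^ 2 + ‖Vy z‖ ^ 2) := by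
    have hd : Disjoint (lat ρ h) (bx (ρ / 2) (h - κ)) := by
      rw [Set.disjoint_left]
      intro z hz hz2
      exact hz.2 ⟨hz2.1, hz2.2.1⟩
    rw [← setIntegral_union hd (bx_open _ _).measurableSet (iG ((lat_sub_bx _ _).trans uG))
      (iG (s3.trans uG))]
    refine setIntegral_mono_set (iG uG) (Eventually.of_forall fun z => by positivity) ?_
    exact (Set.union_subset (lat_sub_bx _ _) s3).eventuallyLE
  -- (b) Poincare on the lateral part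
  have fb := hlat U V Vx Vy Vt ρ h hc.opn hρ hρ1 hh0 hh1 uG hc.m0 hc.mx hc.my hc.mt hc.wx hc.wy
    hc.wt'
  have fL : 0 ≤ ∫ z in lat ρ h, (‖Vx z‖ ^ 2 + ‖Vy z‖ ^ 2) :=
    integral_nonneg fun z => by positivity
  have fB0 : 0 ≤ ∫ z in lat ρ h, ‖Vt z‖ ^ 2 := integral_nonneg fun z => by positivity
  have fd : (∫ z in lat ρ h, ‖Vt z‖ ^ 2) ≤ ∫ z in lat ρ 1, ‖Vt z‖ ^ 2 :=
    setIntegral_mono_set (iT ((lat_sub_bx _ _).trans uρ))
      (Eventually.of_forall fun z => by positivity) s4.eventuallyLE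
  -- the unit scale quantities
  obtain ⟨ca1, ca2⟩ := hcac Kf U V Vx Vy Vt hc c
  have fΦ : 0 ≤ ∫ z in bx 4 16, ‖V z - c‖ ^ 2 := integral_nonneg fun z => by positivity
  have ff : (∫ z in bx 1 1, ‖Vt z‖ ^ 2) ≤ K₁ * ∫ z in bx 4 16, ‖V z - c‖ ^ 2 := by
    refine le_trans ?_ ca2
    exact setIntegral_mono_set (iT u2) (Eventually.of_forall fun z => by positivity)
      (bx_mono (by norm_num) (by norm_num)).eventuallyLE
  have ff' : (∫ z in bx 1 1, ‖Vx z‖ ^ 2) ≤ K₁ * ∫ z in bx 4 16, ‖V z - c‖ ^ 2 := by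
    refine le_trans ?_ ca1
    refine le_trans (setIntegral_mono_set (int_sq u3 hc.mx)
      (Eventually.of_forall fun z => by positivity)
      (bx_mono (by norm_num) (by norm_num)).eventuallyLE) ?_
    exact setIntegral_mono (int_sq u3 hc.mx) (iG u3) fun z => by
      have := sq_nonneg ‖Vy z‖
      simp only
      linarith
  have ff'' : (∫ z in bx 1 1, ‖V z - c‖ ^ 2) ≤ ∫ z in bx 4 16, ‖V z - c‖ ^ 2 :=
    setIntegral_mono_set (int_sub u4 (hfin (by norm_num) (by norm_num)) hc.m0 c)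
      (Eventually.of_forall fun z => by positivity)
      (bx_mono (by norm_num) (by norm_num)).eventuallyLE
  -- the thin cylinder
  have ft := hthin U V Vx Vt ρ hc.opn hρ hρ1 u1 hc.m0 hc.mx hc.mt hc.wx hc.wt' c
  have ft2 : (∫ z in bx ρ 1, ‖V z - c‖ ^ 2) ≤
      Ct * ρ * ((1 + 2 * K₁) * ∫ z in bx 4 16, ‖V z - c‖ ^ 2) := by
    refine ft.trans (mul_le_mul_of_nonneg_left ?_ (by positivity))
    linarith
  -- comparison of the averages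
  have volρ : (volume (lat ρ h)).toReal = 6 * ρ ^ 2 * h := by
    rw [lat_vol hρ.le hh0.le, ENNReal.toReal_ofReal (by positivity)]
  have favg : 3 * ρ ^ 2 * ‖c' - c‖ ^ 2 ≤ ∫ z in bx ρ 1, ‖V z - c‖ ^ 2 := by
    have hl0 : volume (lat ρ h) ≠ ⊤ := by rw [lat_vol hρ.le hh0.le]; simp
    have hl1 : volume (lat ρ h) ≠ 0 := by
      rw [lat_vol hρ.le hh0.le]
      simp only [ne_eq, ENNReal.ofReal_eq_zero, not_le]
      positivity
    have h1 := avg_sub_le (lat_meas ρ h) hl0 hl1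
      (hc.m0.mono_measure (Measure.restrict_mono ((lat_sub_bx _ _).trans uG) le_rfl)) c
    rw [← hc', volρ] at h1
    have h2 : (∫ z in lat ρ h, ‖V z - c‖ ^ 2) ≤ ∫ z in bx ρ 1, ‖V z - c‖ ^ 2 :=
      setIntegral_mono_set (int_sub uρ (hfin hρ.le zero_le_one) hc.m0 c)
        (Eventually.of_forall fun z => by positivity)
        ((lat_sub_bx _ _).trans s1).eventuallyLE
    have h3 : 3 * ρ ^ 2 * ‖c' - c‖ ^ 2 ≤ 6 * ρ ^ 2 * h * ‖c' - c‖ ^ 2 := by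
      have : 3 * ρ ^ 2 ≤ 6 * ρ ^ 2 * h := by
        calc 3 * ρ ^ 2 = 6 * ρ ^ 2 * (1 / 2) := by ring
          _ ≤ 6 * ρ ^ 2 * h := mul_le_mul_of_nonneg_left (by linarith) (by positivity)
      exact mul_le_mul_of_nonneg_right this (by positivity)
    linarith
  have fX : (∫ z in bx ρ 1, ‖V z - c'‖ ^ 2) ≤ 8 * ∫ z in bx ρ 1, ‖V z - c‖ ^ 2 := by
    have h1 : (∫ z in bx ρ 1, ‖V z - c'‖ ^ 2) ≤
        ∫ z in bx ρ 1, (2 * ‖V z - c‖ ^ 2 + 2 * ‖c' - c‖ ^ 2) := by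
      have : IsFiniteMeasure (volume.restrict (bx ρ 1)) :=
        isFiniteMeasure_restrict.2 (hfin hρ.le zero_le_one)
      refine setIntegral_mono (int_sub uρ (hfin hρ.le zero_le_one) hc.m0 c')
        (((int_sub uρ (hfin hρ.le zero_le_one) hc.m0 c).const_mul 2).add
          (integrable_const _)) fun z => ?_
      have h2 : ‖V z - c'‖ ≤ ‖V z - c‖ + ‖c' - c‖ := by
        calc ‖V z - c'‖ = ‖(V z - c) - (c' - c)‖ := by congr 1; abel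
          _ ≤ _ := norm_sub_le _ _
      exact sq_add_le' h2 (norm_nonneg _)
    have h2 : ∫ z in bx ρ 1, (2 * ‖V z - c‖ ^ 2 + 2 * ‖c' - c‖ ^ 2) =
        2 * (∫ z in bx ρ 1, ‖V z - c‖ ^ 2) + 8 * ρ ^ 2 * (2 * ‖c' - c‖ ^ 2) := by
      have : IsFiniteMeasure (volume.restrict (bx ρ 1)) :=
        isFiniteMeasure_restrict.2 (hfin hρ.le zero_le_one)
      rw [integral_add ((int_sub uρ (hfin hρ.le zero_le_one) hc.m0 c).const_mul 2)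
        (integrable_const _), integral_const_mul, setIntegral_const, smul_eq_mul,
        measureReal_def, bx_vol hρ.le zero_le_one, ENNReal.toReal_ofReal (by positivity)]
      ring
    have h3 : 0 ≤ ∫ z in bx ρ 1, ‖V z - c‖ ^ 2 := integral_nonneg fun z => by positivity
    linarith
  -- (a) the Caccioppoli inequality
  have hsq : 0 < Real.sqrt ρ := Real.sqrt_pos.2 hρ
  have hss : Real.sqrt ρ * Real.sqrt ρ = ρ := Real.mul_self_sqrt hρ.le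
  have hcH := hc.cH η hT c'
  have fa0 : (∫ z in bx (ρ / 2) (h - κ), (‖Vx z‖ ^ 2 + ‖Vy z‖ ^ 2)) ≤
      ∫ z, η z ^ 2 * (‖Vx z‖ ^ 2 + ‖Vy z‖ ^ 2) := by
    have h1 : Integrable fun z => η z ^ 2 * (‖Vx z‖ ^ 2 + ‖Vy z‖ ^ 2) :=
      int_cut (bx_open ρ h).measurableSet hη2c hη2b hη20 (iG uG)
    calc (∫ z in bx (ρ / 2) (h - κ), (‖Vx z‖ ^ 2 + ‖Vy z‖ ^ 2))
        = ∫ z in bx (ρ / 2) (h - κ), η z ^ 2 * (‖Vx z‖ ^ 2 + ‖Vy z‖ ^ 2) := by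
          refine setIntegral_congr_fun (bx_open _ _).measurableSet fun z hz => ?_
          simp only [hη1 z hz]
          ring
      _ ≤ _ := setIntegral_le_integral h1 (Eventually.of_forall fun z => by positivity)
  have fa1 : (∫ z, wt η z * ‖V z - c'‖ ^ 2) ≤
      M * (κ ^ 2)⁻¹ * (∫ z in bx ρ 1, ‖V z - c'‖ ^ 2) + M * (ρ ^ 2)⁻¹ * exc V (lat ρ h) := by
    have i1 : Integrable ((bx ρ 1).indicator fun z => M * (κ ^ 2)⁻¹ * ‖V z - c'‖ ^ 2) :=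
      (integrable_indicator_iff (bx_open _ _).measurableSet).2
        ((int_sub uρ (hfin hρ.le zero_le_one) hc.m0 c').const_mul _)
    have i2 : Integrable ((lat ρ h).indicator fun z => M * (ρ ^ 2)⁻¹ * ‖V z - c'‖ ^ 2) :=
      (integrable_indicator_iff (lat_meas _ _)).2
        (((int_sub uρ (hfin hρ.le zero_le_one) hc.m0 c').mono_set
          ((lat_sub_bx _ _).trans s1)).const_mul _)
    have h1 : (∫ z, wt η z * ‖V z - c'‖ ^ 2) ≤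
        ∫ z, ((bx ρ 1).indicator (fun z => M * (κ ^ 2)⁻¹ * ‖V z - c'‖ ^ 2) z +
          (lat ρ h).indicator (fun z => M * (ρ ^ 2)⁻¹ * ‖V z - c'‖ ^ 2) z) := by
      refine integral_mono_of_nonneg (Eventually.of_forall fun z =>
        mul_nonneg (wt_nonneg η z) (by positivity)) (i1.add i2) (Eventually.of_forall fun z => ?_)
      simp only
      by_cases hz : z ∈ bx ρ h
      · by_cases hl : z ∈ lat ρ h
        · rw [Set.indicator_of_mem (s1 hz), Set.indicator_of_mem hl]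
          have := mul_le_mul_of_nonneg_right (hηl z hl) (sq_nonneg ‖V z - c'‖)
          linarith
        · rw [Set.indicator_of_mem (s1 hz), Set.indicator_of_notMem hl, add_zero]
          exact mul_le_mul_of_nonneg_right (hηi z hz hl) (sq_nonneg _)
      · rw [(hη0 z hz).1, zero_mul]
        exact add_nonneg (Set.indicator_nonneg (fun z _ => by positivity) z)
          (Set.indicator_nonneg (fun z _ => by positivity) z)
    rw [integral_add i1 i2, integral_indicator (bx_open _ _).measurableSet,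
      integral_indicator (lat_meas _ _), integral_const_mul, integral_const_mul] at h1
    rw [exc, ← hc']
    exact h1
  have fa2 : (∫ z, η z ^ 2 * (‖V z - c'‖ * ‖Vt z‖)) ≤
      (2 * Real.sqrt ρ)⁻¹ * (∫ z in bx ρ 1, ‖V z - c'‖ ^ 2) +
        Real.sqrt ρ / 2 * ∫ z in bx 1 1, ‖Vt z‖ ^ 2 := by
    have i1 : Integrable ((bx ρ 1).indicator fun z => (2 * Real.sqrt ρ)⁻¹ * ‖V z - c'‖ ^ 2) :=
      (integrable_indicator_iff (bx_open _ _).measurableSet).2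
        ((int_sub uρ (hfin hρ.le zero_le_one) hc.m0 c').const_mul _)
    have i2 : Integrable ((bx 1 1).indicator fun z => Real.sqrt ρ / 2 * ‖Vt z‖ ^ 2) :=
      (integrable_indicator_iff (bx_open _ _).measurableSet).2 ((iT u1).const_mul _)
    have h1 : (∫ z, η z ^ 2 * (‖V z - c'‖ * ‖Vt z‖)) ≤
        ∫ z, ((bx ρ 1).indicator (fun z => (2 * Real.sqrt ρ)⁻¹ * ‖V z - c'‖ ^ 2) z +
          (bx 1 1).indicator (fun z => Real.sqrt ρ / 2 * ‖Vt z‖ ^ 2) z) := by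
      refine integral_mono_of_nonneg (Eventually.of_forall fun z => by positivity)
        (i1.add i2) (Eventually.of_forall fun z => ?_)
      simp only
      by_cases hz : z ∈ bx ρ h
      · rw [Set.indicator_of_mem (s1 hz), Set.indicator_of_mem (s2 (s1 hz))]
        have h2 : η z ^ 2 ≤ 1 := (le_abs_self _).trans (hη2b z)
        have h3 : η z ^ 2 * (‖V z - c'‖ * ‖Vt z‖) ≤ ‖V z - c'‖ * ‖Vt z‖ :=
          mul_le_of_le_one_left (by positivity) h2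
        refine h3.trans ?_
        have h4 : (2 * Real.sqrt ρ)⁻¹ * ‖V z - c'‖ ^ 2 + Real.sqrt ρ / 2 * ‖Vt z‖ ^ 2 -
            ‖V z - c'‖ * ‖Vt z‖ =
            (2 * Real.sqrt ρ)⁻¹ * (‖V z - c'‖ - Real.sqrt ρ * ‖Vt z‖) ^ 2 := by
          field_simp
          ring
        have h5 : 0 ≤ (2 * Real.sqrt ρ)⁻¹ * (‖V z - c'‖ - Real.sqrt ρ * ‖Vt z‖) ^ 2 := by
          positivity
        linarith
      · rw [hη20 z hz, zero_mul]
        exact add_nonneg (Set.indicator_nonneg (fun z _ => by positivity) z)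
          (Set.indicator_nonneg (fun z _ => by positivity) z)
    rw [integral_add i1 i2, integral_indicator (bx_open _ _).measurableSet,
      integral_indicator (bx_open _ _).measurableSet, integral_const_mul,
      integral_const_mul] at h1
    exact h1
  -- abbreviations
  generalize (∫ z in bx (ρ / 2) (h - κ), (‖Vx z‖ ^ 2 + ‖Vy z‖ ^ 2)) = Q at *
  generalize (∫ z in bx ρ h, (‖Vx z‖ ^ 2 + ‖Vy z‖ ^ 2)) = P at *
  generalize (∫ z in lat ρ h, (‖Vx z‖ ^ 2 + ‖Vy z‖ ^ 2)) = L at *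
  generalize (∫ z in lat ρ h, ‖Vt z‖ ^ 2) = B' at *
  generalize (∫ z in lat ρ 1, ‖Vt z‖ ^ 2) = B at *
  generalize (∫ z in bx 4 16, ‖V z - c‖ ^ 2) = Φ at *
  generalize (∫ z in bx ρ 1, ‖V z - c'‖ ^ 2) = X at *
  generalize (∫ z in bx ρ 1, ‖V z - c‖ ^ 2) = X₀ at *
  generalize (∫ z in bx 1 1, ‖Vt z‖ ^ 2) = Y at *
  generalize exc V (lat ρ h) = e at *
  generalize (∫ z, wt η z * ‖V z - c'‖ ^ 2) = I₁ at *
  generalize (∫ z, η z ^ 2 * (‖V z - c'‖ * ‖Vt z‖)) = I₂ at *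
  generalize (∫ z, η z ^ 2 * (‖Vx z‖ ^ 2 + ‖Vy z‖ ^ 2)) = I₀ at *
  have hρ2 : 0 < (ρ ^ 2)⁻¹ := by positivity
  have hκ2 : 0 < (κ ^ 2)⁻¹ := by positivity
  have hB : 0 ≤ B := fB0.trans fd
  have hX : X ≤ 8 * Ct * (1 + 2 * K₁) * (ρ * Φ) := by linarith
  have e1 : K * (M * (ρ ^ 2)⁻¹ * e) ≤ K * M * Cp * (L + (ρ ^ 2)⁻¹ * B) := by
    have : (ρ ^ 2)⁻¹ * e ≤ Cp * (L + (ρ ^ 2)⁻¹ * B) := by
      have h1 : (ρ ^ 2)⁻¹ * e ≤ (ρ ^ 2)⁻¹ * (Cp * (ρ ^ 2 * L + B)) := by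
        refine mul_le_mul_of_nonneg_left (fb.trans ?_) hρ2.le
        exact mul_le_mul_of_nonneg_left (by linarith) hCp
      have h2 : (ρ ^ 2)⁻¹ * (Cp * (ρ ^ 2 * L + B)) = Cp * (L + (ρ ^ 2)⁻¹ * B) := by
        field_simp
      linarith
    have h3 := mul_le_mul_of_nonneg_left this (mul_nonneg hK hM)
    calc K * (M * (ρ ^ 2)⁻¹ * e) = K * M * ((ρ ^ 2)⁻¹ * e) := by ring
      _ ≤ K * M * (Cp * (L + (ρ ^ 2)⁻¹ * B)) := h3
      _ = _ := by ring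
  have e2 : K * (M * (κ ^ 2)⁻¹ * X) ≤
      K * M * (8 * Ct * (1 + 2 * K₁)) * ((κ ^ 2)⁻¹ * ρ * Φ) := by
    have h3 := mul_le_mul_of_nonneg_left hX (mul_nonneg (mul_nonneg hK hM) hκ2.le)
    calc K * (M * (κ ^ 2)⁻¹ * X) = K * M * (κ ^ 2)⁻¹ * X := by ring
      _ ≤ _ := h3
      _ = _ := by ring
  have e3 : K * ((2 * Real.sqrt ρ)⁻¹ * X) ≤ K * (4 * Ct * (1 + 2 * K₁)) * (Real.sqrt ρ * Φ) := by
    have h3 := mul_le_mul_of_nonneg_left hX (mul_nonneg hK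
      (inv_nonneg.2 (by positivity : (0 : ℝ) ≤ 2 * Real.sqrt ρ)))
    have h4 : K * (2 * Real.sqrt ρ)⁻¹ * (8 * Ct * (1 + 2 * K₁) * (ρ * Φ)) =
        K * (4 * Ct * (1 + 2 * K₁)) * (Real.sqrt ρ * Φ) := by
      have : (2 * Real.sqrt ρ)⁻¹ * ρ = Real.sqrt ρ / 2 := by
        nth_rewrite 2 [← hss]
        field_simp
      calc K * (2 * Real.sqrt ρ)⁻¹ * (8 * Ct * (1 + 2 * K₁) * (ρ * Φ)) =
          K * (8 * Ct * (1 + 2 * K₁)) * (((2 * Real.sqrt ρ)⁻¹ * ρ) * Φ) := by ring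
        _ = _ := by rw [this]; ring
    calc K * ((2 * Real.sqrt ρ)⁻¹ * X) = K * (2 * Real.sqrt ρ)⁻¹ * X := by ring
      _ ≤ _ := h3
      _ = _ := h4
  have e4 : K * (Real.sqrt ρ / 2 * Y) ≤ K * K₁ * (Real.sqrt ρ * Φ) := by
    have h3 := mul_le_mul_of_nonneg_left ff (mul_nonneg hK hsq.le)
    have h5 : 0 ≤ K * K₁ * (Real.sqrt ρ * Φ) := by positivity
    have h4 : K * (Real.sqrt ρ / 2 * Y) = (K * Real.sqrt ρ * Y) / 2 := by ring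
    have h6 : K * Real.sqrt ρ * (K₁ * Φ) = K * K₁ * (Real.sqrt ρ * Φ) := by ring
    linarith
  have e5 : Q ≤ K * (M * (κ ^ 2)⁻¹ * X + M * (ρ ^ 2)⁻¹ * e) +
      K * ((2 * Real.sqrt ρ)⁻¹ * X + Real.sqrt ρ / 2 * Y) := by
    have := mul_le_mul_of_nonneg_left fa1 hK
    have := mul_le_mul_of_nonneg_left fa2 hK
    linarith
  have e6 : K * M * Cp * (L + (ρ ^ 2)⁻¹ * B) ≤ C0 * (P - Q) + C0 * (ρ ^ 2)⁻¹ * B := by
    have h1 : K * M * Cp ≤ C0 := by rw [hC0e]; linarith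
    have h2 : K * M * Cp * (L + (ρ ^ 2)⁻¹ * B) ≤ C0 * (L + (ρ ^ 2)⁻¹ * B) :=
      mul_le_mul_of_nonneg_right h1 (by positivity)
    have h3 : C0 * L ≤ C0 * (P - Q) := mul_le_mul_of_nonneg_left (by linarith) hC0.le
    calc K * M * Cp * (L + (ρ ^ 2)⁻¹ * B) ≤ C0 * (L + (ρ ^ 2)⁻¹ * B) := h2
      _ = C0 * L + C0 * (ρ ^ 2)⁻¹ * B := by ring
      _ ≤ _ := by linarith
  have e7 : K * M * (8 * Ct * (1 + 2 * K₁)) * ((κ ^ 2)⁻¹ * ρ * Φ) +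
      K * (4 * Ct * (1 + 2 * K₁)) * (Real.sqrt ρ * Φ) + K * K₁ * (Real.sqrt ρ * Φ) ≤
      D * (((κ ^ 2)⁻¹ * ρ + Real.sqrt ρ) * Φ) := by
    rw [hDe]
    have a1 : 0 ≤ K * M * (8 * Ct * (1 + 2 * K₁)) := by positivity
    have a2 : 0 ≤ K * (4 * Ct * (1 + 2 * K₁)) + K * K₁ := by positivity
    have b1 : 0 ≤ (κ ^ 2)⁻¹ * ρ * Φ := by positivity
    have b2 : 0 ≤ Real.sqrt ρ * Φ := by positivity
    have c1 := mul_nonneg a1 b2
    have c2 := mul_nonneg a2 b1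
    linarith
  have e8 : (1 + C0) * Q ≤ C0 * P + C0 * (ρ ^ 2)⁻¹ * B +
      D * (((κ ^ 2)⁻¹ * ρ + Real.sqrt ρ) * Φ) := by linarith
  have e9 : 0 ≤ C0 * (ρ ^ 2)⁻¹ * B := by positivity
  have e10 : 0 ≤ D * (((κ ^ 2)⁻¹ * ρ + Real.sqrt ρ) * Φ) := by positivity
  have e11 : 0 ≤ D * (ρ ^ 2)⁻¹ * B := by positivity
  have e12 : 0 ≤ C0 * (((κ ^ 2)⁻¹ * ρ + Real.sqrt ρ) * Φ) := by positivity
  have e13 : Q ≤ (C0 * P + C0 * (ρ ^ 2)⁻¹ * B +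
      D * (((κ ^ 2)⁻¹ * ρ + Real.sqrt ρ) * Φ)) / (1 + C0) := by
    rw [le_div_iff₀ (by positivity)]
    linarith
  have e14 : (C0 * (ρ ^ 2)⁻¹ * B + D * (((κ ^ 2)⁻¹ * ρ + Real.sqrt ρ) * Φ)) / (1 + C0) ≤
      C0 * (ρ ^ 2)⁻¹ * B + D * (((κ ^ 2)⁻¹ * ρ + Real.sqrt ρ) * Φ) :=
    div_le_self (by positivity) (by linarith)
  have e15 : (C0 * P + C0 * (ρ ^ 2)⁻¹ * B +
      D * (((κ ^ 2)⁻¹ * ρ + Real.sqrt ρ) * Φ)) / (1 + C0) = C0 / (1 + C0) * P +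
      (C0 * (ρ ^ 2)⁻¹ * B + D * (((κ ^ 2)⁻¹ * ρ + Real.sqrt ρ) * Φ)) / (1 + C0) := by ring
  have e16 : (C0 + D) * (ρ ^ 2)⁻¹ * B = C0 * (ρ ^ 2)⁻¹ * B + D * (ρ ^ 2)⁻¹ * B := by ring
  have e17 : (C0 + D) * ((κ ^ 2)⁻¹ * ρ + Real.sqrt ρ) * Φ =
      C0 * (((κ ^ 2)⁻¹ * ρ + Real.sqrt ρ) * Φ) + D * (((κ ^ 2)⁻¹ * ρ + Real.sqrt ρ) * Φ) := by
    ring
  rw [e16, e17]
  linarith

end PLH
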