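import Pool.Agent.Lib.PLH.P4

/-!
MODULE P5 (200 lines). Iteration of the hole filling.

`L ≥ 1`, `κ = 1/(2L)`, `h_j = 1 - jκ`, `ρ_j = 2^{-j}`, `P_j = P(ρ_j,h_j)`, `j = 0..L`: `h_L = 1/2`.
`hole_step`: `P_{j+1} ≤ θP_j + C4^j β_j + C(4L²2^{-j} + 2^{-j/2})Φ`, `β_j = ∫_{lat 2^{-j} 1}‖Vt‖²`;
`P_0 = ∫_{bx 1 1} G ≤ K₁Φ` (`core_cac`, `bx 1 1 ⊆ bx 3 9`). So with `τ = max θ (2^{-1/2})`:
`P_L ≤ θ^L K₁Φ + ∑_{j<L} θ^{L-1-j}(C4^jβ_j + 5CL²2^{-j/2}Φ)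
 ≤ (K₁τ^L + 5C L³ τ^{L-1})Φ + C4^L ∑_j β_j`, and the sets `lat 2^{-j} 1`, `j < L`, are disjoint subsets of
`bx 1 1 \ bx 2^{-L} 1 ⊆ bx 1 1 \ bx 2^{-L} 4^{-L}`. `e L = K₁τ^L + 5C L³ τ^{L-1} → 0`.
-/

open MeasureTheory Set Filter Topology
open scoped ContDiff ENNReal

namespace PLH

variable (E : Type*) [NormedAddCommGroup E] [InnerProductSpace ℝ E] [CompleteSpace E]

private theorem meas_bx (ρ h : ℝ) : MeasurableSet (bx ρ h) := by
  have h1 : IsOpen {z : Pt | |z.1| < ρ} :=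
    isOpen_lt (continuous_abs.comp continuous_fst) continuous_const
  have h2 : IsOpen {z : Pt | |z.2.1| < ρ} :=
    isOpen_lt (continuous_abs.comp (continuous_fst.comp continuous_snd)) continuous_const
  have h3 : IsOpen {z : Pt | |z.2.2| < h} :=
    isOpen_lt (continuous_abs.comp (continuous_snd.comp continuous_snd)) continuous_const
  exact (h1.inter (h2.inter h3)).measurableSet

private theorem meas_N (ρ : ℝ) : MeasurableSet {z : Pt | |z.1| < ρ ∧ |z.2.1| < ρ} := by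
  have h1 : IsOpen {z : Pt | |z.1| < ρ} :=
    isOpen_lt (continuous_abs.comp continuous_fst) continuous_const
  have h2 : IsOpen {z : Pt | |z.2.1| < ρ} :=
    isOpen_lt (continuous_abs.comp (continuous_fst.comp continuous_snd)) continuous_const
  exact (h1.inter h2).measurableSet

private theorem bx_mono {ρ ρ' h h' : ℝ} (h1 : ρ ≤ ρ') (h2 : h ≤ h') : bx ρ h ⊆ bx ρ' h' :=
  fun _ hz => ⟨hz.1.trans_le h1, hz.2.1.trans_le h1, hz.2.2.trans_le h2⟩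

private theorem alg_id (K₁ τ C L q t Φ D β : ℝ) (j : ℝ) (hτ : τ ≠ 0) :
    K₁ * (t * τ) * Φ + C * q * (D + β) + 5 * C / τ * L ^ 2 * ((j + 1) * (t * τ)) * Φ =
      (τ * (K₁ * t * Φ) + C * q * D + τ * (5 * C / τ * L ^ 2 * (j * t) * Φ)) +
        C * q * β + C * (5 * L ^ 2 * t) * Φ := by
  field_simp
  ring

theorem hole_iter (K : ℝ) (hK : 0 ≤ K) : ∃ (e : ℕ → ℝ) (C : ℝ), Tendsto e atTop (𝓝 0) ∧
    (∀ n, 0 ≤ e n) ∧ 0 ≤ C ∧
    ∀ (Kf : ℝ → ℝ) (U : Set Pt) (V Vx Vy Vt : Pt → E), Core K Kf U V Vx Vy Vt → ∀ (c : E)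
    (L : ℕ), 1 ≤ L →
    ∫ z in bx ((1 / 2) ^ L) (1 / 2), (‖Vx z‖ ^ 2 + ‖Vy z‖ ^ 2) ≤
      e L * (∫ z in bx 4 16, ‖V z - c‖ ^ 2) +
      C * 4 ^ L * ∫ z in bx 1 1 \ bx ((1 / 2) ^ L) ((1 / 4) ^ L), ‖Vt z‖ ^ 2 := by
  obtain ⟨θ, C, hθ0, hθ1, hC, hstep⟩ := hole_step E K hK
  obtain ⟨K₁, hK₁, hcac⟩ := core_cac (E := E) K hK
  set s2 : ℝ := Real.sqrt (1 / 2) with hs2
  have hs20 : 0 < s2 := Real.sqrt_pos.mpr (by norm_num)
  have hs2s : s2 ^ 2 = 1 / 2 := Real.sq_sqrt (by norm_num)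
  have hs21 : s2 < 1 := by
    nlinarith
  set τ : ℝ := max θ s2 with hτ
  have hτ0 : 0 < τ := lt_of_lt_of_le hθ0 (le_max_left _ _)
  have hτ1 : τ < 1 := max_lt hθ1 hs21
  have hθτ : θ ≤ τ := le_max_left _ _
  have hsτ : s2 ≤ τ := le_max_right _ _
  refine ⟨fun L => K₁ * τ ^ L + 5 * C / τ * ((L : ℝ) ^ 3 * τ ^ L), C, ?_, ?_, hC, ?_⟩
  · have h1 : Tendsto (fun L : ℕ => K₁ * τ ^ L) atTop (𝓝 (K₁ * 0)) :=
      (tendsto_pow_atTop_nhds_zero_of_lt_one hτ0.le hτ1).const_mul _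
    have h2 : Tendsto (fun L : ℕ => 5 * C / τ * ((L : ℝ) ^ 3 * τ ^ L)) atTop
        (𝓝 (5 * C / τ * 0)) :=
      (tendsto_pow_const_mul_const_pow_of_abs_lt_one 3
        (by rw [abs_of_pos hτ0]; exact hτ1)).const_mul _
    simpa using h1.add h2
  · intro n
    positivity
  intro Kf U V Vx Vy Vt hc c L hL
  set Φ : ℝ := ∫ z in bx 4 16, ‖V z - c‖ ^ 2 with hΦ
  have hΦ0 : 0 ≤ Φ := integral_nonneg (fun z => by positivity)
  have hL0 : (0 : ℝ) < L := by exact_mod_cast hL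
  have hL1 : (1 : ℝ) ≤ L := by exact_mod_cast hL
  have hsub : bx 4 16 ⊆ U := fun z hz => hc.sub ⟨hz.1.le, hz.2.1.le, hz.2.2.le⟩
  have hVt : ∀ S ⊆ bx 4 16, IntegrableOn (fun z => ‖Vt z‖ ^ 2) S := by
    intro S hS
    exact ((hc.mt.mono_measure (Measure.restrict_mono (hS.trans hsub) le_rfl)).integrable_norm_pow
      (by norm_num))
  have hG : ∀ S ⊆ bx 4 16, IntegrableOn (fun z => ‖Vx z‖ ^ 2 + ‖Vy z‖ ^ 2) S := by
    intro S hS
    exact ((hc.mx.mono_measure (Measure.restrict_mono (hS.trans hsub) le_rfl)).integrable_norm_pow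
      (by norm_num)).add
      ((hc.my.mono_measure (Measure.restrict_mono (hS.trans hsub) le_rfl)).integrable_norm_pow
      (by norm_num))
  set κ : ℝ := 1 / (2 * L) with hκ
  have hκ0 : 0 < κ := by positivity
  have hκi : (κ ^ 2)⁻¹ = 4 * (L : ℝ) ^ 2 := by
    rw [hκ]; field_simp; ring
  -- the outer part of the energy of Vt
  set N : ℕ → Set Pt := fun j => {z : Pt | |z.1| < (1 / 2) ^ j ∧ |z.2.1| < (1 / 2) ^ j} with hN
  set D : ℕ → ℝ := fun j => ∫ z in bx 1 1 \ N j, ‖Vt z‖ ^ 2 with hD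
  have hD0 : ∀ j, 0 ≤ D j := fun j => integral_nonneg (fun z => by positivity)
  have hDstep : ∀ j, D (j + 1) = D j + ∫ z in lat ((1 / 2) ^ j) 1, ‖Vt z‖ ^ 2 := by
    intro j
    have hset : bx 1 1 \ N (j + 1) = (bx 1 1 \ N j) ∪ lat ((1 / 2) ^ j) 1 := by
      have hpow : ((1 / 2 : ℝ)) ^ (j + 1) = (1 / 2) ^ j / 2 := by rw [pow_succ]; ring
      have hle : ((1 / 2 : ℝ)) ^ j ≤ 1 := pow_le_one₀ (by norm_num) (by norm_num)
      have hpos : (0 : ℝ) < (1 / 2) ^ j := by positivity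
      ext z
      simp only [hN, Set.mem_sdiff, mem_union, mem_ofPred_eq, lat, bx, hpow]
      constructor
      · rintro ⟨⟨h1, h2, h3⟩, h4⟩
        by_cases h5 : |z.1| < (1 / 2) ^ j ∧ |z.2.1| < (1 / 2) ^ j
        · exact Or.inr ⟨⟨h5.1, h5.2, h3⟩, h4⟩
        · exact Or.inl ⟨⟨h1, h2, h3⟩, h5⟩
      · rintro (⟨⟨h1, h2, h3⟩, h4⟩ | ⟨⟨h1, h2, h3⟩, h4⟩)
        · refine ⟨⟨h1, h2, h3⟩, fun h5 => h4 ⟨?_, ?_⟩⟩
          · linarith [h5.1]
          · linarith [h5.2]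
        · exact ⟨⟨by linarith, by linarith, h3⟩, h4⟩
    rw [hD]
    simp only
    rw [hset, setIntegral_union]
    · rw [Set.disjoint_left]
      rintro z ⟨_, h1⟩ ⟨⟨h2, h3, _⟩, _⟩
      exact h1 ⟨h2, h3⟩
    · exact (meas_bx _ _).diff (meas_N _)
    · exact hVt _ (sdiff_subset.trans (bx_mono (by norm_num) (by norm_num)))
    · refine hVt _ (sdiff_subset.trans (bx_mono ?_ (by norm_num)))
      exact (pow_le_one₀ (by norm_num) (by norm_num) : ((1 / 2 : ℝ)) ^ j ≤ 1).trans (by norm_num)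
  have hsqrt : ∀ j : ℕ, Real.sqrt ((1 / 2) ^ j) = s2 ^ j := by
    intro j
    rw [hs2, Real.sqrt_eq_iff_mul_self_eq (by positivity) (by positivity), ← pow_add,
      ← two_mul, pow_mul, Real.sq_sqrt (by norm_num)]
  have hmain : ∀ j : ℕ, j ≤ L →
      ∫ z in bx ((1 / 2) ^ j) (1 - j * κ), (‖Vx z‖ ^ 2 + ‖Vy z‖ ^ 2) ≤
        K₁ * τ ^ j * Φ + C * 4 ^ L * D j + 5 * C / τ * (L : ℝ) ^ 2 * (j * τ ^ j) * Φ := by
    intro j
    induction j with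
    | zero =>
      intro _
      have h1 : ∫ z in bx 1 1, (‖Vx z‖ ^ 2 + ‖Vy z‖ ^ 2) ≤
          ∫ z in bx 3 9, (‖Vx z‖ ^ 2 + ‖Vy z‖ ^ 2) :=
        setIntegral_mono_set (hG _ (bx_mono (by norm_num) (by norm_num)))
          (Filter.Eventually.of_forall (fun z => by positivity))
          (bx_mono (by norm_num) (by norm_num)).eventuallyLE
      have h2 := (hcac Kf U V Vx Vy Vt hc c).1
      have h3 : 0 ≤ C * 4 ^ L * D 0 := mul_nonneg (by positivity) (hD0 0)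
      simp only [pow_zero, Nat.cast_zero, zero_mul, sub_zero, mul_one, mul_zero, add_zero]
      linarith
    | succ j ih =>
      intro hj
      have ih' := ih (by omega)
      have hjL : ((j : ℝ) + 1) ≤ L := by exact_mod_cast hj
      have hκL : (L : ℝ) * κ = 1 / 2 := by rw [hκ]; field_simp
      have hjκ : ((j : ℝ) + 1) * κ ≤ 1 / 2 := by
        calc ((j : ℝ) + 1) * κ ≤ L * κ := mul_le_mul_of_nonneg_right hjL hκ0.le
          _ = 1 / 2 := hκL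
      have hst := hstep Kf U V Vx Vy Vt hc c ((1 / 2) ^ j) (1 - j * κ) κ (by positivity)
        (pow_le_one₀ (by norm_num) (by norm_num)) hκ0 (by nlinarith) (by
          have : 0 ≤ (j : ℝ) * κ := by positivity
          linarith)
      have e1 : ((1 / 2 : ℝ)) ^ j / 2 = (1 / 2) ^ (j + 1) := by rw [pow_succ]; ring
      have e2 : 1 - (j : ℝ) * κ - κ = 1 - ((j + 1 : ℕ) : ℝ) * κ := by push_cast; ring
      rw [e1, e2] at hst
      refine hst.trans ?_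
      have e3 : (((1 / 2 : ℝ) ^ j) ^ 2)⁻¹ = 4 ^ j := by
        rw [← pow_mul, mul_comm, pow_mul]
        rw [← inv_pow]
        norm_num
      rw [e3, hκi, hsqrt]
      have h1 : (4 * (L : ℝ) ^ 2 * (1 / 2) ^ j + s2 ^ j) ≤ 5 * (L : ℝ) ^ 2 * τ ^ j := by
        have h2 : s2 ^ j ≤ τ ^ j := pow_le_pow_left₀ hs20.le hsτ j
        have h3 : ((1 / 2 : ℝ)) ^ j ≤ τ ^ j := by
          refine pow_le_pow_left₀ (by norm_num) ?_ j
          nlinarith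
        have h4 : (0 : ℝ) < τ ^ j := by positivity
        have h5 : (1 : ℝ) ≤ (L : ℝ) ^ 2 := one_le_pow₀ hL1
        nlinarith
      have hP0 : 0 ≤ ∫ z in bx ((1 / 2) ^ j) (1 - j * κ), (‖Vx z‖ ^ 2 + ‖Vy z‖ ^ 2) :=
        integral_nonneg (fun z => by positivity)
      have h6 : θ * (∫ z in bx ((1 / 2) ^ j) (1 - j * κ), (‖Vx z‖ ^ 2 + ‖Vy z‖ ^ 2)) ≤
          τ * (K₁ * τ ^ j * Φ + C * 4 ^ L * D j + 5 * C / τ * (L : ℝ) ^ 2 * (j * τ ^ j) * Φ) :=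
        (mul_le_mul_of_nonneg_right hθτ hP0).trans (mul_le_mul_of_nonneg_left ih' hτ0.le)
      have h7 : C * 4 ^ j * (∫ z in lat ((1 / 2) ^ j) 1, ‖Vt z‖ ^ 2) ≤
          C * 4 ^ L * ∫ z in lat ((1 / 2) ^ j) 1, ‖Vt z‖ ^ 2 := by
        apply mul_le_mul_of_nonneg_right _ (integral_nonneg (fun z => by positivity))
        apply mul_le_mul_of_nonneg_left _ hC
        exact pow_le_pow_right₀ (by norm_num) (by omega)
      have h8 : C * (4 * (L : ℝ) ^ 2 * (1 / 2) ^ j + s2 ^ j) * Φ ≤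
          C * (5 * (L : ℝ) ^ 2 * τ ^ j) * Φ :=
        mul_le_mul_of_nonneg_right (mul_le_mul_of_nonneg_left h1 hC) hΦ0
      have h9 : τ * (C * 4 ^ L * D j) ≤ C * 4 ^ L * D j := by
        have : 0 ≤ C * 4 ^ L * D j := mul_nonneg (by positivity) (hD0 j)
        nlinarith
      rw [hDstep j]
      have h10 : K₁ * τ ^ (j + 1) * Φ + C * 4 ^ L * (D j +
          ∫ z in lat ((1 / 2) ^ j) 1, ‖Vt z‖ ^ 2) +
          5 * C / τ * (L : ℝ) ^ 2 * (((j + 1 : ℕ) : ℝ) * τ ^ (j + 1)) * Φ =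
          (τ * (K₁ * τ ^ j * Φ) + C * 4 ^ L * D j +
            τ * (5 * C / τ * (L : ℝ) ^ 2 * (j * τ ^ j) * Φ)) +
          C * 4 ^ L * (∫ z in lat ((1 / 2) ^ j) 1, ‖Vt z‖ ^ 2) +
          C * (5 * (L : ℝ) ^ 2 * τ ^ j) * Φ := by
        rw [pow_succ]
        push_cast
        exact alg_id K₁ τ C L (4 ^ L) (τ ^ j) Φ (D j) _ j hτ0.ne'
      rw [h10]
      have h13 : τ * (K₁ * τ ^ j * Φ + C * 4 ^ L * D j +
          5 * C / τ * (L : ℝ) ^ 2 * (j * τ ^ j) * Φ) = τ * (K₁ * τ ^ j * Φ) +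
          τ * (C * 4 ^ L * D j) + τ * (5 * C / τ * (L : ℝ) ^ 2 * (j * τ ^ j) * Φ) := by ring
      rw [h13] at h6
      linarith only [h6, h7, h8, h9]
  have hfin := hmain L le_rfl
  have hκL : (L : ℝ) * κ = 1 / 2 := by rw [hκ]; field_simp
  have e5 : 1 - (L : ℝ) * κ = 1 / 2 := by rw [hκL]; norm_num
  rw [e5] at hfin
  refine hfin.trans ?_
  have hDL : D L ≤ ∫ z in bx 1 1 \ bx ((1 / 2) ^ L) ((1 / 4) ^ L), ‖Vt z‖ ^ 2 := by
    refine setIntegral_mono_set (hVt _ (sdiff_subset.trans (bx_mono (by norm_num) (by norm_num))))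
      (Filter.Eventually.of_forall (fun z => by positivity)) ?_
    refine LE.le.eventuallyLE ?_
    rintro z ⟨h1, h2⟩
    exact ⟨h1, fun h3 => h2 ⟨h3.1, h3.2.1⟩⟩
  have h11 := mul_le_mul_of_nonneg_left hDL (by positivity : 0 ≤ C * 4 ^ L)
  have h12 : 5 * C / τ * (L : ℝ) ^ 2 * (L * τ ^ L) * Φ = 5 * C / τ * ((L : ℝ) ^ 3 * τ ^ L) * Φ := by
    ring
  rw [h12]
  have h14 : (K₁ * τ ^ L + 5 * C / τ * ((L : ℝ) ^ 3 * τ ^ L)) * Φ =
      K₁ * τ ^ L * Φ + 5 * C / τ * ((L : ℝ) ^ 3 * τ ^ L) * Φ := by ring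
  show _ ≤ (K₁ * τ ^ L + 5 * C / τ * ((L : ℝ) ^ 3 * τ ^ L)) * Φ + _
  rw [h14]
  linarith only [h11]

end PLH
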