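import Pool.Agent.Lib.PLH.P2

/-!
MODULE P6 (200 lines). From the tall cylinder to the small box.

Let `0 < r ≤ 1/2`, `B = bx r (r²)`, `τ` a bound for `∫_B ‖V(vT.fl s z) - V z‖²`, `|s| ≤ 1/4`. For
`|t₀| ≤ 1/4` let `B_{t₀} = Bx (0,(0,t₀)) (r,(r,r²)) = vT.fl t₀ '' B ⊆ bx r (1/2)`, `c` the average of `V` over
`B_{t₀}`. By `exc_le`: `exc V B ≤ ∫_B‖V-c‖² ≤ 2∫_B‖V(z) - V(fl t₀ z)‖² + 2∫_B‖V(fl t₀ z)-c‖²
 ≤ 2τ + 2 exc V B_{t₀}`, and `poin_box` (`h = r²`): `exc V B_{t₀} ≤ C(r²∫_{B_{t₀}}G + 2r⁴∫_{B_{t₀}}‖Vt‖²)`.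
Average over `t₀ ∈ (-1/4,1/4)`: `∫_{-1/4}^{1/4}∫_{B_{t₀}} f dt₀ ≤ 2r² ∫_{bx r (1/2)} f` (a point `z` is in
`B_{t₀}` for `t₀` in an interval of length `≤ 2r²`; Tonelli). So
`exc V B ≤ 2τ + 8C r⁴(∫_{bx r (1/2)}G + 2r²∫_{bx r (1/2)}‖Vt‖²)`.
-/

open MeasureTheory Set Filter Topology
open scoped ContDiff ENNReal

namespace PLH

section aux

private theorem bx_open' (ρ h : ℝ) : IsOpen (bx ρ h) := by
  have h1 : IsOpen {z : Pt | |z.1| < ρ} := isOpen_lt (by fun_prop) (by fun_prop)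
  have h2 : IsOpen {z : Pt | |z.2.1| < ρ} := isOpen_lt (by fun_prop) (by fun_prop)
  have h3 : IsOpen {z : Pt | |z.2.2| < h} := isOpen_lt (by fun_prop) (by fun_prop)
  exact h1.inter (h2.inter h3)

private theorem bx_mono {ρ ρ' h h' : ℝ} (h1 : ρ ≤ ρ') (h2 : h ≤ h') : bx ρ h ⊆ bx ρ' h' :=
  fun _ hz => ⟨hz.1.trans_le h1, hz.2.1.trans_le h1, hz.2.2.trans_le h2⟩

private theorem bx_fin (ρ h : ℝ) : volume (bx ρ h) ≠ ⊤ := by
  have e : bx ρ h ⊆ Icc (-ρ) ρ ×ˢ (Icc (-ρ) ρ ×ˢ Icc (-h) h) := by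
    intro z hz
    exact ⟨abs_le.1 hz.1.le, abs_le.1 hz.2.1.le, abs_le.1 hz.2.2.le⟩
  exact ((measure_mono e).trans_lt
    (isCompact_Icc.prod (isCompact_Icc.prod isCompact_Icc)).measure_lt_top).ne

private theorem vT_fl' (t : ℝ) (z : Pt) : vT.fl t z = (z.1, z.2.1, z.2.2 + t) := by
  simp [VF.fl, vT]

private theorem Bx_open' (t r h : ℝ) : IsOpen (Bx (0, (0, t)) (r, (r, h))) := by
  have h1 : IsOpen {z : Pt | |z.1 - 0| < r} := isOpen_lt (by fun_prop) (by fun_prop)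
  have h2 : IsOpen {z : Pt | |z.2.1 - 0| < r} := isOpen_lt (by fun_prop) (by fun_prop)
  have h3 : IsOpen {z : Pt | |z.2.2 - t| < h} := isOpen_lt (by fun_prop) (by fun_prop)
  exact h1.inter (h2.inter h3)

private theorem pre_Bx (t r h : ℝ) : vT.fl t ⁻¹' (Bx (0, (0, t)) (r, (r, h))) = bx r h := by
  ext z
  simp only [Bx, bx, Set.mem_preimage, Set.mem_ofPred_eq, vT_fl', sub_zero, add_sub_cancel_right]

private theorem Bx_sub {t r : ℝ} (ht : |t| ≤ 1 / 4) (hr0 : 0 < r) (hr : r ≤ 1 / 2) :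
    Bx (0, (0, t)) (r, (r, r ^ 2)) ⊆ bx r (1 / 2) := by
  rintro z ⟨h1, h2, h3⟩
  simp only [sub_zero] at h1 h2 h3
  refine ⟨h1, h2, ?_⟩
  have h4 : r ^ 2 ≤ 1 / 4 := by nlinarith
  calc |z.2.2| = |(z.2.2 - t) + t| := by ring_nf
    _ ≤ |z.2.2 - t| + |t| := abs_add_le _ _
    _ < 1 / 2 := by linarith

private theorem sq_add_le' {x a b : ℝ} (h : x ≤ a + b) (hx : 0 ≤ x) :
    x ^ 2 ≤ 2 * a ^ 2 + 2 * b ^ 2 := by
  nlinarith [sq_nonneg (a - b)]

/-- Tonelli. -/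
private theorem ton {r : ℝ} (hr0 : 0 < r) (hr : r ≤ 1 / 2) {F : Pt → ℝ≥0∞}
    (hF : AEMeasurable F (volume.restrict (bx r (1 / 2)))) :
    ∫⁻ t in Icc (-(1 / 4) : ℝ) (1 / 4), ∫⁻ z in Bx (0, (0, t)) (r, (r, r ^ 2)), F z ≤
      ENNReal.ofReal (2 * r ^ 2) * ∫⁻ z in bx r (1 / 2), F z := by
  obtain ⟨S, hS⟩ : ∃ S : Set (ℝ × Pt), S = {p | |p.2.2.2 - p.1| < r ^ 2} := ⟨_, rfl⟩
  have hSo : MeasurableSet S := by
    rw [hS]
    exact (isOpen_lt (by fun_prop) (by fun_prop)).measurableSet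
  have h1 : ∀ t ∈ Icc (-(1 / 4) : ℝ) (1 / 4), ∫⁻ z in Bx (0, (0, t)) (r, (r, r ^ 2)), F z ≤
      ∫⁻ z in bx r (1 / 2), S.indicator (fun p => F p.2) (t, z) := by
    intro t ht
    have e1 : Bx (0, (0, t)) (r, (r, r ^ 2)) =
        bx r (1 / 2) ∩ Bx (0, (0, t)) (r, (r, r ^ 2)) :=
      (Set.inter_eq_right.2 (Bx_sub (abs_le.2 ht) hr0 hr)).symm
    calc ∫⁻ z in Bx (0, (0, t)) (r, (r, r ^ 2)), F z
        = ∫⁻ z in bx r (1 / 2), (Bx (0, (0, t)) (r, (r, r ^ 2))).indicator F z := by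
          rw [lintegral_indicator (Bx_open' t r _).measurableSet,
            Measure.restrict_restrict (Bx_open' t r _).measurableSet,
            Set.inter_eq_left.2 (Bx_sub (abs_le.2 ht) hr0 hr)]
      _ ≤ _ := by
          refine lintegral_mono fun z => ?_
          by_cases hz : z ∈ Bx (0, (0, t)) (r, (r, r ^ 2))
          · have : ((t, z) : ℝ × Pt) ∈ S := by rw [hS]; exact hz.2.2
            rw [Set.indicator_of_mem hz, Set.indicator_of_mem this]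
          · rw [Set.indicator_of_notMem hz]
            exact bot_le
  have h2 : ∫⁻ t in Icc (-(1 / 4) : ℝ) (1 / 4), ∫⁻ z in Bx (0, (0, t)) (r, (r, r ^ 2)), F z ≤
      ∫⁻ t in Icc (-(1 / 4) : ℝ) (1 / 4), ∫⁻ z in bx r (1 / 2),
        S.indicator (fun p => F p.2) (t, z) :=
    setLIntegral_mono' measurableSet_Icc h1
  refine h2.trans ?_
  have hm : AEMeasurable (Function.uncurry fun (t : ℝ) (z : Pt) =>
      S.indicator (fun p : ℝ × Pt => F p.2) (t, z))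
      ((volume.restrict (Icc (-(1 / 4) : ℝ) (1 / 4))).prod (volume.restrict (bx r (1 / 2)))) := by
    have : AEMeasurable (fun p : ℝ × Pt => F p.2)
        ((volume.restrict (Icc (-(1 / 4) : ℝ) (1 / 4))).prod
          (volume.restrict (bx r (1 / 2)))) := hF.comp_snd
    exact this.indicator hSo
  rw [lintegral_lintegral_swap hm, ← lintegral_const_mul'' _ hF]
  refine lintegral_mono fun z => ?_
  have h3 : ∫⁻ t in Icc (-(1 / 4) : ℝ) (1 / 4), S.indicator (fun p : ℝ × Pt => F p.2) (t, z) ≤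
      ∫⁻ t, (Ioo (z.2.2 - r ^ 2) (z.2.2 + r ^ 2)).indicator (fun _ => F z) t := by
    refine (setLIntegral_le_lintegral _ _).trans (lintegral_mono fun t => ?_)
    by_cases ht : ((t, z) : ℝ × Pt) ∈ S
    · have : t ∈ Ioo (z.2.2 - r ^ 2) (z.2.2 + r ^ 2) := by
        rw [hS] at ht
        have h4 := abs_lt.1 (show |z.2.2 - t| < r ^ 2 from ht)
        exact ⟨by linarith [h4.2], by linarith [h4.1]⟩
      rw [Set.indicator_of_mem ht, Set.indicator_of_mem this]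
    · rw [Set.indicator_of_notMem ht]
      exact bot_le
  refine h3.trans_eq ?_
  rw [lintegral_indicator measurableSet_Ioo, setLIntegral_const, Real.volume_Ioo, mul_comm]
  congr 2
  ring

end aux

variable (E : Type*) [NormedAddCommGroup E] [InnerProductSpace ℝ E] [CompleteSpace E]

theorem small_box : ∃ C : ℝ, 0 ≤ C ∧ ∀ (U : Set Pt) (V Vx Vy Vt : Pt → E) (r τ : ℝ),
    IsOpen U → 0 < r → r ≤ 1 / 2 → bx 1 1 ⊆ U →
    MemLp V 2 (volume.restrict U) → MemLp Vx 2 (volume.restrict U) →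
    MemLp Vy 2 (volume.restrict U) → MemLp Vt 2 (volume.restrict U) →
    WD vX U V Vx → WD vY U V Vy → WD vT U V Vt →
    (∀ s : ℝ, |s| ≤ 1 / 4 → ∫ z in bx r (r ^ 2), ‖V (vT.fl s z) - V z‖ ^ 2 ≤ τ) →
    exc V (bx r (r ^ 2)) ≤ C * τ + C * r ^ 4 *
      ((∫ z in bx r (1 / 2), (‖Vx z‖ ^ 2 + ‖Vy z‖ ^ 2)) +
        r ^ 2 * ∫ z in bx r (1 / 2), ‖Vt z‖ ^ 2) := by
  obtain ⟨C, hC, hP⟩ := poin_box (E := E)
  refine ⟨2 + 16 * C, by positivity, ?_⟩
  intro U V Vx Vy Vt r τ hU hr0 hr h11 mV mVx mVy mVt wx wy wt hτ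
  have hτ0 : 0 ≤ τ := by
    have h0 := hτ 0 (by norm_num)
    exact le_trans (integral_nonneg fun z => by positivity) h0
  have hr2 : r ^ 2 ≤ 1 / 4 := by nlinarith
  have hsub : bx r (1 / 2) ⊆ U := (bx_mono (by linarith) (by norm_num)).trans h11
  have hsub2 : bx r (r ^ 2) ⊆ U := (bx_mono (by linarith) (by linarith)).trans h11
  have mono : ∀ {f : Pt → E} {S : Set Pt}, S ⊆ U → MemLp f 2 (volume.restrict U) →
      MemLp f 2 (volume.restrict S) := fun hS hf =>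
    hf.mono_measure (Measure.restrict_mono hS le_rfl)
  obtain ⟨f, hf⟩ : ∃ f : Pt → ℝ, f = fun z => r ^ 2 * (‖Vx z‖ ^ 2 + ‖Vy z‖ ^ 2) +
    (r ^ 4 + (r ^ 2) ^ 2) * ‖Vt z‖ ^ 2 := ⟨_, rfl⟩
  have hf0 : ∀ z, 0 ≤ f z := fun z => by rw [hf]; positivity
  have iG : ∀ {S : Set Pt}, S ⊆ U → IntegrableOn (fun z => ‖Vx z‖ ^ 2 + ‖Vy z‖ ^ 2) S :=
    fun hS => ((mono hS mVx).integrable_norm_pow (by norm_num)).add
      ((mono hS mVy).integrable_norm_pow (by norm_num))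
  have iT : ∀ {S : Set Pt}, S ⊆ U → IntegrableOn (fun z => ‖Vt z‖ ^ 2) S :=
    fun hS => (mono hS mVt).integrable_norm_pow (by norm_num)
  have hfi : ∀ {S : Set Pt}, S ⊆ U → IntegrableOn f S := by
    intro S hS
    rw [hf]
    exact ((iG hS).const_mul _).add ((iT hS).const_mul _)
  have hfS : ∀ {S : Set Pt}, S ⊆ U → ∫ z in S, f z =
      r ^ 2 * (∫ z in S, (‖Vx z‖ ^ 2 + ‖Vy z‖ ^ 2)) +
        (r ^ 4 + (r ^ 2) ^ 2) * ∫ z in S, ‖Vt z‖ ^ 2 := by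
    intro S hS
    rw [hf, integral_add ((iG hS).const_mul _) ((iT hS).const_mul _), integral_const_mul,
      integral_const_mul]
  -- one height
  have key : ∀ t ∈ Icc (-(1 / 4) : ℝ) (1 / 4), exc V (bx r (r ^ 2)) - 2 * τ ≤
      2 * C * ∫ z in Bx (0, (0, t)) (r, (r, r ^ 2)), f z := by
    intro t ht
    have ht' : |t| ≤ 1 / 4 := abs_le.2 ht
    have hB : Bx (0, (0, t)) (r, (r, r ^ 2)) ⊆ U := (Bx_sub ht' hr0 hr).trans hsub
    have hBm := (Bx_open' t r (r ^ 2)).measurableSet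
    have hBf : volume (Bx (0, (0, t)) (r, (r, r ^ 2))) ≠ ⊤ :=
      ((measure_mono (Bx_sub ht' hr0 hr)).trans_lt (bx_fin r (1 / 2)).lt_top).ne
    obtain ⟨c, hc⟩ : ∃ c, c = ⨍ w in Bx (0, (0, t)) (r, (r, r ^ 2)), V w := ⟨_, rfl⟩
    have fin1 : IsFiniteMeasure (volume.restrict (bx r (r ^ 2))) :=
      isFiniteMeasure_restrict.2 (bx_fin _ _)
    have fin2 : IsFiniteMeasure (volume.restrict (Bx (0, (0, t)) (r, (r, r ^ 2)))) :=
      isFiniteMeasure_restrict.2 hBf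
    have mp := ((vT.mp t).restrict_preimage hBm)
    rw [pre_Bx] at mp
    have mc : MemLp (fun z => V (vT.fl t z)) 2 (volume.restrict (bx r (r ^ 2))) :=
      (mono hB mV).comp_measurePreserving mp
    have m0 : MemLp V 2 (volume.restrict (bx r (r ^ 2))) := mono hsub2 mV
    have e1 : exc V (bx r (r ^ 2)) ≤ ∫ z in bx r (r ^ 2), ‖V z - c‖ ^ 2 :=
      exc_le (bx_open' _ _).measurableSet (bx_fin _ _) m0 c
    have i1 : IntegrableOn (fun z => ‖V (vT.fl t z) - V z‖ ^ 2) (bx r (r ^ 2)) :=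
      (mc.sub m0).integrable_norm_pow (by norm_num)
    have i2 : IntegrableOn (fun z => ‖V (vT.fl t z) - c‖ ^ 2) (bx r (r ^ 2)) :=
      (mc.sub (memLp_const c)).integrable_norm_pow (by norm_num)
    have i3 : IntegrableOn (fun z => ‖V z - c‖ ^ 2) (bx r (r ^ 2)) :=
      (m0.sub (memLp_const c)).integrable_norm_pow (by norm_num)
    have e2 : (∫ z in bx r (r ^ 2), ‖V z - c‖ ^ 2) ≤
        2 * (∫ z in bx r (r ^ 2), ‖V (vT.fl t z) - V z‖ ^ 2) +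
          2 * ∫ z in bx r (r ^ 2), ‖V (vT.fl t z) - c‖ ^ 2 := by
      rw [← integral_const_mul, ← integral_const_mul,
        ← integral_add (i1.const_mul 2) (i2.const_mul 2)]
      refine setIntegral_mono i3 ((i1.const_mul 2).add (i2.const_mul 2)) fun z => ?_
      refine sq_add_le' ?_ (norm_nonneg _)
      calc ‖V z - c‖ = ‖(V (vT.fl t z) - c) - (V (vT.fl t z) - V z)‖ := by congr 1; abel
        _ ≤ ‖V (vT.fl t z) - c‖ + ‖V (vT.fl t z) - V z‖ := norm_sub_le _ _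
        _ = _ := add_comm _ _
    have e3 : (∫ z in bx r (r ^ 2), ‖V (vT.fl t z) - c‖ ^ 2) =
        exc V (Bx (0, (0, t)) (r, (r, r ^ 2))) := by
      have := (vT.mp t).setIntegral_preimage_emb (vT.flH t).measurableEmbedding
        (fun z => ‖V z - c‖ ^ 2) (Bx (0, (0, t)) (r, (r, r ^ 2)))
      rw [pre_Bx] at this
      rw [exc, ← hc]
      exact this
    have e4 := hP U V Vx Vy Vt r (r ^ 2) t hU hr0 (by positivity) hB mV mVx mVy mVt wx wy wt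
    rw [← hfS hB] at e4
    have e5 := hτ t ht'
    rw [e3] at e2
    linarith
  -- integrate over the heights
  have hI : ∀ {S : Set Pt}, S ⊆ U → ENNReal.ofReal (∫ z in S, f z) =
      ∫⁻ z in S, ENNReal.ofReal (f z) := fun hS =>
    ofReal_integral_eq_lintegral_ofReal (hfi hS) (Eventually.of_forall hf0)
  have h1 : ENNReal.ofReal (exc V (bx r (r ^ 2)) - 2 * τ) * ENNReal.ofReal (1 / 2) ≤
      ENNReal.ofReal (2 * C) * (ENNReal.ofReal (2 * r ^ 2) *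
        ENNReal.ofReal (∫ z in bx r (1 / 2), f z)) := by
    have h2 : ∫⁻ _ in Icc (-(1 / 4) : ℝ) (1 / 4),
        ENNReal.ofReal (exc V (bx r (r ^ 2)) - 2 * τ) ≤
        ∫⁻ t in Icc (-(1 / 4) : ℝ) (1 / 4), ENNReal.ofReal (2 * C) *
          ∫⁻ z in Bx (0, (0, t)) (r, (r, r ^ 2)), ENNReal.ofReal (f z) := by
      refine setLIntegral_mono' measurableSet_Icc fun t ht => ?_
      rw [← hI ((Bx_sub (abs_le.2 ht) hr0 hr).trans hsub), ← ENNReal.ofReal_mul (by positivity)]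
      exact ENNReal.ofReal_le_ofReal (key t ht)
    rw [setLIntegral_const, Real.volume_Icc,
      show (1 / 4 - -(1 / 4) : ℝ) = 1 / 2 by norm_num] at h2
    refine h2.trans ?_
    rw [lintegral_const_mul' _ _ ENNReal.ofReal_ne_top, hI hsub]
    refine mul_le_mul_right (ton hr0 hr ?_) _
    exact (hfi hsub).aestronglyMeasurable.aemeasurable.ennreal_ofReal
  have hF0 : 0 ≤ ∫ z in bx r (1 / 2), f z := integral_nonneg hf0
  rw [← ENNReal.ofReal_mul' (by norm_num), ← ENNReal.ofReal_mul (by positivity),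
    ← ENNReal.ofReal_mul (by positivity), ENNReal.ofReal_le_ofReal_iff (by positivity)] at h1
  rw [hfS hsub] at h1 hF0
  have hG0 : 0 ≤ ∫ z in bx r (1 / 2), (‖Vx z‖ ^ 2 + ‖Vy z‖ ^ 2) :=
    integral_nonneg fun z => by positivity
  have hT0 : 0 ≤ ∫ z in bx r (1 / 2), ‖Vt z‖ ^ 2 := integral_nonneg fun z => by positivity
  generalize (∫ z in bx r (1 / 2), (‖Vx z‖ ^ 2 + ‖Vy z‖ ^ 2)) = G at *
  generalize (∫ z in bx r (1 / 2), ‖Vt z‖ ^ 2) = T at *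
  have a1 : 0 ≤ C * τ := by positivity
  have a2 : 0 ≤ C * (r ^ 4 * G) := by positivity
  have a3 : 0 ≤ r ^ 4 * G := by positivity
  have a4 : 0 ≤ r ^ 4 * (r ^ 2 * T) := by positivity
  have e6 : 2 * C * (2 * r ^ 2 * (r ^ 2 * G + (r ^ 4 + (r ^ 2) ^ 2) * T)) =
      4 * (C * (r ^ 4 * G)) + 8 * (C * (r ^ 4 * (r ^ 2 * T))) := by ring
  have e7 : (2 + 16 * C) * τ + (2 + 16 * C) * r ^ 4 * (G + r ^ 2 * T) =
      2 * τ + 16 * (C * τ) + 2 * (r ^ 4 * G) + 2 * (r ^ 4 * (r ^ 2 * T)) +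
      16 * (C * (r ^ 4 * G)) + 16 * (C * (r ^ 4 * (r ^ 2 * T))) := by ring
  rw [e6] at h1
  rw [e7]
  linarith

end PLH
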