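import Pool.Agent.Lib.PLH.P5
import Pool.Agent.Lib.PLH.P6

/-!
MODULE P7 (200 lines). The decay at unit scale.

`Φ = exc V (bx 4 16)` (take for `c` the average of `V` over `bx 4 16` everywhere), `r = 2^{-L}`, `L ≥ 2`,
`b(S) = ∫_S‖Vt‖²`. `td` with parameter `ε`: for `|s| ≤ 1/4`, since `bx r (r²) ⊆ bx (1/2) (3/4)`:
`∫_{bx r (r²)}‖V(fl s z)-V z‖² ≤ τ := εΦ + Kf(ε) b(bx 2 4 \ bx (1/4) (1/16))` (`∫_{bx 2 4}‖V-c‖² ≤ Φ`).
`small_box`, `hole_iter`, `core_cac`: `r^{-4} exc V (bx r (r²)) ≤ C 16^L τ + C(e_L Φ + C4^L b(bx 1 1 \ bx r r²))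
 + C 4^{-L} K₁Φ`. Choose `L` with `C e_L + C K₁ 4^{-L} ≤ 4^{-4}/4`, then `ε` with `C 16^L ε ≤ 4^{-4}/4`. Both
sets `bx 2 4 \ bx (1/4) (1/16)`, `bx 1 1 \ bx r r²` are in `bx 4 16 \ bx r r²`. `lam = r/4`. The second
claim is `core_cac` (`bx (4 lam) .. ⊆ bx 2 4`). `Kf` may be replaced by `|Kf|`.
-/

open MeasureTheory Set Filter Topology
open scoped ContDiff ENNReal

namespace PLH

variable (E : Type*) [NormedAddCommGroup E] [InnerProductSpace ℝ E] [CompleteSpace E]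

private theorem meas_bx (ρ h : ℝ) : MeasurableSet (bx ρ h) := by
  have h1 : IsOpen {z : Pt | |z.1| < ρ} :=
    isOpen_lt (continuous_abs.comp continuous_fst) continuous_const
  have h2 : IsOpen {z : Pt | |z.2.1| < ρ} :=
    isOpen_lt (continuous_abs.comp (continuous_fst.comp continuous_snd)) continuous_const
  have h3 : IsOpen {z : Pt | |z.2.2| < h} :=
    isOpen_lt (continuous_abs.comp (continuous_snd.comp continuous_snd)) continuous_const
  exact (h1.inter (h2.inter h3)).measurableSet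

private theorem bx_mono {ρ ρ' h h' : ℝ} (h1 : ρ ≤ ρ') (h2 : h ≤ h') : bx ρ h ⊆ bx ρ' h' :=
  fun _ hz => ⟨hz.1.trans_le h1, hz.2.1.trans_le h1, hz.2.2.trans_le h2⟩

theorem unit_decay (K : ℝ) (hK : 0 ≤ K) (Kf : ℝ → ℝ) : ∃ lam C : ℝ, 0 < lam ∧ lam ≤ 1 / 16 ∧
    0 ≤ C ∧ ∀ (U : Set Pt) (V Vx Vy Vt : Pt → E), Core K Kf U V Vx Vy Vt →
    exc V (bx (4 * lam) ((4 * lam) ^ 2)) ≤ lam ^ 4 * (1 / 2 * exc V (bx 4 16) +
      C * ((∫ z in bx 4 16, ‖Vt z‖ ^ 2) - ∫ z in bx (4 * lam) ((4 * lam) ^ 2), ‖Vt z‖ ^ 2)) ∧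
    (∫ z in bx (4 * lam) ((4 * lam) ^ 2), ‖Vt z‖ ^ 2) ≤ C * exc V (bx 4 16) := by
  obtain ⟨K₁, hK₁, hcac⟩ := core_cac (E := E) K hK
  obtain ⟨e, C₂, he, he0, hC₂, hit⟩ := hole_iter E K hK
  obtain ⟨C₃, hC₃, hsm⟩ := small_box E
  -- choice of L
  have hlim : Tendsto (fun L : ℕ => C₃ * (e L + (1 / 4 : ℝ) ^ L * K₁)) atTop (𝓝 0) := by
    have h1 : Tendsto (fun L : ℕ => (1 / 4 : ℝ) ^ L * K₁) atTop (𝓝 (0 * K₁)) :=
      (tendsto_pow_atTop_nhds_zero_of_lt_one (by norm_num) (by norm_num)).mul_const _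
    have h2 := (he.add h1).const_mul C₃
    simpa using h2
  obtain ⟨L, hL2, hL⟩ : ∃ L : ℕ, 2 ≤ L ∧ C₃ * (e L + (1 / 4 : ℝ) ^ L * K₁) < 1 / 1024 := by
    have := (hlim.eventually (gt_mem_nhds (show (0 : ℝ) < 1 / 1024 by norm_num))).and
      (eventually_ge_atTop 2)
    obtain ⟨L, h1, h2⟩ := this.exists
    exact ⟨L, h2, h1⟩
  set r : ℝ := (1 / 2) ^ L with hr
  have hr0 : 0 < r := by positivity
  have hr4 : r ≤ 1 / 4 := by
    calc r ≤ (1 / 2 : ℝ) ^ 2 := pow_le_pow_of_le_one (by norm_num) (by norm_num) hL2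
      _ = 1 / 4 := by norm_num
  have hr2 : r ^ 2 = (1 / 4) ^ L := by
    rw [hr, ← pow_mul, mul_comm, pow_mul]; norm_num
  have hr2' : r ^ 2 ≤ 1 / 16 := by nlinarith
  set ε : ℝ := r ^ 4 / (1024 * (C₃ + 1)) with hε
  have hε0 : 0 < ε := by positivity
  have hεC : C₃ * ε ≤ r ^ 4 / 1024 := by
    rw [hε]
    have : C₃ * (r ^ 4 / (1024 * (C₃ + 1))) = (C₃ / (C₃ + 1)) * (r ^ 4 / 1024) := by
      field_simp
    rw [this]
    have h1 : C₃ / (C₃ + 1) ≤ 1 := by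
      rw [div_le_one (by linarith)]; linarith
    have h2 : 0 ≤ r ^ 4 / 1024 := by positivity
    nlinarith
  set D : ℝ := C₃ * |Kf ε| + C₃ * r ^ 4 * (C₂ * 4 ^ L) with hD
  have hD0 : 0 ≤ D := by positivity
  refine ⟨r / 4, 256 * D / r ^ 4 + K₁, by positivity, by linarith, by positivity, ?_⟩
  intro U V Vx Vy Vt hc
  have e4 : 4 * (r / 4) = r := by ring
  rw [e4]
  set c : E := ⨍ w in bx 4 16, V w with hcdef
  set Φ : ℝ := exc V (bx 4 16) with hΦ
  have hΦe : Φ = ∫ z in bx 4 16, ‖V z - c‖ ^ 2 := rfl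
  have hsub : bx 4 16 ⊆ U := fun z hz =>
    hc.sub ⟨hz.1.le, hz.2.1.le, hz.2.2.le⟩
  have finb : ∀ ρ h : ℝ, volume (bx ρ h) ≠ ⊤ := by
    intro ρ h
    have hs : bx ρ h ⊆ Metric.closedBall (0 : Pt) (max ρ h) := by
      intro z hz
      rw [mem_closedBall_zero_iff, Prod.norm_def, Prod.norm_def]
      simp only [Real.norm_eq_abs]
      exact max_le (hz.1.le.trans (le_max_left _ _))
        (max_le (hz.2.1.le.trans (le_max_left _ _)) (hz.2.2.le.trans (le_max_right _ _)))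
    exact ((measure_mono hs).trans_lt (isCompact_closedBall _ _).measure_lt_top).ne
  have hVc : ∀ S ⊆ bx 4 16, IntegrableOn (fun z => ‖V z - c‖ ^ 2) S := by
    intro S hS
    have hfin : IsFiniteMeasure ((volume : Measure Pt).restrict (bx 4 16)) :=
      ⟨by rw [Measure.restrict_apply_univ]; exact (finb 4 16).lt_top⟩
    have h1 : MemLp (fun z => V z - c) 2 (volume.restrict (bx 4 16)) :=
      (hc.m0.mono_measure (Measure.restrict_mono hsub le_rfl)).sub (memLp_const c)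
    exact (h1.integrable_norm_pow (by norm_num)).mono_measure (Measure.restrict_mono hS le_rfl)
  have hVt : ∀ S ⊆ bx 4 16, IntegrableOn (fun z => ‖Vt z‖ ^ 2) S := by
    intro S hS
    exact ((hc.mt.mono_measure (Measure.restrict_mono (hS.trans hsub) le_rfl)).integrable_norm_pow
      (by norm_num))
  have hΦ0 : 0 ≤ Φ := by
    rw [hΦe]; exact integral_nonneg (fun z => by positivity)
  -- the difference of the b's
  set Δ : ℝ := (∫ z in bx 4 16, ‖Vt z‖ ^ 2) - ∫ z in bx r (r ^ 2), ‖Vt z‖ ^ 2 with hΔ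
  have hrsub : bx r (r ^ 2) ⊆ bx 4 16 := bx_mono (by linarith) (by linarith)
  have hΔe : ∫ z in bx 4 16 \ bx r (r ^ 2), ‖Vt z‖ ^ 2 = Δ := by
    rw [hΔ, ← setIntegral_sdiff (meas_bx _ _) (hVt _ le_rfl) hrsub]
  have hΔ1 : ∫ z in bx 2 4 \ bx (1 / 4) (1 / 16), ‖Vt z‖ ^ 2 ≤ Δ := by
    rw [← hΔe]
    apply setIntegral_mono_set (hVt _ sdiff_subset) (Filter.Eventually.of_forall
      (fun z => by positivity))
    exact (sdiff_subset_sdiff (bx_mono (by norm_num) (by norm_num))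
      (bx_mono hr4 hr2')).eventuallyLE
  have hΔ2 : ∫ z in bx 1 1 \ bx r ((1 / 4) ^ L), ‖Vt z‖ ^ 2 ≤ Δ := by
    rw [← hΔe, hr2]
    apply setIntegral_mono_set (hVt _ sdiff_subset) (Filter.Eventually.of_forall
      (fun z => by positivity))
    exact (sdiff_subset_sdiff (bx_mono (by norm_num) (by norm_num)) le_rfl).eventuallyLE
  have hΔ0 : 0 ≤ Δ := by
    rw [← hΔe]; exact integral_nonneg (fun z => by positivity)
  obtain ⟨hca, hcb⟩ := hcac Kf U V Vx Vy Vt hc c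
  rw [← hΦe] at hca hcb
  have hbr : ∀ S ⊆ bx 2 4, ∫ z in S, ‖Vt z‖ ^ 2 ≤ K₁ * Φ := by
    intro S hS
    refine le_trans ?_ hcb
    exact setIntegral_mono_set (hVt _ (bx_mono (by norm_num) (by norm_num)))
      (Filter.Eventually.of_forall (fun z => by positivity)) hS.eventuallyLE
  constructor
  · -- the main estimate
    have htau : ∀ s : ℝ, |s| ≤ 1 / 4 → ∫ z in bx r (r ^ 2), ‖V (vT.fl s z) - V z‖ ^ 2 ≤
        ε * Φ + |Kf ε| * Δ := by
      intro s hs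
      have hmem : MemLp (fun z => V (vT.fl s z) - V z) 2
          (volume.restrict (bx (1 / 2) (3 / 4))) := by
        refine (hc.wt'.sq_le hc.opn (meas_bx _ _) (meas_bx 4 16) hsub s ?_
          (hc.mt.mono_measure (Measure.restrict_mono hsub le_rfl))).1
        intro z hz σ hσ
        have h1 : |σ * s| ≤ 1 / 4 := by
          rw [abs_mul, abs_of_nonneg hσ.1]
          nlinarith [hσ.1, hσ.2, abs_nonneg s]
        refine ⟨?_, ?_, ?_⟩
        · simp only [VF.fl, vT]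
          simp only [mul_zero, add_zero]
          exact hz.1.trans (by norm_num)
        · simp only [VF.fl, vT]
          simp only [mul_zero, add_zero]
          exact hz.2.1.trans (by norm_num)
        · simp only [VF.fl, vT]
          have h2 := hz.2.2
          have h3 : |z.2.2 + σ * s * (1 + 0 * z.1 + 0 * z.2.1)| ≤ |z.2.2| + |σ * s| := by
            have : z.2.2 + σ * s * (1 + 0 * z.1 + 0 * z.2.1) = z.2.2 + σ * s := by ring
            rw [this]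
            exact abs_add_le _ _
          linarith
      have h1 := hc.td ε hε0 s (by linarith) c
      have h2 : ∫ z in bx r (r ^ 2), ‖V (vT.fl s z) - V z‖ ^ 2 ≤
          ∫ z in bx (1 / 2) (3 / 4), ‖V (vT.fl s z) - V z‖ ^ 2 := by
        refine setIntegral_mono_set (hmem.integrable_norm_pow (by norm_num))
          (Filter.Eventually.of_forall (fun z => by positivity)) ?_
        exact (bx_mono (by linarith) (by linarith)).eventuallyLE
      have h3 : ∫ z in bx 2 4, ‖V z - c‖ ^ 2 ≤ Φ := by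
        rw [hΦe]
        exact setIntegral_mono_set (hVc _ le_rfl)
          (Filter.Eventually.of_forall (fun z => by positivity))
          (bx_mono (by norm_num) (by norm_num)).eventuallyLE
      have h4 : Kf ε * ∫ z in bx 2 4 \ bx (1 / 4) (1 / 16), ‖Vt z‖ ^ 2 ≤ |Kf ε| * Δ := by
        have h5 : (0 : ℝ) ≤ ∫ z in bx 2 4 \ bx (1 / 4) (1 / 16), ‖Vt z‖ ^ 2 :=
          integral_nonneg (fun z => by positivity)
        calc _ ≤ |Kf ε| * ∫ z in bx 2 4 \ bx (1 / 4) (1 / 16), ‖Vt z‖ ^ 2 :=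
              mul_le_mul_of_nonneg_right (le_abs_self _) h5
          _ ≤ _ := mul_le_mul_of_nonneg_left hΔ1 (abs_nonneg _)
      have h6 := mul_le_mul_of_nonneg_left h3 hε0.le
      linarith
    have hsmall := hsm U V Vx Vy Vt r (ε * Φ + |Kf ε| * Δ) hc.opn hr0 (by linarith)
      ((bx_mono (by norm_num) (by norm_num)).trans hsub) hc.m0 hc.mx hc.my hc.mt hc.wx hc.wy
      hc.wt' htau
    have hP := hit Kf U V Vx Vy Vt hc c L (by omega)
    rw [← hΦe] at hP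
    have hP' : ∫ z in bx r (1 / 2), (‖Vx z‖ ^ 2 + ‖Vy z‖ ^ 2) ≤ e L * Φ + C₂ * 4 ^ L * Δ := by
      refine hP.trans ?_
      have := mul_le_mul_of_nonneg_left hΔ2 (by positivity : 0 ≤ C₂ * 4 ^ L)
      linarith
    have hb' : ∫ z in bx r (1 / 2), ‖Vt z‖ ^ 2 ≤ K₁ * Φ :=
      hbr _ (bx_mono (by linarith) (by norm_num))
    have h7 : C₃ * r ^ 4 * ((∫ z in bx r (1 / 2), (‖Vx z‖ ^ 2 + ‖Vy z‖ ^ 2)) +
        r ^ 2 * ∫ z in bx r (1 / 2), ‖Vt z‖ ^ 2) ≤
        C₃ * r ^ 4 * ((e L * Φ + C₂ * 4 ^ L * Δ) + r ^ 2 * (K₁ * Φ)) := by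
      apply mul_le_mul_of_nonneg_left _ (by positivity)
      have := mul_le_mul_of_nonneg_left hb' (by positivity : 0 ≤ r ^ 2)
      linarith
    have h8 : exc V (bx r (r ^ 2)) ≤ C₃ * (ε * Φ + |Kf ε| * Δ) +
        C₃ * r ^ 4 * ((e L * Φ + C₂ * 4 ^ L * Δ) + r ^ 2 * (K₁ * Φ)) := by
      linarith
    refine h8.trans ?_
    have h9 : C₃ * (e L + r ^ 2 * K₁) ≤ 1 / 1024 := by rw [hr2]; exact hL.le
    have h10 : C₃ * ε * Φ ≤ r ^ 4 / 1024 * Φ := mul_le_mul_of_nonneg_right hεC hΦ0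
    have h11 : r ^ 4 * (C₃ * (e L + r ^ 2 * K₁)) * Φ ≤ r ^ 4 * (1 / 1024) * Φ := by
      apply mul_le_mul_of_nonneg_right _ hΦ0
      exact mul_le_mul_of_nonneg_left h9 (by positivity)
    have h12 : (r / 4) ^ 4 * (1 / 2 * Φ + (256 * D / r ^ 4 + K₁) * Δ) =
        r ^ 4 / 512 * Φ + D * Δ + (r / 4) ^ 4 * (K₁ * Δ) := by
      field_simp
      ring
    rw [h12]
    have h13 : 0 ≤ (r / 4) ^ 4 * (K₁ * Δ) := by positivity
    have h14 : C₃ * (ε * Φ + |Kf ε| * Δ) +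
        C₃ * r ^ 4 * ((e L * Φ + C₂ * 4 ^ L * Δ) + r ^ 2 * (K₁ * Φ)) =
        C₃ * ε * Φ + r ^ 4 * (C₃ * (e L + r ^ 2 * K₁)) * Φ + D * Δ := by
      rw [hD]; ring
    rw [h14]
    linarith
  · refine (hbr _ (bx_mono (by linarith) (by linarith))).trans ?_
    apply mul_le_mul_of_nonneg_right _ hΦ0
    have : 0 ≤ 256 * D / r ^ 4 := by positivity
    linarith

end PLH
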