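import Pool.Agent.Lib.PLH.T3
import Pool.Agent.Lib.PLH.T8

/-!
MODULE R1 (200 lines). The difference in `t` is controlled by the horizontal gradient.

Let `k = √|s| ≤ 1`. For `s ≥ 0`: `(0,0,s) = (k,0,0)(0,k,0)(-k,0,0)(0,-k,0)`, so
`vT.fl s z = vY.fl (-k) (vX.fl (-k) (vY.fl k (vX.fl k z)))` (right multiplications in this order);
for `s < 0`: `vT.fl s z = vX.fl (-k) (vY.fl (-k) (vX.fl k (vY.fl k z)))` (`(0,k,0)(k,0,0)(0,-k,0)(-k,0,0)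
= (0,0,-k²)`). So `f(vT.fl s z) - f z` is a sum of four differences `f(F.fl (±k) w_j) - f(w_j)` with
`w_j` the image of `z` under a measure preserving map; `‖a+b+c+d‖² ≤ 4(...)`. Each is estimated by
`WD.lsq_le` for the set of the points `w_j`, `z ∈ S` (image of `S` under a homeomorphism, measurable):
`≤ k² ∫_{U'} ‖g_i‖²`. The intermediate points satisfy `‖w - z‖ ≤ 4 k (1+‖z‖)`: each of the first two
coordinates moves by at most `k`, the last one by at most the sum of four terms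
`k(|coordinate| + k)/2`. Change of variables: `lintegral_comp` with `VF.mp`.
-/

open MeasureTheory Set Filter Topology
open scoped ContDiff ENNReal

namespace PLH

variable {E : Type*} [NormedAddCommGroup E] [NormedSpace ℝ E] [CompleteSpace E]

/-- The points reached from `z` after `n` steps of length at most `k`. -/
private def Q4 (k n : ℝ) (z y : Pt) : Prop :=
  |y.1 - z.1| ≤ n * k ∧ |y.2.1 - z.2.1| ≤ n * k ∧
    |y.2.2 - z.2.2| ≤ k / 2 * (n * ‖z‖ + n * (n - 1) / 2 * k)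

private theorem q4_zero (k : ℝ) (z : Pt) : Q4 k 0 z z := by
  refine ⟨?_, ?_, ?_⟩ <;> simp

private theorem q4_step {k n : ℝ} (hk : 0 ≤ k) {z y : Pt} (h : Q4 k n z y)
    {F : VF} (hF : F = vX ∨ F = vY) {s : ℝ} (hs : |s| ≤ k) : Q4 k (n + 1) z (F.fl s y) := by
  obtain ⟨h1, h2, h3⟩ := h
  have hx : |z.1| ≤ ‖z‖ := norm_fst_le z
  have hy : |z.2.1| ≤ ‖z‖ := (norm_fst_le z.2).trans (norm_snd_le z)
  have hyx : |y.1| ≤ ‖z‖ + n * k := by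
    calc |y.1| = |z.1 + (y.1 - z.1)| := by ring_nf
      _ ≤ |z.1| + |y.1 - z.1| := abs_add_le _ _
      _ ≤ _ := add_le_add hx h1
  have hyy : |y.2.1| ≤ ‖z‖ + n * k := by
    calc |y.2.1| = |z.2.1 + (y.2.1 - z.2.1)| := by ring_nf
      _ ≤ |z.2.1| + |y.2.1 - z.2.1| := abs_add_le _ _
      _ ≤ _ := add_le_add hy h2
  have key : ∀ c : ℝ, |c| ≤ ‖z‖ + n * k → |y.2.2 + s * (c / 2) - z.2.2| ≤
      k / 2 * ((n + 1) * ‖z‖ + (n + 1) * (n + 1 - 1) / 2 * k) := by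
    intro c hc
    calc |y.2.2 + s * (c / 2) - z.2.2| = |(y.2.2 - z.2.2) + s * (c / 2)| := by ring_nf
      _ ≤ |y.2.2 - z.2.2| + |s * (c / 2)| := abs_add_le _ _
      _ = |y.2.2 - z.2.2| + |s| * |c| / 2 := by
          rw [abs_mul, abs_div, abs_of_pos (by norm_num : (0 : ℝ) < 2)]; ring
      _ ≤ k / 2 * (n * ‖z‖ + n * (n - 1) / 2 * k) + k * (‖z‖ + n * k) / 2 := by
          have : |s| * |c| ≤ k * (‖z‖ + n * k) := mul_le_mul hs hc (abs_nonneg _) hk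
          linarith
      _ = _ := by ring
  have hsk : |s| ≤ k := hs
  rcases hF with rfl | rfl
  · refine ⟨?_, ?_, ?_⟩
    · calc |(vX.fl s y).1 - z.1| = |(y.1 - z.1) + s| := by simp only [VF.fl, vX]; ring_nf
        _ ≤ |y.1 - z.1| + |s| := abs_add_le _ _
        _ ≤ _ := by linarith
    · calc |(vX.fl s y).2.1 - z.2.1| = |y.2.1 - z.2.1| := by simp only [VF.fl, vX]; ring_nf
        _ ≤ _ := by linarith
    · have := key (-y.2.1) (by rw [abs_neg]; exact hyy)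
      calc |(vX.fl s y).2.2 - z.2.2| = |y.2.2 + s * (-y.2.1 / 2) - z.2.2| := by
            simp only [VF.fl, vX]; ring_nf
        _ ≤ _ := this
  · refine ⟨?_, ?_, ?_⟩
    · calc |(vY.fl s y).1 - z.1| = |y.1 - z.1| := by simp only [VF.fl, vY]; ring_nf
        _ ≤ _ := by linarith
    · calc |(vY.fl s y).2.1 - z.2.1| = |(y.2.1 - z.2.1) + s| := by
            simp only [VF.fl, vY]; ring_nf
        _ ≤ |y.2.1 - z.2.1| + |s| := abs_add_le _ _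
        _ ≤ _ := by linarith
    · have := key y.1 hyx
      calc |(vY.fl s y).2.2 - z.2.2| = |y.2.2 + s * (y.1 / 2) - z.2.2| := by
            simp only [VF.fl, vY]; ring_nf
        _ ≤ _ := this

private theorem q4_norm {k n : ℝ} (hk : 0 ≤ k) (hk1 : k ≤ 1) (hn0 : 0 ≤ n) (hn : n ≤ 4)
    {z y : Pt} (h : Q4 k n z y) : ‖y - z‖ ≤ 4 * k * (1 + ‖z‖) := by
  obtain ⟨h1, h2, h3⟩ := h
  have hz : 0 ≤ ‖z‖ := norm_nonneg z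
  have hkz : 0 ≤ k * ‖z‖ := mul_nonneg hk hz
  have a1 : n * k ≤ 4 * k * (1 + ‖z‖) := by nlinarith
  have a2 : k / 2 * (n * ‖z‖ + n * (n - 1) / 2 * k) ≤ 4 * k * (1 + ‖z‖) := by
    have b1 : n * ‖z‖ ≤ 4 * ‖z‖ := mul_le_mul_of_nonneg_right hn hz
    have b2 : n * (n - 1) / 2 ≤ 6 := by nlinarith
    have b3 : n * (n - 1) / 2 * k ≤ 6 * 1 := by
      calc n * (n - 1) / 2 * k ≤ 6 * k := mul_le_mul_of_nonneg_right b2 hk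
        _ ≤ 6 * 1 := by linarith
    have b4 : k / 2 * (n * ‖z‖ + n * (n - 1) / 2 * k) ≤ k / 2 * (4 * ‖z‖ + 6) :=
      mul_le_mul_of_nonneg_left (by linarith) (by linarith)
    nlinarith
  exact norm_prod_le_iff.2 ⟨h1.trans a1, norm_prod_le_iff.2 ⟨h2.trans a1, h3.trans a2⟩⟩

omit [NormedSpace ℝ E] [CompleteSpace E] in
private theorem e4 (a b c d : E) :
    ‖a + b + c + d‖ₑ ^ 2 ≤ 4 * (‖a‖ₑ ^ 2 + ‖b‖ₑ ^ 2 + ‖c‖ₑ ^ 2 + ‖d‖ₑ ^ 2) := by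
  have h1 : ‖a + b + c + d‖ ^ 2 ≤ 4 * (‖a‖ ^ 2 + ‖b‖ ^ 2 + ‖c‖ ^ 2 + ‖d‖ ^ 2) := by
    have h2 : ‖a + b + c + d‖ ≤ ‖a‖ + ‖b‖ + ‖c‖ + ‖d‖ := by
      refine (norm_add_le _ _).trans ?_
      gcongr
      refine (norm_add_le _ _).trans ?_
      gcongr
      exact norm_add_le _ _
    have h3 : ‖a + b + c + d‖ ^ 2 ≤ (‖a‖ + ‖b‖ + ‖c‖ + ‖d‖) ^ 2 :=
      pow_le_pow_left₀ (norm_nonneg _) h2 2
    nlinarith [sq_nonneg (‖a‖ - ‖b‖), sq_nonneg (‖a‖ - ‖c‖), sq_nonneg (‖a‖ - ‖d‖),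
      sq_nonneg (‖b‖ - ‖c‖), sq_nonneg (‖b‖ - ‖d‖), sq_nonneg (‖c‖ - ‖d‖)]
  have h4 : ∀ x : E, ‖x‖ₑ ^ 2 = ENNReal.ofReal (‖x‖ ^ 2) := fun x => by
    rw [← ofReal_norm, ENNReal.ofReal_pow (norm_nonneg _)]
  rw [h4, h4, h4, h4, h4, ← ENNReal.ofReal_add (by positivity) (by positivity),
    ← ENNReal.ofReal_add (by positivity) (by positivity),
    ← ENNReal.ofReal_add (by positivity) (by positivity),
    show (4 : ℝ≥0∞) = ENNReal.ofReal 4 by simp, ← ENNReal.ofReal_mul (by norm_num)]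
  exact ENNReal.ofReal_le_ofReal h1

section path

variable {U : Set Pt} {f g₀ g₁ : Pt → E} {S U' : Set Pt} {k : ℝ}

private theorem stp (hU : IsOpen U) (hX : WD vX U f g₀) (hY : WD vY U f g₁)
    (hS : MeasurableSet S) (hU' : MeasurableSet U') (hU'U : U' ⊆ U) (hk : 0 ≤ k) (hk1 : k ≤ 1)
    (hp : ∀ z ∈ S, ∀ w : Pt, ‖w - z‖ ≤ 4 * k * (1 + ‖z‖) → w ∈ U')
    (Φ : Pt ≃ₜ Pt) (hΦ : MeasurePreserving Φ volume volume) {n : ℝ} (hn0 : 0 ≤ n) (hn : n ≤ 3)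
    (hQ : ∀ z, Q4 k n z (Φ z)) {F : VF} (hF : F = vX ∨ F = vY) {s : ℝ} (hs : |s| ≤ k) :
    ∫⁻ z in S, ‖f (F.fl s (Φ z)) - f (Φ z)‖ₑ ^ 2 ≤
      ENNReal.ofReal (k ^ 2) * ∫⁻ z in U', (‖g₀ z‖ₑ ^ 2 + ‖g₁ z‖ₑ ^ 2) := by
  have hS' : MeasurableSet (Φ '' S) := Φ.measurableEmbedding.measurableSet_image.2 hS
  have e1 := hΦ.setLIntegral_comp_emb Φ.measurableEmbedding
    (fun w => ‖f (F.fl s w) - f w‖ₑ ^ 2) S
  rw [e1]
  have hp' : ∀ w ∈ Φ '' S, ∀ σ ∈ Icc (0 : ℝ) 1, F.fl (σ * s) w ∈ U' := by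
    rintro w ⟨z, hz, rfl⟩ σ hσ
    refine hp z hz _ (q4_norm hk hk1 (by linarith) (by linarith) (q4_step hk (hQ z) hF ?_))
    rw [abs_mul, abs_of_nonneg hσ.1]
    exact (mul_le_of_le_one_left (abs_nonneg s) hσ.2).trans hs
  have hs2 : s ^ 2 ≤ k ^ 2 := by
    rw [← sq_abs s]
    exact pow_le_pow_left₀ (abs_nonneg s) hs 2
  rcases hF with rfl | rfl
  · refine (hX.lsq_le hU hS' hU' hU'U s hp').trans ?_
    refine mul_le_mul' (ENNReal.ofReal_le_ofReal hs2) (lintegral_mono fun z => ?_)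
    exact le_self_add
  · refine (hY.lsq_le hU hS' hU' hU'U s hp').trans ?_
    refine mul_le_mul' (ENNReal.ofReal_le_ofReal hs2) (lintegral_mono fun z => ?_)
    exact le_add_self

omit [CompleteSpace E] in
private theorem aem (hX : WD vX U f g₀) (hU'U : U' ⊆ U) (_hS : MeasurableSet S)
    (_hU : IsOpen U) (Φ : Pt ≃ₜ Pt) (hΦ : MeasurePreserving Φ volume volume)
    (hm : ∀ z ∈ S, Φ z ∈ U') : AEStronglyMeasurable (fun z => f (Φ z)) (volume.restrict S) := by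
  have h1 : AEStronglyMeasurable f (volume.restrict U) := hX.lf.aestronglyMeasurable
  have h2 := h1.comp_measurePreserving (hΦ.restrict_preimage_emb Φ.measurableEmbedding U)
  exact h2.mono_measure (Measure.restrict_mono
    (show S ⊆ Φ ⁻¹' U from fun z hz => hU'U (hm z hz)) le_rfl)

private theorem four (hU : IsOpen U) (hX : WD vX U f g₀) (hY : WD vY U f g₁)
    (hS : MeasurableSet S) (hU' : MeasurableSet U') (hU'U : U' ⊆ U) (hk : 0 ≤ k) (hk1 : k ≤ 1)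
    (hp : ∀ z ∈ S, ∀ w : Pt, ‖w - z‖ ≤ 4 * k * (1 + ‖z‖) → w ∈ U')
    {F₁ F₂ F₃ F₄ : VF} (h₁ : F₁ = vX ∨ F₁ = vY) (h₂ : F₂ = vX ∨ F₂ = vY)
    (h₃ : F₃ = vX ∨ F₃ = vY) (h₄ : F₄ = vX ∨ F₄ = vY) {s₁ s₂ s₃ s₄ : ℝ} (k₁ : |s₁| ≤ k)
    (k₂ : |s₂| ≤ k) (k₃ : |s₃| ≤ k) (k₄ : |s₄| ≤ k) :
    ∫⁻ z in S, ‖f (F₄.fl s₄ (F₃.fl s₃ (F₂.fl s₂ (F₁.fl s₁ z)))) - f z‖ₑ ^ 2 ≤
      ENNReal.ofReal (16 * k ^ 2) * ∫⁻ z in U', (‖g₀ z‖ₑ ^ 2 + ‖g₁ z‖ₑ ^ 2) := by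
  obtain ⟨Φ₁, e₁⟩ : ∃ Φ : Pt ≃ₜ Pt, Φ = F₁.flH s₁ := ⟨_, rfl⟩
  obtain ⟨Φ₂, e₂⟩ : ∃ Φ : Pt ≃ₜ Pt, Φ = Φ₁.trans (F₂.flH s₂) := ⟨_, rfl⟩
  obtain ⟨Φ₃, e₃⟩ : ∃ Φ : Pt ≃ₜ Pt, Φ = Φ₂.trans (F₃.flH s₃) := ⟨_, rfl⟩
  obtain ⟨Φ₄, e₄⟩ : ∃ Φ : Pt ≃ₜ Pt, Φ = Φ₃.trans (F₄.flH s₄) := ⟨_, rfl⟩
  have a₁ : ∀ z, Φ₁ z = F₁.fl s₁ z := fun z => by rw [e₁]; rfl
  have a₂ : ∀ z, Φ₂ z = F₂.fl s₂ (Φ₁ z) := fun z => by rw [e₂]; rfl
  have a₃ : ∀ z, Φ₃ z = F₃.fl s₃ (Φ₂ z) := fun z => by rw [e₃]; rfl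
  have a₄ : ∀ z, Φ₄ z = F₄.fl s₄ (Φ₃ z) := fun z => by rw [e₄]; rfl
  have m₀ : MeasurePreserving (Homeomorph.refl Pt) (volume : Measure Pt) volume :=
    MeasurePreserving.id _
  have m₁ : MeasurePreserving Φ₁ volume volume := by rw [e₁]; exact F₁.mp s₁
  have m₂ : MeasurePreserving Φ₂ volume volume := by rw [e₂]; exact (F₂.mp s₂).comp m₁
  have m₃ : MeasurePreserving Φ₃ volume volume := by rw [e₃]; exact (F₃.mp s₃).comp m₂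
  have m₄ : MeasurePreserving Φ₄ volume volume := by rw [e₄]; exact (F₄.mp s₄).comp m₃
  have q₀ : ∀ z, Q4 k 0 z (Homeomorph.refl Pt z) := fun z => q4_zero k z
  have q₁ : ∀ z, Q4 k 1 z (Φ₁ z) := fun z => by
    have := q4_step hk (q4_zero k z) h₁ k₁
    rw [zero_add] at this
    rw [a₁]
    exact this
  have q₂ : ∀ z, Q4 k 2 z (Φ₂ z) := fun z => by
    have := q4_step hk (q₁ z) h₂ k₂
    rw [show (1 : ℝ) + 1 = 2 by norm_num] at this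
    rw [a₂]
    exact this
  have q₃ : ∀ z, Q4 k 3 z (Φ₃ z) := fun z => by
    have := q4_step hk (q₂ z) h₃ k₃
    rw [show (2 : ℝ) + 1 = 3 by norm_num] at this
    rw [a₃]
    exact this
  have q₄ : ∀ z, Q4 k 4 z (Φ₄ z) := fun z => by
    have := q4_step hk (q₃ z) h₄ k₄
    rw [show (3 : ℝ) + 1 = 4 by norm_num] at this
    rw [a₄]
    exact this
  have i₁ := stp hU hX hY hS hU' hU'U hk hk1 hp (Homeomorph.refl Pt) m₀ le_rfl (by norm_num) q₀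
    h₁ k₁
  have i₂ := stp hU hX hY hS hU' hU'U hk hk1 hp Φ₁ m₁ (by norm_num) (by norm_num) q₁ h₂ k₂
  have i₃ := stp hU hX hY hS hU' hU'U hk hk1 hp Φ₂ m₂ (by norm_num) (by norm_num) q₂ h₃ k₃
  have i₄ := stp hU hX hY hS hU' hU'U hk hk1 hp Φ₃ m₃ (by norm_num) (by norm_num) q₃ h₄ k₄
  have b₀ := aem hX hU'U hS hU (Homeomorph.refl Pt) m₀ fun z hz =>
    hp z hz _ (q4_norm hk hk1 le_rfl (by norm_num) (q₀ z))
  have b₁ := aem hX hU'U hS hU Φ₁ m₁ fun z hz =>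
    hp z hz _ (q4_norm hk hk1 (by norm_num) (by norm_num) (q₁ z))
  have b₂ := aem hX hU'U hS hU Φ₂ m₂ fun z hz =>
    hp z hz _ (q4_norm hk hk1 (by norm_num) (by norm_num) (q₂ z))
  have b₃ := aem hX hU'U hS hU Φ₃ m₃ fun z hz =>
    hp z hz _ (q4_norm hk hk1 (by norm_num) (by norm_num) (q₃ z))
  have b₄ := aem hX hU'U hS hU Φ₄ m₄ fun z hz =>
    hp z hz _ (q4_norm hk hk1 (by norm_num) (by norm_num) (q₄ z))
  simp only [Homeomorph.refl_apply] at i₁ b₀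
  simp only [← a₁, ← a₂, ← a₃, ← a₄] at i₁ i₂ i₃ i₄ ⊢
  have c₁ : AEMeasurable (fun z => ‖f (Φ₁ z) - f z‖ₑ ^ 2) (volume.restrict S) :=
    (b₁.sub b₀).enorm.pow_const 2
  have c₂ : AEMeasurable (fun z => ‖f (Φ₂ z) - f (Φ₁ z)‖ₑ ^ 2) (volume.restrict S) :=
    (b₂.sub b₁).enorm.pow_const 2
  have c₃ : AEMeasurable (fun z => ‖f (Φ₃ z) - f (Φ₂ z)‖ₑ ^ 2) (volume.restrict S) :=
    (b₃.sub b₂).enorm.pow_const 2
  have c₁₂ : AEMeasurable (fun z => ‖f (Φ₁ z) - f z‖ₑ ^ 2 + ‖f (Φ₂ z) - f (Φ₁ z)‖ₑ ^ 2)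
      (volume.restrict S) := c₁.add c₂
  have c₁₃ : AEMeasurable (fun z => ‖f (Φ₁ z) - f z‖ₑ ^ 2 + ‖f (Φ₂ z) - f (Φ₁ z)‖ₑ ^ 2 +
      ‖f (Φ₃ z) - f (Φ₂ z)‖ₑ ^ 2) (volume.restrict S) := c₁₂.add c₃
  calc ∫⁻ z in S, ‖f (Φ₄ z) - f z‖ₑ ^ 2
      ≤ ∫⁻ z in S, 4 * (‖f (Φ₁ z) - f z‖ₑ ^ 2 + ‖f (Φ₂ z) - f (Φ₁ z)‖ₑ ^ 2 +
        ‖f (Φ₃ z) - f (Φ₂ z)‖ₑ ^ 2 + ‖f (Φ₄ z) - f (Φ₃ z)‖ₑ ^ 2) := by
        refine lintegral_mono fun z => ?_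
        have : f (Φ₄ z) - f z = (f (Φ₁ z) - f z) + (f (Φ₂ z) - f (Φ₁ z)) +
            (f (Φ₃ z) - f (Φ₂ z)) + (f (Φ₄ z) - f (Φ₃ z)) := by abel
        rw [this]
        exact e4 _ _ _ _
    _ = 4 * (((∫⁻ z in S, ‖f (Φ₁ z) - f z‖ₑ ^ 2) + ∫⁻ z in S, ‖f (Φ₂ z) - f (Φ₁ z)‖ₑ ^ 2) +
        (∫⁻ z in S, ‖f (Φ₃ z) - f (Φ₂ z)‖ₑ ^ 2) + ∫⁻ z in S, ‖f (Φ₄ z) - f (Φ₃ z)‖ₑ ^ 2) := by
        rw [lintegral_const_mul' _ _ (by norm_num), lintegral_add_left' c₁₃,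
          lintegral_add_left' c₁₂, lintegral_add_left' c₁]
    _ ≤ 4 * (((ENNReal.ofReal (k ^ 2) * ∫⁻ z in U', (‖g₀ z‖ₑ ^ 2 + ‖g₁ z‖ₑ ^ 2)) +
        ENNReal.ofReal (k ^ 2) * ∫⁻ z in U', (‖g₀ z‖ₑ ^ 2 + ‖g₁ z‖ₑ ^ 2)) +
        (ENNReal.ofReal (k ^ 2) * ∫⁻ z in U', (‖g₀ z‖ₑ ^ 2 + ‖g₁ z‖ₑ ^ 2)) +
        ENNReal.ofReal (k ^ 2) * ∫⁻ z in U', (‖g₀ z‖ₑ ^ 2 + ‖g₁ z‖ₑ ^ 2)) :=
        mul_le_mul_right (add_le_add (add_le_add (add_le_add i₁ i₂) i₃) i₄) 4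
    _ = _ := by
        rw [ENNReal.ofReal_mul (by norm_num), show ENNReal.ofReal 16 = 16 by simp]
        ring

end path

theorem half_T {U : Set Pt} (hU : IsOpen U) {f g₀ g₁ : Pt → E} (hX : WD vX U f g₀)
    (hY : WD vY U f g₁) {S U' : Set Pt} (hS : MeasurableSet S) (hU' : MeasurableSet U')
    (hU'U : U' ⊆ U) {s : ℝ} (hs : |s| ≤ 1)
    (hp : ∀ z ∈ S, ∀ w : Pt, ‖w - z‖ ≤ 4 * Real.sqrt |s| * (1 + ‖z‖) → w ∈ U') :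
    ∫⁻ z in S, ‖f (vT.fl s z) - f z‖ₑ ^ 2 ≤
      ENNReal.ofReal (16 * |s|) * ∫⁻ z in U', (‖g₀ z‖ₑ ^ 2 + ‖g₁ z‖ₑ ^ 2) := by
  obtain ⟨k, hke⟩ : ∃ k, k = Real.sqrt |s| := ⟨_, rfl⟩
  rw [← hke] at hp
  have hk : 0 ≤ k := by rw [hke]; exact Real.sqrt_nonneg _
  have hk1 : k ≤ 1 := by rw [hke]; exact Real.sqrt_le_one.2 hs
  have hkk : k ^ 2 = |s| := by rw [hke]; exact Real.sq_sqrt (abs_nonneg s)
  have hka : |k| ≤ k := (abs_of_nonneg hk).le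
  have hkb : |-k| ≤ k := by rw [abs_neg]; exact hka
  rcases le_total 0 s with h0 | h0
  · have h1 := four hU hX hY hS hU' hU'U hk hk1 hp (Or.inl rfl) (Or.inr rfl) (Or.inl rfl)
      (Or.inr rfl) hka hka hkb hkb
    rw [hkk] at h1
    have h2 : ∀ z, vY.fl (-k) (vX.fl (-k) (vY.fl k (vX.fl k z))) = vT.fl s z := by
      intro z
      have h3 : k ^ 2 = s := by rw [hkk, abs_of_nonneg h0]
      simp only [VF.fl, vX, vY, vT, Prod.mk.injEq]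
      refine ⟨by ring, by ring, ?_⟩
      linear_combination h3
    simp only [h2] at h1
    exact h1
  · have h1 := four hU hX hY hS hU' hU'U hk hk1 hp (Or.inr rfl) (Or.inl rfl) (Or.inr rfl)
      (Or.inl rfl) hka hka hkb hkb
    rw [hkk] at h1
    have h2 : ∀ z, vX.fl (-k) (vY.fl (-k) (vX.fl k (vY.fl k z))) = vT.fl s z := by
      intro z
      have h3 : k ^ 2 = -s := by rw [hkk, abs_of_nonpos h0]
      simp only [VF.fl, vX, vY, vT, Prod.mk.injEq]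
      refine ⟨by ring, by ring, ?_⟩
      linear_combination -h3
    simp only [h2] at h1
    exact h1

end PLH
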