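import Pool.Agent.Lib.PLH.T11
import Pool.Agent.Lib.PLH.A8

/-!
MODULE R2 (200 lines). Caccioppoli inequality for the difference of two solutions (constants depend
on the ellipticity bounds of `a` and on the cut-off).

Let `L`, `l` be as in `nice_lip`, `w = u - u'`, `σ = A(ξ) - A(ξ')` (`L2l` since `A` is Lipschitz and
`A 0 = 0`), `Sol0 U σ` (difference). `SolR.test'` with `h = 0`, `f = η • w` and the cut-off `η`
(or `test'` with cut-off `η²` and `f = w`): `0 = ∫ η² ⟨σ, ξ-ξ'⟩ + ∫ 2η (Xη ⟨σ 0, w⟩ + Yη ⟨σ 1, w⟩)`, so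
`l ∫ η² ‖ξ-ξ'‖² ≤ 2 ∫ |η| (|Xη|+|Yη|) L ‖ξ-ξ'‖ ‖w‖ ≤ (l/2) ∫ η²‖ξ-ξ'‖² + C ∫_{tsupport η} ‖w‖²`,
`C = C(sup |Xη|, sup |Yη|, L, l)`. `cac_K`: a smooth cut-off which is `1` on `K`, with compact
support in `U`.
-/

/-!
MODULE R2 (200 lines). Caccioppoli inequality for the difference of two solutions (constants depend
on the ellipticity bounds of `a` and on the cut-off).

Let `L`, `l` be as in `nice_lip`, `w = u - u'`, `σ = A(ξ) - A(ξ')` (`L2l` since `A` is Lipschitz and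
`A 0 = 0`), `Sol0 U σ` (difference). `SolR.test'` with `h = 0`, `f = η • w` and the cut-off `η`
(or `test'` with cut-off `η²` and `f = w`): `0 = ∫ η² ⟨σ, ξ-ξ'⟩ + ∫ 2η (Xη ⟨σ 0, w⟩ + Yη ⟨σ 1, w⟩)`, so
`l ∫ η² ‖ξ-ξ'‖² ≤ 2 ∫ |η| (|Xη|+|Yη|) L ‖ξ-ξ'‖ ‖w‖ ≤ (l/2) ∫ η²‖ξ-ξ'‖² + C ∫_{tsupport η} ‖w‖²`,
`C = C(sup |Xη|, sup |Yη|, L, l)`. `cac_K`: a smooth cut-off which is `1` on `K`, with compact
support in `U`.
-/

open MeasureTheory Set Filter Topology
open scoped ContDiff ENNReal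

namespace PLH

variable {W : Type*} [NormedAddCommGroup W] [InnerProductSpace ℝ W] [FiniteDimensional ℝ W]
variable {m : ℝ} {a : ℝ → ℝ} {U : Set Pt}

private theorem r2_cut {U K : Set Pt} (hU : IsOpen U) (hK : IsCompact K) (hKU : K ⊆ U) :
    ∃ η : Pt → ℝ, Tst U η ∧ ∀ z ∈ K, η z = 1 := by
  obtain ⟨K', hK', hKK', hK'U⟩ := exists_compact_between hK hU hKU
  obtain ⟨f, h1, h0, -⟩ := exists_contMDiffMap_one_nhds_of_subset_interior
    (n := (⊤ : ℕ∞)) (modelWithCornersSelf ℝ Pt) hK.isClosed hKK'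
  have hs : tsupport (f : Pt → ℝ) ⊆ K' := by
    refine closure_minimal ?_ hK'.isClosed
    intro z hz
    by_contra hz'
    exact hz (h0 z hz')
  exact ⟨f, ⟨f.contMDiff.contDiff, hK'.of_isClosed_subset (isClosed_tsupport _) hs,
    hs.trans hK'U⟩, fun z hz => h1.self_of_nhdsSet z hz⟩

private theorem r2_memLp {E : Type*} [NormedAddCommGroup E] [NormedSpace ℝ E] {U : Set Pt}
    {f : Pt → E} (hf : L2l U f) {ζ : Pt → ℝ} (hζ : Tst U ζ) :
    MemLp (fun z => ζ z • f z) 2 volume := by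
  have h1 := hf (tsupport ζ) hζ.cpt hζ.supp
  obtain ⟨C, hC⟩ := hζ.smooth.continuous.bounded_above_of_compact_support hζ.cpt
  have h2 : MemLp ζ ⊤ (volume.restrict (tsupport ζ)) :=
    memLp_top_of_bound hζ.smooth.continuous.aestronglyMeasurable C (ae_of_all _ hC)
  have h3 : MemLp (fun z => ζ z • f z) 2 (volume.restrict (tsupport ζ)) := h1.smul h2
  have h4 := (memLp_indicator_iff_restrict (isClosed_tsupport ζ).measurableSet).2 h3
  have e : (tsupport ζ).indicator (fun z => ζ z • f z) = fun z => ζ z • f z := by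
    rw [indicator_eq_self]
    intro z hz
    have : ζ z ≠ 0 := by
      intro h
      simp [h] at hz
    exact subset_tsupport _ this
  rwa [e] at h4

private theorem r2_int_smul {E : Type*} [NormedAddCommGroup E] [NormedSpace ℝ E] {U : Set Pt}
    {f : Pt → E} (hf : L2l U f) {ζ : Pt → ℝ} (hζ : Tst U ζ) :
    Integrable (fun z => ζ z • f z) := by
  have h1 := r2_memLp hf hζ
  have h2 : IsFiniteMeasure (volume.restrict (tsupport ζ)) := ⟨by
    rw [Measure.restrict_apply_univ]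
    exact hζ.cpt.isCompact.measure_lt_top⟩
  have h3 : IntegrableOn (fun z => ζ z • f z) (tsupport ζ) :=
    (h1.restrict _).integrable (by norm_num)
  refine (integrableOn_iff_integrable_of_support_subset ?_).1 h3
  intro z hz
  refine subset_tsupport ζ ?_
  intro h0
  exact hz (by simp [h0])

private theorem r2_int_inner {E : Type*} [NormedAddCommGroup E] [InnerProductSpace ℝ E]
    {μ : Measure Pt} {f g : Pt → E} (hf : MemLp f 2 μ) (hg : MemLp g 2 μ) :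
    Integrable (fun z => (inner ℝ (f z) (g z) : ℝ)) μ := by
  have h := hf.norm.integrable_mul hg.norm
  refine h.mono (hf.1.inner hg.1) (ae_of_all _ fun z => ?_)
  simp only [Pi.mul_apply, norm_mul, norm_norm]
  exact norm_inner_le_norm _ _

private theorem r2_comp {E : Type*} [NormedAddCommGroup E] [InnerProductSpace ℝ E]
    {μ : Measure Pt} {f : Pt → V2 E} (hf : MemLp f 2 μ) (i : Fin 2) :
    MemLp (fun z => f z i) 2 μ :=
  (PiLp.proj (𝕜 := ℝ) 2 (fun _ : Fin 2 => E) i).comp_memLp' hf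

private theorem r2_pt {E : Type*} [NormedAddCommGroup E] [InnerProductSpace ℝ E]
    {L l e X Y M : ℝ} (hl : 0 < l) (hX : X ^ 2 + Y ^ 2 ≤ M) {σ d : V2 E} {w : E}
    (h1 : ‖σ‖ ≤ L * ‖d‖) (h2 : l * ‖d‖ ^ 2 ≤ inner ℝ σ d) :
    l / 2 * (e ^ 2 * ‖d‖ ^ 2) - 4 * L ^ 2 / l * M * ‖w‖ ^ 2 ≤
      inner ℝ (σ 0) (e ^ 2 • d 0 + (2 * e * X) • w) +
        inner ℝ (σ 1) (e ^ 2 • d 1 + (2 * e * Y) • w) := by
  have e1 : (inner ℝ σ d : ℝ) = inner ℝ (σ 0) (d 0) + inner ℝ (σ 1) (d 1) := by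
    rw [PiLp.inner_apply, Fin.sum_univ_two]
  have key : ∀ (i : Fin 2) (Z : ℝ), -(l / 4 * (e ^ 2 * ‖d‖ ^ 2)) - 4 * L ^ 2 / l * Z ^ 2 * ‖w‖ ^ 2 ≤
      2 * e * Z * inner ℝ (σ i) w := by
    intro i Z
    have h3 : |(inner ℝ (σ i) w : ℝ)| ≤ L * ‖d‖ * ‖w‖ := by
      refine (abs_real_inner_le_norm _ _).trans ?_
      have : ‖σ i‖ ≤ L * ‖d‖ := (PiLp.norm_apply_le σ i).trans h1
      gcongr
    have h4 : -(|2 * e * Z| * (L * ‖d‖ * ‖w‖)) ≤ 2 * e * Z * inner ℝ (σ i) w := by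
      have : |2 * e * Z * inner ℝ (σ i) w| ≤ |2 * e * Z| * (L * ‖d‖ * ‖w‖) := by
        rw [abs_mul]
        gcongr
      exact (neg_le_neg this).trans (neg_abs_le _)
    refine le_trans ?_ h4
    rw [abs_mul, abs_mul, abs_two]
    have h5 : 4 * L ^ 2 / l * Z ^ 2 * ‖w‖ ^ 2 = 4 * (L * |Z| * ‖w‖) ^ 2 / l := by
      rw [mul_pow, mul_pow, sq_abs]; ring
    have h6 : 2 * |e| * |Z| * (L * ‖d‖ * ‖w‖) ≤
        l / 4 * (e ^ 2 * ‖d‖ ^ 2) + 4 * (L * |Z| * ‖w‖) ^ 2 / l := by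
      have h7 : l / 4 * (e ^ 2 * ‖d‖ ^ 2) + 4 * (L * |Z| * ‖w‖) ^ 2 / l -
          2 * |e| * |Z| * (L * ‖d‖ * ‖w‖) =
          (l * (|e| * ‖d‖) - 4 * (L * |Z| * ‖w‖)) ^ 2 / (4 * l) := by
        rw [← sq_abs e]
        field_simp
        ring
      have h8 : 0 ≤ (l * (|e| * ‖d‖) - 4 * (L * |Z| * ‖w‖)) ^ 2 / (4 * l) := by positivity
      linarith
    rw [h5]
    linarith
  have k0 := key 0 X
  have k1 := key 1 Y
  simp only [inner_add_right, real_inner_smul_right]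
  have h9 : 4 * L ^ 2 / l * X ^ 2 * ‖w‖ ^ 2 + 4 * L ^ 2 / l * Y ^ 2 * ‖w‖ ^ 2 ≤
      4 * L ^ 2 / l * M * ‖w‖ ^ 2 := by
    have : 4 * L ^ 2 / l * X ^ 2 * ‖w‖ ^ 2 + 4 * L ^ 2 / l * Y ^ 2 * ‖w‖ ^ 2 =
        4 * L ^ 2 / l * (X ^ 2 + Y ^ 2) * ‖w‖ ^ 2 := by ring
    rw [this]
    gcongr
  have h10 : l * (e ^ 2 * ‖d‖ ^ 2) ≤ e ^ 2 * inner ℝ (σ 0) (d 0) + e ^ 2 * inner ℝ (σ 1) (d 1) := by
    rw [← mul_add, ← e1]
    calc l * (e ^ 2 * ‖d‖ ^ 2) = e ^ 2 * (l * ‖d‖ ^ 2) := by ring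
      _ ≤ _ := by gcongr
  linarith

theorem cac_diff (hm : -1 < m) (ha : Nice m a) (hU : IsOpen U) {η : Pt → ℝ} (hη : Tst U η) :
    ∃ C : ℝ, 0 ≤ C ∧ ∀ (u u' : Pt → W) (ξ ξ' : Pt → V2 W), SolU a U u ξ → SolU a U u' ξ' →
      ∫ z, η z ^ 2 * ‖ξ z - ξ' z‖ ^ 2 ≤ C * ∫ z in tsupport η, ‖u z - u' z‖ ^ 2 := by
  obtain ⟨L, l, hl, hLip, -, hmon⟩ := nice_lip (E := V2 W) hm ha
  have dX : Tst U (der vX η) := hη.der vX
  have dY : Tst U (der vY η) := hη.der vY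
  obtain ⟨CX, hCX⟩ := dX.smooth.continuous.bounded_above_of_compact_support dX.cpt
  obtain ⟨CY, hCY⟩ := dY.smooth.continuous.bounded_above_of_compact_support dY.cpt
  set M : ℝ := CX ^ 2 + CY ^ 2 with hM
  have hMz : ∀ z, (der vX η z) ^ 2 + (der vY η z) ^ 2 ≤ M := by
    intro z
    have h1 : (der vX η z) ^ 2 ≤ CX ^ 2 := by
      have := hCX z
      rw [Real.norm_eq_abs] at this
      rw [← sq_abs]
      gcongr
    have h2 : (der vY η z) ^ 2 ≤ CY ^ 2 := by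
      have := hCY z
      rw [Real.norm_eq_abs] at this
      rw [← sq_abs]
      gcongr
    linarith
  have hη2 : Tst U (fun z => η z * η z) := hη.mul_left hη.smooth
  have dη2 : ∀ (F : VF) z, der F (fun w => η w * η w) z = 2 * η z * der F η z := by
    intro F z
    rw [der_mul F hη.smooth hη.smooth]
    ring
  refine ⟨8 * (L : ℝ) ^ 2 / l ^ 2 * M, by positivity, fun u u' ξ ξ' hs hs' => ?_⟩
  have lu : L2l U (fun z => u z - u' z) := fun K h1 h2 => (hs.lu K h1 h2).sub (hs'.lu K h1 h2)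
  have lξ : L2l U (fun z => ξ z - ξ' z) := fun K h1 h2 => (hs.lξ K h1 h2).sub (hs'.lξ K h1 h2)
  have lA : ∀ {q : Pt → V2 W}, L2l U q → L2l U (fun z => A a (q z)) := fun hq K h1 h2 =>
    hLip.comp_memLp (A_zero a) (hq K h1 h2)
  have lσ : L2l U (fun z => A a (ξ z) - A a (ξ' z)) := fun K h1 h2 =>
    (lA hs.lξ K h1 h2).sub (lA hs'.lξ K h1 h2)
  have ci : ∀ {q : Pt → V2 W} (i : Fin 2), L2l U q → L2l U (fun z => q z i) :=
    fun i hq K h1 h2 => r2_comp (hq K h1 h2) i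
  have sol : SolR U (fun z => A a (ξ z) - A a (ξ' z)) (fun _ => 0) := by
    refine Sol0.solR fun φ hφ => ?_
    have i0 : ∀ {q : Pt → V2 W}, L2l U q →
        Integrable (fun z => der vX φ z • A a (q z) 0 + der vY φ z • A a (q z) 1) := fun hq =>
      (r2_int_smul (ci 0 (lA hq)) (hφ.der vX)).add (r2_int_smul (ci 1 (lA hq)) (hφ.der vY))
    have e0 : (fun z => der vX φ z • (A a (ξ z) - A a (ξ' z)) 0 +
        der vY φ z • (A a (ξ z) - A a (ξ' z)) 1) = fun z =>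
        (der vX φ z • A a (ξ z) 0 + der vY φ z • A a (ξ z) 1) -
        (der vX φ z • A a (ξ' z) 0 + der vY φ z • A a (ξ' z) 1) := by
      funext z
      simp only [PiLp.sub_apply, smul_sub]
      abel
    rw [e0, integral_sub (i0 hs.lξ) (i0 hs'.lξ), hs.sol φ hφ, hs'.sol φ hφ, sub_zero]
  have h0 : L2l U (fun _ : Pt => (0 : W)) := fun K _ _ => MemLp.zero
  have lc : ∀ i : Fin 2, L2l U (fun z => ξ z i - ξ' z i) := fun i K h1 h2 =>
    (ci i hs.lξ K h1 h2).sub (ci i hs'.lξ K h1 h2)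
  have ht := SolR.test' hU lσ h0 sol lu (lc 0) (lc 1) (hs.gx.sub hs'.gx) (hs.gy.sub hs'.gy) hη2
  simp only [inner_zero_left, mul_zero, integral_zero, dη2] at ht
  -- integrability
  have mη : MemLp (fun z => η z • (ξ z - ξ' z)) 2 volume := r2_memLp lξ hη
  have i1 : Integrable (fun z => l / 2 * (η z ^ 2 * ‖ξ z - ξ' z‖ ^ 2)) := by
    have := (mη.integrable_norm_pow (by norm_num)).const_mul (l / 2)
    refine this.congr (ae_of_all _ fun z => ?_)
    simp only [norm_smul, Real.norm_eq_abs, mul_pow, sq_abs]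
  have i2 : Integrable (fun z => (tsupport η).indicator
      (fun z => 4 * (L : ℝ) ^ 2 / l * M * ‖u z - u' z‖ ^ 2) z) := by
    have h1 := lu (tsupport η) hη.cpt hη.supp
    have h2 := (h1.integrable_norm_pow (by norm_num)).const_mul (4 * (L : ℝ) ^ 2 / l * M)
    exact (integrable_indicator_iff (isClosed_tsupport η).measurableSet).2 h2
  have hcut : ∀ {q : Pt → W} , L2l U q → ∀ {p : Pt → W}, L2l U p → ∀ {θ : Pt → ℝ}, Tst U θ →
      Integrable (fun z => (inner ℝ (q z) (θ z • p z) : ℝ)) := by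
    intro q hq p hp θ hθ
    have h1 := r2_int_inner (hq (tsupport θ) hθ.cpt hθ.supp) ((r2_memLp hp hθ).restrict
      (tsupport θ))
    refine (integrableOn_iff_integrable_of_support_subset ?_).1 h1
    intro z hz
    refine subset_tsupport θ ?_
    intro h0
    exact hz (by simp [h0])
  have i3 : Integrable (fun z => (inner ℝ ((A a (ξ z) - A a (ξ' z)) 0)
        ((η z * η z) • (ξ z 0 - ξ' z 0) + (2 * η z * der vX η z) • (u z - u' z)) : ℝ) +
      inner ℝ ((A a (ξ z) - A a (ξ' z)) 1)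
        ((η z * η z) • (ξ z 1 - ξ' z 1) + (2 * η z * der vY η z) • (u z - u' z))) := by
    have t1 : ∀ F : VF, Tst U (fun z => 2 * η z * der F η z) := by
      intro F
      have := hη2.der F
      have e : (der F fun w => η w * η w) = fun z => 2 * η z * der F η z := by
        funext z
        exact dη2 F z
      rwa [e] at this
    simp only [inner_add_right]
    exact ((hcut (ci 0 lσ) (lc 0) hη2).add (hcut (ci 0 lσ) lu (t1 vX))).add
      ((hcut (ci 1 lσ) (lc 1) hη2).add (hcut (ci 1 lσ) lu (t1 vY)))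
  have hpt : ∀ z, l / 2 * (η z ^ 2 * ‖ξ z - ξ' z‖ ^ 2) - (tsupport η).indicator
      (fun z => 4 * (L : ℝ) ^ 2 / l * M * ‖u z - u' z‖ ^ 2) z ≤
      (inner ℝ ((A a (ξ z) - A a (ξ' z)) 0)
        ((η z * η z) • (ξ z 0 - ξ' z 0) + (2 * η z * der vX η z) • (u z - u' z)) : ℝ) +
      inner ℝ ((A a (ξ z) - A a (ξ' z)) 1)
        ((η z * η z) • (ξ z 1 - ξ' z 1) + (2 * η z * der vY η z) • (u z - u' z)) := by
    intro z
    by_cases hz : z ∈ tsupport η
    · rw [indicator_of_mem hz]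
      have h1 : ‖A a (ξ z) - A a (ξ' z)‖ ≤ (L : ℝ) * ‖ξ z - ξ' z‖ := hLip.norm_sub_le _ _
      have h2 := r2_pt (e := η z) (w := u z - u' z) hl (hMz z) h1
        (hmon (ξ z) (ξ' z))
      rw [← pow_two]
      exact h2
    · rw [indicator_of_notMem hz, image_eq_zero_of_notMem_tsupport hz]
      simp
  have hfin := integral_mono (i1.sub i2) i3 hpt
  rw [ht, integral_sub' i1 i2, integral_indicator (isClosed_tsupport η).measurableSet,
    integral_const_mul, integral_const_mul] at hfin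
  have h5 : ∫ z, η z ^ 2 * ‖ξ z - ξ' z‖ ^ 2 ≤
      (2 / l) * (4 * (L : ℝ) ^ 2 / l * M * ∫ z in tsupport η, ‖u z - u' z‖ ^ 2) := by
    rw [div_mul_eq_mul_div, le_div_iff₀ hl]
    linarith
  refine h5.trans (le_of_eq ?_)
  field_simp
  ring

theorem cac_K (hm : -1 < m) (ha : Nice m a) (hU : IsOpen U) {K : Set Pt} (hK : IsCompact K)
    (hKU : K ⊆ U) : ∃ K' : Set Pt, IsCompact K' ∧ K ⊆ K' ∧ K' ⊆ U ∧ ∃ C : ℝ, 0 ≤ C ∧
      ∀ (u u' : Pt → W) (ξ ξ' : Pt → V2 W), SolU a U u ξ → SolU a U u' ξ' →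
        ∫⁻ z in K, ‖ξ z - ξ' z‖ₑ ^ 2 ≤ ENNReal.ofReal C * ∫⁻ z in K', ‖u z - u' z‖ₑ ^ 2 := by
  obtain ⟨η, hη, hη1⟩ := r2_cut hU hK hKU
  obtain ⟨C, hC, hmain⟩ := cac_diff (W := W) hm ha hU hη
  refine ⟨tsupport η, hη.cpt, fun z hz => subset_tsupport _ (by
    rw [Function.mem_support, hη1 z hz]
    exact one_ne_zero), hη.supp, C, hC, fun u u' ξ ξ' hs hs' => ?_⟩
  have h1 := hmain u u' ξ ξ' hs hs'
  have lu : MemLp (fun z => u z - u' z) 2 (volume.restrict (tsupport η)) :=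
    (hs.lu _ hη.cpt hη.supp).sub (hs'.lu _ hη.cpt hη.supp)
  have lξ : L2l U (fun z => ξ z - ξ' z) := fun K h1 h2 => (hs.lξ K h1 h2).sub (hs'.lξ K h1 h2)
  have sq : ∀ {E : Type _} [NormedAddCommGroup E] {μ : Measure Pt} {q : Pt → E},
      MemLp q 2 μ → ∫⁻ z, ‖q z‖ₑ ^ 2 ∂μ = ENNReal.ofReal (∫ z, ‖q z‖ ^ 2 ∂μ) := by
    intro E _ μ q hq
    rw [ofReal_integral_eq_lintegral_ofReal (hq.integrable_norm_pow (by norm_num))
      (ae_of_all _ fun z => by positivity)]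
    refine lintegral_congr fun z => ?_
    rw [ENNReal.ofReal_pow (norm_nonneg _), ofReal_norm]
  rw [sq lu, sq (lξ K hK hKU), ← ENNReal.ofReal_mul hC]
  refine ENNReal.ofReal_le_ofReal (le_trans ?_ h1)
  have mη : MemLp (fun z => η z • (ξ z - ξ' z)) 2 volume := r2_memLp lξ hη
  have i1 : Integrable (fun z => η z ^ 2 * ‖ξ z - ξ' z‖ ^ 2) := by
    have := mη.integrable_norm_pow (by norm_num)
    refine this.congr (ae_of_all _ fun z => ?_)
    simp only [norm_smul, Real.norm_eq_abs, mul_pow, sq_abs]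
  calc ∫ z in K, ‖ξ z - ξ' z‖ ^ 2 = ∫ z in K, η z ^ 2 * ‖ξ z - ξ' z‖ ^ 2 := by
        refine setIntegral_congr_fun hK.measurableSet fun z hz => ?_
        simp only [hη1 z hz, one_pow, one_mul]
    _ ≤ _ := setIntegral_le_integral i1 (ae_of_all _ fun z => by positivity)

end PLH
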