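import Pool.Agent.Lib.PLH.Defs

/-!
MODULE R3 (pure, 120 lines). The iteration for second differences.

`s = 0`: `N 0 ≤ N 0/2` gives `N 0 ≤ 0`. For `0 < |s| ≤ s₀` put `Q(s) = N(s)/|s|^γ`. If
`|s| ≤ s₀/2`: `Q(s) ≤ 2^(γ-1) Q(2s) + M |s|^(β-γ) ≤ Q(2s) + M|s|^(β-γ)` (if `Q(2s) ≥ 0`, true). Iterate
until `s₀/2 < 2^j |s| ≤ s₀`: there `Q ≤ M (2/s₀)^γ`; the sum `∑_i M (2^i|s|)^(β-γ)` over
`2^i |s| ≤ s₀/2` is at most `M s₀^(β-γ)/(1 - 2^(-(β-γ)))`. (Induction on `j` with the statement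
`∀ s, s₀/2^(j+1) < |s| ≤ s₀/2^j → Q(s) ≤ M(2/s₀)^γ + ∑_{i<j} M (s₀/2^(i+1))^(β-γ)`.)
-/

open MeasureTheory Set Filter Topology

namespace PLH

theorem zyg {N : ℝ → ℝ} {s₀ M β γ : ℝ} (hs₀ : 0 < s₀) (hM : 0 ≤ M)
    (hN : ∀ s, |s| ≤ s₀ → 0 ≤ N s ∧ N s ≤ M)
    (h : ∀ s, |s| ≤ s₀ / 2 → N s ≤ N (2 * s) / 2 + M * |s| ^ β)
    (hγ0 : 0 < γ) (hγ : γ ≤ 1) (hγβ : γ < β) :
    ∃ M' : ℝ, 0 ≤ M' ∧ ∀ s, |s| ≤ s₀ → N s ≤ M' * |s| ^ γ := by
  set δ : ℝ := β - γ with hδ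
  have hδ0 : 0 < δ := by rw [hδ]; linarith
  set r : ℝ := (2 ^ δ)⁻¹ with hr
  have h2δ : (1 : ℝ) < 2 ^ δ := Real.one_lt_rpow (by norm_num) hδ0
  have hr0 : 0 < r := by positivity
  have hr1 : r < 1 := by
    rw [hr]
    exact inv_lt_one_of_one_lt₀ h2δ
  set c : ℝ := M * s₀ ^ δ * r / (1 - r) with hc
  have hs0δ : 0 < s₀ ^ δ := Real.rpow_pos_of_pos hs₀ δ
  have hc0 : 0 ≤ c := by
    have : 0 < 1 - r := by linarith
    positivity
  have h2s : 0 < (2 / s₀) ^ γ := Real.rpow_pos_of_pos (by positivity) γ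
  have key : ∀ j : ℕ, ∀ s : ℝ, s₀ < |s| * 2 ^ (j + 1) → |s| * 2 ^ j ≤ s₀ →
      N s ≤ |s| ^ γ * (M * (2 / s₀) ^ γ + c * (1 - r ^ j)) := by
    intro j
    induction j with
    | zero =>
      intro s h1 h2
      have h3 := (hN s (by linarith)).2
      have h4 : 1 ≤ |s| ^ γ * (2 / s₀) ^ γ := by
        rw [← Real.mul_rpow (abs_nonneg s) (by positivity)]
        apply Real.one_le_rpow _ hγ0.le
        rw [mul_div_assoc', le_div_iff₀ hs₀]
        rw [zero_add, pow_one] at h1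
        linarith
      calc N s ≤ M * 1 := by linarith
        _ ≤ M * (|s| ^ γ * (2 / s₀) ^ γ) := by gcongr
        _ = |s| ^ γ * (M * (2 / s₀) ^ γ + c * (1 - r ^ 0)) := by rw [pow_zero]; ring
    | succ j ih =>
      intro s h1 h2
      have hs : 0 < |s| := by
        rcases (abs_nonneg s).eq_or_lt with h0 | h0
        · rw [← h0] at h1
          linarith
        · exact h0
      have hp2 : (1 : ℝ) ≤ 2 ^ j := one_le_pow₀ (by norm_num)
      have h3 : |s| ≤ s₀ / 2 := by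
        rw [pow_succ] at h2
        nlinarith
      have h4 := h s h3
      have h5 : |2 * s| = 2 * |s| := by rw [abs_mul, abs_two]
      have h6 := ih (2 * s) (by rw [h5]; calc s₀ < |s| * 2 ^ (j + 1 + 1) := h1
                                  _ = 2 * |s| * 2 ^ (j + 1) := by ring)
        (by rw [h5]; calc 2 * |s| * 2 ^ j = |s| * 2 ^ (j + 1) := by ring
              _ ≤ s₀ := h2)
      have hSj : 0 ≤ M * (2 / s₀) ^ γ + c * (1 - r ^ j) := by
        have : r ^ j ≤ 1 := pow_le_one₀ hr0.le hr1.le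
        have h7 : 0 ≤ 1 - r ^ j := by linarith
        positivity
      have h8 : |2 * s| ^ γ ≤ 2 * |s| ^ γ := by
        rw [h5, Real.mul_rpow (by norm_num) (abs_nonneg s)]
        have : (2 : ℝ) ^ γ ≤ 2 := by
          calc (2 : ℝ) ^ γ ≤ 2 ^ (1 : ℝ) := Real.rpow_le_rpow_of_exponent_le (by norm_num) hγ
            _ = 2 := Real.rpow_one 2
        gcongr
      have h9 : |s| ^ β = |s| ^ γ * |s| ^ δ := by
        rw [← Real.rpow_add hs, hδ]
        congr 1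
        ring
      have h10 : |s| ^ δ ≤ s₀ ^ δ * r ^ (j + 1) := by
        have h11 : |s| ≤ s₀ / 2 ^ (j + 1) := by
          rw [le_div_iff₀ (by positivity)]
          exact h2
        calc |s| ^ δ ≤ (s₀ / 2 ^ (j + 1)) ^ δ := by gcongr
          _ = s₀ ^ δ * r ^ (j + 1) := by
            rw [Real.div_rpow hs₀.le (by positivity), hr, inv_pow, Real.rpow_pow_comm (by norm_num), div_eq_mul_inv]
      have h12 : M * s₀ ^ δ * r ^ (j + 1) = c * (1 - r ^ (j + 1)) - c * (1 - r ^ j) := by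
        have h1r : 1 - r ≠ 0 := by linarith
        rw [hc]
        field_simp
        ring
      calc N s ≤ N (2 * s) / 2 + M * |s| ^ β := h4
        _ ≤ (|2 * s| ^ γ * (M * (2 / s₀) ^ γ + c * (1 - r ^ j))) / 2 + M * (|s| ^ γ * (s₀ ^ δ * r ^ (j + 1))) := by
          rw [h9]
          gcongr
        _ ≤ (2 * |s| ^ γ * (M * (2 / s₀) ^ γ + c * (1 - r ^ j))) / 2 + M * (|s| ^ γ * (s₀ ^ δ * r ^ (j + 1))) := by
          gcongr
        _ = |s| ^ γ * (M * (2 / s₀) ^ γ + c * (1 - r ^ j) + M * s₀ ^ δ * r ^ (j + 1)) := by ring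
        _ = |s| ^ γ * (M * (2 / s₀) ^ γ + c * (1 - r ^ (j + 1))) := by rw [h12]; ring
  refine ⟨M * (2 / s₀) ^ γ + c, by positivity, fun s hs => ?_⟩
  rcases (abs_nonneg s).eq_or_lt with h0 | h0
  · have hs0 : s = 0 := abs_eq_zero.mp h0.symm
    subst hs0
    have h1 := h 0 (by rw [abs_zero]; positivity)
    rw [abs_zero, Real.zero_rpow (by linarith), mul_zero, mul_zero, add_zero] at h1
    rw [abs_zero, Real.zero_rpow hγ0.ne', mul_zero]
    linarith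
  · obtain ⟨j, hj1, hj2⟩ := exists_nat_pow_near (x := s₀ / |s|) (y := (2 : ℝ))
      (by rw [le_div_iff₀ h0]; linarith) (by norm_num)
    rw [le_div_iff₀ h0] at hj1
    rw [div_lt_iff₀ h0] at hj2
    have h1 := key j s (by linarith) (by linarith)
    have h2 : c * (1 - r ^ j) ≤ c := by
      have : 0 ≤ r ^ j := by positivity
      nlinarith
    calc N s ≤ |s| ^ γ * (M * (2 / s₀) ^ γ + c * (1 - r ^ j)) := h1
      _ ≤ |s| ^ γ * (M * (2 / s₀) ^ γ + c) := by gcongr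
      _ = (M * (2 / s₀) ^ γ + c) * |s| ^ γ := by ring

end PLH
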