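import Pool.Agent.Lib.PLH.R1
import Pool.Agent.Lib.PLH.R2
import Pool.Agent.Lib.PLH.R3
import Pool.Agent.Lib.PLH.T8b

/-!
MODULE R4 (300 lines; may be split). Local Holder property in the mean of solutions along the
commuting flows.

`HL F γ U f`: for every compact `K ⊆ U` the `L²(K)` norm of `f∘F.fl s - f` is `O(|s|^γ)`.
`hl_half`: `half_T` with `S = K`, `U'` = compact neighbourhood of `K` in `U`, `s₀` small.
`hl_grad` (`F = vT, lX, lY`): let `K ⊆ int K₁ ⊆ K₁ ⊆ U`, `U₁ = int K₁`; for small `s` the shifted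
functions `u∘F.fl s`, `ξ∘F.fl s` are a solution on `U₁` (`lX_fl`, `lY_fl`, `vT_fl`, `SolU.tau1`, and
restriction to a smaller open set); `cac_K` for `U₁`, `K` and the two solutions `(u∘F.fl s, ξ∘F.fl s)`,
`(u, ξ)`: `∫_K ‖Δξ‖² ≤ C ∫_{K'} ‖Δu‖²`, `K' ⊆ U₁ ⊆ U` compact.
`hl_second`: `w = u∘vT.fl s - u` has the horizontal derivatives `(ξ∘vT.fl s - ξ) i` on
`U₁ ∩ (vT.fl s)⁻¹ U` (`WD.tauX`, `WD.tauY`, `WD.sub`); `half_T` for `w`, and `HL vT γ U ξ` for the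
gradient: `∫_K ‖w∘vT.fl s - w‖² ≤ 16|s| ∫_{K'} ‖ξ∘vT.fl s - ξ‖² ≤ M |s|^(1+2γ)`; and
`w(vT.fl s z) - w z = u(vT.fl (2s) z) - 2 u(vT.fl s z) + u z`.
`hl_one`: `N(s) = (∫_K ‖u∘vT.fl s - u‖²)^{1/2}`: `u∘fl(2s) - u = 2(u∘fl s - u) + second difference`
gives `N(s) ≤ N(2s)/2 + (1/2)‖second difference‖_{L²(K)}`. `N` is bounded for `|s| ≤ s₀`
(`u ∈ L²(K')`). `zyg` with `β = 1`, `γ = 3/4` (from `γ = 1/2`) and then `β = 5/4`, `γ = 1`.
-/

open MeasureTheory Set Filter Topology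
open scoped ContDiff ENNReal

namespace PLH

/-- Differences along `F` are of order `γ` in the mean, locally in `U`. -/
def HL {E : Type*} [NormedAddCommGroup E] (F : VF) (γ : ℝ) (U : Set Pt) (f : Pt → E) : Prop :=
  ∀ K : Set Pt, IsCompact K → K ⊆ U → ∃ s₀ : ℝ, 0 < s₀ ∧ ∃ M : ℝ, ∀ s : ℝ, |s| ≤ s₀ →
    ∫⁻ z in K, ‖f (F.fl s z) - f z‖ₑ ^ 2 ≤ ENNReal.ofReal (M * |s| ^ (2 * γ))

variable {W : Type*} [NormedAddCommGroup W] [InnerProductSpace ℝ W] [FiniteDimensional ℝ W]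
variable {m : ℝ} {a : ℝ → ℝ} {U : Set Pt} {u : Pt → W} {ξ : Pt → V2 W}

private theorem R4_near {K V : Set Pt} (hK : IsCompact K) (hV : IsOpen V) (hKV : K ⊆ V) :
    ∃ δ : ℝ, 0 < δ ∧ ∀ z ∈ K, ∀ w : Pt, ‖w - z‖ < δ → w ∈ V := by
  obtain ⟨δ, hδ, h⟩ := hK.exists_thickening_subset_open hV hKV
  refine ⟨δ, hδ, fun z hz w hw => h ?_⟩
  rw [Metric.mem_thickening_iff]
  exact ⟨z, hz, by rwa [dist_eq_norm]⟩

private theorem R4_bdd {K : Set Pt} (hK : IsCompact K) : ∃ R : ℝ, 0 ≤ R ∧ ∀ z ∈ K, ‖z‖ ≤ R := by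
  obtain ⟨R, hR⟩ := hK.isBounded.exists_norm_le
  exact ⟨max R 0, le_max_right _ _, fun z hz => (hR z hz).trans (le_max_left _ _)⟩

private theorem R4_sz (F : VF) : 0 ≤ F.sz := by
  unfold VF.sz
  positivity

private theorem R4_fl (F : VF) {K V : Set Pt} (hK : IsCompact K) (hV : IsOpen V) (hKV : K ⊆ V) :
    ∃ s₀ : ℝ, 0 < s₀ ∧ ∀ s : ℝ, |s| ≤ s₀ → ∀ z ∈ K, F.fl s z ∈ V := by
  obtain ⟨δ, hδ, h⟩ := R4_near hK hV hKV
  obtain ⟨R, hR0, hR⟩ := R4_bdd hK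
  have hsz := R4_sz F
  have hc : 0 ≤ F.sz * (1 + R) := by positivity
  refine ⟨δ / (F.sz * (1 + R) + 1), by positivity, fun s hs z hz => h z hz _ ?_⟩
  have h1 : |s| * (F.sz * (1 + ‖z‖)) ≤ |s| * (F.sz * (1 + R)) := by
    have := hR z hz
    gcongr
  have h2 : |s| * (F.sz * (1 + R)) ≤ δ / (F.sz * (1 + R) + 1) * (F.sz * (1 + R)) := by
    gcongr
  have h3 : δ / (F.sz * (1 + R) + 1) * (F.sz * (1 + R)) < δ := by
    rw [div_mul_eq_mul_div, div_lt_iff₀ (by positivity)]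
    nlinarith
  exact ((F.norm_fl_sub s z).trans (h1.trans h2)).trans_lt h3

private theorem R4_sq {E : Type*} [NormedAddCommGroup E] {f : Pt → E} {μ : Measure Pt} :
    ∫⁻ z, ‖f z‖ₑ ^ 2 ∂μ = eLpNorm f 2 μ ^ 2 := by
  have h := eLpNorm_nnreal_pow_eq_lintegral (μ := μ) (f := f) (p := 2) two_ne_zero
  have e : ((2 : NNReal) : ℝ) = ((2 : ℕ) : ℝ) := by norm_num
  rw [e] at h
  simp only [ENNReal.rpow_natCast] at h
  exact h.symm

private theorem R4_enorm (v : V2 W) : ‖v 0‖ₑ ^ 2 + ‖v 1‖ₑ ^ 2 = ‖v‖ₑ ^ 2 := by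
  have h := PiLp.norm_sq_eq_of_L2 (fun _ : Fin 2 => W) v
  rw [Fin.sum_univ_two] at h
  rw [← ofReal_norm, ← ofReal_norm, ← ofReal_norm,
    ← ENNReal.ofReal_pow (norm_nonneg _), ← ENNReal.ofReal_pow (norm_nonneg _),
    ← ENNReal.ofReal_pow (norm_nonneg _), ← ENNReal.ofReal_add (by positivity) (by positivity), h]

private theorem R4_mono {V : Set Pt} (hVU : V ⊆ U) (h : SolU a U u ξ) : SolU a V u ξ := by
  have : CompleteSpace W := FiniteDimensional.complete ℝ W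
  exact ⟨fun K hK hKV => h.lu K hK (hKV.trans hVU), fun K hK hKV => h.lξ K hK (hKV.trans hVU),
    h.gx.mono hVU, h.gy.mono hVU,
    fun φ hφ => h.sol φ ⟨hφ.smooth, hφ.cpt, hφ.supp.trans hVU⟩⟩

private theorem R4_shift (hU : IsOpen U) (h : SolU a U u ξ) {F : VF}
    (hF : F = vT ∨ F = lX ∨ F = lY) {K₁ : Set Pt} (hK₁ : IsCompact K₁) (hK₁U : K₁ ⊆ U) :
    ∃ s₀ : ℝ, 0 < s₀ ∧ ∀ s : ℝ, |s| ≤ s₀ →
      SolU a (interior K₁) (fun z => u (F.fl s z)) (fun z => ξ (F.fl s z)) := by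
  have : CompleteSpace W := FiniteDimensional.complete ℝ W
  obtain ⟨s₀, hs₀, hs⟩ := R4_fl F hK₁ hU hK₁U
  refine ⟨s₀, hs₀, fun s hss => ?_⟩
  obtain ⟨z₀, hz₀⟩ : ∃ z₀ : Pt, ∀ z, F.fl s z = tau z₀ 1 z := by
    rcases hF with rfl | rfl | rfl
    · exact ⟨(0, 0, s), vT_fl s⟩
    · exact ⟨(s, 0, 0), lX_fl s⟩
    · exact ⟨(0, s, 0), lY_fl s⟩
  have h1 := SolU.tau1 hU h z₀
  have h2 : interior K₁ ⊆ tau z₀ 1 ⁻¹' U := fun z hz => by
    rw [mem_preimage, ← hz₀]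
    exact hs s hss z (interior_subset hz)
  simp only [hz₀]
  exact R4_mono h2 h1

private theorem R4_half {V K K' : Set Pt} (hV : IsOpen V) (hK : IsCompact K)
    (hKK' : K ⊆ interior K') (hK' : IsCompact K') (hK'V : K' ⊆ V) :
    ∃ s₀ : ℝ, 0 < s₀ ∧ ∀ s : ℝ, |s| ≤ s₀ → ∀ (f : Pt → W) (g : Pt → V2 W),
      WD vX V f (fun z => g z 0) → WD vY V f (fun z => g z 1) →
      ∫⁻ z in K, ‖f (vT.fl s z) - f z‖ₑ ^ 2 ≤
        ENNReal.ofReal (16 * |s|) * ∫⁻ z in K', ‖g z‖ₑ ^ 2 := by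
  have : CompleteSpace W := FiniteDimensional.complete ℝ W
  obtain ⟨δ, hδ, hnear⟩ := R4_near hK isOpen_interior hKK'
  obtain ⟨R, hR0, hR⟩ := R4_bdd hK
  have hc : 0 < 4 * (1 + R) + 1 := by positivity
  refine ⟨min 1 ((δ / (4 * (1 + R) + 1)) ^ 2), lt_min one_pos (by positivity), fun s hs f g h0 h1 => ?_⟩
  have hs1 : |s| ≤ 1 := hs.trans (min_le_left _ _)
  have hs2 : Real.sqrt |s| ≤ δ / (4 * (1 + R) + 1) :=
    Real.sqrt_le_iff.2 ⟨by positivity, hs.trans (min_le_right _ _)⟩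
  have h2 := half_T hV h0 h1 hK.measurableSet hK'.measurableSet hK'V hs1 (by
    intro z hz w hw
    refine interior_subset (hnear z hz w (hw.trans_lt ?_))
    have h3 : 4 * Real.sqrt |s| * (1 + ‖z‖) ≤ 4 * (δ / (4 * (1 + R) + 1)) * (1 + R) := by
      have := hR z hz
      gcongr
    refine h3.trans_lt ?_
    have h4 : 4 * (δ / (4 * (1 + R) + 1)) * (1 + R) = δ * (4 * (1 + R)) / (4 * (1 + R) + 1) := by
      ring
    rw [h4, div_lt_iff₀ hc]
    nlinarith)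
  simp only [R4_enorm] at h2
  exact h2

theorem hl_half (hU : IsOpen U) (h : SolU a U u ξ) : HL vT (1 / 2) U u := by
  intro K hK hKU
  obtain ⟨K', hK', hKK', hK'U⟩ := exists_compact_between hK hU hKU
  obtain ⟨s₀, hs₀, hs⟩ := R4_half (W := W) hU hK hKK' hK' hK'U
  have hfin : ∫⁻ z in K', ‖ξ z‖ₑ ^ 2 ≠ ⊤ := by
    rw [R4_sq]
    exact (ENNReal.pow_lt_top (h.lξ K' hK' hK'U).eLpNorm_lt_top).ne
  refine ⟨s₀, hs₀, 16 * (∫⁻ z in K', ‖ξ z‖ₑ ^ 2).toReal, fun s hss => ?_⟩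
  refine (hs s hss u ξ h.gx h.gy).trans (le_of_eq ?_)
  have e : |s| ^ (2 * (1 / 2 : ℝ)) = |s| := by
    norm_num
  rw [e]
  conv_lhs => rw [← ENNReal.ofReal_toReal hfin]
  rw [← ENNReal.ofReal_mul (by positivity)]
  congr 1
  ring

theorem hl_grad (hm : -1 < m) (ha : Nice m a) (hU : IsOpen U) (h : SolU a U u ξ) {F : VF}
    (hF : F = vT ∨ F = lX ∨ F = lY) {γ : ℝ} (hγ : 0 < γ) (hu : HL F γ U u) : HL F γ U ξ := by
  intro K hK hKU
  obtain ⟨K₁, hK₁, hKK₁, hK₁U⟩ := exists_compact_between hK hU hKU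
  obtain ⟨K', hK', hKK', hK'U, C, hC, hcac⟩ :=
    cac_K (W := W) hm ha (isOpen_interior (s := K₁)) hK hKK₁
  obtain ⟨s₁, hs₁, hsh⟩ := R4_shift hU h hF hK₁ hK₁U
  obtain ⟨s₂, hs₂, M, hM⟩ := hu K' hK' (hK'U.trans (interior_subset.trans hK₁U))
  refine ⟨min s₁ s₂, lt_min hs₁ hs₂, C * M, fun s hs => ?_⟩
  have h1 := hcac (fun z => u (F.fl s z)) u (fun z => ξ (F.fl s z)) ξ
    (hsh s (hs.trans (min_le_left _ _))) (R4_mono (interior_subset.trans hK₁U) h)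
  have h2 := hM s (hs.trans (min_le_right _ _))
  refine h1.trans ?_
  rw [mul_assoc, ENNReal.ofReal_mul hC]
  gcongr

theorem hl_second (hU : IsOpen U) (h : SolU a U u ξ) {γ : ℝ} (hγ : 0 < γ)
    (hξ : HL vT γ U ξ) {K : Set Pt} (hK : IsCompact K) (hKU : K ⊆ U) :
    ∃ s₀ : ℝ, 0 < s₀ ∧ ∃ M : ℝ, ∀ s : ℝ, |s| ≤ s₀ →
      ∫⁻ z in K, ‖u (vT.fl (2 * s) z) - (2 : ℝ) • u (vT.fl s z) + u z‖ₑ ^ 2 ≤
        ENNReal.ofReal (M * |s| ^ (1 + 2 * γ)) := by
  have : CompleteSpace W := FiniteDimensional.complete ℝ W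
  obtain ⟨K₁, hK₁, hKK₁, hK₁U⟩ := exists_compact_between hK hU hKU
  obtain ⟨K', hK', hKK', hK'K₁⟩ := exists_compact_between hK isOpen_interior hKK₁
  have hK'U : K' ⊆ U := hK'K₁.trans (interior_subset.trans hK₁U)
  obtain ⟨s₁, hs₁, hsh⟩ := R4_shift hU h (Or.inl rfl) hK₁ hK₁U
  obtain ⟨s₂, hs₂, hhalf⟩ := R4_half (W := W) (isOpen_interior (s := K₁)) hK hKK' hK' hK'K₁
  obtain ⟨s₃, hs₃, M, hM⟩ := hξ K' hK' hK'U
  refine ⟨min s₁ (min s₂ s₃), lt_min hs₁ (lt_min hs₂ hs₃), 16 * M, fun s hs => ?_⟩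
  have hS := hsh s (hs.trans (min_le_left _ _))
  have hS' := R4_mono (interior_subset.trans hK₁U) h
  have h1 := hhalf s (hs.trans ((min_le_right _ _).trans (min_le_left _ _)))
    (fun z => u (vT.fl s z) - u z) (fun z => ξ (vT.fl s z) - ξ z)
    (hS.gx.sub hS'.gx) (hS.gy.sub hS'.gy)
  have h2 := hM s (hs.trans ((min_le_right _ _).trans (min_le_right _ _)))
  have e : ∀ z, u (vT.fl s (vT.fl s z)) - u (vT.fl s z) - (u (vT.fl s z) - u z) =
      u (vT.fl (2 * s) z) - (2 : ℝ) • u (vT.fl s z) + u z := by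
    intro z
    rw [VF.fl_fl, ← two_mul, two_smul]
    abel
  simp only [e] at h1
  refine h1.trans ?_
  have h3 : |s| ^ (1 + 2 * γ) = |s| * |s| ^ (2 * γ) := by
    rw [Real.rpow_add' (abs_nonneg s) (by positivity), Real.rpow_one]
  have h4 : 16 * M * |s| ^ (1 + 2 * γ) = 16 * |s| * (M * |s| ^ (2 * γ)) := by
    rw [h3]
    ring
  rw [h4, ENNReal.ofReal_mul (by positivity : (0 : ℝ) ≤ 16 * |s|)]
  exact mul_le_mul' le_rfl h2

/-- composition with the flow is in `L²` of a smaller compact set -/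
private theorem R4_comp {f : Pt → W} {K K' : Set Pt} (hK' : IsCompact K')
    (hf : MemLp f 2 (volume.restrict K')) {s : ℝ} (hs : ∀ z ∈ K, vT.fl s z ∈ K') :
    MemLp (fun z => f (vT.fl s z)) 2 (volume.restrict K) ∧
      eLpNorm (fun z => f (vT.fl s z)) 2 (volume.restrict K) ≤ eLpNorm f 2 (volume.restrict K') := by
  have hmp := (vT.mp s).restrict_preimage hK'.measurableSet
  have h1 := hf.comp_measurePreserving hmp
  have hle : volume.restrict K ≤ volume.restrict (vT.fl s ⁻¹' K') :=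
    Measure.restrict_mono_set _ hs
  refine ⟨h1.mono_measure hle, ?_⟩
  refine (eLpNorm_mono_measure _ hle).trans (le_of_eq ?_)
  exact eLpNorm_comp_measurePreserving hf.1 hmp

private theorem R4_step (hU : IsOpen U) (h : SolU a U u ξ) {γ γ' : ℝ} (hγ : 0 < γ)
    (hγ'0 : 0 < γ') (hγ'1 : γ' ≤ 1) (hγγ' : γ' < 1 / 2 + γ) (hξ : HL vT γ U ξ) :
    HL vT γ' U u := by
  intro K hK hKU
  obtain ⟨K', hK', hKK', hK'U⟩ := exists_compact_between hK hU hKU
  obtain ⟨s₁, hs₁, hfl⟩ := R4_fl vT hK isOpen_interior hKK'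
  obtain ⟨s₂, hs₂, M, hM⟩ := hl_second hU h hγ hξ hK hKU
  have huK' : MemLp u 2 (volume.restrict K') := h.lu K' hK' hK'U
  have huK : MemLp u 2 (volume.restrict K) := h.lu K hK hKU
  have hfl' : ∀ s : ℝ, |s| ≤ s₁ → ∀ z ∈ K, vT.fl s z ∈ K' :=
    fun s hs z hz => interior_subset (hfl s hs z hz)
  set N : ℝ → ℝ := fun s =>
    (eLpNorm (fun z => u (vT.fl s z) - u z) 2 (volume.restrict K)).toReal with hN
  set B : ℝ := (eLpNorm u 2 (volume.restrict K')).toReal +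
    (eLpNorm u 2 (volume.restrict K)).toReal with hB
  set D : ℝ := Real.sqrt (max M 0) with hD
  have hmem : ∀ s : ℝ, |s| ≤ s₁ →
      MemLp (fun z => u (vT.fl s z) - u z) 2 (volume.restrict K) := fun s hs =>
    (R4_comp hK' huK' (hfl' s hs)).1.sub huK
  have hNB : ∀ s : ℝ, |s| ≤ s₁ → N s ≤ B := by
    intro s hs
    have h1 := R4_comp hK' huK' (hfl' s hs)
    have h2 : eLpNorm (fun z => u (vT.fl s z) - u z) 2 (volume.restrict K) ≤
        eLpNorm u 2 (volume.restrict K') + eLpNorm u 2 (volume.restrict K) :=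
      (eLpNorm_sub_le h1.1.1 huK.1 (by norm_num)).trans (by gcongr; exact h1.2)
    rw [hB, ← ENNReal.toReal_add huK'.eLpNorm_ne_top huK.eLpNorm_ne_top]
    exact ENNReal.toReal_mono
      (ENNReal.add_ne_top.2 ⟨huK'.eLpNorm_ne_top, huK.eLpNorm_ne_top⟩) h2
  have hN2 : ∀ s : ℝ, |s| ≤ min s₁ s₂ / 2 → N s ≤ N (2 * s) / 2 + D * |s| ^ (1 / 2 + γ) := by
    intro s hs
    have hpos : 0 < min s₁ s₂ := lt_min hs₁ hs₂
    have hss : |s| ≤ min s₁ s₂ := by linarith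
    have hs1 : |s| ≤ s₁ := hss.trans (min_le_left _ _)
    have hs2 : |s| ≤ s₂ := hss.trans (min_le_right _ _)
    have h2s : |2 * s| ≤ s₁ := by
      rw [abs_mul, abs_two]
      have := min_le_left s₁ s₂
      linarith
    have hD2 : MemLp (fun z => u (vT.fl (2 * s) z) - (2 : ℝ) • u (vT.fl s z) + u z) 2
        (volume.restrict K) :=
      ((R4_comp hK' huK' (hfl' _ h2s)).1.sub
        ((R4_comp hK' huK' (hfl' s hs1)).1.const_smul (2 : ℝ))).add huK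
    have e1 : (fun z => (2 : ℝ) • (u (vT.fl s z) - u z)) =
        fun z => (u (vT.fl (2 * s) z) - u z) -
          (u (vT.fl (2 * s) z) - (2 : ℝ) • u (vT.fl s z) + u z) := by
      funext z
      rw [smul_sub, two_smul ℝ (u z)]
      abel
    have h3 : eLpNorm (fun z => (2 : ℝ) • (u (vT.fl s z) - u z)) 2 (volume.restrict K) ≤
        eLpNorm (fun z => u (vT.fl (2 * s) z) - u z) 2 (volume.restrict K) +
        eLpNorm (fun z => u (vT.fl (2 * s) z) - (2 : ℝ) • u (vT.fl s z) + u z) 2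
          (volume.restrict K) := by
      rw [e1]
      exact eLpNorm_sub_le (hmem _ h2s).1 hD2.1 (by norm_num)
    have h4 : (eLpNorm (fun z => (2 : ℝ) • (u (vT.fl s z) - u z)) 2 (volume.restrict K)).toReal =
        2 * N s := by
      have := eLpNorm_const_smul (2 : ℝ) (fun z => u (vT.fl s z) - u z) 2 (volume.restrict K)
      have e2 : (2 : ℝ) • (fun z => u (vT.fl s z) - u z) =
          fun z => (2 : ℝ) • (u (vT.fl s z) - u z) := rfl
      rw [e2] at this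
      rw [this, ENNReal.toReal_mul, hN]
      simp
    have h5 : (eLpNorm (fun z => u (vT.fl (2 * s) z) - (2 : ℝ) • u (vT.fl s z) + u z) 2
        (volume.restrict K)).toReal ≤ D * |s| ^ (1 / 2 + γ) := by
      have h6 := hM s hs2
      rw [R4_sq] at h6
      have h7 : ENNReal.ofReal (M * |s| ^ (1 + 2 * γ)) ≤
          ENNReal.ofReal (D * |s| ^ (1 / 2 + γ)) ^ 2 := by
        rw [← ENNReal.ofReal_pow (by positivity)]
        apply ENNReal.ofReal_le_ofReal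
        rw [mul_pow, hD, Real.sq_sqrt (le_max_right _ _), ← Real.rpow_mul_natCast (abs_nonneg s)]
        have e3 : (1 / 2 + γ) * ((2 : ℕ) : ℝ) = 1 + 2 * γ := by
          push_cast
          ring
        rw [e3]
        gcongr
        exact le_max_left _ _
      have h8 := (ENNReal.pow_le_pow_left_iff (two_ne_zero)).1 (h6.trans h7)
      exact ENNReal.toReal_le_of_le_ofReal (by positivity) h8
    have h9 := ENNReal.toReal_mono (ENNReal.add_ne_top.2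
      ⟨(hmem _ h2s).eLpNorm_ne_top, hD2.eLpNorm_ne_top⟩) h3
    rw [h4, ENNReal.toReal_add (hmem _ h2s).eLpNorm_ne_top hD2.eLpNorm_ne_top] at h9
    change 2 * N s ≤ N (2 * s) + _ at h9
    have h10 : 0 ≤ D * |s| ^ (1 / 2 + γ) := by positivity
    linarith
  have hB0 : 0 ≤ B := by positivity
  have hD0 : 0 ≤ D := Real.sqrt_nonneg _
  obtain ⟨M', hM'0, hM'⟩ := zyg (N := N) (s₀ := min s₁ s₂) (M := max B D) (β := 1 / 2 + γ) (γ := γ')
    (lt_min hs₁ hs₂) (le_max_of_le_left hB0)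
    (fun s hs => ⟨ENNReal.toReal_nonneg,
      (hNB s (hs.trans (min_le_left _ _))).trans (le_max_left _ _)⟩)
    (fun s hs => (hN2 s hs).trans (by
      gcongr
      exact le_max_right _ _)) hγ'0 hγ'1 hγγ'
  refine ⟨min s₁ s₂, lt_min hs₁ hs₂, M' ^ 2, fun s hs => ?_⟩
  rw [R4_sq]
  have h1 := hM' s hs
  have h2 : eLpNorm (fun z => u (vT.fl s z) - u z) 2 (volume.restrict K) ≤
      ENNReal.ofReal (M' * |s| ^ γ') := by
    rw [← ENNReal.ofReal_toReal (hmem s (hs.trans (min_le_left _ _))).eLpNorm_ne_top]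
    exact ENNReal.ofReal_le_ofReal h1
  have e3 : 2 * γ' = γ' * ((2 : ℕ) : ℝ) := by
    push_cast
    ring
  rw [e3, Real.rpow_mul_natCast (abs_nonneg s), ← mul_pow, ENNReal.ofReal_pow (by positivity)]
  gcongr

theorem hl_one (hm : -1 < m) (ha : Nice m a) (hU : IsOpen U) (h : SolU a U u ξ) :
    HL vT 1 U u := by
  have h1 := hl_half hU h
  have h2 := hl_grad hm ha hU h (Or.inl rfl) (by norm_num) h1
  have h3 : HL vT (3 / 4) U u :=
    R4_step hU h (by norm_num : (0 : ℝ) < 1 / 2) (by norm_num) (by norm_num) (by norm_num) h2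
  have h4 := hl_grad hm ha hU h (Or.inl rfl) (by norm_num) h3
  exact R4_step hU h (by norm_num : (0 : ℝ) < 3 / 4) (by norm_num) (by norm_num) (by norm_num) h4

end PLH
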