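import Pool.Agent.Lib.PLH.Defs

/-!
MODULE T1 (250 lines). Flows of the affine fields.

`F.v z` is constant along the flow because `k1 al + k2 be = 0`. `mp`: the map
`(x,y,t) ↦ (x+s al, y+s be, t+s(ga+k1 x+k2 y))` is a translation composed with a shear: use
`MeasurePreserving.skew_product` twice (or write it as a continuous affine map of determinant 1).
`der_comp`: the derivative of `F.fl s` at `z` applied to `w` is `w + s (0,0,k1 w.1+k2 w.2.1)`; on
`w = F.v z` this is `F.v z = F.v (F.fl s z)`.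
`hasDerivAt_fl`: chain rule, `d/ds F.fl s z = F.v z = F.v (F.fl s z)`.
`Tst.comp_fl`: composition with a homeomorphism which is smooth.
`Tst.der`: `der F φ` is smooth (the field is affine), support inside that of `φ`.
Commutators: second derivatives are symmetric (`ContDiffAt.isSymmSndFDerivAt`);
`D(φ'·Y)·X = φ''(X,Y) + φ'(DY·X)` and `DY·X = (0,0,1/2)`, `DX·Y = (0,0,-1/2)`.
-/

open MeasureTheory Set Filter Topology
open scoped ContDiff

namespace PLH

namespace VF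

variable (F : VF)

theorem fl_eq (s : ℝ) (z : Pt) : F.fl s z = z + s • F.v z := by
  simp only [fl, v, Prod.ext_iff, Prod.fst_add, Prod.snd_add, Prod.smul_fst, Prod.smul_snd,
    smul_eq_mul, and_self]

theorem v_fl (s : ℝ) (z : Pt) : F.v (F.fl s z) = F.v z := by
  have h := F.h
  simp only [fl, v, Prod.mk.injEq, true_and]
  linear_combination s * h

theorem fl_fl (s r : ℝ) (z : Pt) : F.fl s (F.fl r z) = F.fl (s + r) z := by
  have h := F.h
  simp only [fl, Prod.mk.injEq]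
  refine ⟨by ring, by ring, ?_⟩
  linear_combination s * r * h

theorem fl_zero (z : Pt) : F.fl 0 z = z := by
  simp only [fl, zero_mul, add_zero, Prod.mk.eta]

theorem cont_fl : Continuous (fun p : ℝ × Pt => F.fl p.1 p.2) := by
  unfold fl
  fun_prop

theorem smooth_fl (s : ℝ) : ContDiff ℝ ∞ (F.fl s) := by
  unfold fl
  fun_prop

theorem mp (s : ℝ) : MeasurePreserving (F.fl s) volume volume := by
  have h1 : ∀ x : ℝ, MeasurePreserving
      (fun p : ℝ × ℝ => (p.1 + s * F.be, p.2 + s * (F.ga + F.k1 * x + F.k2 * p.1)))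
      volume volume := by
    intro x
    exact (measurePreserving_add_right volume (s * F.be)).skew_product
      (g := fun (y t : ℝ) => t + s * (F.ga + F.k1 * x + F.k2 * y)) (by fun_prop)
      (ae_of_all _ fun y => (measurePreserving_add_right volume _).map_eq)
  exact (measurePreserving_add_right volume (s * F.al)).skew_product
    (g := fun (x : ℝ) (p : ℝ × ℝ) => (p.1 + s * F.be, p.2 + s * (F.ga + F.k1 * x + F.k2 * p.1)))
    (by fun_prop) (ae_of_all _ fun x => (h1 x).map_eq)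

/-- The flow as a homeomorphism. -/
noncomputable def flH (s : ℝ) : Pt ≃ₜ Pt where
  toFun := F.fl s
  invFun := F.fl (-s)
  left_inv := fun z => by rw [fl_fl]; simp [fl_zero]
  right_inv := fun z => by rw [fl_fl]; simp [fl_zero]
  continuous_toFun := F.cont_fl.comp (Continuous.prodMk_right s)
  continuous_invFun := F.cont_fl.comp (Continuous.prodMk_right (-s))

/-- The size of the coefficients. -/
noncomputable def sz : ℝ := |F.al| + |F.be| + |F.ga| + |F.k1| + |F.k2|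

theorem norm_fl_sub (s : ℝ) (z : Pt) : ‖F.fl s z - z‖ ≤ |s| * (F.sz * (1 + ‖z‖)) := by
  have h1 : F.fl s z - z = s • F.v z := by rw [F.fl_eq, add_sub_cancel_left]
  rw [h1, norm_smul, Real.norm_eq_abs]
  refine mul_le_mul_of_nonneg_left ?_ (abs_nonneg s)
  have hz : 0 ≤ ‖z‖ := norm_nonneg z
  have hx : |z.1| ≤ ‖z‖ := norm_fst_le z
  have hy : |z.2.1| ≤ ‖z‖ := (norm_fst_le z.2).trans (norm_snd_le z)
  have a1 := abs_nonneg F.al
  have a2 := abs_nonneg F.be
  have a3 := abs_nonneg F.ga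
  have a4 := abs_nonneg F.k1
  have a5 := abs_nonneg F.k2
  have hsz : 0 ≤ F.sz := by unfold sz; positivity
  have hszz : 0 ≤ F.sz * ‖z‖ := mul_nonneg hsz hz
  have e1 : |F.al| ≤ F.sz * (1 + ‖z‖) := by
    have : |F.al| ≤ F.sz := by unfold sz; linarith
    nlinarith
  have e2 : |F.be| ≤ F.sz * (1 + ‖z‖) := by
    have : |F.be| ≤ F.sz := by unfold sz; linarith
    nlinarith
  have e3 : |F.ga + F.k1 * z.1 + F.k2 * z.2.1| ≤ F.sz * (1 + ‖z‖) := by
    have b1 : |F.ga + F.k1 * z.1 + F.k2 * z.2.1| ≤ |F.ga| + |F.k1| * |z.1| + |F.k2| * |z.2.1| := by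
      refine (abs_add_le _ _).trans ?_
      rw [← abs_mul, ← abs_mul]
      exact add_le_add (abs_add_le _ _) le_rfl
    have b2 : |F.k1| * |z.1| ≤ |F.k1| * ‖z‖ := mul_le_mul_of_nonneg_left hx a4
    have b3 : |F.k2| * |z.2.1| ≤ |F.k2| * ‖z‖ := mul_le_mul_of_nonneg_left hy a5
    have b4 : F.sz * (1 + ‖z‖) = |F.al| + |F.be| + |F.ga| + |F.k1| + |F.k2| +
        |F.al| * ‖z‖ + |F.be| * ‖z‖ + |F.ga| * ‖z‖ + |F.k1| * ‖z‖ + |F.k2| * ‖z‖ := by
      unfold sz
      ring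
    have c1 : 0 ≤ |F.al| * ‖z‖ := mul_nonneg a1 hz
    have c2 : 0 ≤ |F.be| * ‖z‖ := mul_nonneg a2 hz
    have c3 : 0 ≤ |F.ga| * ‖z‖ := mul_nonneg a3 hz
    linarith
  exact max_le e1 (max_le e2 e3)

variable {E : Type*} [NormedAddCommGroup E] [NormedSpace ℝ E]

private theorem t1_hasDerivAt {φ : Pt → E} (hφ : Differentiable ℝ φ) (s : ℝ) (z : Pt) :
    HasDerivAt (fun r => φ (F.fl r z)) (der F φ (F.fl s z)) s := by
  have h1 : HasDerivAt (fun r => F.fl r z) (F.v z) s := by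
    have h2 : HasDerivAt (fun r : ℝ => z + r • F.v z) ((1 : ℝ) • F.v z) s :=
      ((hasDerivAt_id s).smul_const (F.v z)).const_add z
    rw [one_smul] at h2
    exact h2.congr_of_eventuallyEq (Filter.Eventually.of_forall fun r => F.fl_eq r z)
  have h3 := (hφ (F.fl s z)).hasFDerivAt.comp_hasDerivAt s h1
  unfold der
  rw [F.v_fl]
  exact h3

theorem der_comp {φ : Pt → E} (hφ : Differentiable ℝ φ) (s : ℝ) (z : Pt) :
    der F (fun w => φ (F.fl s w)) z = der F φ (F.fl s z) := by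
  have hfl : Differentiable ℝ (F.fl s) := (F.smooth_fl s).differentiable (by simp)
  have h1 := t1_hasDerivAt F (φ := fun w => φ (F.fl s w)) (hφ.comp hfl) 0 z
  rw [F.fl_zero] at h1
  have h2 := t1_hasDerivAt F hφ (s + 0) z
  have h3 := h2.comp_const_add s 0
  rw [add_zero] at h3
  have h4 : (fun r => φ (F.fl s (F.fl r z))) = fun r => φ (F.fl (s + r) z) := by
    funext r
    rw [F.fl_fl]
  rw [h4] at h1
  exact h1.unique h3

theorem hasDerivAt_fl {φ : Pt → E} (hφ : Differentiable ℝ φ) (s : ℝ) (z : Pt) :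
    HasDerivAt (fun r => φ (F.fl r z)) (der F φ (F.fl s z)) s := by
  exact t1_hasDerivAt F hφ s z

theorem smooth_der {φ : Pt → E} (hφ : ContDiff ℝ ∞ φ) : ContDiff ℝ ∞ (der F φ) := by
  unfold der
  have h1 : ContDiff ℝ ∞ F.v := by
    unfold v
    fun_prop
  exact (hφ.fderiv_right (m := ∞) (by norm_num)).clm_apply h1

end VF

theorem Tst.comp_fl {U : Set Pt} {φ : Pt → ℝ} (h : Tst U φ) (F : VF) (s : ℝ) :
    Tst (F.fl s ⁻¹' U) (fun z => φ (F.fl s z)) := by
  refine ⟨h.smooth.comp (F.smooth_fl s), h.cpt.comp_homeomorph (F.flH s), ?_⟩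
  have h1 : tsupport (fun z => φ (F.fl s z)) = F.fl s ⁻¹' tsupport φ :=
    tsupport_comp_eq_preimage φ (F.flH s)
  rw [h1]
  exact preimage_mono h.supp

theorem Tst.der {U : Set Pt} {φ : Pt → ℝ} (h : Tst U φ) (F : VF) : Tst U (der F φ) := by
  have h1 : Function.support (PLH.der F φ) ⊆ tsupport φ := by
    intro z hz
    refine support_fderiv_subset ℝ (f := φ) ?_
    intro h0
    refine hz ?_
    show fderiv ℝ φ z (F.v z) = 0
    rw [h0]
    rfl
  exact ⟨F.smooth_der h.smooth, h.cpt.mono' h1,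
    (closure_minimal h1 (isClosed_tsupport φ)).trans h.supp⟩

theorem Tst.mul_left {U : Set Pt} {φ ζ : Pt → ℝ} (h : Tst U φ) (hζ : ContDiff ℝ ∞ ζ) :
    Tst U (fun z => ζ z * φ z) := by
  refine ⟨hζ.mul h.smooth, h.cpt.mul_left, ?_⟩
  exact (tsupport_mul_subset_right).trans h.supp

private theorem t1_der_der (F G : VF) {φ : Pt → ℝ} (hφ : ContDiff ℝ ∞ φ) (z : Pt) :
    der F (der G φ) z = (fderiv ℝ (fderiv ℝ φ) z (F.v z)) (G.v z) +
      fderiv ℝ φ z (0, 0, G.k1 * F.al + G.k2 * F.be) := by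
  have h1 : HasFDerivAt (fderiv ℝ φ) (fderiv ℝ (fderiv ℝ φ) z) z :=
    ((hφ.fderiv_right (m := ∞) (by norm_num)).differentiable (by simp) z).hasFDerivAt
  have h2 : HasFDerivAt G.v ((0 : Pt →L[ℝ] ℝ).prod ((0 : Pt →L[ℝ] ℝ).prod
      (G.k1 • ContinuousLinearMap.fst ℝ ℝ (ℝ × ℝ) +
        G.k2 • (ContinuousLinearMap.fst ℝ ℝ ℝ).comp (ContinuousLinearMap.snd ℝ ℝ (ℝ × ℝ))))) z := by
    unfold VF.v
    refine (hasFDerivAt_const _ _).prodMk ((hasFDerivAt_const _ _).prodMk ?_)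
    refine HasFDerivAt.add ?_ ?_
    · refine HasFDerivAt.const_add _ ?_
      exact (hasFDerivAt_fst).const_mul G.k1
    · exact ((hasFDerivAt_fst).comp z hasFDerivAt_snd).const_mul G.k2
  have h3 := h1.clm_apply h2
  have h4 : der F (der G φ) z = fderiv ℝ (fun w => fderiv ℝ φ w (G.v w)) z (F.v z) := rfl
  rw [h4, h3.fderiv, add_comm]
  rfl

private theorem t1_symm {φ : Pt → ℝ} (hφ : ContDiff ℝ ∞ φ) (z u w : Pt) :
    (fderiv ℝ (fderiv ℝ φ) z u) w = (fderiv ℝ (fderiv ℝ φ) z w) u := by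
  have h1 : ContDiffAt ℝ ∞ φ z := hφ.contDiffAt
  have h2 : (2 : WithTop ℕ∞) ≤ ∞ := WithTop.coe_le_coe.2 le_top
  exact (h1.isSymmSndFDerivAt (by rw [minSmoothness_of_isRCLikeNormedField]; exact h2)) u w

theorem comm_XY {φ : Pt → ℝ} (hφ : ContDiff ℝ ∞ φ) (z : Pt) :
    der vX (der vY φ) z - der vY (der vX φ) z = der vT φ z := by
  rw [t1_der_der _ _ hφ, t1_der_der _ _ hφ, t1_symm hφ z (vX.v z) (vY.v z)]
  have h1 : der vT φ z = fderiv ℝ φ z (0, 0, 1) := by
    unfold der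
    congr 1
    simp only [VF.v, vT, zero_mul, add_zero]
  have h2 : fderiv ℝ φ z (0, 0, vY.k1 * vX.al + vY.k2 * vX.be) -
      fderiv ℝ φ z (0, 0, vX.k1 * vY.al + vX.k2 * vY.be) = fderiv ℝ φ z (0, 0, 1) := by
    rw [← map_sub]
    congr 1
    simp only [vX, vY, Prod.mk_sub_mk, sub_zero, Prod.mk.injEq, true_and]
    norm_num
  rw [h1, ← h2]
  ring

theorem comm_XT {φ : Pt → ℝ} (hφ : ContDiff ℝ ∞ φ) (z : Pt) :
    der vX (der vT φ) z = der vT (der vX φ) z := by
  rw [t1_der_der _ _ hφ, t1_der_der _ _ hφ, t1_symm hφ z (vX.v z) (vT.v z)]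
  simp only [vX, vT, mul_zero, zero_mul, add_zero]

theorem comm_YT {φ : Pt → ℝ} (hφ : ContDiff ℝ ∞ φ) (z : Pt) :
    der vY (der vT φ) z = der vT (der vY φ) z := by
  rw [t1_der_der _ _ hφ, t1_der_der _ _ hφ, t1_symm hφ z (vY.v z) (vT.v z)]
  simp only [vY, vT, mul_zero, zero_mul, add_zero]

theorem der_mul (F : VF) {φ ψ : Pt → ℝ} (hφ : ContDiff ℝ ∞ φ) (hψ : ContDiff ℝ ∞ ψ) (z : Pt) :
    der F (fun w => φ w * ψ w) z = φ z * der F ψ z + ψ z * der F φ z := by
  unfold der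
  have h1 : HasFDerivAt (fun w => φ w * ψ w) (φ z • fderiv ℝ ψ z + ψ z • fderiv ℝ φ z) z :=
    (hφ.differentiable (by simp) z).hasFDerivAt.mul (hψ.differentiable (by simp) z).hasFDerivAt
  rw [h1.fderiv]
  rfl

end PLH
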