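import Pool.Agent.Lib.PLH.T10

/-!
MODULE T11 (250 lines). Horizontally Sobolev functions with compact support are admissible tests.

Choose `δ₀` such that `z ∈ K' := {z : ∃ g, ‖g‖ ≤ δ₀, g z ∈ tsupport f}` is compact in `U` (it is the
image of `closedBall 0 δ₀ × tsupport f` under `(g,w) ↦ g⁻¹ w`; for small `δ₀` it is close to
`tsupport f`). For a kernel `ρ` with `δ ≤ δ₀` the function `f_δ = lav ρ f` is smooth (`lav_smooth`,
`f` is integrable since it is `L²` with compact support), has compact support in `K' ⊆ U`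
(`lav_supp`), and `der vX f_δ = lav ρ g₀` a.e., `der vY f_δ = lav ρ g₁` a.e. (`lav_WD` with
`B = B' = univ`, and the classical derivative is a weak derivative, `WD.uniq`; integration by parts
for smooth functions: `integral_smul_fderiv_eq_neg_fderiv_smul_of_integrable` or by the flow).
`W` is finite dimensional: with an orthonormal basis `e_k`, `f_δ = ∑ ⟨e_k, f_δ⟩ e_k` and each
coefficient is a test function on `U`; pairing `SolR` for `φ = ⟨e_k,f_δ⟩` with `e_k` and summing gives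
the identity for `f_δ`. Let `δ → 0`: `f_δ → f`, `lav ρ g₀ → g₀`, `lav ρ g₁ → g₁` in `L²`
(`lav_tendsto` with `B = B' = univ`), while `σ`, `h` are in `L²(K')` and everything is supported in
`K'`.
-/

open MeasureTheory Set Filter Topology
open scoped ContDiff ENNReal

set_option linter.unusedSectionVars false

namespace PLH

section gen
variable {E : Type*} [NormedAddCommGroup E] [NormedSpace ℝ E]

private lemma t11_haar : (volume : Measure Pt).IsAddHaarMeasure := by
  have : ((volume : Measure ℝ).prod (volume : Measure ℝ)).IsAddHaarMeasure := inferInstance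
  exact Measure.prod.instIsAddHaarMeasure (volume : Measure ℝ)
    ((volume : Measure ℝ).prod (volume : Measure ℝ))

private lemma t11_fderiv_cpt {ψ : Pt → E} (hψ : ContDiff ℝ ∞ ψ) (hc : HasCompactSupport ψ) (v : Pt) :
    HasCompactSupport (fun z => fderiv ℝ ψ z v) ∧ Continuous (fun z => fderiv ℝ ψ z v) :=
  ⟨hc.fderiv_apply ℝ v, (hψ.continuous_fderiv (by simp)).clm_apply continuous_const⟩

/-- direction with a coefficient which is constant along it -/
private lemma t11_dir {ψ : Pt → E} (hψ : ContDiff ℝ ∞ ψ) (hc : HasCompactSupport ψ) (v : Pt)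
    {κ : Pt → ℝ} (hκ : ContDiff ℝ ∞ κ) (h0 : ∀ z, fderiv ℝ κ z v = 0) :
    ∫ z, κ z • fderiv ℝ ψ z v = 0 := by
  obtain ⟨h1, h2⟩ := t11_fderiv_cpt hψ hc v
  have hκc := hκ.continuous
  have := t11_haar
  have h3 := integral_smul_fderiv_eq_neg_fderiv_smul_of_integrable (μ := (volume : Measure Pt))
    (f := κ) (g := ψ) (v := v) (by simp [h0])
    ((hκc.smul h2).integrable_of_hasCompactSupport h1.smul_left)
    ((hκc.smul hψ.continuous).integrable_of_hasCompactSupport hc.smul_left)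
    (fun x _ => (hκ.differentiable (by simp)).differentiableAt)
    (fun x _ => (hψ.differentiable (by simp)).differentiableAt)
  rw [h3]
  simp [h0]

private lemma t11_int_der (F : VF) {ψ : Pt → E} (hψ : ContDiff ℝ ∞ ψ) (hc : HasCompactSupport ψ) :
    ∫ z, der F ψ z = 0 := by
  have hκ : ContDiff ℝ ∞ (fun z : Pt => F.ga + F.k1 * z.1 + F.k2 * z.2.1) := by fun_prop
  have e : ∀ z, der F ψ z = (fun _ : Pt => F.al) z • fderiv ℝ ψ z (1, 0, 0)
      + (fun _ : Pt => F.be) z • fderiv ℝ ψ z (0, 1, 0)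
      + (fun z : Pt => F.ga + F.k1 * z.1 + F.k2 * z.2.1) z • fderiv ℝ ψ z (0, 0, 1) := by
    intro z
    have hv : F.v z = F.al • ((1, 0, 0) : Pt) + F.be • ((0, 1, 0) : Pt)
        + (F.ga + F.k1 * z.1 + F.k2 * z.2.1) • ((0, 0, 1) : Pt) := by
      simp [VF.v]
    rw [der, hv, map_add, map_add, map_smul, map_smul, map_smul]
  have i : ∀ (v : Pt) (κ : Pt → ℝ), Continuous κ → Integrable (fun z => κ z • fderiv ℝ ψ z v) := by
    intro v κ hκ
    obtain ⟨h1, h2⟩ := t11_fderiv_cpt hψ hc v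
    exact (hκ.smul h2).integrable_of_hasCompactSupport h1.smul_left
  have hz : ∀ z : Pt, fderiv ℝ (fun z : Pt => F.ga + F.k1 * z.1 + F.k2 * z.2.1) z (0, 0, 1) = 0 := by
    intro z
    have h1 : HasFDerivAt (fun z : Pt => F.ga + F.k1 * z.1 + F.k2 * z.2.1)
        (F.k1 • ContinuousLinearMap.fst ℝ ℝ (ℝ × ℝ)
          + F.k2 • (ContinuousLinearMap.fst ℝ ℝ ℝ).comp (ContinuousLinearMap.snd ℝ ℝ (ℝ × ℝ))) z := by
      have h2 : HasFDerivAt (fun z : Pt => z.1) (ContinuousLinearMap.fst ℝ ℝ (ℝ × ℝ)) z :=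
        hasFDerivAt_fst
      have h3 : HasFDerivAt (fun z : Pt => z.2.1)
          ((ContinuousLinearMap.fst ℝ ℝ ℝ).comp (ContinuousLinearMap.snd ℝ ℝ (ℝ × ℝ))) z :=
        ((ContinuousLinearMap.fst ℝ ℝ ℝ).comp (ContinuousLinearMap.snd ℝ ℝ (ℝ × ℝ))).hasFDerivAt
      have h4 := ((h2.const_mul F.k1).const_add F.ga).add (h3.const_mul F.k2)
      exact h4
    rw [h1.fderiv]
    simp
  have h1 := t11_dir hψ hc (1, 0, 0) (κ := fun _ => F.al) contDiff_const (by simp)
  have h2 := t11_dir hψ hc (0, 1, 0) (κ := fun _ => F.be) contDiff_const (by simp)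
  have h3 := t11_dir hψ hc (0, 0, 1) hκ hz
  have i1 := i (1, 0, 0) (fun _ => F.al) continuous_const
  have i2 := i (0, 1, 0) (fun _ => F.be) continuous_const
  have i3 := i (0, 0, 1) _ hκ.continuous
  have e4 := integral_add (i1.add i2) i3
  have e5 := integral_add i1 i2
  calc ∫ z, der F ψ z = _ := integral_congr_ae (Eventually.of_forall e)
    _ = _ := e4
    _ = 0 := by
      rw [h3, add_zero]
      exact e5.trans (by rw [h1, h2, add_zero])

private lemma t11_der_smul (F : VF) {ψ : Pt → ℝ} {f : Pt → E} (hψ : ContDiff ℝ ∞ ψ)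
    (hf : ContDiff ℝ ∞ f) (z : Pt) :
    der F (fun w => ψ w • f w) z = ψ z • der F f z + der F ψ z • f z := by
  have h1 := (hψ.differentiable (by simp)).differentiableAt (x := z)
  have h2 := (hf.differentiable (by simp)).differentiableAt (x := z)
  rw [der, fderiv_fun_smul h1 h2]
  rfl

private lemma t11_ibp (F : VF) {U : Set Pt} {ψ : Pt → ℝ} {f : Pt → E} (hψ : Tst U ψ)
    (hf : ContDiff ℝ ∞ f) : ∫ z, der F ψ z • f z = - ∫ z, ψ z • der F f z := by
  have h1 := t11_int_der F (hψ.smooth.smul hf) hψ.cpt.smul_right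
  have h2 : ∀ z, der F (fun w => ψ w • f w) z = ψ z • der F f z + der F ψ z • f z :=
    t11_der_smul F hψ.smooth hf
  have hd : Continuous (der F f) := (F.smooth_der hf).continuous
  have hdψ := hψ.der F
  have h3 : ∫ z, der F (fun w => ψ w • f w) z = 0 := h1
  simp_rw [h2] at h3
  rw [integral_add] at h3
  · exact eq_neg_of_add_eq_zero_right h3
  · exact (hψ.smooth.continuous.smul hd).integrable_of_hasCompactSupport hψ.cpt.smul_right
  · exact (hdψ.smooth.continuous.smul hf.continuous).integrable_of_hasCompactSupport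
      hdψ.cpt.smul_right

end gen

section W
variable {W : Type*} [NormedAddCommGroup W] [InnerProductSpace ℝ W] [FiniteDimensional ℝ W]

private lemma t11_der_zero (F : VF) {E : Type*} [NormedAddCommGroup E] [NormedSpace ℝ E] {φ : Pt → E}
    {z : Pt} (hz : z ∉ tsupport φ) : der F φ z = 0 := by
  rw [der, fderiv_of_notMem_tsupport ℝ hz]
  rfl

/-- The classical derivative is a weak derivative. -/
private lemma t11_wd (F : VF) {f : Pt → W} (hf : ContDiff ℝ ∞ f) : WD F univ f (der F f) := by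
  refine ⟨hf.continuous.locallyIntegrable.locallyIntegrableOn _,
    (F.smooth_der hf).continuous.locallyIntegrable.locallyIntegrableOn _, fun φ hφ => ?_⟩
  exact t11_ibp F hφ hf

private lemma t11_comp {μ : Measure Pt} {σ : Pt → V2 W} (h : MemLp σ 2 μ) (j : Fin 2) :
    MemLp (fun z => σ z j) 2 μ :=
  (PiLp.proj (𝕜 := ℝ) 2 (fun _ : Fin 2 => W) j).comp_memLp' h

/-- a locally square integrable function times a continuous one with compact support -/
private lemma t11_smul {U : Set Pt} {ψ : Pt → ℝ} (hψ : Continuous ψ) (hc : HasCompactSupport ψ)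
    (hs : tsupport ψ ⊆ U) {f : Pt → W} (hf : L2l U f) : MemLp (fun z => ψ z • f z) 2 volume := by
  have hK : IsCompact (tsupport ψ) := hc
  have h1 := hf _ hK hs
  obtain ⟨C, hC⟩ := hψ.bounded_above_of_compact_support hc
  have h2 : MemLp (fun z => ψ z • f z) 2 (volume.restrict (tsupport ψ)) :=
    h1.of_le_mul (hψ.aestronglyMeasurable.smul h1.1) (ae_of_all _ fun z => by
      rw [norm_smul]
      exact mul_le_mul_of_nonneg_right (hC z) (norm_nonneg _))
  have h3 : (fun z => ψ z • f z) = (tsupport ψ).indicator (fun z => ψ z • f z) := by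
    funext z
    by_cases hz : z ∈ tsupport ψ
    · rw [indicator_of_mem hz]
    · rw [indicator_of_notMem hz, image_eq_zero_of_notMem_tsupport hz, zero_smul]
  rw [h3]
  exact (memLp_indicator_iff_restrict hK.measurableSet).mpr h2

private lemma t11_int {K : Set Pt} (hK : IsCompact K) {f : Pt → W}
    (hf : MemLp f 2 (volume.restrict K)) {ψ : Pt → ℝ} (hψ : Continuous ψ)
    (hc : HasCompactSupport ψ) : Integrable (fun z => ψ z • f z) (volume.restrict K) := by
  have hfin : IsFiniteMeasure (volume.restrict K) := ⟨by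
    rw [Measure.restrict_apply_univ]; exact hK.measure_lt_top⟩
  have h1 : Integrable f (volume.restrict K) := hf.integrable (by norm_num)
  have h2 : MemLp ψ ⊤ (volume.restrict K) := hψ.memLp_of_hasCompactSupport hc
  exact h1.smul_of_top_right h2

/-- The equation for smooth `W`-valued functions. -/
private lemma t11_smooth {U K : Set Pt} (hK : IsCompact K) (hKU : K ⊆ U) {σ : Pt → V2 W}
    {h : Pt → W} (hσ : L2l U σ) (hh : L2l U h) (hs : SolR U σ h) {f : Pt → W}
    (hf : ContDiff ℝ ∞ f) (hfK : tsupport f ⊆ K) :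
    ∫ z in K, (inner ℝ (σ z 0) (der vX f z) + inner ℝ (σ z 1) (der vY f z))
      = ∫ z in K, inner ℝ (h z) (f z) := by
  obtain ⟨b, -⟩ : ∃ b : OrthonormalBasis (Fin (Module.finrank ℝ W)) ℝ W, True :=
    ⟨stdOrthonormalBasis ℝ W, trivial⟩
  have hfc : HasCompactSupport f := hK.of_isClosed_subset (isClosed_tsupport f) hfK
  have hsub : ∀ k, tsupport (fun z => inner ℝ (b k) (f z)) ⊆ tsupport f := fun k => by
    refine closure_mono ?_
    intro z hz hz2
    exact hz (by simp only [hz2, inner_zero_right])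
  have hT : ∀ k, Tst U (fun z => inner ℝ (b k) (f z)) := fun k => by
    refine ⟨contDiff_const.inner ℝ hf, ?_, ((hsub k).trans hfK).trans hKU⟩
    exact HasCompactSupport.intro hfc fun z hz => by
        rw [image_eq_zero_of_notMem_tsupport hz, inner_zero_right]
  have hder : ∀ (F : VF) k z, der F (fun z => inner ℝ (b k) (f z)) z = inner ℝ (b k) (der F f z) := by
    intro F k z
    have h1 : HasFDerivAt f (fderiv ℝ f z) z :=
      ((hf.differentiable (by simp)).differentiableAt).hasFDerivAt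
    have h2 : HasFDerivAt (fun z => inner ℝ (b k) (f z))
        ((innerSL ℝ (b k)).comp (fderiv ℝ f z)) z :=
      (innerSL ℝ (b k)).hasFDerivAt.comp z h1
    rw [der, h2.fderiv]
    rfl
  have hσK := hσ K hK hKU
  have hhK := hh K hK hKU
  have hI : ∀ k, Integrable (fun z => der vX (fun z => inner ℝ (b k) (f z)) z • σ z 0
      + der vY (fun z => inner ℝ (b k) (f z)) z • σ z 1) (volume.restrict K) := fun k =>
    (t11_int hK (t11_comp hσK 0) ((hT k).der vX).smooth.continuous ((hT k).der vX).cpt).add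
      (t11_int hK (t11_comp hσK 1) ((hT k).der vY).smooth.continuous ((hT k).der vY).cpt)
  have hJ : ∀ k, Integrable (fun z => (inner ℝ (b k) (f z) : ℝ) • h z) (volume.restrict K) :=
    fun k => t11_int hK hhK (hT k).smooth.continuous (hT k).cpt
  have h0 : ∀ k, ∫ z in K, inner ℝ (b k) (der vX (fun z => inner ℝ (b k) (f z)) z • σ z 0
      + der vY (fun z => inner ℝ (b k) (f z)) z • σ z 1)
      = ∫ z in K, inner ℝ (b k) ((inner ℝ (b k) (f z) : ℝ) • h z) := by
    intro k
    rw [integral_inner (hI k), integral_inner (hJ k)]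
    have h1 := hs _ (hT k)
    rw [← setIntegral_eq_integral_of_forall_compl_eq_zero (s := K) (fun z hz => by
      have h2 : z ∉ tsupport (fun z => inner ℝ (b k) (f z)) := fun h => hz (hfK (hsub k h))
      rw [t11_der_zero vX h2, t11_der_zero vY h2, zero_smul, zero_smul, add_zero])] at h1
    rw [h1, setIntegral_eq_integral_of_forall_compl_eq_zero (fun z hz => by
      have h2 : z ∉ tsupport f := fun h => hz (hfK h)
      rw [image_eq_zero_of_notMem_tsupport h2, inner_zero_right, zero_smul])]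
  have h1 : ∀ z, inner ℝ (σ z 0) (der vX f z) + inner ℝ (σ z 1) (der vY f z) = ∑ k, inner ℝ (b k)
      (der vX (fun z => inner ℝ (b k) (f z)) z • σ z 0
        + der vY (fun z => inner ℝ (b k) (f z)) z • σ z 1) := by
    intro z
    simp_rw [inner_add_right, real_inner_smul_right, hder, Finset.sum_add_distrib]
    rw [real_inner_comm, real_inner_comm (der vY f z), ← b.sum_inner_mul_inner,
      ← b.sum_inner_mul_inner]
    congr 1
    · exact Finset.sum_congr rfl fun k _ => by rw [real_inner_comm (der vX f z)]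
    · exact Finset.sum_congr rfl fun k _ => by rw [real_inner_comm (der vY f z)]
  have h2 : ∀ z, inner ℝ (h z) (f z)
      = ∑ k, inner ℝ (b k) ((inner ℝ (b k) (f z) : ℝ) • h z) := by
    intro z
    simp_rw [real_inner_smul_right]
    rw [real_inner_comm, ← b.sum_inner_mul_inner]
    exact Finset.sum_congr rfl fun k _ => by rw [real_inner_comm (f z)]
  simp_rw [h1, h2]
  rw [integral_finsetSum _ (fun k _ => (hI k).const_inner (b k)),
    integral_finsetSum _ (fun k _ => (hJ k).const_inner (b k))]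
  exact Finset.sum_congr rfl fun k _ => h0 k

private lemma t11_pair {E : Type*} [NormedAddCommGroup E] [InnerProductSpace ℝ E]
    {μ : Measure Pt} {p q : Pt → E} (hp : MemLp p 2 μ)
    (hq : MemLp q 2 μ) : Integrable (fun z => (inner ℝ (p z) (q z) : ℝ)) μ ∧
      |∫ z, inner ℝ (p z) (q z) ∂μ| ≤ (eLpNorm p 2 μ).toReal * (eLpNorm q 2 μ).toReal := by
  have hae : (fun z => (inner ℝ (hp.toLp p z) (hq.toLp q z) : ℝ))
      =ᵐ[μ] fun z => inner ℝ (p z) (q z) := by
    filter_upwards [hp.coeFn_toLp, hq.coeFn_toLp] with z h1 h2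
    rw [h1, h2]
  refine ⟨(L2.integrable_inner (hp.toLp p) (hq.toLp q)).congr hae, ?_⟩
  rw [← integral_congr_ae hae, ← L2.inner_def]
  refine (abs_real_inner_le_norm _ _).trans ?_
  rw [Lp.norm_toLp, Lp.norm_toLp]

private lemma t11_set {U S : Set Pt} (hU : IsOpen U) (hS : IsCompact S) (hSU : S ⊆ U) :
    ∃ (δ₀ : ℝ) (K : Set Pt), 0 < δ₀ ∧ IsCompact K ∧ K ⊆ U ∧ S ⊆ K ∧
      ∀ g : Pt, ‖g‖ ≤ δ₀ → ∀ z, mul g z ∈ S → z ∈ K := by
  have hcont : Continuous (fun p : Pt × Pt => mul (inv p.1) p.2) := by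
    unfold mul inv
    fun_prop
  have h0 : ∀ w : Pt, mul (inv 0) w = w := by
    intro w
    unfold mul inv
    refine Prod.ext ?_ (Prod.ext ?_ ?_) <;> simp
  have hn : ({0} : Set Pt) ×ˢ S ⊆ (fun p : Pt × Pt => mul (inv p.1) p.2) ⁻¹' U := by
    rintro ⟨g, w⟩ ⟨hg, hw⟩
    have hg' : g = 0 := hg
    subst hg'
    rw [mem_preimage]
    simp only
    rw [h0]
    exact hSU hw
  obtain ⟨u, v, hu, -, h0u, hSv, huv⟩ := generalized_tube_lemma isCompact_singleton hS
    (hU.preimage hcont) hn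
  obtain ⟨δ₀, hδ₀, hball⟩ := Metric.nhds_basis_closedBall.mem_iff.mp
    (hu.mem_nhds (h0u (mem_singleton 0)))
  refine ⟨δ₀, (fun p : Pt × Pt => mul (inv p.1) p.2) '' (Metric.closedBall 0 δ₀ ×ˢ S), hδ₀,
    ((isCompact_closedBall 0 δ₀).prod hS).image hcont, ?_, ?_, ?_⟩
  · rintro _ ⟨⟨g, w⟩, ⟨hg, hw⟩, rfl⟩
    exact huv ⟨hball hg, hSv hw⟩
  · intro w hw
    exact ⟨(0, w), ⟨Metric.mem_closedBall_self hδ₀.le, hw⟩, h0 w⟩
  · intro g hg z hz
    refine ⟨(g, mul g z), ⟨mem_closedBall_zero_iff.mpr hg, hz⟩, ?_⟩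
    simp only
    unfold mul inv
    refine Prod.ext ?_ (Prod.ext ?_ ?_) <;> simp
    ring

private lemma t11_zero {F : VF} {f g : Pt → W} (h : WD F univ f g) :
    ∀ᵐ z, z ∉ tsupport f → g z = 0 := by
  have ho : IsOpen (tsupport f)ᶜ := (isClosed_tsupport f).isOpen_compl
  have h1 := h.mono (subset_univ (tsupport f)ᶜ)
  have h2 : WD F (tsupport f)ᶜ f (fun _ => (0 : W)) := by
    refine WD.congr ho (WD.const (0 : W)) ?_ (ae_eq_refl _)
    filter_upwards [ae_restrict_mem ho.measurableSet] with z hz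
    exact (image_eq_zero_of_notMem_tsupport hz).symm
  have h3 := WD.uniq ho h1 h2
  rw [Filter.EventuallyEq, ae_restrict_iff' ho.measurableSet] at h3
  filter_upwards [h3] with z hz hz2
  exact hz hz2

theorem SolR.test {U : Set Pt} (hU : IsOpen U) {σ : Pt → V2 W} {h : Pt → W}
    (hσ : L2l U σ) (hh : L2l U h) (hs : SolR U σ h) {f g₀ g₁ : Pt → W}
    (hf : MemLp f 2 volume) (h0 : MemLp g₀ 2 volume) (h1 : MemLp g₁ 2 volume)
    (hc : HasCompactSupport f) (hsu : tsupport f ⊆ U)
    (w0 : WD vX univ f g₀) (w1 : WD vY univ f g₁) :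
    ∫ z, (inner ℝ (σ z 0) (g₀ z) + inner ℝ (σ z 1) (g₁ z)) = ∫ z, inner ℝ (h z) (f z) := by
  have hcW : CompleteSpace W := FiniteDimensional.complete ℝ W
  obtain ⟨δ₀, K, hδ₀, hK, hKU, hSK, hK2⟩ := t11_set hU hc hsu
  have hσK := hσ K hK hKU
  have hhK := hh K hK hKU
  have e1 : ∫ z, (inner ℝ (σ z 0) (g₀ z) + inner ℝ (σ z 1) (g₁ z))
      = ∫ z in K, (inner ℝ (σ z 0) (g₀ z) + inner ℝ (σ z 1) (g₁ z)) := by
    symm
    apply setIntegral_eq_integral_of_ae_compl_eq_zero
    filter_upwards [t11_zero w0, t11_zero w1] with z h2 h3 hz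
    have h4 : z ∉ tsupport f := fun h => hz (hSK h)
    rw [h2 h4, h3 h4, inner_zero_right, inner_zero_right, add_zero]
  have e2 : ∫ z, inner ℝ (h z) (f z) = ∫ z in K, inner ℝ (h z) (f z) := by
    symm
    apply setIntegral_eq_integral_of_forall_compl_eq_zero
    intro z hz
    have h4 : z ∉ tsupport f := fun h => hz (hSK h)
    rw [image_eq_zero_of_notMem_tsupport h4, inner_zero_right]
  rw [e1, e2, ← sub_eq_zero, ← abs_eq_zero]
  refine le_antisymm ?_ (abs_nonneg _)
  obtain ⟨A0, hA0⟩ : ∃ A0 : ℝ, A0 = (eLpNorm (fun z => σ z 0) 2 (volume.restrict K)).toReal :=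
    ⟨_, rfl⟩
  obtain ⟨A1, hA1⟩ : ∃ A1 : ℝ, A1 = (eLpNorm (fun z => σ z 1) 2 (volume.restrict K)).toReal :=
    ⟨_, rfl⟩
  obtain ⟨A2, hA2⟩ : ∃ A2 : ℝ, A2 = (eLpNorm h 2 (volume.restrict K)).toReal := ⟨_, rfl⟩
  have pA0 : 0 ≤ A0 := hA0 ▸ ENNReal.toReal_nonneg
  have pA1 : 0 ≤ A1 := hA1 ▸ ENNReal.toReal_nonneg
  have pA2 : 0 ≤ A2 := hA2 ▸ ENNReal.toReal_nonneg
  refine le_of_forall_pos_le_add fun η hη => ?_
  rw [zero_add]
  obtain ⟨ε, hε⟩ : ∃ ε : ℝ, ε = η / (A0 + A1 + A2 + 1) := ⟨_, rfl⟩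
  have hε0 : 0 < ε := by rw [hε]; positivity
  have hεE : (0 : ℝ≥0∞) < ENNReal.ofReal ε := ENNReal.ofReal_pos.mpr hε0
  have hfin : Integrable f := by
    have h2 : IntegrableOn f (tsupport f) := by
      have hfm : IsFiniteMeasure (volume.restrict (tsupport f)) := ⟨by
        rw [Measure.restrict_apply_univ]; exact IsCompact.measure_lt_top hc⟩
      exact (hf.restrict _).integrable (by norm_num)
    exact (integrableOn_iff_integrable_of_support_subset (subset_tsupport f)).mp h2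
  have tr : ∀ q : Pt → W, MemLp q 2 volume → MemLp q 2 (volume.restrict univ) := fun q hq => by
    rwa [Measure.restrict_univ]
  obtain ⟨d0, pd0, -, hd0⟩ := lav_tendsto MeasurableSet.univ MeasurableSet.univ hδ₀
    (fun _ _ _ _ => mem_univ _) (q := 2) (by norm_num) (by norm_num) (tr _ hf) hεE
  obtain ⟨d1, pd1, -, hd1⟩ := lav_tendsto MeasurableSet.univ MeasurableSet.univ hδ₀
    (fun _ _ _ _ => mem_univ _) (q := 2) (by norm_num) (by norm_num) (tr _ h0) hεE
  obtain ⟨d2, pd2, -, hd2⟩ := lav_tendsto MeasurableSet.univ MeasurableSet.univ hδ₀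
    (fun _ _ _ _ => mem_univ _) (q := 2) (by norm_num) (by norm_num) (tr _ h1) hεE
  obtain ⟨δ, hδ⟩ : ∃ δ : ℝ, δ = min δ₀ (min d0 (min d1 d2)) := ⟨_, rfl⟩
  have hδ0 : 0 < δ := by rw [hδ]; exact lt_min hδ₀ (lt_min pd0 (lt_min pd1 pd2))
  have hδa : δ ≤ δ₀ := by rw [hδ]; exact min_le_left _ _
  have hδb : δ ≤ d0 := by rw [hδ]; exact (min_le_right _ _).trans (min_le_left _ _)
  have hδc : δ ≤ d1 := by
    rw [hδ]; exact (min_le_right _ _).trans ((min_le_right _ _).trans (min_le_left _ _))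
  have hδd : δ ≤ d2 := by
    rw [hδ]; exact (min_le_right _ _).trans ((min_le_right _ _).trans (min_le_right _ _))
  obtain ⟨ρ, hρ⟩ := exists_ker hδ0
  obtain ⟨m0, n0⟩ := hd0 δ hδ0 hδb ρ hρ
  obtain ⟨m1, n1⟩ := hd1 δ hδ0 hδc ρ hρ
  obtain ⟨m2, n2⟩ := hd2 δ hδ0 hδd ρ hρ
  have hsm := lav_smooth hρ hfin
  have hsupp : tsupport (lav ρ f) ⊆ K := by
    refine closure_minimal (fun z hz => ?_) hK.isClosed
    obtain ⟨g, hg1, hg2⟩ := lav_supp hρ hz
    exact hK2 g (hg1.trans hδa) z hg2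
  have hX : der vX (lav ρ f) =ᵐ[volume.restrict univ] lav ρ g₀ :=
    WD.uniq isOpen_univ (t11_wd vX hsm) (lav_WD isOpen_univ isOpen_univ hρ
      (fun _ _ _ _ => mem_univ _) (Or.inl rfl) w0)
  have hY : der vY (lav ρ f) =ᵐ[volume.restrict univ] lav ρ g₁ :=
    WD.uniq isOpen_univ (t11_wd vY hsm) (lav_WD isOpen_univ isOpen_univ hρ
      (fun _ _ _ _ => mem_univ _) (Or.inr (Or.inl rfl)) w1)
  have hsol := t11_smooth hK hKU hσ hh hs hsm hsupp
  rw [Measure.restrict_univ] at hX hY m0 m1 m2 n0 n1 n2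
  have hsol2 : ∫ z in K, (inner ℝ (σ z 0) (lav ρ g₀ z) + inner ℝ (σ z 1) (lav ρ g₁ z))
      = ∫ z in K, inner ℝ (h z) (lav ρ f z) := by
    rw [← hsol]
    refine integral_congr_ae (ae_restrict_of_ae ?_)
    filter_upwards [hX, hY] with z h2 h3
    rw [h2, h3]
  -- differences
  have dif : ∀ (p q r : Pt → W) (A : ℝ), MemLp p 2 (volume.restrict K) → MemLp q 2 volume →
      MemLp r 2 volume → eLpNorm (fun z => r z - q z) 2 volume ≤ ENNReal.ofReal ε →
      A = (eLpNorm p 2 (volume.restrict K)).toReal →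
      |(∫ z in K, inner ℝ (p z) (r z)) - ∫ z in K, inner ℝ (p z) (q z)| ≤ A * ε := by
    intro p q r A hp hq hr hrq hA
    have i1 := (t11_pair hp (hr.restrict K)).1
    have i2 := (t11_pair hp (hq.restrict K)).1
    rw [← integral_sub i1 i2]
    have e : ∀ z, (inner ℝ (p z) (r z) : ℝ) - inner ℝ (p z) (q z) = inner ℝ (p z) (r z - q z) :=
      fun z => by rw [inner_sub_right]
    simp_rw [e]
    have hd : MemLp (fun z => r z - q z) 2 (volume.restrict K) := (hr.sub hq).restrict K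
    refine (t11_pair hp hd).2.trans ?_
    rw [← hA]
    have hA' : 0 ≤ A := hA ▸ ENNReal.toReal_nonneg
    refine mul_le_mul_of_nonneg_left ?_ hA'
    have h5 : eLpNorm (fun z => r z - q z) 2 (volume.restrict K) ≤ ENNReal.ofReal ε :=
      (eLpNorm_mono_measure _ Measure.restrict_le_self).trans hrq
    exact ENNReal.toReal_le_of_le_ofReal hε0.le h5
  have b0 := dif (fun z => σ z 0) g₀ (lav ρ g₀) A0 (t11_comp hσK 0) h0 m1 n1 hA0
  have b1 := dif (fun z => σ z 1) g₁ (lav ρ g₁) A1 (t11_comp hσK 1) h1 m2 n2 hA1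
  have b2 := dif h f (lav ρ f) A2 hhK hf m0 n0 hA2
  have i0 := (t11_pair (t11_comp hσK 0) (h0.restrict K)).1
  have i1 := (t11_pair (t11_comp hσK 1) (h1.restrict K)).1
  have j0 := (t11_pair (t11_comp hσK 0) (m1.restrict K)).1
  have j1 := (t11_pair (t11_comp hσK 1) (m2.restrict K)).1
  rw [integral_add j0 j1] at hsol2
  rw [integral_add i0 i1]
  have hfinal : (A0 + A1 + A2) * ε ≤ η := by
    rw [hε, mul_div_assoc', div_le_iff₀ (by positivity)]
    nlinarith
  rw [abs_le] at b0 b1 b2 ⊢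
  constructor <;> nlinarith [b0.1, b0.2, b1.1, b1.2, b2.1, b2.2]

/-- The version with a cut-off: the test function is `η f` with `f` Sobolev on `U`. -/
theorem SolR.test' {U : Set Pt} (hU : IsOpen U) {σ : Pt → V2 W} {h : Pt → W}
    (hσ : L2l U σ) (hh : L2l U h) (hs : SolR U σ h) {f g₀ g₁ : Pt → W}
    (hf : L2l U f) (h0 : L2l U g₀) (h1 : L2l U g₁)
    (w0 : WD vX U f g₀) (w1 : WD vY U f g₁) {η : Pt → ℝ} (hη : Tst U η) :
    ∫ z, (inner ℝ (σ z 0) (η z • g₀ z + der vX η z • f z) +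
      inner ℝ (σ z 1) (η z • g₁ z + der vY η z • f z)) = ∫ z, η z * inner ℝ (h z) (f z) := by
  have hcW : CompleteSpace W := FiniteDimensional.complete ℝ W
  have hm := t11_smul hη.smooth.continuous hη.cpt hη.supp hf
  have hX := hη.der vX
  have hY := hη.der vY
  have m0 : MemLp (fun z => η z • g₀ z + der vX η z • f z) 2 volume :=
    (t11_smul hη.smooth.continuous hη.cpt hη.supp h0).add
      (t11_smul hX.smooth.continuous hX.cpt hX.supp hf)
  have m1 : MemLp (fun z => η z • g₁ z + der vY η z • f z) 2 volume :=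
    (t11_smul hη.smooth.continuous hη.cpt hη.supp h1).add
      (t11_smul hY.smooth.continuous hY.cpt hY.supp hf)
  have key := SolR.test hU hσ hh hs hm m0 m1 hη.cpt.smul_right
    ((tsupport_smul_subset_left η f).trans hη.supp) (w0.extend hU hη) (w1.extend hU hη)
  rw [key]
  simp_rw [real_inner_smul_right]

theorem Sol0.solR {U : Set Pt} {σ : Pt → V2 W} (h : Sol0 U σ) : SolR U σ (fun _ => 0) := by
  intro φ hφ
  simpa using h φ hφ

end W

end PLH
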