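import Pool.Agent.Lib.PLH.T5
import Pool.Agent.Lib.PLH.T6
import Pool.Agent.Lib.PLH.T7

/-!
MODULE T13 (120 lines). Chain rule for Lipschitz functions.

For compact `K ⊆ U` let `K ⊆ int K' ⊆ K' ⊆ U`; for small `s` the flow lines stay in `K'`, so
`∫_K ‖G(f(F.fl s z)) - G(f z)‖² ≤ c² ∫_K ‖f(F.fl s z) - f z‖² ≤ c² s² ∫_{K'} ‖g‖²` (`WD.lsq_le`), and
`wd_of_dq` applies. `G∘f ∈ L²_loc` since `‖G(f z)‖ ≤ ‖G 0‖ + c ‖f z‖`.
`seq2`: `WD.ae_seq` for the function `z ↦ (f z, G (f z))` with values in `E × E'`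
(the weak derivative of a pair is the pair of the weak derivatives).
-/

open MeasureTheory Set Filter Topology
open scoped ContDiff ENNReal

namespace PLH

variable {E : Type*} [NormedAddCommGroup E] [NormedSpace ℝ E] [CompleteSpace E]
variable {E' : Type*} [NormedAddCommGroup E'] [InnerProductSpace ℝ E'] [CompleteSpace E']

private theorem t13_flow_near (F : VF) {K U : Set Pt} (hK : IsCompact K) (hU : IsOpen U)
    (hKU : K ⊆ U) : ∃ K' : Set Pt, IsCompact K' ∧ K' ⊆ U ∧ K ⊆ K' ∧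
      ∃ s₁ : ℝ, 0 < s₁ ∧ ∀ s : ℝ, |s| ≤ s₁ → ∀ z ∈ K, F.fl s z ∈ K' := by
  obtain ⟨δ, hδ, hδU⟩ := hK.exists_cthickening_subset_open hU hKU
  obtain ⟨R, hR⟩ := hK.isBounded.exists_norm_le
  have hsz : 0 ≤ F.sz := by
    unfold VF.sz
    positivity
  refine ⟨Metric.cthickening δ K, hK.cthickening, hδU, Metric.self_subset_cthickening K,
    δ / (F.sz * (1 + |R|) + 1), by positivity, ?_⟩
  intro s hs z hz
  refine Metric.mem_cthickening_of_dist_le _ z δ K hz ?_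
  rw [dist_eq_norm]
  refine (F.norm_fl_sub s z).trans ?_
  have h1 : F.sz * (1 + ‖z‖) ≤ F.sz * (1 + |R|) + 1 := by
    have : ‖z‖ ≤ |R| := (hR z hz).trans (le_abs_self R)
    nlinarith
  have h2 : 0 ≤ F.sz * (1 + |R|) + 1 := by positivity
  calc |s| * (F.sz * (1 + ‖z‖)) ≤ (δ / (F.sz * (1 + |R|) + 1)) * (F.sz * (1 + |R|) + 1) :=
        mul_le_mul hs h1 (by positivity) (by positivity)
    _ = δ := by
        field_simp

omit [NormedSpace ℝ E] [CompleteSpace E] [InnerProductSpace ℝ E'] [CompleteSpace E'] in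
private theorem t13_L2l_lip {U : Set Pt} {f : Pt → E} (lf : L2l U f) {G : E → E'} {c : NNReal}
    (hG : LipschitzWith c G) : L2l U (fun z => G (f z)) := by
  intro K hK hKU
  have hfin : IsFiniteMeasure (volume.restrict K) := ⟨by
    rw [Measure.restrict_apply_univ]
    exact hK.measure_lt_top⟩
  have h1 : LipschitzWith c fun x => G x - G 0 :=
    LipschitzWith.of_dist_le_mul fun x y => by
      rw [dist_sub_right]
      exact hG.dist_le_mul x y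
  have h2 : MemLp ((fun x => G x - G 0) ∘ f) 2 (volume.restrict K) :=
    h1.comp_memLp (by simp) (lf K hK hKU)
  have h3 : MemLp (fun _ : Pt => G 0) 2 (volume.restrict K) := memLp_const _
  refine (h2.add h3).ae_eq (Eventually.of_forall fun z => ?_)
  show G (f z) - G 0 + G 0 = G (f z)
  rw [sub_add_cancel]

theorem WD.lip {F : VF} {U : Set Pt} (hU : IsOpen U) {f g : Pt → E} (h : WD F U f g)
    (lf : L2l U f) (lg : L2l U g) {G : E → E'} {c : NNReal} (hG : LipschitzWith c G)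
    {U₁ : Set Pt} (hU₁ : IsOpen U₁) (hc : IsCompact (closure U₁)) (hcU : closure U₁ ⊆ U) :
    ∃ g' : Pt → E', MemLp g' 2 (volume.restrict U₁) ∧ WD F U₁ (fun z => G (f z)) g' := by
  refine wd_of_dq hU (t13_L2l_lip lf hG) ?_ hU₁ hc hcU
  intro K hK hKU
  obtain ⟨K', hK', hK'U, -, s₁, hs₁, hfl⟩ := t13_flow_near F hK hU hKU
  have hgK : MemLp g 2 (volume.restrict K') := lg K' hK' hK'U
  have hfin : ∫⁻ z in K', ‖g z‖ₑ ^ 2 ≠ ⊤ := by
    have h1 := hgK.eLpNorm_lt_top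
    rw [eLpNorm_lt_top_iff_lintegral_rpow_enorm_lt_top (by norm_num) (by norm_num)] at h1
    simpa using h1.ne
  refine ⟨s₁, hs₁, (c : ℝ) ^ 2 * (∫⁻ z in K', ‖g z‖ₑ ^ 2).toReal, fun s hs => ?_⟩
  have h1 := h.lsq_le hU hK.measurableSet hK'.measurableSet hK'U s (fun z hz σ hσ => by
    refine hfl _ ?_ z hz
    rw [abs_mul, abs_of_nonneg hσ.1]
    exact (mul_le_of_le_one_left (abs_nonneg s) hσ.2).trans hs)
  have h2 : ∀ z, ‖G (f (F.fl s z)) - G (f z)‖ₑ ^ 2 ≤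
      (c : ℝ≥0∞) ^ 2 * ‖f (F.fl s z) - f z‖ₑ ^ 2 := by
    intro z
    rw [← mul_pow]
    refine pow_le_pow_left₀ bot_le ?_ 2
    have h3 := hG (f (F.fl s z)) (f z)
    rwa [edist_eq_enorm_sub, edist_eq_enorm_sub] at h3
  calc ∫⁻ z in K, ‖G (f (F.fl s z)) - G (f z)‖ₑ ^ 2
      ≤ ∫⁻ z in K, (c : ℝ≥0∞) ^ 2 * ‖f (F.fl s z) - f z‖ₑ ^ 2 := lintegral_mono h2
    _ = (c : ℝ≥0∞) ^ 2 * ∫⁻ z in K, ‖f (F.fl s z) - f z‖ₑ ^ 2 :=
        lintegral_const_mul' _ _ (by simp)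
    _ ≤ (c : ℝ≥0∞) ^ 2 * (ENNReal.ofReal (s ^ 2) * ∫⁻ z in K', ‖g z‖ₑ ^ 2) :=
        mul_le_mul_right h1 _
    _ = ENNReal.ofReal ((c : ℝ) ^ 2 * (∫⁻ z in K', ‖g z‖ₑ ^ 2).toReal * s ^ 2) := by
        have e1 : ENNReal.ofReal ((c : ℝ) ^ 2) = (c : ℝ≥0∞) ^ 2 := by
          rw [ENNReal.ofReal_pow c.coe_nonneg, ENNReal.ofReal_coe_nnreal]
        rw [ENNReal.ofReal_mul (by positivity), ENNReal.ofReal_mul (by positivity),
          ENNReal.ofReal_toReal hfin, e1]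
        ring

theorem WD.seq2 {E'' : Type*} [NormedAddCommGroup E''] [NormedSpace ℝ E''] [CompleteSpace E'']
    {F : VF} {U : Set Pt} (hU : IsOpen U) {f g : Pt → E} (h : WD F U f g) (lg : L2l U g)
    {f₁ g₁ : Pt → E'} (h₁ : WD F U f₁ g₁) (lg₁ : L2l U g₁)
    {f₂ g₂ : Pt → E''} (h₂ : WD F U f₂ g₂) (lg₂ : L2l U g₂) :
    ∃ s : ℕ → ℝ, (∀ n, s n ≠ 0) ∧ Tendsto s atTop (𝓝 0) ∧
      ∀ᵐ z ∂(volume.restrict U),
        Tendsto (fun n => (s n)⁻¹ • (f (F.fl (s n) z) - f z)) atTop (𝓝 (g z)) ∧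
        Tendsto (fun n => (s n)⁻¹ • (f₁ (F.fl (s n) z) - f₁ z)) atTop (𝓝 (g₁ z)) ∧
        Tendsto (fun n => (s n)⁻¹ • (f₂ (F.fl (s n) z) - f₂ z)) atTop (𝓝 (g₂ z)) := by
  let φ₀ : E →L[ℝ] E × (E' × E'') := ContinuousLinearMap.inl ℝ E (E' × E'')
  let φ₁ : E' →L[ℝ] E × (E' × E'') :=
    (ContinuousLinearMap.inr ℝ E (E' × E'')).comp (ContinuousLinearMap.inl ℝ E' E'')
  let φ₂ : E'' →L[ℝ] E × (E' × E'') :=
    (ContinuousLinearMap.inr ℝ E (E' × E'')).comp (ContinuousLinearMap.inr ℝ E' E'')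
  have h3 := (h.clm φ₀).add ((h₁.clm φ₁).add (h₂.clm φ₂))
  have h4 : L2l U (fun z => φ₀ (g z) + (φ₁ (g₁ z) + φ₂ (g₂ z))) := by
    intro K hK hKU
    exact (φ₀.comp_memLp' (lg K hK hKU)).add
      ((φ₁.comp_memLp' (lg₁ K hK hKU)).add (φ₂.comp_memLp' (lg₂ K hK hKU)))
  obtain ⟨s, hs0, hs, hae⟩ := h3.ae_seq hU h4
  refine ⟨s, hs0, hs, hae.mono fun z hz => ⟨?_, ?_, ?_⟩⟩
  · have h5 := (continuous_fst.tendsto _).comp hz
    refine (h5.congr fun n => ?_).trans (le_of_eq ?_)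
    · simp [φ₀, φ₁, φ₂]
    · simp [φ₀, φ₁, φ₂]
  · have h5 := ((continuous_fst.comp continuous_snd).tendsto _).comp hz
    refine (h5.congr fun n => ?_).trans (le_of_eq ?_)
    · simp [φ₀, φ₁, φ₂]
    · simp [φ₀, φ₁, φ₂]
  · have h5 := ((continuous_snd.comp continuous_snd).tendsto _).comp hz
    refine (h5.congr fun n => ?_).trans (le_of_eq ?_)
    · simp [φ₀, φ₁, φ₂]
    · simp [φ₀, φ₁, φ₂]

end PLH
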