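import Pool.Agent.Lib.PLH.T1

/-!
MODULE T2 (250 lines). The fundamental theorem of calculus for weak derivatives.

Let `S₀ = {z | ∀ σ ∈ [0,1], F.fl (σ s) z ∈ U}`; it is open (compactness of `[0,1]`, tube lemma) and
contains `S`, so it is enough to prove the identity a.e. on `S₀`
(`ae_restrict_of_ae_restrict_of_subset`). Both sides are locally integrable on `S₀`: for a compact
`K ⊆ S₀` the set `K' = {F.fl (σ s) z : σ ∈ [0,1], z ∈ K}` is compact in `U`, and `F.fl` is measure
preserving (Fubini on `[0,1] × K`). For a test function `φ` on `S₀`: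
`∫ φ (f∘F.fl s - f) = ∫ (φ∘F.fl(-s) - φ) f` (measure preserving, inverse map), and
`φ(F.fl(-s) z) - φ z = -∫₀¹ s (der F φ)(F.fl(-σ s) z) dσ = -∫₀¹ s der F (φ∘F.fl(-σ s)) z dσ`
(`hasDerivAt_fl`, `der_comp`). By Fubini and the definition of the weak derivative, applied to the
test functions `φ∘F.fl(-σ s)` (support `F.fl(σ s)(supp φ) ⊆ U`), this is
`∫₀¹ s ∫ φ(F.fl(-σ s) z) g z dz dσ = ∫₀¹ s ∫ φ z g(F.fl(σ s) z) dz dσ`.
Conclude with `IsOpen.ae_eq_zero_of_integral_contDiff_smul_eq_zero`.
-/

open MeasureTheory Set Filter Topology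
open scoped ContDiff

namespace PLH

variable {E : Type*} [NormedAddCommGroup E] [NormedSpace ℝ E] [CompleteSpace E]

/-- Lebesgue measure on the unit interval -/
private noncomputable abbrev nu : Measure ℝ := volume.restrict (Ioc (0 : ℝ) 1)

private theorem cont_fls (F : VF) (s : ℝ) : Continuous (fun p : ℝ × Pt => F.fl (p.1 * s) p.2) :=
  F.cont_fl.comp ((continuous_fst.mul continuous_const).prodMk continuous_snd)

omit [NormedSpace ℝ E] [CompleteSpace E] in
private theorem int_prod (F : VF) (s : ℝ) {g : Pt → E} (hg : Integrable g) :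
    Integrable (fun p : ℝ × Pt => g (F.fl (p.1 * s) p.2)) (nu.prod volume) := by
  have h1 : Integrable (fun p : ℝ × Pt => g p.2) (nu.prod volume) := hg.comp_snd _
  have h2 : MeasurePreserving (fun p : ℝ × Pt => (p.1, F.fl (p.1 * s) p.2))
      (nu.prod volume) (nu.prod volume) :=
    (MeasurePreserving.id nu).skew_product (g := fun σ z => F.fl (σ * s) z)
      (cont_fls F s).measurable (ae_of_all _ fun σ => (F.mp (σ * s)).map_eq)
  exact (h2.integrable_comp h1.aestronglyMeasurable).2 h1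

/-- the remainder -/
private noncomputable def Rem (F : VF) (s : ℝ) (f g : Pt → E) (z : Pt) : E :=
  f (F.fl s z) - f z - ∫ σ, s • g (F.fl (σ * s) z) ∂nu

omit [CompleteSpace E] in
private theorem rem_integrable (F : VF) (s : ℝ) {f g : Pt → E} (hf : Integrable f)
    (hg : Integrable g) : Integrable (Rem F s f g) := by
  have h1 : Integrable (fun z => f (F.fl s z)) :=
    ((F.mp s).integrable_comp hf.aestronglyMeasurable).2 hf
  have h2 : Integrable (fun z => ∫ σ, s • g (F.fl (σ * s) z) ∂nu) := by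
    have h3 := (int_prod F s hg).smul s
    exact h3.integral_prod_right
  exact (h1.sub hf).sub h2

private theorem ibp (F : VF) (s : ℝ) {f g : Pt → E} (hf : Integrable f)
    (hg : Integrable g) {φ : Pt → ℝ} (hφ : Tst univ φ)
    (hw : ∀ σ ∈ Ioc (0 : ℝ) 1, ∫ w, der F φ (F.fl (-(σ * s)) w) • f w
      = -∫ w, φ (F.fl (-(σ * s)) w) • g w) :
    ∫ z, φ z • Rem F s f g z = 0 := by
  have hφc : Continuous φ := hφ.smooth.continuous
  obtain ⟨C, hC⟩ := hφ.cpt.exists_bound_of_continuous hφc
  have hD := hφ.der F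
  have hDc : Continuous (der F φ) := hD.smooth.continuous
  obtain ⟨C', hC'⟩ := hD.cpt.exists_bound_of_continuous hDc
  have h1 : Integrable (fun z => f (F.fl s z)) :=
    ((F.mp s).integrable_comp hf.aestronglyMeasurable).2 hf
  have i1 : Integrable (fun z => φ z • f (F.fl s z)) :=
    h1.bdd_smul C hφc.aestronglyMeasurable (ae_of_all _ hC)
  have i2 : Integrable (fun z => φ z • f z) :=
    hf.bdd_smul C hφc.aestronglyMeasurable (ae_of_all _ hC)
  have i3 : Integrable (fun z => ∫ σ, s • g (F.fl (σ * s) z) ∂nu) := by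
    have h3 := (int_prod F s hg).smul s
    exact h3.integral_prod_right
  have i4 : Integrable (fun z => φ z • ∫ σ, s • g (F.fl (σ * s) z) ∂nu) :=
    i3.bdd_smul C hφc.aestronglyMeasurable (ae_of_all _ hC)
  have e0 : ∫ z, φ z • Rem F s f g z = (∫ z, φ z • f (F.fl s z)) - (∫ z, φ z • f z)
      - ∫ z, φ z • ∫ σ, s • g (F.fl (σ * s) z) ∂nu := by
    have hA : Integrable (fun z => φ z • f (F.fl s z) - φ z • f z) := i1.sub i2
    rw [← integral_sub i1 i2, ← integral_sub hA i4]
    refine integral_congr_ae (ae_of_all _ fun z => ?_)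
    simp only [Rem, smul_sub]
  -- first term
  have e1 : ∫ z, φ z • f (F.fl s z) = ∫ w, φ (F.fl (-s) w) • f w := by
    have := (F.mp s).integral_comp (F.flH s).measurableEmbedding (fun w => φ (F.fl (-s) w) • f w)
    rw [← this]
    refine integral_congr_ae (ae_of_all _ fun z => ?_)
    simp only
    rw [F.fl_fl (-s) s z, neg_add_cancel, F.fl_zero]
  have i5 : Integrable (fun w => φ (F.fl (-s) w) • f w) :=
    hf.bdd_smul C (hφc.comp (F.smooth_fl (-s)).continuous).aestronglyMeasurable
      (ae_of_all _ fun w => hC _)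
  have e2 : (∫ z, φ z • f (F.fl s z)) - (∫ z, φ z • f z)
      = ∫ w, ∫ σ, (-s * der F φ (F.fl (-(σ * s)) w)) • f w ∂nu := by
    rw [e1, ← integral_sub i5 i2]
    refine integral_congr_ae (ae_of_all _ fun w => ?_)
    simp only
    rw [← sub_smul, integral_smul_const]
    congr 1
    have hder : ∀ σ : ℝ, HasDerivAt (fun r => φ (F.fl (-(r * s)) w))
        (-s * der F φ (F.fl (-(σ * s)) w)) σ := by
      intro σ
      have h5 := F.hasDerivAt_fl (hφ.smooth.differentiable (by simp)) (-(σ * s)) w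
      have h6 : HasDerivAt (fun r : ℝ => -(r * s)) (-s) σ := by
        have := ((hasDerivAt_id σ).mul_const s).neg
        rw [one_mul] at this
        exact this
      have h7 := HasDerivAt.scomp (g₁ := fun r => φ (F.fl r w)) (h := fun r : ℝ => -(r * s))
        σ h5 h6
      rw [smul_eq_mul] at h7
      exact h7
    have h8 : Continuous (fun σ : ℝ => -s * der F φ (F.fl (-(σ * s)) w)) := by
      refine continuous_const.mul (hDc.comp ?_)
      exact F.cont_fl.comp (((continuous_id.mul continuous_const).neg).prodMk continuous_const)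
    have h9 := intervalIntegral.integral_eq_sub_of_hasDerivAt (a := 0) (b := 1)
      (fun σ _ => hder σ) (h8.intervalIntegrable 0 1)
    rw [intervalIntegral.integral_of_le zero_le_one] at h9
    rw [h9]
    simp [F.fl_zero]
  -- Fubini
  have i6 : Integrable (Function.uncurry fun (σ : ℝ) (w : Pt) =>
      (-s * der F φ (F.fl (-(σ * s)) w)) • f w) (nu.prod volume) := by
    have h10 : Integrable (fun p : ℝ × Pt => f p.2) (nu.prod volume) := hf.comp_snd _
    have h11 : Continuous (fun p : ℝ × Pt => -s * der F φ (F.fl (-(p.1 * s)) p.2)) := by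
      refine continuous_const.mul (hDc.comp ?_)
      exact F.cont_fl.comp (((continuous_fst.mul continuous_const).neg).prodMk continuous_snd)
    refine h10.bdd_smul (|s| * C') h11.aestronglyMeasurable (ae_of_all _ fun p => ?_)
    rw [norm_mul, norm_neg, Real.norm_eq_abs]
    exact mul_le_mul_of_nonneg_left (hC' _) (abs_nonneg _)
  have e3 : ∫ w, ∫ σ, (-s * der F φ (F.fl (-(σ * s)) w)) • f w ∂nu
      = ∫ σ, (∫ w, (-s * der F φ (F.fl (-(σ * s)) w)) • f w) ∂nu :=
    (integral_integral_swap i6).symm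
  have i7 : Integrable (Function.uncurry fun (σ : ℝ) (z : Pt) =>
      φ z • (s • g (F.fl (σ * s) z))) (nu.prod volume) := by
    have h3 := (int_prod F s hg).smul s
    exact h3.bdd_smul C (hφc.comp continuous_snd).aestronglyMeasurable
      (ae_of_all _ fun p => hC _)
  have e4 : ∫ z, φ z • ∫ σ, s • g (F.fl (σ * s) z) ∂nu
      = ∫ σ, (∫ z, φ z • (s • g (F.fl (σ * s) z))) ∂nu := by
    rw [integral_integral_swap i7]
    refine integral_congr_ae (ae_of_all _ fun z => ?_)
    exact (integral_smul (φ z) _).symm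
  rw [e0, e2, e3, e4, sub_eq_zero]
  refine integral_congr_ae ?_
  filter_upwards [ae_restrict_mem measurableSet_Ioc] with σ hσ
  have e5 : ∫ w, (-s * der F φ (F.fl (-(σ * s)) w)) • f w
      = (-s) • ∫ w, der F φ (F.fl (-(σ * s)) w) • f w := by
    rw [← integral_smul]
    refine integral_congr_ae (ae_of_all _ fun w => ?_)
    simp only
    rw [mul_smul]
  have e6 : ∫ z, φ z • (s • g (F.fl (σ * s) z)) = s • ∫ w, φ (F.fl (-(σ * s)) w) • g w := by
    have := (F.mp (σ * s)).integral_comp (F.flH (σ * s)).measurableEmbedding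
      (fun w => φ (F.fl (-(σ * s)) w) • g w)
    rw [← this, ← integral_smul]
    refine integral_congr_ae (ae_of_all _ fun z => ?_)
    simp only
    rw [F.fl_fl (-(σ * s)) (σ * s) z, neg_add_cancel, F.fl_zero, smul_comm]
  rw [e5, hw σ hσ, e6]
  simp

theorem WD.ftc {F : VF} {U : Set Pt} (hU : IsOpen U) {f g : Pt → E} (h : WD F U f g) (s : ℝ)
    {S : Set Pt} (hS : MeasurableSet S)
    (hp : ∀ z ∈ S, ∀ σ ∈ Icc (0 : ℝ) 1, F.fl (σ * s) z ∈ U) :
    ∀ᵐ z ∂(volume.restrict S),
      f (F.fl s z) - f z = ∫ σ in (0 : ℝ)..1, s • g (F.fl (σ * s) z) := by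
  set S₀ : Set Pt := {z | ∀ σ ∈ Icc (0 : ℝ) 1, F.fl (σ * s) z ∈ U} with hS₀
  have hopen : IsOpen S₀ := by
    rw [isOpen_iff_mem_nhds]
    intro z hz
    have hc : Continuous (fun p : Pt × ℝ => F.fl (p.2 * s) p.1) :=
      (cont_fls F s).comp continuous_swap
    exact isCompact_Icc.eventually_forall_of_forall_eventually
      (P := fun z σ => F.fl (σ * s) z ∈ U) fun σ hσ =>
        hc.continuousAt.eventually (hU.mem_nhds (hz σ hσ))
  have hKK : ∀ K : Set Pt, K ⊆ S₀ → IsCompact K → ∃ K' : Set Pt, IsCompact K' ∧ K' ⊆ U ∧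
      ∀ z ∈ K, ∀ σ ∈ Icc (0 : ℝ) 1, F.fl (σ * s) z ∈ K' := by
    intro K hK hKc
    refine ⟨(fun p : ℝ × Pt => F.fl (p.1 * s) p.2) '' (Icc (0 : ℝ) 1 ×ˢ K),
      (isCompact_Icc.prod hKc).image (cont_fls F s), ?_, ?_⟩
    · rintro _ ⟨⟨σ, z⟩, ⟨h1, h2⟩, rfl⟩
      exact hK h2 σ h1
    · intro z hz σ hσ
      exact ⟨(σ, z), ⟨hσ, hz⟩, rfl⟩
  have hfi : ∀ K' : Set Pt, IsCompact K' → K' ⊆ U → Integrable (K'.indicator f) := by
    intro K' hK' hKU
    exact (h.lf.integrableOn_compact_subset hKU hK').integrable_indicator hK'.measurableSet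
  have hgi : ∀ K' : Set Pt, IsCompact K' → K' ⊆ U → Integrable (K'.indicator g) := by
    intro K' hK' hKU
    exact (h.lg.integrableOn_compact_subset hKU hK').integrable_indicator hK'.measurableSet
  have hrem : ∀ K K' : Set Pt, (∀ z ∈ K, ∀ σ ∈ Icc (0 : ℝ) 1, F.fl (σ * s) z ∈ K') →
      ∀ z ∈ K, Rem F s f g z = Rem F s (K'.indicator f) (K'.indicator g) z := by
    intro K K' hKK' z hz
    have h1 : F.fl s z ∈ K' := by
      have := hKK' z hz 1 ⟨zero_le_one, le_rfl⟩
      rwa [one_mul] at this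
    have h2 : z ∈ K' := by
      have := hKK' z hz 0 ⟨le_rfl, zero_le_one⟩
      rwa [zero_mul, F.fl_zero] at this
    unfold Rem
    rw [indicator_of_mem h1, indicator_of_mem h2]
    congr 1
    refine integral_congr_ae ?_
    filter_upwards [ae_restrict_mem measurableSet_Ioc] with σ hσ
    rw [indicator_of_mem (hKK' z hz σ ⟨hσ.1.le, hσ.2⟩)]
  have hloc : LocallyIntegrableOn (Rem F s f g) S₀ := by
    rw [locallyIntegrableOn_iff hopen.isLocallyClosed]
    intro K hK hKc
    obtain ⟨K', hK', hKU, hKK'⟩ := hKK K hK hKc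
    have h1 : IntegrableOn (Rem F s (K'.indicator f) (K'.indicator g)) K :=
      (rem_integrable F s (hfi K' hK' hKU) (hgi K' hK' hKU)).integrableOn
    exact h1.congr_fun (fun z hz => (hrem K K' hKK' z hz).symm) hKc.measurableSet
  have hzero : ∀ᵐ z ∂(volume : Measure Pt), z ∈ S₀ → Rem F s f g z = 0 := by
    refine hopen.ae_eq_zero_of_integral_contDiff_smul_eq_zero hloc fun φ hφ1 hφ2 hφ3 => ?_
    obtain ⟨K', hK', hKU, hKK'⟩ := hKK (tsupport φ) hφ3 hφ2
    have e1 : ∫ z, φ z • Rem F s f g z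
        = ∫ z, φ z • Rem F s (K'.indicator f) (K'.indicator g) z := by
      refine integral_congr_ae (ae_of_all _ fun z => ?_)
      simp only
      by_cases hz : z ∈ tsupport φ
      · rw [hrem _ _ hKK' z hz]
      · rw [image_eq_zero_of_notMem_tsupport hz, zero_smul, zero_smul]
    rw [e1]
    refine ibp F s (hfi K' hK' hKU) (hgi K' hK' hKU) ⟨hφ1, hφ2, subset_univ _⟩ fun σ hσ => ?_
    have hT : Tst (tsupport φ) φ := ⟨hφ1, hφ2, Subset.rfl⟩
    have hT2 := hT.comp_fl F (-(σ * s))
    have hsub : F.fl (-(σ * s)) ⁻¹' tsupport φ ⊆ K' := by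
      intro w hw
      have := hKK' _ hw σ ⟨hσ.1.le, hσ.2⟩
      rwa [F.fl_fl, add_neg_cancel, F.fl_zero] at this
    have hT3 : Tst U (fun z => φ (F.fl (-(σ * s)) z)) :=
      ⟨hT2.smooth, hT2.cpt, hT2.supp.trans (hsub.trans hKU)⟩
    have e2 := h.eq _ hT3
    have e3 : ∀ w, w ∉ K' → φ (F.fl (-(σ * s)) w) = 0 ∧ der F φ (F.fl (-(σ * s)) w) = 0 := by
      intro w hw
      have h1 : F.fl (-(σ * s)) w ∉ tsupport φ := fun h1 => hw (hsub h1)
      have hTd := hT.der F
      exact ⟨image_eq_zero_of_notMem_tsupport h1,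
        image_eq_zero_of_notMem_tsupport fun h2 => h1 (hTd.supp h2)⟩
    have e4 : ∫ w, der F φ (F.fl (-(σ * s)) w) • K'.indicator f w
        = ∫ z, der F (fun z => φ (F.fl (-(σ * s)) z)) z • f z := by
      refine integral_congr_ae (ae_of_all _ fun w => ?_)
      simp only
      rw [F.der_comp (hφ1.differentiable (by simp))]
      by_cases hw : w ∈ K'
      · rw [indicator_of_mem hw]
      · rw [(e3 w hw).2, zero_smul, zero_smul]
    have e5 : ∫ w, φ (F.fl (-(σ * s)) w) • K'.indicator g w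
        = ∫ z, φ (F.fl (-(σ * s)) z) • g z := by
      refine integral_congr_ae (ae_of_all _ fun w => ?_)
      simp only
      by_cases hw : w ∈ K'
      · rw [indicator_of_mem hw]
      · rw [(e3 w hw).1, zero_smul, zero_smul]
    rw [e4, e5]
    exact e2
  rw [ae_restrict_iff' hS]
  filter_upwards [hzero] with z hz hzS
  have h1 := hz (hp z hzS)
  unfold Rem at h1
  rw [intervalIntegral.integral_of_le zero_le_one]
  exact sub_eq_zero.1 h1

end PLH
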