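import Pool.Agent.Lib.PLH.T2
import Pool.Agent.Lib.PLH.A6

/-!
MODULE T3 (250 lines). The flow inequality for convex functions.

By `WD.ftc`, for a.e. `z ∈ S`: `‖f(F.fl s z) - f z‖ ≤ ∫₀¹ |s| ‖g(F.fl (σ s) z)‖ dσ`, so by
monotonicity and Jensen (`ConvexOn.map_integral_le` on the probability space `[0,1]`; when
`σ ↦ ψ(...)` is not integrable the right side below is `∞`, nothing to prove; when
`σ ↦ ‖g(F.fl (σ s) z)‖` is not integrable on `[0,1]` the integral in `ftc` is `0`, and `ψ 0 = 0`)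
`ofReal (ψ ‖f(F.fl s z)-f z‖) ≤ ∫⁻_{[0,1]} ofReal (ψ(|s| ‖g(F.fl (σ s) z)‖)) dσ`. Integrate over `S`
and use Tonelli and that `F.fl (σ s)` preserves the measure and maps `S` into `U'`.
(`ψ ≥ 0` on `[0,∞)`, from `zero` and `mono`.) Measurability: `g` is a.e. strongly measurable on `U`.
`sq_le`: the case `ψ = y²`, `yng_sq`, in terms of Bochner integrals.
-/

open MeasureTheory Set Filter Topology
open scoped ContDiff

namespace PLH

variable {E : Type*} [NormedAddCommGroup E] [NormedSpace ℝ E] [CompleteSpace E]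

private theorem meas_psi {C : ℝ} {ψ : ℝ → ℝ} (hψ : Yng C ψ) {α : Type*} [MeasurableSpace α]
    {u : α → ℝ} (hu : Measurable u) (h0 : ∀ x, 0 ≤ u x) : Measurable (fun x => ψ (u x)) := by
  have hc : Continuous (fun y : ℝ => ψ (max y 0)) :=
    hψ.cont.comp_continuous (continuous_id.max continuous_const) (fun y => mem_Ici.2 (le_max_right _ _))
  have h1 : (fun x => ψ (u x)) = fun x => (fun y : ℝ => ψ (max y 0)) (u x) := by
    funext x
    simp only
    rw [max_eq_left (h0 x)]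
  rw [h1]
  exact hc.measurable.comp hu

private theorem psi_nonneg {C : ℝ} {ψ : ℝ → ℝ} (hψ : Yng C ψ) {y : ℝ} (hy : 0 ≤ y) : 0 ≤ ψ y := by
  have := hψ.mono (mem_Ici.2 le_rfl) (mem_Ici.2 hy) hy
  rwa [hψ.zero] at this

omit [CompleteSpace E] in
/-- Jensen's inequality on the unit interval -/
private theorem jensen1 {C : ℝ} {ψ : ℝ → ℝ} (hψ : Yng C ψ) (s : ℝ) {h h' : ℝ → E}
    (hh : ∀ᵐ σ ∂(volume.restrict (Icc (0 : ℝ) 1)), h σ = h' σ) (hm : StronglyMeasurable h') :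
    ENNReal.ofReal (ψ ‖∫ σ in (0 : ℝ)..1, s • h σ‖) ≤
      ∫⁻ σ in Icc (0 : ℝ) 1, ENNReal.ofReal (ψ (|s| * ‖h' σ‖)) := by
  have : IsProbabilityMeasure (volume.restrict (Icc (0 : ℝ) 1)) := ⟨by simp⟩
  rw [intervalIntegral.integral_of_le zero_le_one, ← integral_Icc_eq_integral_Ioc]
  have e1 : ∫ σ in Icc (0 : ℝ) 1, s • h σ = ∫ σ in Icc (0 : ℝ) 1, s • h' σ := by
    refine integral_congr_ae ?_
    filter_upwards [hh] with σ hσ
    rw [hσ]
  rw [e1]
  by_cases hi : Integrable h' (volume.restrict (Icc (0 : ℝ) 1))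
  · have hu : Integrable (fun σ => |s| * ‖h' σ‖) (volume.restrict (Icc (0 : ℝ) 1)) :=
      hi.norm.const_mul _
    have hmu : Measurable (fun σ => |s| * ‖h' σ‖) := hm.norm.measurable.const_mul _
    have h0 : ∀ σ, 0 ≤ |s| * ‖h' σ‖ := fun σ => by positivity
    have e2 : ‖∫ σ in Icc (0 : ℝ) 1, s • h' σ‖ ≤ ∫ σ in Icc (0 : ℝ) 1, |s| * ‖h' σ‖ := by
      refine (norm_integral_le_integral_norm _).trans (le_of_eq ?_)
      refine integral_congr_ae (ae_of_all _ fun σ => ?_)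
      simp only
      rw [norm_smul, Real.norm_eq_abs]
    have e3 : ψ ‖∫ σ in Icc (0 : ℝ) 1, s • h' σ‖ ≤ ψ (∫ σ in Icc (0 : ℝ) 1, |s| * ‖h' σ‖) :=
      hψ.mono (mem_Ici.2 (norm_nonneg _)) (mem_Ici.2 ((norm_nonneg _).trans e2)) e2
    by_cases hj : Integrable (ψ ∘ fun σ => |s| * ‖h' σ‖) (volume.restrict (Icc (0 : ℝ) 1))
    · have e4 := hψ.conv.map_integral_le hψ.cont isClosed_Ici
        (ae_of_all _ fun σ => mem_Ici.2 (h0 σ)) hu hj
      refine (ENNReal.ofReal_le_ofReal (e3.trans e4)).trans (le_of_eq ?_)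
      exact ofReal_integral_eq_lintegral_ofReal hj
        (ae_of_all _ fun σ => psi_nonneg hψ (h0 σ))
    · have e5 : ∫⁻ σ in Icc (0 : ℝ) 1, ENNReal.ofReal (ψ (|s| * ‖h' σ‖)) = ⊤ := by
        by_contra hne
        apply hj
        exact (lintegral_ofReal_ne_top_iff_integrable
          (meas_psi hψ hmu h0).aestronglyMeasurable
          (ae_of_all _ fun σ => psi_nonneg hψ (h0 σ))).1 hne
      rw [e5]
      exact le_top
  · have e2 : ∫ σ in Icc (0 : ℝ) 1, s • h' σ = 0 := by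
      rw [integral_smul, integral_undef hi, smul_zero]
    rw [e2, norm_zero, hψ.zero, ENNReal.ofReal_zero]
    exact zero_le

theorem WD.jensen {F : VF} {U : Set Pt} (hU : IsOpen U) {f g : Pt → E} (h : WD F U f g)
    {C : ℝ} {ψ : ℝ → ℝ} (hψ : Yng C ψ) {S U' : Set Pt} (hS : MeasurableSet S)
    (hU' : MeasurableSet U') (hU'U : U' ⊆ U) (s : ℝ)
    (hp : ∀ z ∈ S, ∀ σ ∈ Icc (0 : ℝ) 1, F.fl (σ * s) z ∈ U') :
    ∫⁻ z in S, ENNReal.ofReal (ψ ‖f (F.fl s z) - f z‖) ≤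
      ∫⁻ z in U', ENNReal.ofReal (ψ (|s| * ‖g z‖)) := by
  have hgm : AEStronglyMeasurable g (volume.restrict U) := h.lg.aestronglyMeasurable
  obtain ⟨g', hg', hgg⟩ := hgm
  have hN : ∀ᵐ z ∂(volume : Measure Pt), z ∈ U → g z = g' z :=
    (ae_restrict_iff' hU.measurableSet).1 hgg
  set N := toMeasurable (volume : Measure Pt) {z | ¬ (z ∈ U → g z = g' z)} with hNdef
  have hN0 : volume N = 0 := by
    rw [hNdef, measure_toMeasurable]
    exact hN
  have hNm : MeasurableSet N := measurableSet_toMeasurable _ _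
  have hNsub : ∀ z, z ∉ N → (z ∈ U → g z = g' z) := by
    intro z hz
    by_contra hc
    exact hz (subset_toMeasurable _ _ hc)
  have hNae : ∀ᵐ z ∂(volume : Measure Pt), z ∉ N := measure_eq_zero_iff_ae_notMem.1 hN0
  have hcont : Continuous (fun p : ℝ × Pt => F.fl (p.1 * s) p.2) :=
    F.cont_fl.comp ((continuous_fst.mul continuous_const).prodMk continuous_snd)
  have h1 : ∀ᵐ σ ∂(volume.restrict (Icc (0 : ℝ) 1)), ∀ᵐ z ∂(volume : Measure Pt),
      F.fl (σ * s) z ∉ N :=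
    ae_of_all _ fun σ => (F.mp (σ * s)).quasiMeasurePreserving.ae hNae
  have hmeas : MeasurableSet {p : ℝ × Pt | F.fl (p.1 * s) p.2 ∉ N} :=
    (hcont.measurable hNm).compl
  have h2 : ∀ᵐ z ∂(volume : Measure Pt), ∀ᵐ σ ∂(volume.restrict (Icc (0 : ℝ) 1)),
      F.fl (σ * s) z ∉ N := (Measure.ae_ae_comm hmeas).1 h1
  have hftc := h.ftc hU s hS (fun z hz σ hσ => hU'U (hp z hz σ hσ))
  have hΨ : Measurable (fun z : Pt => ENNReal.ofReal (ψ (|s| * ‖g' z‖))) :=
    (meas_psi hψ (hg'.norm.measurable.const_mul _) (fun z => by positivity)).ennreal_ofReal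
  calc ∫⁻ z in S, ENNReal.ofReal (ψ ‖f (F.fl s z) - f z‖)
      ≤ ∫⁻ z in S, ∫⁻ σ in Icc (0 : ℝ) 1, ENNReal.ofReal (ψ (|s| * ‖g' (F.fl (σ * s) z)‖)) := by
        refine lintegral_mono_ae ?_
        filter_upwards [hftc, ae_restrict_of_ae h2, ae_restrict_mem hS] with z hz1 hz2 hzS
        rw [hz1]
        refine jensen1 hψ s (h := fun σ => g (F.fl (σ * s) z)) (h' := fun σ => g' (F.fl (σ * s) z))
          ?_ ?_
        · filter_upwards [hz2, ae_restrict_mem measurableSet_Icc] with σ hσ hσI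
          exact hNsub _ hσ (hU'U (hp z hzS σ hσI))
        · exact hg'.comp_measurable
            (hcont.comp (Continuous.prodMk_left z)).measurable
    _ = ∫⁻ σ in Icc (0 : ℝ) 1, ∫⁻ z in S, ENNReal.ofReal (ψ (|s| * ‖g' (F.fl (σ * s) z)‖)) := by
        refine lintegral_lintegral_swap ?_
        refine Measurable.aemeasurable ?_
        have : Measurable (fun p : Pt × ℝ => F.fl (p.2 * s) p.1) :=
          (hcont.comp continuous_swap).measurable
        exact hΨ.comp this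
    _ ≤ ∫⁻ σ in Icc (0 : ℝ) 1, ∫⁻ z in U', ENNReal.ofReal (ψ (|s| * ‖g' z‖)) := by
        refine setLIntegral_mono' measurableSet_Icc fun σ hσ => ?_
        rw [← (F.mp (σ * s)).setLIntegral_comp_preimage hU' hΨ]
        exact lintegral_mono_set fun z hz => hp z hz σ hσ
    _ = ∫⁻ z in U', ENNReal.ofReal (ψ (|s| * ‖g' z‖)) := by
        rw [lintegral_const]
        simp
    _ = ∫⁻ z in U', ENNReal.ofReal (ψ (|s| * ‖g z‖)) := by
        refine lintegral_congr_ae ?_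
        filter_upwards [ae_restrict_of_ae hN, ae_restrict_mem hU'] with z hz hzU
        rw [hz (hU'U hzU)]

theorem WD.lsq_le {F : VF} {U : Set Pt} (hU : IsOpen U) {f g : Pt → E} (h : WD F U f g)
    {S U' : Set Pt} (hS : MeasurableSet S)
    (hU' : MeasurableSet U') (hU'U : U' ⊆ U) (s : ℝ)
    (hp : ∀ z ∈ S, ∀ σ ∈ Icc (0 : ℝ) 1, F.fl (σ * s) z ∈ U') :
    ∫⁻ z in S, ‖f (F.fl s z) - f z‖ₑ ^ 2 ≤
      ENNReal.ofReal (s ^ 2) * ∫⁻ z in U', ‖g z‖ₑ ^ 2 := by
  have h1 := h.jensen hU yng_sq hS hU' hU'U s hp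
  have e1 : ∀ x : E, ENNReal.ofReal (‖x‖ ^ 2) = ‖x‖ₑ ^ 2 := by
    intro x
    rw [ENNReal.ofReal_pow (norm_nonneg _), ofReal_norm]
  have e2 : ∀ x : E, ENNReal.ofReal ((|s| * ‖x‖) ^ 2) = ENNReal.ofReal (s ^ 2) * ‖x‖ₑ ^ 2 := by
    intro x
    rw [mul_pow, sq_abs, ENNReal.ofReal_mul (sq_nonneg _), e1]
  simp only [e1, e2] at h1
  rwa [lintegral_const_mul' _ _ ENNReal.ofReal_ne_top] at h1

theorem WD.sq_le {F : VF} {U : Set Pt} (hU : IsOpen U) {f g : Pt → E} (h : WD F U f g)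
    {S U' : Set Pt} (hS : MeasurableSet S)
    (hU' : MeasurableSet U') (hU'U : U' ⊆ U) (s : ℝ)
    (hp : ∀ z ∈ S, ∀ σ ∈ Icc (0 : ℝ) 1, F.fl (σ * s) z ∈ U')
    (hg : MemLp g 2 (volume.restrict U')) :
    MemLp (fun z => f (F.fl s z) - f z) 2 (volume.restrict S) ∧
      ∫ z in S, ‖f (F.fl s z) - f z‖ ^ 2 ≤ s ^ 2 * ∫ z in U', ‖g z‖ ^ 2 := by
  have hlsq := h.lsq_le hU hS hU' hU'U s hp
  have e1 : ∀ x : E, ENNReal.ofReal (‖x‖ ^ 2) = ‖x‖ₑ ^ 2 := by
    intro x
    rw [ENNReal.ofReal_pow (norm_nonneg _), ofReal_norm]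
  have hfm : AEStronglyMeasurable f (volume.restrict U) := h.lf.aestronglyMeasurable
  have hSU : S ⊆ U := by
    intro z hz
    have := hp z hz 0 ⟨le_rfl, zero_le_one⟩
    rw [zero_mul, F.fl_zero] at this
    exact hU'U this
  have hSU2 : S ⊆ F.fl s ⁻¹' U := by
    intro z hz
    have := hp z hz 1 ⟨zero_le_one, le_rfl⟩
    rw [one_mul] at this
    exact hU'U this
  have hm1 : AEStronglyMeasurable (fun z => f (F.fl s z)) (volume.restrict S) := by
    have h3 := (F.mp s).restrict_preimage hU.measurableSet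
    exact (hfm.comp_measurePreserving h3).mono_set hSU2
  have hm : AEStronglyMeasurable (fun z => f (F.fl s z) - f z) (volume.restrict S) :=
    hm1.sub (hfm.mono_set hSU)
  have hgi : Integrable (fun z => ‖g z‖ ^ 2) (volume.restrict U') :=
    (memLp_two_iff_integrable_sq_norm hg.1).1 hg
  have hg2 : ∫⁻ z in U', ‖g z‖ₑ ^ 2 = ENNReal.ofReal (∫ z in U', ‖g z‖ ^ 2) := by
    rw [ofReal_integral_eq_lintegral_ofReal hgi (ae_of_all _ fun z => by positivity)]
    simp only [e1]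
  rw [hg2, ← ENNReal.ofReal_mul (sq_nonneg s)] at hlsq
  have hfi : Integrable (fun z => ‖f (F.fl s z) - f z‖ ^ 2) (volume.restrict S) := by
    have hm2 : AEStronglyMeasurable (fun z => ‖f (F.fl s z) - f z‖ ^ 2) (volume.restrict S) :=
      hm.norm.pow 2
    refine (lintegral_ofReal_ne_top_iff_integrable hm2
      (ae_of_all _ fun z => sq_nonneg _)).1 ?_
    simp only [e1]
    exact ne_top_of_le_ne_top ENNReal.ofReal_ne_top hlsq
  refine ⟨(memLp_two_iff_integrable_sq_norm hm).2 hfi, ?_⟩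
  have h5 : ENNReal.ofReal (∫ z in S, ‖f (F.fl s z) - f z‖ ^ 2)
      ≤ ENNReal.ofReal (s ^ 2 * ∫ z in U', ‖g z‖ ^ 2) := by
    rw [ofReal_integral_eq_lintegral_ofReal hfi (ae_of_all _ fun z => by positivity)]
    simp only [e1]
    exact hlsq
  have h6 : 0 ≤ s ^ 2 * ∫ z in U', ‖g z‖ ^ 2 :=
    mul_nonneg (sq_nonneg _) (integral_nonneg fun z => by positivity)
  exact (ENNReal.ofReal_le_ofReal_iff h6).1 h5

end PLH
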