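import Pool.Agent.Lib.PLH.T3
import Pool.Agent.Lib.PLH.T4

/-!
MODULE T5 (250 lines). Strong convergence of difference quotients.

`dq_tendsto`: let `K ⊆ int K' ⊆ K' ⊆ U`, `K'` compact (`exists_compact_between`), and
`g₀ = K'.indicator g ∈ L²`. For small `s` the flow lines `F.fl (σ s) z`, `z ∈ K`, `σ ∈ [0,1]`, stay in
`K'` (`norm_fl_sub`, positive distance of `K` to the complement of `int K'`). By `WD.ftc`
`s⁻¹(f(F.fl s z) - f z) - g z = ∫₀¹ (g₀(F.fl (σ s) z) - g₀ z) dσ` a.e. on `K`, so its `L²(K)` norm is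
at most `sup_{|r| ≤ |s|} ‖g₀∘F.fl r - g₀‖_{L²}` (Minkowski or Jensen for the square), which tends
to `0` by `tendsto_comp_sub` with `τ_r = F.fl r`, filter `𝓝 0` (hypothesis `hτ` from `norm_fl_sub`,
applied also to the inverse `F.fl (-r)`).
`ae_seq`: exhaust `U` by compacts `K_j ⊆ K_{j+1}`, `⋃ K_j = U` (`CompactExhaustion` of the
subtype, or `{z | ‖z‖ ≤ j, dist(z,Uᶜ) ≥ 1/j}`); choose `s_j ≠ 0`, `|s_j| ≤ 1/j`, with the `L²(K_j)`
norm at most `2^(-j)`; then on every `K_i` the sum over `j ≥ i` of the squares is integrable, so the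
quotients converge a.e. on `K_i`.
-/

open MeasureTheory Set Filter Topology
open scoped ContDiff ENNReal

namespace PLH

variable {E : Type*} [NormedAddCommGroup E] [NormedSpace ℝ E] [CompleteSpace E]

/-- Lebesgue measure on the unit interval -/
private noncomputable abbrev nu1 : Measure ℝ := volume.restrict (Ioc (0 : ℝ) 1)

private theorem cont_fls (F : VF) (s : ℝ) : Continuous (fun p : ℝ × Pt => F.fl (p.1 * s) p.2) :=
  F.cont_fl.comp ((continuous_fst.mul continuous_const).prodMk continuous_snd)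

private theorem mp_fls (F : VF) (s : ℝ) : MeasurePreserving
    (fun p : ℝ × Pt => (p.1, F.fl (p.1 * s) p.2)) (nu1.prod volume) (nu1.prod volume) :=
  (MeasurePreserving.id nu1).skew_product (g := fun σ z => F.fl (σ * s) z)
    (cont_fls F s).measurable (ae_of_all _ fun σ => (F.mp (σ * s)).map_eq)

omit [NormedSpace ℝ E] [CompleteSpace E] in
private theorem int_prod (F : VF) (s : ℝ) {g : Pt → E} (hg : Integrable g) :
    Integrable (fun p : ℝ × Pt => g (F.fl (p.1 * s) p.2)) (nu1.prod volume) := by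
  have h1 : Integrable (fun p : ℝ × Pt => g p.2) (nu1.prod volume) := hg.comp_snd _
  exact ((mp_fls F s).integrable_comp h1.aestronglyMeasurable).2 h1

/-- flow lines of short time starting in a compact set stay in a neighbourhood -/
private theorem stay (F : VF) {K V : Set Pt} (hK : IsCompact K) (hV : IsOpen V) (hKV : K ⊆ V) :
    ∀ᶠ s : ℝ in 𝓝 0, ∀ z ∈ K, ∀ σ ∈ Icc (0 : ℝ) 1, F.fl (σ * s) z ∈ V := by
  have hc : Continuous (fun p : ℝ × (ℝ × Pt) => F.fl (p.2.1 * p.1) p.2.2) :=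
    F.cont_fl.comp (((continuous_fst.comp continuous_snd).mul continuous_fst).prodMk
      (continuous_snd.comp continuous_snd))
  have h1 := (isCompact_Icc.prod hK).eventually_forall_of_forall_eventually (x₀ := (0 : ℝ))
    (K := Icc (0 : ℝ) 1 ×ˢ K) (P := fun s (q : ℝ × Pt) => F.fl (q.1 * s) q.2 ∈ V) (by
      rintro ⟨σ, z⟩ ⟨-, hz⟩
      refine hc.continuousAt.eventually (hV.mem_nhds ?_)
      simp only [mul_zero, F.fl_zero]
      exact hKV hz)
  filter_upwards [h1] with s hs z hz σ hσ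
  exact hs (σ, z) ⟨hσ, hz⟩

omit [NormedSpace ℝ E] [CompleteSpace E] in
private theorem sq_eLp {α : Type*} [MeasurableSpace α] (μ : Measure α) (f : α → E) :
    eLpNorm f 2 μ ^ 2 = ∫⁻ x, ‖f x‖ₑ ^ 2 ∂μ := by
  have h := eLpNorm_nnreal_pow_eq_lintegral (μ := μ) (f := f) (p := 2) (by norm_num)
  have e : ((2 : NNReal) : ℝ) = ((2 : ℕ) : ℝ) := by norm_num
  rw [e] at h
  simp only [ENNReal.rpow_natCast] at h
  exact h

omit [CompleteSpace E] in
private theorem avg_le (F : VF) (s : ℝ) {g : Pt → E} (hg : AEStronglyMeasurable g volume)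
    {ε : ℝ≥0∞} (hε : ∀ σ ∈ Ioc (0 : ℝ) 1,
      eLpNorm (fun z => g (F.fl (σ * s) z) - g z) 2 volume ≤ ε) :
    eLpNorm (fun z => ∫ σ, (g (F.fl (σ * s) z) - g z) ∂nu1) 2 volume ≤ ε := by
  have hprob : IsProbabilityMeasure nu1 := ⟨by simp⟩
  have hm1 : AEStronglyMeasurable (fun p : ℝ × Pt => g (F.fl (p.1 * s) p.2) - g p.2)
      (nu1.prod volume) := by
    have h1 : AEStronglyMeasurable (fun p : ℝ × Pt => g p.2) (nu1.prod volume) := hg.comp_snd
    exact (h1.comp_measurePreserving (mp_fls F s)).sub h1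
  have hm2 : AEStronglyMeasurable (fun p : Pt × ℝ => g (F.fl (p.2 * s) p.1) - g p.1)
      ((volume : Measure Pt).prod nu1) := hm1.prod_swap
  have h2 : eLpNorm (fun z => ∫ σ, (g (F.fl (σ * s) z) - g z) ∂nu1) 2 volume ^ 2 ≤ ε ^ 2 := by
    rw [sq_eLp]
    calc ∫⁻ z, ‖∫ σ, (g (F.fl (σ * s) z) - g z) ∂nu1‖ₑ ^ 2
        ≤ ∫⁻ z, ∫⁻ σ, ‖g (F.fl (σ * s) z) - g z‖ₑ ^ 2 ∂nu1 := by
          refine lintegral_mono_ae ?_
          filter_upwards [hm2.prodMk_left] with z hz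
          rw [← sq_eLp nu1 (fun σ => g (F.fl (σ * s) z) - g z)]
          refine pow_le_pow_left₀ zero_le ?_ 2
          refine (enorm_integral_le_lintegral_enorm _).trans ?_
          rw [← eLpNorm_one_eq_lintegral_enorm]
          exact eLpNorm_le_eLpNorm_of_exponent_le (by norm_num) hz
      _ = ∫⁻ σ, (∫⁻ z, ‖g (F.fl (σ * s) z) - g z‖ₑ ^ 2) ∂nu1 := by
          refine lintegral_lintegral_swap ?_
          exact hm2.enorm.pow_const 2
      _ ≤ ∫⁻ σ, ε ^ 2 ∂nu1 := by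
          refine lintegral_mono_ae ?_
          filter_upwards [ae_restrict_mem measurableSet_Ioc] with σ hσ
          rw [← sq_eLp volume (fun z => g (F.fl (σ * s) z) - g z)]
          exact pow_le_pow_left₀ zero_le (hε σ hσ) 2
      _ = ε ^ 2 := by simp
  by_contra h3
  exact absurd h2 (not_le.2 (ENNReal.pow_lt_pow_left two_ne_zero (not_le.1 h3)))

private theorem htau (F : VF) (R ε : ℝ) (hε : 0 < ε) : ∀ᶠ r : ℝ in 𝓝 0, ∀ z : Pt,
    (‖z‖ ≤ R ∨ ‖F.fl r z‖ ≤ R) → ‖F.fl r z - z‖ ≤ ε := by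
  have hsz : 0 ≤ F.sz := by unfold VF.sz; positivity
  have hc : Tendsto (fun r : ℝ => |r| * (F.sz * (1 + R))) (𝓝 0) (𝓝 0) := by
    have : Continuous (fun r : ℝ => |r| * (F.sz * (1 + R))) := by fun_prop
    have h := this.tendsto 0
    simpa using h
  filter_upwards [hc.eventually (gt_mem_nhds hε)] with r hr z hz
  have h0 : 0 ≤ |r| := abs_nonneg r
  rcases hz with hz | hz
  · refine (F.norm_fl_sub r z).trans (le_trans ?_ hr.le)
    gcongr
  · have h1 := F.norm_fl_sub (-r) (F.fl r z)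
    rw [F.fl_fl, neg_add_cancel, F.fl_zero, abs_neg, norm_sub_rev] at h1
    refine h1.trans (le_trans ?_ hr.le)
    gcongr

theorem WD.dq_tendsto {F : VF} {U : Set Pt} (hU : IsOpen U) {f g : Pt → E} (h : WD F U f g)
    (hg : L2l U g) {K : Set Pt} (hK : IsCompact K) (hKU : K ⊆ U) :
    Tendsto (fun s : ℝ => eLpNorm (fun z => s⁻¹ • (f (F.fl s z) - f z) - g z) 2
      (volume.restrict K)) (𝓝[≠] (0 : ℝ)) (𝓝 0) := by
  obtain ⟨K', hK', hKK', hK'U⟩ := exists_compact_between hK hU hKU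
  have hprob : IsProbabilityMeasure nu1 := ⟨by simp⟩
  set g₀ : Pt → E := K'.indicator g with hg₀
  have hg2 : MemLp g₀ 2 volume := (memLp_indicator_iff_restrict hK'.measurableSet).2
    (hg K' hK' hK'U)
  have hgi : Integrable g₀ :=
    (h.lg.integrableOn_compact_subset hK'U hK').integrable_indicator hK'.measurableSet
  have hM := tendsto_comp_sub (l := 𝓝 (0 : ℝ)) (τ := fun r => F.fl r) (q := 2) (by norm_num)
    (by norm_num) (fun r => F.mp r) (htau F) hg2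
  rw [ENNReal.tendsto_nhds_zero] at hM ⊢
  intro ε hε
  obtain ⟨ρ, hρ, hρ2⟩ := Metric.eventually_nhds_iff.1 (hM ε hε)
  have hs1 : ∀ᶠ s : ℝ in 𝓝[≠] 0, dist s 0 < ρ :=
    (Metric.eventually_nhds_iff.2 ⟨ρ, hρ, fun y hy => hy⟩ : ∀ᶠ s : ℝ in 𝓝 0, dist s 0 < ρ).filter_mono
      nhdsWithin_le_nhds
  have hs2 := (stay F hK isOpen_interior hKK').filter_mono (nhdsWithin_le_nhds (s := {(0 : ℝ)}ᶜ))
  filter_upwards [hs1, hs2, self_mem_nhdsWithin] with s hs1 hs2 hs3
  have hs0 : s ≠ 0 := hs3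
  have hin : ∀ z ∈ K, ∀ σ ∈ Icc (0 : ℝ) 1, F.fl (σ * s) z ∈ K' :=
    fun z hz σ hσ => interior_subset (hs2 z hz σ hσ)
  have hftc := h.ftc hU s hK.measurableSet (fun z hz σ hσ => hK'U (hin z hz σ hσ))
  have hae := (int_prod F s hgi).prod_left_ae
  have e1 : (fun z => s⁻¹ • (f (F.fl s z) - f z) - g z) =ᵐ[volume.restrict K]
      fun z => ∫ σ, (g₀ (F.fl (σ * s) z) - g₀ z) ∂nu1 := by
    filter_upwards [hftc, ae_restrict_of_ae hae, ae_restrict_mem hK.measurableSet]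
      with z h1 h2 hzK
    have hzK' : z ∈ K' := by
      have := hin z hzK 0 ⟨le_rfl, zero_le_one⟩
      rwa [zero_mul, F.fl_zero] at this
    rw [h1, integral_sub h2 (integrable_const _), intervalIntegral.integral_of_le zero_le_one,
      integral_smul, smul_smul, inv_mul_cancel₀ hs0, one_smul]
    congr 1
    · refine integral_congr_ae ?_
      filter_upwards [ae_restrict_mem measurableSet_Ioc] with σ hσ
      rw [hg₀, indicator_of_mem (hin z hzK σ ⟨hσ.1.le, hσ.2⟩)]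
    · rw [hg₀, indicator_of_mem hzK']
      simp
  rw [eLpNorm_congr_ae e1]
  refine (eLpNorm_mono_measure _ Measure.restrict_le_self).trans ?_
  refine avg_le F s hgi.aestronglyMeasurable fun σ hσ => ?_
  refine hρ2 ?_
  rw [dist_zero_right, norm_mul]
  rw [dist_zero_right] at hs1
  have h3 : ‖σ‖ ≤ 1 := by
    rw [Real.norm_eq_abs, abs_of_pos hσ.1]
    exact hσ.2
  calc ‖σ‖ * ‖s‖ ≤ 1 * ‖s‖ := by gcongr
    _ < ρ := by rwa [one_mul]

theorem WD.ae_seq {F : VF} {U : Set Pt} (hU : IsOpen U) {f g : Pt → E} (h : WD F U f g)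
    (hg : L2l U g) : ∃ s : ℕ → ℝ, (∀ n, s n ≠ 0) ∧ Tendsto s atTop (𝓝 0) ∧
      ∀ᵐ z ∂(volume.restrict U),
        Tendsto (fun n => (s n)⁻¹ • (f (F.fl (s n) z) - f z)) atTop (𝓝 (g z)) := by
  have hlc : LocallyCompactSpace U := hU.locallyCompactSpace
  have hσc : SigmaCompactSpace U := inferInstance
  obtain ⟨K₀, hK₀, hK₀U⟩ := isSigmaCompact_iff_sigmaCompactSpace.2 hσc
  set K : ℕ → Set Pt := fun n => ⋃ i ∈ Finset.range (n + 1), K₀ i with hKdef
  have hKc : ∀ n, IsCompact (K n) := fun n =>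
    (Finset.range (n + 1)).finite_toSet.isCompact_biUnion fun i _ => hK₀ i
  have hKU : ∀ n, K n ⊆ U := by
    intro n z hz
    simp only [hKdef, mem_iUnion] at hz
    obtain ⟨i, -, hi⟩ := hz
    rw [← hK₀U]
    exact mem_iUnion.2 ⟨i, hi⟩
  have hKmono : ∀ i j, i ≤ j → K i ⊆ K j := by
    intro i j hij z hz
    simp only [hKdef, mem_iUnion, Finset.mem_range] at hz ⊢
    obtain ⟨a, ha, hza⟩ := hz
    exact ⟨a, by omega, hza⟩
  have hKun : ⋃ n, K n = U := by
    refine Subset.antisymm (iUnion_subset hKU) ?_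
    rw [← hK₀U]
    refine iUnion_subset fun i z hz => ?_
    refine mem_iUnion.2 ⟨i, ?_⟩
    simp only [hKdef, mem_iUnion, Finset.mem_range]
    exact ⟨i, by omega, hz⟩
  have hex : ∀ n : ℕ, ∃ s : ℝ, s ≠ 0 ∧ |s| < 1 / ((n : ℝ) + 1) ∧
      (∀ z ∈ K n, ∀ σ ∈ Icc (0 : ℝ) 1, F.fl (σ * s) z ∈ U) ∧
      eLpNorm (fun z => s⁻¹ • (f (F.fl s z) - f z) - g z) 2 (volume.restrict (K n))
        ≤ (2⁻¹ : ℝ≥0∞) ^ n := by
    intro n
    have h1 := h.dq_tendsto hU hg (hKc n) (hKU n)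
    rw [ENNReal.tendsto_nhds_zero] at h1
    have h2 := h1 ((2⁻¹ : ℝ≥0∞) ^ n) (ENNReal.pow_pos (by simp) n)
    have h3 := (stay F (hKc n) hU (hKU n)).filter_mono (nhdsWithin_le_nhds (s := {(0 : ℝ)}ᶜ))
    have h4 : ∀ᶠ s : ℝ in 𝓝[≠] 0, dist s 0 < 1 / ((n : ℝ) + 1) :=
      (Metric.eventually_nhds_iff.2 ⟨_, by positivity, fun y hy => hy⟩ :
        ∀ᶠ s : ℝ in 𝓝 0, dist s 0 < 1 / ((n : ℝ) + 1)).filter_mono nhdsWithin_le_nhds
    obtain ⟨s, hs2, hs3, hs4, hs5⟩ :=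
      (h2.and (h3.and (h4.and self_mem_nhdsWithin))).exists
    refine ⟨s, hs5, ?_, hs3, hs2⟩
    rwa [dist_zero_right, Real.norm_eq_abs] at hs4
  choose s hs1 hs2 hs3 hs4 using hex
  refine ⟨s, hs1, ?_, ?_⟩
  · refine squeeze_zero_norm (fun n => (hs2 n).le) ?_
    exact tendsto_one_div_add_atTop_nhds_zero_nat
  have hfm : AEStronglyMeasurable f (volume.restrict U) := h.lf.aestronglyMeasurable
  have hgm : AEStronglyMeasurable g (volume.restrict U) := h.lg.aestronglyMeasurable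
  rw [← hKun, ae_restrict_iUnion_iff]
  intro i
  have hmeas : ∀ j : ℕ, AEStronglyMeasurable
      (fun z => (s (j + i))⁻¹ • (f (F.fl (s (j + i)) z) - f z) - g z) (volume.restrict (K i)) := by
    intro j
    have h1 := (F.mp (s (j + i))).restrict_preimage hU.measurableSet
    have hsub : K i ⊆ F.fl (s (j + i)) ⁻¹' U := by
      intro z hz
      have := hs3 (j + i) z (hKmono i (j + i) (by omega) hz) 1 ⟨zero_le_one, le_rfl⟩
      rwa [one_mul] at this
    have h2 : AEStronglyMeasurable (fun z => f (F.fl (s (j + i)) z)) (volume.restrict (K i)) :=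
      (hfm.comp_measurePreserving h1).mono_set hsub
    exact ((h2.sub (hfm.mono_set (hKU i))).const_smul _).sub (hgm.mono_set (hKU i))
  have hsum : ∑' j : ℕ, ∫⁻ z in K i,
      ‖(s (j + i))⁻¹ • (f (F.fl (s (j + i)) z) - f z) - g z‖ₑ ^ 2 ≠ ⊤ := by
    have hle : ∀ j : ℕ, ∫⁻ z in K i,
        ‖(s (j + i))⁻¹ • (f (F.fl (s (j + i)) z) - f z) - g z‖ₑ ^ 2 ≤ (2⁻¹ : ℝ≥0∞) ^ j := by
      intro j
      rw [← sq_eLp]
      have h1 : eLpNorm (fun z => (s (j + i))⁻¹ • (f (F.fl (s (j + i)) z) - f z) - g z) 2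
          (volume.restrict (K i)) ≤ (2⁻¹ : ℝ≥0∞) ^ (j + i) :=
        (eLpNorm_mono_measure _ (Measure.restrict_mono (hKmono i (j + i) (by omega)) le_rfl)).trans
          (hs4 (j + i))
      calc _ ≤ ((2⁻¹ : ℝ≥0∞) ^ (j + i)) ^ 2 := pow_le_pow_left₀ zero_le h1 2
        _ = (2⁻¹ : ℝ≥0∞) ^ ((j + i) * 2) := by rw [pow_mul]
        _ ≤ (2⁻¹ : ℝ≥0∞) ^ j := pow_le_pow_right_of_le_one' (by simp) (by omega)
    refine ne_top_of_le_ne_top ?_ (ENNReal.tsum_le_tsum hle)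
    rw [ENNReal.tsum_geometric, ENNReal.one_sub_inv_two, inv_inv]
    simp
  rw [← lintegral_tsum fun j => (hmeas j).enorm.pow_const 2] at hsum
  have hae := ae_lt_top' (AEMeasurable.tsum fun j => (hmeas j).enorm.pow_const 2) hsum
  filter_upwards [hae] with z hz
  have h1 := ENNReal.tendsto_atTop_zero_of_tsum_ne_top hz.ne
  rw [← tendsto_add_atTop_iff_nat i, tendsto_iff_edist_tendsto_0]
  have h2 : Tendsto (fun j => (‖(s (j + i))⁻¹ • (f (F.fl (s (j + i)) z) - f z) - g z‖ₑ ^ 2) ^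
      ((2 : ℝ)⁻¹)) atTop (𝓝 0) := by
    have := h1.ennrpow_const ((2 : ℝ)⁻¹)
    rwa [ENNReal.zero_rpow_of_pos (by norm_num)] at this
  refine h2.congr fun j => ?_
  rw [edist_eq_enorm_sub, ← ENNReal.rpow_natCast, ← ENNReal.rpow_mul]
  norm_num

end PLH
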