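import Pool.Agent.Lib.PLH.T8

/-!
MODULE T9 (250 lines). Left averages: weak derivatives and the equation.

`exists_ker`: a normed `ContDiffBump` at `0` (norm of `ℝ×ℝ×ℝ`; use a smooth bump of an equivalent
Euclidean norm or products of one dimensional bumps).
For `‖g‖ ≤ δ` the map `z ↦ g z = tau g 1 z` maps `B` into `B'`, and for compact `K ⊆ B` the set
`{g z : ‖g‖ ≤ δ, z ∈ K}` is compact in `B'`; so `(g,z) ↦ ρ g • f (g z)` is integrable on
`closedBall 0 δ × K` (Fubini; for fixed `g` the map is measure preserving, `mp_tau`).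
`lav_WD`: for a test function `φ` on `B`: `∫ (der F φ) lav f = ∫ ρ g ∫ (der F φ)(z) f (g z) dz dg`; for
fixed `g` this is the identity for the weak derivative of `z ↦ f (g z)`, `T8` with `r = 1`
(`WD.tauX`, `WD.tauY`, `WD.tauT`). `lav_Sol0`: the same.
`lav_cont`: `lav ρ f z = ∫ ρ(w z⁻¹) f w dw` (substitution `w = g z`, right translation, measure
preserving), `w z⁻¹ = mul w (inv z)`; for `z ∈ B` only `w ∈ B'` occur; dominated convergence with
`‖ρ‖_∞ ‖f‖` on `B'`.
-/

open MeasureTheory Set Filter Topology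
open scoped ContDiff ENNReal

namespace PLH

/-- A smooth kernel with support in the closed ball of radius `δ`. -/
structure Ker (δ : ℝ) (ρ : Pt → ℝ) : Prop where
  smooth : ContDiff ℝ ∞ ρ
  nonneg : ∀ g, 0 ≤ ρ g
  supp : tsupport ρ ⊆ Metric.closedBall 0 δ
  int1 : ∫ g, ρ g = 1

theorem exists_ker {δ : ℝ} (hδ : 0 < δ) : ∃ ρ : Pt → ℝ, Ker δ ρ := by
  haveI i2 : (volume : Measure (ℝ × ℝ)).IsAddHaarMeasure :=
    inferInstanceAs (((volume : Measure ℝ).prod (volume : Measure ℝ)).IsAddHaarMeasure)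
  haveI i3 : (volume : Measure Pt).IsAddHaarMeasure :=
    inferInstanceAs (((volume : Measure ℝ).prod (volume : Measure (ℝ × ℝ))).IsAddHaarMeasure)
  let b : ContDiffBump (0 : Pt) := ⟨δ / 2, δ, by linarith, by linarith⟩
  refine ⟨b.normed volume, b.contDiff_normed, fun g => b.nonneg_normed g, ?_, b.integral_normed⟩
  rw [b.tsupport_normed_eq]

section
variable {E : Type*} [NormedAddCommGroup E] [NormedSpace ℝ E]

/-- The left average. -/
noncomputable def lav (ρ : Pt → ℝ) (f : Pt → E) (z : Pt) : E := ∫ g, ρ g • f (mul g z)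

end

variable {E : Type*} [NormedAddCommGroup E] [NormedSpace ℝ E] [CompleteSpace E]
variable {B B' : Set Pt} {δ : ℝ} {ρ : Pt → ℝ} {f f' : Pt → E} {F : VF}

private theorem mul_tau (g z : Pt) : mul g z = tau g 1 z := by
  unfold tau dil
  simp

private theorem cont_mul : Continuous fun p : Pt × Pt => mul p.1 p.2 := by
  unfold mul
  fun_prop

private theorem mp_mul (g : Pt) : MeasurePreserving (fun z => mul g z) volume volume := by
  have e : (fun z => mul g z) = tau g 1 := by
    funext z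
    exact mul_tau g z
  rw [e]
  exact mp_tau g

private theorem mp_pair : MeasurePreserving (fun p : Pt × Pt => (p.1, mul p.1 p.2))
    ((volume : Measure Pt).prod volume) ((volume : Measure Pt).prod volume) := by
  refine MeasurePreserving.skew_product (f := id) (g := fun g z => mul g z)
    (MeasurePreserving.id _) ?_ ?_
  · exact cont_mul.measurable
  · exact Filter.Eventually.of_forall fun g => (mp_mul g).map_eq

private theorem ker_cpt (hρ : Ker δ ρ) : HasCompactSupport ρ :=
  (isCompact_closedBall (0 : Pt) δ).of_isClosed_subset (isClosed_tsupport ρ) hρ.supp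

private theorem ker_bdd (hρ : Ker δ ρ) : ∃ C : ℝ, ∀ g, ‖ρ g‖ ≤ C :=
  hρ.smooth.continuous.bounded_above_of_compact_support (ker_cpt hρ)

private theorem ker_int (hρ : Ker δ ρ) : Integrable ρ :=
  hρ.smooth.continuous.integrable_of_hasCompactSupport (ker_cpt hρ)

private theorem ker_zero (hρ : Ker δ ρ) {g : Pt} (hg : ¬ ‖g‖ ≤ δ) : ρ g = 0 := by
  refine image_eq_zero_of_notMem_tsupport fun h => hg ?_
  have := hρ.supp h
  rwa [mem_closedBall_zero_iff] at this

/-- the compact set of the products -/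
private def KK (δ : ℝ) (K : Set Pt) : Set Pt :=
  (fun p : Pt × Pt => mul p.1 p.2) '' (Metric.closedBall 0 δ ×ˢ K)

private theorem KK_cpt {K : Set Pt} (hK : IsCompact K) : IsCompact (KK δ K) :=
  ((isCompact_closedBall (0 : Pt) δ).prod hK).image cont_mul

private theorem KK_mem {K : Set Pt} {g z : Pt} (hg : ‖g‖ ≤ δ) (hz : z ∈ K) : mul g z ∈ KK δ K :=
  ⟨(g, z), ⟨by rwa [mem_closedBall_zero_iff], hz⟩, rfl⟩

private theorem KK_sub {K : Set Pt} (hK : K ⊆ B)
    (hs : ∀ g : Pt, ‖g‖ ≤ δ → ∀ z ∈ B, mul g z ∈ B') : KK δ K ⊆ B' := by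
  rintro _ ⟨⟨g, z⟩, ⟨hg, hz⟩, rfl⟩
  rw [mem_closedBall_zero_iff] at hg
  exact hs g hg z (hK hz)

private theorem PhiInt (hρ : Ker δ ρ) {f₀ : Pt → E} (h : Integrable f₀) :
    Integrable (fun p : Pt × Pt => ρ p.1 • f₀ (mul p.1 p.2))
      ((volume : Measure Pt).prod volume) :=
  mp_pair.integrable_comp_of_integrable ((ker_int hρ).smul_prod h)

/-- for `z` in `K` only the values of `f` on `KK` matter -/
private theorem lav_ind (hρ : Ker δ ρ) {K : Set Pt} {z : Pt} (hz : z ∈ K) (f : Pt → E) :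
    lav ρ f z = ∫ g, ρ g • (KK δ K).indicator f (mul g z) := by
  unfold lav
  refine integral_congr_ae (ae_of_all _ fun g => ?_)
  by_cases hg : ‖g‖ ≤ δ
  · show ρ g • f (mul g z) = ρ g • (KK δ K).indicator f (mul g z)
    rw [indicator_of_mem (KK_mem hg hz)]
  · show ρ g • f (mul g z) = ρ g • (KK δ K).indicator f (mul g z)
    rw [ker_zero hρ hg, zero_smul, zero_smul]

private theorem ind_int {K : Set Pt} (hK : IsCompact K) (hKB : K ⊆ B)
    (hs : ∀ g : Pt, ‖g‖ ≤ δ → ∀ z ∈ B, mul g z ∈ B') (h : LocallyIntegrableOn f B') :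
    Integrable ((KK δ K).indicator f) := by
  have hc : IsCompact (KK δ K) := KK_cpt hK
  exact (integrable_indicator_iff hc.measurableSet).2
    (h.integrableOn_compact_subset (KK_sub hKB hs) hc)

theorem lav_locInt (hB : IsOpen B) (hB' : IsOpen B') (hρ : Ker δ ρ)
    (hs : ∀ g : Pt, ‖g‖ ≤ δ → ∀ z ∈ B, mul g z ∈ B') (h : LocallyIntegrableOn f B') :
    LocallyIntegrableOn (lav ρ f) B := by
  rw [locallyIntegrableOn_iff hB.isLocallyClosed]
  intro K hKB hK
  have h1 := (PhiInt hρ (ind_int hK hKB hs h)).integral_prod_right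
  refine (h1.integrableOn (s := K)).congr_fun (fun z hz => ?_) hK.measurableSet
  exact (lav_ind hρ hz f).symm

private theorem fub_int (hρ : Ker δ ρ) {ψ : Pt → ℝ} (hψ : Continuous ψ)
    (hc : HasCompactSupport ψ) {f₀ : Pt → E} (h : Integrable f₀) :
    Integrable (fun p : Pt × Pt => ψ p.2 • (ρ p.1 • f₀ (mul p.1 p.2)))
      ((volume : Measure Pt).prod volume) := by
  obtain ⟨C, hC⟩ := hψ.bounded_above_of_compact_support hc
  refine (PhiInt hρ h).bdd_smul C ?_ (ae_of_all _ fun p => hC p.2)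
  exact (hψ.comp continuous_snd).aestronglyMeasurable

private theorem fub_eq (hρ : Ker δ ρ) {ψ : Pt → ℝ} {g : Pt} (f : Pt → E) (z : Pt) :
    ψ z • (ρ g • (KK δ (tsupport ψ)).indicator f (mul g z)) =
      ρ g • (ψ z • f (mul g z)) := by
  rw [smul_comm]
  by_cases hg : ‖g‖ ≤ δ
  · by_cases hz : z ∈ tsupport ψ
    · rw [indicator_of_mem (KK_mem hg hz)]
    · rw [image_eq_zero_of_notMem_tsupport hz, zero_smul, zero_smul]
  · rw [ker_zero hρ hg, zero_smul, zero_smul]

private theorem fub (hρ : Ker δ ρ) (hs : ∀ g : Pt, ‖g‖ ≤ δ → ∀ z ∈ B, mul g z ∈ B')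
    (h : LocallyIntegrableOn f B') {ψ : Pt → ℝ} (hψ : Continuous ψ)
    (hc : HasCompactSupport ψ) (hsu : tsupport ψ ⊆ B) :
    ∫ z, ψ z • lav ρ f z = ∫ g, ρ g • ∫ z, ψ z • f (mul g z) := by
  have hK : IsCompact (tsupport ψ) := hc
  have h0 := ind_int hK hsu hs h
  have e1 : ∀ z, ψ z • lav ρ f z =
      ∫ g, ψ z • (ρ g • (KK δ (tsupport ψ)).indicator f (mul g z)) := by
    intro z
    rw [integral_smul]
    by_cases hz : z ∈ tsupport ψ
    · rw [lav_ind hρ hz f]
    · rw [image_eq_zero_of_notMem_tsupport hz, zero_smul, zero_smul]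
  have e2 : ∀ g, ρ g • ∫ z, ψ z • f (mul g z) =
      ∫ z, ψ z • (ρ g • (KK δ (tsupport ψ)).indicator f (mul g z)) := by
    intro g
    rw [← integral_smul]
    exact integral_congr_ae (ae_of_all _ fun z => (fub_eq hρ f z).symm)
  simp only [e1, e2]
  exact (integral_integral_swap
    (f := fun g z => ψ z • (ρ g • (KK δ (tsupport ψ)).indicator f (mul g z)))
    (fub_int hρ hψ hc h0)).symm

private theorem fub_outer (hρ : Ker δ ρ) (hs : ∀ g : Pt, ‖g‖ ≤ δ → ∀ z ∈ B, mul g z ∈ B')
    (h : LocallyIntegrableOn f B') {ψ : Pt → ℝ} (hψ : Continuous ψ)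
    (hc : HasCompactSupport ψ) (hsu : tsupport ψ ⊆ B) :
    Integrable fun g => ρ g • ∫ z, ψ z • f (mul g z) := by
  have hK : IsCompact (tsupport ψ) := hc
  have h0 := ind_int hK hsu hs h
  have h1 := (fub_int hρ hψ hc h0).integral_prod_left
  refine h1.congr (ae_of_all _ fun g => ?_)
  show ∫ z, ψ z • (ρ g • (KK δ (tsupport ψ)).indicator f (mul g z)) =
    ρ g • ∫ z, ψ z • f (mul g z)
  rw [← integral_smul]
  exact integral_congr_ae (ae_of_all _ fun z => fub_eq hρ f z)

private theorem WD_mul (hB' : IsOpen B') (hF : F = vX ∨ F = vY ∨ F = vT)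
    (h : WD F B' f f') (g : Pt) :
    WD F ((fun z => mul g z) ⁻¹' B') (fun z => f (mul g z)) (fun z => f' (mul g z)) := by
  have e : (fun z => mul g z) = tau g 1 := by
    funext z
    exact mul_tau g z
  have e1 : (fun z => f (mul g z)) = fun z => f (tau g 1 z) := by
    funext z
    rw [mul_tau]
  have e2 : (fun z => f' (mul g z)) = fun z => f' (tau g 1 z) := by
    funext z
    rw [mul_tau]
  rw [e, e1, e2]
  rcases hF with rfl | rfl | rfl
  · have := h.tauX hB' g one_pos
    simpa using this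
  · have := h.tauY hB' g one_pos
    simpa using this
  · have := h.tauT hB' g one_pos
    simpa using this

theorem lav_WD (hB : IsOpen B) (hB' : IsOpen B') (hρ : Ker δ ρ)
    (hs : ∀ g : Pt, ‖g‖ ≤ δ → ∀ z ∈ B, mul g z ∈ B') (hF : F = vX ∨ F = vY ∨ F = vT)
    (h : WD F B' f f') : WD F B (lav ρ f) (lav ρ f') := by
  refine ⟨lav_locInt hB hB' hρ hs h.lf, lav_locInt hB hB' hρ hs h.lg, fun φ hφ => ?_⟩
  have hd := hφ.der F
  rw [fub hρ hs h.lf hd.smooth.continuous hd.cpt hd.supp,
    fub hρ hs h.lg hφ.smooth.continuous hφ.cpt hφ.supp, ← integral_neg]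
  refine integral_congr_ae (ae_of_all _ fun g => ?_)
  show ρ g • ∫ z, der F φ z • f (mul g z) = -(ρ g • ∫ z, φ z • f' (mul g z))
  by_cases hg : ‖g‖ ≤ δ
  · have h1 := (WD_mul hB' hF h g).eq φ ⟨hφ.smooth, hφ.cpt, fun z hz =>
      hs g hg z (hφ.supp hz)⟩
    rw [h1, smul_neg]
  · rw [ker_zero hρ hg, zero_smul, zero_smul, neg_zero]

private theorem Sol0_mul {W : Type*} [NormedAddCommGroup W] [InnerProductSpace ℝ W]
    [CompleteSpace W] {σ : Pt → V2 W} (h : Sol0 B' σ) (g : Pt) {φ : Pt → ℝ}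
    (hφ : Tst ((fun z => mul g z) ⁻¹' B') φ) :
    ∫ z, (der vX φ z • σ (mul g z) 0 + der vY φ z • σ (mul g z) 1) = 0 := by
  have h1 : (0 : ℝ) < 1 := one_pos
  set ψ : Pt → ℝ := fun z => φ (tauI g 1 z) with hψ
  have hT : Tst B' ψ := by
    refine ⟨hφ.smooth.comp (smooth_tauI g 1), ?_, ?_⟩
    · exact hφ.cpt.comp_homeomorph (tauH g h1).symm
    · intro z hz
      have h2 : z ∈ tauI g 1 ⁻¹' tsupport φ :=
        tsupport_comp_subset_preimage φ (smooth_tauI g 1).continuous hz
      have h3 := hφ.supp h2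
      rw [mem_preimage, mul_tau, tau_tauI g h1] at h3
      exact h3
  have hφψ : φ = fun z => ψ (tau g 1 z) := by
    funext z
    rw [hψ]
    simp only [tauI_tau g h1]
  have hdψ : Differentiable ℝ ψ := hT.smooth.differentiable (by simp)
  have eX : ∀ z, der vX φ z = der vX ψ (tau g 1 z) := by
    intro z
    rw [hφψ, der_tauX hdψ g 1 z, one_smul]
  have eY : ∀ z, der vY φ z = der vY ψ (tau g 1 z) := by
    intro z
    rw [hφψ, der_tauY hdψ g 1 z, one_smul]
  have e : ∀ z, der vX φ z • σ (mul g z) 0 + der vY φ z • σ (mul g z) 1 =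
      (fun w => der vX ψ w • σ w 0 + der vY ψ w • σ w 1) (tau g 1 z) := by
    intro z
    rw [eX, eY, mul_tau]
  simp only [e]
  have h2 := (mp_tau g).integral_comp (tauH g h1).measurableEmbedding
    (fun w => der vX ψ w • σ w 0 + der vY ψ w • σ w 1)
  rw [h2]
  exact h ψ hT

private theorem int_smulE {U : Set Pt} {ψ : Pt → ℝ} (hψ : Continuous ψ)
    (hc : HasCompactSupport ψ) (hs : tsupport ψ ⊆ U) (hf : LocallyIntegrableOn f U) :
    Integrable (fun z => ψ z • f z) := by
  have h1 : IntegrableOn f (tsupport ψ) := hf.integrableOn_compact_subset hs hc.isCompact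
  have h2 : IntegrableOn (fun z => ψ z • f z) (tsupport ψ) :=
    h1.continuousOn_smul hψ.continuousOn hc.isCompact
  refine (integrableOn_iff_integrable_of_support_subset ?_).1 h2
  intro z hz
  refine subset_tsupport ψ ?_
  intro h0
  exact hz (by simp [h0])

private theorem li_mul (hB' : IsOpen B') (h : LocallyIntegrableOn f B') (g : Pt) :
    LocallyIntegrableOn (fun z => f (mul g z)) ((fun z => mul g z) ⁻¹' B') := by
  have hc : Continuous fun z => mul g z := cont_mul.comp (Continuous.prodMk_right g)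
  have hU' : IsOpen ((fun z => mul g z) ⁻¹' B') := hB'.preimage hc
  rw [locallyIntegrableOn_iff hU'.isLocallyClosed]
  intro K hKU hK
  have hcK : IsCompact ((fun z => mul g z) '' K) := hK.image hc
  have h1 : IntegrableOn f ((fun z => mul g z) '' K) :=
    h.integrableOn_compact_subset (image_subset_iff.2 hKU) hcK
  have h2 := (integrable_indicator_iff hcK.measurableSet).2 h1
  have h3 := (mp_mul g).integrable_comp_of_integrable h2
  refine (h3.integrableOn (s := K)).congr_fun (fun z hz => ?_) hK.measurableSet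
  exact indicator_of_mem (mem_image_of_mem _ hz) f

private theorem proj_fub {W : Type*} [NormedAddCommGroup W] [InnerProductSpace ℝ W]
    [CompleteSpace W] {σ : Pt → V2 W} (hB : IsOpen B) (hB' : IsOpen B') (hρ : Ker δ ρ)
    (hs : ∀ g : Pt, ‖g‖ ≤ δ → ∀ z ∈ B, mul g z ∈ B') (hσ : LocallyIntegrableOn σ B')
    {ψ : Pt → ℝ} (hψ : Continuous ψ) (hc : HasCompactSupport ψ) (hsu : tsupport ψ ⊆ B)
    (i : Fin 2) :
    Integrable (fun z => ψ z • lav ρ σ z i) ∧
    (∫ z, ψ z • lav ρ σ z i = ∫ g, ρ g • ∫ z, ψ z • σ (mul g z) i) ∧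
    (∀ g, ‖g‖ ≤ δ → Integrable fun z => ψ z • σ (mul g z) i) ∧
    Integrable fun g => ρ g • ∫ z, ψ z • σ (mul g z) i := by
  let P : V2 W →L[ℝ] W := PiLp.proj 2 (fun _ : Fin 2 => W) i
  have hP : ∀ v : V2 W, P v = v i := fun v => rfl
  have i1 : Integrable (fun z => ψ z • lav ρ σ z) :=
    int_smulE hψ hc hsu (lav_locInt hB hB' hρ hs hσ)
  have i2 : ∀ g, ‖g‖ ≤ δ → Integrable fun z => ψ z • σ (mul g z) := fun g hg =>
    int_smulE hψ hc (fun z hz => hs g hg z (hsu hz)) (li_mul hB' hσ g)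
  have i3 := fub_outer hρ hs hσ hψ hc hsu
  have e2 : ∀ g, P (ρ g • ∫ z, ψ z • σ (mul g z)) = ρ g • ∫ z, ψ z • σ (mul g z) i := by
    intro g
    rw [map_smul]
    by_cases hg : ‖g‖ ≤ δ
    · rw [← P.integral_comp_comm (i2 g hg)]
      rfl
    · rw [ker_zero hρ hg, zero_smul, zero_smul]
  refine ⟨P.integrable_comp i1, ?_, fun g hg => P.integrable_comp (i2 g hg), ?_⟩
  · have h1 := P.integral_comp_comm i1
    have h2 := P.integral_comp_comm i3
    rw [← fub hρ hs hσ hψ hc hsu, ← h1] at h2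
    simp only [e2] at h2
    exact h2.symm
  · exact (P.integrable_comp i3).congr (ae_of_all _ fun g => e2 g)

theorem lav_Sol0 {W : Type*} [NormedAddCommGroup W] [InnerProductSpace ℝ W] [CompleteSpace W]
    {σ : Pt → V2 W} (hB : IsOpen B) (hB' : IsOpen B') (hρ : Ker δ ρ)
    (hs : ∀ g : Pt, ‖g‖ ≤ δ → ∀ z ∈ B, mul g z ∈ B') (hσ : LocallyIntegrableOn σ B')
    (h : Sol0 B' σ) : Sol0 B (lav ρ σ) := by
  intro φ hφ
  have tX := hφ.der vX
  have tY := hφ.der vY
  obtain ⟨a1, a2, a3, a4⟩ := proj_fub hB hB' hρ hs hσ tX.smooth.continuous tX.cpt tX.supp 0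
  obtain ⟨b1, b2, b3, b4⟩ := proj_fub hB hB' hρ hs hσ tY.smooth.continuous tY.cpt tY.supp 1
  rw [integral_add a1 b1, a2, b2, ← integral_add a4 b4]
  refine Eq.trans (integral_congr_ae (ae_of_all _ fun g => ?_)) (integral_zero Pt W)
  show (ρ g • ∫ z, der vX φ z • σ (mul g z) 0) + (ρ g • ∫ z, der vY φ z • σ (mul g z) 1) = 0
  by_cases hg : ‖g‖ ≤ δ
  · rw [← smul_add, ← integral_add (a3 g hg) (b3 g hg),
      Sol0_mul h g ⟨hφ.smooth, hφ.cpt, fun z hz => hs g hg z (hφ.supp hz)⟩, smul_zero]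
  · rw [ker_zero hρ hg, zero_smul, zero_smul, add_zero]

private theorem inv_neg (z : Pt) : inv z = -z := rfl

private theorem mp_inv : MeasurePreserving inv (volume : Measure Pt) volume := by
  haveI i2 : (volume : Measure (ℝ × ℝ)).IsAddHaarMeasure :=
    inferInstanceAs (((volume : Measure ℝ).prod (volume : Measure ℝ)).IsAddHaarMeasure)
  haveI i3 : (volume : Measure Pt).IsAddHaarMeasure :=
    inferInstanceAs (((volume : Measure ℝ).prod (volume : Measure (ℝ × ℝ))).IsAddHaarMeasure)
  have e : inv = fun z => -z := by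
    funext z
    exact inv_neg z
  rw [e]
  exact Measure.measurePreserving_neg volume

private theorem inv_inv' (z : Pt) : inv (inv z) = z := by
  rw [inv_neg, inv_neg, neg_neg]

/-- right translation -/
private theorem rt_eq (z g : Pt) : mul g z = inv (tau (inv z) 1 (inv g)) := by
  unfold tau dil mul inv
  refine Prod.ext ?_ (Prod.ext ?_ ?_) <;> simp <;> ring

private theorem mp_rt (z : Pt) : MeasurePreserving (fun g => mul g z) volume volume := by
  have e : (fun g => mul g z) = inv ∘ tau (inv z) 1 ∘ inv := by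
    funext g
    exact rt_eq z g
  rw [e]
  exact mp_inv.comp ((mp_tau (inv z)).comp mp_inv)

private theorem mul_cancel (g z : Pt) : mul (mul g z) (inv z) = g := by
  unfold mul inv
  refine Prod.ext ?_ (Prod.ext ?_ ?_) <;> simp
  ring

private theorem mul_cancel' (g z : Pt) : mul (mul g (inv z)) z = g := by
  unfold mul inv
  refine Prod.ext ?_ (Prod.ext ?_ ?_) <;> simp
  ring

private theorem rt_emb (z : Pt) : MeasurableEmbedding (fun g => mul g z) := by
  let H : Pt ≃ₜ Pt :=
    { toFun := fun g => mul g z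
      invFun := fun g => mul g (inv z)
      left_inv := fun g => mul_cancel g z
      right_inv := fun g => mul_cancel' g z
      continuous_toFun := cont_mul.comp (Continuous.prodMk_left z)
      continuous_invFun := cont_mul.comp (Continuous.prodMk_left (inv z)) }
  exact H.measurableEmbedding

private theorem lav_right (hρ : Ker δ ρ)
    (hs : ∀ g : Pt, ‖g‖ ≤ δ → ∀ z ∈ B, mul g z ∈ B') {z : Pt} (hz : z ∈ B) {S : Set Pt}
    (hS : B' ⊆ S) (f : Pt → E) :
    lav ρ f z = ∫ w, ρ (mul w (inv z)) • S.indicator f w := by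
  have h1 := (mp_rt z).integral_comp (rt_emb z)
    (fun w => ρ (mul w (inv z)) • S.indicator f w)
  rw [← h1]
  unfold lav
  refine integral_congr_ae (ae_of_all _ fun g => ?_)
  show ρ g • f (mul g z) = ρ (mul (mul g z) (inv z)) • S.indicator f (mul g z)
  rw [mul_cancel]
  by_cases hg : ‖g‖ ≤ δ
  · rw [indicator_of_mem (hS (hs g hg z hz))]
  · rw [ker_zero hρ hg, zero_smul, zero_smul]

private theorem meas_hull (h : IntegrableOn f B') :
    Integrable ((toMeasurable volume B').indicator f) := by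
  rw [integrable_indicator_iff (measurableSet_toMeasurable _ _), IntegrableOn,
    Measure.restrict_toMeasurable_of_sFinite]
  exact h

theorem lav_cont (hB : IsOpen B) (hρ : Ker δ ρ)
    (hs : ∀ g : Pt, ‖g‖ ≤ δ → ∀ z ∈ B, mul g z ∈ B') (h : IntegrableOn f B') :
    ContinuousOn (lav ρ f) B := by
  obtain ⟨C, hC⟩ := ker_bdd hρ
  have h0 := meas_hull h
  have hcont : Continuous fun z : Pt =>
      ∫ w, ρ (mul w (inv z)) • (toMeasurable volume B').indicator f w := by
    have hm : ∀ z : Pt, Continuous fun w : Pt => ρ (mul w (inv z)) := fun z =>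
      hρ.smooth.continuous.comp (cont_mul.comp (Continuous.prodMk_left (inv z)))
    refine continuous_of_dominated (bound := fun w =>
      C * ‖(toMeasurable volume B').indicator f w‖) ?_ ?_ ?_ ?_
    · intro z
      exact (hm z).aestronglyMeasurable.smul h0.aestronglyMeasurable
    · intro z
      refine ae_of_all _ fun w => ?_
      rw [norm_smul]
      exact mul_le_mul_of_nonneg_right (hC _) (norm_nonneg _)
    · exact h0.norm.const_mul C
    · refine ae_of_all _ fun w => ?_
      have hinv : Continuous fun z : Pt => inv z := by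
        have e : (fun z : Pt => inv z) = fun z => -z := by
          funext z
          exact inv_neg z
        rw [e]
        exact continuous_neg
      have hc : Continuous fun z : Pt => mul w (inv z) :=
        cont_mul.comp (Continuous.prodMk continuous_const hinv)
      exact Continuous.smul (hρ.smooth.continuous.comp hc) continuous_const
  refine hcont.continuousOn.congr fun z hz => ?_
  exact lav_right hρ hs hz (subset_toMeasurable _ _) f

theorem lav_bdd (hρ : Ker δ ρ)
    (hs : ∀ g : Pt, ‖g‖ ≤ δ → ∀ z ∈ B, mul g z ∈ B') (hB' : MeasurableSet B')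
    (h : IntegrableOn f B') : ∃ M : ℝ, ∀ z ∈ B, ‖lav ρ f z‖ ≤ M := by
  obtain ⟨C, hC⟩ := ker_bdd hρ
  have h0 := meas_hull h
  refine ⟨C * ∫ w, ‖(toMeasurable volume B').indicator f w‖, fun z hz => ?_⟩
  rw [lav_right hρ hs hz (subset_toMeasurable volume B') f, ← integral_const_mul]
  refine (norm_integral_le_integral_norm _).trans (integral_mono_of_nonneg
    (ae_of_all _ fun w => norm_nonneg _) (h0.norm.const_mul C) (ae_of_all _ fun w => ?_))
  show ‖ρ (mul w (inv z)) • (toMeasurable volume B').indicator f w‖ ≤ _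
  rw [norm_smul]
  exact mul_le_mul_of_nonneg_right (hC _) (norm_nonneg _)

end PLH
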